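import Pool.Agent.P.MP_12d50c_ag.If4

/-!
The functional on the function field of a curve.
-/

open MvPolynomial Function
open scoped Polynomial

namespace Pool.Agent.P.MP_12d50c_ag

namespace AC

variable {k : Type} [Field k] {N : ℕ} {E : Type} [Field E] [Algebra k E]

theorem fin_div {p : E[X]} (hp : p ≠ 0) :
    {π : E[X] | (π.Monic ∧ Irreducible π) ∧ π ∣ p}.Finite := by
  classical
  refine (UniqueFactorizationMonoid.normalizedFactors p).toFinset.finite_toSet.subset ?_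
  rintro π ⟨⟨h1, h2⟩, h3⟩
  rw [Finset.mem_coe, Multiset.mem_toFinset, Polynomial.mem_normalizedFactors_iff hp]
  exact ⟨h2, h1, h3⟩

theorem fin_supp (a : E[X] → ℚ) {p : E[X]} (hp : p ≠ 0) :
    ({π : E[X] | π.Monic ∧ Irreducible π} ∩
      support fun π => a π * (multiplicity π p : ℚ)).Finite :=
  (fin_div hp).subset fun π h => ⟨h.1, by
    by_contra hd
    exact h.2 (by simp [multiplicity_eq_zero.2 hd])⟩

theorem cyc_mul (φ : Ideal (RR k N 1) → ℚ) (ξ : Fin (N + 1) → E) {p p' : E[X]} (hp : p ≠ 0)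
    (hp' : p' ≠ 0) : cyc φ ξ (p * p') = cyc φ ξ p + cyc φ ξ p' := by
  unfold cyc
  rw [← finsum_mem_add_distrib' (fin_supp _ hp) (fin_supp _ hp')]
  refine finsum_mem_congr rfl fun π h => ?_
  rw [multiplicity_mul h.2.prime (FiniteMultiplicity.of_prime_left h.2.prime (mul_ne_zero hp hp')),
    Nat.cast_add, mul_add]

theorem cyc_C (φ : Ideal (RR k N 1) → ℚ) (ξ : Fin (N + 1) → E) {c : E} (hc : c ≠ 0) :
    cyc φ ξ (Polynomial.C c) = 0 := by
  refine finsum_mem_of_eqOn_zero fun π h => ?_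
  have : ¬ π ∣ Polynomial.C c := fun hd =>
    h.2.not_isUnit (isUnit_of_dvd_unit hd (Polynomial.isUnit_C.2 hc.isUnit))
  simp [multiplicity_eq_zero.2 this]

/-- The relation for coprime polynomials. -/
def RelC (φ : Ideal (RR k N 1) → ℚ) (ξ : Fin (N + 1) → E) : Prop :=
  ∀ p p' : E[X], IsCoprime p p' → p.eval 0 = p'.eval 0 → p.eval 1 = p'.eval 1 → p.eval 0 ≠ 0 →
    p.eval 1 ≠ 0 → cyc φ ξ p = cyc φ ξ p'

variable {φ : Ideal (RR k N 1) → ℚ} {ξ : Fin (N + 1) → E}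

theorem RelC.eq (h : RelC φ ξ) {p p' : E[X]} (h0 : p.eval 0 = p'.eval 0)
    (h1 : p.eval 1 = p'.eval 1) (n0 : p.eval 0 ≠ 0) (n1 : p.eval 1 ≠ 0) :
    cyc φ ξ p = cyc φ ξ p' := by
  classical
  have hp : p ≠ 0 := fun h => n0 (by simp [h])
  have hp' : p' ≠ 0 := fun h => n0 (by simp [h0, h])
  have hc := isCoprime_div_gcd_div_gcd (p := p) hp'
  have hg : GCDMonoid.gcd p p' ≠ 0 := gcd_ne_zero_of_right hp'
  have e1 := EuclideanDomain.mul_div_cancel' hg (gcd_dvd_left p p')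
  have e2 := EuclideanDomain.mul_div_cancel' hg (gcd_dvd_right p p')
  generalize p / GCDMonoid.gcd p p' = a at hc e1
  generalize p' / GCDMonoid.gcd p p' = b at hc e2
  generalize GCDMonoid.gcd p p' = d at hg e1 e2
  subst e1 e2
  simp only [Polynomial.eval_mul] at h0 h1 n0 n1
  rw [cyc_mul φ ξ hg (right_ne_zero_of_mul hp), cyc_mul φ ξ hg (right_ne_zero_of_mul hp'),
    h a b hc (mul_left_cancel₀ (left_ne_zero_of_mul n0) h0)
      (mul_left_cancel₀ (left_ne_zero_of_mul n1) h1) (right_ne_zero_of_mul n0)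
      (right_ne_zero_of_mul n1)]

/-- The linear polynomial with values `u` and `1`. -/
noncomputable def lin (u : E) : E[X] := Polynomial.C u + Polynomial.C (1 - u) * Polynomial.X

theorem lin0 (u : E) : (lin u).eval 0 = u := by simp [lin]

theorem lin1 (u : E) : (lin u).eval 1 = 1 := by simp [lin]

theorem lin_ne (u : E) : lin u ≠ 0 := fun h => by simpa [h] using lin1 u

theorem RelC.mul (h : RelC φ ξ) {u v : E} (hu : u ≠ 0) (hv : v ≠ 0) :
    cyc φ ξ (lin (u * v)) = cyc φ ξ (lin u) + cyc φ ξ (lin v) := by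
  rw [← cyc_mul φ ξ (lin_ne u) (lin_ne v)]
  exact h.eq (by simp [lin0]) (by simp [lin1]) (by simp [lin0, hu, hv]) (by simp [lin1])

theorem lin_one : cyc φ ξ (lin (1 : E)) = 0 := by
  have : lin (1 : E) = Polynomial.C 1 := by simp [lin]
  rw [this, cyc_C φ ξ one_ne_zero]

theorem RelC.pow (h : RelC φ ξ) {u : E} (hu : u ≠ 0) (n : ℕ) :
    cyc φ ξ (lin (u ^ n)) = n * cyc φ ξ (lin u) := by
  induction n with
  | zero => simp [lin_one]
  | succ n ih =>
    rw [pow_succ, h.mul (pow_ne_zero n hu) hu, ih]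
    push_cast
    ring

theorem RelC.val (h : RelC φ ξ) {p : E[X]} (n0 : p.eval 0 ≠ 0) (n1 : p.eval 1 ≠ 0) :
    cyc φ ξ p = cyc φ ξ (lin (p.eval 0)) - cyc φ ξ (lin (p.eval 1)) := by
  have hp : p ≠ 0 := fun h => n0 (by simp [h])
  have e : cyc φ ξ (p * lin (p.eval 1)) = cyc φ ξ (Polynomial.C (p.eval 1) * lin (p.eval 0)) :=
    h.eq (by simp [lin0, mul_comm]) (by simp [lin1]) (by simp [lin0, n0, n1]) (by simp [lin1, n1])
  rw [cyc_mul φ ξ hp (lin_ne _), cyc_mul φ ξ (Polynomial.C_ne_zero.2 n1) (lin_ne _),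
    cyc_C φ ξ n1] at e
  linarith

theorem th1_inc (f : PP k N) : th1 ξ (inc 1 f) = Polynomial.C (aeval ξ f) := by
  induction f using MvPolynomial.induction_on with
  | C c => simp [th, Polynomial.algebraMap_apply]
  | add f g hf hg => simp only [map_add, hf, hg]
  | mul_X f i hf =>
    simp only [map_mul, hf]
    simp [th]

theorem eval_th1 (v : Fin 2) (G : RR k N 1) :
    (th1 ξ G).eval ((v : ℕ) : E) = aeval ξ (vtx v G) := by
  induction G using MvPolynomial.induction_on with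
  | C c => simp [th, vtx, Polynomial.algebraMap_apply]
  | add f g hf hg => simp only [map_add, Polynomial.eval_add, hf, hg]
  | mul_X f i hf =>
    simp only [map_mul, Polynomial.eval_mul, hf]
    congr 1
    rcases i with i | i
    · simp [th, vtx]
    · fin_cases v <;> fin_cases i <;> simp [th, vtx]

theorem map_cyl (G : RR k N 1) :
    (cyl (van k ξ) 1 ⊔ Ideal.span {G}).map (th1 ξ) = Ideal.span {th1 ξ G} := by
  have : (cyl (van k ξ) 1).map (th1 ξ) = ⊥ := by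
    rw [eq_bot_iff, Ideal.map_le_iff_le_comap, cyl, sup_le_iff, Ideal.map_le_iff_le_comap]
    refine ⟨fun f hf => ?_, (Ideal.span_singleton_le_iff_mem _).2 ?_⟩
    · rw [Ideal.mem_comap, Ideal.mem_comap, th1_inc, aeval_eq_zero_of_mem_vanw hf, map_zero]
      exact Ideal.zero_mem _
    · rw [Ideal.mem_comap, Ideal.mem_bot]
      simp [th]
  rw [Ideal.map_sup, this, bot_sup_eq, Ideal.map_span, Set.image_singleton]

theorem cyc_th1 (m1 : S_M1) (m2 : S_M2) (vp : S_VP0) (hξ : CvD k ξ)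
    {Q : PrimeSpectrum (RR k N 1)} {G : RR k N 1} (hG : Gen1 (van k ξ) Q G) :
    cyc φ ξ (th1 ξ G) = φ Q.asIdeal := by
  obtain ⟨a1, a2, a3, a4⟩ := m1 k N E ξ hξ
  obtain ⟨π, hm, hi, hQ⟩ := a3 Q hG.cv hG.under
  obtain ⟨d, hd⟩ := hG.hom
  have hw : WHom (wt N 1) (cyl (van k ξ) 1 ⊔ Ideal.span {G}) :=
    ((vp k N 1).2.2.2.1 _ (wHom_vanw ξ)).sup (wHom_span fun f hf => ⟨d, by rwa [hf]⟩)
  have e := m2 k N E ξ π (th1 ξ G) Q _ hξ hi hQ hw le_sup_left (map_cyl G)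
  rw [hG.one] at e
  have e' : multiplicity π (th1 ξ G) = 1 := multiplicity_eq_of_emultiplicity_eq_some e.symm
  unfold cyc
  rw [finsum_mem_def, finsum_eq_single _ π, Set.indicator_of_mem (by exact ⟨hm, hi⟩), e', hQ,
    Nat.cast_one, mul_one]
  intro π' hne
  refine Set.indicator_apply_eq_zero.2 fun h' => ?_
  have : ¬ π' ∣ th1 ξ G := fun hdv => by
    obtain ⟨Q', b1, b2, b3⟩ := a2 π' h'.2
    have := hG.uniq Q' b1 b3 (b2 ▸ (a1 π' G d hd).2 hdv)
    exact hne (a4 π' π h'.1 h'.2 hm hi (by rw [← b2, this, hQ]))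
  simp [multiplicity_eq_zero.2 this]

end AC

open AC in
theorem t_AC : S_EX → S_FQ → S_FINC → S_M1 → S_M2 → S_REL → S_VP0 → S_AC := by
  intro ex fq finc m1 m2 rel vp k _ _ p _ _ N I φ hl hI hk q hq
  obtain ⟨i, hi⟩ := ((finc k N I).1 q hq).1
  obtain ⟨E, _, _, ξ, e, h1, hg⟩ := ex k _ 1 q.asIdeal i hq.1 rfl hi
  have hξ : CvD k ξ := ⟨hg, ⟨i, h1⟩, by rw [van, e]; exact hq.2.2⟩
  have hr : RelC φ ξ := fun a b => rel k N I φ E ξ a b hI hk hξ (by rw [van, e]; exact hq.2.1)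
  rw [← e]
  have ne : ∀ (g : PP k N) (d : ℕ), g.IsHomogeneous d → g ∉ van k ξ → aeval ξ g ≠ 0 :=
    fun g d hd hn h => hn ((mem_vanw_of_hom hd).2 h)
  refine ⟨fun g => cyc φ ξ (lin (aeval ξ g)), fun g g' d d' hd hd' hn hn' => ?_,
    fun g g' h => ?_, fun c hc => ?_, fun Q G hG n0 n1 => ?_⟩
  · rw [map_mul, hr.mul (ne g d hd hn) (ne g' d' hd' hn')]
  · have := aeval_eq_zero_of_mem_vanw h
    rw [map_sub, sub_eq_zero] at this
    rw [this]
  · obtain ⟨n, hn, hcn⟩ := (fq k p).2.1 hl c hc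
    have := hr.pow ((_root_.map_ne_zero (algebraMap k E)).2 hc) n
    rw [← map_pow, hcn, map_one, lin_one] at this
    rw [aeval_C]
    exact (mul_eq_zero.1 this.symm).resolve_left (by exact_mod_cast hn.ne')
  · obtain ⟨d, hd⟩ := hG.hom
    have e0 : (th1 ξ G).eval 0 = aeval ξ (vtx 0 G) := by simpa using eval_th1 (ξ := ξ) 0 G
    have e1 : (th1 ξ G).eval 1 = aeval ξ (vtx 1 G) := by simpa using eval_th1 (ξ := ξ) 1 G
    rw [← cyc_th1 (φ := φ) m1 m2 vp hξ hG, hr.val (e0 ▸ ne _ d (((vp k N 1).2.2.2.2 0).2.1 G d hd) n0)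
      (e1 ▸ ne _ d (((vp k N 1).2.2.2.2 1).2.1 G d hd) n1), e0, e1]

end Pool.Agent.P.MP_12d50c_ag
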