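import Pool.Agent.P.MP_12d50c_ag.If4
import Pool.Agent.P.MP_638e8a_ag.ChA2
import Pool.Agent.P.MP_638e8a_ag.ChA3

/-!
The associativity formula for lengths.
-/

open Pool.Agent.P.MP_638e8a_ag.Cyc
open scoped Pointwise

namespace Pool.Agent.P.MP_12d50c_ag

namespace AS

theorem one {A : Type} [CommRing A] (I : Ideal A) (a : A) (h : ∀ b, a * b ∈ I → b ∈ I) :
    emult [a] (A ⧸ I) = (Module.length A (A ⧸ (I ⊔ Ideal.span {a}))).toNat := by
  have : Subsingleton (Submodule.torsionBy A (A ⧸ I) a) := by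
    refine subsingleton_of_forall_eq 0 fun ⟨m, hm⟩ => Subtype.ext ?_
    obtain ⟨b, rfl⟩ := Ideal.Quotient.mk_surjective m
    rw [Submodule.mem_torsionBy_iff] at hm
    exact Ideal.Quotient.eq_zero_iff_mem.2 (h b (Ideal.Quotient.eq_zero_iff_mem.1 hm))
  rw [emult_cons, emult_of_subsingleton (M := Submodule.torsionBy A (A ⧸ I) a), sub_zero,
    ← emult_nil]
  refine A2.eq_of_ker [] ((a • (⊤ : Submodule A (A ⧸ I))).mkQ ∘ₗ I.mkQ) (I ⊔ Ideal.span {a}).mkQ
    ((Submodule.mkQ_surjective _).comp (Submodule.mkQ_surjective _))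
    (Submodule.mkQ_surjective _) fun z => ?_
  rw [LinearMap.comp_apply, Submodule.mkQ_apply, A2.mk_eq_zero, Submodule.mkQ_apply,
    Submodule.mkQ_apply, Submodule.Quotient.mk_eq_zero, sup_comm, Ideal.mem_span_singleton_sup]
  constructor
  · rintro ⟨m, hm⟩
    obtain ⟨b, rfl⟩ := Submodule.Quotient.mk_surjective _ m
    rw [← Submodule.Quotient.mk_smul, eq_comm, Submodule.Quotient.eq] at hm
    exact ⟨b, _, hm, by rw [smul_eq_mul]; ring⟩
  · rintro ⟨b, m, hm, rfl⟩
    refine ⟨Submodule.Quotient.mk b, ?_⟩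
    rw [← Submodule.Quotient.mk_smul, eq_comm, Submodule.Quotient.eq, smul_eq_mul, mul_comm,
      add_sub_cancel_left]
    exact hm

theorem len_eq' {R : Type} [CommRing R] (J q : Ideal R) [q.IsPrime] (x : R) :
    len (J ⊔ Ideal.span {x}) q = Module.length (Localization.AtPrime q) (Localization.AtPrime q ⧸
      (J.map (algebraMap R (Localization.AtPrime q)) ⊔ Ideal.span {algebraMap R _ x})) := by
  unfold len LQ
  rw [Ideal.map_sup, Ideal.map_span, Set.image_singleton]

theorem len_eq {R : Type} [CommRing R] (J P : Ideal R) [P.IsPrime] (C : Type) [CommRing C]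
    [Algebra R C] [IsLocalization.AtPrime C P] :
    emult [] (R := C) (C ⧸ J.map (algebraMap R C)) = (len J P).toNat :=
  (emult_localized_quot [] J P C).symm.trans
    (emult_localized_quot [] J P (Localization.AtPrime P))

end AS

theorem t_AS : S_AS := by
  intro R _ _ J q _ x S h1 h2 h3 hreg
  by_cases hx : x ∈ q
  swap
  · have z : ∀ K : Ideal R, len (K ⊔ Ideal.span {x}) q = 0 := fun K => len_eq_zero_iff.2 fun h =>
      hx (h (Ideal.mem_sup_right (Ideal.mem_span_singleton_self x)))
    simp [z]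
  let A := Localization.AtPrime q
  let f := algebraMap R A
  let c := PrimeSpectrum.comap f
  have cinj : Function.Injective c := PrimeSpectrum.localization_comap_injective A q.primeCompl
  have crng : ∀ P : PrimeSpectrum R, P ∈ Set.range c ↔ P.asIdeal ≤ q := fun P => by
    rw [PrimeSpectrum.localization_comap_range A q.primeCompl, Set.mem_ofPred_eq,
      Set.disjoint_left]
    exact ⟨fun h a ha => by_contra fun hn => h hn ha, fun h a ha hb => ha (h hb)⟩
  have cmap : ∀ Q : PrimeSpectrum A, (c Q).asIdeal.map f = Q.asIdeal := fun Q =>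
    IsLocalization.map_under q.primeCompl A Q.asIdeal
  have cmax : ∀ Q : PrimeSpectrum A, Q.asIdeal.IsMaximal ↔ (c Q).asIdeal = q := fun Q => by
    constructor
    · intro h
      change Ideal.comap f Q.asIdeal = q
      rw [IsLocalRing.eq_maximalIdeal h]
      exact Localization.AtPrime.under_maximalIdeal
    · intro h
      rw [← cmap, h, Localization.AtPrime.map_eq_maximalIdeal]
      infer_instance
  have alt : ∀ Q : PrimeSpectrum A, J.map f ≤ Q.asIdeal → Q.asIdeal.IsMaximal ∨ c Q ∈ S :=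
    fun Q hQ => by
      rcases ((crng _).1 ⟨Q, rfl⟩).lt_or_eq with h | h
      · exact Or.inr (h1 _ (Ideal.map_le_iff_le_comap.1 hQ) h)
      · exact Or.inl ((cmax Q).2 h)
  have hd : ∀ Q : PrimeSpectrum A, J.map f ≤ Q.asIdeal → Order.coheight Q ≤ (1 : ℕ) :=
    fun Q hQ => Order.coheight_le_coe_iff.2 fun Q' hlt => by
      rw [Nat.cast_one, Order.lt_one_iff, Order.coheight_eq_zero, PrimeSpectrum.isMax_iff]
      refine (alt Q' (hQ.trans hlt.le)).resolve_right fun a => ?_
      rcases alt Q hQ with b | b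
      · exact hlt.not_isMax (PrimeSpectrum.isMax_iff.2 b)
      · exact hlt.ne (cinj (h3 _ b _ a (Ideal.comap_mono (f := f) hlt.le)))
  have key := emult_append_quot [] [f x] (J.map f)
    (ms_quot_iff.2 fun Q hQ a b => (alt ⟨Q, hQ⟩ a).resolve_right fun h =>
      (h2 _ h).2 (b (Ideal.subset_span (by simp))))
    (S.preimage c cinj.injOn) PrimeSpectrum.asIdeal (fun _ _ => PrimeSpectrum.ext)
    (fun i => Localization.AtPrime i.asIdeal)
    (fun P hP a _ => by
      rw [A7.dim_quot]
      exact WithBot.coe_le_coe.2 (hd ⟨P, hP⟩ a))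
    (fun P hP a _ e => ⟨⟨P, hP⟩, Finset.mem_preimage.2 ((alt ⟨P, hP⟩ a).resolve_left fun h => by
      rw [A7.dim_quot, Order.coheight_eq_zero.2 (PrimeSpectrum.isMax_iff.2 h)] at e
      simp at e), rfl⟩)
    (fun i hi => by
      have a := h2 _ (Finset.mem_preimage.1 hi)
      have b : Order.coheight i ≠ 0 := fun h => a.2 (by
        rw [(cmax i).1 (PrimeSpectrum.isMax_iff.1 (Order.coheight_eq_zero.1 h))]
        exact hx)
      rw [A7.dim_quot]
      exact congrArg _ (le_antisymm (hd i (Ideal.map_le_iff_le_comap.2 a.1))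
        (Order.one_le_iff_ne_zero.2 b)))
  have lhs : emult [f x] (A ⧸ J.map f) = (len (J ⊔ Ideal.span {x}) q).toNat := by
    rw [AS.one, AS.len_eq']
    intro b hb
    obtain ⟨⟨a, s⟩, e⟩ := IsLocalization.surj q.primeCompl b
    have hs := IsLocalization.map_units A s
    rw [← Ideal.mul_unit_mem_iff_mem _ hs, mul_assoc, e, ← map_mul,
      IsLocalization.algebraMap_mem_map_algebraMap_iff q.primeCompl] at hb
    obtain ⟨m, hm, hb⟩ := hb
    obtain ⟨t, ht, hb⟩ := hreg (m * a) (by rwa [mul_left_comm])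
    rw [← Ideal.mul_unit_mem_iff_mem _ hs, e,
      IsLocalization.algebraMap_mem_map_algebraMap_iff q.primeCompl]
    exact ⟨t * m, q.primeCompl.mul_mem ht hm, by rwa [mul_assoc]⟩
  rw [List.nil_append, lhs] at key
  rw [← Finset.sum_preimage c S cinj.injOn _ fun P _ hP => by
    rw [len_eq_zero_iff (J := P.asIdeal ⊔ _) |>.2 fun h => hP ((crng P).2 (le_sup_left.trans h)),
      ENat.toNat_zero, mul_zero]]
  zify
  rw [key]
  refine Finset.sum_congr rfl fun i hi => ?_
  have a := (h2 _ (Finset.mem_preimage.1 hi)).2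
  have := IsLocalization.isLocalization_isLocalization_atPrime_isLocalization q.primeCompl
    (Localization.AtPrime i.asIdeal) i.asIdeal
  rw [List.map_nil, Ideal.map_map, ← IsScalarTower.algebraMap_eq,
    AS.len_eq J (i.asIdeal.comap f), AS.one _ _ fun b hb => (i.2.mem_or_mem hb).resolve_left a]
  rw [AS.len_eq', cmap]
  rfl

end Pool.Agent.P.MP_12d50c_ag
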