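import Pool.Agent.P.MP_12d50c_ag.If1

/-!
A criterion for two forms to have no common component on a surface.
-/

open MvPolynomial

namespace Pool.Agent.P.MP_12d50c_ag

namespace AV

theorem dim_drop {R : Type} [CommRing R] {I q : Ideal R} (hI : I.IsPrime) (hle : I ≤ q) {h : R}
    (h1 : h ∉ I) (h2 : h ∈ q) (h3 : ringKrullDim (R ⧸ I) = (2 + 1 : ℕ)) :
    ringKrullDim (R ⧸ q) ≤ 2 := by
  have h4 : Ideal.Quotient.mk I h ∈ nonZeroDivisors (R ⧸ I) :=
    mem_nonZeroDivisors_of_ne_zero fun h0 => h1 (Ideal.Quotient.eq_zero_iff_mem.1 h0)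
  have h5 := ringKrullDim_succ_le_of_surjective (Ideal.Quotient.factor hle)
    (Ideal.Quotient.factor_surjective hle) h4 (by
      rw [Ideal.Quotient.factor_mk]
      exact Ideal.Quotient.eq_zero_iff_mem.2 h2)
  rw [h3] at h5
  generalize ringKrullDim (R ⧸ q) = d at h5 ⊢
  induction d using WithBot.recBotCoe with
  | bot => exact bot_le
  | coe d =>
    induction d using ENat.recTopCoe with
    | top => exact absurd h5 (by decide)
    | coe d =>
      have h6 : (((d + 1 : ℕ) : ℕ∞) : WithBot ℕ∞) ≤ (((2 + 1 : ℕ) : ℕ∞) : WithBot ℕ∞) := h5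
      have h7 : d + 1 ≤ 2 + 1 := ENat.coe_le_coe.1 (WithBot.coe_le_coe.1 h6)
      have h8 : d ≤ 2 := by omega
      exact WithBot.coe_le_coe.2 (ENat.coe_le_coe.2 h8)

end AV

theorem t_AV : S_NSP → S_NS0 → S_AV := by
  intro hNSP hNS0 k _ _ N I h e Z hI hh hhI hZ
  have hJ : Hom (I ⊔ Ideal.span {h}) :=
    WHom.sup hI.hom (wHom_span fun f hf => ⟨e, by rw [Set.mem_singleton_iff.1 hf]; exact hh⟩)
  have hinf : {y : NP k N | On I y.1}.Infinite := by
    intro hf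
    obtain ⟨y, hy⟩ := ((hNSP k N).2 I hI.prime hI.hom hI.rel).2.2.1 hf
    have h1 := hI.dim
    rw [hy, hNS0.1 k N y] at h1
    norm_cast at h1
  obtain ⟨y0, hy0, hy0Z⟩ := hinf.exists_notMem_finite hZ
  have hch : ∀ q : Ideal (PP k N), ∃ y : NP k N, (On I y.1 ∧ y ∉ Z) ∧
      (I ≤ q → {y : NP k N | On q y.1}.Infinite → On q y.1) := by
    intro q
    by_cases hq : I ≤ q ∧ {y : NP k N | On q y.1}.Infinite
    · obtain ⟨y, hy, hyZ⟩ := hq.2.exists_notMem_finite hZ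
      exact ⟨y, ⟨fun f hf => hy f (hq.1 hf), hyZ⟩, fun _ _ => hy⟩
    · exact ⟨y0, ⟨hy0, hy0Z⟩, fun h1 h2 => absurd ⟨h1, h2⟩ hq⟩
  choose c hc1 hc2 using hch
  have hfin := Ideal.finite_minimalPrimes_of_isNoetherianRing (PP k N) (I ⊔ Ideal.span {h})
  refine ⟨insert y0 (c '' (I ⊔ Ideal.span {h}).minimalPrimes), (hfin.image c).insert y0, ?_, ?_⟩
  · rintro y (rfl | ⟨q, -, rfl⟩)
    · exact ⟨hy0, hy0Z⟩
    · exact hc1 q
  intro g e' hg hT
  refine ⟨⟨e, hh⟩, ⟨e', hg⟩, hhI, fun h0 => hT y0 (Set.mem_insert _ _) (hy0 g h0), ?_⟩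
  have key : ∀ q ∈ (I ⊔ Ideal.span {h}).minimalPrimes,
      {y : NP k N | On q y.1 ∧ aeval y.1 g = 0}.Finite := by
    intro q hq
    have hqp : q.IsPrime := hq.1.1
    have hqh : Hom q := WHom.minimalPrimes hJ hq
    have hle : I ≤ q := le_sup_left.trans hq.1.2
    have hm : h ∈ q := hq.1.2 (Ideal.mem_sup_right (Ideal.mem_span_singleton_self h))
    by_cases hf : {y : NP k N | On q y.1}.Finite
    · exact hf.subset fun y hy => hy.1
    have hf' : {y : NP k N | On q y.1}.Infinite := hf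
    obtain ⟨y, hy⟩ := hf'.nonempty
    have hrel : Rel q := ⟨y.piv, fun h0 => y.X_piv_notMem (hqh.on_iff.1 hy h0)⟩
    refine ((hNSP k N).2 q hqp hqh hrel).2.2.2.2 (AV.dim_drop hI.prime hle hhI hm hI.dim) g e' hg
      fun h0 => ?_
    exact hT (c q) (Set.mem_insert_of_mem _ ⟨q, hq, rfl⟩) (hc2 q hle hf' g h0)
  refine (hfin.biUnion key).subset fun y hy => ?_
  have h1 : I ⊔ Ideal.span {h} ≤ van k y.1 := by
    refine hJ.on_iff.1 ((on_sup y.1).2 ⟨hy.1, (on_span y.1).2 fun f hf => ?_⟩)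
    rw [Set.mem_singleton_iff.1 hf]
    exact hy.2.1
  obtain ⟨q, hq, hqy⟩ := Ideal.exists_minimalPrimes_le h1
  exact Set.mem_biUnion hq ⟨(Hom.on_iff (WHom.minimalPrimes hJ hq)).2 hqy, hy.2.2⟩

end Pool.Agent.P.MP_12d50c_ag
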