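import Pool.Agent.P.MP_12d50c_ag.If1

/-!
Forms avoiding finitely many points.
-/

open MvPolynomial

namespace Pool.Agent.P.MP_12d50c_ag

namespace AVOID

variable {k : Type} [Field k] {N : ℕ}

/-- Evaluation of the linear form with coefficients `c` at `y`. -/
def ev (y : Fin (N + 1) → k) : (Fin (N + 1) → k) →ₗ[k] k where
  toFun c := ∑ i, c i * y i
  map_add' a b := by simp [add_mul, Finset.sum_add_distrib]
  map_smul' a b := by simp [Finset.mul_sum, mul_assoc]

theorem ev_apply (y c : Fin (N + 1) → k) : ev y c = ∑ i, c i * y i := rfl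

theorem lin_hom (c : Fin (N + 1) → k) (e : ℕ) :
    ((∑ i, C (c i) * X i : PP k N) ^ e).IsHomogeneous e := by
  have h : (∑ i, C (c i) * X i : PP k N).IsHomogeneous 1 :=
    IsHomogeneous.sum _ _ _ fun i _ => isHomogeneous_C_mul_X _ _
  simpa using h.pow e

theorem aeval_lin (c y : Fin (N + 1) → k) (e : ℕ) :
    aeval y ((∑ i, C (c i) * X i : PP k N) ^ e) = ev y c ^ e := by
  simp [ev_apply]

theorem exists_avoid [Infinite k] (V : Submodule k (Fin (N + 1) → k)) {T : Set (NP k N)}
    (hT : T.Finite) (h : ∀ y ∈ T, ∃ c ∈ V, ev y.1 c ≠ 0) : ∃ c ∈ V, ∀ y ∈ T, ev y.1 c ≠ 0 := by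
  have := hT.to_subtype
  obtain ⟨c, hc⟩ := Submodule.exists_forall_notMem_of_forall_ne_top
    (fun y : T => LinearMap.ker ((ev y.1.1).comp V.subtype)) (fun y hy => by
      obtain ⟨c, h1, h2⟩ := h y.1 y.2
      have h3 : (⟨c, h1⟩ : V) ∈ LinearMap.ker ((ev y.1.1).comp V.subtype) := by
        rw [hy]
        trivial
      exact h2 h3)
  exact ⟨c.1, c.2, fun y hy => hc ⟨y, hy⟩⟩

end AVOID

open AVOID in
theorem t_AVOID : S_AVOID := by
  intro k _ _ N T hT
  classical
  refine ⟨fun e => ?_, fun z hz e he => ?_⟩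
  · obtain ⟨c, -, hc⟩ := exists_avoid ⊤ hT fun y _ =>
      ⟨Pi.single y.piv 1, trivial, by simp [ev_apply, Pi.single_apply, y.piv_eq]⟩
    exact ⟨_, lin_hom c e, fun y hy => by
      rw [aeval_lin]
      exact pow_ne_zero _ (hc y hy)⟩
  · obtain ⟨c, h0, hc⟩ := exists_avoid (LinearMap.ker (ev z.1)) hT fun y hy => by
      have hne : z ≠ y := fun h => hz (h ▸ hy)
      by_contra hcon
      push Not at hcon
      refine hne (NP.eq_of_minors fun i j => ?_)
      have h1 := hcon (Pi.single j (z.1 i) - Pi.single i (z.1 j)) (by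
        rw [LinearMap.mem_ker, map_sub]
        simp [ev_apply, Pi.single_apply, mul_comm])
      rw [map_sub] at h1
      simpa [ev_apply, Pi.single_apply, sub_eq_zero] using h1
    refine ⟨_, lin_hom c e, ?_, fun y hy => by
      rw [aeval_lin]
      exact pow_ne_zero _ (hc y hy)⟩
    rw [aeval_lin, LinearMap.mem_ker.1 h0, zero_pow he.ne']

end Pool.Agent.P.MP_12d50c_ag
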