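import Pool.Agent.P.MP_12d50c_ag.If4

/-!
The boundary commutes with extension of the ground field.
-/

open MvPolynomial Function

namespace Pool.Agent.P.MP_12d50c_ag

namespace BC

theorem dim_succ {R : Type} [CommRing R] {Q P : Ideal R} [Q.IsPrime] (h : Q ≤ P) (hne : Q ≠ P) :
    ringKrullDim (R ⧸ P) + 1 ≤ ringKrullDim (R ⧸ Q) := by
  obtain ⟨x, hx, hx'⟩ := SetLike.exists_of_lt (lt_of_le_of_ne h hne)
  refine ringKrullDim_succ_le_of_surjective (Ideal.Quotient.factor h)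
    (Ideal.Quotient.factor_surjective h) (r := Ideal.Quotient.mk Q x)
    (mem_nonZeroDivisors_of_ne_zero ?_) ?_
  · rwa [Ne, Ideal.Quotient.eq_zero_iff_mem]
  · rwa [Ideal.Quotient.factor_mk, Ideal.Quotient.eq_zero_iff_mem]

theorem len_eq {R : Type} [CommRing R] (J : Ideal R) {q q' : Ideal R} [q.IsPrime] [q'.IsPrime]
    (h : q = q') : len J q = len J q' := by
  subst h
  rfl

theorem dim_comap {R S : Type} [CommRing R] [CommRing S] (f : R →+* S) (hf : Surjective f)
    (Q : Ideal S) : ringKrullDim (R ⧸ Q.comap f) = ringKrullDim (S ⧸ Q) :=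
  ringKrullDim_eq_of_ringEquiv (RingEquiv.ofBijective (Ideal.quotientMap Q f le_rfl)
    ⟨Ideal.quotientMap_injective, Ideal.quotientMap_surjective hf⟩)

theorem core (hAS : S_AS) (hRD : S_RD1) (hFU : S_FU) (F k : Type) [Field F] [Field k]
    [Algebra F k] [IsGalois F k] (τ : Type) [Finite τ] (W : PrimeSpectrum (MvPolynomial τ F))
    (q : Ideal (MvPolynomial τ k)) [hq : q.IsPrime] (x : MvPolynomial τ F) (n : ℕ)
    (S : Finset (PrimeSpectrum (MvPolynomial τ k))) (hx : x ∉ W.asIdeal)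
    (hW : ringKrullDim (MvPolynomial τ F ⧸ W.asIdeal) = (n + 1 : ℕ))
    (hd : ringKrullDim (MvPolynomial τ F ⧸ q.comap (ext F k τ)) = n)
    (hS : ∀ W', W' ∈ S ↔ PrimeSpectrum.comap (ext F k τ) W' = W) :
    ∑ W' ∈ S, (len (W'.asIdeal ⊔ Ideal.span {ext F k τ x}) q).toNat =
      (len (W.asIdeal ⊔ Ideal.span {x}) (q.comap (ext F k τ))).toNat := by
  obtain ⟨h1, h2⟩ := hRD F k τ
  have hc : ∀ P ∈ S, P.asIdeal.comap (ext F k τ) = W.asIdeal := fun P hP =>
    congrArg PrimeSpectrum.asIdeal ((hS P).1 hP)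
  have hle : ∀ P ∈ S, W.asIdeal.map (ext F k τ) ≤ P.asIdeal ∧ ext F k τ x ∉ P.asIdeal :=
    fun P hP => ⟨Ideal.map_le_iff_le_comap.2 (hc P hP).ge, fun h => hx (by
      rw [← hc P hP]
      exact h)⟩
  have h3 := hAS _ (W.asIdeal.map (ext F k τ)) q (ext F k τ x) S (fun P hP hPq => ?_) hle
    (fun P hP P' hP' h => ((h2 P).2.2 P' (((hS P').1 hP').trans ((hS P).1 hP).symm)).1 h)
    (fun a ha => ⟨1, fun h => hq.ne_top ((Ideal.eq_top_iff_one _).2 h), ?_⟩)
  · have h4 := hFU F k τ (W.asIdeal ⊔ Ideal.span {x}) q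
    rw [Ideal.map_sup, Ideal.map_span, Set.image_singleton] at h4
    rw [← h4, h3]
    refine Finset.sum_congr rfl fun P hP => ?_
    rw [hFU, len_eq _ (hc P hP), len_self, ENat.toNat_one, one_mul]
  · rw [hS]
    by_contra hne
    have h4 : W.asIdeal ≤ P.asIdeal.comap (ext F k τ) := Ideal.map_le_iff_le_comap.1 hP
    have h5 := dim_succ h4 fun e => hne (PrimeSpectrum.ext e.symm)
    have h6 := dim_succ (Ideal.comap_mono (f := ext F k τ) hPq.le) fun e =>
      hPq.ne (congrArg PrimeSpectrum.asIdeal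
        (((h2 P).2.2 ⟨q, hq⟩ (PrimeSpectrum.ext e.symm)).1 hPq.le))
    have h7 := (add_le_add h6 le_rfl).trans h5
    rw [hd, hW] at h7
    have h8 : n + 1 + 1 ≤ n + 1 := by exact_mod_cast h7
    omega
  · rw [one_mul]
    refine (h1 W).2.2 a fun P' hP' => ?_
    have h4 := hle P' ((hS P').2 hP')
    exact (P'.2.mem_or_mem (h4.1 ha)).resolve_left h4.2

variable {k : Type} [Field k] {N n : ℕ}

theorem face (hVP : S_VP0) (j : Fin (n + 2)) :
    Surjective ((smap j.succAbove : RR k N (n + 1) →ₐ[k] RR k N n) : RR k N (n + 1) →+* RR k N n) ∧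
    RingHom.ker ((smap j.succAbove : RR k N (n + 1) →ₐ[k] RR k N n) :
      RR k N (n + 1) →+* RR k N n) = Ideal.span {X (Sum.inr j)} := by
  have h := ((hVP k N (n + 1)).1 n j.succAbove).2.2.2.2.2 Fin.succAbove_right_injective
  rw [Fin.range_succAbove, compl_compl, Set.image_singleton] at h
  exact h

theorem len_face (hLS : S_LS) (hVP : S_VP0) (j : Fin (n + 2)) (W : Ideal (RR k N (n + 1)))
    (z : Ideal (RR k N n)) [z.IsPrime] :
    len (W.map (smap j.succAbove)) z = len (W ⊔ Ideal.span {X (Sum.inr j)})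
      (z.comap ((smap j.succAbove : RR k N (n + 1) →ₐ[k] RR k N n) :
        RR k N (n + 1) →+* RR k N n)) := by
  rw [← (face hVP j).2, ← hLS _ _ _ W z (face hVP j).1]
  rfl

theorem notMem (hVP : S_VP0) (j : Fin (n + 2)) {I : Ideal (PP k N)}
    {W : PrimeSpectrum (RR k N (n + 1))} (hW : W ∈ Cv I (n + 1)) (hP : Prp I W.asIdeal) :
    X (Sum.inr j) ∉ W.asIdeal := fun hx => by
  obtain ⟨h1, h2⟩ := face (k := k) (N := N) hVP j
  obtain ⟨h3, -, h4, -⟩ := (hVP k N (n + 1)).1 n j.succAbove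
  set f := ((smap j.succAbove : RR k N (n + 1) →ₐ[k] RR k N n) : RR k N (n + 1) →+* RR k N n)
    with hf
  have h5 : RingHom.ker f ≤ W.asIdeal := by
    rw [h2]
    exact (Ideal.span_singleton_le_iff_mem _).2 hx
  have h6 : (W.asIdeal.map f).comap f = W.asIdeal := by
    rw [Ideal.comap_map_of_surjective f h1]
    exact sup_eq_left.2 h5
  have h7 : Adm I (W.asIdeal.map f) := by
    refine ⟨Ideal.map_isPrime_of_surjective h1 h5, h4 _ hW.1.hom, ?_, ?_⟩
    · rw [← h3 I]
      exact Ideal.map_mono hW.1.le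
    · obtain ⟨i, hi⟩ := hW.1.rel
      refine ⟨i, fun h => hi ?_⟩
      rw [← h6, Ideal.mem_comap]
      simpa [hf, smap] using h
  have h8 := hP n (Fin.succAboveOrderEmb j) _ h7 le_rfl
  rw [← dim_comap f h1, h6, hW.2] at h8
  have h9 : n + 1 + 1 ≤ n + 1 := by exact_mod_cast h8
  omega

theorem comm (F k : Type) [Field F] [Field k] [Algebra F k] {m : ℕ}
    (g : Fin (m + 1) → Fin (n + 1)) :
    ((smap g : RR k N n →ₐ[k] RR k N m) : RR k N n →+* RR k N m).comp (ext F k _) =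
      (ext F k _).comp ((smap g : RR F N n →ₐ[F] RR F N m) : RR F N n →+* RR F N m) := by
  refine MvPolynomial.ringHom_ext (fun c => ?_) fun i => ?_
  · simp [smap]
  · rcases i with i | i <;> simp [smap]

end BC

theorem t_BC : S_LS → S_AS → S_VP0 → S_RD1 → S_FU → S_BC := by
  intro hLS hAS hVP hRD hFU F k _ _ _ _ N n I W z S hW hP hz hS
  simp only [bdA]
  rw [Finset.sum_comm]
  refine Finset.sum_congr rfl fun j _ => ?_
  rw [← Finset.mul_sum, ← Nat.cast_sum]
  congr 2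
  have h1 : (z.asIdeal.comap ((smap j.succAbove : RR k N (n + 1) →ₐ[k] RR k N n) :
      RR k N (n + 1) →+* RR k N n)).comap (ext F k _) =
      (z.asIdeal.comap (ext F k _)).comap ((smap j.succAbove : RR F N (n + 1) →ₐ[F] RR F N n) :
        RR F N (n + 1) →+* RR F N n) := by
    rw [Ideal.comap_comap, Ideal.comap_comap, BC.comm]
  have h2 := BC.core hAS hRD hFU F k _ W (z.asIdeal.comap ((smap j.succAbove :
      RR k N (n + 1) →ₐ[k] RR k N n) : RR k N (n + 1) →+* RR k N n)) (X (Sum.inr j)) (n + 1) S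
    (BC.notMem hVP j hW hP) hW.2 (by
      rw [h1, BC.dim_comap _ (BC.face hVP j).1]
      exact hz.2) hS
  rw [map_X, BC.len_eq _ h1] at h2
  simp only [BC.len_face hLS hVP]
  exact h2

end Pool.Agent.P.MP_12d50c_ag
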