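import Pool.Agent.P.MP_12d50c_ag.If1

/-!
Bertini's theorem for smooth projective surfaces.
-/

open MvPolynomial

namespace Pool.Agent.P.MP_12d50c_ag

namespace BERT

variable {k : Type} [Field k] {N : ℕ}

theorem exists_eval_ne [Infinite k] {J ι : Type} [Finite ι] (Φ : ι → MvPolynomial J k)
    (h : ∀ i, Φ i ≠ 0) : ∃ w : J → k, ∀ i, eval w (Φ i) ≠ 0 := by
  have := Fintype.ofFinite ι
  by_contra hn
  refine Finset.prod_ne_zero_iff.2 (fun i (_ : i ∈ Finset.univ) => h i)
    (MvPolynomial.funext fun w => ?_)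
  by_contra h1
  rw [map_zero, map_prod] at h1
  exact hn ⟨w, fun i => Finset.prod_ne_zero_iff.1 h1 i (Finset.mem_univ i)⟩

theorem surj_of_rows {K ι J : Type} [Field K] [Fintype ι] [Fintype J] (M : ι → J → K)
    (h : ∀ a : ι → K, (∀ j, ∑ i, a i * M i j = 0) → ∀ i, a i = 0) (b : ι → K) :
    ∃ c : J → K, ∀ i, ∑ j, M i j * c j = b i := by
  have h1 : LinearIndependent K (Matrix.of M).row :=
    Fintype.linearIndependent_iff.2 fun a ha => h a fun j => by simpa using congrFun ha j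
  have h2 : LinearMap.range (Matrix.of M).mulVecLin = ⊤ := by
    refine Submodule.eq_top_of_finrank_eq ?_
    rw [Module.finrank_fintype_fun_eq_card]
    exact h1.rank_matrix
  obtain ⟨c, hc⟩ := LinearMap.range_eq_top.1 h2 b
  exact ⟨c, fun i => congrFun hc i⟩

variable {G J : Type} [Fintype G] [Fintype J]

/-- The system of equations for a singular point in the chart `i`. -/
structure Sys (f : G → PP k N) (e : J → PP k N) (h : PP k N) (i : Fin (N + 1)) {T : Type}
    [CommRing T] [Algebra k T] (w : J → T) (y : Fin (N + 1) → T) (l : G → T) (m : T) : Prop where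
  on : ∀ a, aeval y (f a) = 0
  one : y i = 1
  inv : m * aeval y h = 1
  val : ∑ j, w j * aeval y (e j) = 0
  der : ∀ r, ∑ j, w j * aeval y (pderiv r (e j)) = ∑ a, l a * aeval y (pderiv r (f a))

theorem exists_eqs (f : G → PP k N) (e : J → PP k N) (h : PP k N) (i : Fin (N + 1)) :
    ∃ S : Set (MvPolynomial (Empty ⊕ J ⊕ Fin (N + 1) ⊕ G ⊕ Unit) k),
      ∀ (T : Type) [CommRing T] [Algebra k T] (τ : Empty → T) (w : J → T)
        (u : Fin (N + 1) ⊕ G ⊕ Unit → T),
        (∀ p ∈ S, aeval (Sum.elim τ (Sum.elim w u)) p = 0) ↔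
          Sys f e h i w (fun r => u (.inl r)) (fun a => u (.inr (.inl a))) (u (.inr (.inr ()))) := by
  let ρ : PP k N → MvPolynomial (Empty ⊕ J ⊕ Fin (N + 1) ⊕ G ⊕ Unit) k :=
    rename fun r => .inr (.inr (.inl r))
  refine ⟨Set.range (fun a => ρ (f a)) ∪ Set.range (fun r =>
    ∑ j, X (.inr (.inl j)) * ρ (pderiv r (e j)) -
      ∑ a, X (.inr (.inr (.inr (.inl a)))) * ρ (pderiv r (f a))) ∪
    {X (.inr (.inr (.inl i))) - 1, X (.inr (.inr (.inr (.inr ())))) * ρ h - 1,
      ∑ j, X (.inr (.inl j)) * ρ (e j)}, fun T _ _ τ w u => ?_⟩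
  have hρ : ∀ p, aeval (Sum.elim τ (Sum.elim w u)) (ρ p) = aeval (fun r => u (.inl r)) p :=
    fun p => aeval_rename _ _ p
  simp only [Set.mem_union, or_imp, forall_and, Set.forall_mem_range, Set.mem_insert_iff,
    Set.mem_singleton_iff, forall_eq, map_sub, map_sum, map_mul, map_one, aeval_X, hρ,
    Sum.elim_inr, Sum.elim_inl, sub_eq_zero]
  exact ⟨fun h => ⟨h.1.1, h.2.1, h.2.2.1, h.2.2.2, h.1.2⟩,
    fun h => ⟨⟨h.on, h.der⟩, h.one, h.inv, h.val⟩⟩

theorem grad_X_pow {T : Type} [CommRing T] [Algebra k T] (y δ : Fin (N + 1) → T)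
    {i : Fin (N + 1)} (h : δ i = 0) (m : ℕ) : grad y (X i ^ m : PP k N) δ = 0 := by
  induction m with
  | zero => simp [grad]
  | succ m ih => rw [pow_succ, grad_mul, ih, grad_X, h, mul_zero, mul_zero, add_zero]

theorem exists_delta {K V : Type} [Field K] [AddCommGroup V] [Module K V] [Module.Finite K V]
    {T : Submodule K V} (h3 : 3 ≤ Module.finrank K T) (φ : V →ₗ[K] K) :
    ∃ δ : Fin 2 → V, LinearIndependent K δ ∧ (∀ a, φ (δ a) = 0) ∧ ∀ a, δ a ∈ T := by
  have h2 : 2 ≤ Module.finrank K (T ⊓ LinearMap.ker φ : Submodule K V) := by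
    have a1 := LinearMap.finrank_range_add_finrank_ker φ
    have a2 := Submodule.finrank_le (LinearMap.range φ)
    have a3 := Submodule.finrank_sup_add_finrank_inf_eq T (LinearMap.ker φ)
    have a4 := Submodule.finrank_le (T ⊔ LinearMap.ker φ)
    rw [Module.finrank_self] at a2
    omega
  obtain ⟨d, hd⟩ := exists_linearIndependent_of_le_finrank h2
  exact ⟨_, hd.map' (Submodule.subtype _) (Submodule.ker_subtype _), fun a => (d a).2.2,
    fun a => (d a).2.1⟩

/-- The three linear forms. -/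
noncomputable def MM {K : Type} [Field K] [Algebra k K] (e : J → PP k N) (y : Fin (N + 1) → K)
    (δ : Fin 2 → Fin (N + 1) → K) : Option (Fin 2) → J → K
  | none, j => aeval y (e j)
  | some a, j => grad y (e j) (δ a)

omit [Fintype J] in
theorem rows {K : Type} [Field K] [Algebra k K] {e : J → PP k N} {h : PP k N} {i : Fin (N + 1)}
    {n : ℕ} (he : ∀ r, h * (X r * X i ^ n) ∈ Submodule.span k (Set.range e))
    {y : Fin (N + 1) → K} (hone : y i = 1) (hh : aeval y h ≠ 0) {δ : Fin 2 → Fin (N + 1) → K}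
    (hδ : LinearIndependent K δ) (hδi : ∀ a, δ a i = 0) (a : Option (Fin 2) → K)
    (ha : ∀ j, ∑ o, a o * MM e y δ o j = 0) (o : Option (Fin 2)) : a o = 0 := by
  obtain ⟨η, hη⟩ : ∃ η, η = a (some 0) • δ 0 + a (some 1) • δ 1 := ⟨_, rfl⟩
  have hηi : η i = 0 := by simp [hη, hδi]
  have b1 : ∀ t ∈ Submodule.span k (Set.range e), a none * aeval y t + grad y t η = 0 := by
    intro t ht
    induction ht using Submodule.span_induction with
    | mem t ht =>
      obtain ⟨j, rfl⟩ := ht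
      have := ha j
      simp only [Fintype.sum_option, Fin.sum_univ_two, MM] at this
      rw [hη, grad_add_right, grad_smul_right, grad_smul_right]
      exact this
    | zero => simp [grad]
    | add t t' _ _ c1 c2 =>
      rw [map_add, grad_add]
      linear_combination c1 + c2
    | smul c t _ c1 =>
      rw [smul_eq_C_mul, map_mul, grad_mul, grad_C]
      linear_combination (aeval y (C c : PP k N)) * c1
  have b2 : ∀ r, a none * (aeval y h * y r) + (aeval y h * η r + y r * grad y h η) = 0 := by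
    intro r
    have := b1 _ (he r)
    simpa only [grad_mul, grad_X, grad_X_pow y η hηi, hone, map_mul, map_pow, aeval_X, one_pow,
      mul_one, one_mul, mul_zero, zero_add] using this
  have b3 := b2 i
  rw [hηi, hone] at b3
  have b4 : η = 0 := funext fun r => (mul_eq_zero.1 (by
    linear_combination b2 r - y r * b3 : aeval y h * η r = 0)).resolve_left hh
  have b5 := Fintype.linearIndependent_iff.1 hδ (fun c => a (some c))
    (by rw [Fin.sum_univ_two, ← hη, b4])
  rcases o with _ | c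
  · rw [b4] at b3
    simpa [grad, hh] using b3
  · exact b5 c

theorem vanish {K Ω : Type} [Field K] [Algebra k K] [Field Ω] [Algebra k Ω] (φ : K →ₐ[k] Ω)
    {f : G → PP k N} {e : J → PP k N} {h : PP k N} {i : Fin (N + 1)} {y : Fin (N + 1) → K}
    {w : J → Ω} {l : G → Ω} {m : Ω} (hs : Sys f e h i w (fun r => φ (y r)) l m)
    {δ : Fin 2 → Fin (N + 1) → K} (hδ : ∀ a b, grad y (f b) (δ a) = 0) (o : Option (Fin 2)) :
    ∑ j, φ (MM e y δ o j) * w j = 0 := by
  rcases o with _ | a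
  · simpa only [MM, map_aeval', mul_comm] using hs.val
  have c1 : ∀ p : PP k N, φ (grad y p (δ a)) =
      ∑ r, aeval (fun r => φ (y r)) (pderiv r p) * φ (δ a r) := fun p => by
    simp only [grad, map_sum, map_mul, map_aeval']
  simp only [MM, c1]
  calc ∑ j, (∑ r, aeval (fun r => φ (y r)) (pderiv r (e j)) * φ (δ a r)) * w j
      = ∑ r, (∑ j, w j * aeval (fun r => φ (y r)) (pderiv r (e j))) * φ (δ a r) := by
        simp only [Finset.sum_mul]
        rw [Finset.sum_comm]
        exact Finset.sum_congr rfl fun _ _ => Finset.sum_congr rfl fun _ _ => by ring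
    _ = ∑ b, l b * ∑ r, aeval (fun r => φ (y r)) (pderiv r (f b)) * φ (δ a r) := by
        simp only [hs.der, Finset.sum_mul, Finset.mul_sum]
        rw [Finset.sum_comm]
        exact Finset.sum_congr rfl fun _ _ => Finset.sum_congr rfl fun _ _ => by ring
    _ = 0 := by simp only [← c1, hδ, map_zero, mul_zero, Finset.sum_const_zero]

theorem core {K Ω : Type} [Field K] [Algebra k K] [Field Ω] [Algebra k Ω] (φ : K →ₐ[k] Ω)
    {I : Ideal (PP k N)} (hI : IsSurf I) {f : G → PP k N} (hf : Ideal.span (Set.range f) = I)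
    {e : J → PP k N} {h : PP k N} {i : Fin (N + 1)} {n : ℕ}
    (he : ∀ r, h * (X r * X i ^ n) ∈ Submodule.span k (Set.range e)) {y : Fin (N + 1) → K}
    {w : J → Ω} {l : G → Ω} {m : Ω} (hs : Sys f e h i w (fun r => φ (y r)) l m) :
    ∃ M : Option (Fin 2) → J → K, (∀ b : Option (Fin 2) → K, ∃ c : J → K,
      ∀ o, ∑ j, M o j * c j = b o) ∧ ∀ o, ∑ j, φ (M o j) * w j = 0 := by
  have hφ : Function.Injective φ := φ.toRingHom.injective
  have hone : y i = 1 := hφ (hs.one.trans (map_one φ).symm)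
  have hon : On I y := hf ▸ (on_span y).2 (Set.forall_mem_range.2 fun a =>
    hφ (by rw [map_aeval', hs.on, map_zero]))
  have hh : aeval y h ≠ 0 := fun h0 => by
    have h1 := hs.inv
    rw [← map_aeval', h0, map_zero, mul_zero] at h1
    exact zero_ne_one h1
  obtain ⟨δ, h1, h2, h3⟩ := exists_delta (hI.ge K y (fun h0 => by simp [h0] at hone) hon)
    (LinearMap.proj i)
  exact ⟨MM e y δ, surj_of_rows _ (rows he hone hh h1 h2),
    vanish φ hs fun a b => h3 a _ (hf ▸ Ideal.subset_span ⟨b, rfl⟩)⟩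

/-- The system has no solution for generic coefficients. -/
theorem generic (hTR : S_TR) {I : Ideal (PP k N)} (hI : IsSurf I) {f : G → PP k N}
    (hf : Ideal.span (Set.range f) = I) {e : J → PP k N} {h : PP k N} {i : Fin (N + 1)} {n : ℕ}
    (he : ∀ r, h * (X r * X i ^ n) ∈ Submodule.span k (Set.range e)) {Ω : Type} [Field Ω]
    [Algebra k Ω] {w : J → Ω} {y : Fin (N + 1) → Ω} {l : G → Ω} {m : Ω}
    (hw : AlgebraicIndependent k w) : ¬ Sys f e h i w y l m := by
  intro hs
  have hon : On I y := hf ▸ (on_span y).2 (Set.forall_mem_range.2 hs.on)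
  obtain ⟨M, h1, h2⟩ := core (IntermediateField.adjoin k (Set.range y)).val hI hf he
    (y := fun r => ⟨y r, IntermediateField.subset_adjoin k _ ⟨r, rfl⟩⟩) hs
  have h4 := hTR.1 k Ω _ 2 J (Option (Fin 2)) w M
    (hTR.2.2 k Ω N 2 I y i hI.hom hI.dim.le hon hs.one) hw h1 h2
  simp at h4

/-- A singular point gives a solution of the system. -/
theorem sys_of_sing (hLIN : S_LIN) {f : G → PP k N} {e : J → PP k N} {h : PP k N} {w : J → k}
    {y : NP k N} (hon : On (Ideal.span (Set.range f)) y.1) (hh : aeval y.1 h ≠ 0)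
    (hs : Sing (Ideal.span (Set.range f)) y.1 (∑ j, w j • e j)) :
    ∃ l, Sys f e h y.piv w y.1 l (aeval y.1 h)⁻¹ := by
  have h1 := ((hLIN.1 k (Fin (N + 1)) (Set.range fun a r => aeval y.1 (pderiv r (f a)))
    (Tan (Ideal.span (Set.range f)) y.1) fun δ => by
      rw [mem_Tan_span hon, Set.forall_mem_range, Set.forall_mem_range]
      rfl).1 fun r => aeval y.1 (pderiv r (∑ j, w j • e j))).2 hs.2
  obtain ⟨l, hl⟩ := (Submodule.mem_span_range_iff_exists_fun k).1 h1
  refine ⟨l, fun a => hon _ (Ideal.subset_span ⟨a, rfl⟩), y.piv_eq, inv_mul_cancel₀ hh, ?_,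
    fun r => ?_⟩
  · simpa only [map_sum, map_smul, smul_eq_mul] using hs.1
  · have := congrFun hl r
    simpa only [map_sum, Derivation.map_smul, map_smul, smul_eq_mul, Finset.sum_apply,
      Pi.smul_apply] using this.symm

end BERT

theorem t_BERT : S_LIN → S_UG → S_TR → S_BERT := by
  intro hLIN hUG hTR k _ _ N I n W H U hI hW hH hU hh hV
  have := hH.to_subtype
  have := hU.to_subtype
  obtain ⟨r, e, he⟩ : ∃ (r : ℕ) (e : Fin r → PP k N), Submodule.span k (Set.range e) = W := by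
    have h1 : Module.Finite k (homogeneousSubmodule (Fin (N + 1)) k n) :=
      Module.Finite.iff_fg.2 (homogeneousSubmodule_fg _ _ _)
    exact Submodule.fg_iff_exists_fin_generating_family.1
      (Module.Finite.iff_fg.1 (Submodule.finiteDimensional_of_le hW))
  obtain ⟨g, f, hf⟩ : ∃ (g : ℕ) (f : Fin g → PP k N), Ideal.span (Set.range f) = I :=
    Submodule.fg_iff_exists_fin_generating_family.1 (IsNoetherian.noetherian I)
  have h1 : ∀ p : H × Fin (N + 1), ∃ Φ : MvPolynomial (Fin r) k, Φ ≠ 0 ∧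
      ∀ w y l m, BERT.Sys f e p.1.1 p.2 w y l m → eval w Φ = 0 := by
    rintro ⟨⟨h, hh'⟩, i⟩
    obtain ⟨d, hd, -, hd2⟩ := hh h hh'
    obtain ⟨S, hS⟩ := BERT.exists_eqs f e h i
    obtain ⟨D, hD⟩ := hUG k Empty (Fin r) (Fin (N + 1) ⊕ Fin g ⊕ Unit) S
    obtain ⟨Φ, h0, -, h2⟩ := hD Empty.elim fun Ω _ _ w u hw h3 =>
      BERT.generic hTR hI hf (n := n - d - 1) (fun j => he ▸ hd2 _ (by
        have := (isHomogeneous_X k j).mul ((isHomogeneous_X k i).pow (n - d - 1))
        rwa [show 1 + 1 * (n - d - 1) = n - d by omega] at this)) hw ((hS Ω _ w u).1 h3)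
    exact ⟨Φ, h0, fun w y l m h3 =>
      h2 w (Sum.elim y (Sum.elim l fun _ => m)) ((hS k _ w _).2 h3)⟩
  have h2 : ∀ V : U, ∃ Φ : MvPolynomial (Fin r) k, Φ ≠ 0 ∧
      ∀ w, ∑ j, w j • e j ∈ V.1 → eval w Φ = 0 := by
    rintro ⟨V, hV'⟩
    obtain ⟨j, hj⟩ : ∃ j, e j ∉ V := by
      by_contra hn
      exact hV V hV' (he ▸ Submodule.span_le.2 (Set.range_subset_iff.2 fun j =>
        not_not.1 fun h => hn ⟨j, h⟩))
    obtain ⟨φ, a1, a2⟩ := Submodule.exists_le_ker_of_notMem hj
    refine ⟨∑ j, C (φ (e j)) * X j, fun h0 => a1 ?_, fun w hw => ?_⟩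
    · have := congrArg (eval (Pi.single j 1)) h0
      simpa [Pi.single_apply] using this
    · have : φ (∑ j, w j • e j) = 0 := a2 hw
      simpa [mul_comm] using this
  choose Φ hΦ hΦ' using h1
  choose Ψ hΨ hΨ' using h2
  obtain ⟨w, hw⟩ := BERT.exists_eval_ne (Sum.elim Φ Ψ) (Sum.forall.2 ⟨hΦ, hΨ⟩)
  refine ⟨∑ j, w j • e j, he ▸ Submodule.sum_mem _ fun j _ =>
    Submodule.smul_mem _ _ (Submodule.subset_span ⟨j, rfl⟩),
    fun V hV' h => hw (.inr ⟨V, hV'⟩) (hΨ' ⟨V, hV'⟩ w h), ?_⟩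
  rintro y hy ⟨h, a1, a2⟩ hs
  subst hf
  obtain ⟨l, hl⟩ := BERT.sys_of_sing hLIN hy a2 hs
  exact hw (.inl (⟨h, a1⟩, y.piv)) (hΦ' (⟨h, a1⟩, y.piv) w _ _ _ hl)

end Pool.Agent.P.MP_12d50c_ag
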