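import Pool.Agent.P.MP_12d50c_ag.If5

/-!
The dictionary between points of the product with a simplex and admissible primes.
-/

open CategoryTheory AlgebraicGeometry IsLocalRing MvPolynomial Limits
open Pool.Agent.P.MP_638e8a_ag.Cyc (St Rf ev stm primeOf le_gen ev_eq_zero primeOf_self
  stm_mem_max)

namespace Pool.Agent.P.MP_12d50c_ag

namespace BRM

variable {F : Type} [Field F] {Y : Scheme.{0}} {κ : Y ⟶ Spec (.of F)}

theorem mem_pt {τ : Type} {w : τ → ℕ} {J : Ideal (MvPolynomial τ F)} (c : CS κ w J) (x : Y)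
    {i : τ} (hi : IsUnit (c.s x i)) {f : MvPolynomial τ F} {d : ℕ}
    (hf : IsWeightedHomogeneous w f d) : f ∈ c.pt x ↔ c.th x hi f ∈ maximalIdeal (St x) := by
  let := algR κ x
  have h1 : ev (le_refl x) (c.th x hi f) =
      aeval (fun j => ev (le_refl x) ↑hi.unit⁻¹ ^ w j * c.co x j) f := by
    have h2 : (ev (le_refl x)).comp (c.th x hi) =
        (aeval (fun j => ev (le_refl x) ↑hi.unit⁻¹ ^ w j * c.co x j) :
          MvPolynomial τ F →ₐ[F] Rf x).toRingHom := by
      refine MvPolynomial.ringHom_ext (fun a => ?_) fun j => ?_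
      · simp only [CS.th, RingHom.comp_apply, coe_eval₂Hom, eval₂_C, AlgHom.toRingHom_eq_coe,
          RingHom.coe_coe, algHom_C]
        rfl
      · simp only [CS.th, RingHom.comp_apply, coe_eval₂Hom, eval₂_X, AlgHom.toRingHom_eq_coe,
          RingHom.coe_coe, aeval_X, map_mul, Units.val_pow_eq_pow_val, map_pow, CS.co]
        rw [mul_comm]
    exact DFunLike.congr_fun h2 f
  rw [← primeOf_self, ← ev_eq_zero (le_refl x), h1, aeval_scale hf,
    ((hi.unit⁻¹.isUnit.map (ev (le_refl x))).pow d).mul_right_eq_zero]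
  exact mem_vanw_of_hom hf

variable {N : ℕ} {I : Ideal (PP F N)} {c : ∀ n, CS (kap κ n) (wt N n) (cyl I n)}

theorem chart (n : ℕ) (x : XD Y n) : ∃ i, IsUnit ((c n).s x (Sum.inl i)) := by
  obtain ⟨i | j, h1, h2⟩ := (c n).bpf x
  · exact ⟨i, h2⟩
  · exact absurd h1 zero_ne_one

theorem unit_face (hc : Compat c) {m n : ℕ} (g : Fin (m + 1) → Fin (n + 1)) (z : XD Y m)
    {i : Fin (N + 1)} (hi : IsUnit ((c n).s (face Y g z) (Sum.inl i))) :
    IsUnit ((c m).s z (Sum.inl i)) := by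
  obtain ⟨e, h1, -⟩ := hc m n g z
  have h2 := hi.map (stm (face Y g) z)
  rw [h1] at h2
  exact isUnit_of_mul_isUnit_right h2

theorem comm (hc : Compat c) {m n : ℕ} (g : Fin (m + 1) → Fin (n + 1)) (z : XD Y m)
    {i : Fin (N + 1)} (hi : IsUnit ((c n).s (face Y g z) (Sum.inl i)))
    (hz : IsUnit ((c m).s z (Sum.inl i))) :
    (stm (face Y g) z).comp ((c n).th _ hi) =
      ((c m).th z hz).comp (smap g : RR F N n →ₐ[F] RR F N m).toRingHom := by
  obtain ⟨e, h1, h2⟩ := hc m n g z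
  refine MvPolynomial.ringHom_ext (fun a => ?_) fun j => ?_
  · simp only [CS.th, RingHom.comp_apply, coe_eval₂Hom, eval₂_C, AlgHom.toRingHom_eq_coe,
      RingHom.coe_coe, algHom_C, algebraMap_eq]
    rw [stm_cstk, face_kap]
  · rcases j with j | j
    · simp only [CS.th, RingHom.comp_apply, coe_eval₂Hom, eval₂_X, AlgHom.toRingHom_eq_coe,
        RingHom.coe_coe, smap, aeval_X, Sum.elim_inl, map_mul, wt, pow_one, h1]
      have h3 : stm (face Y g) z ↑hi.unit⁻¹ * (e * (c m).s z (Sum.inl i)) = 1 := by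
        rw [← h1, ← map_mul, IsUnit.val_inv_mul, map_one]
      have h4 := hz.mul_val_inv
      linear_combination (c m).s z (Sum.inl j) * ↑hz.unit⁻¹ * h3 -
        e * (c m).s z (Sum.inl j) * stm (face Y g) z ↑hi.unit⁻¹ * h4
    · simp only [CS.th, RingHom.comp_apply, coe_eval₂Hom, eval₂_X, AlgHom.toRingHom_eq_coe,
        RingHom.coe_coe, smap, aeval_X, Sum.elim_inr, wt, pow_zero, Units.val_one, mul_one, h2,
        eval₂_sum]

end BRM

theorem t_BRM : S_VP0 → S_VP → S_PTS1 → S_PTS3 → S_INTD → S_BRM := by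
  intro VP0 VP P1 P3 ID F _ Y _ κ N I c hc hp hh hr hd
  have hint : ∀ n, IsIntegral (XD Y n) := ID Y
  have adm : ∀ n y, Adm I ((c n).pt y) := fun n y => by
    obtain ⟨h1, h2, ⟨i | j, h3, h4⟩, -⟩ := (P1 F _ _ _ _ _ (c n)).1 y
    · exact ⟨inferInstance, h1, h2, i, h4⟩
    · exact absurd h3 zero_ne_one
  have surj : ∀ n q, Adm I q → ∃ y, (c n).pt y = q := fun n q hq =>
    (P1 F _ _ _ _ _ (c n)).2.2 q hq.prime hq.hom hq.le
      (hq.rel.elim fun i hi => ⟨Sum.inl i, rfl, hi⟩)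
  have gen : ∀ n, (c n).pt (genericPoint (XD Y n)) = cyl I n := fun n => by
    obtain ⟨i, hi⟩ := hr
    obtain ⟨y, hy⟩ := surj n (cyl I n) ⟨((VP F N n).1 I hp).1, (VP0 F N n).2.2.2.1 I hh, le_rfl, i,
      fun h => hi (by
        have h1 := Ideal.mem_map_of_mem (vtx (0 : Fin (n + 1))) h
        rw [(((VP0 F N n).2.2.2.2 0).2.2 I).1] at h1
        simpa [vtx] using h1)⟩
    exact le_antisymm ((((P1 F _ _ _ _ _ (c n)).2.1 _ _).1 (le_gen y)).trans hy.le) (adm n _).le
  refine ⟨adm, fun n => (P1 F _ _ _ _ _ (c n)).2.1, surj, fun m n g z => ?_, fun n y => ?_,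
    fun m n g w z => ?_⟩
  · obtain ⟨i, hi⟩ := BRM.chart (c := c) n (face Y g z)
    have hz := BRM.unit_face hc g z hi
    have key : ∀ f d, IsWeightedHomogeneous (wt N n) f d →
        (f ∈ (c n).pt (face Y g z) ↔ f ∈ ((c m).pt z).comap (smap g)) := fun f d hf => by
      rw [Ideal.mem_comap, BRM.mem_pt _ _ hi hf,
        BRM.mem_pt _ _ hz (((VP0 F N n).1 m g).2.1 f d hf), ← stm_mem_max]
      exact (DFunLike.congr_fun (BRM.comm hc g z hi hz) f) ▸ Iff.rfl
    exact le_antisymm ((adm n _).hom.le_of_hom fun f d hf => (key f d hf).1)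
      ((((VP0 F N n).1 m g).2.2.2.1 I _ (adm m z)).hom.le_of_hom fun f d hf => (key f d hf).2)
  · obtain ⟨i, hi⟩ := BRM.chart (c := c) n y
    have h1 := (P3 F _ _ _ _ _ (c n) y _ hi rfl).2.2.2.2
    rw [gen, ((VP F N n).1 I hp).2, hd, ringKrullDim_stalk_eq_coheight] at h1
    rw [h1]
    norm_cast
  · obtain ⟨i, hi⟩ := BRM.chart (c := c) n (face Y g z)
    have hz := BRM.unit_face hc g z hi
    have h1 := (P3 F _ _ _ _ _ (c m) z _ hz rfl).2.2.2.1 _
      (((VP0 F N n).1 m g).2.2.1 _ (adm n w).hom)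
    have h2 : cyl I m ≤ ((c n).pt w).map (smap g) :=
      ((VP0 F N n).1 m g).1 I ▸ Ideal.map_mono (adm n w).le
    rw [gen, sup_eq_right.2 h2] at h1
    have h3 : (idealOf (face Y g z) w).map (stm (face Y g) z) =
        (((c n).pt w).map (smap g)).map ((c m).th z hz) := by
      rw [idealOf_eq, (P3 F _ _ _ _ _ (c n) _ _ hi rfl).2.2.1 w, Ideal.map_map,
        BRM.comm hc g z hi hz, ← Ideal.map_map]
      rfl
    unfold mult
    rw [← h1, ← h3]

end Pool.Agent.P.MP_12d50c_ag
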