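import Pool.Agent.P.MP_12d50c_ag.If2

/-! The density theorem for totally split parameters. -/

open Function
open scoped Polynomial Nat

namespace Pool.Agent.P.MP_12d50c_ag

namespace CH

variable {k : Type} [Field k] {n : ℕ}

/-- The numbered fibres over a set of parameters. -/
def W (f : k[X][X]) (n : ℕ) (A : Set k) : Set (k × (Fin n → k)) :=
  {P | P.1 ∈ A ∧ Injective P.2 ∧ YY f P.1 P.2}

theorem card_W (f : k[X][X]) {A : Set k} (hA : A.Finite)
    (h : ∀ t ∈ A, ∃ x : Fin n → k, Injective x ∧ YY f t x) :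
    (W f n A).Finite ∧ (W f n A).ncard = n ! * A.ncard := by
  choose x h1 h2 using h
  let g : A × Equiv.Perm (Fin n) → W f n A := fun q =>
    ⟨(q.1.1, x q.1.1 q.1.2 ∘ q.2), q.1.2, (h1 _ q.1.2).comp q.2.injective, (h2 _ q.1.2).perm q.2⟩
  have hg : Bijective g := by
    constructor
    · rintro ⟨⟨t, ht⟩, σ⟩ ⟨⟨t', ht'⟩, σ'⟩ e
      have e1 := congrArg Subtype.val e
      obtain rfl : t = t' := congrArg Prod.fst e1
      have e2 : x t ht ∘ σ = x t ht ∘ σ' := congrArg Prod.snd e1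
      obtain rfl : σ = σ' := Equiv.ext fun i => h1 t ht (congrFun e2 i)
      rfl
    · rintro ⟨⟨t, y⟩, ht, -, hy⟩
      obtain ⟨σ, hσ⟩ := (h2 t ht).exists_perm hy
      exact ⟨(⟨t, ht⟩, σ), Subtype.ext (Prod.ext rfl hσ.symm)⟩
  haveI : Finite A := hA
  refine ⟨Set.finite_coe_iff.1 (Finite.of_surjective g hg.2), ?_⟩
  rw [← Nat.card_coe_set_eq, ← Nat.card_eq_of_bijective g hg, Nat.card_prod, Nat.card_coe_set_eq,
    Nat.card_eq_fintype_card, Fintype.card_perm, Fintype.card_fin, mul_comm]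

theorem aeval_mem {F : Subfield k} {g : k[X]} (hg : ∀ j, g.coeff j ∈ F) {t : k} (ht : t ∈ F) :
    Polynomial.aeval t g ∈ F := by
  rw [Polynomial.aeval_eq_sum_range]
  exact F.sum_mem fun j _ => F.mul_mem (hg j) (F.pow_mem ht j)

theorem yy_frob {p : ℕ} [Fact p.Prime] [CharP k p] {s : ℕ} {F : Subfield k} (hF : IsFq p s F)
    {f : k[X][X]} (hf : ∀ i j, (f.coeff i).coeff j ∈ F) {t : k} (ht : t ∈ F) {x : Fin n → k}
    (h : YY f t x) : YY f t (frob k p s ∘ x) := by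
  have h1 : (sp f t).map (frob k p s) = sp f t := by
    ext i
    rw [Polynomial.coeff_map, hF.frob_eq, sp, Polynomial.coeff_map]
    exact aeval_mem (hf i) ht
  rw [YY, ← h1, h, Polynomial.map_prod]
  simp

end CH

open CH in
theorem t_CH : S_CH0 → S_CH6 → S_CH := by
  intro h0 h6 n
  obtain ⟨C, hC⟩ := h6 n
  refine ⟨n ! * n ^ 2 + n ! * C + C, fun k M _ _ _ _ p hp _ s F f t x hF hc hf => ?_⟩
  classical
  obtain ⟨-, b1, b2⟩ := h0 k M n f t x hc
  haveI := hF.finite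
  have hFf : (F : Set k).Finite := Set.toFinite _
  have hFc : (F : Set k).ncard = (p ^ s) ^ 2 := by rw [← Nat.card_coe_set_eq]; exact hF.card
  let G : Set k := {t₀ | t₀ ∈ F ∧ ∃ x₀ : Fin n → k, Injective x₀ ∧ YY f t₀ x₀}
  let N : Equiv.Perm (Fin n) → Set (k × (Fin n → k)) := fun σ =>
    {P | P.1 ∈ F ∧ Injective P.2 ∧ YY f P.1 P.2 ∧ ∀ i, frob k p s (P.2 i) = P.2 (σ i)}
  have hG : G.Finite := hFf.subset fun _ h => h.1
  have hS : (SplT f n F).Finite := hFf.subset fun _ h => h.1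
  obtain ⟨w1, w2⟩ := card_W (n := n) f hG fun _ h => h.2
  obtain ⟨-, w3⟩ := card_W (n := n) f hS fun _ ⟨_, y, a, _, b⟩ => ⟨y, a, b⟩
  have c1 : (p ^ s) ^ 2 ≤ G.ncard + n ^ 2 := by
    rw [← hFc]
    refine (Set.ncard_le_ncard (fun y hy => ?_) (hG.union b1)).trans
      ((Set.ncard_union_le _ _).trans (Nat.add_le_add_left b2 _))
    by_cases h : ∃ x₀ : Fin n → k, Injective x₀ ∧ YY f y x₀
    exacts [Or.inl ⟨hy, h⟩, Or.inr h]
  have c2 : N 1 = W f n (SplT f n F) := by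
    ext ⟨t₀, y⟩
    constructor
    · rintro ⟨a, b, c, d⟩
      exact ⟨⟨a, y, b, fun i => hF.frob_eq.1 (d i), c⟩, b, c⟩
    · rintro ⟨⟨a, y', -, d, c'⟩, b, c⟩
      obtain ⟨σ, hσ⟩ := c'.exists_perm c
      exact ⟨a, b, c, fun i => hF.frob_eq.2 (by rw [show y = y' ∘ σ from hσ]; exact d _)⟩
  have c3 : ∀ σ, (N σ).Finite := fun σ =>
    w1.subset fun P ⟨a, b, c, _⟩ => ⟨⟨a, _, b, c⟩, b, c⟩
  have c4 : (W f n G).ncard ≤ ∑ σ, (N σ).ncard := by
    have : W f n G ⊆ (Finset.univ.biUnion fun σ => (c3 σ).toFinset : Finset _) := by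
      rintro P ⟨a, b, c⟩
      obtain ⟨σ, hσ⟩ := c.exists_perm (yy_frob hF hf a.1 c)
      simp only [Finset.coe_biUnion, Finset.coe_univ, Set.mem_univ, Set.iUnion_true,
        Set.mem_iUnion, Set.Finite.coe_toFinset]
      exact ⟨σ, a.1, b, c, congrFun hσ⟩
    refine (Set.ncard_le_ncard this (Finset.finite_toSet _)).trans ?_
    rw [Set.ncard_coe_finset]
    refine Finset.card_biUnion_le.trans (Finset.sum_le_sum fun σ _ => ?_)
    rw [Set.ncard_eq_toFinset_card _ (c3 σ)]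
  have c5 : ∀ σ, (N σ).ncard ≤ (p ^ s) ^ 2 + C * p ^ s := fun σ =>
    hC k M p s F f t x σ hF hc hf
  have c6 : ∑ σ, (N σ).ncard + ((p ^ s) ^ 2 + C * p ^ s) ≤
      (N 1).ncard + n ! * ((p ^ s) ^ 2 + C * p ^ s) := by
    rw [← Finset.add_sum_erase _ _ (Finset.mem_univ 1), add_assoc]
    refine Nat.add_le_add_left ?_ _
    have h1 := Finset.sum_le_card_nsmul (Finset.univ.erase (1 : Equiv.Perm (Fin n))) _ _
      fun σ _ => c5 σ
    have h2 := Finset.card_erase_add_one (Finset.mem_univ (1 : Equiv.Perm (Fin n)))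
    rw [Finset.card_univ, Fintype.card_perm, Fintype.card_fin] at h2
    rw [← h2, add_mul, one_mul]
    exact Nat.add_le_add_right h1 _
  have c7 := c5 1
  rw [c2, w3] at c6 c7
  rw [w2] at c4
  have r1 : 1 ≤ p ^ s := Nat.one_le_pow _ _ hp.out.pos
  have c8 : n ! * (p ^ s) ^ 2 ≤ n ! * G.ncard + n ! * n ^ 2 * p ^ s := by
    have h1 := Nat.mul_le_mul_left (n !) c1
    have h2 := Nat.le_mul_of_pos_right (n ! * n ^ 2) r1
    rw [mul_add] at h1
    omega
  have d1 : n ! * (SplT f n F).ncard ≤ (p ^ s) ^ 2 + (n ! * n ^ 2 + n ! * C + C) * p ^ s := by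
    rw [add_mul]; omega
  have d2 : (p ^ s) ^ 2 ≤ n ! * (SplT f n F).ncard + (n ! * n ^ 2 + n ! * C + C) * p ^ s := by
    rw [mul_add] at c6
    rw [add_mul, add_mul, mul_assoc _ C]
    omega
  zify at d1 d2
  push_cast
  rw [abs_le]
  constructor <;> linarith

end Pool.Agent.P.MP_12d50c_ag
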