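import Pool.Agent.P.MP_12d50c_ag.If2

/-!
Specialization of relations among the roots.
-/

open MvPolynomial Function
open scoped Polynomial

namespace Pool.Agent.P.MP_12d50c_ag

namespace CH1

/-- A point over `t₀` of an integral extension of `k[X]`. -/
theorem exists_pt {k A : Type} [Field k] [IsAlgClosed k] [CommRing A] [Algebra k A]
    [Algebra k[X] A] [IsScalarTower k k[X] A] [Algebra.IsIntegral k[X] A]
    (h : Injective (algebraMap k[X] A)) (t₀ : k) :
    ∃ ψ : A →ₐ[k] k, ψ (algebraMap k[X] A Polynomial.X) = t₀ := by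
  have hP : (RingHom.ker (Polynomial.evalRingHom t₀)).IsMaximal :=
    RingHom.ker_isMaximal_of_surjective _ fun c => ⟨Polynomial.C c, by simp⟩
  obtain ⟨Q, hQ, hQP⟩ := Ideal.exists_ideal_over_maximal_of_isIntegral (S := A)
    (RingHom.ker (Polynomial.evalRingHom t₀)) (by
      rw [(RingHom.injective_iff_ker_eq_bot _).1 h]; exact bot_le)
  have h1 : (algebraMap k (A ⧸ Q)).comp (Polynomial.evalRingHom t₀) =
      (Ideal.Quotient.mk Q).comp (algebraMap k[X] A) := by
    refine RingHom.ext fun c => ?_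
    have h2 : Polynomial.C (c.eval t₀) - c ∈ RingHom.ker (Polynomial.evalRingHom t₀) := by
      simp [RingHom.mem_ker]
    rw [← hQP, Ideal.mem_comap, map_sub, ← Ideal.Quotient.eq] at h2
    rw [RingHom.comp_apply, RingHom.comp_apply, ← h2, ← Polynomial.algebraMap_eq,
      ← IsScalarTower.algebraMap_apply]
    rfl
  have : Algebra.IsIntegral k (A ⧸ Q) := ⟨fun a => by
    obtain ⟨a, rfl⟩ := Ideal.Quotient.mk_surjective a
    obtain ⟨g, hg, h2⟩ := Algebra.IsIntegral.isIntegral (R := k[X]) a
    refine ⟨g.map (Polynomial.evalRingHom t₀), hg.map _, ?_⟩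
    rw [Polynomial.eval₂_map, h1, ← Polynomial.hom_eval₂, h2, map_zero]⟩
  let e := AlgEquiv.ofBijective (Algebra.ofId k (A ⧸ Q))
    (IsAlgClosed.algebraMap_bijective_of_isIntegral (k := k))
  refine ⟨e.symm.toAlgHom.comp (Ideal.Quotient.mkₐ k Q), e.symm_apply_eq.2 ?_⟩
  have h3 := RingHom.congr_fun h1 Polynomial.X
  simp only [RingHom.comp_apply, Polynomial.coe_evalRingHom, Polynomial.eval_X] at h3
  exact h3.symm

end CH1

theorem t_CH1 : S_CH1 := by
  intro k M _ _ _ _ n f t x t₀ x₀ hC h₀ G hG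
  letI : Algebra k[X] M := (Polynomial.aeval t : k[X] →ₐ[k] M).toRingHom.toAlgebra
  have hal : ∀ g : k[X], algebraMap k[X] M g = Polynomial.aeval t g := fun _ => rfl
  have : IsScalarTower k k[X] M := IsScalarTower.of_algebraMap_eq fun c => by simp [hal]
  have hx : ∀ i, x i ∈ integralClosure k[X] M := fun i => ⟨f, hC.monic, by
    have h1 : (sp f t).eval (x i) = 0 := by
      rw [hC.yy, Polynomial.eval_prod]
      exact Finset.prod_eq_zero (Finset.mem_univ i) (by simp)
    rw [← h1, sp, Polynomial.eval_map]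
    rfl⟩
  let A := integralClosure k[X] M
  let v : A →ₐ[k] M := A.val.restrictScalars k
  have hv : Injective v := Subtype.val_injective
  obtain ⟨ψ, hψ⟩ := CH1.exists_pt (k := k) (A := A) (fun a b h => by
    have h1 : Polynomial.aeval t a = Polynomial.aeval t b := congrArg Subtype.val h
    exact transcendental_iff_injective.1 hC.tr h1) t₀
  let tA : A := algebraMap k[X] A Polynomial.X
  let xA : Fin n → A := fun i => ⟨x i, hx i⟩
  have ht : v tA = t := Polynomial.aeval_X t
  have hy : YY f tA xA := by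
    refine Polynomial.map_injective v.toRingHom hv ?_
    rw [map_sp, ht, hC.yy, Polynomial.map_prod]
    simp [xA, v]
  have hy' := hy.map ψ
  rw [hψ] at hy'
  obtain ⟨σ, hσ⟩ := hy'.exists_perm h₀
  have h2 : evq tA (xA ∘ σ) G = 0 := by
    refine hv ?_
    rw [map_evq, ht, map_zero]
    exact hC.perm σ G hG
  have h3 := map_evq ψ tA (xA ∘ σ) G
  rw [h2, map_zero, hψ] at h3
  rw [hσ]
  exact h3.symm

end Pool.Agent.P.MP_12d50c_ag
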