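import Pool.Agent.P.MP_12d50c_ag.If2

/-! Symmetric functions of the roots are polynomials in the parameter. -/

open MvPolynomial
open scoped Polynomial

namespace Pool.Agent.P.MP_12d50c_ag

namespace CH2

variable {k M : Type} [Field k] [Field M] [Algebra k M] {n : ℕ}

theorem mem_range {f : k[X][X]} {t : M} {x : Fin n → M} (h : YY f t x)
    (G : MvPolynomial (Option (Fin n)) k)
    (hG : ∀ σ : Equiv.Perm (Fin n), rename (Option.map σ) G = G) :
    ∃ g : k[X], evq t x G = Polynomial.aeval t g := by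
  let _ : Algebra k[X] M := (Polynomial.aeval t : k[X] →ₐ[k] M).toRingHom.toAlgebra
  have e0 : ∀ g : k[X], algebraMap k[X] M g = Polynomial.aeval t g := fun _ => rfl
  have : IsScalarTower k k[X] M := IsScalarTower.of_algebraMap_eq fun c => by
    rw [e0, AlgHom.commutes]
  let Φ : MvPolynomial (Option (Fin n)) k →ₐ[k] MvPolynomial (Fin n) k[X] :=
    aeval fun o => o.elim (C Polynomial.X) X
  have h1 : ∀ σ : Fin n → Fin n, ((rename σ).restrictScalars k).comp Φ
      = Φ.comp (rename (Option.map σ)) := fun σ => by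
    ext o : 1
    cases o <;> simp [Φ]
  have h2 : ((aeval x : MvPolynomial (Fin n) k[X] →ₐ[k[X]] M).restrictScalars k).comp Φ
      = evq t x := by
    ext o : 1
    cases o <;> simp [Φ, e0]
  have h3 : Φ G ∈ symmetricSubalgebra (Fin n) k[X] := fun σ =>
    (AlgHom.congr_fun (h1 σ) G).trans (congrArg Φ (hG σ))
  obtain ⟨p, hp⟩ := esymmAlgHom_surjective k[X] (Fintype.card_fin n).le ⟨Φ G, h3⟩
  have h4 : Φ G = aeval (fun i : Fin n => esymm (Fin n) k[X] (i + 1)) p := by
    rw [← esymmAlgHom_apply, hp]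
  have h5 : ∀ i : Fin n, aeval x (esymm (Fin n) k[X] (i + 1)) ∈ (⊥ : Subalgebra k[X] M) := by
    intro i
    have h6 := Multiset.prod_X_sub_C_coeff (Finset.univ.val.map x) (k := n - (i + 1)) (by simp)
    have h7 : Multiset.card (Finset.univ.val.map x) - (n - (i + 1)) = i + 1 := by
      simp only [Multiset.card_map, Finset.card_val, Finset.card_univ, Fintype.card_fin]
      omega
    rw [h7, Multiset.map_map] at h6
    have h8 := (congrArg (fun q : M[X] => q.coeff (n - (i + 1))) h).trans h6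
    have h9 : (Finset.univ.val.map x).esymm (i + 1)
        = (-1) ^ (i.val + 1) * (sp f t).coeff (n - (i + 1)) := by
      rw [h8, ← mul_assoc, ← mul_pow]
      simp
    rw [aeval_esymm_eq_multiset_esymm, h9, sp, Polynomial.coeff_map]
    exact mul_mem (pow_mem (neg_mem (one_mem _)) _) (Subalgebra.algebraMap_mem _ _)
  have h6 : evq t x G ∈ (⊥ : Subalgebra k[X] M) := by
    rw [← h2]
    show aeval x (Φ G) ∈ _
    rw [h4]
    clear h4 hp
    induction p using MvPolynomial.induction_on with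
    | C a => simp
    | add p q hp hq => simpa only [map_add] using add_mem hp hq
    | mul_X p i hp => simpa only [map_mul, aeval_X] using mul_mem hp (h5 i)
  obtain ⟨g, hg⟩ := Algebra.mem_bot.1 h6
  exact ⟨g, hg.symm⟩

theorem exists_val {t : M} (ht : Transcendental k t) :
    ∃ V : ValuationSubring M, (∀ c : k, V.valuation (algebraMap k M c) ≤ 1) ∧
      1 < V.valuation t := by
  have hs : Transcendental k t⁻¹ := fun h => ht (IsAlgebraic.inv_iff.1 h)
  have h0 : t ≠ 0 := fun h => ht (h ▸ isAlgebraic_zero)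
  obtain ⟨V, h1, h2⟩ := Ideal.image_subset_nonunits_valuationSubring
    (A := (Polynomial.aeval t⁻¹ : k[X] →ₐ[k] M).range.toSubring)
    (Ideal.span {⟨t⁻¹, Polynomial.X, Polynomial.aeval_X _⟩}) (by
      rw [Ne, Ideal.span_singleton_eq_top, isUnit_iff_exists_inv]
      rintro ⟨⟨_, g, rfl⟩, hg⟩
      have h3 : t⁻¹ * Polynomial.aeval t⁻¹ g = 1 := congrArg Subtype.val hg
      have h4 := transcendental_iff.1 hs (Polynomial.X * g - 1) (by simp [h3])
      simpa using congrArg (·.coeff 0) h4)
  refine ⟨V, fun c => (V.valuation_le_one_iff _).2 (h1 (Subalgebra.algebraMap_mem _ c)), ?_⟩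
  have h3 : V.valuation t⁻¹ < 1 := h2 ⟨_, Ideal.mem_span_singleton_self _, rfl⟩
  rwa [map_inv₀, inv_lt_one₀ (zero_lt_iff.2 ((map_ne_zero _).2 h0))] at h3

variable {Γ : Type} [LinearOrderedCommGroupWithZero Γ] (v : Valuation M Γ)
  (hk : ∀ c : k, v (algebraMap k M c) ≤ 1) {t : M} (ht : 1 < v t)

include hk in
theorem val_smul (c : k) (y : M) : v (c • y) ≤ v y := by
  rw [Algebra.smul_def, map_mul]
  exact mul_le_of_le_one_left' (hk c)

include hk ht

theorem val_le {g : k[X]} {d : ℕ} (h : g.natDegree ≤ d) :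
    v (Polynomial.aeval t g) ≤ v t ^ d := by
  rw [Polynomial.aeval_eq_sum_range]
  refine v.map_sum_le fun i hi => (val_smul v hk _ _).trans ?_
  rw [map_pow]
  exact pow_le_pow_right₀ ht.le ((Nat.lt_succ_iff.1 (Finset.mem_range.1 hi)).trans h)

theorem val_eq {g : k[X]} (h : g ≠ 0) : v (Polynomial.aeval t g) = v t ^ g.natDegree := by
  have h1 : v (g.coeff g.natDegree • t ^ g.natDegree) = v t ^ g.natDegree := by
    rw [← map_pow]
    refine le_antisymm (val_smul v hk _ _) ?_
    have := val_smul v hk (g.coeff g.natDegree)⁻¹ (g.coeff g.natDegree • t ^ g.natDegree)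
    rwa [inv_smul_smul₀ (show g.coeff g.natDegree ≠ 0 from Polynomial.leadingCoeff_ne_zero.2 h)]
      at this
  rw [Polynomial.aeval_eq_sum_range, Finset.sum_range_succ, v.map_add_eq_of_lt_right, h1]
  rw [h1]
  refine v.map_sum_lt' (pow_pos (zero_lt_one.trans ht) _) fun i hi =>
    (val_smul v hk _ _).trans_lt ?_
  rw [map_pow]
  exact pow_lt_pow_right₀ ht (Finset.mem_range.1 hi)

theorem root_le {f : k[X][X]} {x : Fin n → M} (h : Cov f t x) (i : Fin n) : v (x i) ≤ v t := by
  by_contra h1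
  have h2 : v t < v (x i) := not_le.1 h1
  have h3 : 0 < v (x i) := (zero_lt_one.trans ht).trans h2
  have h4 : (sp f t).eval (x i) = 0 := by
    rw [h.yy, Polynomial.eval_prod]
    exact Finset.prod_eq_zero (Finset.mem_univ i) (by simp)
  have h5 : f.coeff n = 1 := h.deg ▸ h.monic.coeff_natDegree
  rw [sp, Polynomial.eval_map, Polynomial.eval₂_eq_sum_range, h.deg, Finset.sum_range_succ, h5,
    map_one, one_mul] at h4
  have h6 := congrArg v h4
  rw [v.map_add_eq_of_lt_right, map_pow, map_zero] at h6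
  · exact (pow_pos h3 n).ne' h6
  rw [map_pow]
  refine v.map_sum_lt' (pow_pos h3 _) fun j hj => ?_
  have h7 : j < n := Finset.mem_range.1 hj
  rw [map_mul, map_pow, ← pow_sub_mul_pow _ h7.le]
  exact mul_lt_mul_of_pos_right ((val_le v hk ht (h.wt j)).trans_lt
    (pow_lt_pow_left₀ h2 zero_le (by omega))) (pow_pos h3 _)

theorem evq_le {x : Fin n → M} (h : ∀ i, v (x i) ≤ v t) (G : MvPolynomial (Option (Fin n)) k) :
    v (evq t x G) ≤ v t ^ G.totalDegree := by
  rw [evq, aeval_def, eval₂_eq]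
  refine v.map_sum_le fun d hd => ?_
  rw [map_mul, map_prod]
  refine (mul_le_of_le_one_left' (hk _)).trans (le_trans ?_
    (pow_le_pow_right₀ ht.le (le_totalDegree hd)))
  rw [Finsupp.sum, ← Finset.prod_pow_eq_pow_sum]
  refine Finset.prod_le_prod' fun o _ => ?_
  rw [map_pow]
  refine pow_le_pow_left' ?_ _
  cases o
  exacts [le_rfl, h _]

end CH2

open CH2 in
theorem t_CH2 : S_CH2 := by
  intro k M _ _ _ n f t x G h hG
  obtain ⟨g, hg⟩ := mem_range h.yy G hG
  refine ⟨g, ?_, hg⟩
  rcases eq_or_ne g 0 with rfl | h0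
  · simp
  obtain ⟨V, hk, ht⟩ := exists_val h.tr
  have h1 := evq_le V.valuation hk ht (root_le V.valuation hk ht h) G
  rw [hg, val_eq V.valuation hk ht h0] at h1
  exact (pow_le_pow_iff_right₀ ht).1 h1

end Pool.Agent.P.MP_12d50c_ag
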