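import Pool.Agent.P.MP_12d50c_ag.If2

/-!
The number of zeros of a function on the Galois closure.
-/

open MvPolynomial Function
open scoped Polynomial Nat

namespace Pool.Agent.P.MP_12d50c_ag

namespace CH3

variable {k M : Type} [Field k] [Field M] [Algebra k M] {n : ℕ} {t : M} {x : Fin n → M} {t₀ : k}
  {x₀ : Fin n → k} {o : AddValuation (MvPolynomial (Option (Fin n)) k) ℕ∞}

theorem evq_aeval {R : Type} [CommRing R] [Algebra k R] (t : R) (x : Fin n → R) (g : k[X]) :
    evq t x (Polynomial.aeval (X none : MvPolynomial (Option (Fin n)) k) g) =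
      Polynomial.aeval t g := by
  rw [← Polynomial.aeval_algHom_apply, aeval_X]
  rfl

theorem ord_aeval (h : IsOrd t x t₀ x₀ o) {g : k[X]} (hg : g ≠ 0) :
    o (Polynomial.aeval (X none) g) = g.rootMultiplicity t₀ := by
  obtain ⟨q, h1, h2⟩ := Polynomial.exists_eq_pow_rootMultiplicity_mul_and_not_dvd g hg t₀
  have h3 : o (Polynomial.aeval (X none) q) = 0 := (h.zero _).2 (by
    rw [evq_aeval, Polynomial.coe_aeval_eq_eval]
    exact fun e => h2 (Polynomial.dvd_iff_isRoot.2 e))
  generalize g.rootMultiplicity t₀ = j at h1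
  rw [h1, map_mul, map_pow, map_sub, Polynomial.aeval_X, Polynomial.aeval_C, o.map_mul, o.map_pow,
    h3, algebraMap_eq, h.unif, add_zero, nsmul_one]

theorem ord_congr (h : IsOrd t x t₀ x₀ o) {A B : MvPolynomial (Option (Fin n)) k}
    (e : evq t x A = evq t x B) : o A = o B := by
  by_cases hB : o B = ⊤
  · rw [hB, (h.top A).2 (e.trans ((h.top B).1 hB))]
  · refine o.map_eq_of_lt_sub ?_
    rw [(h.top (A - B)).2 (by rw [map_sub, e, sub_self])]
    exact lt_top_iff_ne_top.2 hB

theorem ord_prod {ι : Type} (s : Finset ι) (u : ι → MvPolynomial (Option (Fin n)) k) :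
    o (∏ i ∈ s, u i) = ∑ i ∈ s, o (u i) := by
  classical
  induction s using Finset.induction_on with
  | empty => simp
  | insert a s ha ih => rw [Finset.prod_insert ha, Finset.sum_insert ha, o.map_mul, ih]

theorem key (h2 : S_CH2) {f : k[X][X]} (hC : Cov f t x) {G : MvPolynomial (Option (Fin n)) k}
    (hG : evq t x G ≠ 0) : ∃ g : k[X], g.natDegree ≤ n ! * G.totalDegree ∧
      ∀ t₀ x₀ o, IsOrd t x t₀ x₀ o →
        ∑ σ : Equiv.Perm (Fin n), o (rename (Option.map σ) G) = g.rootMultiplicity t₀ := by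
  obtain ⟨g, a1, a2⟩ := h2 k M n f t x (∏ σ : Equiv.Perm (Fin n), rename (Option.map σ) G) hC
    fun τ => by
      rw [map_prod, ← Equiv.prod_comp (Equiv.mulLeft τ) fun σ : Equiv.Perm (Fin n) =>
        rename (Option.map σ) G]
      refine Finset.prod_congr rfl fun σ _ => ?_
      rw [rename_rename, Option.map_comp_map]
      rfl
  have hg : g ≠ 0 := by
    rintro rfl
    rw [map_zero, map_prod, Finset.prod_eq_zero_iff] at a2
    obtain ⟨σ, -, hσ⟩ := a2
    have h3 := hC.perm σ⁻¹ _ hσ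
    rw [evq_rename] at h3
    refine hG (Eq.trans (congrArg (fun y => evq t y G) (funext fun i => ?_)) h3)
    simp
  refine ⟨g, a1.trans ((totalDegree_finsetProd _ _).trans ((Finset.sum_le_card_nsmul _ _ _
    fun σ _ => totalDegree_rename_le _ _).trans ?_)), fun t₀ x₀ o h => ?_⟩
  · simp [Fintype.card_perm]
  · rw [← ord_prod, ← ord_aeval h hg]
    exact ord_congr h (by rw [a2, evq_aeval])

end CH3

open CH3 in
theorem t_CH3 : S_CH0 → S_CH1 → S_CH2 → S_CHL → S_CH3 := by
  classical
  intro _ h1 h2 hL k M _ _ _ _ n f t x G hC hG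
  obtain ⟨g, a1, a2⟩ := key h2 hC hG
  have hb : ∀ T : Finset (k × (Fin n → k)),
      (∀ P ∈ T, Injective P.2 ∧ YY f P.1 P.2 ∧ evq P.1 P.2 G = 0) →
      T.card ≤ n ! * G.totalDegree := fun T hT => by
    have fib : ∀ t₀, (T.filter fun P => P.1 = t₀).card ≤ g.roots.count t₀ := fun t₀ => by
      rcases (T.filter fun P => P.1 = t₀).eq_empty_or_nonempty with e | ⟨P₀, hP₀⟩
      · simp [e]
      obtain ⟨b1, rfl⟩ := Finset.mem_filter.1 hP₀
      obtain ⟨c1, c2, -⟩ := hT P₀ b1
      obtain ⟨o, ho⟩ := hL k M n f t x _ _ hC c2 c1 (h1 k M n f t x _ _ hC c2)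
      let A := Finset.univ.filter fun σ : Equiv.Perm (Fin n) => evq P₀.1 (P₀.2 ∘ σ) G = 0
      have d1 : (T.filter fun P => P.1 = P₀.1).card ≤ A.card := by
        refine le_trans (Finset.card_le_card fun P hP => ?_)
          (Finset.card_image_le (f := fun σ : Equiv.Perm (Fin n) => (P₀.1, P₀.2 ∘ σ)))
        obtain ⟨b2, b3⟩ := Finset.mem_filter.1 hP
        obtain ⟨-, c3, c4⟩ := hT P b2
        rw [b3] at c3 c4
        obtain ⟨σ, hσ⟩ := c2.exists_perm c3
        exact Finset.mem_image.2 ⟨σ, Finset.mem_filter.2 ⟨Finset.mem_univ _, hσ ▸ c4⟩,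
          Prod.ext b3.symm hσ.symm⟩
      refine d1.trans (ENat.natCast_le_natCast.1 ?_)
      rw [Polynomial.count_roots, ← a2 _ _ o ho, Finset.card_eq_sum_ones, Nat.cast_sum]
      refine le_trans (Finset.sum_le_sum fun σ hσ => ?_)
        (Finset.sum_le_sum_of_subset (Finset.subset_univ A))
      refine Order.one_le_iff_ne_zero.2 fun e => (ho.zero _).1 e ?_
      rw [evq_rename]
      exact (Finset.mem_filter.1 hσ).2
    rw [Finset.card_eq_sum_card_fiberwise (f := Prod.fst) (t := g.roots.toFinset) fun P hP =>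
      Finset.mem_coe.2 (Multiset.mem_toFinset.2 (Multiset.count_pos.1 (lt_of_lt_of_le
        (Finset.card_pos.2 ⟨P, by simpa using hP⟩) (fib P.1))))]
    refine (Finset.sum_le_sum fun t₀ _ => fib t₀).trans ?_
    rw [Multiset.toFinset_sum_count_eq]
    exact (Polynomial.card_roots' g).trans a1
  have hf : {P : k × (Fin n → k) | Injective P.2 ∧ YY f P.1 P.2 ∧ evq P.1 P.2 G = 0}.Finite := by
    by_contra hi
    obtain ⟨T, b1, b2⟩ := Set.Infinite.exists_subset_card_eq hi (n ! * G.totalDegree + 1)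
    have := hb T fun P hP => b1 hP
    omega
  refine ⟨fun t₀ x₀ o ho => ?_, hf, ?_⟩
  · have b1 := Finset.single_le_sum (f := fun σ : Equiv.Perm (Fin n) =>
      o (rename (Option.map σ) G)) (fun _ _ => zero_le) (Finset.mem_univ 1)
    rw [a2 _ _ o ho, ← Polynomial.count_roots] at b1
    simp only [Equiv.Perm.coe_one, Option.map_id, rename_id, AlgHom.id_apply] at b1
    exact b1.trans (ENat.natCast_le_natCast.2 ((Multiset.count_le_card _ _).trans
      ((Polynomial.card_roots' g).trans a1)))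
  · rw [Set.ncard_eq_toFinset_card _ hf]
    exact hb _ fun P hP => hf.mem_toFinset.1 hP

end Pool.Agent.P.MP_12d50c_ag
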