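import Pool.Agent.P.MP_12d50c_ag.If2

/-!
Families with distinct finite orders.
-/

open Function

namespace Pool.Agent.P.MP_12d50c_ag

theorem t_CH4 : S_CH4 := by
  intro k R _ _ _ o ι _ u _ hres hind
  let φ : (ι → k) →ₗ[k] R := Fintype.linearCombination k u
  have hφ : ∀ c, φ c = ∑ i, c i • u i := fun c => Fintype.linearCombination_apply k u c
  let S : Set ℕ∞ := {s | ∃ c : ι → k, c ≠ 0 ∧ o (φ c) = s}
  have hrep : ∀ s : S, ∃ c : ι → k, c ≠ 0 ∧ o (φ c) = s := fun s => s.2
  choose rep h0 h1 using hrep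
  have hfin : ∀ c : ι → k, c ≠ 0 → o (φ c) ≠ ⊤ := fun c hc h => hc (hind c (hφ c ▸ h))
  have he : Nonempty (ι ↪ S) := by
    by_cases hS : S.Finite
    · have := hS.fintype
      refine Function.Embedding.nonempty_of_card_le ?_
      rw [← Module.finrank_fintype_fun_eq_card k]
      refine finrank_le_of_span_eq_top (v := rep) ?_
      by_contra hne
      let T : Set (ι → k) := {c | c ∉ Submodule.span k (Set.range rep)}
      have hT : T.Nonempty := by
        by_contra h
        exact hne (Submodule.eq_top_iff'.2 fun c => by_contra fun hc => h ⟨c, hc⟩)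
      have hT0 : ∀ c ∈ T, c ≠ 0 := fun c hc h => hc (h ▸ Submodule.zero_mem _)
      have hfT : ((fun c => o (φ c)) '' T).Finite :=
        hS.subset (by rintro _ ⟨c, hc, rfl⟩; exact ⟨c, hT0 c hc, rfl⟩)
      obtain ⟨c, hc, hmax⟩ := hfT.exists_maximalFor' _ _ hT
      let s : S := ⟨o (φ c), c, hT0 c hc, rfl⟩
      obtain ⟨a, ha⟩ := hres (φ c) (φ (rep s)) (h1 s).symm (hfin c (hT0 c hc))
      rw [← Algebra.smul_def, ← map_smul, ← map_sub] at ha
      have hm : c - a • rep s ∈ T := fun h => hc (by
        have := Submodule.add_mem _ h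
          (Submodule.smul_mem _ a (Submodule.subset_span (Set.mem_range_self s)))
        rwa [sub_add_cancel] at this)
      exact (hmax hm ha.le).not_gt ha
    · exact ⟨(Fintype.equivFin ι).toEmbedding.trans
        (Fin.valEmbedding.trans (Set.Infinite.natEmbedding S hS))⟩
  obtain ⟨e⟩ := he
  refine ⟨fun i => φ (rep (e i)), fun i => ?_, fun i => hfin _ (h0 _), fun i j h => ?_⟩
  · simp only [hφ]
    exact Submodule.sum_mem _ fun j _ =>
      Submodule.smul_mem _ _ (Submodule.subset_span (Set.mem_range_self j))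
  · simp only [h1] at h
    exact e.injective (Subtype.ext h)

end Pool.Agent.P.MP_12d50c_ag
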