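import Pool.Agent.P.MP_12d50c_ag.If2

/-!
Independent monomials on a Galois covering.
-/

open MvPolynomial Function
open scoped Polynomial Nat

namespace Pool.Agent.P.MP_12d50c_ag

namespace CH5

theorem span_top {M : Type} [Field M] {n : ℕ} {x : Fin n → M} (hx : Injective x) :
    Submodule.span M (Set.range fun (a : Fin n → Fin n) (σ : Equiv.Perm (Fin n)) =>
      ∏ i, x (σ i) ^ (a i : ℕ)) = ⊤ := by
  have hV : Matrix.vandermonde x * (Matrix.vandermonde x)⁻¹ = 1 :=
    Matrix.mul_nonsing_inv _ (Matrix.det_vandermonde_ne_zero_iff.2 hx).isUnit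
  refine (Submodule.eq_top_iff_forall_basis_mem (Pi.basisFun M _)).2 fun τ => ?_
  refine (Submodule.mem_span_range_iff_exists_fun M).2
    ⟨fun a => ∏ i, (Matrix.vandermonde x)⁻¹ (a i) (τ i), funext fun σ => ?_⟩
  have h1 : ∀ i, ∑ j : Fin n, (Matrix.vandermonde x)⁻¹ j (τ i) * x (σ i) ^ (j : ℕ) =
      if σ i = τ i then 1 else 0 := fun i => by
    rw [← Matrix.one_apply, ← hV, Matrix.mul_apply]
    exact Finset.sum_congr rfl fun j _ => mul_comm _ _
  simp only [Finset.sum_apply, Pi.smul_apply, smul_eq_mul, ← Finset.prod_mul_distrib]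
  rw [← Fintype.prod_sum (fun i (j : Fin n) =>
    (Matrix.vandermonde x)⁻¹ j (τ i) * x (σ i) ^ (j : ℕ))]
  simp only [h1, Pi.basisFun_apply, Pi.single_apply, Fintype.prod_boole]
  by_cases h : σ = τ
  · rw [if_pos h, if_pos (Equiv.ext_iff.1 h)]
  · rw [if_neg h, if_neg (mt Equiv.ext_iff.2 h)]

theorem indep {M : Type} [Field M] {n : ℕ} {x : Fin n → M} (hx : Injective x) :
    ∃ a : Fin n ! → Fin n → Fin n, LinearIndependent M fun j (σ : Equiv.Perm (Fin n)) =>
      ∏ i, x (σ i) ^ (a j i : ℕ) := by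
  obtain ⟨f, h1, -, h2⟩ := Submodule.exists_fun_fin_finrank_span_eq M
    (Set.range fun (a : Fin n → Fin n) (σ : Equiv.Perm (Fin n)) => ∏ i, x (σ i) ^ (a i : ℕ))
  choose a ha using h1
  have e : n ! = Module.finrank M (Submodule.span M (Set.range
      fun (a : Fin n → Fin n) (σ : Equiv.Perm (Fin n)) => ∏ i, x (σ i) ^ (a i : ℕ))) := by
    rw [span_top hx, finrank_top, Module.finrank_fintype_fun_eq_card, Fintype.card_perm,
      Fintype.card_fin]
  refine ⟨fun j => a (Fin.cast e j), ?_⟩
  obtain rfl : _ = f := funext ha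
  exact h2.comp _ (Fin.cast_injective e)

end CH5

theorem t_CH5 : S_CH5 := by
  intro k M _ _ _ n f t x h
  obtain ⟨a, ha⟩ := CH5.indep h.inj
  refine ⟨fun j => ∏ i, X (some i) ^ (a j i : ℕ), fun j => ?_, fun c hc => ?_⟩
  · refine (totalDegree_finsetProd _ _).trans ((Finset.sum_le_card_nsmul _ _ n fun i _ => ?_).trans
      (by simp [sq]))
    rw [totalDegree_X_pow]
    exact (a j i).2.le
  · have key : ∀ y : Fin n → M, evq t y (∑ j, Polynomial.aeval (X none) (c j) *
        ∏ i, X (some i) ^ (a j i : ℕ)) = ∑ j, Polynomial.aeval t (c j) *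
          evq t y (∏ i, X (some i) ^ (a j i : ℕ) : MvPolynomial (Option (Fin n)) k) := fun y => by
      rw [map_sum]
      refine Finset.sum_congr rfl fun j _ => ?_
      rw [map_mul, ← Polynomial.aeval_algHom_apply, aeval_X]
      rfl
    funext j
    have h1 := Fintype.linearIndependent_iff.1 ha (fun j => Polynomial.aeval t (c j))
      (funext fun σ => by
        have h2 := h.perm σ _ ((key x).trans hc)
        rw [key] at h2
        simpa using h2) j
    exact transcendental_iff.1 h.tr _ h1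

end Pool.Agent.P.MP_12d50c_ag
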