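import Pool.Agent.P.MP_12d50c_ag.If2

/-!
The argument of Bombieri.
-/

open MvPolynomial Function
open scoped Polynomial Nat

namespace Pool.Agent.P.MP_12d50c_ag

namespace CH6

theorem sum_ne_top {R ι : Type} [CommRing R] [Fintype ι] (o : AddValuation R ℕ∞) (u : ι → R)
    (h : ∀ i j, i ≠ j → o (u i) ≠ ⊤ → o (u i) ≠ o (u j)) (i₁ : ι) (h1 : o (u i₁) ≠ ⊤) :
    o (∑ i, u i) ≠ ⊤ := by
  classical
  obtain ⟨i₀, -, h0⟩ := Finset.exists_min_image Finset.univ (fun i => o (u i))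
    ⟨i₁, Finset.mem_univ _⟩
  have ht : o (u i₀) ≠ ⊤ := ne_top_of_le_ne_top h1 (h0 i₁ (Finset.mem_univ _))
  rw [← Finset.add_sum_erase _ _ (Finset.mem_univ i₀), o.map_add_eq_of_lt_left]
  · exact ht
  · exact o.map_lt_sum ht fun j hj => lt_of_le_of_ne (h0 j (Finset.mem_univ _))
      (h i₀ j (Finset.ne_of_mem_erase hj).symm ht)

section

variable {k M : Type} [Field k] [Field M] [Algebra k M] {n : ℕ} {f : k[X][X]} {t : M}
  {x : Fin n → M}

theorem deg_map (ψ : k →+* k) (G : MvPolynomial (Option (Fin n)) k) :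
    (map ψ G).totalDegree ≤ G.totalDegree :=
  Finset.sup_mono (support_map_subset ψ G)

theorem map_ev (ψ : k →+* k) (t₀ : k) (x₀ : Fin n → k) (G : MvPolynomial (Option (Fin n)) k) :
    ψ (evq t₀ x₀ G) = evq (ψ t₀) (ψ ∘ x₀) (map ψ G) := by
  induction G using MvPolynomial.induction_on with
  | C a => simp
  | add p q hp hq => simp only [map_add, hp, hq]
  | mul_X p o hp =>
    simp only [map_mul, hp, map_X, aeval_X]
    cases o <;> rfl

theorem yy_map (ψ : k →+* k) (hf : ∀ i j, ψ ((f.coeff i).coeff j) = (f.coeff i).coeff j) {t₀ : k}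
    {x₀ : Fin n → k} (h : YY f t₀ x₀) : YY f (ψ t₀) (ψ ∘ x₀) := by
  have e : (sp f t₀).map ψ = sp f (ψ t₀) := by
    ext i
    have e1 : (f.coeff i).map ψ = f.coeff i := by
      ext j
      rw [Polynomial.coeff_map, hf]
    simp only [sp, Polynomial.coeff_map, AlgHom.toRingHom_eq_coe, RingHom.coe_coe,
      Polynomial.coe_aeval_eq_eval]
    rw [← Polynomial.eval_map_apply, e1]
  rw [YY, ← e, h, Polynomial.map_prod]
  simp

theorem stab [IsAlgClosed k] (h0 : S_CH0) (h1 : S_CH1) (h3 : S_CH3) (hc : Cov f t x)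
    (ψ : k →+* k) (hf : ∀ i j, ψ ((f.coeff i).coeff j) = (f.coeff i).coeff j)
    {G : MvPolynomial (Option (Fin n)) k} (hG : evq t x G = 0) : evq t x (map ψ G) = 0 := by
  by_contra hne
  have a1 := ((h3 k M n f t x _ hc hne).2.1.image Prod.fst).preimage ψ.injective.injOn
  refine Set.infinite_univ (α := k) ((a1.union (h0 k M n f t x hc).2.1).subset fun t₀ _ => ?_)
  by_cases hg : ∃ x₀ : Fin n → k, Injective x₀ ∧ YY f t₀ x₀
  · obtain ⟨x₀, b1, b2⟩ := hg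
    refine Or.inl ⟨(ψ t₀, ψ ∘ x₀), ⟨ψ.injective.comp b1, yy_map ψ hf b2, ?_⟩, rfl⟩
    rw [← map_ev, h1 k M n f t x t₀ x₀ hc b2 G hG, map_zero]
  · exact Or.inr hg

theorem ords [IsAlgClosed k] (h3 : S_CH3) (h4 : S_CH4) (hc : Cov f t x) {t₀ : k}
    {x₀ : Fin n → k} {o : AddValuation (MvPolynomial (Option (Fin n)) k) ℕ∞}
    (ho : IsOrd t x t₀ x₀ o) {ι : Type} [Fintype ι] (u : ι → MvPolynomial (Option (Fin n)) k)
    {D : ℕ} (hu : ∀ i, (u i).totalDegree ≤ D)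
    (hind : ∀ c : ι → k, evq t x (∑ i, c i • u i) = 0 → c = 0) :
    ∃ (a : ι → MvPolynomial (Option (Fin n)) k) (d : ι → ℕ), (∀ i, (a i).totalDegree ≤ D) ∧
      (∀ i, o (a i) = d i) ∧ (∀ i, d i ≤ n ! * D) ∧ Injective d := by
  obtain ⟨a, a1, a2, a3⟩ := h4 k _ o ι u (fun c hc0 => (ho.zero _).2 (by simpa using hc0))
    (fun G G' e1 e2 => ho.res G G' e1 e2) fun c hc0 => hind c ((ho.top _).1 hc0)
  have b1 : ∀ i, (a i).totalDegree ≤ D := fun i => by
    have : Submodule.span k (Set.range u) ≤ restrictTotalDegree (Option (Fin n)) k D :=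
      Submodule.span_le.2 (Set.range_subset_iff.2 fun j => (mem_restrictTotalDegree _ _ _).2 (hu j))
    exact (mem_restrictTotalDegree _ _ _).1 (this (a1 i))
  choose d hd using fun i => ENat.ne_top_iff_exists.1 (a2 i)
  refine ⟨a, d, b1, fun i => (hd i).symm, fun i => ?_, fun i j e => a3 ?_⟩
  · have := (h3 k M n f t x (a i) hc fun e => a2 i ((ho.top _).2 e)).1 t₀ x₀ o ho
    rw [← hd i, Nat.cast_le] at this
    exact this.trans (Nat.mul_le_mul_left _ (b1 i))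
  · simp only [← hd, e]

theorem card_le [IsAlgClosed k] (h3 : S_CH3) (h4 : S_CH4) (hc : Cov f t x) {t₀ : k}
    {x₀ : Fin n → k} {o : AddValuation (MvPolynomial (Option (Fin n)) k) ℕ∞}
    (ho : IsOrd t x t₀ x₀ o) {ι : Type} [Fintype ι] (u : ι → MvPolynomial (Option (Fin n)) k)
    {D : ℕ} (hu : ∀ i, (u i).totalDegree ≤ D)
    (hind : ∀ c : ι → k, evq t x (∑ i, c i • u i) = 0 → c = 0) :
    Fintype.card ι ≤ n ! * D + 1 := by
  obtain ⟨-, d, -, -, a3, a4⟩ := ords h3 h4 hc ho u hu hind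
  have := Fintype.card_le_of_injective (fun i => (⟨d i, Nat.lt_succ_of_le (a3 i)⟩ :
    Fin (n ! * D + 1))) fun i j e => a4 (congrArg Fin.val e)
  rwa [Fintype.card_fin] at this

theorem fam (h5 : S_CH5) (hc : Cov f t x) (d : ℕ) :
    ∃ u : Fin n ! × Fin (d + 1) → MvPolynomial (Option (Fin n)) k,
      (∀ i, (u i).totalDegree ≤ n ^ 2 + d) ∧
      ∀ c : Fin n ! × Fin (d + 1) → k, evq t x (∑ i, c i • u i) = 0 → c = 0 := by
  obtain ⟨G, g1, g2⟩ := h5 k M n f t x hc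
  refine ⟨fun i => G i.1 * X none ^ (i.2 : ℕ), fun i => (totalDegree_mul _ _).trans ?_,
    fun c h => ?_⟩
  · rw [totalDegree_X_pow]
    exact add_le_add (g1 _) (Nat.lt_succ_iff.1 i.2.2)
  · have := g2 (fun j => ∑ i : Fin (d + 1), Polynomial.monomial (i : ℕ) (c (j, i))) (by
      rw [← h, Fintype.sum_prod_type, map_sum]
      refine Finset.sum_congr rfl fun j _ => ?_
      rw [map_sum, map_sum, Finset.sum_mul]
      refine Finset.sum_congr rfl fun i _ => ?_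
      rw [map_smul, Algebra.smul_def]
      simp only [Polynomial.aeval_monomial, map_mul, map_pow, aeval_X, Option.elim]
      ring)
    funext ⟨j, i⟩
    have e := congrArg (fun g : k[X] => g.coeff i) (congrFun this j)
    simp only [Polynomial.finsetSum_coeff, Polynomial.coeff_monomial, Fin.val_inj,
      Finset.sum_ite_eq', Finset.mem_univ, if_true, Pi.zero_apply, Polynomial.coeff_zero] at e
    exact e

end

theorem arith {e c r l m : ℕ} (hl : r ≤ e * (c + l) + e) (hl' : e * (c + l) < r)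
    (hr : 3 * (e * c + 1) < r) (hm : r + 3 * (e * c + 1) < e * (c + m)) :
    e * ((c + l) * r + (c + m)) + 1 < e * (l + 1) * (e * (m + 1)) := by
  obtain ⟨u, hu⟩ : ∃ u, u = e * c := ⟨_, rfl⟩
  obtain ⟨a, ha⟩ : ∃ a, a = e * l := ⟨_, rfl⟩
  obtain ⟨b, hb⟩ : ∃ b, b = e * m := ⟨_, rfl⟩
  have e1 : e * ((c + l) * r + (c + m)) + 1 = (u + a) * r + (u + b) + 1 := by
    rw [hu, ha, hb]
    ring
  have e2 : e * (l + 1) * (e * (m + 1)) = (a + e) * (b + e) := by
    rw [ha, hb]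
    ring
  rw [mul_add, ← hu, ← ha] at hl hl'
  rw [mul_add e, ← hu, ← hb] at hm
  rw [← hu] at hr
  rw [e1, e2]
  obtain ⟨w, rfl⟩ : ∃ w, r = 3 * (u + 1) + 1 + w := ⟨r - (3 * (u + 1) + 1), by omega⟩
  obtain ⟨y, rfl⟩ : ∃ y, b = 5 * u + 8 + w + y := ⟨b - (5 * u + 8 + w), by omega⟩
  have h1 : 2 * u + 4 + w ≤ a + e := by omega
  have h2 : u + a ≤ 3 * u + 3 + w := by omega
  have h3 := Nat.mul_le_mul_right (5 * u + 8 + w + y + e) h1
  have h4 := Nat.mul_le_mul_right (3 * (u + 1) + 1 + w) h2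
  nlinarith [Nat.zero_le (u * y), Nat.zero_le (w * y), Nat.zero_le (u * w), Nat.zero_le (u * e),
    Nat.zero_le (w * e), Nat.zero_le (u * u)]

theorem pull {k : Type} [Field k] {n : ℕ} (ψ : k →+* k) (hψ : Bijective ψ)
    (σ : Equiv.Perm (Fin n)) (g : MvPolynomial (Option (Fin n)) k) :
    ∃ γ : MvPolynomial (Option (Fin n)) k, γ.totalDegree ≤ g.totalDegree ∧
      rename (Option.map σ) (map ψ γ) = g := by
  refine ⟨map (RingEquiv.ofBijective ψ hψ).symm.toRingHom (rename (Option.map σ.symm) g),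
    (deg_map _ _).trans (totalDegree_rename_le _ _), ?_⟩
  have e1 : ψ.comp (RingEquiv.ofBijective ψ hψ).symm.toRingHom = RingHom.id k :=
    RingHom.ext fun y => (RingEquiv.ofBijective ψ hψ).apply_symm_apply y
  have e2 : Option.map σ ∘ Option.map σ.symm = id := funext fun o => by cases o <;> simp
  rw [map_map, e1, map_id, rename_rename, e2, rename_id_apply]

end CH6

open CH6 in
theorem t_CH6 : S_CH0 → S_CH1 → S_CHL → S_CH3 → S_CH4 → S_CH5 → S_CH6 := by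
  intro h0 h1 hL h3 h4 h5 n
  refine ⟨3 * (n ! * n ^ 2 + 1) * n ! + 3 * (n ! * n ^ 2 + 1) + n ! + 1, ?_⟩
  intro k M _ _ _ _ p _ _ s F f t x σ hF hc hf
  have key : ∀ G : MvPolynomial (Option (Fin n)) k, evq t x G ≠ 0 →
      (∀ (t₀ : k) (x₀ : Fin n → k), t₀ ∈ F → YY f t₀ x₀ →
        (∀ i, frob k p s (x₀ i) = x₀ (σ i)) → evq t₀ x₀ G = 0) →
      {P : k × (Fin n → k) | P.1 ∈ F ∧ Injective P.2 ∧ YY f P.1 P.2 ∧
        ∀ i, frob k p s (P.2 i) = P.2 (σ i)}.ncard ≤ n ! * G.totalDegree := fun G hG hv => by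
    obtain ⟨-, a1, a2⟩ := h3 k M n f t x G hc hG
    refine (Set.ncard_le_ncard (fun P hP => ?_) a1).trans a2
    exact ⟨hP.2.1, hP.2.2.1, hv P.1 P.2 hP.1 hP.2.2.1 hP.2.2.2⟩
  have he : 0 < n ! := Nat.factorial_pos n
  rcases le_or_gt (p ^ s) (3 * (n ! * n ^ 2 + 1)) with hr | hr
  · have hq : 1 < (p ^ s) ^ 2 := by
      have := hF.finite
      rw [← hF.card]
      exact Finite.one_lt_card
    refine (key (X none ^ (p ^ s) ^ 2 - X none) (fun e => ?_) fun t₀ x₀ a _ _ => ?_).trans ?_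
    · refine hc.tr ⟨_, FiniteField.X_pow_card_sub_X_ne_zero k hq, ?_⟩
      simpa using e
    · simpa [sub_eq_zero] using (hF.mem t₀).1 a
    · have a1 : (X none ^ (p ^ s) ^ 2 - X none :
          MvPolynomial (Option (Fin n)) k).totalDegree ≤ (p ^ s) ^ 2 := by
        refine (totalDegree_sub _ _).trans ?_
        rw [totalDegree_X_pow, totalDegree_X]
        exact max_le le_rfl hq.le
      have a2 := Nat.mul_le_mul_left (n ! * p ^ s) hr
      have a3 := Nat.mul_le_mul_left n ! a1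
      nlinarith [Nat.zero_le ((p ^ s) ^ 2), Nat.zero_le (n ! * n ^ 2 * p ^ s),
        Nat.zero_le (n ! * p ^ s), Nat.zero_le (p ^ s)]
  obtain ⟨t₁, ht₁⟩ := (h0 k M n f t x hc).2.1.infinite_compl.nonempty
  obtain ⟨x₁, i1, y1⟩ := not_not.1 ht₁
  obtain ⟨o, ho⟩ := hL k M n f t x t₁ x₁ hc y1 i1 (h1 k M n f t x t₁ x₁ hc y1)
  obtain ⟨l, hl, hl'⟩ : ∃ l, p ^ s ≤ n ! * (n ^ 2 + l) + n ! ∧ n ! * (n ^ 2 + l) < p ^ s := by
    have a1 : n ^ 2 ≤ (p ^ s - 1) / n ! := (Nat.le_div_iff_mul_le he).2 (by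
      rw [mul_comm]
      omega)
    obtain ⟨l, hl⟩ := Nat.exists_eq_add_of_le a1
    have a2 := Nat.mul_div_le (p ^ s - 1) n !
    have a3 := Nat.lt_mul_div_succ (p ^ s - 1) he
    rw [hl] at a2 a3
    rw [mul_add _ _ 1, mul_one] at a3
    exact ⟨l, by omega, by omega⟩
  obtain ⟨m, hm, hm'⟩ : ∃ m, p ^ s + 3 * (n ! * n ^ 2 + 1) < n ! * (n ^ 2 + m) ∧
      n ! * (n ^ 2 + m) ≤ p ^ s + 3 * (n ! * n ^ 2 + 1) + n ! := by
    have a1 : n ^ 2 ≤ (p ^ s + 3 * (n ! * n ^ 2 + 1)) / n ! + 1 :=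
      Nat.le_succ_of_le ((Nat.le_div_iff_mul_le he).2 (by
        rw [mul_comm]
        omega))
    obtain ⟨m, hm⟩ := Nat.exists_eq_add_of_le a1
    have a2 := Nat.mul_div_le (p ^ s + 3 * (n ! * n ^ 2 + 1)) n !
    have a3 := Nat.lt_mul_div_succ (p ^ s + 3 * (n ! * n ^ 2 + 1)) he
    refine ⟨m, hm ▸ a3, ?_⟩
    rw [← hm, mul_add, mul_one]
    omega
  obtain ⟨u, u1, u2⟩ := fam h5 hc l
  obtain ⟨a, d, a1, a2, a3, a4⟩ := ords h3 h4 hc ho u u1 u2
  obtain ⟨v, v1, v2⟩ := fam h5 hc m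
  obtain ⟨lam, b1, b2⟩ : ∃ lam : (Fin n ! × Fin (l + 1)) × (Fin n ! × Fin (m + 1)) → k,
      evq t x (∑ i, lam i • (a i.1 ^ p ^ s * v i.2)) = 0 ∧ lam ≠ 0 := by
    by_contra hn
    have := card_le h3 h4 hc ho
      (fun i : (Fin n ! × Fin (l + 1)) × (Fin n ! × Fin (m + 1)) => a i.1 ^ p ^ s * v i.2)
      (D := (n ^ 2 + l) * p ^ s + (n ^ 2 + m)) (fun i => (totalDegree_mul _ _).trans
        (add_le_add ((totalDegree_pow _ _).trans (by
          rw [mul_comm]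
          exact Nat.mul_le_mul_right _ (a1 _))) (v1 _)))
      fun c hc0 => by_contra fun e => hn ⟨c, hc0, e⟩
    simp only [Fintype.card_prod, Fintype.card_fin] at this
    exact absurd (arith hl hl' hr hm) (not_lt.2 this)
  obtain ⟨g, hg⟩ : ∃ g : Fin n ! × Fin (l + 1) → MvPolynomial (Option (Fin n)) k,
      ∀ j, g j = ∑ h, lam (j, h) • v h := ⟨_, fun _ => rfl⟩
  have g1 : ∀ j, (g j).totalDegree ≤ n ^ 2 + m := fun j => by
    rw [hg]
    exact totalDegree_finsetSum_le fun h _ => (totalDegree_smul_le _ _).trans (v1 h)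
  have g2 : evq t x (∑ j, a j ^ p ^ s * g j) = 0 := by
    rw [Fintype.sum_prod_type] at b1
    simpa only [hg, Finset.mul_sum, mul_smul_comm] using b1
  obtain ⟨j₁, g3⟩ : ∃ j, evq t x (g j) ≠ 0 := by
    by_contra hn
    refine b2 (funext fun ⟨j, h⟩ => ?_)
    exact congrFun (v2 (fun h => lam (j, h)) (hg j ▸ not_not.1 fun e => hn ⟨j, e⟩)) h
  choose γ c1 c2 using fun j => pull (frob k p s) (frob_bijective k p s) σ (g j)
  have hf' : ∀ i j, frob k p s ((f.coeff i).coeff j) = (f.coeff i).coeff j := fun i j =>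
    hF.frob_eq.2 (hf i j)
  have c3 : evq t x (γ j₁) ≠ 0 := fun e => g3 (by
    rw [← c2, evq_rename]
    exact hc.perm σ _ (stab h0 h1 h3 hc _ hf' e))
  have hp : p ^ s ≠ 0 := by omega
  have c4 : ∀ j, o (a j * γ j ^ p ^ s) = d j + (p ^ s : ℕ) * o (γ j) := fun j => by
    rw [o.map_mul, o.map_pow, a2, nsmul_eq_mul]
  refine (key (∑ j, a j * γ j ^ p ^ s) (fun e => ?_) fun t₀ x₀ e1 e2 e3 => ?_).trans ?_
  · refine sum_ne_top o _ (fun i j hij hi e' => hij (a4 ?_)) j₁ ?_ ((ho.top _).2 e)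
    · have hj := e' ▸ hi
      rw [c4, c4] at e'
      rw [c4] at hi hj
      have fin : ∀ j, (d j : ℕ∞) + (p ^ s : ℕ) * o (γ j) ≠ ⊤ → ∃ z : ℕ, o (γ j) = z :=
        fun j hj => by
          obtain ⟨z, hz⟩ := ENat.ne_top_iff_exists.1 (show o (γ j) ≠ ⊤ from fun e => hj (by
            rw [e, ENat.mul_top (Nat.cast_ne_zero.2 hp), add_top]))
          exact ⟨z, hz.symm⟩
      obtain ⟨z, hz⟩ := fin i hi
      obtain ⟨z', hz'⟩ := fin j hj
      rw [hz, hz'] at e'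
      have e'' : d i + p ^ s * z = d j + p ^ s * z' := by exact_mod_cast e'
      have e3 := congrArg (· % p ^ s) e''
      simpa only [Nat.add_mul_mod_self_left, Nat.mod_eq_of_lt ((a3 i).trans_lt hl'),
        Nat.mod_eq_of_lt ((a3 j).trans_lt hl')] using e3
    · obtain ⟨z, hz⟩ := ENat.ne_top_iff_exists.1 fun e => c3 ((ho.top _).1 e)
      rw [c4, ← hz]
      exact_mod_cast ENat.natCast_ne_top (d j₁ + p ^ s * z)
  · refine pow_eq_zero_iff hp |>.1 ?_
    rw [← h1 k M n f t x t₀ x₀ hc e2 _ g2, map_sum, map_sum, sum_pow_char_pow]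
    refine Finset.sum_congr rfl fun j _ => ?_
    rw [map_mul, map_mul, map_pow, map_pow, mul_pow, ← pow_mul, ← sq, ← frob_apply, map_ev,
      hF.frob_eq.2 e1, ← c2, evq_rename]
    congr 3
    exact funext e3
  · have w1 : (∑ j, a j * γ j ^ p ^ s).totalDegree ≤ n ^ 2 + l + p ^ s * (n ^ 2 + m) :=
      totalDegree_finsetSum_le fun j _ => (totalDegree_mul _ _).trans (add_le_add (a1 j)
        ((totalDegree_pow _ _).trans (Nat.mul_le_mul_left _ ((c1 j).trans (g1 j)))))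
    have w2 := Nat.mul_le_mul_left n ! w1
    have w3 := Nat.mul_le_mul_left (p ^ s) hm'
    nlinarith [Nat.zero_le (n ! * n ^ 2 * n ! * p ^ s), Nat.zero_le (n ! * p ^ s)]

end Pool.Agent.P.MP_12d50c_ag
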