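import Pool.Agent.P.MP_12d50c_ag.If2

/-!
The order of vanishing at an unramified point.
-/

open MvPolynomial Function
open scoped Polynomial

namespace Pool.Agent.P.MP_12d50c_ag

namespace CHL

section
variable {R : Type} [CommRing R] [IsNoetherianRing R] {J q : Ideal R} [J.IsPrime] [q.IsPrime]

/-- The valuation of a local ring whose maximal ideal is principal. -/
theorem exists_val (h : J ≤ q) {π : R} (h0 : π ∉ J) (hm : mQ J q = Ideal.span {toL J q π}) :
    ∃ o : AddValuation R ℕ∞, (∀ G, o G = ⊤ ↔ G ∈ J) ∧ (∀ G, o G = 0 ↔ G ∉ q) ∧ o π = 1 ∧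
      ∀ G G', o G = o G' → o G ≠ ⊤ → ∃ a b, b ∉ q ∧ ∀ c, a - c * b ∈ q → o G < o (G - c * G') := by
  have := isLocalRing_LQ h
  have := isDomain_LQ h
  have hm' : IsLocalRing.maximalIdeal (LQ J q) = Ideal.span {toL J q π} := maximalIdeal_LQ.trans hm
  have h1 : toL J q π ≠ 0 := fun e => h0 ((toL_eq_zero_iff h).1 e)
  have hf : ¬ IsField (LQ J q) := fun e => h1 (by
    rwa [IsLocalRing.isField_iff_maximalIdeal_eq, hm', Ideal.span_singleton_eq_bot] at e)
  have h2 : (IsLocalRing.maximalIdeal (LQ J q)).IsPrincipal := ⟨_, hm'⟩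
  have : IsDiscreteValuationRing (LQ J q) := ((IsDiscreteValuationRing.TFAE _ hf).out 0 4).2 h2
  have h3 := IsDiscreteValuationRing.addVal_uniformizer
    ((IsDiscreteValuationRing.irreducible_iff_uniformizer _).2 hm')
  have e : ∀ G, (IsDiscreteValuationRing.addVal (LQ J q)).comap (toL J q) G =
      IsDiscreteValuationRing.addVal (LQ J q) (toL J q G) := fun _ => rfl
  refine ⟨(IsDiscreteValuationRing.addVal (LQ J q)).comap (toL J q), fun G => ?_, fun G => ?_,
    h3, fun G G' h4 h5 => ?_⟩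
  · rw [e, IsDiscreteValuationRing.addVal_eq_top_iff, toL_eq_zero_iff h]
  · rw [e, IsDiscreteValuationRing.addVal_eq_zero_iff, ← toL_mem_mQ h, ← maximalIdeal_LQ,
      IsLocalRing.mem_maximalIdeal, mem_nonunits_iff, not_not]
  · simp only [e] at h4 h5 ⊢
    obtain ⟨w, hw⟩ := IsDiscreteValuationRing.addVal_le_iff_dvd.1 h4.ge
    obtain ⟨a, b, hb, hab⟩ := exists_toL w
    refine ⟨a, b, hb, fun c hc => ?_⟩
    have h6 : (w - toL J q c) * toL J q b ∈ mQ J q := by
      rw [sub_mul, hab, ← map_mul, ← map_sub]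
      exact (toL_mem_mQ h).2 hc
    rw [Ideal.mul_unit_mem_iff_mem _ (isUnit_toL hb), hm, Ideal.mem_span_singleton] at h6
    obtain ⟨y, hy⟩ := h6
    have h7 : toL J q (G - c * G') = toL J q G' * (toL J q π * y) := by
      rw [map_sub, map_mul, hw, ← hy]
      ring
    rw [h7, IsDiscreteValuationRing.addVal_mul, IsDiscreteValuationRing.addVal_mul, h3, ← h4,
      ← add_assoc]
    exact lt_of_lt_of_le ((ENat.lt_add_one_iff h5).2 le_rfl) le_self_add

end

variable {k : Type} [Field k] {n : ℕ}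

theorem map_eval_sp {M M' : Type} [CommRing M] [Algebra k M] [CommRing M'] [Algebra k M']
    (ψ : M →ₐ[k] M') (f : k[X][X]) (a y : M) :
    ψ ((sp f a).eval y) = (sp f (ψ a)).eval (ψ y) := by
  rw [← map_sp, Polynomial.eval_map]
  exact (Polynomial.eval₂_hom ψ.toRingHom y).symm

theorem prod_mem {M : Type} [Field M] [Algebra k M] {f : k[X][X]} {t : M} {x : Fin n → M} {t₀ : k}
    {x₀ : Fin n → k} (h : YY f t x) (h₀ : YY f t₀ x₀) (i : Fin n) :
    ∏ j, (X (some i) - C (x₀ j)) ∈ RingHom.ker (evq (k := k) t x) ⊔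
      Ideal.span {X none - C t₀} := by
  obtain ⟨K, hK⟩ : ∃ K, K = RingHom.ker (evq (k := k) t x) ⊔ Ideal.span {X none - C t₀} := ⟨_, rfl⟩
  have h1 : (sp f (X none : MvPolynomial (Option (Fin n)) k)).eval (X (some i)) ∈ K := by
    refine hK ▸ Ideal.mem_sup_left ?_
    rw [RingHom.mem_ker, map_eval_sp, aeval_X, aeval_X, Option.elim_none, Option.elim_some, h,
      Polynomial.eval_prod]
    exact Finset.prod_eq_zero (Finset.mem_univ i) (by simp)
  have h2 : Ideal.Quotient.mkₐ k K (C t₀) = Ideal.Quotient.mkₐ k K (X none) :=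
    (Ideal.Quotient.eq.2 (hK ▸ Ideal.mem_sup_right (Ideal.mem_span_singleton_self _))).symm
  have h3 : ∏ j, (X (some i) - C (x₀ j)) =
      (sp f (C t₀ : MvPolynomial (Option (Fin n)) k)).eval (X (some i)) := by
    have h4 : sp f (C t₀ : MvPolynomial (Option (Fin n)) k) = _ :=
      h₀.map (Algebra.ofId k (MvPolynomial (Option (Fin n)) k))
    rw [h4, Polynomial.eval_prod]
    simp
  rw [← hK, h3, ← Ideal.Quotient.eq_zero_iff_mem, ← Ideal.Quotient.mkₐ_eq_mk k, map_eval_sp, h2,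
    ← map_eval_sp]
  exact Ideal.Quotient.eq_zero_iff_mem.2 h1

theorem sub_mem {S : Type} [CommRing S] (φ : MvPolynomial (Option (Fin n)) k →+* S) (I : Ideal S)
    (z : Option (Fin n) → k) (h : ∀ o, φ (X o - C (z o)) ∈ I)
    (G : MvPolynomial (Option (Fin n)) k) : φ (G - C (aeval z G)) ∈ I := by
  induction G using MvPolynomial.induction_on with
  | C c => simp
  | add G G' h1 h2 =>
    rw [map_add, map_add, add_sub_add_comm, map_add]
    exact I.add_mem h1 h2
  | mul_X G o h1 =>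
    have e : G * X o - C (aeval z (G * X o)) =
        X o * (G - C (aeval z G)) + C (aeval z G) * (X o - C (z o)) := by
      rw [map_mul, aeval_X, map_mul]
      ring
    rw [e, map_add, map_mul, map_mul]
    exact I.add_mem (I.mul_mem_left _ h1) (I.mul_mem_left _ (h o))

end CHL

theorem t_CHL : S_CHL := by
  intro k M _ _ _ n f t x t₀ x₀ hc h₀ hi hle
  have hJ : (RingHom.ker (evq (k := k) t x)).IsPrime := RingHom.ker_isPrime _
  have hq : (RingHom.ker (evq (k := k) t₀ x₀)).IsPrime := RingHom.ker_isPrime _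
  have h : RingHom.ker (evq (k := k) t x) ≤ RingHom.ker (evq (k := k) t₀ x₀) := hle
  obtain ⟨o, h1, h2, h3, h4⟩ := CHL.exists_val h (π := X none - C t₀) (fun h0 => hc.tr (by
    have h1 : t = algebraMap k M t₀ := by simpa [sub_eq_zero] using h0
    exact h1 ▸ isAlgebraic_algebraMap t₀)) (by
    refine le_antisymm (Ideal.map_le_iff_le_comap.2 fun G hG => ?_)
      ((Ideal.span_singleton_le_iff_mem _).2 (Ideal.mem_map_of_mem _ (by simp)))
    have h1 := CHL.sub_mem (toL (RingHom.ker (evq (k := k) t x)) (RingHom.ker (evq t₀ x₀)))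
      (Ideal.span {toL _ _ (X none - C t₀)}) (fun o => o.elim t₀ x₀) ?_ G
    · rwa [RingHom.mem_ker.1 hG, map_zero, sub_zero] at h1
    rintro (_ | i)
    · exact Ideal.mem_span_singleton_self _
    rw [← Set.image_singleton, ← Ideal.map_span]
    refine toL_mem_map.2 ⟨∏ j ∈ Finset.univ.erase i, (X (some i) - C (x₀ j)), fun h0 => ?_, ?_⟩
    · rw [RingHom.mem_ker, map_prod, Finset.prod_eq_zero_iff] at h0
      obtain ⟨j, hj, h0⟩ := h0
      exact (Finset.mem_erase.1 hj).1 (hi (by simpa [sub_eq_zero] using h0)).symm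
    · have := CHL.prod_mem hc.yy h₀ i
      rwa [← Finset.prod_erase_mul _ _ (Finset.mem_univ i)] at this)
  refine ⟨o, h1, h2, h3, fun G G' a1 a2 => ?_⟩
  obtain ⟨a, b, hb, a3⟩ := h4 G G' a1 a2
  refine ⟨evq t₀ x₀ a / evq t₀ x₀ b, a3 _ ?_⟩
  rw [RingHom.mem_ker, map_sub, map_mul, algHom_C, Algebra.algebraMap_self, RingHom.id_apply,
    div_mul_cancel₀ _ hb, sub_self]

end Pool.Agent.P.MP_12d50c_ag
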