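import Pool.Agent.P.MP_12d50c_ag.If4
import Pool.Agent.P.MP_638e8a_ag.ChA3

/-!
The projection to the surface.
-/

open MvPolynomial

namespace Pool.Agent.P.MP_12d50c_ag

namespace CL

open Pool.Agent.P.MP_638e8a_ag.Cyc

variable {k : Type} [Field k] {N : ℕ} {I : Ideal (PP k N)}

theorem dim_comap_le {A B : Type} [CommRing A] [CommRing B] [Algebra k A] [Algebra k B]
    [Algebra.FiniteType k A] [Algebra.FiniteType k B] (f : A →ₐ[k] B) (P : Ideal B) [P.IsPrime] :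
    ringKrullDim (A ⧸ P.comap f) ≤ ringKrullDim (B ⧸ P) := by
  obtain ⟨a, h1, h2⟩ := dim_eq_trdeg (k := k) (A := A ⧸ P.comap f)
  obtain ⟨b, h3, h4⟩ := dim_eq_trdeg (k := k) (A := B ⧸ P)
  have h5 := trdeg_le_of_injective (Ideal.quotientMapₐ P f le_rfl)
    (Ideal.quotientMap_injective (f := (f : A →+* B)))
  rw [h2, h4] at h5
  rw [h1, h3]
  exact_mod_cast h5

theorem part1 (hVP : S_VP) (n : ℕ) (P : Ideal (RR k N n)) (hP : Adm I P) :
    I ≤ P.comap (inc n) ∧ cyl (P.comap (inc n)) n ≤ P ∧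
    ringKrullDim (PP k N ⧸ P.comap (inc n)) ≤ ringKrullDim (RR k N n ⧸ P) ∧
    ringKrullDim (RR k N n ⧸ P) ≤ ringKrullDim (PP k N ⧸ P.comap (inc n)) + n := by
  have := hP.prime
  have h1 : cyl (P.comap (inc n)) n ≤ P :=
    sup_le Ideal.map_comap_le (le_sup_right.trans hP.le)
  refine ⟨Ideal.map_le_iff_le_comap.1 (le_sup_left.trans hP.le), h1, dim_comap_le _ P, ?_⟩
  rw [← ((hVP k N n).1 _ inferInstance).2]
  exact dim_quot_le_of_le h1

theorem dim_cyl (hN : S_NS0) (hVP : S_VP) (n : ℕ) (y : NP k N) :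
    ringKrullDim (RR k N n ⧸ cyl (van k y.1) n) = (n + 1 : ℕ) := by
  rw [((hVP k N n).1 _ inferInstance).2, hN.1 k N y, add_comm]
  norm_cast

end CL

open CL Pool.Agent.P.MP_638e8a_ag.Cyc in
theorem t_CL : S_NSP → S_NS0 → S_VP0 → S_VP → S_CL := by
  intro hNSP hN hV0 hVP k _ N I
  refine ⟨part1 hVP, fun n y hy hI => ?_, fun _ Q hQ => ?_⟩
  · obtain ⟨h1, -, -, h4, h5⟩ := hV0 k N n
    have hp := ((hVP k N n).1 (van k y.1) inferInstance).1
    refine ⟨⟨cyl (van k y.1) n, hp⟩, ⟨⟨hp, h4 _ (wHom_vanw _),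
      sup_le_sup_right (Ideal.map_mono (hI.on_iff.1 hy)) _, y.piv, fun hm => ?_⟩,
      dim_cyl hN hVP n y⟩, rfl, fun m g Q _ hle => ?_⟩
    · have h6 := Ideal.mem_map_of_mem (vtx (0 : Fin (n + 1))) hm
      rw [((h5 0).2.2 _).1] at h6
      exact y.X_piv_notMem (by simpa [vtx] using h6)
    · rw [(h1 m g).1] at hle
      rw [← dim_cyl hN hVP m y]
      exact dim_quot_le_of_le hle
  · obtain ⟨a1, a2, a3, -⟩ := part1 hVP 1 Q.asIdeal hQ.1
    have hh : Hom (Q.asIdeal.comap (inc 1)) := (hV0 k N 1).2.2.1 _ hQ.1.hom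
    have hr : Rel (Q.asIdeal.comap (inc 1)) := by
      obtain ⟨i, hi⟩ := hQ.1.rel
      exact ⟨i, fun hm => hi (by simpa using hm)⟩
    obtain ⟨d, hd, -⟩ := dim_eq_trdeg (k := k) (A := PP k N ⧸ Q.asIdeal.comap (inc 1))
    rw [hQ.2, hd] at a3
    have a4 : d ≤ 2 := by exact_mod_cast a3
    rcases a4.eq_or_lt with rfl | a5
    · exact Or.inl ⟨⟨Q.asIdeal.comap (inc 1), inferInstance⟩, ⟨hh, a1, hd⟩, rfl⟩
    · obtain ⟨y, hy⟩ := ((hNSP k N).2 _ inferInstance hh hr).2.2.2.1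
        (by rw [hd]; exact_mod_cast Nat.lt_succ_iff.1 a5)
      rw [hy] at a1 a2
      have := ((hVP k N 1).1 (van k y.1) inferInstance).1
      exact Or.inr ⟨y, fun f hf => aeval_eq_zero_of_mem_vanw (a1 hf),
        eq_of_dim_quot_eq a2 (dim_cyl hN hVP 1 y) hQ.2⟩

end Pool.Agent.P.MP_12d50c_ag
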