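import Pool.Agent.P.MP_12d50c_ag.If1

/-!
The singular hypersurface sections form a closed set.
-/

open MvPolynomial

namespace Pool.Agent.P.MP_12d50c_ag

namespace CLO

theorem det_hom {m σ R : Type} [Fintype m] [DecidableEq m] [CommRing R]
    (M : Matrix m m (MvPolynomial σ R)) (d : m → ℕ) (h : ∀ i j, (M i j).IsHomogeneous (d i)) :
    M.det.IsHomogeneous (∑ i, d i) := by
  rw [← Matrix.det_transpose, Matrix.det_apply]
  exact IsHomogeneous.sum _ _ _ fun s _ => zsmul_mem (K := homogeneousSubmodule σ R _)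
    (IsHomogeneous.prod _ _ _ fun i _ => h i (s i)) _

theorem mem_span {k V : Type} [Field k] [AddCommGroup V] [Module k V] [Module.Finite k V]
    {s : Set V} {r : ℕ} (h : Module.finrank k (Submodule.span k s) = r) (v : V) :
    v ∈ Submodule.span k s ↔ ∀ u : Fin r → V, (∀ i, u i ∈ s) →
      ¬ LinearIndependent k (Fin.cons v u : Fin (r + 1) → V) := by
  subst h
  refine ⟨fun hv u hu h => ?_, fun h => by_contra fun hv => ?_⟩
  · have h1 := Submodule.finrank_mono (Submodule.span_le.2 (Set.range_subset_iff.2 fun i =>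
      (Fin.cases hv (fun i => Submodule.subset_span (hu i)) i :
        (Fin.cons v u : Fin _ → V) i ∈ Submodule.span k s)))
    rw [finrank_span_eq_card h, Fintype.card_fin] at h1
    omega
  · obtain ⟨u, h1, h2, h3⟩ := Submodule.exists_fun_fin_finrank_span_eq k s
    exact h u h1 (linearIndependent_finCons.2 ⟨h3, by rwa [h2]⟩)

end CLO

open CLO in
theorem t_CLO : S_LIN → S_ELIM → S_CLO := by
  intro hLIN hELIM k _ _ N I n hI
  obtain ⟨T, hT⟩ := hELIM k N (Mon N n)
    ({g | ∃ f ∈ I, (∃ d, f.IsHomogeneous d) ∧ g = map C f} ∪ {form X} ∪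
      {g | ∃ (f : Fin (N - 2) → PP k N) (c : Fin (N - 2 + 1) → Fin (N + 1)),
        (∀ i, f i ∈ I ∧ ∃ d, (f i).IsHomogeneous d) ∧ g = (Matrix.of fun i j => pderiv (c j)
          ((Fin.cons (form X) fun i => map C (f i) : Fin (N - 2 + 1) → _) i)).det}) (by
    rintro _ ((⟨f, -, ⟨d, hd⟩, rfl⟩ | rfl) | ⟨f, c, hf, rfl⟩)
    · exact ⟨d, hd.map _⟩
    · exact ⟨n, form_isHomogeneous _⟩
    · choose d hd using fun i => (hf i).2
      exact ⟨_, det_hom _ (Fin.cons (n - 1) fun i => d i - 1) fun i j =>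
        Fin.cases (form_isHomogeneous _).pderiv (fun i => ((hd i).map _).pderiv) i⟩)
  refine ⟨T, fun w => not_iff_not.1 ?_⟩
  simp only [Good, not_forall, not_not, not_exists, not_and, exists_prop]
  rw [← hT]
  refine exists_congr fun y => ?_
  have e0 : ∀ g : PP (MvPolynomial (Mon N n) k) N,
      eval₂ (eval w) y.1 g = aeval y.1 (map (eval w) g) := fun g => by
    rw [aeval_eq_eval, eval_map]
  have e1 : ∀ f : PP k N, map (eval w) (map C f) = f := fun f => by
    rw [map_map, show (eval w).comp C = RingHom.id k from RingHom.ext fun _ => eval_C _, map_id]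
  have e2 : map (eval w) (form X) = form w := by simp only [map_form, eval_X]
  have e3 : ∀ (f : Fin (N - 2) → PP k N) (c : Fin (N - 2 + 1) → Fin (N + 1)),
      eval₂ (eval w) y.1 (Matrix.of fun i j => pderiv (c j)
        ((Fin.cons (form X) fun i => map C (f i) : Fin (N - 2 + 1) → _) i)).det =
      (Matrix.of fun i j => (Fin.cons (fun j => aeval y.1 (pderiv j (form w)))
        fun i j => aeval y.1 (pderiv j (f i)) : Fin (N - 2 + 1) → Fin (N + 1) → k) i (c j)).det :=
    fun f c => by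
      rw [← coe_eval₂Hom, RingHom.map_det]
      refine congrArg _ (Matrix.ext fun i j => ?_)
      refine Fin.cases ?_ (fun i => ?_) i <;>
        simp only [RingHom.mapMatrix_apply, Matrix.map_apply, Matrix.of_apply, Fin.cons_zero,
          Fin.cons_succ, coe_eval₂Hom, e0, ← pderiv_map, e1, e2]
  have key : On I y.1 → ((∀ δ ∈ Tan I y.1, grad y.1 (form w) δ = 0) ↔
      ∀ (f : Fin (N - 2) → PP k N) (c : Fin (N - 2 + 1) → Fin (N + 1)),
        (∀ i, f i ∈ I ∧ ∃ d, (f i).IsHomogeneous d) →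
        (Matrix.of fun i j => (Fin.cons (fun j => aeval y.1 (pderiv j (form w)))
          fun i j => aeval y.1 (pderiv j (f i)) : Fin (N - 2 + 1) → Fin (N + 1) → k) i
            (c j)).det = 0) := fun hy => by
    obtain ⟨h1, h2⟩ := hLIN.1 k (Fin (N + 1))
      {s | ∃ f, (f ∈ I ∧ ∃ d, f.IsHomogeneous d) ∧ s = fun j => aeval y.1 (pderiv j f)} (Tan I y.1)
      fun δ => ⟨fun h _ ⟨f, hf, e⟩ => e ▸ h f hf.1, fun h => by
        obtain ⟨S, h1, rfl⟩ := hI.hom.exists_gen
        exact (mem_Tan_span hy).2 fun f hf => h _ ⟨f, ⟨Ideal.subset_span hf, h1 f hf⟩, rfl⟩⟩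
    have h3 := hI.le k y.1 y.ne_zero hy
    have h4 := hI.ge k y.1 y.ne_zero hy
    rw [Fintype.card_fin] at h2
    refine (h1 _).symm.trans ((mem_span (r := N - 2) (by omega) _).trans
      ⟨fun h f c hf => (hLIN.2.1 k _ _ _).1 (h _ fun i => ⟨f i, hf i, rfl⟩) c, fun h u hu => ?_⟩)
    choose f hf e using hu
    obtain rfl := funext e
    exact (hLIN.2.1 k _ _ _).2 fun c => h f c hf
  refine ⟨fun ⟨hy, h⟩ => ?_, fun h => ?_⟩
  · rintro _ ((⟨f, hf, -, rfl⟩ | rfl) | ⟨f, c, hf, rfl⟩)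
    · rw [e0, e1, hy f hf]
    · rw [e0, e2, h.1]
    · rw [e3, (key hy).1 h.2 f c hf]
  · have hy : On I y.1 := hI.hom.on_iff.2 (hI.hom.le_of_hom fun f d hd hf =>
      (mem_van_of_hom hd).2 (by rw [← e1 f, ← e0]; exact h _ (.inl (.inl ⟨f, hf, ⟨d, hd⟩, rfl⟩))))
    exact ⟨hy, by rw [← e2, ← e0]; exact h _ (.inl (.inr rfl)),
      (key hy).2 fun f c hf => (e3 f c).symm.trans (h _ (.inr ⟨f, c, hf, rfl⟩))⟩

end Pool.Agent.P.MP_12d50c_ag
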