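import Pool.Agent.P.MP_12d50c_ag.If3

/-!
Rational points impose independent conditions on forms of large degree.
-/

open MvPolynomial Function
open scoped Polynomial

namespace Pool.Agent.P.MP_12d50c_ag

namespace CNT

variable {k : Type} [Field k] {N m : ℕ} {F : Subfield k}

/-- A rational point, as a vector over the subfield. -/
def vec (y : NP k N) (hy : RatPt F y) : Fin (N + 1) → F := fun i => ⟨y.1 i, hy i⟩

theorem aeval_formF (y : NP k N) (hy : RatPt F y) (c : Mon N m → F) :
    aeval y.1 (formF c) = ((eval (vec y hy) (form c) : F) : k) := by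
  have h1 : formF c = map F.subtype (form c) := by
    rw [map_form]; rfl
  rw [h1, aeval_eq_eval]
  have h2 : y.1 = F.subtype ∘ vec y hy := rfl
  rw [h2, ← map_eval]
  rfl

theorem aeval_C {K : Type} [Field K] (x : Fin (N + 1) → K) (f : PP K N) :
    aeval (fun i => (Polynomial.C (x i) : K[X])) f = Polynomial.C (eval x f) := by
  induction f using MvPolynomial.induction_on with
  | C a => simp
  | add p q hp hq => simp [hp, hq]
  | mul_X p i hp => simp [hp]

/-- Evaluation at finitely many points, as an additive map. -/
noncomputable def ev {ι : Type} (x : ι → Fin (N + 1) → F) : (Mon N m → F) →+ (ι → F) :=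
  AddMonoidHom.mk' (fun c a => eval (x a) (form c)) fun c c' => by
    funext a
    simp [form_add]

end CNT

open CNT in
theorem t_CNT : S_SEP → S_CNT := by
  intro hSEP k _ N m F ι _ y hy hr hcard
  have hsur : ∀ g : ι → F, ∃ c : Mon N m → F, ∀ a, eval (vec (y a) (hr a)) (form c) = g a := by
    intro g
    obtain ⟨c, hc⟩ := hSEP F N m ι (fun _ => 1)
      (fun a i => Polynomial.C (vec (y a) (hr a) i)) (fun a => Polynomial.C (g a))
      (fun a => ⟨(y a).piv, by
        have : vec (y a) (hr a) (y a).piv = 1 := Subtype.ext (y a).piv_eq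
        simp only [this, map_one]⟩)
      (fun a h => absurd h (lt_irrefl _))
      (fun a b hab _ _ => by
        obtain ⟨i, j, h⟩ := NP.dist (hy.ne hab)
        refine ⟨i, j, fun h' => h ?_⟩
        simp only [base, Polynomial.coeff_C_zero] at h'
        exact congrArg Subtype.val h')
      (by simpa using hcard)
    refine ⟨c, fun a => ?_⟩
    have h1 := hc a
    rw [CNT.aeval_C, pow_one, ← map_sub, Polynomial.X_dvd_iff, Polynomial.coeff_C_zero] at h1
    exact sub_eq_zero.1 h1
  refine ⟨fun g => ?_, fun _ => ?_⟩
  · obtain ⟨c, hc⟩ := hsur g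
    exact ⟨c, fun a => by rw [aeval_formF (y a) (hr a), hc]⟩
  · set φ : (Mon N m → F) →+ (ι → F) := ev fun a => vec (y a) (hr a) with hφ
    have hs : Surjective φ := fun g => by
      obtain ⟨c, hc⟩ := hsur g
      exact ⟨c, funext hc⟩
    have hk : {c : Mon N m → F | ∀ a, aeval (y a).1 (formF c) = 0} = (φ.ker : Set _) := by
      ext c
      simp only [Set.mem_ofPred_eq, SetLike.mem_coe, AddMonoidHom.mem_ker, _root_.funext_iff]
      refine forall_congr' fun a => ?_
      rw [aeval_formF (y a) (hr a)]
      exact ZeroMemClass.coe_eq_zero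
    rw [hk, AddSubgroup.card_eq_card_quotient_mul_card_addSubgroup φ.ker,
      Nat.card_congr (QuotientAddGroup.quotientKerEquivOfSurjective φ hs).toEquiv, Nat.card_fun,
      mul_comm, Nat.card_eq_fintype_card (α := ι), ← Nat.card_coe_set_eq]
    rfl

end Pool.Agent.P.MP_12d50c_ag
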