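import Pool.Agent.P.MP_12d50c_ag.If1

/-!
Hypersurface sections of a surface are connected.
-/

open MvPolynomial

namespace Pool.Agent.P.MP_12d50c_ag

namespace CONN

section F

variable {k K : Type} [Field k] [Field K] [Algebra k K]

/-- A separated multiplicative filtration. -/
structure Filt (F : ℕ → Submodule k K) : Prop where
  anti : Antitone F
  mul : ∀ {a b : ℕ} {x y : K}, x ∈ F a → y ∈ F b → x * y ∈ F (a + b)
  one : (1 : K) ∈ F 0
  sep : ∀ z, (∀ n, z ∈ F n) → z = 0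

variable {F : ℕ → Submodule k K}

theorem Filt.pow (h : Filt F) {a : ℕ} {x : K} (hx : x ∈ F a) (n : ℕ) : x ^ n ∈ F (n * a) := by
  induction n with
  | zero => simpa using h.one
  | succ n ih =>
    rw [pow_succ, add_mul, one_mul]
    exact h.mul ih hx

theorem Filt.poly (h : Filt F) {ε : K} {w : Fin 2 → K} (hε : ε ∈ F 1) (hw : ∀ i, ε * w i ∈ F 0)
    {ρ : MvPolynomial (Fin 2) k} {e : ℕ} (he : ρ.totalDegree ≤ e) : ε ^ e * aeval w ρ ∈ F 0 := by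
  rw [ρ.as_sum, map_sum, Finset.mul_sum]
  refine Submodule.sum_mem _ fun d hd => ?_
  have h1 := (le_totalDegree hd).trans he
  rw [Finsupp.sum_fintype _ _ (fun _ => rfl), Fin.sum_univ_two] at h1
  obtain ⟨t, rfl⟩ := Nat.exists_eq_add_of_le h1
  rw [aeval_monomial, Finsupp.prod_fintype _ _ (fun _ => pow_zero _), Fin.prod_univ_two]
  have h2 := h.mul (h.mul (h.pow (hw 0) (d 0)) (h.pow (hw 1) (d 1))) (h.pow hε t)
  have h3 := (F 0).smul_mem (coeff d ρ) (h.anti (Nat.zero_le _) h2)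
  convert h3 using 1
  rw [Algebra.smul_def]
  ring

theorem Filt.fd (h : Filt F) (Q : Submodule k K) [FiniteDimensional k Q] {η : K} (hη : η ≠ 0) :
    ∃ n, ∀ z ∈ Q, η * z ∈ F n → z = 0 := by
  let G : ℕ →o (Submodule k Q)ᵒᵈ :=
    ⟨fun n => OrderDual.toDual ((F n).comap (LinearMap.mulLeft k η ∘ₗ Q.subtype)),
      fun a b hab => Submodule.comap_mono (h.anti hab)⟩
  obtain ⟨n, hn⟩ := IsArtinian.monotone_stabilizes G
  refine ⟨n, fun z hz h1 => (mul_eq_zero.1 (h.sep _ fun l => ?_)).resolve_left hη⟩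
  have h2 : (F n).comap (LinearMap.mulLeft k η ∘ₗ Q.subtype) =
      (F (n + l)).comap (LinearMap.mulLeft k η ∘ₗ Q.subtype) := hn (n + l) (Nat.le_add_right _ _)
  have h3 : (⟨z, hz⟩ : Q) ∈ (F n).comap (LinearMap.mulLeft k η ∘ₗ Q.subtype) := h1
  rw [h2] at h3
  exact h.anti (Nat.le_add_left _ _) h3

theorem Filt.core (h : Filt F) {ε : K} {w : Fin 2 → K} (hε : ε ∈ F 1) (hw : ∀ i, ε * w i ∈ F 0)
    {i₀ : Fin 2} (hi : ε * w i₀ = 1) {s J : ℕ} {β : Fin s → K} (hβ : ∀ i, ε ^ J * β i ∈ F 0)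
    (c : ℕ) (D : MvPolynomial (Fin 2) k) :
    ∃ n₀, ∀ n M, n₀ ≤ n → n ≤ M → ∀ (α r : Fin s → MvPolynomial (Fin 2) k) (e : K) (t : k),
      (∀ i, (r i).totalDegree ≤ c) → (∀ i, (α i - X i₀ ^ M * r i).totalDegree ≤ M + c - n) →
      aeval w D * e = ε ^ M * ∑ i, aeval w (α i) * β i → e - algebraMap k K t ∈ F n →
      t • aeval w D = ∑ i, aeval w (r i) * β i := by
  have hε0 : ε ≠ 0 := left_ne_zero_of_mul_eq_one hi
  let Q : Submodule k K := Submodule.span k {aeval w D} ⊔ ⨆ i, (restrictTotalDegree (Fin 2) k c).map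
    (LinearMap.mulRight k (β i) ∘ₗ (aeval w).toLinearMap)
  obtain ⟨n₀, h0⟩ := h.fd Q (pow_ne_zero (D.totalDegree + c + J) hε0)
  refine ⟨n₀, fun n M hn hM α r e t hr hα he ht => sub_eq_zero.1 (h0 _ ?_ (h.anti hn ?_))⟩
  · refine Q.sub_mem (Submodule.mem_sup_left (Submodule.smul_mem _ _
      (Submodule.mem_span_singleton_self _))) (Submodule.mem_sup_right
      (Submodule.sum_mem _ fun i _ => Submodule.mem_iSup_of_mem i ⟨r i, ?_, rfl⟩))
    exact (mem_restrictTotalDegree _ _ _).2 (hr i)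
  · have h1 : ε ^ (D.totalDegree + c + J) * aeval w D * (e - algebraMap k K t) ∈ F n := by
      simpa using h.mul (h.poly hε hw (ρ := D) (e := D.totalDegree + c + J) (by omega)) ht
    have h2 : ∑ i, ε ^ (D.totalDegree + c + J + M) * (aeval w (α i - X i₀ ^ M * r i) * β i) ∈
        F n := by
      refine Submodule.sum_mem _ fun i _ => ?_
      have h3 := h.mul (h.mul (h.poly hε hw (hα i)) (hβ i)) (h.pow hε (D.totalDegree + n))
      have h4 : D.totalDegree + c + J + M = (M + c - n) + J + (D.totalDegree + n) := by omega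
      rw [h4]
      convert h.anti (show n ≤ _ by omega) h3 using 1
      ring
    have h5 : ε ^ M * w i₀ ^ M = 1 := by rw [← mul_pow, hi, one_pow]
    convert (F n).sub_mem h2 h1 using 1
    simp only [map_sub, map_mul, map_pow, aeval_X, sub_mul, mul_sub, Finset.sum_sub_distrib,
      ← Finset.mul_sum, mul_assoc, he, Algebra.smul_def]
    linear_combination (ε ^ (D.totalDegree + c + J) * ∑ i, aeval w (r i) * β i) * h5

end F

section G

variable {k : Type} [Field k] {N : ℕ} {K : Type} [Field K] [Algebra k K]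

theorem loc_filt (hLOC : S_LOC) (ξ : Fin (N + 1) → K) (y : NP k N) (hy : van k ξ ≤ van k y.1)
    {x : PP k N} {m : ℕ} (hx : x.IsHomogeneous m) (hxy : aeval y.1 x ≠ 0) :
    ∃ F : ℕ → Submodule k K, Filt F ∧ ∀ (j n : ℕ) (g : PP k N), g.IsHomogeneous (j * m) →
      g ∈ van k y.1 ^ n → aeval ξ g / aeval ξ x ^ j ∈ F n := by
  have h : Ch 1 ξ (van k y.1) y.piv := ⟨hy, rfl, y.X_piv_notMem⟩
  obtain ⟨_, _, h1, -, -⟩ := hLOC k _ 1 K ξ (van k y.1) y.piv h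
  let O := locw 1 ξ (van k y.1)
  let P := IsLocalRing.maximalIdeal O
  refine ⟨fun n => ((P ^ n).restrictScalars k).map O.val.toLinearMap, ⟨fun a b hab =>
    Submodule.map_mono (Ideal.pow_le_pow_right hab), ?_, ⟨1, by simp, rfl⟩, fun z hz => ?_⟩,
    fun j n g hg hgn => ?_⟩
  · rintro a b _ _ ⟨u, hu, rfl⟩ ⟨v, hv, rfl⟩
    exact ⟨u * v, by rw [pow_add]; exact Ideal.mul_mem_mul hu hv, rfl⟩
  · obtain ⟨u, -, rfl⟩ := hz 0
    have h2 : u ∈ ⨅ n, P ^ n := Submodule.mem_iInf _ |>.2 fun n => by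
      obtain ⟨v, hv, h3⟩ := hz n
      exact (Subtype.ext h3 : v = u) ▸ hv
    rw [Ideal.iInf_pow_eq_bot_of_isLocalRing _ (IsLocalRing.maximalIdeal.isMaximal O).ne_top] at h2
    rw [(Submodule.mem_bot _).1 h2, map_zero]
  · have h2 : van k y.1 ≤ P.comap (germ h) := (wHom_vanw _).le_of_hom fun f d hf hm hu =>
      (h1 f d hf).1 hu hm
    have h3 : germ h g ∈ P ^ n := Ideal.le_comap_pow _ n (Ideal.pow_right_mono h2 n hgn)
    obtain ⟨u, hu⟩ := ((h1 x m hx).2 fun hm => hxy ((mem_van_of_hom hx).1 hm)).exists_left_inv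
    refine ⟨u ^ j * germ h g, Ideal.mul_mem_left _ _ h3, ?_⟩
    have h4 : (u : K) * (aeval ξ x / ξ y.piv ^ m) = 1 := by
      rw [← coe_germ_of_hom h hx]
      exact congrArg Subtype.val hu
    have h5 := h.ne
    have h6 : aeval ξ x ≠ 0 := fun h0 => by simp [h0] at h4
    have h7 : (u : K) = ξ y.piv ^ m / aeval ξ x := by
      rw [eq_inv_of_mul_eq_one_left h4, inv_div]
    change (u : K) ^ j * (germ h g : K) = _
    rw [coe_germ_of_hom h hg, h7, div_pow, ← pow_mul, mul_comm m j]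
    field_simp

theorem wHom_pow {J : Ideal (PP k N)} (h : Hom J) (n : ℕ) : Hom (J ^ n) := by
  induction n with
  | zero => intro f _ d; simp
  | succ n ih => rw [pow_succ]; exact ih.mul h

theorem exists_split {A B : Ideal (PP k N)} (hA : Hom A) (hB : Hom B) {f : PP k N} {d : ℕ}
    (hf : f.IsHomogeneous d) (h : f ∈ A ⊔ B) :
    ∃ p ∈ A, ∃ q ∈ B, p.IsHomogeneous d ∧ q.IsHomogeneous d ∧ p + q = f := by
  obtain ⟨p, hp, q, hq, h1⟩ := Submodule.mem_sup.1 h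
  refine ⟨_, hA p hp d, _, hB q hq d, weightedHomogeneousComponent_isWeightedHomogeneous _ _,
    weightedHomogeneousComponent_isWeightedHomogeneous _ _, ?_⟩
  rw [← map_add, h1, IsWeightedHomogeneous.weightedHomogeneousComponent_same hf]

theorem exists_div (ξ : Fin (N + 1) → K) {f a : PP k N} {d e : ℕ} (hf : f.IsHomogeneous (d + e))
    (ha : a.IsHomogeneous e) (h : f ∈ van k ξ ⊔ Ideal.span {a}) :
    ∃ g : PP k N, g.IsHomogeneous d ∧ aeval ξ f = aeval ξ a * aeval ξ g := by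
  obtain ⟨p, hp, q, hq, h1⟩ := Submodule.mem_sup.1 h
  obtain ⟨g, rfl⟩ := Ideal.mem_span_singleton'.1 hq
  refine ⟨_, weightedHomogeneousComponent_isWeightedHomogeneous d g, ?_⟩
  have h2 := congrArg (fun z => Polynomial.coeff (aeval (fun i => Polynomial.C (ξ i) *
    Polynomial.X ^ (1 : Fin (N + 1) → ℕ) i) z) (d + e)) h1
  replace hp := RingHom.mem_ker.1 hp
  simp only [map_add, map_mul] at h2
  rw [hp, zero_add, aeval_tw hf, aeval_tw ha, ← mul_assoc, Polynomial.coeff_mul_X_pow,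
    Polynomial.coeff_mul_C, coeff_tw, Polynomial.coeff_C_mul_X_pow, if_pos rfl] at h2
  rw [← h2, mul_comm]

/-- The local step. -/
theorem loc_step (hLOC : S_LOC) (ξ : Fin (N + 1) → K) (y : NP k N) (hy : van k ξ ≤ van k y.1)
    {m : ℕ} {f : Fin 3 → PP k N} (hf : ∀ i, (f i).IsHomogeneous m) (h0 : aeval ξ (f 0) ≠ 0)
    (hy0 : aeval y.1 (f 0) = 0) (hy1 : ∃ i, aeval y.1 (f i) ≠ 0) {s J : ℕ} {β : Fin s → K}
    (hβ : ∀ i, ∃ g : PP k N, g.IsHomogeneous (J * m) ∧ β i * aeval ξ (f 0) ^ J = aeval ξ g)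
    (c : ℕ) (D : MvPolynomial (Fin 2) k) {w : Fin 2 → K}
    (hw : w = fun i : Fin 2 => aeval ξ (f i.succ) / aeval ξ (f 0)) :
    ∃ n₀, ∀ n M, n₀ ≤ n → n ≤ M → ∀ (α : Fin 2 → Fin s → MvPolynomial (Fin 2) k)
      (r : Fin s → MvPolynomial (Fin 2) k) (p : Fin 2 → PP k N) (t : k),
      (∀ i, (r i).totalDegree ≤ c) → (∀ j i, (α j i - X j ^ M * r i).totalDegree ≤ M + c - n) →
      (∀ j, (p j).IsHomogeneous (M * m)) →
      (∀ j, aeval w D * aeval ξ (p j) = aeval ξ (f 0) ^ M * ∑ i, aeval w (α j i) * β i) →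
      (∀ j, p j - C t * f j.succ ^ M ∈ van k y.1 ^ n) →
      t • aeval w D = ∑ i, aeval w (r i) * β i := by
  obtain ⟨i, hi⟩ := hy1
  obtain ⟨j, rfl⟩ := Fin.exists_succ_eq.2 (show i ≠ 0 from fun h => hi (h ▸ hy0))
  have hx : aeval ξ (f j.succ) ≠ 0 := fun h =>
    hi ((mem_van_of_hom (hf _)).1 (hy ((mem_van_of_hom (hf _)).2 h)))
  obtain ⟨F, hF, h1⟩ := loc_filt hLOC ξ y hy (hf j.succ) hi
  have hε : aeval ξ (f 0) / aeval ξ (f j.succ) ∈ F 1 := by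
    simpa using h1 1 1 (f 0) (by simpa using hf 0)
      (by simpa using (mem_van_of_hom (hf 0)).2 hy0)
  obtain ⟨n₀, h2⟩ := hF.core (w := w) hε (fun l => by
      have h3 := h1 1 0 (f l.succ) (by simpa using hf _) (by simp)
      convert h3 using 1
      simp only [hw]
      field_simp) (i₀ := j) (by simp only [hw]; field_simp) (J := J) (β := β) (fun l => by
      obtain ⟨g, h3, h4⟩ := hβ l
      convert h1 J 0 g h3 (by simp) using 1
      rw [← h4, div_pow]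
      ring) c D
  refine ⟨n₀, fun n M hn hM α r p t hr hα hp he ht => h2 n M hn hM (α j) r
    (aeval ξ (p j) / aeval ξ (f j.succ) ^ M) t hr (hα j) ?_ ?_⟩
  · rw [← mul_div_assoc, he, div_pow]
    ring
  · have h3 : (C t * f j.succ ^ M).IsHomogeneous (M * m) := by
      simpa [mul_comm M m] using ((hf j.succ).pow M).C_mul t
    convert h1 M n _ ((hp j).sub h3) (ht j) using 1
    simp only [map_sub, map_mul, map_pow, aeval_C]
    field_simp

end G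

end CONN

open CONN

theorem t_CONN : S_EX → S_DM → S_LOC → S_AV → S_AVOID → S_FIN → S_NSP → S_CONNP → S_CONNF →
    S_CONN := by
  intro hEX hDM hLOC hAV hAVOID hFIN hNSP hP hF k _ _ N I J₁ J₂ a m y₁ y₂ hI ha hm haI hJ₁ hJ₂
    hor hnd hy₁ ha₁ hy₁' hy₂ ha₂ hy₂'
  obtain ⟨T, hT, -, hT'⟩ := hAV k N I a m ∅ hI ha haI Set.finite_empty
  obtain ⟨x₁, hx₁, hx₁'⟩ := (hAVOID k N T hT).1 m
  obtain ⟨x₂, hx₂, hx₂'⟩ := (hAVOID k N _ (hT' x₁ m hx₁ hx₁').fin).1 m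
  obtain ⟨f, hf0, hf, hnz⟩ : ∃ f : Fin 3 → PP k N, f 0 = a ∧ (∀ i, (f i).IsHomogeneous m) ∧
      ∀ y : NP k N, On I y.1 → ∃ i, aeval y.1 (f i) ≠ 0 := by
    refine ⟨![a, x₁, x₂], rfl, fun i => by fin_cases i <;> assumption, fun y hy => ?_⟩
    by_contra! h
    exact hx₂' y ⟨hy, h 0, h 1⟩ (h 2)
  subst hf0
  obtain ⟨N₁, hN₁⟩ := hFIN k N I 3 m f hI.hom hm hf hnz
  obtain ⟨i₀, hi₀⟩ := hI.rel
  have := hI.prime
  obtain ⟨K, _, _, ξ, rfl, hξ, hG⟩ := hEX k _ 1 I i₀ hI.hom rfl hi₀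
  have hξ0 : ξ i₀ ≠ 0 := hξ ▸ one_ne_zero
  obtain ⟨d, hd, hd'⟩ := hDM k _ 1 K ξ i₀ hG rfl hξ0
  have hd2 : d = 2 := by
    rw [hI.dim] at hd'
    norm_cast at hd'
    omega
  have h0 : aeval ξ (f 0) ≠ 0 := fun h => haI ((mem_van_of_hom ha).2 h)
  obtain ⟨s, c, J, β, D, hD, hβ, hind, hα⟩ := hF k N K ξ m N₁ f hG (fun h => hξ0 (congrFun h i₀))
    (by rw [hd, hd2]; rfl) hm hf h0 hN₁
  generalize hw : (fun i : Fin 2 => aeval ξ (f i.succ) / aeval ξ (f 0)) = w at hD hind hα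
  obtain ⟨n₁, hn₁⟩ := loc_step hLOC ξ y₁ (hI.hom.on_iff.1 hy₁) hf h0 ha₁ (hnz y₁ hy₁) hβ c D hw.symm
  obtain ⟨n₂, hn₂⟩ := loc_step hLOC ξ y₂ (hI.hom.on_iff.1 hy₂) hf h0 ha₂ (hnz y₂ hy₂) hβ c D hw.symm
  obtain ⟨n, hn1, hn2⟩ : ∃ n, n₁ ≤ n ∧ n₂ ≤ n := ⟨n₁ + n₂, by omega, by omega⟩
  have hs : ∀ {g : PP k N} {e : ℕ}, g.IsHomogeneous e → Hom (van k ξ ⊔ Ideal.span {g}) :=
    fun {g e} hg => hI.hom.sup (wHom_span fun _ h => ⟨e, h ▸ hg⟩)
  have ho : ∀ {g : PP k N} {y : NP k N}, On (van k ξ ⊔ Ideal.span {g}) y.1 ↔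
      On (van k ξ) y.1 ∧ aeval y.1 g = 0 := by simp [on_sup, on_span]
  set A₁ := van k ξ ⊔ Ideal.span {f 0} ⊔ J₁
  set A₂ := van k ξ ⊔ Ideal.span {f 0} ⊔ J₂
  have hA₁ : Hom A₁ := (hs ha).sup hJ₁
  have hA₂ : Hom A₂ := (hs ha).sup hJ₂
  have hB₁ : On A₁ y₁.1 := (on_sup _).2 ⟨ho.2 ⟨hy₁, ha₁⟩, hy₁'⟩
  have hB₂ : On A₂ y₂.1 := (on_sup _).2 ⟨ho.2 ⟨hy₂, ha₂⟩, hy₂'⟩
  have h1 : A₁ * A₂ ≤ (van k ξ ⊔ Ideal.span {f 0 ^ n}).radical := by
    refine (hA₁.mul hA₂).le_of_hom fun g e hg hgm => ?_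
    rcases Nat.eq_zero_or_pos e with rfl | he
    · have h3 := hB₁ g (Ideal.mul_le_left hgm)
      obtain ⟨t, rfl⟩ : ∃ t, g = C t := ⟨_, totalDegree_eq_zero_iff_eq_C.1
        (Nat.le_zero.1 (IsHomogeneous.totalDegree_le hg))⟩
      rw [aeval_C, map_eq_zero] at h3
      rw [h3, C_0]
      exact zero_mem _
    · refine (hNSP k N).1 _ g e (hs (ha.pow n)) hg he fun y hy => ?_
      obtain ⟨h2, h3⟩ := ho.1 hy
      rw [map_pow] at h3
      have h4 := eq_zero_of_pow_eq_zero h3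
      rcases hor y h2 h4 with h5 | h5
      · exact (on_sup _).2 ⟨ho.2 ⟨h2, h4⟩, h5⟩ g (Ideal.mul_le_left hgm)
      · exact (on_sup _).2 ⟨ho.2 ⟨h2, h4⟩, h5⟩ g (Ideal.mul_le_right hgm)
  obtain ⟨L₀, hL₀⟩ := Ideal.exists_pow_le_of_le_radical_of_fg h1 (IsNoetherian.noetherian _)
  obtain ⟨L, hL, hL'⟩ : ∃ L, n ≤ L ∧ A₁ ^ L * A₂ ^ L ≤ van k ξ ⊔ Ideal.span {f 0 ^ n} :=
    ⟨L₀ + n, by omega, by
      rw [← mul_pow]
      exact (Ideal.pow_le_pow_right (Nat.le_add_right _ _)).trans hL₀⟩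
  have h2 : ∀ j : Fin 2, f j.succ ∈ (A₁ ^ L ⊔ A₂ ^ L).radical := fun j => by
    refine (hNSP k N).1 _ _ m ((wHom_pow hA₁ L).sup (wHom_pow hA₂ L)) (hf _) hm fun y hy => ?_
    have h3 : ∀ A : Ideal (PP k N), On (A ^ L) y.1 → On A y.1 := fun A h g hg => by
      have h4 := h _ (Ideal.pow_mem_pow hg L)
      rw [map_pow] at h4
      exact eq_zero_of_pow_eq_zero h4
    obtain ⟨h4, h5⟩ := (on_sup _).1 (h3 _ ((on_sup _).1 hy).1)
    exact (hnd y (ho.1 h4).1 (ho.1 h4).2 ⟨h5, ((on_sup _).1 (h3 _ ((on_sup _).1 hy).2)).2⟩).elim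
  choose M₀ hM₀ using h2
  obtain ⟨M, hM, hM'⟩ : ∃ M, n ≤ M ∧ ∀ j : Fin 2, f j.succ ^ M ∈ A₁ ^ L ⊔ A₂ ^ L :=
    ⟨M₀ 0 + M₀ 1 + n, by omega, fun j => Ideal.pow_mem_of_pow_mem _ (hM₀ j)
      (by fin_cases j <;> simp <;> omega)⟩
  have hfM : ∀ j : Fin 2, (f j.succ ^ M).IsHomogeneous (M * m) := fun j => by
    simpa [mul_comm M m] using (hf j.succ).pow M
  choose q hq p hp hq' hp' hpq using fun j =>
    exists_split (wHom_pow hA₁ L) (wHom_pow hA₂ L) (hfM j) (hM' j)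
  choose α hα₁ hα₂ using fun j => hα M (p j) (hp' j)
  have h3 : p 0 * f (1 : Fin 2).succ ^ M - p 1 * f (0 : Fin 2).succ ^ M ∈ A₁ ^ L * A₂ ^ L := by
    rw [← hpq 0, ← hpq 1]
    convert sub_mem (Ideal.mul_mem_mul (hq 1) (hp 0)) (Ideal.mul_mem_mul (hq 0) (hp 1)) using 1
    ring
  have h4 : M * m + M * m = (2 * M - n) * m + m * n := by
    rw [mul_comm m n, ← add_mul, ← add_mul]
    congr 1
    omega
  obtain ⟨g, hg, hg'⟩ := exists_div ξ (h4 ▸ ((hp' 0).mul (hfM 1)).sub ((hp' 1).mul (hfM 0)))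
    (ha.pow n) (hL' h3)
  obtain ⟨γ, hγ₁, hγ₂⟩ := hα _ g hg
  have h5 : (fun i => X 1 ^ M * α 0 i - X 0 ^ M * α 1 i - γ i) = 0 := by
    refine hind _ (mul_left_cancel₀ (pow_ne_zero (2 * M) h0) ?_)
    have h6 : ∀ j : Fin 2, aeval ξ (f 0) ^ M * w j ^ M = aeval ξ (f j.succ) ^ M := fun j => by
      rw [← hw, ← mul_pow, mul_div_cancel₀ _ h0]
    have h7 : aeval ξ (f 0) ^ (2 * M) = aeval ξ (f 0) ^ n * aeval ξ (f 0) ^ (2 * M - n) := by
      rw [← pow_add]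
      congr 1
      omega
    simp only [map_sub, map_mul, map_pow, aeval_X, sub_mul, Finset.sum_sub_distrib,
      ← Finset.mul_sum, mul_assoc] at hg' ⊢
    linear_combination aeval w D * hg' - aeval ξ (f (1 : Fin 2).succ) ^ M * hα₂ 0 +
      aeval ξ (f (0 : Fin 2).succ) ^ M * hα₂ 1 + aeval ξ (f 0) ^ n * hγ₂ -
      (∑ i, aeval w (γ i) * β i) * h7 +
      aeval ξ (f 0) ^ M * (∑ i, aeval w (α 0 i) * β i) * h6 1 -
      aeval ξ (f 0) ^ M * (∑ i, aeval w (α 1 i) * β i) * h6 0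
  choose r hr hr₀ hr₁ using fun i => hP k M c n (α 0 i) (α 1 i) hM (hα₁ 0 i) (hα₁ 1 i) (by
    rw [sub_eq_zero.1 (congrFun h5 i)]
    exact (hγ₁ i).trans (by omega))
  have hr' : ∀ j i, (α j i - X j ^ M * r i).totalDegree ≤ M + c - n := fun j i => by
    fin_cases j
    exacts [hr₀ i, hr₁ i]
  have h6 := hn₁ n M hn1 hM α r p 1 hr hr' hp' hα₂ fun j => by
    rw [C_1, one_mul, ← hpq j, sub_add_cancel_right]
    exact neg_mem (Ideal.pow_le_pow_right hL (Ideal.pow_right_mono (hA₁.on_iff.1 hB₁) L (hq j)))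
  have h7 := hn₂ n M hn2 hM α r p 0 hr hr' hp' hα₂ fun j => by
    rw [C_0, zero_mul, sub_zero]
    exact Ideal.pow_le_pow_right hL (Ideal.pow_right_mono (hA₂.on_iff.1 hB₂) L (hp j))
  rw [← h7, one_smul, zero_smul] at h6
  exact hD h6

end Pool.Agent.P.MP_12d50c_ag
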