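import Pool.Agent.P.MP_12d50c_ag.If1

/-! The function field of a surface over a finite projection. -/

open MvPolynomial

namespace Pool.Agent.P.MP_12d50c_ag

namespace CONNF

variable {k : Type} [Field k] {N : ℕ} {K : Type} [Field K] [Algebra k K]

theorem claimA {ξ : Fin (N + 1) → K} {m J : ℕ} {f : Fin 3 → PP k N} (hm : 0 < m)
    (hf : ∀ i, (f i).IsHomogeneous m) (h0 : aeval ξ (f 0) ≠ 0)
    (H : ∀ d, J ≤ d → ∀ g : PP k N, g.IsHomogeneous (d + m) →
      ∃ c : Fin 3 → PP k N, (∀ i, (c i).IsHomogeneous d) ∧ g - ∑ i, c i * f i ∈ van k ξ)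
    (j : ℕ) (g : PP k N) (hg : g.IsHomogeneous (j * m)) :
    ∃ ρ : Mon N (J * m) → MvPolynomial (Fin 2) k, (∀ t, (ρ t).totalDegree ≤ j) ∧
      aeval ξ g / aeval ξ (f 0) ^ j =
        ∑ t, aeval (fun i : Fin 2 => aeval ξ (f i.succ) / aeval ξ (f 0)) (ρ t) *
          (aeval ξ (monomial t.1 (1 : k)) / aeval ξ (f 0) ^ J) := by
  have low : ∀ j ≤ J, ∀ g : PP k N, g.IsHomogeneous (j * m) →
      ∃ ρ : Mon N (J * m) → MvPolynomial (Fin 2) k, (∀ t, (ρ t).totalDegree ≤ j) ∧
      aeval ξ g / aeval ξ (f 0) ^ j =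
        ∑ t, aeval (fun i : Fin 2 => aeval ξ (f i.succ) / aeval ξ (f 0)) (ρ t) *
          (aeval ξ (monomial t.1 (1 : k)) / aeval ξ (f 0) ^ J) := by
    intro j hj g hg
    obtain ⟨e, rfl⟩ := Nat.exists_eq_add_of_le hj
    have h1 : (g * f 0 ^ e).IsHomogeneous ((j + e) * m) := by
      have := hg.mul ((hf 0).pow e)
      rwa [mul_comm m, ← add_mul] at this
    refine ⟨fun t => C (coeff t.1 (g * f 0 ^ e)), fun t => by simp, ?_⟩
    have h2 := congrArg (aeval ξ) (form_coeff h1)
    rw [form, map_sum, map_mul, map_pow] at h2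
    simp only [← mul_div_assoc, ← Finset.sum_div, aeval_C, aeval_monomial, map_one, one_mul]
      at h2 ⊢
    rw [h2, pow_add, mul_div_mul_right _ _ (pow_ne_zero _ h0)]
  induction j generalizing g with
  | zero => exact low 0 (Nat.zero_le _) g hg
  | succ j ih =>
    rcases Nat.lt_or_ge j J with h | h
    · exact low _ h g hg
    obtain ⟨c, hc, hv⟩ := H (j * m) (h.trans (Nat.le_mul_of_pos_right _ hm)) g
      (by rwa [← Nat.succ_mul])
    have h1 := aeval_eq_zero_of_mem_vanw hv
    choose ρ hρ hρ' using fun i => ih (c i) (hc i)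
    have hX : ∀ i t (l : Fin 2), (ρ i t * X l).totalDegree ≤ j + 1 := fun i t l =>
      (totalDegree_mul _ _).trans (add_le_add (hρ i t) (totalDegree_X l).le)
    refine ⟨fun t => ρ 0 t + ρ 1 t * X 0 + ρ 2 t * X 1, fun t => (totalDegree_add _ _).trans
      (max_le ((totalDegree_add _ _).trans (max_le ((hρ 0 t).trans (Nat.le_succ _)) (hX 1 t 0)))
        (hX 2 t 1)), ?_⟩
    simp only [map_add, map_mul, aeval_X, add_mul, Finset.sum_add_distrib,
      mul_right_comm _ (aeval ξ (f (Fin.succ _)) / _), ← Finset.sum_mul, ← hρ']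
    rw [map_sub, sub_eq_zero, Fin.sum_univ_three, map_add, map_add, map_mul, map_mul,
      map_mul] at h1
    rw [h1]
    simp only [Fin.succ_zero_eq_one, Fin.succ_one_eq_two]
    field_simp
    ring

/-- A finite spanning family closed under products spans the field. -/
theorem span_top {F T : Type} [Field F] [Algebra F K] [Finite T] (γ : T → K) (S : Set K)
    (hS : S ⊆ Submodule.span F (Set.range γ)) (h1 : (1 : K) ∈ S)
    (hm : ∀ t t', γ t * γ t' ∈ S) (hu : ∀ u : K, ∃ a ∈ S, ∃ b ∈ S, u = a * b⁻¹) :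
    Submodule.span F (Set.range γ) = ⊤ := by
  have h2 : Submodule.span F (Set.range γ) * Submodule.span F (Set.range γ) ≤
      Submodule.span F (Set.range γ) := by
    rw [Submodule.span_mul_span, Submodule.span_le]
    rintro _ ⟨_, ⟨t, rfl⟩, _, ⟨t', rfl⟩, rfl⟩
    exact hS (hm t t')
  let W : Subalgebra F K := (Submodule.span F (Set.range γ)).toSubalgebra (hS h1)
    fun x y hx hy => h2 (Submodule.mul_mem_mul hx hy)
  refine Submodule.eq_top_iff'.2 fun u => ?_
  obtain ⟨a, ha, b, hb, rfl⟩ := hu u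
  exact W.mul_mem (hS ha) ((IsIntegral.of_mem_of_fg W
    (Submodule.fg_span (Set.finite_range γ)) b (hS hb)).inv_mem (hS hb))

/-- Common denominators. -/
theorem denom {T : Type} [Fintype T] (v : Fin 2 → K)
    (c : T → IntermediateField.adjoin k (Set.range v)) :
    ∃ (D : MvPolynomial (Fin 2) k) (P : T → MvPolynomial (Fin 2) k), aeval v D ≠ 0 ∧
      ∀ t, aeval v D * c t = aeval v (P t) := by
  classical
  have h : ∀ t, ∃ r s : MvPolynomial (Fin 2) k, aeval v s ≠ 0 ∧ aeval v s * c t = aeval v r := by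
    intro t
    obtain ⟨r, s, h⟩ := (IntermediateField.mem_adjoin_range_iff k v _).1 (c t).2
    by_cases hs : aeval v s = 0
    · exact ⟨0, 1, by simp, by simp [h, hs]⟩
    · exact ⟨r, s, hs, by rw [h, mul_div_cancel₀ _ hs]⟩
  choose r s hs h using h
  refine ⟨∏ t, s t, fun t => (∏ t' ∈ Finset.univ.erase t, s t') * r t, ?_, fun t => ?_⟩
  · rw [map_prod]
    exact Finset.prod_ne_zero_iff.2 fun t _ => hs t
  · rw [← Finset.prod_erase_mul _ _ (Finset.mem_univ t), map_mul, map_mul, mul_assoc, h]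

end CONNF

open CONNF in
theorem t_CONNF : S_CONNF := by
  intro k _ N K _ _ ξ m J f hG hξ htr hm hf h0 H
  have hA := claimA hm hf h0 H
  generalize (fun i : Fin 2 => aeval ξ (f i.succ) / aeval ξ (f 0)) = v at hA ⊢
  generalize aeval ξ (f 0) = x at h0 hA ⊢
  set γ : Mon N (J * m) → K := fun t => aeval ξ (monomial t.1 (1 : k)) / x ^ J with hγ
  have hmon : ∀ t : Mon N (J * m), (monomial t.1 (1 : k)).IsHomogeneous (J * m) := fun t =>
    isHomogeneous_monomial _ t.2
  have hv : ∀ ρ : MvPolynomial (Fin 2) k, aeval v ρ ∈ IntermediateField.adjoin k (Set.range v) :=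
    fun ρ => (IntermediateField.mem_adjoin_range_iff k v _).2 ⟨ρ, 1, by simp⟩
  have htop : Submodule.span (IntermediateField.adjoin k (Set.range v)) (Set.range γ) = ⊤ := by
    refine span_top γ {u | ∃ (j : ℕ) (g : PP k N), g.IsHomogeneous (j * m) ∧
      u = aeval ξ g / x ^ j} ?_ ⟨0, 1, by simpa using isHomogeneous_one _ _, by simp⟩
      (fun t t' => ⟨J + J, _, add_mul J J m ▸ (hmon t).mul (hmon t'), ?_⟩) fun u => ?_
    · rintro _ ⟨j, g, hg, rfl⟩
      obtain ⟨ρ, -, h⟩ := hA j g hg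
      rw [h]
      exact Submodule.sum_mem _ fun t _ =>
        Submodule.smul_mem _ (⟨_, hv (ρ t)⟩ : IntermediateField.adjoin k (Set.range v))
          (Submodule.subset_span ⟨t, rfl⟩)
    · rw [map_mul, pow_add, div_mul_div_comm]
    · obtain ⟨d, g, h, hg, hh, h1, h2⟩ := hG u
      obtain ⟨i, hi⟩ := Function.ne_iff.1 hξ
      have hi' : ξ i ≠ 0 := hi
      obtain ⟨e, rfl⟩ := Nat.exists_eq_succ_of_ne_zero hm.ne'
      have h3 : ∀ p : PP k N, p.IsHomogeneous d →
          (p * X i ^ (d * e)).IsHomogeneous (d * (e + 1)) := fun p hp => by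
        have := hp.mul ((isHomogeneous_X k i).pow (d * e))
        rwa [one_mul, add_comm d, ← mul_add_one] at this
      refine ⟨_, ⟨d, _, h3 g hg, rfl⟩, _, ⟨d, _, h3 h hh, rfl⟩, ?_⟩
      simp only [map_mul, map_pow, aeval_X, ← h2]
      field_simp
  have hfin : Module.Finite (IntermediateField.adjoin k (Set.range v)) K :=
    ⟨htop ▸ Submodule.fg_span (Set.finite_range γ)⟩
  have halg : Algebra.IsAlgebraic (Algebra.adjoin k (Set.range v)) K :=
    IntermediateField.isAlgebraic_adjoin_iff_top.1 inferInstance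
  have hind : AlgebraicIndependent k v :=
    (Algebra.IsAlgebraic.isTranscendenceBasis_of_le_trdeg_of_finite k v (by simp [htr])).1
  obtain ⟨κ, a, ha, hsp, hli⟩ :=
    exists_linearIndependent' (IntermediateField.adjoin k (Set.range v)) γ
  have := Finite.of_injective a ha
  obtain ⟨s, ⟨e⟩⟩ := Finite.exists_equiv_fin κ
  have hli' := hli.comp e.symm e.symm.injective
  have hc : ∀ t, ∃ c : Fin s → IntermediateField.adjoin k (Set.range v),
      ∑ i, c i • γ (a (e.symm i)) = γ t := fun t => by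
    refine (Submodule.mem_span_range_iff_exists_fun _).1 ?_
    rw [show (Set.range fun i => γ (a (e.symm i))) = Set.range (γ ∘ a) from
      e.symm.surjective.range_comp (γ ∘ a), hsp]
    exact Submodule.subset_span ⟨t, rfl⟩
  choose c hc using hc
  obtain ⟨D, P, hD, hP⟩ := denom v fun p : Mon N (J * m) × Fin s => c p.1 p.2
  refine ⟨s, Finset.univ.sup fun p => (P p).totalDegree, J, fun i => γ (a (e.symm i)), D, hD,
    fun i => ⟨_, hmon _, div_mul_cancel₀ _ (pow_ne_zero _ h0)⟩, fun ρ hρ => funext fun i => ?_,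
    fun j g hg => ?_⟩
  · have h1 := Fintype.linearIndependent_iff.1 hli' (fun i => ⟨_, hv (ρ i)⟩) hρ i
    exact hind.eq_zero_of_aeval_eq_zero _ (congrArg Subtype.val h1)
  · obtain ⟨ρ, h1, h2⟩ := hA j g hg
    refine ⟨fun i => ∑ t, ρ t * P (t, i), fun i => totalDegree_finsetSum_le fun t _ =>
      (totalDegree_mul _ _).trans (add_le_add (h1 t)
        (Finset.le_sup (f := fun p => (P p).totalDegree) (Finset.mem_univ _))), ?_⟩
    rw [div_eq_iff (pow_ne_zero _ h0)] at h2
    rw [h2, ← mul_assoc, mul_comm (x ^ j)]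
    congr 1
    simp only [map_sum, map_mul, Finset.sum_mul, Finset.mul_sum, ← hP]
    rw [Finset.sum_comm]
    refine Finset.sum_congr rfl fun t _ => ?_
    change aeval v D * (aeval v (ρ t) * γ t) = _
    rw [← hc t, Finset.mul_sum, Finset.mul_sum]
    refine Finset.sum_congr rfl fun i _ => ?_
    rw [IntermediateField.smul_def, smul_eq_mul]
    ring

end Pool.Agent.P.MP_12d50c_ag
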