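import Pool.Agent.P.MP_12d50c_ag.If1

/-!
A lemma on polynomials in two variables.
-/

open MvPolynomial

namespace Pool.Agent.P.MP_12d50c_ag

namespace CONNP

variable {k : Type} [Field k]

theorem deg_le {p : MvPolynomial (Fin 2) k} {N : ℕ} :
    p.totalDegree ≤ N ↔ ∀ d : Fin 2 →₀ ℕ, N < d 0 + d 1 → coeff d p = 0 := by
  have h : ∀ d : Fin 2 →₀ ℕ, (d.sum fun _ e => e) = d 0 + d 1 := fun d => by
    rw [Finsupp.sum_fintype _ _ fun _ => rfl, Fin.sum_univ_two]
  rw [totalDegree, Finset.sup_le_iff]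
  refine forall_congr' fun d => ?_
  rw [h, mem_support_iff, not_imp_comm, not_le]

theorem co (i : Fin 2) (M : ℕ) (p : MvPolynomial (Fin 2) k) (d : Fin 2 →₀ ℕ) :
    coeff d (X i ^ M * p) = if M ≤ d i then coeff (d - Finsupp.single i M) p else 0 := by
  rw [X_pow_eq_monomial, coeff_monomial_mul', one_mul]
  simp only [Finsupp.single_le_iff]

theorem ex (T : (Fin 2 →₀ ℕ) → Prop) [DecidablePred T] (p : MvPolynomial (Fin 2) k) :
    ∃ r : MvPolynomial (Fin 2) k, ∀ d, coeff d r = if T d then coeff d p else 0 := by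
  refine ⟨∑ d ∈ p.support with T d, monomial d (coeff d p), fun d => ?_⟩
  simp only [coeff_sum, coeff_monomial, Finset.sum_ite_eq', Finset.mem_filter, mem_support_iff]
  by_cases h : coeff d p = 0 <;> simp [h]

end CONNP

open CONNP in
theorem t_CONNP : S_CONNP := by
  intro k _ M c n α α' hn h1 _ h3
  rw [deg_le] at h1 h3
  obtain ⟨r, hr⟩ := ex (fun d => M + c - n < M + (d 0 + d 1))
    (α.divMonomial (Finsupp.single 0 M))
  simp only [coeff_divMonomial] at hr
  simp only [coeff_sub, co, sub_eq_zero] at h3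
  refine ⟨r, deg_le.2 fun d hd => ?_, deg_le.2 fun d hd => ?_, deg_le.2 fun d hd => ?_⟩
  · rw [hr, h1 _ (by simp; omega), ite_self]
  · rw [coeff_sub, co, sub_eq_zero]
    split_ifs with h
    · rw [hr, if_pos (by simp; omega), add_tsub_cancel_of_le (Finsupp.single_le_iff.2 h)]
    · have h4 := h3 (Finsupp.single 1 M + d) (by simp; omega)
      rw [if_pos (by simp), if_neg (by simpa using h), add_tsub_cancel_left] at h4
      exact h4
  · rw [coeff_sub, co, sub_eq_zero]
    have h4 := h3 (Finsupp.single 0 M + d) (by simp; omega)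
    rw [if_pos (show M ≤ (Finsupp.single 0 M + d : Fin 2 →₀ ℕ) 0 by simp),
      add_tsub_cancel_left] at h4
    rw [← h4]
    by_cases h : M ≤ d 1
    · rw [if_pos (by simpa using h), if_pos h, hr, if_pos (by simp; omega),
        add_tsub_assoc_of_le (Finsupp.single_le_iff.2 h)]
    · rw [if_neg (by simpa using h), if_neg h]

end Pool.Agent.P.MP_12d50c_ag
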