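import Pool.Agent.P.MP_12d50c_ag.If3

/-! Every symbol comes from a weight on the points. -/

open MvPolynomial

namespace Pool.Agent.P.MP_12d50c_ag

namespace CORE

variable {k : Type} [Field k] {N : ℕ} {I : Ideal (PP k N)}

theorem wsum_comm (χ : NP k N → ℚ) (h g : PP k N) : wsum I χ h g = wsum I χ g h := by
  simp only [wsum, inter_comm I _ h g]

theorem ne_r {h g : PP k N} (H : Cop I h g) : g ≠ 0 := fun e => H.nr (e ▸ I.zero_mem)

theorem deg_mul {h g g' : PP k N} (H : Cop I h g) (H' : Cop I h g') :
    ((g * g').totalDegree : ℚ) = g.totalDegree + g'.totalDegree := by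
  rw [totalDegree_mul_of_isDomain (ne_r H) (ne_r H'), Nat.cast_add]

theorem sup_le' {h g g' : PP k N} (H : g - g' ∈ I ⊔ Ideal.span {h}) :
    I ⊔ Ideal.span {h, g} ≤ I ⊔ Ideal.span {h, g'} := by
  refine sup_le le_sup_left (Ideal.span_le.2 ?_)
  have h1 : I ⊔ Ideal.span {h} ≤ I ⊔ Ideal.span {h, g'} :=
    sup_le_sup_left (Ideal.span_mono (by simp)) _
  rintro x (rfl | rfl)
  · exact Ideal.mem_sup_right (Ideal.subset_span (by simp))
  · have := add_mem (h1 H)
      (Ideal.mem_sup_right (Ideal.subset_span (by simp : g' ∈ ({h, g'} : Set _))))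
    rwa [sub_add_cancel] at this

theorem wsum_congr (χ : NP k N → ℚ) {h g g' : PP k N} (H : g - g' ∈ I ⊔ Ideal.span {h}) :
    wsum I χ h g = wsum I χ h g' := by
  have e : I ⊔ Ideal.span {h, g} = I ⊔ Ideal.span {h, g'} :=
    le_antisymm (sup_le' H) (sup_le' (by simpa using neg_mem H))
  simp only [wsum, inter, e]

end CORE

open CORE in
theorem t_CORE : S_NB → S_STEP1 → S_L2B → S_CORE1 → S_CORE2 → S_FULT → S_CORE := by
  intro hNB hST hL hC1 hC2 hF k _ _ p _ _ N I B hk hI hB
  obtain ⟨-, -, n3, n4, n5, -⟩ := hNB k N I hI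
  obtain ⟨χ, γ₀, h0⟩ := hC1 k p N I B hk hI hB
  obtain ⟨γ, g1, g2, g3⟩ := hC2 k p N I (fun h g => B h g - wsum I χ h g) γ₀ hk hI
    (fun h h' g H H' => by
      rw [hB.mul_left h h' g H H', wsum_comm χ (h * h'), n3 χ g h h' H.symm H'.symm,
        wsum_comm χ h, wsum_comm χ h']
      ring)
    (fun h g g' H H' => by
      rw [hB.mul_right h g g' H H', n3 χ h g g' H H']
      ring)
    (fun a b c e ha hb hc H1 H2 H3 => by
      have := hB.triple a b c e ha hb hc H1 H2 H3
      rw [wsum_comm χ a c, wsum_comm χ b a, wsum_comm χ c b]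
      linarith)
    (fun a g ha hg H => by rw [h0 a g ha hg H]; ring)
  have hs : IsSym I fun h g => B h g - wsum I χ h g - γ h * g.totalDegree :=
    { symm := g1
      mul := fun h g g' H H' => by
        rw [hB.mul_right h g g' H H', n3 χ h g g' H H', deg_mul H H']
        ring
      congr := fun h g g' e H H' hg hg' hm => by
        rw [hB.congr h g g' e H H' hg hg' fun y h1 h2 => by
            have := (on_sup y.1).2 ⟨h1, (on_span y.1).2 (by simpa using h2)⟩ _ hm
            rwa [map_sub, sub_eq_zero] at this,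
          wsum_congr χ hm, hg.totalDegree (ne_r H), hg'.totalDegree (ne_r H')]
      const := fun h c H => by rw [g3 h c H, totalDegree_C]; simp
      good := fun h a n hn ha hg H => by
        obtain ⟨χ', hχ⟩ := hST k p N I n a (fun g => B a g - γ a * g.totalDegree) hk hI.toIsSm hn
          ha hg
          (fun g g' H H' => by
            rw [hB.mul_right a g g' H H', deg_mul H H']
            ring)
          (fun g g' e H H' hg hg' hv => by
            rw [hB.congr a g g' e H H' hg hg' hv, hg.totalDegree (ne_r H),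
              hg'.totalDegree (ne_r H')])
        have hz := hL k p N I n 5 a (χ' - χ) hk hI hn le_rfl ha hg fun b hb hb' H => by
          rw [n4 χ' χ a b H, ← hχ b H]
          have := g2 a b hb hb' H
          linarith
        have e := n5 (χ' - χ) 0 a h H.symm fun y hy => hz y hy.1 hy.2.1
        rw [n4 χ' χ a h H.symm, ← hχ h H.symm] at e
        have e0 : wsum I 0 a h = 0 := by simp [wsum]
        have := g1 h a H
        linarith }
  refine ⟨χ, fun h g g' e hg hg' H H' => ?_⟩
  have e1 := hF k N I _ hI hs h g H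
  have e2 := hF k N I _ hI hs h g' H'
  rw [hg.totalDegree (ne_r H)] at e1
  rw [hg'.totalDegree (ne_r H')] at e2
  linarith

end Pool.Agent.P.MP_12d50c_ag
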