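import Pool.Agent.P.MP_12d50c_ag.If3

/-!
Symmetrization of a symbol.
-/

open MvPolynomial

namespace Pool.Agent.P.MP_12d50c_ag

namespace CORE2

variable {k : Type} [Field k] {N : ℕ} {I : Ideal (PP k N)} {B : PP k N → PP k N → ℚ}

theorem powR (hC : ∀ h g g', Cop I h g → Cop I h g' → Cop I h (g * g'))
    (hR : ∀ h g g', Cop I h g → Cop I h g' → B h (g * g') = B h g + B h g')
    {h g : PP k N} (H : Cop I h g) {j : ℕ} (hj : 0 < j) :
    Cop I h (g ^ j) ∧ B h (g ^ j) = j * B h g := by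
  induction j, hj using Nat.le_induction with
  | base => simpa using H
  | succ j _ ih =>
    rw [pow_succ]
    refine ⟨hC _ _ _ ih.1 H, ?_⟩
    rw [hR _ _ _ ih.1 H, ih.2]
    push_cast
    ring

/-- The hypotheses on the symbol. -/
structure Hy (I : Ideal (PP k N)) (B : PP k N → PP k N → ℚ) : Prop where
  hC : ∀ h g g', Cop I h g → Cop I h g' → Cop I h (g * g')
  hL : ∀ h h' g, Cop I h g → Cop I h' g → B (h * h') g = B h g + B h' g
  hR : ∀ h g g', Cop I h g → Cop I h g' → B h (g * g') = B h g + B h g'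
  tor : ∀ x : k, x ≠ 0 → ∃ n, 0 < n ∧ x ^ n = 1

theorem Hy.swap (y : Hy I B) : Hy I fun h g => B g h :=
  ⟨y.hC, fun h h' g a b => y.hR g h h' a.symm b.symm,
    fun h g g' a b => y.hL g g' h a.symm b.symm, y.tor⟩

theorem Hy.pow (y : Hy I B) {h g : PP k N} (H : Cop I h g) {i j : ℕ} (hi : 0 < i) (hj : 0 < j) :
    Cop I (h ^ i) (g ^ j) ∧ B (h ^ i) (g ^ j) = i * j * B h g := by
  obtain ⟨h1, h2⟩ := powR y.hC y.hR H hj
  obtain ⟨h3, h4⟩ := powR (B := fun h g => B g h) y.hC y.swap.hR h1.symm hi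
  refine ⟨h3.symm, ?_⟩
  have h5 : B (h ^ i) (g ^ j) = i * B h (g ^ j) := h4
  rw [h5, h2, mul_assoc]

theorem Hy.const (y : Hy I B) {h : PP k N} {c : k} (H : Cop I h (C c)) : B h (C c) = 0 := by
  have hc : c ≠ 0 := by
    rintro rfl
    exact H.nr (by simp)
  obtain ⟨n, hn, e⟩ := y.tor c hc
  obtain ⟨h1, h2⟩ := powR y.hC y.hR H hn
  rw [← map_pow, e, map_one] at h1 h2
  have h3 := y.hR h 1 1 h1 h1
  rw [mul_one] at h3
  have h4 : (n : ℚ) * B h (C c) = 0 := by linarith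
  exact (mul_eq_zero.mp h4).resolve_left (by exact_mod_cast hn.ne')

theorem deg_eq {h : PP k N} {e : ℕ} (he : h.IsHomogeneous e) (hI : h ∉ I) : h.totalDegree = e :=
  he.totalDegree (by rintro rfl; exact hI I.zero_mem)

theorem Hy.zero (y : Hy I B) {h g : PP k N} (he : h.IsHomogeneous 0) (H : Cop I h g) :
    B h g = 0 ∧ B g h = 0 := by
  have e : h = C (coeff 0 h) := totalDegree_eq_zero_iff_eq_C.mp (deg_eq he H.nl)
  rw [e] at H ⊢
  exact ⟨y.swap.const H.symm, y.const H.symm⟩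

end CORE2

open CORE2 in
theorem t_CORE2 : S_FQ → S_INT → S_NB → S_CORE2 := by
  intro hFQ hINT hNB k _ _ p _ _ N I B γ₀ hfin hS hL hR hT hG
  have y : Hy I B := ⟨fun h g g' a b => ((hINT k N I hS.toIsSm).2.2.1 h g g' a b).1, hL, hR,
    (hFQ k p).2.1 hfin⟩
  have hN := (hNB k N I hS).1
  -- one step of the independence of the chosen smooth section
  have step : ∀ h a x : PP k N, a.IsHomogeneous 5 → Good I a → x.IsHomogeneous 5 → Good I x →
      Cop I h a → Cop I h x → Cop I a x → B h a = B h x := by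
    intro h a x ha ga hx gx c1 c2 c3
    obtain ⟨e, he⟩ := c1.hl
    rcases Nat.eq_zero_or_pos e with rfl | h0
    · rw [(y.zero he c1).1, (y.zero he c2).1]
    have h5 : 0 < 5 := by norm_num
    have t := hT (h ^ 5) (a ^ e) (x ^ e) (5 * e) (mul_comm e 5 ▸ he.pow 5) (ha.pow e) (hx.pow e)
      (y.pow c1 h5 h0).1 (y.pow c3 h0 h0).1 (y.pow c2.symm h0 h5).1
    rw [(y.pow c1 h5 h0).2, (y.pow c3 h0 h0).2, (y.pow c2.symm h0 h5).2, (y.pow c2 h5 h0).2,
      (y.pow c1.symm h0 h5).2, (y.pow c3.symm h0 h0).2, hG a x ha ga c3, hG x h hx gx c2.symm,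
      hG a h ha ga c1.symm, hG x a hx gx c3.symm, deg_eq he c1.nl, deg_eq ha c1.nr,
      deg_eq hx c2.nr] at t
    have h1 : (e : ℚ) ≠ 0 := by exact_mod_cast h0.ne'
    have h2 : (5 * e : ℚ) * (B h a - B h x) = 0 := by
      push_cast at t
      linear_combination t
    exact sub_eq_zero.mp ((mul_eq_zero.mp h2).resolve_left (mul_ne_zero (by norm_num) h1))
  have indep : ∀ h a a' : PP k N, a.IsHomogeneous 5 → Good I a → a'.IsHomogeneous 5 → Good I a' →
      Cop I h a → Cop I h a' → B h a = B h a' := by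
    intro h a a' ha ga ha' ga' c1 c2
    obtain ⟨x, hx, gx, cx⟩ := hN {h, a, a'} 5 (Set.toFinite _) (by
      rintro z (rfl | rfl | rfl)
      · exact ⟨c1.nl, c1.hl⟩
      · exact ⟨c1.nr, c1.hr⟩
      · exact ⟨c2.nr, c2.hr⟩) (by norm_num)
    rw [step h a x ha ga hx gx c1 (cx h (by simp)) (cx a (by simp)),
      step h a' x ha' ga' hx gx c2 (cx h (by simp)) (cx a' (by simp))]
  have hex : ∀ h : PP k N, ∃ t : ℚ, ∀ a : PP k N, a.IsHomogeneous 5 → Good I a → Cop I h a →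
      B h a = t * 5 := by
    intro h
    by_cases H : ∃ a : PP k N, a.IsHomogeneous 5 ∧ Good I a ∧ Cop I h a
    · obtain ⟨a, ha, ga, c⟩ := H
      exact ⟨B h a / 5, fun a' ha' ga' c' => by rw [indep h a' a ha' ga' ha ga c' c]; ring⟩
    · exact ⟨0, fun a ha ga c => (H ⟨a, ha, ga, c⟩).elim⟩
  choose γ hγ using hex
  refine ⟨γ, fun h g H => ?_, fun h a ha ga c => ?_, fun h c H => y.const H⟩
  · obtain ⟨e, he⟩ := H.hl
    obtain ⟨e', he'⟩ := H.hr
    obtain ⟨a, ha, ga, ca⟩ := hN {h, g} 5 (Set.toFinite _) (by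
      rintro z (rfl | rfl)
      · exact ⟨H.nl, H.hl⟩
      · exact ⟨H.nr, H.hr⟩) (by norm_num)
    have c1 := ca h (by simp)
    have c2 := ca g (by simp)
    have g1 := hγ h a ha ga c1
    have g2 := hγ g a ha ga c2
    rw [deg_eq he H.nl, deg_eq he' H.nr]
    rcases Nat.eq_zero_or_pos e with rfl | h0
    · rw [(y.zero he c1).1] at g1
      have : γ h = 0 := by linarith
      rw [(y.zero he H).1, (y.zero he H).2, this]
      simp
    rcases Nat.eq_zero_or_pos e' with rfl | h0'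
    · rw [(y.zero he' c2).1] at g2
      have : γ g = 0 := by linarith
      rw [(y.zero he' H.symm).1, (y.zero he' H.symm).2, this]
      simp
    have p1 : 0 < 5 * e' := by omega
    have p2 : 0 < 5 * e := by omega
    have p3 : 0 < e * e' := Nat.mul_pos h0 h0'
    have t := hT (h ^ (5 * e')) (g ^ (5 * e)) (a ^ (e * e')) (5 * (e * e'))
      ((show e * (5 * e') = 5 * (e * e') by ring) ▸ he.pow (5 * e'))
      ((show e' * (5 * e) = 5 * (e * e') by ring) ▸ he'.pow (5 * e)) (ha.pow _)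
      (y.pow H p1 p2).1 (y.pow c2 p2 p3).1 (y.pow c1.symm p3 p1).1
    rw [(y.pow H p1 p2).2, (y.pow c2 p2 p3).2, (y.pow c1.symm p3 p1).2, (y.pow c1 p1 p3).2,
      (y.pow H.symm p2 p1).2, (y.pow c2.symm p3 p2).2, g1, g2, hG a h ha ga c1.symm,
      hG a g ha ga c2.symm, deg_eq he H.nl, deg_eq he' H.nr] at t
    have h1 : (e : ℚ) ≠ 0 := by exact_mod_cast h0.ne'
    have h1' : (e' : ℚ) ≠ 0 := by exact_mod_cast h0'.ne'
    have h2 : (25 * e * e' : ℚ) * ((B h g - γ h * e') - (B g h - γ g * e)) = 0 := by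
      push_cast at t
      linear_combination t
    exact sub_eq_zero.mp ((mul_eq_zero.mp h2).resolve_left
      (mul_ne_zero (mul_ne_zero (by norm_num) h1) h1'))
  · rw [hγ h a ha ga c, deg_eq ha c.nr]
    norm_num

end Pool.Agent.P.MP_12d50c_ag
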