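import Pool.Agent.P.MP_12d50c_ag.If5

/-!
Coordinates on projective space.
-/

open CategoryTheory AlgebraicGeometry IsLocalRing MvPolynomial

namespace Pool.Agent.P.MP_12d50c_ag

theorem t_CP : S_CP := by
  intro F _ N
  obtain ⟨s, h1, h2, h3⟩ := Pool.Agent.P.MP_638e8a_ag.Cyc.exists_coord_proj F N
  refine ⟨⟨s.s, fun f hf d => ?_, fun h => ?_, fun y => (h1 y).imp fun _ h => ⟨rfl, h⟩,
    fun y f hf => ?_, fun R _ a b e hab h => h2 R a b hab fun i j => ?_,
    fun R _ _ c x hx _ => ?_⟩⟩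
  · rw [Ideal.mem_bot.1 hf, map_zero]
    exact zero_mem _
  · simpa only [Pi.one_apply, pow_one] using s.exists_unit h
  · rw [Ideal.mem_bot.1 hf, eval₂_zero, map_zero]
  · rw [h i, h j, Pi.one_apply, Pi.one_apply]
    ring
  · simpa only [Pi.one_apply, pow_one] using
      h3 R (Spec.map (CommRingCat.ofHom c)) x (hx.imp fun _ h => h.2)

end Pool.Agent.P.MP_12d50c_ag
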