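import Pool.Agent.P.MP_12d50c_ag.If1

open MvPolynomial

namespace Pool.Agent.P.MP_12d50c_ag

theorem t_CURVE : S_NSP → S_NS0 → S_AVOID → S_REG → S_PLACE → S_DICT → S_CURVE := by
  intro hNSP hNS0 hAV hREG hPL hDICT k _ _ N Q hQ
  have := hQ.prime
  obtain ⟨-, -, n1, -, n2⟩ := (hNSP k N).2 Q hQ.prime hQ.hom hQ.rel
  obtain ⟨E, _, _, _, ξ, pl, hD⟩ := hDICT k N Q hQ
  obtain ⟨-, -, p1, p2, -⟩ := hPL k E
  have h1 : {y : NP k N | On Q y.1}.Infinite := fun h => by
    obtain ⟨y, hy⟩ := n1 h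
    have h2 := hQ.dim
    rw [hy, hNS0.1] at h2
    norm_cast at h2
  have h2 : ∀ (g : PP k N) (e : ℕ) (y : NP k N), g.IsHomogeneous e →
      (ordI Q y g = 0 ↔ ¬ (On Q y.1 ∧ aeval y.1 g = 0)) := fun g e y hg => by
    rw [ordI, len_eq_zero_iff, sup_le_iff, hQ.hom.on_iff, Ideal.span_singleton_le_iff_mem,
      mem_van_of_hom hg]
  have off : ∀ (g : PP k N) (y : NP k N), ¬ On Q y.1 → ordI Q y g = 0 := fun g y hy => by
    rw [ordI, len_eq_zero_iff, sup_le_iff, ← hQ.hom.on_iff]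
    exact fun h => hy h.1
  have h5 : ∀ (g g' : PP k N) (y : NP k N), g ∉ Q → g' ∉ Q →
      ordI Q y (g * g') = ordI Q y g + ordI Q y g' := fun g g' y _ hg' => by
    by_cases hy : On Q y.1
    · have h := hQ.hom.on_iff.1 hy
      have := isDomain_LQ h
      rw [ordI, ordI, ordI, len_sup_span, len_sup_span, len_sup_span, map_mul, Ring.ord_mul]
      exact mem_nonZeroDivisors_of_ne_zero (mt (toL_eq_zero_iff h).1 hg')
    · simp [off _ _ hy]
  have nt : ∀ (g : PP k N) (e : ℕ), g.IsHomogeneous e → g ∉ Q → ∀ y, ordI Q y g ≠ ⊤ :=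
    fun g e hg hn y => by
      by_cases hy : On Q y.1
      · exact (hD.val ⟨y, hy⟩ g e hg hn).1
      · simp [off _ _ hy]
  have fin := n2 hQ.dim.le
  have sup : ∀ (g : PP k N) (e : ℕ), g.IsHomogeneous e →
      (Function.support fun y => (ordI Q y g).toNat) ⊆ {y | On Q y.1 ∧ aeval y.1 g = 0} :=
    fun g e hg y hy => by_contra fun h => hy (by simp [(h2 g e y hg).2 h])
  have dm : ∀ (g g' : PP k N) (e e' : ℕ), g.IsHomogeneous e → g'.IsHomogeneous e' → g ∉ Q →
      g' ∉ Q → degC Q (g * g') = degC Q g + degC Q g' := fun g g' e e' hg hg' hn hn' => by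
    rw [degC, degC, degC, ← finsum_add_distrib ((fin g e hg hn).subset (sup g e hg))
      ((fin g' e' hg' hn').subset (sup g' e' hg'))]
    refine finsum_congr fun y => ?_
    rw [h5 _ _ _ hn hn', ENat.toNat_add (nt g e hg hn y) (nt g' e' hg' hn' y)]
  have h6 : ∀ (g g' : PP k N) (e : ℕ), g.IsHomogeneous e → g'.IsHomogeneous e → g ∉ Q → g' ∉ Q →
      degC Q g = degC Q g' ∧
      ((∀ y, ordI Q y g = ordI Q y g') → ∃ c : k, c ≠ 0 ∧ g - C c * g' ∈ Q) := by
    intro g g' e hg hg' hn hn'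
    have a1 : aeval ξ g ≠ 0 := fun h => hn (hD.van_eq ▸ (mem_van_of_hom hg).2 h)
    have a2 : aeval ξ g' ≠ 0 := fun h => hn' (hD.van_eq ▸ (mem_van_of_hom hg').2 h)
    have a3 : ∀ y, (pl y).v (aeval ξ g / aeval ξ g') =
        WithZero.exp (((ordI Q y.1 g').toNat : ℤ) - (ordI Q y.1 g).toNat) := fun y => by
      rw [← div_div_div_cancel_right₀ (pow_ne_zero e (hD.ne y)), map_div₀,
        (hD.val y g e hg hn).2, (hD.val y g' e hg' hn').2, ← WithZero.exp_sub]
      congr 1
      ring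
    constructor
    · let S := (((fin g e hg hn).union (fin g' e hg' hn')).preimage
        (Subtype.val_injective (p := fun y : NP k N => On Q y.1)).injOn).toFinset
      have b1 : ∀ f : PP k N, f.IsHomogeneous e → (∀ y : {y : NP k N // On Q y.1},
          aeval y.1.1 f = 0 → y ∈ S) → degC Q f = ∑ y ∈ S, (ordI Q y.1 f).toNat := by
        intro f hf hS
        rw [degC, finsum_eq_sum_of_support_subset (s := S.map (Function.Embedding.subtype _)),
          Finset.sum_map]
        · rfl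
        · intro y hy
          have := sup f e hf hy
          exact Finset.mem_coe.2 (Finset.mem_map.2 ⟨⟨y, this.1⟩, hS _ this.2, rfl⟩)
      have b2 := p1 _ (div_ne_zero a1 a2) (S.map pl.toEmbedding) fun P hP => by
        obtain ⟨y, rfl⟩ := pl.surjective P
        refine Finset.mem_map_of_mem _ (by_contra fun h => hP ?_)
        simp only [S, Set.Finite.mem_toFinset, Set.mem_preimage, Set.mem_union, not_or] at h
        rw [a3, (h2 g e _ hg).2 h.1, (h2 g' e _ hg').2 h.2]
        simp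
      rw [Finset.sum_map] at b2
      simp only [Equiv.coe_toEmbedding, a3, WithZero.log_exp, Finset.sum_sub_distrib] at b2
      rw [b1 g hg fun y hy => (Set.Finite.mem_toFinset _).2 (Or.inl ⟨y.2, hy⟩),
        b1 g' hg' fun y hy => (Set.Finite.mem_toFinset _).2 (Or.inr ⟨y.2, hy⟩)]
      exact_mod_cast (sub_eq_zero.1 b2).symm
    · intro h
      obtain ⟨c, hc⟩ := p2 (aeval ξ g / aeval ξ g') fun P => by
        obtain ⟨y, rfl⟩ := pl.surjective P
        simp [a3, h]
      refine ⟨c, ?_, ?_⟩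
      · rintro rfl
        exact div_ne_zero a1 a2 (by rw [← hc, map_zero])
      · rw [← hD.van_eq, mem_van_of_hom (hg.sub (hg'.C_mul c)), map_sub, map_mul, aeval_C, hc,
          div_mul_cancel₀ _ a2, sub_self]
  refine ⟨h1, h2, fun g y hg hy => ?_, fun g e hg hn => ⟨nt g e hg hn, fin g e hg hn, ?_⟩, h5, h6⟩
  · rw [ordI, len_sup_span, toL_eq_zero hg, Ring.ord_zero]
    by_contra h
    have a1 : IsArtinianRing (LQ Q (van k y.1)) :=
      (isFiniteLength_iff_isNoetherian_isArtinian.1 (Module.length_ne_top_iff.1 h)).2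
    have a2 := (Order.krullDimLE_iff _ _).1
      (isArtinianRing_iff_krullDimLE_zero.1 a1)
    rw [← ringKrullDim, ((hREG k N Q y hQ.hom hy).2 1 hQ).1] at a2
    norm_cast at a2
  · obtain ⟨y, hy, z, hz, hyz⟩ := h1.nontrivial
    obtain ⟨l, l1, l2, l3⟩ := (hAV k N {z} (Set.finite_singleton z)).2 y hyz 1 one_pos
    have l4 : l ∉ Q := fun h => l3 z rfl (hz l h)
    have l5 : ∀ n, l ^ n ∉ Q := fun n h => l4 (hQ.prime.mem_of_pow_mem n h)
    have l6 : ∀ n, (l ^ n).IsHomogeneous n := fun n => by simpa using l1.pow n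
    have a1 : 1 ≤ degC Q l := by
      refine le_trans ?_ (single_le_finsum y ((fin l 1 l1 l4).subset (sup l 1 l1))
        fun _ => Nat.zero_le _)
      rw [Nat.one_le_iff_ne_zero, Ne, ENat.toNat_eq_zero, not_or]
      exact ⟨fun h => (h2 l 1 y l1).1 h ⟨hy, l2⟩, nt l 1 l1 l4 y⟩
    rw [(h6 g _ e hg (l6 e) hn (l5 e)).1]
    clear hg
    induction e with
    | zero => exact Nat.zero_le _
    | succ e ih =>
      rw [pow_succ, dm _ _ _ _ (l6 e) l1 (l5 e) l4]
      omega

end Pool.Agent.P.MP_12d50c_ag
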