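import Pool.Agent.P.MP_12d50c_ag.If5

/-!
Coordinates on a projective variety.
-/

open CategoryTheory AlgebraicGeometry IsLocalRing MvPolynomial
open Pool.Agent.P.MP_638e8a_ag
open Pool.Agent.P.MP_638e8a_ag.Cyc (St Rf ev stm rfm primeOf)

namespace Pool.Agent.P.MP_12d50c_ag

namespace CX

variable {F : Type} [Field F] {Y Y' : Scheme.{0}} {κ : Y ⟶ Spec (.of F)} {τ : Type} {w : τ → ℕ}
  {J : Ideal (MvPolynomial τ F)}

theorem eval₂_scale {D : Type} [CommRing D] (k : F →+* D) {f : MvPolynomial τ F} {d : ℕ}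
    (hf : IsWeightedHomogeneous w f d) (u : D) (ξ : τ → D) :
    eval₂ k (fun i => u ^ w i * ξ i) f = u ^ d * eval₂ k ξ f :=
  letI := k.toAlgebra
  aeval_scale hf u ξ

theorem mem_pt (c : CS κ w J) {x y : Y} (h : x ≤ y) {f : MvPolynomial τ F} {d : ℕ}
    (hf : IsWeightedHomogeneous w f d) :
    f ∈ c.pt y ↔ eval₂ (cstk κ x) (c.s x) f ∈ primeOf x y := by
  let := algR κ y
  obtain ⟨e, he⟩ := c.unit h
  have h1 : c.co y = fun i => ev (le_refl y) (e : St y) ^ w i * ev h (c.s x i) := by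
    funext i
    rw [CS.co, he, map_mul, map_pow, Cyc.ev_sp]
  have h2 : (ev h).comp (cstk κ x) = (ev (le_refl y)).comp (cstk κ y) := RingHom.ext fun a => by
    rw [RingHom.comp_apply, RingHom.comp_apply, ← sp_cstk κ h, Cyc.ev_sp]
  rw [← Cyc.ev_eq_zero h, hom_eval₂, h2, CS.pt, mem_vanw_of_hom hf, h1, aeval_scale hf,
    ((e.isUnit.map _).pow _).mul_right_eq_zero]
  rfl

theorem pt_eq (c : CS κ w J) (i : Y' ⟶ Y) (y : Y') :
    letI := algR (i ≫ κ) y
    (vanw F w fun j => ev (le_refl y) (stm i y (c.s (i y) j))) = c.pt (i y) := by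
  let := algR (i ≫ κ) y
  let := algR κ (i y)
  let φ : Rf (i y) →ₐ[F] Rf y :=
    { rfm i y with
      commutes' := fun a => (Cyc.ev_stm i (le_refl y) _).symm.trans
        (congrArg (ev (le_refl y)) (stm_cstk i κ y a)) }
  have h := vanw_map (w := w) φ (rfm i y).injective (c.co (i y))
  simp only [Cyc.ev_stm]
  exact h

/-- The induced coordinates on an integral closed subscheme. -/
noncomputable def res (c : CS κ w J) (i : Y' ⟶ Y) [IsClosedImmersion i] (g : Y')
    (hg : ∀ y, y ≤ g) (h1 : ∀ y, J ≤ c.pt y) (h2 : ∀ x y, x ≤ y ↔ c.pt y ≤ c.pt x) :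
    CS (i ≫ κ) w (c.pt (i g)) where
  s y j := stm i y (c.s (i y) j)
  hom :=
    letI := algR κ (i g)
    wHom_vanw _
  unit {x y} h := by
    obtain ⟨e, he⟩ := c.unit (Cyc.map_le i h)
    refine ⟨Units.map (stm i y).toMonoidHom e, fun j => ?_⟩
    rw [he, map_mul, map_pow, Cyc.sp_stm]
    rfl
  bpf y := by
    obtain ⟨j, h3, h4⟩ := c.bpf (i y)
    exact ⟨j, h3, h4.map _⟩
  on y f hf := by
    let := algR (i ≫ κ) y
    have h3 := (h2 _ _).1 (Cyc.map_le i (hg y)) hf
    rw [← pt_eq] at h3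
    rw [hom_eval₂]
    exact aeval_eq_zero_of_mem_vanw h3
  sep R _ a b e h3 h4 := by
    refine (cancel_mono i).1 (c.sep R (a ≫ i) (b ≫ i) e (by simpa using h3) fun j => ?_)
    rw [Scheme.stalkClosedPointTo_comp, Scheme.stalkClosedPointTo_comp]
    exact h4 j
  ex R _ _ k x h3 h4 := by
    obtain ⟨a, e, h5, h6⟩ := c.ex R k x h3 fun f hf => h4 f (h1 _ hf)
    have h7 : (Scheme.stalkClosedPointTo a).hom.comp (cstk κ _) = k :=
      congrArg (fun f => f.hom) (Spec.map_injective ((comp_eq_cstk κ a).symm.trans h5))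
    have := RingHom.ker_isPrime (Scheme.stalkClosedPointTo a).hom
    obtain ⟨y, hy, h8⟩ := Cyc.exists_primeOf (RingHom.ker (Scheme.stalkClosedPointTo a).hom)
    have h9 : y ≤ i g := by
      let := algR κ (i g)
      refine (h2 _ _).2 ((wHom_vanw _).le_of_hom fun f d hf hm => ?_)
      rw [mem_pt c hy hf, ← h8, RingHom.mem_ker, hom_eval₂, h7]
      simp only [h6]
      rw [eval₂_scale k hf, h4 f hm, mul_zero]
    obtain ⟨b, hb, -⟩ := Cyc.IF.exists_lift (i := i) (w := g) (Scheme.stalkClosedPointTo a)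
      (((Cyc.primeOf_le_iff hy (hy.trans h9)).2 h9).trans h8.ge)
    obtain rfl := hb.trans (Scheme.Spec_stalkClosedPointTo_fromSpecStalk a)
    refine ⟨b, e, by simpa using h5, fun j => ?_⟩
    have h10 := h6 j
    rw [Scheme.stalkClosedPointTo_comp] at h10
    exact h10

end CX

theorem t_CX : S_CP → S_PTS1 → S_CX := by
  intro hCP hP F _ X _ ⟨N, i, hi⟩
  obtain ⟨c⟩ := hCP F N
  obtain ⟨h1, h2, -⟩ := hP F _ _ _ _ _ c
  rw [← Over.w i]
  exact ⟨N, _, CX.res c i.left (genericPoint X.left) Cyc.le_gen (fun y => (h1 y).2.1) h2,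
    CX.pt_eq c i.left _⟩

end Pool.Agent.P.MP_12d50c_ag
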