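import Pool.Agent.P.MP_12d50c_ag.If5

/-!
Coordinates on the product with a simplex.
-/

open CategoryTheory AlgebraicGeometry IsLocalRing MvPolynomial Limits
open Pool.Agent.P.MP_638e8a_ag.Cyc (St Rf ev stm map_le sp_stm ev_stm stm_comp)

namespace Pool.Agent.P.MP_12d50c_ag

namespace CXD

/-- The first projection. -/
noncomputable def p1 (Y : Scheme.{0}) (n : ℕ) : XD Y n ⟶ Y := prod.fst

/-- The second projection. -/
noncomputable def p2 (Y : Scheme.{0}) (n : ℕ) : XD Y n ⟶ Spec (.of (SimplexRing n)) := prod.snd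

variable {F : Type} [Field F] {Y : Scheme.{0}} {κ : Y ⟶ Spec (.of F)} {N : ℕ} {I : Ideal (PP F N)}

theorem face_p1 {m n : ℕ} (g : Fin (m + 1) → Fin (n + 1)) : face Y g ≫ p1 Y n = p1 Y m := by
  simp [face, p1, XD]

theorem face_p2 {m n : ℕ} (g : Fin (m + 1) → Fin (n + 1)) :
    face Y g ≫ p2 Y n = p2 Y m ≫ Spec.map (CommRingCat.ofHom (simplexMap g)) := by
  simp [face, p2, XD]

theorem cstk_map {A B : Type} [CommRing A] [CommRing B] (k : Y ⟶ Spec (.of B)) (f : A →+* B)
    (y : Y) (a : A) : cstk (k ≫ Spec.map (CommRingCat.ofHom f)) y a = cstk k y (f a) := by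
  have h := fromSpecStalk_comp (k ≫ Spec.map (CommRingCat.ofHom f)) y
  rw [← Category.assoc, fromSpecStalk_comp, ← Spec.map_comp] at h
  exact (congrArg (fun g => g.hom a) (Spec.map_injective h)).symm

/-- The coordinates of a point of the product. -/
noncomputable def crd (c : CS κ 1 I) (n : ℕ) (y : XD Y n) : Ix N n → St y :=
  Sum.elim (fun i => stm (p1 Y n) y (c.s _ i))
    fun j => cstk (p2 Y n) y (Ideal.Quotient.mk _ (X j))

theorem hom (hI : Hom I) (n : ℕ) : WHom (wt N n) (cyl I n) := by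
  obtain ⟨S, h1, rfl⟩ := hI.exists_gen
  rw [cyl, Ideal.map_span]
  refine (wHom_span ?_).sup (wHom_span ?_)
  · rintro _ ⟨f, hf, rfl⟩
    obtain ⟨d, hd⟩ := h1 f hf
    refine ⟨d, fun s hs => ?_⟩
    obtain ⟨u, rfl, hu⟩ := coeff_rename_ne_zero _ _ _ hs
    rw [← hd hu, Finsupp.weight_apply, Finsupp.weight_apply,
      Finsupp.sum_mapDomain_index (by simp) (by simp [add_mul])]
    rfl
  · rintro _ rfl
    exact ⟨0, (IsWeightedHomogeneous.sum _ _ _ fun j _ =>
      isWeightedHomogeneous_X F (wt N n) (Sum.inr j)).sub (isWeightedHomogeneous_one F _)⟩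

theorem sum_X (n : ℕ) : ∑ j, (Ideal.Quotient.mk _ (X j) : SimplexRing n) = 1 := by
  rw [← map_sum, ← map_one (Ideal.Quotient.mk _), Ideal.Quotient.eq]
  exact Ideal.subset_span rfl

theorem w0 {R : Type} [Monoid R] (e x : R) {n : ℕ} (j : Fin (n + 1)) :
    e ^ wt N n (Sum.inr j) * x = x := by
  rw [show wt N n (Sum.inr j) = 0 from rfl, pow_zero, one_mul]

theorem sc_comp {Z : Scheme.{0}} {R : CommRingCat.{0}} [IsLocalRing R] (a : Spec R ⟶ Z) (f : Z ⟶ Y)
    (u : St (f (a (closedPoint R)))) : (Scheme.stalkClosedPointTo (a ≫ f)).hom u =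
      (Scheme.stalkClosedPointTo a).hom (stm f _ u) :=
  congrArg (fun g => g.hom u) (Scheme.stalkClosedPointTo_comp a f)

/-- The coordinate system on the product. -/
noncomputable def cs (c : CS κ 1 I) (n : ℕ) : CS (kap κ n) (wt N n) (cyl I n) where
  s := crd c n
  hom := hom c.hom n
  unit {x y} h := by
    obtain ⟨u, hu⟩ := c.unit (map_le (p1 Y n) h)
    refine ⟨Units.map (stm (p1 Y n) y).toMonoidHom u, ?_⟩
    rintro (i | j)
    · refine (congrArg (stm (p1 Y n) y) (hu i)).trans ?_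
      rw [map_mul, map_pow, ← sp_stm]
      rfl
    · exact (sp_cstk _ h _).symm.trans (w0 _ _ j).symm
  bpf y := by
    obtain ⟨i, -, h⟩ := c.bpf (p1 Y n y)
    exact ⟨Sum.inl i, rfl, h.map (stm (p1 Y n) y)⟩
  on y := by
    suffices h : cyl I n ≤ RingHom.ker ((ev (le_refl y)).comp
      (eval₂Hom (cstk (kap κ n) y) (crd c n y))) from h
    refine sup_le (Ideal.map_le_iff_le_comap.2 fun f hf => ?_)
      ((Ideal.span_singleton_le_iff_mem _).2 ?_)
    · change ev (le_refl y) (eval₂ (cstk (kap κ n) y) (crd c n y) (rename Sum.inl f)) = 0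
      have e : cstk (kap κ n) y = (stm (p1 Y n) y).comp (cstk κ _) :=
        RingHom.ext fun a => (stm_cstk (p1 Y n) κ y a).symm
      rw [eval₂_rename, e]
      refine Eq.trans (congrArg _ (eval₂_comp_left (stm (p1 Y n) y) _ (c.s _) f).symm) ?_
      rw [ev_stm, c.on _ f hf, map_zero]
    · rw [RingHom.mem_ker, RingHom.comp_apply, map_sub, map_one, map_sum]
      simp only [eval₂Hom_X', crd, Sum.elim_inr]
      rw [← map_sum, sum_X, map_one, sub_self, map_zero]
  sep R _ a b e h1 h2 := by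
    refine prod.hom_ext (c.sep R (a ≫ p1 Y n) (b ≫ p1 Y n) e ?_ fun i => ?_) ?_
    · rw [Category.assoc, Category.assoc]; exact h1
    · exact (sc_comp a _ _).trans ((h2 (Sum.inl i)).trans (congrArg _ (sc_comp b _ _).symm))
    · refine (comp_eq_cstk (p2 Y n) a).trans (Eq.trans ?_ (comp_eq_cstk (p2 Y n) b).symm)
      congr 2
      refine Ideal.Quotient.ringHom_ext (ringHom_ext' (RingHom.ext_int _ _) fun j => ?_)
      exact (h2 (Sum.inr j)).trans (w0 _ _ j)
  ex R _ _ k x h1 h2 := by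
    obtain ⟨a, e, h3, h4⟩ := c.ex R k (x ∘ Sum.inl) (by
      obtain ⟨i | j, h, h'⟩ := h1
      · exact ⟨i, rfl, h'⟩
      · exact absurd h zero_ne_one) fun f hf => by
        rw [← eval₂_rename]
        exact h2 _ (Ideal.mem_sup_left (Ideal.mem_map_of_mem _ hf))
    have h5 := h2 _ (Ideal.mem_sup_right (Ideal.subset_span rfl))
    let ρ : SimplexRing n →+* R := Ideal.Quotient.lift _
      (eval₂Hom (Int.castRingHom R) (x ∘ Sum.inr)) fun f hf => by
        obtain ⟨g, rfl⟩ := Ideal.mem_span_singleton'.1 hf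
        rw [← coe_eval₂Hom] at h5
        simp only [map_sub, map_sum, map_one, eval₂Hom_X', map_mul, Function.comp] at h5 ⊢
        rw [h5, mul_zero]
    let b : Spec R ⟶ XD Y n := prod.lift a (Spec.map (CommRingCat.ofHom ρ))
    have b1 : b ≫ p1 Y n = a := prod.lift_fst _ _
    have b2 : b ≫ p2 Y n = Spec.map (CommRingCat.ofHom ρ) := prod.lift_snd _ _
    refine ⟨b, e, ?_, ?_⟩
    · rw [← h3, ← b1, Category.assoc]; rfl
    rintro (i | j)
    · have key : ∀ a' : Spec R ⟶ Y, a' = a →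
          (Scheme.stalkClosedPointTo a').hom (c.s _ i) = e ^ 1 * x (Sum.inl i) := by
        rintro _ rfl; exact h4 i
      exact (sc_comp b _ _).symm.trans (key _ b1)
    · refine (congrArg (fun g => g.hom (Ideal.Quotient.mk _ (X j)))
        (Spec.map_injective ((comp_eq_cstk (p2 Y n) b).symm.trans b2))).trans ?_
      exact (eval₂Hom_X' _ _ j).trans (w0 _ _ j).symm

end CXD

open CXD in
theorem t_CXD : S_CXD := by
  intro F _ Y κ N I c
  refine ⟨cs c, fun m n g z => ⟨1, fun i => ?_, fun j => ?_⟩⟩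
  · have key : ∀ f : XD Y m ⟶ Y, f = p1 Y m → stm f z (c.s _ i) = stm (p1 Y m) z (c.s _ i) := by
      rintro _ rfl; rfl
    rw [Units.val_one, one_mul]
    exact (stm_comp (face Y g) (p1 Y n) z _).symm.trans (key _ (face_p1 g))
  · refine (stm_cstk (face Y g) (p2 Y n) z _).trans ?_
    rw [face_p2, cstk_map, simplexMap, Ideal.quotientMap_mk]
    simp [cs, crd]

end Pool.Agent.P.MP_12d50c_ag
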