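import Pool.Agent.P.MP_12d50c_ag.If1

/-! The intersection number with a smooth curve depends only on the degrees. -/

open MvPolynomial

namespace Pool.Agent.P.MP_12d50c_ag

namespace DEG

variable {k : Type} [Field k] [IsAlgClosed k] {N : ℕ} {Q : Ideal (PP k N)}

theorem degC_pow (hC : S_CURVE) (hQ : IsSm 1 Q) {g : PP k N} {e : ℕ} (hg : g.IsHomogeneous e)
    (hn : g ∉ Q) (n : ℕ) : degC Q (g ^ n) = n * degC Q g := by
  obtain ⟨-, c2, -, c4, c5, -⟩ := hC k N Q hQ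
  have hs : ∀ (f : PP k N) (d : ℕ), f.IsHomogeneous d → f ∉ Q →
      (Function.support fun y => (ordI Q y f).toNat).Finite := fun f d h1 h2 =>
    (c4 f d h1 h2).2.1.subset fun y hy => not_not.1 fun h =>
      hy (congrArg ENat.toNat ((c2 f d y h1).2 h))
  have hp : ∀ n, g ^ n ∉ Q := fun n h => hn (hQ.prime.mem_of_pow_mem n h)
  induction n with
  | zero =>
    rw [pow_zero, zero_mul]
    refine finsum_eq_zero_of_forall_eq_zero fun y => ?_
    rw [(c2 1 0 y (isHomogeneous_one _ _)).2 (by simp)]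
    rfl
  | succ n ih =>
    rw [pow_succ, add_one_mul, ← ih, degC, degC, degC,
      ← finsum_add_distrib (hs _ _ (hg.pow n) (hp n)) (hs _ _ hg hn)]
    refine finsum_congr fun y => ?_
    rw [c5 _ _ y (hp n) hn, ENat.toNat_add ((c4 _ _ (hg.pow n) (hp n)).1 y) ((c4 _ _ hg hn).1 y)]

omit [IsAlgClosed k] in
theorem deg_eq {I : Ideal (PP k N)} {a : PP k N} (h : CurveOf I a Q) (g : PP k N) :
    deg I a g = degC Q g := finsum_congr fun y => by rw [h.inter_eq]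

omit [IsAlgClosed k] in
theorem deg_comm (I : Ideal (PP k N)) (a b : PP k N) : deg I a b = deg I b a :=
  finsum_congr fun y => by rw [inter_comm]

omit [IsAlgClosed k] in
theorem notMem {I : Ideal (PP k N)} {a : PP k N} (h : CurveOf I a Q) : a ∉ I := by
  obtain ⟨i, hi⟩ := h.sm.rel
  exact ((h.cop _ 1 (isHomogeneous_X k i)).2 hi).nl

end DEG

open DEG in
theorem t_DEG : S_AV → S_EXG → S_GOODC → S_CURVE → S_NE → S_DEG := by
  intro hAV hEXG hG hC _ k _ _ N I n m hI hn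
  obtain ⟨c₀, h0, g0, -⟩ := (hEXG k N I ∅ hI Set.finite_empty).1 n hn
  obtain ⟨Q₀, q0⟩ := hG k N I c₀ n hI.toIsSm h0 hn g0
  obtain ⟨i, hi⟩ := q0.sm.rel
  have hb0 : (X i ^ m : PP k N).IsHomogeneous m := by simpa using (isHomogeneous_X k i).pow m
  have hb0' : (X i ^ m : PP k N) ∉ Q₀ := fun h => hi (q0.sm.prime.mem_of_pow_mem m h)
  refine ⟨degC Q₀ (X i ^ m), ((hC k N Q₀ q0.sm).2.2.2.1 _ m hb0 hb0').2.2,
    fun a b ha ga hb hab => ?_⟩
  obtain ⟨Q, q⟩ := hG k N I a n hI.toIsSm ha hn ga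
  obtain ⟨T, hT, -, t⟩ := hAV k N I a n ∅ hI.toIsSm ha (notMem q) Set.finite_empty
  obtain ⟨T₀, hT₀, -, t₀⟩ := hAV k N I c₀ n ∅ hI.toIsSm h0 (notMem q0) Set.finite_empty
  obtain ⟨c, hc, gc, hT'⟩ := (hEXG k N I _ hI (hT.union hT₀)).1 n hn
  obtain ⟨Q', q'⟩ := hG k N I c n hI.toIsSm hc hn gc
  have h1 := t c n hc fun y hy => hT' y (Or.inl hy)
  have h2 := t₀ c n hc fun y hy => hT' y (Or.inr hy)
  have h3 : degC Q c = degC Q₀ c := by
    rw [← deg_eq q, ← deg_eq q0, deg_comm I a, deg_comm I c₀, deg_eq q', deg_eq q']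
    exact ((hC k N Q' q'.sm).2.2.2.2.2 a c₀ n ha h0 ((q'.cop a n ha).1 h1.symm)
      ((q'.cop c₀ n h0).1 h2.symm)).1
  have key : ∀ (P : Ideal (PP k N)) (f : PP k N), IsSm 1 P → f.IsHomogeneous m → f ∉ P → c ∉ P →
      n * degC P f = m * degC P c := fun P f hP hf h4 h5 => by
    rw [← degC_pow hC hP hf h4, ← degC_pow hC hP hc h5]
    exact ((hC k N P hP).2.2.2.2.2 _ _ (m * n) (hf.pow n) (mul_comm n m ▸ hc.pow m)
      (fun h => h4 (hP.prime.mem_of_pow_mem _ h)) fun h => h5 (hP.prime.mem_of_pow_mem _ h)).1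
  refine Nat.eq_of_mul_eq_mul_left hn ?_
  rw [deg_eq q, key Q b q.sm hb ((q.cop b m hb).1 hab) ((q.cop c n hc).1 h1),
    key Q₀ _ q0.sm hb0 hb0' ((q0.cop c n hc).1 h2), h3]

end Pool.Agent.P.MP_12d50c_ag
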