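import Pool.Agent.P.MP_12d50c_ag.If1

/-!
The points of a smooth curve are the places of its function field.
-/

open MvPolynomial IsLocalRing WithZero
open Pool.Agent.P.MP_6f117a_ag (Place FF Model Reg)

namespace Pool.Agent.P.MP_12d50c_ag

namespace DICT

section Dvr

variable {R E : Type} [CommRing R] [IsDomain R] [IsDiscreteValuationRing R] [Field E]
  [Algebra R E] [IsFractionRing R E] {v : Valuation E ℤᵐ⁰}

omit [IsDomain R] [IsDiscreteValuationRing R] [IsFractionRing R E] in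
theorem v_unit (h1 : ∀ r : R, v (algebraMap R E r) ≤ 1) (u : Rˣ) : v (algebraMap R E u) = 1 := by
  refine le_antisymm (h1 _) ?_
  have h : v (algebraMap R E u) * v (algebraMap R E (u⁻¹ : Rˣ)) = 1 := by
    rw [← map_mul, ← map_mul, Units.mul_inv, map_one, map_one]
  calc (1 : ℤᵐ⁰) = _ := h.symm
    _ ≤ v (algebraMap R E u) * 1 := mul_le_mul_right (h1 _) _
    _ = _ := mul_one _

theorem v_irr (hs : Function.Surjective v) (h1 : ∀ r : R, v (algebraMap R E r) ≤ 1)
    (h2 : ∀ r : R, ¬ IsUnit r → v (algebraMap R E r) < 1) {ϖ : R} (hϖ : Irreducible ϖ) :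
    v (algebraMap R E ϖ) = exp (-1 : ℤ) := by
  have h0 : v (algebraMap R E ϖ) ≠ 0 := by simpa using hϖ.ne_zero
  have h3 := h2 ϖ hϖ.not_isUnit
  obtain ⟨x, hx⟩ := hs (exp (-1 : ℤ))
  have hx0 : x ≠ 0 := by
    rintro rfl
    rw [map_zero] at hx
    exact exp_ne_zero hx.symm
  obtain ⟨n, u, rfl⟩ := IsDiscreteValuationRing.exists_units_eq_smul_zpow_of_irreducible hϖ hx0
  rw [Units.smul_def, Algebra.smul_def, map_mul, v_unit h1, one_mul, map_zpow₀] at hx
  rw [← exp_log h0] at hx h3 ⊢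
  rw [← exp_zero, exp_lt_exp] at h3
  rw [← exp_zsmul, exp_inj, smul_eq_mul] at hx
  congr 1
  have h4 : log (v (algebraMap R E ϖ)) ∣ 1 := ⟨-n, by linarith⟩
  rcases Int.isUnit_iff.1 (isUnit_of_dvd_one h4) with h5 | h5
  · omega
  · exact h5

theorem v_eq {v' : Valuation E ℤᵐ⁰} (hs : Function.Surjective v)
    (h1 : ∀ r : R, v (algebraMap R E r) ≤ 1) (h2 : ∀ r : R, ¬ IsUnit r → v (algebraMap R E r) < 1)
    (hs' : Function.Surjective v') (h1' : ∀ r : R, v' (algebraMap R E r) ≤ 1)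
    (h2' : ∀ r : R, ¬ IsUnit r → v' (algebraMap R E r) < 1) : v = v' := by
  obtain ⟨ϖ, hϖ⟩ := IsDiscreteValuationRing.exists_irreducible R
  ext x
  by_cases hx : x = 0
  · rw [hx, map_zero, map_zero]
  obtain ⟨n, u, rfl⟩ := IsDiscreteValuationRing.exists_units_eq_smul_zpow_of_irreducible hϖ hx
  rw [Units.smul_def, Algebra.smul_def, map_mul, map_mul, v_unit h1, v_unit h1', map_zpow₀,
    map_zpow₀, v_irr hs h1 h2 hϖ, v_irr hs' h1' h2' hϖ]

theorem v_len (hs : Function.Surjective v) (h1 : ∀ r : R, v (algebraMap R E r) ≤ 1)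
    (h2 : ∀ r : R, ¬ IsUnit r → v (algebraMap R E r) < 1) {r : R} (hr : r ≠ 0) :
    ∃ n : ℕ, lq (Ideal.span {r}) = n ∧ v (algebraMap R E r) = exp (-(n : ℤ)) := by
  obtain ⟨ϖ, hϖ⟩ := IsDiscreteValuationRing.exists_irreducible R
  obtain ⟨n, u, rfl⟩ := IsDiscreteValuationRing.eq_unit_mul_pow_irreducible hr hϖ
  refine ⟨n, ?_, ?_⟩
  · rw [Ideal.span_singleton_mul_left_unit u.isUnit, ← Ideal.span_singleton_pow,
      ← hϖ.maximalIdeal_eq]
    exact IsDiscreteValuationRing.length_quotient_pow_maximalIdeal R n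
  · rw [map_mul, map_mul, v_unit h1, one_mul, map_pow, map_pow, v_irr hs h1 h2 hϖ, ← exp_nsmul]
    simp

end Dvr

variable {k : Type} [Field k] {N : ℕ} {E : Type} [Field E] [Algebra k E] {ξ : Fin (N + 1) → E}

/-- The place `P` is centred at the point `y`. -/
def Cen (ξ : Fin (N + 1) → E) (y : NP k N) (P : Place k E) : Prop :=
  ξ y.piv ≠ 0 ∧ ∀ j, P.v (ξ j / ξ y.piv - algebraMap k E (y.1 j)) < 1

theorem le_of_cong (P : Place k E) {x : E} {c : k} (h : P.v (x - algebraMap k E c) < 1) :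
    P.v x ≤ 1 := by
  have := P.v.map_add_le h.le (P.triv c)
  rwa [sub_add_cancel] at this

theorem eq_of_cong (P : Place k E) {x : E} {c : k} (h : P.v (x - algebraMap k E c) < 1)
    (hc : c ≠ 0) : P.v x = 1 := by
  have := P.v.map_add_eq_of_lt_right (h.trans_eq (P.v_const hc).symm)
  rwa [sub_add_cancel, P.v_const hc] at this

theorem cong_mul (P : Place k E) {x x' : E} {c c' : k} (h : P.v (x - algebraMap k E c) < 1)
    (h' : P.v (x' - algebraMap k E c') < 1) : P.v (x * x' - algebraMap k E (c * c')) < 1 := by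
  have e : x * x' - algebraMap k E (c * c') =
      x * (x' - algebraMap k E c') + (x - algebraMap k E c) * algebraMap k E c' := by
    rw [map_mul]
    ring
  rw [e]
  refine P.v.map_add_lt ?_ ?_
  · rw [map_mul]
    exact mul_lt_one_of_nonneg_of_lt_one_right (le_of_cong P h) zero_le h'
  · rw [map_mul]
    exact mul_lt_one_of_nonneg_of_lt_one_left zero_le h (P.triv c')

theorem zero_of_lt (P : Place k E) {c : k} (h : P.v (algebraMap k E c) < 1) : c = 0 :=
  by_contra fun hc => h.ne (P.v_const hc)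

theorem Cen.cong {y : NP k N} {P : Place k E} (h : Cen ξ y P) (g : PP k N) :
    P.v (aeval (fun j => ξ j / ξ y.piv) g - algebraMap k E (aeval y.1 g)) < 1 := by
  induction g using MvPolynomial.induction_on with
  | C c => simp
  | add f g hf hg =>
    rw [map_add, map_add, map_add, add_sub_add_comm]
    exact P.v.map_add_lt hf hg
  | mul_X f i hf =>
    rw [map_mul, map_mul, aeval_X, aeval_X]
    exact cong_mul P hf (h.2 i)

theorem Cen.cong' {y : NP k N} {P : Place k E} (h : Cen ξ y P) {g : PP k N} {e : ℕ}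
    (hg : g.IsHomogeneous e) :
    P.v (aeval ξ g / ξ y.piv ^ e - algebraMap k E (aeval y.1 g)) < 1 := by
  have h1 := h.cong g
  simp only [div_eq_inv_mul] at h1 ⊢
  rwa [aeval_smul hg, inv_pow] at h1

theorem Cen.le {y : NP k N} {P : Place k E} (h : Cen ξ y P) : van k ξ ≤ van k y.1 := by
  refine (wHom_vanw ξ).le_of_hom fun f d hf h1 => (mem_van_of_hom hf).2 (zero_of_lt P ?_)
  have h2 := h.cong' hf
  rwa [(mem_van_of_hom hf).1 h1, zero_div, zero_sub, Valuation.map_neg] at h2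

theorem Cen.unique {y y' : NP k N} {P : Place k E} (h : Cen ξ y P) (h' : Cen ξ y' P) : y = y' := by
  refine NP.eq_of_minors fun i j => sub_eq_zero.1 (zero_of_lt P ?_)
  have h1 := P.v.map_sub_lt (cong_mul P (h.2 j) (h'.2 i)) (cong_mul P (h.2 i) (h'.2 j))
  rwa [show ξ j / ξ y.piv * (ξ i / ξ y'.piv) - algebraMap k E (y.1 j * y'.1 i) -
      (ξ i / ξ y.piv * (ξ j / ξ y'.piv) - algebraMap k E (y.1 i * y'.1 j)) =
      algebraMap k E (y.1 i * y'.1 j - y.1 j * y'.1 i) by rw [map_sub]; ring] at h1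

theorem exists_cen (P : Place k E) (hres : ∀ x : E, P.v x ≤ 1 → ∃ c, P.v (x - algebraMap k E c) < 1)
    {i : Fin (N + 1)} (hi : ξ i ≠ 0) : ∃ y : NP k N, Cen ξ y P := by
  obtain ⟨i₀, h0⟩ := Finite.exists_max fun j => P.v (ξ j)
  have hp : 0 < P.v (ξ i₀) := (zero_lt_iff.2 (by simpa using hi)).trans_le (h0 i)
  have hn : ξ i₀ ≠ 0 := by simpa using hp.ne'
  have h1 : ∀ j, P.v (ξ j / ξ i₀) ≤ 1 := fun j => by
    rw [map_div₀]
    exact div_le_one_of_le₀ (h0 j) zero_le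
  choose c hc using fun j => hres _ (h1 j)
  have hc0 : c ≠ 0 := fun h => by
    have := hc i₀
    rw [h, div_self hn] at this
    simp at this
  obtain ⟨y, t, ht, rfl⟩ := NP.exists_smul hc0
  have h2 : P.v (ξ y.piv / ξ i₀ - algebraMap k E (t * y.1 y.piv)) < 1 := hc y.piv
  rw [y.piv_eq, mul_one] at h2
  have h3 := eq_of_cong P h2 ht
  have h4 : ξ y.piv ≠ 0 := fun h => by
    rw [h, zero_div, map_zero] at h3
    exact zero_ne_one h3
  refine ⟨y, h4, fun j => ?_⟩
  have e : ξ j / ξ y.piv - algebraMap k E (y.1 j) =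
      (ξ j / ξ i₀ - algebraMap k E (t * y.1 j) -
        algebraMap k E (y.1 j) * (ξ y.piv / ξ i₀ - algebraMap k E t)) / (ξ y.piv / ξ i₀) := by
    rw [map_mul]
    field_simp
    ring
  rw [e, map_div₀, h3, div_one]
  refine P.v.map_sub_lt (hc j) ?_
  rw [map_mul]
  exact mul_lt_one_of_nonneg_of_lt_one_right (P.triv _) zero_le h2

theorem fg_top (hg : Gen k 1 ξ) : (⊤ : IntermediateField k E).FG := by
  have h : IntermediateField.adjoin k (Set.range ξ) = ⊤ := by
    refine eq_top_iff.2 fun u _ => ?_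
    obtain ⟨d, g, h, -, -, h1, h2⟩ := hg u
    exact (IntermediateField.mem_adjoin_range_iff k ξ u).2 ⟨g, h, eq_div_of_mul_eq h1 h2⟩
  rw [← h]
  exact IntermediateField.fg_adjoin_of_finite (Set.finite_range ξ)

theorem hom_lin (y : NP k N) (j : Fin (N + 1)) :
    (X j - C (y.1 j) * X y.piv : PP k N).IsHomogeneous 1 :=
  (isHomogeneous_X k j).sub (isHomogeneous_C_mul_X _ _)

theorem loc (hLOC : S_LOC) (hFL : S_FL) (hREG : S_REG) (hQ : IsSm 1 (van k ξ)) (hg : Gen k 1 ξ)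
    (y : NP k N) (hy : On (van k ξ) y.1) :
    (∃ P : Place k E, Cen ξ y P) ∧ (∀ P P' : Place k E, Cen ξ y P → Cen ξ y P' → P = P') ∧
    ∀ P : Place k E, Cen ξ y P → ∀ (g : PP k N) (e : ℕ), g.IsHomogeneous e → g ∉ van k ξ →
      ordI (van k ξ) y g ≠ ⊤ ∧
      P.v (aeval ξ g / ξ y.piv ^ e) = exp (-((ordI (van k ξ) y g).toNat : ℤ)) := by
  have hle : van k ξ ≤ van k y.1 := hQ.hom.on_iff.1 hy
  have h : Ch 1 ξ (van k y.1) y.piv := ⟨hle, rfl, y.X_piv_notMem⟩
  obtain ⟨_, hN, hu, hq, hF⟩ := hLOC k _ 1 E ξ (van k y.1) y.piv h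
  have hF := hF hg
  obtain ⟨hd, hl⟩ := hFL k _ 1 E ξ (van k y.1) y.piv h (wHom_vanw _)
  obtain ⟨hd', c, hc⟩ := (hREG k N _ y hQ.hom hy).2 1 hQ
  have hl' : ∀ (g : PP k N) (e : ℕ), g.IsHomogeneous e →
      lq (Ideal.span {germ h g}) = ordI (van k ξ) y g := fun g e hg => by
    have := hl (Ideal.span {g}) (wHom_span fun f hf => ⟨e, hf ▸ hg⟩)
    rwa [Ideal.map_span, Set.image_singleton] at this
  have hnf : ¬ IsField (locw 1 ξ (van k y.1)) := fun hf => by
    rw [ringKrullDim_eq_zero_of_isField hf, hd'] at hd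
    norm_cast at hd
  have hpr : (maximalIdeal (locw 1 ξ (van k y.1))).IsPrincipal := by
    have h1 := hl' _ 1 (hom_lin y (c default))
    rw [ordI, len_sup, Ideal.map_span, Set.image_singleton, ← Set.range_unique
      (f := fun j => toL (van k ξ) (van k y.1) (X (c j) - C (y.1 (c j)) * X y.piv)), ← hc, mQ,
      ← len_sup, sup_eq_right.2 hle, len_self, lq, Module.length_eq_one_iff,
      isSimpleModule_iff_isCoatom, ← Ideal.isMaximal_def] at h1
    exact ⟨_, (eq_maximalIdeal h1).symm⟩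
  have hD : IsDiscreteValuationRing (locw 1 ξ (van k y.1)) :=
    ((IsDiscreteValuationRing.TFAE _ hnf).out 0 4).2 hpr
  have hdom : ∀ P : Place k E, Cen ξ y P →
      (∀ r : locw 1 ξ (van k y.1), P.v (algebraMap _ E r) ≤ 1) ∧
      ∀ r : locw 1 ξ (van k y.1), ¬ IsUnit r → P.v (algebraMap _ E r) < 1 := fun P hP => by
    have key : ∀ r : locw 1 ξ (van k y.1), ∃ (d : ℕ) (g : PP k N), g.IsHomogeneous d ∧
        P.v (algebraMap _ E r) = P.v (aeval ξ g / ξ y.piv ^ d) ∧ (g ∉ van k y.1 → IsUnit r) := by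
      intro r
      obtain ⟨d, g, g', h1, h2, h3, h4⟩ := hq r
      refine ⟨d, g, h1, ?_, fun h5 => isUnit_of_mul_isUnit_left (h4 ▸ (hu g d h1).2 h5)⟩
      have h5 : (r : E) * germ h g' = germ h g := congrArg Subtype.val h4
      rw [coe_germ_of_hom h h1, coe_germ_of_hom h h2] at h5
      rw [← h5, map_mul, eq_of_cong P (hP.cong' h2) fun h6 => h3 ((mem_van_of_hom h2).2 h6),
        mul_one]
      rfl
    refine ⟨fun r => ?_, fun r hr => ?_⟩
    · obtain ⟨d, g, h1, h2, -⟩ := key r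
      exact h2 ▸ le_of_cong P (hP.cong' h1)
    · obtain ⟨d, g, h1, h2, h3⟩ := key r
      have h4 := hP.cong' h1
      rwa [(mem_van_of_hom h1).1 (by_contra fun h5 => hr (h3 h5)), map_zero, sub_zero, ← h2] at h4
  refine ⟨⟨⟨(IsDiscreteValuationRing.maximalIdeal (locw 1 ξ (van k y.1))).valuation E,
    IsDedekindDomain.HeightOneSpectrum.valuation_surjective E _, fun a => ?_⟩, h.ne, fun j => ?_⟩,
    fun P P' hP hP' => Place.ext' (v_eq P.surj (hdom P hP).1 (hdom P hP).2 P'.surj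
      (hdom P' hP').1 (hdom P' hP').2), fun P hP g e h1 h2 => ?_⟩
  · rw [IsScalarTower.algebraMap_apply k (locw 1 ξ (van k y.1)) E]
    exact IsDedekindDomain.HeightOneSpectrum.valuation_le_one _ _
  · have h1 : ξ j / ξ y.piv - algebraMap k E (y.1 j) =
        algebraMap (locw 1 ξ (van k y.1)) E (germ h (X j - C (y.1 j) * X y.piv)) := by
      refine Eq.trans ?_ (coe_germ_of_hom h (hom_lin y j)).symm
      have := h.ne
      simp only [map_sub, map_mul, aeval_X, aeval_C, pow_one]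
      field_simp
    rw [h1]
    refine (IsDedekindDomain.HeightOneSpectrum.valuation_lt_one_iff_mem _ _).2 ?_
    refine (mem_maximalIdeal _).2 fun h2 => (hu _ 1 (hom_lin y j)).1 h2 ?_
    rw [mem_van_of_hom (hom_lin y j)]
    simp [y.piv_eq]
  · have h3 : (germ h g : E) = aeval ξ g / ξ y.piv ^ e := coe_germ_of_hom h h1
    have h4 : germ h g ≠ 0 := fun h5 => by
      rw [h5, ZeroMemClass.coe_zero, eq_comm, div_eq_zero_iff] at h3
      exact h3.elim (fun h6 => h2 ((mem_van_of_hom h1).2 h6)) (pow_ne_zero _ h.ne)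
    obtain ⟨n, h5, h6⟩ := v_len P.surj (hdom P hP).1 (hdom P hP).2 h4
    rw [← hl' g e h1, h5, ← h3]
    exact ⟨ENat.natCast_ne_top n, by rw [ENat.toNat_natCast]; exact h6⟩

end DICT

theorem t_DICT : S_EX → S_DM → S_LOC → S_FL → S_REG → S_NS0 → S_PLACE → S_DICT := by
  intro hEX hDM hLOC hFL hREG _ hPL k _ _ N Q hQ
  have := hQ.prime
  obtain ⟨i, hi⟩ := hQ.rel
  obtain ⟨E, _, _, ξ, rfl, h1, hg⟩ := hEX k _ 1 Q i hQ.hom rfl hi
  have h0 : ξ i ≠ 0 := h1 ▸ one_ne_zero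
  obtain ⟨n, h2, h3⟩ := hDM k _ 1 E ξ i hg rfl h0
  have hn : n = 1 := by
    rw [hQ.dim] at h3
    norm_cast at h3
    omega
  have hFF : FF k E := FF.of_fg (DICT.fg_top hg) (by rw [h2, hn, Nat.cast_one])
  have H := fun y : {y : NP k N // On (van k ξ) y.1} => DICT.loc hLOC hFL hREG hQ hg y.1 y.2
  choose pl hpl using fun y => (H y).1
  have hb : Function.Bijective pl := by
    refine ⟨fun y y' h => Subtype.ext ((hpl y).unique (h ▸ hpl y')), fun P => ?_⟩
    obtain ⟨y, hy⟩ := DICT.exists_cen P ((hPL k E).2.2.2.2.2.2.1 P) h0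
    exact ⟨⟨y, hQ.hom.on_iff.2 hy.le⟩, (H _).2.1 _ _ (hpl _) hy⟩
  exact ⟨E, _, _, hFF, ξ, Equiv.ofBijective pl hb, rfl, hg, fun y => (hpl y).1,
    fun y => (H y).2.2 _ (hpl y)⟩

end Pool.Agent.P.MP_12d50c_ag
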