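import Pool.Agent.P.MP_12d50c_ag.If1
import Pool.Agent.P.MP_638e8a_ag.ChDim0

/-!
The dimension of the cone over a generic point.
-/

open MvPolynomial

namespace Pool.Agent.P.MP_12d50c_ag

namespace DM

variable {k : Type} [Field k] {τ : Type} {w : τ → ℕ} {L : Type} [Field L] [Algebra k L]

/-- The twisted evaluation. -/
noncomputable abbrev th (k : Type) [Field k] [Algebra k L] (w : τ → ℕ) (ξ : τ → L) :
    MvPolynomial τ k →ₐ[k] Polynomial L :=
  aeval fun i => Polynomial.C (ξ i) * Polynomial.X ^ w i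

/-- Quotients of values of the twisted evaluation. -/
def Quo (k : Type) [Field k] [Algebra k L] (w : τ → ℕ) (ξ : τ → L) (p : Polynomial L) : Prop :=
  ∃ a b, th k w ξ b ≠ 0 ∧ th k w ξ a = p * th k w ξ b

theorem Quo.add {ξ : τ → L} {p q : Polynomial L} (hp : Quo k w ξ p) (hq : Quo k w ξ q) :
    Quo k w ξ (p + q) := by
  obtain ⟨a, b, hb, h⟩ := hp
  obtain ⟨a', b', hb', h'⟩ := hq
  refine ⟨a * b' + a' * b, b * b', by rw [map_mul]; exact mul_ne_zero hb hb', ?_⟩
  rw [map_add, map_mul, map_mul, map_mul, h, h']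
  ring

theorem Quo.mul {ξ : τ → L} {p q : Polynomial L} (hp : Quo k w ξ p) (hq : Quo k w ξ q) :
    Quo k w ξ (p * q) := by
  obtain ⟨a, b, hb, h⟩ := hp
  obtain ⟨a', b', hb', h'⟩ := hq
  refine ⟨a * a', b * b', by rw [map_mul]; exact mul_ne_zero hb hb', ?_⟩
  rw [map_mul, map_mul, h, h']
  ring

theorem quo_C {ξ : τ → L} (hG : Gen k w ξ) (u : L) : Quo k w ξ (Polynomial.C u) := by
  obtain ⟨d, g, h, hg, hh, h0, hu⟩ := hG u
  refine ⟨g, h, ?_, ?_⟩
  · rw [th, aeval_tw hh]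
    exact mul_ne_zero (Polynomial.C_ne_zero.2 h0) (pow_ne_zero _ Polynomial.X_ne_zero)
  · rw [th, aeval_tw hh, aeval_tw hg, ← hu, map_mul, mul_assoc]

theorem quo_X {ξ : τ → L} (hG : Gen k w ξ) {i : τ} (hw : w i = 1) (hi : ξ i ≠ 0) :
    Quo k w ξ Polynomial.X := by
  have h1 : Quo k w ξ (Polynomial.C (ξ i) * Polynomial.X) :=
    ⟨X i, 1, by simp, by simp [hw]⟩
  have h2 := (quo_C hG (ξ i)⁻¹).mul h1
  rwa [← mul_assoc, ← map_mul, inv_mul_cancel₀ hi, map_one, one_mul] at h2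

theorem quo_all {ξ : τ → L} (hG : Gen k w ξ) {i : τ} (hw : w i = 1) (hi : ξ i ≠ 0)
    (p : Polynomial L) : Quo k w ξ p := by
  induction p using Polynomial.induction_on with
  | C a => exact quo_C hG a
  | add p q hp hq => exact hp.add hq
  | monomial n a h => rw [pow_succ, ← mul_assoc]; exact h.mul (quo_X hG hw hi)

end DM

open DM in
theorem t_DM : S_DM := by
  intro k _ τ _ w L _ _ ξ i hG hw hi
  let ι : Polynomial L →ₐ[k] FractionRing (Polynomial L) := IsScalarTower.toAlgHom k _ _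
  have hι : Function.Injective ι := IsFractionRing.injective _ _
  have hfr : ∀ c : FractionRing (Polynomial L), ∃ a b, ι b ≠ 0 ∧ ι a = c * ι b := by
    intro c
    obtain ⟨a, b, hb, rfl⟩ := IsFractionRing.div_surjective (A := Polynomial L) c
    have hb0 : ι b ≠ 0 := (map_ne_zero_iff _ hι).2 (nonZeroDivisors.ne_zero hb)
    exact ⟨a, b, hb0, (div_mul_cancel₀ _ hb0).symm⟩
  obtain ⟨n, h1, h2⟩ := Pool.Agent.P.MP_638e8a_ag.Cyc.Dim0.dim_ker (ι.comp (th k w ξ))
    (fun c => by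
      obtain ⟨p, q, hq, hc⟩ := hfr c
      obtain ⟨a, b, hb, h⟩ := quo_all hG hw hi p
      obtain ⟨a', b', hb', h'⟩ := quo_all hG hw hi q
      have hq0 : q ≠ 0 := (map_ne_zero_iff _ hι).1 hq
      refine ⟨a * b', b * a', ?_, ?_⟩
      · rw [AlgHom.comp_apply, map_ne_zero_iff _ hι, map_mul, h']
        exact mul_ne_zero hb (mul_ne_zero hq0 hb')
      · simp only [AlgHom.comp_apply, map_mul, h, h', hc]
        ring)
    (vanw k w ξ) fun a => by
      rw [AlgHom.comp_apply, map_eq_zero_iff _ hι]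
      rfl
  rw [← Pool.Agent.P.MP_638e8a_ag.Cyc.Dim0.trdeg_frac ι hι hfr,
    ← trdeg_add_eq k L (A := Polynomial L), Polynomial.trdeg_of_isDomain] at h2
  have h3 : Algebra.trdeg k L < Cardinal.aleph0 :=
    lt_of_le_of_lt (le_self_add.trans h2.le) Cardinal.natCast_lt_aleph0
  obtain ⟨t, ht⟩ := Cardinal.lt_aleph0.1 h3
  refine ⟨t, ht, ?_⟩
  rw [ht] at h2
  have h4 : t + 1 = n := by exact_mod_cast h2
  rw [h1, h4]

end Pool.Agent.P.MP_12d50c_ag
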