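import Pool.Agent.P.MP_12d50c_ag.If1

/-!
The main theorem of elimination theory.
-/

open MvPolynomial

namespace Pool.Agent.P.MP_12d50c_ag

namespace ELIM

variable {N : ℕ}

/-- If all variables are in the radical, all monomials of some degree are in the ideal. -/
theorem exists_deg {T : Type} [CommRing T] {B : Ideal (PP T N)} (h : ∀ i, X i ∈ B.radical) :
    ∃ n : ℕ, ∀ s : Fin (N + 1) →₀ ℕ, s.degree = n → monomial s 1 ∈ B := by
  choose e he using h
  refine ⟨∑ i, e i, fun s hs => ?_⟩
  rw [Finsupp.degree_eq_sum] at hs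
  obtain ⟨i, -, hi⟩ := Finset.exists_le_of_sum_le Finset.univ_nonempty hs.ge
  have h1 : s = (s - Finsupp.single i (e i)) + Finsupp.single i (e i) :=
    (tsub_add_cancel_of_le (Finsupp.single_le_iff.2 hi)).symm
  rw [h1, monomial_add_single]
  exact B.mul_mem_left _ (he i)

/-- The Nakayama step. -/
theorem nak {R k : Type} [CommRing R] [CommRing k] (φ : R →+* k) (hφ : Function.Surjective φ)
    (S : Set (PP R N)) (hS : ∀ g ∈ S, ∃ d, g.IsHomogeneous d) (n : ℕ)
    (h : ∀ s : Fin (N + 1) →₀ ℕ, s.degree = n →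
      monomial s 1 ∈ (Ideal.span S).map (MvPolynomial.map φ)) :
    ∃ r : R, φ r = 1 ∧ ∀ s : Fin (N + 1) →₀ ℕ, s.degree = n →
      C r * monomial s 1 ∈ Ideal.span S := by
  letI : GradedAlgebra (homogeneousSubmodule (Fin (N + 1)) R) := MvPolynomial.gradedAlgebra
  have hA : (Ideal.span S).IsHomogeneous (homogeneousSubmodule (Fin (N + 1)) R) :=
    Ideal.homogeneous_span _ _ hS
  have key : homogeneousSubmodule (Fin (N + 1)) R n ≤ (Ideal.span S).restrictScalars R ⊔
      RingHom.ker φ • homogeneousSubmodule (Fin (N + 1)) R n := by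
    intro f hf
    have hf' : f.IsHomogeneous n := hf
    have h1 : MvPolynomial.map φ f ∈ (Ideal.span S).map (MvPolynomial.map φ) := by
      rw [← form_coeff hf', map_form, form]
      refine Ideal.sum_mem _ fun s _ => ?_
      rw [← mul_one (φ _), ← C_mul_monomial]
      exact Ideal.mul_mem_left _ _ (h s.1 s.2)
    obtain ⟨a, ha, h2⟩ := (Ideal.mem_map_iff_of_surjective _ (map_surjective φ hφ)).1 h1
    have h3 : (f - homogeneousComponent n a).IsHomogeneous n :=
      hf'.sub (homogeneousComponent_isHomogeneous n a)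
    have h4 : f = homogeneousComponent n a + (f - homogeneousComponent n a) := by ring
    rw [h4]
    refine Submodule.add_mem_sup (homogeneousComponent_mem_of_mem hA ha n) ?_
    rw [← form_coeff h3, form]
    refine Submodule.sum_mem _ fun s _ => ?_
    rw [← mul_one (coeff _ _), ← smul_eq_mul, ← smul_monomial]
    refine Submodule.smul_mem_smul ?_ (isHomogeneous_monomial _ s.2)
    rw [RingHom.mem_ker, coeff_sub, coeff_homogeneousComponent, if_pos s.2, map_sub,
      ← coeff_map, ← coeff_map, h2, sub_self]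
  obtain ⟨r, hr, h5⟩ := Submodule.exists_sub_one_mem_and_smul_le_of_fg_of_le_sup
    (homogeneousSubmodule_fg (Fin (N + 1)) R n) le_rfl key
  refine ⟨r, ?_, fun s hs => ?_⟩
  · rwa [RingHom.mem_ker, map_sub, map_one, sub_eq_zero] at hr
  · rw [← smul_eq_C_mul]
    exact h5 (Submodule.smul_mem_pointwise_smul _ _ _ (isHomogeneous_monomial _ hs))

end ELIM

open ELIM in
theorem t_ELIM : S_NSP → S_ELIM := by
  intro hNSP k _ _ N J _ S hS
  let E : Set (MvPolynomial J k) := {Φ | ∃ n : ℕ, ∀ s : Fin (N + 1) →₀ ℕ, s.degree = n →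
    C Φ * monomial s 1 ∈ Ideal.span S}
  have h2 : (Ideal.span E).FG := IsNoetherian.noetherian _
  obtain ⟨T, hT, h3⟩ := (Submodule.fg_span_iff_fg_span_finset_subset _).1 h2
  refine ⟨T, fun w => ⟨?_, fun h => ?_⟩⟩
  · rintro ⟨y, hy⟩ Φ hΦ
    obtain ⟨n, hn⟩ := hT hΦ
    have h4 : Ideal.span S ≤ RingHom.ker (eval₂Hom (eval w) y.1) := Ideal.span_le.2 hy
    have h5 := h4 (hn (Finsupp.single y.piv n) (by simp))
    rw [RingHom.mem_ker, ← X_pow_eq_monomial] at h5
    simpa [y.piv_eq] using h5
  · by_contra hno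
    have hsurj : Function.Surjective (eval w : MvPolynomial J k →+* k) :=
      fun c => ⟨C c, eval_C c⟩
    have hB : (Ideal.span S).map (MvPolynomial.map (eval w)) =
        Ideal.span (MvPolynomial.map (eval w) '' S) := Ideal.map_span _ _
    have hH : Hom ((Ideal.span S).map (MvPolynomial.map (eval w))) := by
      rw [hB]
      refine wHom_span ?_
      rintro _ ⟨g, hg, rfl⟩
      obtain ⟨d, hd⟩ := hS g hg
      exact ⟨d, hd.map _⟩
    have hX : ∀ i, X i ∈ ((Ideal.span S).map (MvPolynomial.map (eval w))).radical := by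
      intro i
      refine (hNSP k N).1 _ _ 1 hH (isHomogeneous_X k i) one_pos fun y hy => ?_
      refine (hno ⟨y, fun g hg => ?_⟩).elim
      have h6 := hy _ (Ideal.mem_map_of_mem _ (Ideal.subset_span hg))
      rwa [aeval_eq_eval, eval_map] at h6
    obtain ⟨n, hn⟩ := exists_deg hX
    obtain ⟨r, hr, h7⟩ := nak (eval w) hsurj S hS n hn
    have h8 : r ∈ Ideal.span E := Ideal.subset_span ⟨n, h7⟩
    have h9 : Ideal.span E ≤ RingHom.ker (eval w) := by
      refine le_trans (le_of_eq h3) (Ideal.span_le.2 fun Φ hΦ => h Φ hΦ)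
    have h10 := h9 h8
    rw [RingHom.mem_ker, hr] at h10
    exact one_ne_zero h10

end Pool.Agent.P.MP_12d50c_ag
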