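import Pool.Agent.P.MP_12d50c_ag.If3

/-!
A rational form separating finitely many points.
-/

open MvPolynomial Function

namespace Pool.Agent.P.MP_12d50c_ag

namespace ELL

variable {k : Type} [Field k] {N m : ℕ}

/-- Evaluation of forms at a point. -/
noncomputable def ev (m : ℕ) (y : NP k N) : (Mon N m → k) →ₗ[k] k where
  toFun w := aeval y.1 (form w)
  map_add' a b := by rw [form_add, map_add]
  map_smul' t a := by rw [form_smul, map_mul, aeval_C]; rfl

theorem lin {J : Type} [Fintype J] (f : (J → k) →ₗ[k] k) :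
    ∃ L : MvPolynomial J k, L.totalDegree ≤ 1 ∧ ∀ w, eval w L = f w := by
  classical
  refine ⟨∑ s, C (f fun j => if s = j then 1 else 0) * X s, ?_, fun w => ?_⟩
  · refine totalDegree_finsetSum_le fun s _ => (totalDegree_mul _ _).trans ?_
    rw [totalDegree_C, totalDegree_X]
  · rw [LinearMap.pi_apply_eq_sum_univ f w]
    simp [mul_comm]

theorem inj4 {α : Type} {a b c d : α} (h1 : a ≠ b) (h2 : a ≠ c) (h3 : a ≠ d) (h4 : b ≠ c)
    (h5 : b ≠ d) (h6 : c ≠ d) : Injective ![a, b, c, d] := by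
  intro i j h
  fin_cases i <;> fin_cases j <;> simp_all

theorem inj2 {α : Type} {a b : α} (h1 : a ≠ b) : Injective ![a, b] := by
  intro i j h
  fin_cases i <;> fin_cases j <;> simp_all

end ELL

open ELL

theorem t_ELL : S_CNT → S_SZP → S_ELL := by
  classical
  intro hC hS k _ N m F _ z z' Y β hm hz r r' hY n n' hβ hq
  have hr : ∀ a, RatPt F (![z, z'] a) := fun a => by fin_cases a <;> assumption
  have h2 := (hC k N m F (Fin 2) ![z, z'] (inj2 hz) hr (by simp; omega)).1
  obtain ⟨lam, hl⟩ := h2 ![1, 0]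
  obtain ⟨lam', hl'⟩ := h2 ![0, 1]
  have l0 : ev m z (fun s => (lam s : k)) = 1 := hl 0
  have l1 : ev m z' (fun s => (lam s : k)) = 0 := hl 1
  have l2 : ev m z (fun s => (lam' s : k)) = 0 := hl' 0
  have l3 : ev m z' (fun s => (lam' s : k)) = 1 := hl' 1
  let P : (Mon N m → k) →ₗ[k] (Mon N m → k) := LinearMap.id -
    (ev m z).smulRight (fun s => (lam s : k)) - (ev m z').smulRight (fun s => (lam' s : k))
  have hP : ∀ w, P w = w - ev m z w • (fun s => (lam s : k)) - ev m z' w • fun s => (lam' s : k) :=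
    fun _ => rfl
  choose L hL1 hL2 using fun y : NP k N × NP k N =>
    lin (β y.2 • (ev m y.1).comp P - β y.1 • (ev m y.2).comp P)
  have hL3 : ∀ y w, eval w (L y) = β y.2 * ev m y.1 (P w) - β y.1 * ev m y.2 (P w) :=
    fun y w => hL2 y w
  have hL0 : ∀ y ∈ hY.toFinset.offDiag, L y ≠ 0 := by
    rintro ⟨y, y'⟩ hy h0
    simp only [Finset.mem_offDiag, Set.Finite.mem_toFinset] at hy
    obtain ⟨w, hw⟩ := (hC k N m ⊤ (Fin 4) ![z, z', y, y']
      (inj4 hz (fun e => n (e ▸ hy.1)) (fun e => n (e ▸ hy.2.1)) (fun e => n' (e ▸ hy.1))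
        (fun e => n' (e ▸ hy.2.1)) hy.2.2) (fun _ _ => trivial) (by simp; omega)).1 ![0, 0, 1, 0]
    have w0 : ev m z (fun s => (w s : k)) = 0 := hw 0
    have w1 : ev m z' (fun s => (w s : k)) = 0 := hw 1
    have w2 : ev m y (fun s => (w s : k)) = 1 := hw 2
    have w3 : ev m y' (fun s => (w s : k)) = 0 := hw 3
    have h := hL3 (y, y') fun s => (w s : k)
    rw [h0, hP, w0, w1, zero_smul, zero_smul, sub_zero, sub_zero, w2, w3] at h
    exact hβ y' hy.2.1 (by simpa using h.symm)
  have hd : (∏ y ∈ hY.toFinset.offDiag, L y).totalDegree < Nat.card F := by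
    refine lt_of_le_of_lt ((totalDegree_finsetProd _ _).trans
      ((Finset.sum_le_card_nsmul _ _ 1 fun y _ => hL1 y).trans ?_)) hq
    rw [smul_eq_mul, mul_one, Finset.offDiag_card, Set.ncard_eq_toFinset_card Y hY, sq]
    exact Nat.sub_le _ _
  obtain ⟨c, hc⟩ : ∃ c : Mon N m → F,
      eval (fun j => (c j : k)) (∏ y ∈ hY.toFinset.offDiag, L y) ≠ 0 := by
    by_contra h
    have h' : ∀ c : Mon N m → F,
        eval (fun j => (c j : k)) (∏ y ∈ hY.toFinset.offDiag, L y) = 0 :=
      fun c => not_not.1 fun h' => h ⟨c, h'⟩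
    have h3 := (hS k (Mon N m)).1 F (AddMonoidHom.id _) _ (fun _ => True) (fun _ => rfl)
      (Finset.prod_ne_zero_iff.2 hL0) fun c _ => h' c
    simp only [AddMonoidHom.id_apply, and_self, Set.ofPred_true] at h3
    have h4 : 0 < (Set.univ : Set (Mon N m → F)).ncard :=
      (Set.ncard_pos Set.finite_univ).2 Set.univ_nonempty
    rw [mul_comm] at h3
    exact absurd (Nat.le_of_mul_le_mul_right h3 h4) hd.not_ge
  have m0 : ev m z (fun s => (c s : k)) ∈ F := (ratP_formF c).aeval_mem r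
  have m1 : ev m z' (fun s => (c s : k)) ∈ F := (ratP_formF c).aeval_mem r'
  refine ⟨form (P fun s => (c s : k)), form_isHomogeneous _, ?_, ?_, ?_, fun y hy y' hy' h => ?_⟩
  · exact ratP_formF (F := F) fun s => ⟨P (fun s => (c s : k)) s,
      sub_mem (sub_mem (c s).2 (mul_mem m0 (lam s).2)) (mul_mem m1 (lam' s).2)⟩
  · change ev m z _ = 0
    rw [hP, map_sub, map_sub, map_smul, map_smul, l0, l2]
    simp
  · change ev m z' _ = 0
    rw [hP, map_sub, map_sub, map_smul, map_smul, l1, l3]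
    simp
  · by_contra hne
    rw [map_prod] at hc
    refine Finset.prod_ne_zero_iff.1 hc (y, y') (by simp [hy, hy', hne]) ?_
    rw [hL3, sub_eq_zero, mul_comm, mul_comm (β y)]
    exact h

end Pool.Agent.P.MP_12d50c_ag
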