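import Pool.Agent.P.MP_12d50c_ag.If4

/-!
Points with the same ideal.
-/

open MvPolynomial Function

namespace Pool.Agent.P.MP_12d50c_ag

namespace EMB

theorem aux {k A L M : Type} [Field k] [CommRing A] [Algebra k A] [Field L] [Field M] [Algebra k L]
    [Algebra k M] (a : A →ₐ[k] L) (b : A →ₐ[k] M) (ha : Injective a) (hb : Injective b)
    (hs : ∀ u : L, ∃ g h, u = a g / a h) : ∃ ψ : L →ₐ[k] M, ∀ f, ψ (a f) = b f := by
  let : Algebra A L := a.toRingHom.toAlgebra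
  have : IsScalarTower k A L := IsScalarTower.of_algebraMap_eq fun c => (a.commutes c).symm
  have : FaithfulSMul A L := (faithfulSMul_iff_algebraMap_injective A L).2 ha
  have : IsFractionRing A L := IsFractionRing.of_field A L hs
  exact ⟨IsFractionRing.liftAlgHom hb, fun f => IsFractionRing.lift_algebraMap (K := L) hb f⟩

theorem aux2 {k R L M : Type} [Field k] [CommRing R] [Algebra k R] [Field L] [Field M]
    [Algebra k L] [Algebra k M] (a : R →ₐ[k] L) (b : R →ₐ[k] M) (hker : ∀ f, a f = 0 ↔ b f = 0)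
    (hs : ∀ u : L, ∃ g h, u = a g / a h) : ∃ ψ : L →ₐ[k] M, ∀ f, ψ (a f) = b f := by
  obtain ⟨ψ, hψ⟩ := aux (Ideal.kerLiftAlg a)
    (Ideal.Quotient.liftₐ (RingHom.ker a) b fun f hf => (hker f).1 hf)
    (Ideal.kerLiftAlg_injective a) ((injective_iff_map_eq_zero _).2 fun x hx => by
      obtain ⟨f, rfl⟩ := Ideal.Quotient.mk_surjective x
      exact Ideal.Quotient.eq_zero_iff_mem.2 ((hker f).2 hx)) fun u => by
      obtain ⟨g, h, h1⟩ := hs u
      exact ⟨Ideal.Quotient.mk _ g, Ideal.Quotient.mk _ h, h1⟩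
  exact ⟨ψ, fun f => hψ (Ideal.Quotient.mk _ f)⟩

end EMB

theorem t_EMB : S_EMB := by
  intro k _ τ w L M _ _ _ _ ξ η i hG hw hξ hη hv
  obtain ⟨ψ, hψ⟩ := EMB.aux2 (aeval ξ : MvPolynomial τ k →ₐ[k] L) (aeval η) (fun f => by
    obtain ⟨d, f', h1, h2⟩ := exists_homog hw f
    rw [← h2 L ξ hξ, ← h2 M η hη, ← mem_vanw_of_hom h1, ← mem_vanw_of_hom h1, hv]) fun u => by
      obtain ⟨d, g, h, -, -, h1, h2⟩ := hG u
      exact ⟨g, h, (eq_div_iff h1).2 h2⟩
  exact ⟨ψ, fun j => by simpa using hψ (X j)⟩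

end Pool.Agent.P.MP_12d50c_ag
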