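import Pool.Agent.P.MP_12d50c_ag.If1

/-!
Existence of generic points.
-/

open MvPolynomial

namespace Pool.Agent.P.MP_12d50c_ag

namespace EX

variable {k : Type} [Field k] {τ : Type} (q : Ideal (MvPolynomial τ k)) [q.IsPrime]

/-- The map to the fraction field of the quotient. -/
noncomputable def pr : MvPolynomial τ k →ₐ[k] FractionRing (MvPolynomial τ k ⧸ q) :=
  (IsScalarTower.toAlgHom k (MvPolynomial τ k ⧸ q) _).comp (Ideal.Quotient.mkₐ k q)

theorem pr_eq_zero (f : MvPolynomial τ k) : pr q f = 0 ↔ f ∈ q := by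
  rw [← Ideal.Quotient.eq_zero_iff_mem]
  exact map_eq_zero_iff (algebraMap (MvPolynomial τ k ⧸ q) (FractionRing (MvPolynomial τ k ⧸ q)))
    (IsFractionRing.injective _ _)

theorem aeval_pr (f : MvPolynomial τ k) : aeval (fun j => pr q (X j)) f = pr q f := by
  rw [← map_aeval' (pr q) X f, aeval_X_left_apply]

theorem vanw_pr {w : τ → ℕ} (h : WHom w q) : (vanw k w fun j => pr q (X j)) = q :=
  le_antisymm (fun f hf => (pr_eq_zero q f).1 ((aeval_pr q f).symm.trans
    (aeval_eq_zero_of_mem_vanw hf)))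
    (h.le_vanw.2 fun f hf => (aeval_pr q f).trans ((pr_eq_zero q f).2 hf))

end EX

theorem t_EX : S_EX := by
  intro k _ τ w q _ i hq hi hX
  have h0 : EX.pr q (X i) ≠ 0 := fun h => hX ((EX.pr_eq_zero q _).1 h)
  let ξ : τ → FractionRing (MvPolynomial τ k ⧸ q) := fun j =>
    (EX.pr q (X i))⁻¹ ^ w j * EX.pr q (X j)
  have h1 : ξ i = 1 := by simp only [ξ, hi, pow_one, inv_mul_cancel₀ h0]
  have h2 : vanw k w ξ = q := (vanw_scale (inv_ne_zero h0).isUnit _).trans (EX.vanw_pr q hq)
  refine ⟨IntermediateField.adjoin k (Set.range ξ), inferInstance, inferInstance,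
    fun j => ⟨ξ j, IntermediateField.subset_adjoin k _ ⟨j, rfl⟩⟩, ?_, Subtype.ext h1,
    gen_adjoin hi h1⟩
  exact (vanw_map (IntermediateField.adjoin k (Set.range ξ)).val Subtype.val_injective
    _).symm.trans h2

end Pool.Agent.P.MP_12d50c_ag
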