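import Pool.Agent.P.MP_12d50c_ag.If3

/-!
Extension of additive functionals; cocycles.
-/

namespace Pool.Agent.P.MP_12d50c_ag

namespace EXT

theorem ext_add {α ι G : Type} [AddCommGroup G] (c : (α →₀ ℕ) →+ G) (hc : Function.Injective c)
    (dv : ι → α →₀ ℕ) (β : ι → ℚ) (i₀ : ι)
    (h1 : ∀ i j, ∃ l, dv l = dv i + dv j ∧ β l = β i + β j)
    (h2 : ∀ i j, dv i = dv j → β i = β j) : ∃ h : G →+ ℚ, ∀ i, h (c (dv i)) = β i := by
  let H : AddSubgroup (G × ℚ) :=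
    { carrier := {p | ∃ i j, p = (c (dv i) - c (dv j), β i - β j)}
      zero_mem' := ⟨i₀, i₀, by rw [sub_self, sub_self]; rfl⟩
      add_mem' := by
        rintro _ _ ⟨i, j, rfl⟩ ⟨i', j', rfl⟩
        obtain ⟨l, e1, e2⟩ := h1 i i'
        obtain ⟨l', e3, e4⟩ := h1 j j'
        refine ⟨l, l', ?_⟩
        rw [e1, e2, e3, e4, map_add, map_add, Prod.mk_add_mk, sub_add_sub_comm, sub_add_sub_comm]
      neg_mem' := by
        rintro _ ⟨i, j, rfl⟩
        exact ⟨j, i, by simp⟩ }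
  obtain ⟨h, hh⟩ := (Module.Baer.of_divisible ℚ).extension_property_addMonoidHom
    ((AddMonoidHom.fst G ℚ).comp H.subtype) ((injective_iff_map_eq_zero _).2 (by
      rintro ⟨_, i, j, rfl⟩ e
      have e1 : dv i = dv j := hc (sub_eq_zero.1 e)
      exact Subtype.ext (by simp [e1, h2 i j e1]))) ((AddMonoidHom.snd G ℚ).comp H.subtype)
  refine ⟨h, fun i => ?_⟩
  obtain ⟨l, e1, e2⟩ := h1 i i
  exact DFunLike.congr_fun hh ⟨(c (dv i), β i), l, i, by simp [e1, e2]⟩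

end EXT

theorem t_EXT : S_EXT := by
  refine ⟨fun α ι dv β h1 h2 => ?_, fun α R ω hs h4 ha ht => ?_⟩
  · rcases isEmpty_or_nonempty ι with h0 | ⟨⟨i₀⟩⟩
    · exact ⟨0, fun i => h0.elim i⟩
    obtain ⟨h, hh⟩ := EXT.ext_add (Finsupp.mapRange.addMonoidHom (Nat.castAddMonoidHom ℤ))
      (Finsupp.mapRange_injective _ (map_zero _) Nat.cast_injective) dv β i₀ h1 h2
    obtain ⟨φ, hφ⟩ : ∃ φ : (α →₀ ℕ) →+ ℚ, ∀ i, φ (dv i) = β i := ⟨h.comp _, hh⟩
    refine ⟨fun y => φ (Finsupp.single y 1), fun i => ?_⟩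
    rw [← hφ, ← Finsupp.sum_single (dv i), map_finsuppSum, Finsupp.sum_single]
    refine Finsupp.sum_congr fun y _ => ?_
    rw [mul_comm, ← nsmul_eq_mul, ← map_nsmul, Finsupp.smul_single, smul_eq_mul, mul_one]
  · rcases isEmpty_or_nonempty α with h0 | ⟨⟨o⟩⟩
    · exact ⟨0, fun a => h0.elim a⟩
    have k1 : ∀ a x x', R a x → R o x → R a x' → R o x' → R x x' →
        ω a x - ω o x = ω a x' - ω o x' := fun a x x' r1 r2 r3 r4 r5 => by
      have e1 := ht a x x' r1 r5 (hs _ _ r3)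
      have e2 := ht o x x' r2 r5 (hs _ _ r4)
      rw [ha x' a] at e1
      rw [ha x' o] at e2
      linarith
    have k2 : ∀ a x x', R a x → R o x → R a x' → R o x' →
        ω a x - ω o x = ω a x' - ω o x' := fun a x x' r1 r2 r3 r4 => by
      obtain ⟨y, s1, s2, s3, s4⟩ := h4 a o x x'
      rw [k1 a x y r1 r2 s1 s2 s3, k1 a x' y r3 r4 s1 s2 s4]
    choose n n1 n2 using fun a => h4 a o o o
    refine ⟨fun a => ω a (n a) - ω o (n a), fun a b r => ?_⟩
    obtain ⟨x, s1, s2, s3, -⟩ := h4 a b o o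
    have e := ht a b x r s2 (hs _ _ s1)
    rw [ha x a] at e
    have e1 := k2 a _ x (n1 a) (n2 a).1 s1 s3
    have e2 := k2 b _ x (n1 b) (n2 b).1 s2 s3
    simp only
    linarith

end Pool.Agent.P.MP_12d50c_ag
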