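import Pool.Agent.P.MP_12d50c_ag.If4

/-!
The functional on a single curve.
-/

open MvPolynomial

namespace Pool.Agent.P.MP_12d50c_ag

namespace EXTR

variable {k : Type} [Field k] {N : ℕ} {I : Ideal (PP k N)}

theorem exists_form (hI : IsSm 2 I) {p : PrimeSpectrum (PP k N)} (hp : p ∈ Cu I) :
    ∃ (h : PP k N) (d : ℕ), h.IsHomogeneous d ∧ h ∈ p.asIdeal ∧ h ∉ I := by
  by_contra hc
  push Not at hc
  have h1 : p.asIdeal = I := le_antisymm (WHom.le_of_hom hp.1 fun f d a b => hc f d a b) hp.2.1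
  have h2 := hp.2.2
  rw [h1, hI.dim] at h2
  norm_cast at h2

theorem bsym_eq (β : Ideal (PP k N) → PP k N → ℚ) (h g : PP k N)
    (S : Finset (PrimeSpectrum (PP k N))) (hS : ∀ p, p ∈ S ↔ p ∈ Cu I ∧ h ∈ p.asIdeal) :
    Bsym I β h g = ∑ p ∈ S, (len (I ⊔ Ideal.span {h}) p.asIdeal).toNat * β p.asIdeal g := by
  refine finsum_mem_eq_sum_of_inter_support_eq _ (Set.ext fun q => ⟨?_, ?_⟩)
  · rintro ⟨h1, h2⟩
    refine ⟨(hS q).2 ⟨h1, ?_⟩, h2⟩
    by_contra hc
    refine h2 ?_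
    have : len (I ⊔ Ideal.span {h}) q.asIdeal = 0 := len_eq_zero_iff.2 fun hle =>
      hc (hle (Ideal.mem_sup_right (Ideal.mem_span_singleton_self h)))
    simp [this]
  · rintro ⟨h1, h2⟩
    exact ⟨((hS q).1 h1).1, h2⟩

theorem ordI_congr {q : Ideal (PP k N)} {g g' : PP k N} (h : g - g' ∈ q) (y : NP k N) :
    ordI q y g = ordI q y g' := by
  have key : ∀ g g' : PP k N, g - g' ∈ q → q ⊔ Ideal.span {g} ≤ q ⊔ Ideal.span {g'} :=
    fun g g' h => sup_le le_sup_left ((Ideal.span_singleton_le_iff_mem _).2 (by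
      have := Ideal.add_mem _ (Ideal.mem_sup_left (T := Ideal.span {g'}) h)
        (Ideal.mem_sup_right (S := q) (Ideal.mem_span_singleton_self g'))
      rwa [sub_add_cancel] at this))
  unfold ordI
  rw [le_antisymm (key g g' h) (key g' g (by rw [← neg_sub]; exact q.neg_mem h))]

theorem ordI_zero {q : Ideal (PP k N)} (hq : Hom q) {g : PP k N} {e : ℕ} (hg : g.IsHomogeneous e)
    {y : NP k N} (h : ¬ (On q y.1 ∧ aeval y.1 g = 0)) : ordI q y g = 0 :=
  len_eq_zero_iff.2 fun hle => h ⟨hq.on_iff.2 (le_sup_left.trans hle),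
    (mem_van_of_hom hg).1 (hle (Ideal.mem_sup_right (Ideal.mem_span_singleton_self g)))⟩

theorem wsum_eq [IsAlgClosed k] (hINT : S_INT) (hI : IsSm 2 I) (χ : NP k N → ℚ) {h g : PP k N}
    (hc : Cop I h g) (S : Finset (NP k N)) (hS : ∀ y ∈ Zs I h g, y ∈ S) :
    wsum I χ h g = ∑ y ∈ S, χ y * (inter I y h g).toNat := by
  refine finsum_eq_sum_of_support_subset _ fun y hy => hS y ?_
  by_contra hn
  obtain ⟨e, he⟩ := hc.hl
  obtain ⟨e', he'⟩ := hc.hr
  exact hy (by simp [((hINT k N I hI).1 h g e e' y he he').2 hn])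

end EXTR

open EXTR in
theorem t_EXTR : S_IV → S_PAV → S_FINC → S_INT → S_EXTR := by
  classical
  intro hIV hPAV hF hINT k _ _ N I φ β χ hI hβ hB p hp g g' e S hg hg' hn hn' hS
  obtain ⟨h, dh, hh, hhp, hhI⟩ := exists_form hI hp
  obtain ⟨F1, F2⟩ := hF k N I
  obtain ⟨G1, G2, G3⟩ := F2 hI h hhI
  set S0 := G1.toFinset with hS0
  have hm : ∀ q, q ∈ S0 ↔ q ∈ Cu I ∧ h ∈ q.asIdeal := fun q => G1.mem_toFinset
  have hp0 : p ∈ S0 := (hm p).2 ⟨hp, hhp⟩
  obtain ⟨a, b, d, ha, hb, hap, hbp, hq⟩ := hPAV k N S0 p e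
    (fun q hq => ⟨((hm q).1 hq).1.1, (F1 q ((hm q).1 hq).1).1⟩) hp0
    fun q hq q' hq' => (F1 q ((hm q).1 hq).1).2.2.2.1 q' ((hm q').1 hq').1
  have hom1 : ∀ u : PP k N, u.IsHomogeneous e → (a * u + b).IsHomogeneous (d + e) :=
    fun u hu => (ha.mul hu).add hb
  have hnot : ∀ u : PP k N, u ∉ p.asIdeal → ∀ q ∈ S0, a * u + b ∉ q.asIdeal := by
    intro u hu q hq0 hmem
    by_cases e1 : q = p
    · subst e1
      have : a * u ∈ q.asIdeal := by simpa using q.asIdeal.sub_mem hmem hbp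
      exact (q.isPrime.mem_or_mem this).elim hap hu
    · obtain ⟨h1, h2⟩ := hq q hq0 e1
      exact h2 (by simpa using q.asIdeal.sub_mem hmem (q.asIdeal.mul_mem_right u h1))
  have hcop : ∀ u : PP k N, u.IsHomogeneous e → u ∉ p.asIdeal → Cop I h (a * u + b) :=
    fun u hu hu' => G2 _ dh (d + e) hh (hom1 u hu) (fun hc => hnot u hu' p hp0 (hp.2.1 hc))
      fun q h1 h2 => hnot u hu' q ((hm q).2 ⟨h1, h2⟩)
  have c1 := hcop g hg hn
  have c2 := hcop g' hg' hn'
  have hsub : ∀ q ∈ S0, q ≠ p → a * g + b - (a * g' + b) ∈ q.asIdeal := fun q hq0 e1 => by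
    rw [show a * g + b - (a * g' + b) = a * (g - g') by ring]
    exact q.asIdeal.mul_mem_right _ (hq q hq0 e1).1
  have hβp : ∀ u : PP k N, u.IsHomogeneous e → u ∉ p.asIdeal →
      β p.asIdeal (a * u + b) = β p.asIdeal a + β p.asIdeal u := fun u hu hu' => by
    rw [(hβ p hp).congr _ (a * u) (by simpa using hbp), (hβ p hp).mul a u d e ha hu hap hu']
  have hop : ∀ u : PP k N, u ∉ p.asIdeal → ∀ y, (ordI p.asIdeal y (a * u + b)).toNat =
      (ordI p.asIdeal y a).toNat + (ordI p.asIdeal y u).toNat := fun u hu y => by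
    have h1 := (F1 p hp).2.2.2.2 a u y hap hu
    have h2 := (F1 p hp).2.2.2.2 u a y hu hap
    rw [ordI_congr (g' := a * u) (by simpa using hbp), h1.2, ENat.toNat_add h1.1 h2.1]
  set v : ℚ := ((len (I ⊔ Ideal.span {h}) p.asIdeal).toNat : ℚ) with hv
  have hv0 : v ≠ 0 := by
    rw [hv, Nat.cast_ne_zero, Ne, ENat.toNat_eq_zero, not_or]
    exact ⟨fun h0 => len_eq_zero_iff.1 h0
      (sup_le hp.2.1 ((Ideal.span_singleton_le_iff_mem _).2 hhp)), (G3 p hp).1⟩
  have e1 : Bsym I β h (a * g + b) - Bsym I β h (a * g' + b) =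
      v * (β p.asIdeal g - β p.asIdeal g') := by
    rw [bsym_eq β h _ S0 hm, bsym_eq β h _ S0 hm, ← Finset.sum_sub_distrib,
      Finset.sum_eq_single_of_mem p hp0]
    · rw [hβp g hg hn, hβp g' hg' hn']; ring
    · intro q hq0 e1
      rw [(hβ q ((hm q).1 hq0).1).congr _ _ (hsub q hq0 e1), sub_self]
  set S' := S ∪ (c1.fin.toFinset ∪ c2.fin.toFinset) with hS'
  have e2 : wsum I χ h (a * g + b) - wsum I χ h (a * g' + b) =
      v * ∑ y ∈ S', χ y * ((ordI p.asIdeal y g).toNat - (ordI p.asIdeal y g').toNat) := by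
    rw [wsum_eq hINT hI χ c1 S' fun y hy => Finset.mem_union_right _
        (Finset.mem_union_left _ (c1.fin.mem_toFinset.2 hy)),
      wsum_eq hINT hI χ c2 S' fun y hy => Finset.mem_union_right _
        (Finset.mem_union_right _ (c2.fin.mem_toFinset.2 hy)),
      ← Finset.sum_sub_distrib, Finset.mul_sum]
    refine Finset.sum_congr rfl fun y _ => ?_
    rw [hIV k N I h _ y S0 hI c1 hm, hIV k N I h _ y S0 hI c2 hm, ← mul_sub]
    push_cast
    rw [← Finset.sum_sub_distrib, Finset.sum_eq_single_of_mem p hp0]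
    · rw [hop g hn, hop g' hn']; push_cast; ring
    · intro q hq0 e1
      rw [ordI_congr (hsub q hq0 e1), sub_self]
  have e3 := hB h _ _ (d + e) (hom1 g hg) (hom1 g' hg') c1 c2
  rw [e1, e2] at e3
  rw [mul_left_cancel₀ hv0 e3]
  refine (Finset.sum_subset Finset.subset_union_left fun y _ hy => ?_).symm
  rw [ordI_zero hp.1 hg fun hc => hy (hS y hc.1 (Or.inl hc.2)),
    ordI_zero hp.1 hg' fun hc => hy (hS y hc.1 (Or.inr hc.2)), sub_self, mul_zero]

end Pool.Agent.P.MP_12d50c_ag
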