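import Pool.Agent.P.MP_12d50c_ag.If1

/-!
Forms without common zeros generate everything in large degrees.
-/

open MvPolynomial

namespace Pool.Agent.P.MP_12d50c_ag

namespace FIN

theorem comp_mul {k : Type} [Field k] {τ : Type} {w : τ → ℕ} (c : MvPolynomial τ k)
    {f : MvPolynomial τ k} {m : ℕ} (hf : IsWeightedHomogeneous w f m) (d : ℕ) :
    weightedHomogeneousComponent w (d + m) (c * f) = weightedHomogeneousComponent w d c * f := by
  let := weightedGradedAlgebra k w
  rw [← weightedDecomposition.decompose'_apply, ← weightedDecomposition.decompose'_apply]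
  exact DirectSum.coe_decompose_mul_add_of_right_mem (weightedHomogeneousSubmodule k w) hf

end FIN

theorem t_FIN : S_NSP → S_FIN := by
  intro hNSP k _ _ N I r m f hI _ hf hy
  have hJ : Hom (I ⊔ Ideal.span (Set.range f)) :=
    WHom.sup hI (wHom_span (by rintro _ ⟨i, rfl⟩; exact ⟨m, hf i⟩))
  have hle : idealOfVars (Fin (N + 1)) k ≤ (I ⊔ Ideal.span (Set.range f)).radical := by
    refine Ideal.span_le.2 ?_
    rintro _ ⟨j, rfl⟩
    refine (hNSP k N).1 _ _ 1 hJ (isHomogeneous_X k j) one_pos fun y h => ?_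
    obtain ⟨i, hi⟩ := hy y ((on_sup _).1 h).1
    exact absurd ((on_span _).1 ((on_sup _).1 h).2 _ ⟨i, rfl⟩) hi
  obtain ⟨n, hn⟩ := Ideal.exists_pow_le_of_le_radical_of_fg hle (idealOfVars_fg _ _)
  refine ⟨n, fun d hd g hg => ?_⟩
  have h1 : g ∈ I ⊔ Ideal.span (Set.range f) :=
    hn ((mem_pow_idealOfVars_iff' n g).2 fun x hx => hg.coeff_eq_zero (by omega))
  obtain ⟨a, ha, b, hb, hab⟩ := Submodule.mem_sup.1 h1
  obtain ⟨c, rfl⟩ := Ideal.mem_span_range_iff_exists_fun.1 hb
  refine ⟨fun i => weightedHomogeneousComponent 1 d (c i),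
    fun i => weightedHomogeneousComponent_isWeightedHomogeneous d (c i), ?_⟩
  have h2 := congrArg (weightedHomogeneousComponent (1 : Fin (N + 1) → ℕ) (d + m)) hab
  rw [IsWeightedHomogeneous.weightedHomogeneousComponent_same hg, map_add, map_sum] at h2
  simp only [FIN.comp_mul _ (hf _)] at h2
  rw [← h2, add_sub_cancel_right]
  exact hI a ha _

end Pool.Agent.P.MP_12d50c_ag
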