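import Pool.Agent.P.MP_12d50c_ag.If4

/-!
Boundaries have finite support.
-/

open MvPolynomial

namespace Pool.Agent.P.MP_12d50c_ag

namespace FINB

theorem dim_succ {R : Type} [CommRing R] {Q P : Ideal R} [Q.IsPrime] (h : Q ≤ P) (hne : Q ≠ P) :
    ringKrullDim (R ⧸ P) + 1 ≤ ringKrullDim (R ⧸ Q) := by
  obtain ⟨x, hx, hx'⟩ := SetLike.exists_of_lt (lt_of_le_of_ne h hne)
  refine ringKrullDim_succ_le_of_surjective (Ideal.Quotient.factor h)
    (Ideal.Quotient.factor_surjective h) (r := Ideal.Quotient.mk Q x)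
    (mem_nonZeroDivisors_of_ne_zero ?_) ?_
  · rwa [Ne, Ideal.Quotient.eq_zero_iff_mem]
  · rwa [Ideal.Quotient.factor_mk, Ideal.Quotient.eq_zero_iff_mem]

end FINB

open FINB in
theorem t_FINB : S_VP0 → S_FINB := by
  intro h0 k _ N n I W hW hp
  have key : ∀ j : Fin (n + 2),
      {Q ∈ Cv I n | W.asIdeal.map (smap j.succAbove) ≤ Q.asIdeal}.Finite := by
    intro j
    obtain ⟨a1, -, a3, -⟩ := (h0 k N (n + 1)).1 n j.succAbove
    refine ((Ideal.finite_minimalPrimes_of_isNoetherianRing _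
      (W.asIdeal.map (smap (k := k) (N := N) j.succAbove))).preimage
      (f := PrimeSpectrum.asIdeal) fun _ _ _ _ e => PrimeSpectrum.ext e).subset ?_
    rintro Q ⟨hQ, hle⟩
    obtain ⟨P, hP, hPQ⟩ := Ideal.exists_minimalPrimes_le hle
    have hPp : P.IsPrime := hP.1.1
    have hA : Adm I P := ⟨hPp, (a3 _ hW.1.hom).minimalPrimes hP,
      (a1 I).ge.trans ((Ideal.map_mono hW.1.le).trans hP.1.2),
      hQ.1.rel.imp fun i hi hm => hi (hPQ hm)⟩
    have hd := hp n (Fin.succAboveOrderEmb j) P hA hP.1.2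
    have e : P = Q.asIdeal := by
      by_contra hne
      have h1 := (dim_succ hPQ hne).trans hd
      rw [hQ.2] at h1
      norm_cast at h1
      omega
    rw [Set.mem_preimage, ← e]
    exact hP
  refine ⟨key, (Set.finite_iUnion key).subset ?_⟩
  rintro Q ⟨hQ, hb⟩
  by_contra hn
  refine hb (Finset.sum_eq_zero fun j _ => ?_)
  have h1 : len (W.asIdeal.map (smap j.succAbove)) Q.asIdeal = 0 :=
    len_eq_zero_iff.2 fun hle => hn (Set.mem_iUnion.2 ⟨j, hQ, hle⟩)
  simp [h1]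

end Pool.Agent.P.MP_12d50c_ag
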