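import Pool.Agent.P.MP_12d50c_ag.If4
import Pool.Agent.P.MP_638e8a_ag.ChA3

open MvPolynomial

namespace Pool.Agent.P.MP_12d50c_ag

namespace FINC

open Pool.Agent.P.MP_638e8a_ag

theorem le_one_of_add {a : WithBot ℕ∞} {n : ℕ} (h : a + n = (n + 1 : ℕ)) : a ≤ (1 : ℕ) := by
  induction a with
  | bot => exact bot_le
  | coe a =>
    induction a with
    | top => norm_cast at h
    | coe a =>
      norm_cast at h ⊢
      omega

theorem le_two {a : WithBot ℕ∞} (h : a + 1 ≤ (2 + 1 : ℕ)) : a ≤ 2 ∧ (a = 2 ∨ a ≤ 1) := by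
  induction a with
  | bot => exact ⟨bot_le, Or.inr bot_le⟩
  | coe a =>
    induction a with
    | top => norm_cast at h
    | coe a =>
      have e2 : (2 : WithBot ℕ∞) = ((2 : ℕ) : ℕ∞) := rfl
      have h' : a + 1 ≤ 2 + 1 := by
        have h1 : (((a + 1 : ℕ) : ℕ∞) : WithBot ℕ∞) ≤ (((2 + 1 : ℕ) : ℕ∞) : WithBot ℕ∞) := by
          rw [Nat.cast_add a]
          exact h
        exact Nat.cast_le.1 (WithBot.coe_le_coe.1 h1)
      rw [e2]
      norm_cast
      omega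

theorem ord_main (k : Type) [Field k] {R : Type} [CommRing R] [Algebra k R] [Algebra.FiniteType k R]
    (J q : Ideal R) [J.IsPrime] [q.IsPrime] {n : ℕ} (hJ : ringKrullDim (R ⧸ J) = (n + 1 : ℕ))
    (hq : ringKrullDim (R ⧸ q) = n) {g : R} (hg : g ∉ J) :
    len (J ⊔ Ideal.span {g}) q ≠ ⊤ ∧ ∀ g', g' ∉ J → len (J ⊔ Ideal.span {g * g'}) q =
      len (J ⊔ Ideal.span {g}) q + len (J ⊔ Ideal.span {g'}) q := by
  by_cases h : J ≤ q
  · have := Algebra.FiniteType.isNoetherianRing k R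
    have := isDomain_LQ h
    have h1 := dim_LQ k h
    rw [hJ, hq] at h1
    have : Ring.KrullDimLE 1 (LQ J q) := Ring.krullDimLE_iff.2 (le_one_of_add h1)
    have h2 : toL J q g ∈ nonZeroDivisors (LQ J q) :=
      mem_nonZeroDivisors_of_ne_zero fun h0 => hg ((toL_eq_zero_iff h).1 h0)
    simp only [len_sup_span, map_mul]
    exact ⟨Ring.ord_ne_top h2, fun g' _ => Ring.ord_mul' _ h2⟩
  · have h0 : ∀ a : R, len (J ⊔ Ideal.span {a}) q = 0 := fun a =>
      len_eq_zero_iff.2 fun h' => h (le_sup_left.trans h')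
    simp [h0]

variable {k : Type} [Field k] {N : ℕ}

theorem rel_of_dim {I : Ideal (PP k N)} (h : ringKrullDim (PP k N ⧸ I) = 2) : Rel I := by
  by_contra h1
  simp only [Rel, not_exists, not_not] at h1
  have h2 : Function.Surjective (algebraMap k (PP k N ⧸ I)) := fun a => by
    obtain ⟨f, rfl⟩ := Ideal.Quotient.mk_surjective a
    induction f using MvPolynomial.induction_on with
    | C c => exact ⟨c, rfl⟩
    | add f g hf hg =>
      obtain ⟨a, ha⟩ := hf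
      obtain ⟨b, hb⟩ := hg
      exact ⟨a + b, by rw [map_add, map_add, ha, hb]⟩
    | mul_X f i _ =>
      exact ⟨0, by rw [map_zero, map_mul, Ideal.Quotient.eq_zero_iff_mem.2 (h1 i), mul_zero]⟩
  have h3 := ringKrullDim_le_of_surjective _ h2
  rw [h, ringKrullDim_eq_zero_of_field] at h3
  exact absurd h3 (by decide)

theorem dim_le {I q : Ideal (PP k N)} (hI : IsSm 2 I) {h : PP k N} (hh : h ∉ I)
    (hq : I ⊔ Ideal.span {h} ≤ q) : ringKrullDim (PP k N ⧸ q) ≤ 2 ∧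
      (ringKrullDim (PP k N ⧸ q) = 2 ∨ ringKrullDim (PP k N ⧸ q) ≤ 1) := by
  have := hI.prime
  refine le_two (hI.dim ▸ Cyc.A3b.dim_succ_le (le_sup_left.trans hq) fun e => hh ?_)
  exact e ▸ hq (Ideal.mem_sup_right (Ideal.mem_span_singleton_self h))

theorem mem_min {I : Ideal (PP k N)} (hI : IsSm 2 I) {h : PP k N} (hh : h ∉ I)
    {p : PrimeSpectrum (PP k N)} (hp : p ∈ Cu I) (hm : h ∈ p.asIdeal) :
    p.asIdeal ∈ (I ⊔ Ideal.span {h}).minimalPrimes := by
  refine ⟨⟨p.2, sup_le hp.2.1 ((Ideal.span_singleton_le_iff_mem _).2 hm)⟩, fun q hq hle => ?_⟩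
  have := hq.1
  by_contra hne
  have h1 := Cyc.A3b.dim_succ_le hle fun e => hne e.ge
  rw [hp.2.2] at h1
  exact absurd (h1.trans (dim_le hI hh hq.2).1) (by decide)

end FINC

open FINC Pool.Agent.P.MP_638e8a_ag in
theorem t_FINC : S_NSP → S_NS0 → S_FINC := by
  intro nsp ns0 k _ _ N I
  refine ⟨fun p hp => ?_, fun hI h hh => ⟨?_, fun g e e' he he' hg H => ?_, fun p hp => ?_⟩⟩
  · have hr := rel_of_dim hp.2.2
    have hinf : {y : NP k N | On p.asIdeal y.1}.Infinite := fun hf => by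
      obtain ⟨y, hy⟩ := ((nsp k N).2 _ p.2 hp.1 hr).2.2.1 hf
      have h1 := ns0.1 k N y
      rw [← hy, hp.2.2] at h1
      exact absurd h1 (by decide)
    refine ⟨hr, hinf, fun h g H hh hg => hinf (H.fin.subset fun y hy =>
      ⟨fun f hf => hy f (hp.2.1 hf), hy h hh, hy g hg⟩), fun p' hp' hle => ?_,
      fun g g' y hg hg' => ?_⟩
    · exact PrimeSpectrum.ext (Cyc.eq_of_dim_quot_eq (n := 2) hle hp.2.2 hp'.2.2).symm
    · have H := ord_main k p.asIdeal (van k y.1) (n := 1) hp.2.2 (ns0.1 k N y) hg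
      exact ⟨H.1, H.2 g' hg'⟩
  · refine Set.Finite.of_finite_image (f := PrimeSpectrum.asIdeal)
      ((Ideal.finite_minimalPrimes_of_isNoetherianRing _ (I ⊔ Ideal.span {h})).subset ?_)
      fun _ _ _ _ => PrimeSpectrum.ext
    rintro _ ⟨p, hp, rfl⟩
    exact mem_min hI hh hp.1 hp.2
  · have hom : Hom (I ⊔ Ideal.span {h}) := WHom.sup hI.hom (wHom_span fun f hf => ⟨e, hf ▸ he⟩)
    refine ⟨⟨e, he⟩, ⟨e', he'⟩, hh, hg, ((Ideal.finite_minimalPrimes_of_isNoetherianRing _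
      (I ⊔ Ideal.span {h})).biUnion (t := fun q => {y : NP k N | On q y.1 ∧ aeval y.1 g = 0})
        fun q hq => ?_).subset fun y hy => ?_⟩
    · have hq1 : Hom q := WHom.minimalPrimes hom hq
      rcases Set.eq_empty_or_nonempty {y : NP k N | On q y.1 ∧ aeval y.1 g = 0} with h0 | ⟨y, hy⟩
      · exact h0 ▸ Set.finite_empty
      have h1 := (nsp k N).2 q hq.1.1 hq1 ⟨y.piv, fun hm => y.X_piv_notMem (hq1.on_iff.1 hy.1 hm)⟩
      obtain ⟨h2, h3 | h3⟩ := dim_le hI hh hq.1.2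
      · exact h1.2.2.2.2 h2 g e' he' (H ⟨q, hq.1.1⟩ ⟨hq1, le_sup_left.trans hq.1.2, h3⟩
          (hq.1.2 (Ideal.mem_sup_right (Ideal.mem_span_singleton_self h))))
      · obtain ⟨z, hz⟩ := h1.2.2.2.1 h3
        exact (Set.finite_singleton z).subset fun y' hy' =>
          (NP.eq_of_van_le (hz ▸ hq1.on_iff.1 hy'.1)).symm
    · have h1 : I ⊔ Ideal.span {h} ≤ van k y.1 :=
        hom.on_iff.1 ((on_sup _).2 ⟨hy.1, (on_span _).2 fun f hf => hf ▸ hy.2.1⟩)
      obtain ⟨q, hq, hle⟩ := Ideal.exists_minimalPrimes_le h1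
      exact Set.mem_biUnion hq ⟨(Hom.on_iff (WHom.minimalPrimes hom hq)).2 hle, hy.2.2⟩
  · have := hI.prime
    exact ord_main k I p.asIdeal (n := 2) hI.dim hp.2.2 hh

end Pool.Agent.P.MP_12d50c_ag
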