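import Pool.Agent.P.MP_12d50c_ag.If1

/-!
Comparison of homogeneous and inhomogeneous localization.
-/

open MvPolynomial IsLocalRing

namespace Pool.Agent.P.MP_12d50c_ag

namespace FL

theorem lq_comap {A B : Type} [CommRing A] [CommRing B] (φ : A →+* B) (hφ : Function.Surjective φ)
    (K : Ideal B) : lq (K.comap φ) = lq K := by
  let := φ.toAlgebra
  exact (LinearEquiv.ofBijective (Ideal.quotientMapₐ K (Algebra.ofId A B) le_rfl).toLinearMap
    ⟨Ideal.quotientMap_injective, Ideal.quotientMap_surjective (H := le_rfl) hφ⟩).length_eq.trans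
    (Module.length_eq_of_surjective (R := B) (S := A) (M := B ⧸ K) hφ)

variable (O : Type) [CommRing O] [IsLocalRing O]

/-- The extension of the maximal ideal to the polynomial ring. -/
noncomputable abbrev mX : Ideal (Polynomial O) := (maximalIdeal O).map Polynomial.C

theorem dim [IsNoetherianRing O] : ringKrullDim (Localization.AtPrime (mX O)) = ringKrullDim O := by
  rw [IsLocalization.AtPrime.ringKrullDim_eq_height (mX O), Polynomial.height_map_C,
    maximalIdeal_height_eq_ringKrullDim]

theorem lq_map (I : Ideal O) : lq (I.map (algebraMap O (Localization.AtPrime (mX O)))) = lq I := by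
  have h1 : (maximalIdeal O).map (algebraMap O (Localization.AtPrime (mX O))) = maximalIdeal _ := by
    rw [IsScalarTower.algebraMap_eq O (Polynomial O), ← Ideal.map_map]
    exact Localization.AtPrime.map_eq_maximalIdeal
  have : IsLocalHom (algebraMap O (Localization.AtPrime (mX O))) :=
    ((local_hom_TFAE _).out 2 0).1 h1.le
  have : Module.Flat O (Localization.AtPrime (mX O)) := .trans O (Polynomial O) _
  rw [lq, (Algebra.TensorProduct.quotIdealMapEquivTensorQuot _ I).toLinearEquiv.length_eq,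
    length_baseChange, h1, Module.length_eq_one_iff.2 (isSimpleModule_iff_isCoatom.2
      (maximalIdeal.isMaximal (Localization.AtPrime (mX O))).out), mul_one, lq]

variable {k : Type} [Field k] {τ : Type} {w : τ → ℕ} {L : Type} [Field L] [Algebra k L]
  {ξ : τ → L} {q : Ideal (MvPolynomial τ k)} [q.IsPrime] {i : τ} (h : Ch w ξ q i)

/-- The graded form of the dehomogenization. -/
noncomputable def tw : MvPolynomial τ k →ₐ[k] Polynomial (locw w ξ q) :=
  aeval fun j => Polynomial.C (germ h (X j)) * Polynomial.X ^ w j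

theorem aeval_germ (f : MvPolynomial τ k) : aeval (fun j => germ h (X j)) f = germ h f := by
  rw [← map_aeval', aeval_X_left_apply]

theorem tw_hom {f : MvPolynomial τ k} {d : ℕ} (hf : IsWeightedHomogeneous w f d) :
    tw h f = Polynomial.C (germ h f) * Polynomial.X ^ d := by
  rw [tw, aeval_tw hf, aeval_germ]

theorem tw_coeff (f : MvPolynomial τ k) (d : ℕ) :
    (tw h f).coeff d = germ h (weightedHomogeneousComponent w d f) := by
  rw [tw, coeff_tw, aeval_germ]

theorem tw_X : tw h (X i) = Polynomial.X := by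
  rw [tw_hom h (isWeightedHomogeneous_X k w i), germ_X, h.wt]
  simp

theorem tw_eq_zero {f : MvPolynomial τ k} : tw h f = 0 ↔ f ∈ vanw k w ξ := by
  rw [mem_vanw, Polynomial.ext_iff]
  refine forall_congr' fun d => ?_
  rw [tw_coeff, Polynomial.coeff_zero, Subtype.ext_iff,
    coe_germ_of_hom h (weightedHomogeneousComponent_isWeightedHomogeneous _ _)]
  simp [h.ne]

end FL

open FL in
theorem t_FL : S_LOC → S_FL := by
  intro hL k _ τ _ w L _ _ ξ q hq i h hW
  obtain ⟨_, _, hu, hs, -⟩ := hL k τ w L ξ q i h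
  have h1 : q = (mX (locw w ξ q)).comap (tw h : MvPolynomial τ k →+* Polynomial (locw w ξ q)) := by
    ext f
    simp only [Ideal.mem_comap, RingHom.coe_coe, Ideal.mem_map_C_iff, tw_coeff, mem_maximalIdeal,
      mem_nonunits_iff, hu _ _ (weightedHomogeneousComponent_isWeightedHomogeneous _ _), not_not]
    refine ⟨hW f, fun hf => ?_⟩
    obtain ⟨n, e, -⟩ := exists_sum_comp w f
    exact e ▸ q.sum_mem fun d _ => hf d
  have h1' : ∀ f, f ∈ q ↔ tw h f ∈ mX (locw w ξ q) := fun f => by
    conv_lhs => rw [h1]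
    rfl
  have h2 : ∀ p : Polynomial (locw w ξ q), ∃ g s, s ∉ q ∧ p * tw h s = tw h g := fun p => by
    induction p using Polynomial.induction_on' with
    | add p p' hp hp' =>
      obtain ⟨g, s, e1, e2⟩ := hp
      obtain ⟨g', s', e3, e4⟩ := hp'
      refine ⟨g * s' + g' * s, s * s', fun hm => (hq.mem_or_mem hm).elim e1 e3, ?_⟩
      rw [map_add, map_mul, map_mul, map_mul, ← e2, ← e4]
      ring
    | monomial n u =>
      obtain ⟨d, g, s, e1, e2, e3, e4⟩ := hs u
      refine ⟨g * X i ^ n, s, e3, ?_⟩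
      rw [map_mul, map_pow, tw_X, tw_hom h e1, tw_hom h e2, ← e4,
        ← Polynomial.C_mul_X_pow_eq_monomial, map_mul]
      ring
  let S := Localization.AtPrime (mX (locw w ξ q))
  let A := Localization.AtPrime q
  let φ : A →+* S := Localization.localRingHom q _ _ h1
  have hφ : ∀ f, φ (algebraMap _ A f) = algebraMap _ S (tw h f) :=
    Localization.localRingHom_to_map q _ _ h1
  have hU : ∀ s, s ∉ q → IsUnit (algebraMap _ A s) := fun s hs =>
    IsLocalization.map_units A (⟨s, hs⟩ : q.primeCompl)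
  have h3 : Function.Surjective φ := fun z => by
    obtain ⟨⟨a, b⟩, e⟩ := IsLocalization.surj (mX (locw w ξ q)).primeCompl z
    obtain ⟨g, s, e1, e2⟩ := h2 a
    obtain ⟨g', s', e3, e4⟩ := h2 b
    have e5 : g' * s ∉ q := fun hm => (hq.mem_or_mem hm).elim (fun h' =>
      (Ideal.IsPrime.mem_or_mem inferInstance (e4 ▸ (h1' _).1 h')).elim b.2
        fun h' => e3 ((h1' _).2 h')) e1
    obtain ⟨v, hv⟩ := (hU _ e5).exists_right_inv
    refine ⟨algebraMap _ A (g * s') * v, ?_⟩
    have e6 : φ (algebraMap _ A (g * s')) = z * φ (algebraMap _ A (g' * s)) := by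
      rw [hφ, hφ, map_mul, map_mul (tw h), ← e2, ← e4]
      simp only [map_mul] at e ⊢
      rw [← e]
      ring
    rw [map_mul, e6, mul_assoc, ← map_mul, hv, map_one, mul_one]
  have h4 : RingHom.ker φ = (vanw k w ξ).map (algebraMap _ A) := by
    have hi : Function.Injective (algebraMap (Polynomial (locw w ξ q)) S) :=
      IsLocalization.injective S (mX (locw w ξ q)).primeCompl_le_nonZeroDivisors
    refine le_antisymm (fun z hz => ?_) (Ideal.map_le_iff_le_comap.2 fun f hf => ?_)
    · obtain ⟨⟨a, b⟩, e⟩ := IsLocalization.surj q.primeCompl z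
      refine (Ideal.mul_unit_mem_iff_mem _ (hU b b.2)).1 (e ▸ Ideal.mem_map_of_mem _
        ((tw_eq_zero h).1 (hi ?_)))
      rw [← hφ, ← e, map_mul, RingHom.mem_ker.1 hz, zero_mul, map_zero]
    · rw [Ideal.mem_comap, RingHom.mem_ker, hφ, (tw_eq_zero h).2 hf, map_zero]
  refine ⟨(dim _).symm.trans (ringKrullDim_eq_of_ringEquiv ((Ideal.quotEquivOfEq h4.symm).trans
    (RingHom.quotientKerEquivOfSurjective h3))).symm, fun J hJ => ?_⟩
  have hX : ∀ d, IsUnit (algebraMap _ S (Polynomial.X ^ d : Polynomial (locw w ξ q))) := fun d => by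
    rw [← tw_X h, ← map_pow, ← hφ]
    exact (hU _ fun hm => h.nm (hq.mem_of_pow_mem _ hm)).map φ
  have h5 : ∀ f d, IsWeightedHomogeneous w f d → φ (algebraMap _ A f) =
      algebraMap _ S (germ h f) * algebraMap _ S (Polynomial.X ^ d : Polynomial (locw w ξ q)) :=
    fun f d hf => by rw [hφ, tw_hom h hf, map_mul]; rfl
  have h6 : (J.map (germ h)).map (algebraMap _ S) = (J.map (algebraMap _ A)).map φ := by
    refine le_antisymm ?_ ?_ <;> rw [Ideal.map_le_iff_le_comap, Ideal.map_le_iff_le_comap] <;>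
      refine hJ.le_of_hom fun f d hf hf' => ?_
    · exact (Ideal.mul_unit_mem_iff_mem _ (hX d)).1
        (h5 f d hf ▸ Ideal.mem_map_of_mem _ (Ideal.mem_map_of_mem _ hf'))
    · rw [Ideal.mem_comap, Ideal.mem_comap, h5 f d hf]
      exact Ideal.mul_mem_right _ _ (Ideal.mem_map_of_mem _ (Ideal.mem_map_of_mem _ hf'))
  rw [← lq_map, h6, ← lq_comap φ h3, Ideal.comap_map_of_surjective φ h3, ← RingHom.ker_eq_comap_bot,
    h4, ← Ideal.map_sup, sup_comm]
  rfl

end Pool.Agent.P.MP_12d50c_ag
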