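import Pool.Agent.P.MP_12d50c_ag.If2

/-!
Finite subfields and rationality.
-/

open MvPolynomial

namespace Pool.Agent.P.MP_12d50c_ag

namespace FQ

theorem pow_fix {k : Type} [Field k] {p t : ℕ} {x : k} (h : x ^ p ^ t = x) (j : ℕ) :
    x ^ p ^ (t * j) = x := by
  induction j with
  | zero => simp
  | succ j ih => rw [Nat.mul_succ, pow_add, pow_mul, ih, h]

theorem isFq (k : Type) [Field k] [IsAlgClosed k] (p : ℕ) [hp : Fact p.Prime] [CharP k p] {s : ℕ}
    (hs : s ≠ 0) : IsFq p s ((frob k p s).eqLocusField (RingHom.id k)) := by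
  have hm : ∀ x, x ∈ (frob k p s).eqLocusField (RingHom.id k) ↔ x ^ (p ^ s) ^ 2 = x := fun x => by
    rw [← frob_apply]
    rfl
  refine ⟨hm, ?_⟩
  have h1 : 1 < (p ^ s) ^ 2 := Nat.one_lt_pow two_ne_zero (Nat.one_lt_pow hs hp.out.one_lt)
  have h2 := Polynomial.card_rootSet_eq_natDegree (K := k) (galois_poly_separable (K := k) p
    ((p ^ s) ^ 2) ((dvd_pow_self p hs).trans (dvd_pow_self _ two_ne_zero))) (IsAlgClosed.splits _)
  rw [FiniteField.X_pow_card_sub_X_natDegree_eq k h1, Fintype.card_eq_nat_card] at h2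
  refine (Nat.card_congr (Equiv.subtypeEquivRight fun x => ?_)).trans h2
  rw [hm, Polynomial.mem_rootSet_of_ne (FiniteField.X_pow_card_sub_X_ne_zero k h1)]
  simp [sub_eq_zero]

theorem map_fix {k : Type} [Field k] {p : ℕ} [Fact p.Prime] [CharP k p] {s N : ℕ}
    {F : Subfield k} (h : IsFq p s F) {f : PP k N} (hf : RatP F f) :
    map (frob k p s) f = f := by
  ext m
  rw [coeff_map, h.frob_eq.2 (hf m)]

end FQ

open FQ in
theorem t_FQ : S_FQ := by
  intro k _ _ p hp _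
  refine ⟨fun hL S hS s₀ => ?_, fun hL x hx => ?_, fun N I => ?_,
    fun s F N I Q a hF hI ha hQ f hf => ?_⟩
  · choose t ht h using hL
    have hP : 0 < ∏ x ∈ hS.toFinset, t x := Finset.prod_pos fun x _ => ht x
    refine ⟨(∏ x ∈ hS.toFinset, t x) * (s₀ + 1), _,
      (Nat.le_succ s₀).trans (Nat.le_mul_of_pos_left _ hP),
      isFq k p (Nat.mul_pos hP s₀.succ_pos).ne', fun x hx => ?_⟩
    obtain ⟨j, hj⟩ := Finset.dvd_prod_of_mem t (hS.mem_toFinset.2 hx)
    refine ((isFq k p (Nat.mul_pos hP s₀.succ_pos).ne').mem x).2 ?_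
    rw [← pow_mul, hj, mul_assoc, mul_assoc]
    exact pow_fix (h x) _
  · obtain ⟨s, hs, h⟩ := hL x
    have h1 : 1 < p ^ s := Nat.one_lt_pow hs.ne' hp.out.one_lt
    refine ⟨p ^ s - 1, by omega, mul_right_cancel₀ hx ?_⟩
    rw [← pow_succ, Nat.sub_add_cancel h1.le, h, one_mul]
  · obtain ⟨G, hG⟩ := IsNoetherian.noetherian I
    refine ⟨insert 0 (⋃ g ∈ G, (fun m => coeff m g) '' g.support),
      (G.finite_toSet.biUnion fun g _ => g.support.finite_toSet.image _).insert 0,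
      fun F hF => ?_⟩
    refine hG.ge.trans (Ideal.span_mono fun g hg => ⟨hG ▸ Submodule.subset_span hg, fun m => ?_⟩)
    by_cases h0 : coeff m g = 0
    · rw [h0]
      exact zero_mem F
    · exact hF (Or.inr (Set.mem_biUnion hg ⟨m, mem_support_iff.2 h0, rfl⟩))
  · obtain ⟨n, hn⟩ := hQ.rad hf
    have h1 : I ⊔ Ideal.span {a} ≤ Q.comap (map (frob k p s)) := by
      refine sup_le (le_trans hI (Ideal.span_le.2 fun g hg => ?_)) (Ideal.span_le.2 ?_)
      · exact Ideal.mem_comap.2 ((map_fix hF hg.2).symm ▸ hQ.le hg.1)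
      · rintro _ rfl
        exact Ideal.mem_comap.2 ((map_fix hF ha).symm ▸ hQ.mem)
    have h2 := Ideal.mem_comap.1 (h1 hn)
    rw [map_pow] at h2
    exact hQ.sm.prime.mem_of_pow_mem n h2

end Pool.Agent.P.MP_12d50c_ag
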