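import Pool.Agent.P.MP_12d50c_ag.If4

/-!
Lengths are preserved by separable algebraic extension of the ground field.
-/

open MvPolynomial

namespace Pool.Agent.P.MP_12d50c_ag

namespace FU

theorem flat_ext (F k τ : Type) [Field F] [Field k] [Algebra F k] : (ext F k τ).Flat := by
  letI : Algebra (MvPolynomial τ F) (MvPolynomial τ k) := algebraMvPolynomial
  have h : (algebraMap F k).Flat := RingHom.flat_algebraMap_iff.2 inferInstance
  exact RingHom.Flat.isStableUnderBaseChange F k (MvPolynomial τ F) (MvPolynomial τ k) h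

theorem len_flat {R S : Type} [CommRing R] [CommRing S] (f : R →+* S) (hf : f.Flat) (J : Ideal R)
    (Q : Ideal S) [Q.IsPrime]
    (h : ∀ a ∈ Q, ∃ s, s ∉ Q ∧ s * a ∈ (Q.comap f).map f) :
    len (J.map f) Q = len J (Q.comap f) := by
  let A := Localization.AtPrime (Q.comap f)
  let B := Localization.AtPrime Q
  letI : Algebra A B := (Localization.localRingHom (Q.comap f) Q f rfl).toAlgebra
  have : Module.Flat A B := hf.localRingHom Q (Q.comap f) rfl
  have : IsLocalHom (algebraMap A B) := Localization.isLocalHom_localRingHom _ _ _ _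
  have hc : (algebraMap A B).comp (algebraMap R A) = (algebraMap S B).comp f :=
    RingHom.ext fun x => Localization.localRingHom_to_map _ _ _ rfl x
  have e : ∀ I : Ideal R, (I.map (algebraMap R A)).map (algebraMap A B) =
      (I.map f).map (algebraMap S B) := fun I => by rw [Ideal.map_map, Ideal.map_map, hc]
  have hm : (IsLocalRing.maximalIdeal A).map (algebraMap A B) = Q.map (algebraMap S B) := by
    rw [← Localization.AtPrime.map_eq_maximalIdeal, e]
    refine le_antisymm (Ideal.map_mono Ideal.map_comap_le) (Ideal.map_le_iff_le_comap.2 ?_)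
    intro a ha
    obtain ⟨s, hs, hsa⟩ := h a ha
    have h1 := Ideal.mem_map_of_mem (algebraMap S B) hsa
    rw [map_mul] at h1
    exact (Ideal.unit_mul_mem_iff_mem _
      (IsLocalization.map_units B (⟨s, hs⟩ : Q.primeCompl))).1 h1
  have h1 := IsLocalRing.length_baseChange A B (A ⧸ J.map (algebraMap R A))
  rw [← (Algebra.TensorProduct.quotIdealMapEquivTensorQuot B
    (J.map (algebraMap R A))).toLinearEquiv.length_eq, e, hm] at h1
  have h2 : Module.length B (B ⧸ Q.map (algebraMap S B)) = 1 := len_self Q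
  rw [h2, mul_one] at h1
  exact h1

end FU

open FU in
theorem t_FU : S_RD1 → S_FU := by
  intro hR F k _ _ _ _ τ _ J P' _
  classical
  obtain ⟨h1, h2⟩ := hR F k τ
  refine len_flat _ (flat_ext F k τ) J P' fun a ha => ?_
  let Q : PrimeSpectrum (MvPolynomial τ k) := ⟨P', ‹_›⟩
  obtain ⟨hfin, -, hmem⟩ := h1 (PrimeSpectrum.comap (ext F k τ) Q)
  have h3 : ∀ P'' : PrimeSpectrum (MvPolynomial τ k), ∃ s, P'' ∈ hfin.toFinset.erase Q →
      s ∈ P''.asIdeal ∧ s ∉ P' := by
    intro P''
    by_cases hP : P'' ∈ hfin.toFinset.erase Q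
    · obtain ⟨hne, hP2⟩ := Finset.mem_erase.1 hP
      have h4 : ¬ P''.asIdeal ≤ P' := fun hle =>
        hne (((h2 P'').2.2 Q (hfin.mem_toFinset.1 hP2).symm).1 hle)
      obtain ⟨s, hs1, hs2⟩ := SetLike.not_le_iff_exists.1 h4
      exact ⟨s, fun _ => ⟨hs1, hs2⟩⟩
    · exact ⟨0, fun h => (hP h).elim⟩
  choose s hs using h3
  refine ⟨∏ P'' ∈ hfin.toFinset.erase Q, s P'', fun h => ?_, hmem _ fun P'' hP => ?_⟩
  · obtain ⟨P'', hP, h5⟩ := (Ideal.IsPrime.prod_mem_iff (hp := ‹_›)).1 h
    exact (hs P'' hP).2 h5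
  · by_cases e : P'' = Q
    · rw [e]
      exact Ideal.mul_mem_left _ _ ha
    · have hP2 : P'' ∈ hfin.toFinset.erase Q := Finset.mem_erase.2 ⟨e, hfin.mem_toFinset.2 hP⟩
      exact Ideal.mul_mem_right _ _ (Ideal.mem_of_dvd _ (Finset.dvd_prod_of_mem s hP2) (hs _ hP2).1)

end Pool.Agent.P.MP_12d50c_ag
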