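import Pool.Agent.P.MP_12d50c_ag.If1

/-!
The Euclidean algorithm for symbols.
-/

open MvPolynomial IsLocalRing

namespace Pool.Agent.P.MP_12d50c_ag

namespace FULT

theorem mem_of_dvd {R : Type} [CommRing R] {b x y : R}
    (h : Ideal.Quotient.mk (Ideal.span {b}) x ∣ Ideal.Quotient.mk (Ideal.span {b}) y) :
    y ∈ Ideal.span {b, x} := by
  obtain ⟨c, hc⟩ := h
  obtain ⟨c, rfl⟩ := Ideal.Quotient.mk_surjective c
  rw [← map_mul, Ideal.Quotient.eq, Ideal.mem_span_singleton'] at hc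
  obtain ⟨a, ha⟩ := hc
  exact Ideal.mem_span_pair.2 ⟨a, c, by rw [ha]; ring⟩

theorem range_two {α : Type} (f : Fin 2 → α) : Set.range f = {f 0, f 1} := by
  ext
  simp [Fin.exists_fin_two, eq_comm]

variable {k : Type} [Field k] {N : ℕ} {I : Ideal (PP k N)}

theorem bad_comm (h g : PP k N) : BadPt I h g = BadPt I g h := by
  ext y
  exact ⟨fun H => ⟨H.1, H.2.2, H.2.1⟩, fun H => ⟨H.1, H.2.2, H.2.1⟩⟩

theorem zs_comm (h g : PP k N) : Zs I h g = Zs I g h := by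
  ext y
  exact ⟨fun H => ⟨H.1, H.2.2, H.2.1⟩, fun H => ⟨H.1, H.2.2, H.2.1⟩⟩

theorem mu_comm (h g : PP k N) : mu I h g = mu I g h := by
  simp only [mu, bad_comm h g, inter_comm I _ h g]

theorem cop_C (hI : I.IsPrime) {h g : PP k N} (H : Cop I h g) {c : k} (hc : c ≠ 0) :
    Cop I h (C c) :=
  ⟨H.hl, ⟨0, isHomogeneous_C _ c⟩, H.nl,
    fun hm => hI.ne_top (Ideal.eq_top_of_isUnit_mem _ hm ((Ne.isUnit hc).map C)),
    Set.finite_empty.subset fun y hy => hc (by simpa using hy.2.2)⟩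

theorem comparable (hREG : S_REG) (hREG2 : S_REG2) (hI : IsSm 2 I) {z : NP k N} (hz : On I z.1)
    {b : PP k N} {m : ℕ} (hb : b.IsHomogeneous m) (hg : Good I b) (h0 : aeval z.1 b = 0)
    (h g : PP k N) : toL I (van k z.1) g ∈ (Ideal.span {b, h}).map (toL I (van k z.1)) ∨
      toL I (van k z.1) h ∈ (Ideal.span {b, g}).map (toL I (van k z.1)) := by
  have := hI.prime
  have hle : I ≤ van k z.1 := hI.hom.on_iff.1 hz
  have := isDomain_LQ hle
  have := isLocalRing_LQ hle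
  obtain ⟨h1, h2⟩ := hREG k N I z hI.hom hz
  obtain ⟨h2, c, h3⟩ := h2 2 hI
  obtain ⟨_, h4⟩ := (hREG2 (LQ I (van k z.1)) (by exact_mod_cast h2) ⟨_, _, by
    rw [maximalIdeal_LQ, h3, range_two]⟩).2.2.1 (toL I (van k z.1) b)
    (by rw [maximalIdeal_LQ, toL_mem_mQ hle, mem_van_of_hom hb]; exact h0)
    (by rw [maximalIdeal_LQ, ← h1 b m hb]; exact hg z hz)
  simp only [Ideal.map_span, Set.image_pair]
  exact (ValuationRing.dvd_total _ _).imp mem_of_dvd mem_of_dvd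

end FULT

open FULT in
theorem t_FULT : S_NE → S_INT → S_AV → S_EXG → S_REG → S_REG2 → S_FULT0 → S_FULT1 → S_FULT2 →
    S_FULT := by
  intro _ hINT hAV hEXG hREG hREG2 h0 h1 h2 k _ _ N I s hI hs
  have hS := hI.toIsSm
  have hm := (hINT k N I hS).2.2.1
  suffices H : ∀ n, ∀ h g, Cop I h g → mu I h g = n → s h g = 0 from
    fun h g H' => H _ h g H' rfl
  intro n
  induction n using Nat.strong_induction_on with
  | _ n ih =>
  have step : ∀ h g b (z : NP k N), Cop I h g → mu I h g = n → z ∈ BadPt I h g →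
      b.IsHomogeneous 2 → Good I b → aeval z.1 b = 0 →
      (∀ y ∈ Zs I h g, y ≠ z → aeval y.1 b ≠ 0) → Cop I h b →
      toL I (van k z.1) g ∈ (Ideal.span {b, h}).map (toL I (van k z.1)) → s h g = 0 := by
    intro h g b z H hn hz b1 b2 b3 b4 b5 b6
    obtain ⟨t, g₁, n', e, t0, t1, t2, t3, t4, t5, t6, t7, t8⟩ :=
      h1 k N I h g b z 2 hI H ⟨hz.1, hz.2.1.1, hz.2.2.1⟩ b1 two_pos b2 b3 b4 b5 b6
    have e1 := ih _ (hn ▸ h2 k N I h g b t g₁ z n' hS H hz b3 b4 b5 t1 t2 t3 t4 t7 t8) h g₁ t7 rfl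
    have e2 := hs.congr h _ _ e (hm h g t H t3).1 (hm h b g₁ b5 t7).1 t5 t6 t8
    rw [hs.mul _ _ _ H t3, hs.mul _ _ _ b5 t7, e1, hs.good h t n' t0 t1 t2 t3,
      hs.good h b 2 two_pos b1 b2 b5] at e2
    linarith
  intro h g H hn
  rcases (BadPt I h g).eq_empty_or_nonempty with hB | ⟨z, hz⟩
  · obtain ⟨r, t, u, c, m, m', m0, m1, r1, r2, r3, t1, t2, t3, e1, hc, e2⟩ :=
      h0 k N I h g hI H hB
    have c1 := cop_C hS.prime H hc
    have c2 := (hm h r g r3 H).1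
    have e3 := hs.congr h t (C c * (r * g)) m' t3 (hm h _ _ c1 c2).1 t1 (e1.C_mul c) (by
      rw [e2, add_sub_cancel_left]
      exact Ideal.mem_sup_right (Ideal.mul_mem_right _ _ (Ideal.mem_span_singleton_self h)))
    rw [hs.mul _ _ _ c1 c2, hs.mul _ _ _ r3 H, hs.const _ _ c1, hs.good h r m m0 r1 r2 r3,
      hs.good h t m' m1 t1 t2 t3] at e3
    linarith
  · obtain ⟨e, he⟩ := H.hl
    obtain ⟨e', he'⟩ := H.hr
    obtain ⟨T₁, a1, a2, a3⟩ := hAV k N I h e {z} hS he H.nl (Set.finite_singleton z)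
    obtain ⟨T₂, d1, d2, d3⟩ := hAV k N I g e' {z} hS he' H.nr (Set.finite_singleton z)
    obtain ⟨b, b1, b2, b3, b4⟩ := (hEXG k N I (Zs I h g \ {z} ∪ (T₁ ∪ T₂)) hI
      (H.fin.sdiff.union (a1.union d1))).2 z hz.1 (by
        rintro (h | h | h)
        · exact h.2 rfl
        · exact (a2 z h).2 rfl
        · exact (d2 z h).2 rfl) 2 le_rfl
    have b5 : ∀ y ∈ Zs I h g, y ≠ z → aeval y.1 b ≠ 0 := fun y hy hn => b4 y (Or.inl ⟨hy, hn⟩)
    rcases comparable hREG hREG2 hS hz.1 b1 b2 b3 h g with h3 | h3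
    · exact step h g b z H hn hz b1 b2 b3 b5
        (a3 b 2 b1 fun y hy => b4 y (Or.inr (Or.inl hy))) h3
    · rw [hs.symm h g H]
      exact step g h b z H.symm (mu_comm g h ▸ hn) (bad_comm h g ▸ hz) b1 b2 b3
        (zs_comm h g ▸ b5) (d3 b 2 b1 fun y hy => b4 y (Or.inr (Or.inr hy))) h3

end Pool.Agent.P.MP_12d50c_ag
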