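import Pool.Agent.P.MP_12d50c_ag.If1

/-!
The curvilinear case.
-/

open MvPolynomial

namespace Pool.Agent.P.MP_12d50c_ag

namespace FULT0

theorem sing_of_mul {k : Type} [Field k] {N : ℕ} {I : Ideal (PP k N)} {y : Fin (N + 1) → k}
    {a u : PP k N} (h : Sing I y (a * u)) (hu : aeval y u ≠ 0) : Sing I y a := by
  have h1 : aeval y a = 0 := by
    have := h.1
    rw [map_mul] at this
    exact (mul_eq_zero.1 this).resolve_right hu
  refine ⟨h1, fun δ hδ => ?_⟩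
  have := h.2 δ hδ
  rw [grad_mul, h1, zero_mul, zero_add] at this
  exact (mul_eq_zero.1 this).resolve_left hu

end FULT0

theorem t_FULT0 : S_NE → S_INT → S_AV → S_EXG → S_BERT → S_FULT0 := by
  intro hNE hINT hAV hEXG hBERT k _ _ N I h g hI hc hbad
  obtain ⟨e, he⟩ := hc.hl
  obtain ⟨e', he'⟩ := hc.hr
  obtain ⟨T, T1, -, T3⟩ := hAV k N I h e ∅ hI.toIsSm he hc.nl Set.finite_empty
  have hE := (hEXG k N I (T ∪ Zs I h g) hI (T1.union hc.fin)).1
  obtain ⟨r, r1, r2, r3⟩ := hE (e + 1) (by omega)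
  have r4 : Cop I h r := T3 r _ r1 fun y hy => r3 y (.inl hy)
  have r5 : Cop I h (r * g) := ((hINT k N I hI.toIsSm).2.2.1 h r g r4 hc).1
  have r6 := r1.mul he'
  rcases Nat.eq_zero_or_pos e with rfl | e0
  · obtain ⟨s, s1, s2, s3⟩ := hE (0 + 1 + e') (by omega)
    have h1 : h = C (h.coeff 0) :=
      totalDegree_eq_zero_iff_eq_C.1 (Nat.le_zero.1 he.totalDegree_le)
    have h2 : h.coeff 0 ≠ 0 := fun h0 => hc.nl (by rw [h1, h0, map_zero]; exact zero_mem _)
    refine ⟨r, s, C (h.coeff 0)⁻¹ * (s - r * g), 1, _, _, by omega, by omega, r1, r2, r4, s1, s2,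
      T3 s _ s1 fun y hy => s3 y (.inl hy), r6, one_ne_zero, ?_⟩
    generalize h.coeff 0 = c at h1 h2
    rw [h1, ← mul_assoc (C c), ← map_mul, mul_inv_cancel₀ h2, map_one]
    ring
  obtain ⟨V, hV⟩ : ∃ V : Submodule k (PP k N), ∀ a, a ∈ V ↔
      ∃ t : PP k N, t.IsHomogeneous (1 + e') ∧ h * t = a :=
    ⟨(homogeneousSubmodule (Fin (N + 1)) k (1 + e')).map (LinearMap.mulLeft k h), fun _ => Iff.rfl⟩
  have hW : Submodule.span k {r * g} ⊔ V ≤ homogeneousSubmodule (Fin (N + 1)) k (e + 1 + e') := by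
    refine sup_le (Submodule.span_le.2 (Set.singleton_subset_iff.2 r6)) fun a ha => ?_
    obtain ⟨t, t1, rfl⟩ := (hV a).1 ha
    rw [add_assoc]
    exact he.mul t1
  have m1 : r * g ∈ Submodule.span k {r * g} ⊔ V :=
    Submodule.mem_sup_left (Submodule.mem_span_singleton_self _)
  obtain ⟨s, s1, s2, s3⟩ := hBERT k N I (e + 1 + e') _ {h}
    (insert V ((fun y : NP k N => singSub I y.1) '' Zs I h (r * g))) hI hW (Set.finite_singleton _)
    ((r5.fin.image _).insert _) (by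
      rintro _ rfl
      refine ⟨e, by omega, he, fun t ht => Submodule.mem_sup_right ((hV _).2 ⟨t, ?_, rfl⟩)⟩
      rwa [show e + 1 + e' - e = 1 + e' by omega] at ht) (by
      rintro _ (rfl | ⟨y, hy, rfl⟩) hle
      · obtain ⟨t, -, t2⟩ := (hV _).1 (hle m1)
        exact ((hNE k N I hI.toIsSm).1 h e he e0) (r5.fin.subset fun y hy =>
          ⟨hy.1, hy.2, by rw [← t2, map_mul, hy.2, zero_mul]⟩)
      · have a1 : Sing I y.1 h := FULT0.sing_of_mul (u := X y.piv ^ (1 + e'))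
          (hle (Submodule.mem_sup_right ((hV _).2 ⟨_, isHomogeneous_X_pow _ _, rfl⟩)))
          (by simp [y.piv_eq])
        have a2 : Sing I y.1 (r * g) := hle m1
        by_cases a3 : aeval y.1 g = 0
        · have : y ∈ BadPt I h g := ⟨hy.1, a1, FULT0.sing_of_mul (mul_comm r g ▸ a2)
            (r3 y (.inr ⟨hy.1, hy.2.1, a3⟩))⟩
          rw [hbad] at this
          exact this
        · exact r2 y hy.1 (FULT0.sing_of_mul a2 a3))
  have s4 := hW s1
  obtain ⟨_, b1, _, b2, rfl⟩ := Submodule.mem_sup.1 s1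
  obtain ⟨c, rfl⟩ := Submodule.mem_span_singleton.1 b1
  obtain ⟨t, -, rfl⟩ := (hV _).1 b2
  have c0 : c ≠ 0 := by
    rintro rfl
    exact s2 V (Set.mem_insert _ _) (by rwa [zero_smul, zero_add])
  have c1 : ∀ y : NP k N, aeval y.1 h = 0 → aeval y.1 (c • (r * g) + h * t) = 0 →
      aeval y.1 (r * g) = 0 := fun y a1 a2 => by
    rw [map_add, map_smul, map_mul _ h, a1, zero_mul, add_zero] at a2
    exact (smul_eq_zero.1 a2).resolve_left c0
  refine ⟨r, _, t, c, _, _, by omega, by omega, r1, r2, r4, s4, fun y hy hs => ?_,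
    (hNE k N I hI.toIsSm).2 h _ e _ he s4 e0 (by omega) (r5.fin.subset fun y hy =>
      ⟨hy.1, hy.2.1, c1 y hy.2.1 hy.2.2⟩), r6, c0, by rw [smul_eq_C_mul]⟩
  by_cases a1 : aeval y.1 h = 0
  · exact s2 _ (Set.mem_insert_of_mem _ ⟨y, ⟨hy, a1, c1 y a1 hs.1⟩, rfl⟩) hs
  · exact s3 y hy ⟨h, rfl, a1⟩ hs

end Pool.Agent.P.MP_12d50c_ag
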