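import Pool.Agent.P.MP_12d50c_ag.If1

/-! One step of the Euclidean algorithm on a surface. -/

open MvPolynomial

namespace Pool.Agent.P.MP_12d50c_ag

namespace FULT1

variable {k : Type} [Field k] {N : ℕ}

theorem comp_mul {a : PP k N} {e : ℕ} (ha : a.IsHomogeneous e) (f : PP k N) (d : ℕ) :
    weightedHomogeneousComponent 1 (e + d) (a * f) = a * weightedHomogeneousComponent 1 d f := by
  let := weightedGradedAlgebra k (1 : Fin (N + 1) → ℕ)
  rw [← weightedDecomposition.decompose'_apply, ← weightedDecomposition.decompose'_apply]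
  exact DirectSum.coe_decompose_mul_add_of_left_mem
    (weightedHomogeneousSubmodule k (1 : Fin (N + 1) → ℕ)) ha

theorem lift_hom {p : PP k N} {d n : ℕ} (hp : p.IsHomogeneous d) (h : d ≤ n) (i : Fin (N + 1)) :
    (p * X i ^ (n - d)).IsHomogeneous n := by
  have := hp.mul ((isHomogeneous_X k i).pow (n - d))
  rwa [one_mul, Nat.add_sub_cancel' h] at this

theorem aeval_lift (y : NP k N) (p : PP k N) (r : ℕ) :
    aeval y.1 (p * X y.piv ^ r) = aeval y.1 p := by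
  rw [map_mul, map_pow, aeval_X, y.piv_eq, one_pow, mul_one]

end FULT1

open FULT1 in
theorem t_FULT1 : S_NE → S_INT → S_AV → S_BERT → S_FULT1 := by
  intro hNE hINT hAV hBERT k _ _ N I h g b z m hI hhg hz hb hm hgood hbz hby hhb hmem
  obtain ⟨eh, hh⟩ := hhg.hl
  obtain ⟨eg, hg⟩ := hhg.hr
  have heh : 0 < eh := by
    refine Nat.pos_of_ne_zero fun h0 => hhg.nl ?_
    rw [h0, ← totalDegree_zero_iff_isHomogeneous, totalDegree_eq_zero_iff_eq_C] at hh
    have h1 := hz.2.1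
    rw [hh, aeval_C, map_eq_zero] at h1
    rw [hh, h1, map_zero]
    exact I.zero_mem
  have hA : Hom (I ⊔ Ideal.span {b, h}) := hI.hom.sup (wHom_span (by
    rintro _ (rfl | rfl)
    exacts [⟨m, hb⟩, ⟨eh, hh⟩]))
  have hA' : Hom (I ⊔ Ideal.span {h}) := hI.hom.sup (wHom_span (by
    rintro _ rfl
    exact ⟨eh, hh⟩))
  obtain ⟨J, hJ⟩ : ∃ J : Ideal (PP k N), ∀ f, f ∈ J ↔ g * f ∈ I ⊔ Ideal.span {b, h} :=
    ⟨(I ⊔ Ideal.span {b, h}).colon {g}, fun f => by
      rw [Submodule.mem_colon_singleton, smul_eq_mul, mul_comm]⟩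
  have hJh : Hom J := fun f hf d => (hJ _).2 (comp_mul hg f d ▸ hA _ ((hJ f).1 hf) _)
  have hbJ : b ∈ J := (hJ b).2
    (Ideal.mul_mem_left _ _ (Ideal.mem_sup_right (Ideal.subset_span (by simp))))
  have hhJ : h ∈ J := (hJ h).2
    (Ideal.mul_mem_left _ _ (Ideal.mem_sup_right (Ideal.subset_span (by simp))))
  obtain ⟨S, hS, hSJ⟩ := hJh.exists_gen
  choose! dg hdg using hS
  obtain ⟨s₀, h1, h2⟩ := toL_mem_map.1 hmem
  obtain ⟨d₁, h3⟩ := not_forall.1 (mem_vanw.not.1 h1)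
  have h4 := hJh s₀ ((hJ _).2 (mul_comm g s₀ ▸ h2)) d₁
  have h5 : (weightedHomogeneousComponent 1 d₁ s₀ : PP k N).IsHomogeneous d₁ :=
    weightedHomogeneousComponent_isWeightedHomogeneous _ _
  generalize weightedHomogeneousComponent 1 d₁ s₀ = s₁ at h3 h4 h5
  obtain ⟨T, hT, hT1, hT2⟩ := hAV k N I h eh _ hI.toIsSm hh hhg.nl hhb.fin
  obtain ⟨n, hn⟩ : ∃ n, S.sup dg + m + eh + d₁ < n := ⟨_, Nat.lt_succ_self _⟩
  have hW : ∀ (p : PP k N) (d : ℕ) (i : Fin (N + 1)), p ∈ J → p.IsHomogeneous d → d ≤ n →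
      p * X i ^ (n - d) ∈ J.restrictScalars k ⊓ homogeneousSubmodule (Fin (N + 1)) k n :=
    fun p d i h1 h2 h3 => ⟨J.mul_mem_right _ h1, lift_hom h2 h3 i⟩
  obtain ⟨s, ⟨hsJ, hs⟩, hsU, hsS⟩ := hBERT k N I n
    (J.restrictScalars k ⊓ homogeneousSubmodule (Fin (N + 1)) k n) S
    ((fun y : NP k N => singSub I y.1) '' Zs I h b ∪
      (fun y : NP k N => LinearMap.ker (aeval y.1 : PP k N →ₐ[k] k).toLinearMap) ''
        (Zs I h g ∪ T)) hI inf_le_right S.finite_toSet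
    ((hhb.fin.image _).union ((hhg.fin.union hT).image _))
    (fun f hf => by
      have h6 : dg f ≤ S.sup dg := Finset.le_sup hf
      refine ⟨dg f, by omega, hdg f hf, fun r hr =>
        ⟨J.mul_mem_right _ (hSJ ▸ Ideal.subset_span hf), ?_⟩⟩
      have := IsHomogeneous.mul (hdg f hf) hr
      rwa [Nat.add_sub_cancel' (by omega)] at this)
    (by
      have key : ∀ (y : NP k N) (p : PP k N) (d : ℕ), p ∈ J → p.IsHomogeneous d → d ≤ n →
          aeval y.1 p ≠ 0 → ¬ J.restrictScalars k ⊓ homogeneousSubmodule (Fin (N + 1)) k n ≤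
            LinearMap.ker (aeval y.1 : PP k N →ₐ[k] k).toLinearMap :=
        fun y p d h1 h2 h3 h4 h5 => h4 ((aeval_lift y p _).symm.trans (h5 (hW p d y.piv h1 h2 h3)))
      rintro _ (⟨y, hy, rfl⟩ | ⟨y, hy | hy, rfl⟩)
      · intro h6
        have h7 : Sing I y.1 _ := h6 (hW b m y.piv hbJ hb (by omega))
        refine hgood y hy.1 ⟨hy.2.2, fun δ hδ => ?_⟩
        have h8 := h7.2 δ hδ
        rwa [grad_mul, hy.2.2, zero_mul, zero_add, map_pow, aeval_X, y.piv_eq, one_pow,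
          one_mul] at h8
      · by_cases h6 : y = z
        · exact key y s₁ d₁ h4 h5 (by omega) (h6 ▸ h3)
        · exact key y b m hbJ hb (by omega) (hby y hy h6)
      · by_cases h6 : aeval y.1 h = 0
        · exact key y b m hbJ hb (by omega) fun h7 => (hT1 y hy).2 ⟨(hT1 y hy).1, h6, h7⟩
        · exact key y h eh hhJ hh (by omega) h6)
  have hs' : s.IsHomogeneous n := hs
  have hne : ∀ y ∈ Zs I h g ∪ T, aeval y.1 s ≠ 0 := fun y hy => hsU _ (Or.inr ⟨y, hy, rfl⟩)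
  have hhs : Cop I h s := hT2 s n hs' fun y hy => hne y (Or.inr hy)
  obtain ⟨i, hi, _, h6, h7⟩ := Submodule.mem_sup.1 ((hJ s).1 hsJ)
  obtain ⟨β, γ, rfl⟩ := Ideal.mem_span_pair.1 h6
  obtain ⟨e, he⟩ : ∃ e, eg + n = m + e := ⟨eg + n - m, by omega⟩
  have hgs : (g * s).IsHomogeneous (m + e) := he ▸ hg.mul hs'
  have h8 : g * s - b * β ∈ I ⊔ Ideal.span {h} := by
    rw [← h7, show i + (β * b + γ * h) - b * β = i + γ * h by ring]
    exact Ideal.add_mem _ (Ideal.mem_sup_left hi)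
      (Ideal.mem_sup_right (Ideal.mul_mem_left _ _ (Ideal.mem_span_singleton_self h)))
  have h9 := hA' _ h8 (m + e)
  rw [map_sub, comp_mul hb, IsWeightedHomogeneous.weightedHomogeneousComponent_same hgs] at h9
  have h10 : (weightedHomogeneousComponent 1 e β : PP k N).IsHomogeneous e :=
    weightedHomogeneousComponent_isWeightedHomogeneous _ _
  refine ⟨s, _, n, m + e, by omega, hs', fun y hy => ?_, hhs, fun y hy => hne y (Or.inl hy), hgs,
    hb.mul h10, (hNE k N I hI.toIsSm).2 h _ eh e hh h10 heh (by omega)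
      (((hINT k N I hI.toIsSm).2.2.1 h g s hhg hhs).1.fin.subset fun y hy => ⟨hy.1, hy.2.1, ?_⟩),
    h9⟩
  · by_cases h11 : ∃ f ∈ (S : Set (PP k N)), aeval y.1 f ≠ 0
    · exact hsS y hy h11
    · have h12 : On J y.1 := hSJ ▸ (on_span _).2 fun f hf => not_not.1 fun h => h11 ⟨f, hf, h⟩
      exact hsU _ (Or.inl ⟨y, ⟨hy, h12 h hhJ, h12 b hbJ⟩, rfl⟩)
  · have h11 := (on_sup _).2 ⟨hy.1, (on_span _).2 fun f (hf : f = h) => hf ▸ hy.2.1⟩ _ h9
    rwa [map_sub, map_mul _ b, hy.2.2, mul_zero, sub_zero] at h11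

end Pool.Agent.P.MP_12d50c_ag
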