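import Pool.Agent.P.MP_12d50c_ag.If1

/-! The measure decreases. -/

open MvPolynomial

namespace Pool.Agent.P.MP_12d50c_ag

namespace FULT2

variable {k : Type} [Field k] {N : ℕ} {I : Ideal (PP k N)} {y : Fin (N + 1) → k} {a b : PP k N}

theorem sing_mul (ha : Sing I y a) (b : PP k N) : Sing I y (b * a) :=
  ⟨by rw [map_mul, ha.1, mul_zero], fun δ hδ => by
    rw [grad_mul, ha.1, ha.2 δ hδ, mul_zero, zero_mul, add_zero]⟩

theorem sing_of_mul (h : Sing I y (a * b)) (ha : aeval y a ≠ 0) : Sing I y b := by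
  have h1 : aeval y b = 0 := (mul_eq_zero.1 ((map_mul _ a b).symm.trans h.1)).resolve_left ha
  refine ⟨h1, fun δ hδ => ?_⟩
  have h2 := h.2 δ hδ
  rw [grad_mul, h1, zero_mul, add_zero] at h2
  exact (mul_eq_zero.1 h2).resolve_left ha

theorem sup_le {h : PP k N} (H : a - b ∈ I ⊔ Ideal.span {h}) :
    I ⊔ Ideal.span {h, a} ≤ I ⊔ Ideal.span {h, b} := by
  refine _root_.sup_le le_sup_left (Ideal.span_le.2 ?_)
  rintro x (hx | hx)
  · exact Ideal.mem_sup_right (Ideal.subset_span (Or.inl hx))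
  · rw [show x = a from hx, ← sub_add_cancel a b]
    exact Ideal.add_mem _ (sup_le_sup_left (Ideal.span_mono (by simp)) I H)
      (Ideal.mem_sup_right (Ideal.subset_span (by simp)))

end FULT2

open FULT2 in
theorem t_FULT2 : S_INT → S_FULT2 := by
  intro hINT k _ _ N I h g b s g₁ z n hI hhg hz hbz _ hhb hs hgood hhs hne hhg₁ H
  obtain ⟨i1, i2, i3, -⟩ := hINT k N I hI
  obtain ⟨eh, hh⟩ := hhg.hl
  obtain ⟨m, hb⟩ := hhb.hr
  have hZ : BadPt I h g ⊆ Zs I h g := fun y hy => ⟨hy.1, hy.2.1.1, hy.2.2.1⟩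
  have hsub : BadPt I h g₁ ⊆ BadPt I h g := by
    rintro y ⟨h1, h2, h3⟩
    obtain ⟨i, hi, _, h4, h5⟩ := Submodule.mem_sup.1 H
    obtain ⟨c, rfl⟩ := Ideal.mem_span_singleton'.1 h4
    have h6 : Sing I y.1 (g * s) := by
      rw [← sub_add_cancel (g * s) (b * g₁), ← h5]
      exact (singSub I y.1).add_mem ((singSub I y.1).add_mem (sing_of_mem h1 hi) (sing_mul h2 c))
        (sing_mul h3 b)
    refine ⟨h1, h2, sing_of_mul (mul_comm g s ▸ h6) fun h7 => ?_⟩
    exact hgood y h1 (sing_of_mul h6 fun h8 => hne y ⟨h1, h2.1, h8⟩ h7)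
  have hfin := hhg.fin.subset hZ
  have key : ∀ y ∈ Zs I h g,
      (inter I y h g).toNat = (inter I y h b).toNat + (inter I y h g₁).toNat := by
    intro y hy
    have h1 : inter I y h s = 0 := (i1 h s eh n y hh hs).2 fun h2 => hne y hy h2.2.2
    have h2 : inter I y h (g * s) = inter I y h (b * g₁) := by
      rw [inter, inter, le_antisymm (sup_le H) (sup_le (neg_sub _ (b * g₁) ▸ neg_mem H))]
    rw [(i3 h g s hhg hhs).2, (i3 h b g₁ hhb hhg₁).2, h1, add_zero] at h2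
    rw [h2, ENat.toNat_add (i2 h b y hhb) (i2 h g₁ y hhg₁)]
  rw [mu, mu, finsum_mem_eq_finite_toFinset_sum _ hfin,
    finsum_mem_eq_finite_toFinset_sum _ (hfin.subset hsub)]
  refine (Finset.sum_le_sum_of_subset (Set.Finite.toFinset_subset_toFinset.2 hsub)).trans_lt
    (Finset.sum_lt_sum (fun y hy => ?_) ⟨z, hfin.mem_toFinset.2 hz, ?_⟩)
  · rw [key y (hZ (hfin.mem_toFinset.1 hy))]
    exact Nat.le_add_left _ _
  · rw [key z (hZ hz)]
    refine Nat.lt_add_of_pos_left (Nat.pos_of_ne_zero fun h1 => ?_)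
    rcases ENat.toNat_eq_zero.1 h1 with h2 | h2
    · exact (i1 h b eh m z hh hb).1 h2 ⟨hz.1, hz.2.1.1, hbz⟩
    · exact i2 h b z hhb h2

end Pool.Agent.P.MP_12d50c_ag
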