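import Pool.Agent.P.MP_12d50c_ag.If3

/-!
Dimension counts at the generic pencil.
-/

open MvPolynomial Function
open scoped Polynomial

namespace Pool.Agent.P.MP_12d50c_ag

namespace GE

variable {N m : ℕ}

section

variable {T T' : Type} [CommRing T] [CommRing T'] (z z' : Fin (N + 1) → T) (lam lam' : Mon N m → T)

/-- The member of the pencil attached to a pair of coefficient vectors. -/
noncomputable def mem (δ : Bool) (t : T) (β : Mon N m ⊕ Mon N m → T) : PP T N :=
  form (comb δ t (pr z z' lam lam' (β ∘ Sum.inl)) (pr z z' lam lam' (β ∘ Sum.inr)))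

theorem mem_lin (δ : Bool) (t : T) : IsLinearMap T (mem z z' lam lam' δ t) := by
  have h1 : ∀ β β', pr z z' lam lam' (β + β') = pr z z' lam lam' β + pr z z' lam lam' β' :=
    fun β β' => by
      simp only [pr, form_add, map_add, add_smul]
      abel
  have h2 : ∀ (s : T) β, pr z z' lam lam' (s • β) = s • pr z z' lam lam' β := fun s β => by
    simp only [pr, form_smul, map_mul, eval_C, smul_sub, mul_smul]
  constructor
  · intro β β'
    rw [mem, mem, mem, ← form_add, Pi.add_comp, Pi.add_comp, h1, h1]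
    cases δ
    · rfl
    · simp only [comb, cond_true, smul_add, add_add_add_comm]
  · intro s β
    rw [mem, mem, smul_eq_C_mul, ← form_smul, Pi.smul_comp, Pi.smul_comp, h2, h2]
    cases δ
    · rfl
    · simp only [comb, cond_true, smul_add, smul_comm s t]

theorem map_mem (φ : T →+* T') (δ : Bool) (t : T) (β : Mon N m ⊕ Mon N m → T) :
    map φ (mem z z' lam lam' δ t β) =
      mem (φ ∘ z) (φ ∘ z') (φ ∘ lam) (φ ∘ lam') δ (φ t) (φ ∘ β) := by
  have h : ∀ β s, φ (pr z z' lam lam' β s) =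
      pr (φ ∘ z) (φ ∘ z') (φ ∘ lam) (φ ∘ lam') (φ ∘ β) s := fun β s => by
    simp only [pr, Pi.sub_apply, Pi.smul_apply, smul_eq_mul, map_sub, map_mul, map_eval, map_form]
    rfl
  rw [mem, mem, map_form]
  refine congrArg form (funext fun s => ?_)
  cases δ
  · exact h _ s
  · simp only [comb, cond_true, Pi.add_apply, Pi.smul_apply, smul_eq_mul, map_add, map_mul, h]
    rfl

variable {z z'}

theorem pr_eq {c : Mon N m → T} (h : eval z (form c) = 0) (h' : eval z' (form c) = 0) :
    pr z z' lam lam' c = c := by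
  rw [pr, h, h', zero_smul, zero_smul, sub_zero, sub_zero]

theorem mem_sur {c : Mon N m → T} (h : eval z (form c) = 0) (h' : eval z' (form c) = 0) (δ : Bool)
    (t : T) : ∃ β, mem z z' lam lam' δ t β = form c := by
  have h0 : pr z z' lam lam' 0 = 0 := by simp [pr, form]
  cases δ
  · exact ⟨Sum.elim 0 c, congrArg form (pr_eq lam lam' h h')⟩
  · refine ⟨Sum.elim c 0, congrArg form ?_⟩
    rw [Sum.elim_comp_inl, Sum.elim_comp_inr, h0, pr_eq lam lam' h h', comb, cond_true, smul_zero,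
      add_zero]

theorem cong (φ : T →+* T') {l : ℕ} {g : Fin (N + 1) → T[X]} {γ : Fin (N + 1) → T'[X]}
    (h : ∀ c r, r < l → φ ((g c).coeff r) = (γ c).coeff r) (f : PP T N) {r : ℕ} (hr : r < l) :
    (aeval γ (map φ f)).coeff r = φ ((aeval g f).coeff r) := by
  have h1 : Polynomial.X ^ l ∣ aeval γ (map φ f) - (aeval g f).map φ := by
    induction f using MvPolynomial.induction_on with
    | C a => simp
    | add p q hp hq =>
      rw [map_add, map_add, map_add, Polynomial.map_add, add_sub_add_comm]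
      exact dvd_add hp hq
    | mul_X p c hp =>
      have h2 : Polynomial.X ^ l ∣ γ c - (g c).map φ := Polynomial.X_pow_dvd_iff.2 fun d hd => by
        rw [Polynomial.coeff_sub, Polynomial.coeff_map, h c d hd, sub_self]
      rw [map_mul, map_mul, map_mul, Polynomial.map_mul, map_X, aeval_X, aeval_X,
        ← sub_add_sub_cancel _ ((aeval g p).map φ * γ c), ← sub_mul, ← mul_sub]
      exact dvd_add (hp.mul_right _) (h2.mul_left _)
  have := Polynomial.X_pow_dvd_iff.1 h1 r hr
  rwa [Polynomial.coeff_sub, Polynomial.coeff_map, sub_eq_zero] at this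

end

variable {k Ω : Type} [Field k] [Field Ω] [Algebra k Ω]

omit [Algebra k Ω] in
theorem dist_map (φ : k →+* Ω) {y y' : Fin (N + 1) → k} : Dist (φ ∘ y) (φ ∘ y') ↔ Dist y y' := by
  simp only [Dist, comp_apply, ← map_mul, φ.injective.ne_iff]

theorem aeval_base (γ : Fin (N + 1) → Polynomial Ω) (f : PP k N) :
    aeval (base γ) f = (aeval γ f).coeff 0 := by
  induction f using MvPolynomial.induction_on <;> simp [base, *]

theorem mem_of_not (K : IntermediateField k Ω) {y : Fin (N + 1) → Ω} {z : Fin (N + 1) → k}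
    {i : Fin (N + 1)} (hy : y i = 1) (hz : ∃ i, z i = 1) (h : ¬ Dist y (algebraMap k Ω ∘ z))
    (c : Fin (N + 1)) : y c ∈ K := by
  simp only [Dist, not_exists, not_not, comp_apply] at h
  obtain ⟨i', hz⟩ := hz
  have h1 := h i i'
  have h2 := h c i
  rw [hy, one_mul] at h1 h2
  rw [hz, map_one] at h1
  rw [eq_div_of_mul_eq (right_ne_zero_of_mul_eq_one h1.symm) h2]
  exact div_mem (K.algebraMap_mem _) (K.algebraMap_mem _)

theorem exists_q (K : IntermediateField k Ω) {l : ℕ} {p : Polynomial Ω}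
    (h : ∀ r, r < l → p.coeff r ∈ K) :
    ∃ q : K[X], (∀ r, r < l → algebraMap K Ω (q.coeff r) = p.coeff r) ∧
      ∀ q' : K[X], q'.natDegree < l → q'.map (algebraMap K Ω) = p → q = q' := by
  classical
  refine ⟨Polynomial.ofFn l fun r => ⟨_, h r r.2⟩, fun r hr => ?_, fun q' h1 h2 => ?_⟩
  · rw [Polynomial.ofFn_coeff_eq_val_of_lt _ hr]
    rfl
  · rw [← Polynomial.ofFn_comp_toFn_eq_id_of_natDegree_lt h1]
    subst h2
    exact congrArg _ (funext fun r => Subtype.ext (Polynomial.coeff_map _ _))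

theorem lin (hTR : S_TR) (K : IntermediateField k Ω) {ρ : ℕ} {J ι : Type} [Fintype J] [Fintype ι]
    {w : J → Ω} {F : (J → Ω) → ι → Ω} {G : (J → K) → ι → K} (hρ : Algebra.trdeg k K ≤ ρ)
    (hw : AlgebraicIndependent k w) (hF : IsLinearMap Ω F)
    (hG : ∀ β i, F (algebraMap K Ω ∘ β) i = algebraMap K Ω (G β i)) (hs : Surjective G)
    (h0 : F w = 0) : Fintype.card ι ≤ ρ := by
  classical
  have key : ∀ v i, ∑ j, algebraMap K Ω (G (fun j' => if j = j' then 1 else 0) i) * v j = F v i :=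
    fun v i => by
      refine Eq.trans ?_ (congrFun ((hF.mk' F).pi_apply_eq_sum_univ v) i).symm
      rw [Finset.sum_apply]
      refine Finset.sum_congr rfl fun j _ => ?_
      rw [← hG, mul_comm]
      refine congrArg (fun u => v j * F u i) (funext fun j' => ?_)
      rw [comp_apply, apply_ite (algebraMap K Ω), map_one, map_zero]
  refine hTR.1 k Ω K ρ J ι w (fun i j => G (fun j' => if j = j' then 1 else 0) i) hρ hw
    (fun b => ?_) fun i => (key w i).trans (congrFun h0 i)
  obtain ⟨c, rfl⟩ := hs b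
  refine ⟨c, fun i => (algebraMap K Ω).injective ?_⟩
  rw [← hG, ← key, map_sum]
  simp only [map_mul, comp_apply]

theorem tr_sup (hTR : S_TR) {ι : Type} (L : ι → IntermediateField k Ω)
    (hL : ∀ a, Algebra.trdeg k (L a) ≤ (1 : ℕ)) (S : Finset ι) :
    Algebra.trdeg k (S.sup L : IntermediateField k Ω) ≤ S.card := by
  classical
  induction S using Finset.induction_on with
  | empty => exact (trdeg_eq_zero (R := k) (A := (⊥ : IntermediateField k Ω))).trans_le zero_le
  | insert a S ha ih =>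
    rw [Finset.sup_insert, Finset.card_insert_of_notMem ha, add_comm, Nat.cast_add]
    exact (hTR.2.1 k Ω _ _).trans (add_le_add (hL a) ih)

theorem tr_one (hTR : S_TR) (δ : Bool) (t : Ω) :
    ∃ K : IntermediateField k Ω, Algebra.trdeg k K ≤ δ.toNat ∧ cond δ t 0 ∈ K := by
  cases δ
  · exact ⟨⊥, trdeg_eq_zero.trans_le zero_le, zero_mem _⟩
  · refine ⟨_, hTR.2.2 k Ω 1 1 ⊥ ![1, t] 0 (fun f hf d => ?_) ((ringKrullDim_quotient_le _).trans ?_)
      (fun f hf => ?_) rfl, IntermediateField.subset_adjoin k _ ⟨1, rfl⟩⟩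
    · rw [Ideal.mem_bot.1 hf, map_zero]
      exact zero_mem _
    · simp [MvPolynomial.ringKrullDim_of_isNoetherianRing, ringKrullDim_eq_zero_of_field]
    · rw [Ideal.mem_bot.1 hf, map_zero]

end GE

open _root_.Pool.Agent.P.MP_12d50c_ag.GE in
theorem t_GE : S_LIN → S_TR → S_JU → S_SUR → S_GE := by
  intro _ hTR hJU hSUR k _ N m A z z' lam lam' Ω _ _ w₀ w₁ c₀ c₁ hA hd hT hz hz' hD hw e0 e1
  subst e0 e1
  have o : ∀ (K : IntermediateField k Ω) {z : Fin (N + 1) → k}, (∃ i, z i = 1) →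
      ∃ i, (algebraMap k K ∘ z) i = 1 := fun K z ⟨i, h⟩ => ⟨i, by rw [comp_apply, h, map_one]⟩
  refine ⟨fun δ t ι _ l i j γ hJ hl hγ hs h0 => ?_, fun y i hm hy hOn d1 d2 h1 h2 => ?_⟩
  · classical
    have l0 : ∀ a, 0 < l a := fun a => two_pos.trans_le (hl a)
    have hb : ∀ a, base (γ a) (i a) = 1 := fun a => by
      rw [base, (hJ a).one, Polynomial.coeff_one_zero]
    have hOn : ∀ a, On A (base (γ a)) := fun a f hf =>
      (aeval_base _ f).trans (Polynomial.X_pow_dvd_iff.1 ((hJ a).dvd f hf) 0 (l0 a))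
    obtain ⟨S, hS⟩ : ∃ S : Finset ι, ∀ a, a ∈ S ↔ Dist (base (γ a)) (algebraMap k Ω ∘ z) ∧
      Dist (base (γ a)) (algebraMap k Ω ∘ z') := ⟨_, Finset.mem_filter_univ⟩
    obtain ⟨K₀, k1, k2⟩ := tr_one (k := k) hTR δ t
    obtain ⟨K, hρ, ht, hK⟩ : ∃ K : IntermediateField k Ω,
        Algebra.trdeg k K ≤ (δ.toNat + S.card : ℕ) ∧ cond δ t 0 ∈ K ∧ ∀ a c, base (γ a) c ∈ K := by
      refine ⟨K₀ ⊔ S.sup fun a => IntermediateField.adjoin k (Set.range (base (γ a))), ?_,
        le_sup_left (a := K₀) k2, fun a c => ?_⟩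
      · rw [Nat.cast_add]
        exact (hTR.2.1 k Ω _ _).trans (add_le_add k1 (tr_sup hTR _
          (fun a => hTR.2.2 k Ω N 1 A _ (i a) hA hd (hOn a) (hb a)) S))
      · by_cases ha : a ∈ S
        · exact SetLike.le_def.1 ((Finset.le_sup ha).trans le_sup_right)
            (IntermediateField.subset_adjoin k _ ⟨c, rfl⟩)
        · exact (not_and_or.1 ((hS a).not.1 ha)).elim (fun h => mem_of_not _ (hb a) hz h c)
            fun h => mem_of_not _ (hb a) hz' h c
    choose g g1 g2 using fun a c => exists_q K (hJU k N A Ω K (l a) (i a) (j a) (γ a) hA (hJ a)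
      (hl a) (hT _ (ne_iff.2 ⟨i a, (hb a).trans_ne one_ne_zero⟩) (hOn a)) (hK a) c)
    have g3 : ∀ a, algebraMap K Ω ∘ base (g a) = base (γ a) := fun a =>
      funext fun c => g1 a c 0 (l0 a)
    let P : (Σ a, Fin (l a - 1)) ⊕ S → ι × ℕ :=
      Sum.elim (fun x => (x.1, x.2 + 1)) fun a => (a, 0)
    have hP : ∀ x, (P x).2 < l (P x).1 := by
      rintro (⟨a, r, hr⟩ | a)
      · exact Nat.add_lt_of_lt_sub hr
      · exact l0 a
    have := lin hTR K (F := fun β x => (aeval (γ (P x).1) (mem (algebraMap k Ω ∘ z)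
        (algebraMap k Ω ∘ z') (algebraMap k Ω ∘ lam) (algebraMap k Ω ∘ lam') δ (cond δ t 0) β)).coeff
        (P x).2) (G := fun β x => (aeval (g (P x).1) (mem (algebraMap k K ∘ z)
        (algebraMap k K ∘ z') (algebraMap k K ∘ lam) (algebraMap k K ∘ lam') δ ⟨_, ht⟩ β)).coeff
        (P x).2) hρ hw ⟨fun β β' => funext fun x => ?_, fun s β => funext fun x => ?_⟩
      (fun β x => ?_) (fun b => ?_) (funext fun x => ?_)
    · simpa using this
    · rw [(mem_lin _ _ _ _ _ _).1, map_add, Polynomial.coeff_add, Pi.add_apply]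
    · rw [(mem_lin _ _ _ _ _ _).2, map_smul, Polynomial.coeff_smul, Pi.smul_apply]
    · rw [← cong (algebraMap K Ω) (g1 _) _ (hP x), map_mem]
      rfl
    · obtain ⟨c, c1, c2, c3⟩ := hSUR K N m (algebraMap k K ∘ z) (algebraMap k K ∘ z') ι l g
        (fun a => Polynomial.C (if h : a ∈ S then b (Sum.inr ⟨a, h⟩) else 0) +
          Polynomial.X * Polynomial.ofFn _ fun r => b (Sum.inl ⟨a, r⟩))
        (o K hz) (o K hz') ((dist_map _).2 hD)
        (fun a => ⟨i a, g2 a _ 1 (by simpa using l0 a) (by simp [(hJ a).one])⟩)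
        (fun a ha => by
          obtain ⟨c, hc⟩ := (hJ a).lin
          exact ⟨j a, ⟨_, hK a (j a)⟩, g2 a _ _
            (by rwa [add_comm, Polynomial.natDegree_X_add_C]) (by simp [base, hc])⟩) l0
        (fun a a' h => (dist_map (algebraMap K Ω)).1 (by rw [g3, g3]; exact hγ a a' h)) hs
        fun a => by
          by_cases ha : a ∈ S
          · rw [← dist_map (algebraMap K Ω), ← dist_map (algebraMap K Ω) (y' := _ ∘ z'), g3]
            exact Or.inl ((hS a).1 ha)
          · simp [ha]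
      obtain ⟨β, hβ⟩ := mem_sur (algebraMap k K ∘ lam) (algebraMap k K ∘ lam') c1 c2 δ ⟨_, ht⟩
      refine ⟨β, funext fun x => ?_⟩
      have := Polynomial.X_pow_dvd_iff.1 (c3 _) _ (hP x)
      rw [Polynomial.coeff_sub, sub_eq_zero, ← hβ] at this
      refine this.trans ?_
      rcases x with ⟨a, r⟩ | ⟨a, ha⟩
      · simp only [P, Sum.elim_inl, Polynomial.coeff_add, Polynomial.coeff_C_succ,
          Polynomial.coeff_X_mul, zero_add]
        exact Polynomial.ofFn_coeff_eq_val_of_lt _ r.2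
      · simp [P, ha]
    · refine Eq.trans ?_ (Polynomial.X_pow_dvd_iff.1 (h0 _) _ (hP x))
      cases δ <;> rfl
  · obtain ⟨K, hρ, hK⟩ : ∃ K : IntermediateField k Ω, Algebra.trdeg k K ≤ (1 : ℕ) ∧ ∀ c, y c ∈ K :=
      ⟨_, hTR.2.2 k Ω N 1 A y i hA hd hOn hy, fun c => IntermediateField.subset_adjoin k _ ⟨c, rfl⟩⟩
    obtain ⟨u, rfl⟩ : ∃ u : Fin (N + 1) → K, y = algebraMap K Ω ∘ u := ⟨fun c => ⟨_, hK c⟩, rfl⟩
    have hu : base (fun c => Polynomial.C (u c)) = u := funext fun c => Polynomial.coeff_C_zero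
    have ex : ∀ b : K, ∃ c : Mon N m → K, eval (algebraMap k K ∘ z) (form c) = 0 ∧
        eval (algebraMap k K ∘ z') (form c) = 0 ∧ eval u (form c) = b := fun b => by
      obtain ⟨c, c1, c2, c3⟩ := hSUR K N m (algebraMap k K ∘ z) (algebraMap k K ∘ z') Unit
        (fun _ => 1) (fun _ c => Polynomial.C (u c)) (fun _ => Polynomial.C b) (o K hz) (o K hz')
        ((dist_map _).2 hD) (fun _ => ⟨i, by rw [show u i = 1 from Subtype.ext hy, map_one]⟩)
        (fun _ h => absurd h (lt_irrefl _)) (fun _ => one_pos) (fun _ _ h => absurd rfl h)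
        (by simpa using hm) fun _ => by
          rw [hu]
          exact Or.inl ⟨(dist_map (algebraMap K Ω)).1 d1, (dist_map (algebraMap K Ω)).1 d2⟩
      refine ⟨c, c1, c2, ?_⟩
      have := Polynomial.X_pow_dvd_iff.1 (c3 ()) 0 one_pos
      rwa [Polynomial.coeff_sub, sub_eq_zero, ← aeval_base, hu, Polynomial.coeff_C_zero] at this
    have := lin hTR K (F := fun β δ => eval (algebraMap K Ω ∘ u) (mem (algebraMap k Ω ∘ z)
        (algebraMap k Ω ∘ z') (algebraMap k Ω ∘ lam) (algebraMap k Ω ∘ lam') δ 0 β))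
      (G := fun β δ => eval u (mem (algebraMap k K ∘ z)
        (algebraMap k K ∘ z') (algebraMap k K ∘ lam) (algebraMap k K ∘ lam') δ 0 β)) hρ hw
      ⟨fun β β' => funext fun x => ?_, fun s β => funext fun x => ?_⟩
      (fun β x => ?_) (fun b => ?_) (funext fun x => ?_)
    · simp at this
    · rw [(mem_lin _ _ _ _ _ _).1, map_add, Pi.add_apply]
    · rw [(mem_lin _ _ _ _ _ _).2, smul_eval, Pi.smul_apply, smul_eq_mul]
    · rw [map_eval, map_mem]
      rfl
    · obtain ⟨c, c1, c2, c3⟩ := ex (b true)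
      obtain ⟨c', c4, c5, c6⟩ := ex (b false)
      refine ⟨Sum.elim c c', funext fun δ => ?_⟩
      cases δ <;> simp [mem, comb, pr_eq, *]
    · cases x
      · exact h2
      · simpa [mem, comb] using h1

end Pool.Agent.P.MP_12d50c_ag
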