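import Pool.Agent.P.MP_12d50c_ag.If4

/-!
Generic points over a larger field.
-/

open MvPolynomial

namespace Pool.Agent.P.MP_12d50c_ag

theorem t_GENL : S_VP0 → S_VP → S_GENL := by
  intro hVP0 hVP k _ N n E L _ _ _ _ _ _ ξ t ht hξ hi hL u
  obtain ⟨a, ha, b, hb, hb0, hu⟩ := hL u
  obtain ⟨Ga, da, ua, hua, hGa, eGa⟩ := ((hVP k N n).2 E L ξ t ht).2 hξ hi a ha
  obtain ⟨Gb, db, ub, hub, hGb, eGb⟩ := ((hVP k N n).2 E L ξ t ht).2 hξ hi b hb
  obtain ⟨e, g, h, hg, hh, h0, hv⟩ := hξ (ub / ua)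
  obtain ⟨i, hi⟩ := hi
  have hX : ∀ d : ℕ, IsWeightedHomogeneous (wt N n) (X (Sum.inl i) ^ d : RR k N n) d := fun d => by
    simpa [wt] using (isWeightedHomogeneous_X k (wt N n) (Sum.inl i)).pow d
  have eX : th ξ t (X (Sum.inl i) : RR k N n) = 1 := by simp [th, hi]
  have eI : ∀ f : PP k N, th ξ t (inc n f) = algebraMap E L (aeval ξ f) := fun f => by
    rw [th, aeval_rename, ← aeval_algebraMap_apply]
    rfl
  have hI := (hVP0 k N n).2.1
  refine ⟨da + e + db, Ga * inc n g * X (Sum.inl i) ^ db, Gb * inc n h * X (Sum.inl i) ^ da,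
    (hGa.mul (hI g e hg)).mul (hX db), ?_, ?_, ?_⟩
  · have := (hGb.mul (hI h e hh)).mul (hX da)
    rwa [show db + e + da = da + e + db by ring] at this
  · change th ξ t _ ≠ 0
    rw [map_mul, map_mul, map_pow, eX, eI, eGb, one_pow, mul_one]
    exact mul_ne_zero (mul_ne_zero ((map_ne_zero _).2 hub) hb0) ((map_ne_zero _).2 h0)
  · change u * th ξ t _ = th ξ t _
    rw [map_mul, map_mul, map_mul, map_mul, map_pow, map_pow, eX, eI, eI, eGa, eGb, ← hv, ← hu,
      map_mul, map_div₀, one_pow, one_pow]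
    have := (map_ne_zero (algebraMap E L)).2 hua
    field_simp

end Pool.Agent.P.MP_12d50c_ag
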