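import Pool.Agent.P.MP_12d50c_ag.If5

/-!
The function field of a geometrically integral scheme is a regular extension.
-/

open CategoryTheory AlgebraicGeometry IsLocalRing Limits
open Pool.Agent.P.MP_638e8a_ag.Cyc (St Rf ev primeOf ev_eq_zero primeOf_self sp_refl)
open scoped TensorProduct

namespace Pool.Agent.P.MP_12d50c_ag

namespace GI1

theorem frac {F k A K : Type} [Field F] [Field k] [CommRing A] [Field K] [Algebra F k] [Algebra F A]
    [Algebra F K] (ψ : A →ₐ[F] K) (hψ : Function.Injective ψ)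
    (hf : ∀ c : K, ∃ a b, ψ b ≠ 0 ∧ ψ a = c * ψ b) [IsDomain (k ⊗[F] A)] :
    IsDomain (k ⊗[F] K) := by
  let m : k ⊗[F] A →ₐ[F] k ⊗[F] K := Algebra.TensorProduct.map (AlgHom.id F k) ψ
  have hm : Function.Injective m :=
    Module.Flat.lTensor_preserves_injective_linearMap (M := k) ψ.toLinearMap hψ
  have hs : ∀ z : k ⊗[F] K, ∃ b y, ψ b ≠ 0 ∧ m y = z * (1 ⊗ₜ ψ b) := fun z => by
    induction z using TensorProduct.induction_on with
    | zero => exact ⟨1, 0, by simp, by simp⟩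
    | tmul x c =>
      obtain ⟨a, b, h1, h2⟩ := hf c
      exact ⟨b, x ⊗ₜ a, h1, by simp [m, h2]⟩
    | add z z' h h' =>
      obtain ⟨b, y, h1, h2⟩ := h
      obtain ⟨b', y', h1', h2'⟩ := h'
      have e : ∀ b, m (1 ⊗ₜ b) = 1 ⊗ₜ ψ b := fun b => by simp [m]
      refine ⟨b * b', y * (1 ⊗ₜ b') + y' * (1 ⊗ₜ b), by simp [h1, h1'], ?_⟩
      have e' : ((1 : k) ⊗ₜ[F] ψ (b * b')) = (1 ⊗ₜ ψ b) * (1 ⊗ₜ ψ b') := by simp
      rw [map_add, map_mul, map_mul, h2, h2', e, e, e']
      ring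
  have hu : ∀ c : K, c ≠ 0 → IsUnit ((1 : k) ⊗ₜ[F] c) := fun c hc =>
    (Ne.isUnit hc).map (Algebra.TensorProduct.includeRight (R := F) (A := k))
  have : Nontrivial (k ⊗[F] K) := hm.nontrivial
  have : NoZeroDivisors (k ⊗[F] K) := ⟨fun {z z'} h => by
    obtain ⟨b, y, h1, h2⟩ := hs z
    obtain ⟨b', y', h1', h2'⟩ := hs z'
    have h3 : y * y' = 0 := hm (by
      rw [map_mul, h2, h2', mul_mul_mul_comm, h, zero_mul, map_zero])
    refine (mul_eq_zero.1 h3).imp (fun h4 => ?_) fun h4 => ?_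
    · rwa [h4, map_zero, eq_comm, (hu _ h1).mul_left_eq_zero] at h2
    · rwa [h4, map_zero, eq_comm, (hu _ h1').mul_left_eq_zero] at h2'⟩
  exact NoZeroDivisors.to_isDomain _

theorem aff {F k A : Type} [Field F] [Field k] [CommRing A] [Nontrivial A] [Algebra F k]
    [Algebra F A] {Y : Scheme.{0}} (κ : Y ⟶ Spec (.of F)) [GeometricallyIntegral κ]
    (j : Spec (.of A) ⟶ Y) [IsOpenImmersion j]
    (h : j ≫ κ = Spec.map (CommRingCat.ofHom (algebraMap F A))) : IsDomain (k ⊗[F] A) := by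
  let x : Spec (.of k) ⟶ Spec (.of F) := Spec.map (CommRingCat.ofHom (algebraMap F k))
  have : IsIntegral (pullback κ x) :=
    GeometricallyIntegral.geometrically_isIntegral _ _ _ (.of_hasPullback _ _)
  have : Nontrivial (A ⊗[F] k) := Algebra.TensorProduct.nontrivial_of_algebraMap_injective_of_flat_left
    F A k (algebraMap F k).injective
  let i : Spec (.of (A ⊗[F] k)) ⟶ pullback κ x := (pullbackSpecIso F A k).inv ≫
    (pullback.congrHom h.symm rfl).hom ≫ (pullbackRightPullbackFstIso κ x j).inv ≫ pullback.snd _ _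
  have : IsIntegral (Spec (.of (A ⊗[F] k))) := isIntegral_of_isOpenImmersion i
  have : IsDomain (A ⊗[F] k) := (affine_isIntegral_iff (.of (A ⊗[F] k))).1 this
  exact (Algebra.TensorProduct.comm F k A).toMulEquiv.isDomain _

end GI1

open GI1 in
theorem t_GI1 : S_GI1 := by
  intro F k _ _ _ Y _ κ _
  let := algR κ (genericPoint Y)
  obtain ⟨U, hU, hx, -⟩ :=
    exists_isAffineOpen_mem_and_subset (X := Y) (x := genericPoint Y) (U := ⊤) trivial
  have : Nonempty U := ⟨⟨_, hx⟩⟩
  obtain ⟨c, hc⟩ := Spec.map_surjective (hU.fromSpec ≫ κ)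
  let : Algebra F Γ(Y, U) := c.hom.toAlgebra
  have : IsDomain (k ⊗[F] Γ(Y, U)) := aff κ hU.fromSpec hc.symm
  have e : c ≫ Y.presheaf.germ U _ hx = CommRingCat.ofHom (cstk κ (genericPoint Y)) :=
    Spec.map_injective (by
      rw [← fromSpecStalk_comp, ← hU.fromSpecStalk_eq_fromSpecStalk hx, Spec.map_comp, hc]
      rfl)
  let ψ : Γ(Y, U) →ₐ[F] Rf (genericPoint Y) :=
    { (ev (le_refl (genericPoint Y))).comp (Y.presheaf.germ U _ hx).hom with
      commutes' := fun r => congrArg (fun f => ev (le_refl (genericPoint Y)) (f.hom r)) e }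
  have hi : Function.Injective (ev (le_refl (genericPoint Y))) :=
    RingHom.injective (R := Y.functionField) _
  refine frac ψ (hi.comp (germ_injective_of_isIntegral Y _ hx)) fun z => ?_
  obtain ⟨z, rfl⟩ := Y.residue_surjective _ z
  let := TopCat.Presheaf.algebra_section_stalk Y.presheaf (⟨_, hx⟩ : U)
  have h1 : IsLocalization.AtPrime (St (genericPoint Y)) _ := hU.isLocalization_stalk ⟨_, hx⟩
  obtain ⟨⟨a, b⟩, hz⟩ := IsLocalization.surj (hU.primeIdealOf ⟨_, hx⟩).asIdeal.primeCompl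
    (z : St (genericPoint Y))
  refine ⟨a, b, ((IsLocalization.map_units (St (genericPoint Y)) b).map
    (ev (le_refl (genericPoint Y)))).ne_zero, ?_⟩
  have h2 := congrArg (ev (le_refl (genericPoint Y))) hz
  rw [map_mul] at h2
  have h3 : ev (le_refl (genericPoint Y)) (z : St (genericPoint Y)) = Y.residue _ z :=
    congrArg (Y.residue _).hom (sp_refl _ z)
  rw [← h3]
  exact h2.symm

end Pool.Agent.P.MP_12d50c_ag
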