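import Pool.Agent.P.MP_12d50c_ag.If5

open MvPolynomial
open scoped TensorProduct

namespace Pool.Agent.P.MP_12d50c_ag

namespace GI2

theorem map_ker {F k T τ : Type} [Field F] [Field k] [Algebra F k] [CommRing T] [Algebra F T]
    (φ : MvPolynomial τ F →ₐ[F] T) :
    (RingHom.ker φ).map (ext F k τ) = RingHom.ker ((Algebra.TensorProduct.map (AlgHom.id k k) φ).comp
      (algebraTensorAlgEquiv (σ := τ) F k).symm.toAlgHom) := by
  refine le_antisymm (Ideal.map_le_iff_le_comap.2 fun f hf => ?_) fun g hg => ?_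
  · have h : φ f = 0 := hf
    simp [RingHom.mem_ker, h]
  · obtain ⟨y, hy⟩ := (Module.Flat.lTensor_exact k
      (LinearMap.exact_subtype_ker_map φ.toLinearMap) ((algebraTensorAlgEquiv F k).symm g)).1 hg
    rw [← (algebraTensorAlgEquiv F k).apply_symm_apply g, ← hy]
    clear hy
    induction y with
    | zero => simp
    | add a b ha hb =>
      rw [map_add, map_add]
      exact add_mem ha hb
    | tmul c f =>
      rw [LinearMap.lTensor_tmul, algebraTensorAlgEquiv_tmul, smul_eq_C_mul]
      exact Ideal.mul_mem_left _ _ (Ideal.mem_map_of_mem _ f.2)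

end GI2

theorem t_GI2 : S_GI2 := by
  intro F k K _ _ _ _ _ N ξ h
  have e : k ⊗[F] Polynomial K ≃ₐ[F] Polynomial (k ⊗[F] K) :=
    ((Algebra.TensorProduct.congr AlgEquiv.refl (polyEquivTensor F K)).trans
      (Algebra.TensorProduct.assoc F F F k K (Polynomial F)).symm).trans
      (polyEquivTensor F (k ⊗[F] K)).symm
  have := e.toMulEquiv.isDomain
  rw [van, vanw, GI2.map_ker]
  exact RingHom.ker_isPrime _

end Pool.Agent.P.MP_12d50c_ag
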