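import Pool.Agent.P.MP_12d50c_ag.If1

/-!
Smooth hypersurface sections of a smooth surface are irreducible smooth curves.
-/

open MvPolynomial IsLocalRing

namespace Pool.Agent.P.MP_12d50c_ag

namespace GOODC

section Loc

variable {R : Type} [CommRing R] {J Q q : Ideal R} [q.IsPrime]

/-- If the extension of `J` is prime, then only one minimal prime of `J` lies in `q`. -/
theorem eq_under (hJ : (J.map (algebraMap R (Localization.AtPrime q))).IsPrime)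
    (hQ : Q ∈ J.minimalPrimes) (h : Q ≤ q) :
    Q = (J.map (algebraMap R (Localization.AtPrime q))).under R := by
  have h1 : (J.map (algebraMap R (Localization.AtPrime q))).under R ≤ Q := fun x hx => by
    obtain ⟨s, h2, h3⟩ :=
      (IsLocalization.algebraMap_mem_map_algebraMap_iff q.primeCompl _ _ _).1 hx
    exact (hQ.1.1.mem_or_mem (hQ.1.2 h3)).resolve_left fun h4 => h2 (h h4)
  exact le_antisymm (hQ.2 ⟨Ideal.comap_isPrime _ _, Ideal.le_comap_map⟩ h1) h1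

theorem map_eq (hJ : (J.map (algebraMap R (Localization.AtPrime q))).IsPrime)
    (hQ : Q ∈ J.minimalPrimes) (h : Q ≤ q) :
    Q.map (algebraMap R (Localization.AtPrime q)) =
      J.map (algebraMap R (Localization.AtPrime q)) := by
  conv_lhs => rw [eq_under hJ hQ h]
  exact IsLocalization.map_under q.primeCompl _ _

/-- The local ring of a hypersurface section. -/
theorem nonempty_equiv (I q : Ideal R) [q.IsPrime] (a : R) :
    Nonempty ((LQ I q ⧸ Ideal.span {toL I q a}) ≃+* LQ (I ⊔ Ideal.span {a}) q) := by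
  have h1 : Ideal.span {toL I q a} =
      ((Ideal.span {a}).map (algebraMap R (Localization.AtPrime q))).map
        (Ideal.Quotient.mk (I.map (algebraMap R (Localization.AtPrime q)))) := by
    rw [Ideal.map_map, Ideal.map_span, Set.image_singleton, toL]
  exact ⟨(Ideal.quotEquivOfEq h1).trans ((DoubleQuot.quotQuotEquivQuotSup _ _).trans
    (Ideal.quotEquivOfEq (Ideal.map_sup _ _ _).symm))⟩

theorem of_dvr (I q : Ideal R) [q.IsPrime] (a : R) [IsDomain (LQ I q ⧸ Ideal.span {toL I q a})]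
    [IsDiscreteValuationRing (LQ I q ⧸ Ideal.span {toL I q a})] :
    ((I ⊔ Ideal.span {a}).map (algebraMap R (Localization.AtPrime q))).IsPrime ∧
      ringKrullDim (LQ (I ⊔ Ideal.span {a}) q) = 1 := by
  obtain ⟨φ⟩ := nonempty_equiv I q a
  exact ⟨(Ideal.Quotient.isDomain_iff_prime _).1 (φ.symm.toMulEquiv.isDomain _),
    (ringKrullDim_eq_of_ringEquiv (R := LQ I q ⧸ Ideal.span {toL I q a}) φ).symm.trans
      (IsDiscreteValuationRing.ringKrullDim_eq_one (LQ I q ⧸ Ideal.span {toL I q a}))⟩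

end Loc

variable {k : Type} [Field k] {N : ℕ} {I : Ideal (PP k N)} {a : PP k N} {e : ℕ}

theorem hom_sup (hI : Hom I) (ha : a.IsHomogeneous e) : Hom (I ⊔ Ideal.span {a}) :=
  WHom.sup hI (wHom_span fun f hf => ⟨e, by rw [Set.mem_singleton_iff.1 hf]; exact ha⟩)

theorem le_iff (hI : Hom I) (ha : a.IsHomogeneous e) {y : Fin (N + 1) → k} :
    I ⊔ Ideal.span {a} ≤ van k y ↔ On I y ∧ aeval y a = 0 := by
  rw [← (hom_sup hI ha).on_iff, on_sup, on_span]
  simp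

theorem loc (hREG : S_REG) (hREG2 : S_REG2) (hI : IsSm 2 I) (ha : a.IsHomogeneous e)
    (hg : Good I a) {y : NP k N} (hy : I ⊔ Ideal.span {a} ≤ van k y.1) :
    ((I ⊔ Ideal.span {a}).map (algebraMap _ (Localization.AtPrime (van k y.1)))).IsPrime ∧
      ringKrullDim (LQ (I ⊔ Ideal.span {a}) (van k y.1)) = 1 := by
  have h0 := (le_iff hI.hom ha).1 hy
  have hle : I ≤ van k y.1 := le_sup_left.trans hy
  have := hI.prime
  have := isDomain_LQ hle
  have := isLocalRing_LQ hle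
  obtain ⟨h1, h2⟩ := hREG k N I y hI.hom h0.1
  obtain ⟨h3, c, h4⟩ := h2 2 hI
  have h5 : ∃ u v, maximalIdeal (LQ I (van k y.1)) = Ideal.span {u, v} := by
    rw [maximalIdeal_LQ, h4]
    refine ⟨toL I (van k y.1) (X (c 0) - C (y.1 (c 0)) * X y.piv),
      toL I (van k y.1) (X (c 1) - C (y.1 (c 1)) * X y.piv), congrArg Ideal.span ?_⟩
    ext u
    simp only [Set.mem_range, Fin.exists_fin_two, Set.mem_insert_iff, Set.mem_singleton_iff,
      eq_comm]
  obtain ⟨hd, h6⟩ := (hREG2 _ h3 h5).2.2.1 (toL I (van k y.1) a)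
    (by rw [maximalIdeal_LQ, toL_mem_mQ hle]; exact (mem_van_of_hom ha).2 h0.2)
    (by rw [maximalIdeal_LQ, ← h1 a e ha]; exact hg y h0.1)
  exact of_dvr I (van k y.1) a

/-- A homogeneous ideal with a zero lies in every ideal that contains the variables. -/
theorem le_of_not_rel {Q Q' : Ideal (PP k N)} (hQ : Hom Q) {y : Fin (N + 1) → k}
    (hy : Q ≤ van k y) (h : ¬ Rel Q') : Q ≤ Q' := by
  simp only [Rel, not_exists, not_not] at h
  have h1 : ∀ f : PP k N, f - C (aeval (fun i => 0 * y i) f) ∈ Q' := fun f => by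
    induction f using MvPolynomial.induction_on with
    | C c => simp
    | add f g hf hg =>
      rw [map_add, map_add, add_sub_add_comm]
      exact add_mem hf hg
    | mul_X f i _ => simpa using Q'.mul_mem_left f (h i)
  refine WHom.le_of_hom hQ fun f d hf hm => ?_
  have h2 := h1 f
  rwa [aeval_smul hf, aeval_eq_zero_of_mem_vanw (hy hm), mul_zero, map_zero, sub_zero] at h2

theorem hom_prod (S : Finset (Ideal (PP k N))) (h : ∀ P ∈ S, Hom P) : Hom (∏ P ∈ S, P) :=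
  Finset.prod_induction _ _ (fun _ _ => WHom.mul) (fun _ _ _ => by simp) h

theorem uniq [IsAlgClosed k] (hNSP : S_NSP) (hREG : S_REG) (hREG2 : S_REG2) (hCONN : S_CONN)
    (hI : IsSm 2 I) (ha : a.IsHomogeneous e) (he : 0 < e) (hg : Good I a) (haI : a ∉ I)
    {Q : Ideal (PP k N)} (hQ : Q ∈ (I ⊔ Ideal.span {a}).minimalPrimes) {y₀ : NP k N}
    (h0 : Q ≤ van k y₀.1) {Q' : Ideal (PP k N)} (hQ' : Q' ∈ (I ⊔ Ideal.span {a}).minimalPrimes) :
    Q' = Q := by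
  classical
  have hm : ∀ P ∈ (I ⊔ Ideal.span {a}).minimalPrimes, Hom P := fun P hP =>
    WHom.minimalPrimes (hom_sup hI.hom ha) hP
  by_cases hr : Rel Q'
  swap
  · have h1 := le_of_not_rel (hm Q hQ) h0 hr
    exact le_antisymm (hQ'.2 hQ.1 h1) h1
  by_contra hne
  obtain ⟨y₂, h2⟩ := ((hNSP k N).2 Q' hQ'.1.1 (hm _ hQ') hr).2.1
  have hfin := Ideal.finite_minimalPrimes_of_isNoetherianRing _ (I ⊔ Ideal.span {a})
  have hS : ∀ P, P ∈ hfin.toFinset.erase Q ↔ P ≠ Q ∧ P ∈ (I ⊔ Ideal.span {a}).minimalPrimes :=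
    fun P => by rw [Finset.mem_erase, Set.Finite.mem_toFinset]
  have h3 := hom_prod (hfin.toFinset.erase Q) fun P hP => hm P ((hS P).1 hP).2
  have h4 : ∀ y : NP k N, On (∏ P ∈ hfin.toFinset.erase Q, P) y.1 ↔
      ∃ P ∈ hfin.toFinset.erase Q, P ≤ van k y.1 := fun y => by
    rw [h3.on_iff, Ideal.IsPrime.prod_le inferInstance]
  have h5 := (le_iff hI.hom ha).1 (hQ.1.2.trans h0)
  have h6 := (hm _ hQ').on_iff.1 h2
  have h7 := (le_iff hI.hom ha).1 (hQ'.1.2.trans h6)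
  refine hCONN k N I Q _ a e y₀ y₂ hI ha he haI (hm Q hQ) h3 (fun y b₁ b₂ => ?_)
    (fun y b₁ b₂ => ?_) h5.1 h5.2 ((hm Q hQ).on_iff.2 h0) h7.1 h7.2
    ((h4 y₂).2 ⟨Q', (hS _).2 ⟨hne, hQ'⟩, h6⟩)
  · obtain ⟨P, p₁, p₂⟩ := Ideal.exists_minimalPrimes_le ((le_iff hI.hom ha).2 ⟨b₁, b₂⟩)
    by_cases p₃ : P = Q
    · exact Or.inl ((hm Q hQ).on_iff.2 (p₃ ▸ p₂))
    · exact Or.inr ((h4 y).2 ⟨P, (hS _).2 ⟨p₃, p₁⟩, p₂⟩)
  · rintro ⟨b₃, b₄⟩
    obtain ⟨P, p₁, p₂⟩ := (h4 y).1 b₄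
    have p₃ := (loc hREG hREG2 hI ha hg ((le_iff hI.hom ha).2 ⟨b₁, b₂⟩)).1
    exact ((hS P).1 p₁).1 ((eq_under p₃ ((hS P).1 p₁).2 p₂).trans
      (eq_under p₃ hQ ((hm Q hQ).on_iff.1 b₃)).symm)

end GOODC

open GOODC in
theorem t_GOODC : S_NSP → S_NS0 → S_NE → S_REG → S_REG2 → S_CONN → S_GOODW → S_GOODC := by
  intro hNSP hNS0 hNE hREG hREG2 hCONN hW k _ _ N I a e hI ha he hg
  obtain ⟨y₀, b₁, b₂⟩ := ((hNE k N I hI).1 a e ha he).nonempty
  have haI : a ∉ I := fun h => hg y₀ b₁ (sing_of_mem b₁ h)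
  have h0 := (le_iff hI.hom ha).2 ⟨b₁, b₂⟩
  obtain ⟨Q, hQ, h1⟩ := Ideal.exists_minimalPrimes_le h0
  have hp : Q.IsPrime := hQ.1.1
  have hh : Hom Q := WHom.minimalPrimes (hom_sup hI.hom ha) hQ
  have hr : Rel Q := ⟨y₀.piv, fun h => y₀.X_piv_notMem (h1 h)⟩
  have hu := fun Q' => uniq hNSP hREG hREG2 hCONN hI ha he hg haI hQ h1 (Q' := Q')
  have hIQ : I ≤ Q := le_sup_left.trans hQ.1.2
  have haQ : a ∈ Q := hQ.1.2 (Ideal.mem_sup_right (Ideal.mem_span_singleton_self a))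
  have hle : ∀ y : NP k N, I ⊔ Ideal.span {a} ≤ van k y.1 → Q ≤ van k y.1 := fun y hy => by
    obtain ⟨P, p₁, p₂⟩ := Ideal.exists_minimalPrimes_le hy
    exact hu P p₁ ▸ p₂
  have hdim : ringKrullDim (PP k N ⧸ Q) = (1 + 1 : ℕ) := by
    obtain ⟨c₁, c₂⟩ := loc hREG hREG2 hI ha hg h0
    have c₃ : ringKrullDim (LQ Q (van k y₀.1)) = 1 := by
      rw [← c₂]
      exact ringKrullDim_eq_of_ringEquiv (Ideal.quotEquivOfEq (map_eq c₁ hQ h1))
    rw [← dim_LQ k h1, c₃, hNS0.1 k N y₀]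
    rfl
  refine ⟨Q, ⟨hp, hh, hdim, fun Ω _ _ y hy hOn => ?_⟩, hIQ, haQ, ?_, fun g y => ?_,
    fun g d hd => ⟨fun hc hgQ => ?_, fun hgQ => ⟨⟨e, ha⟩, ⟨d, hd⟩, haI, fun h => hgQ (hIQ h), ?_⟩⟩⟩
  · have c₁ : On I y := fun f hf => hOn f (hIQ hf)
    have c₂ : Tan Q y < Tan I y := lt_of_le_of_ne (Tan_anti hIQ) fun h =>
      hW k N I a e hI.hom ha hg Ω y hy c₁ ⟨hOn a haQ, fun δ hδ => mem_Tan.1 (h ▸ hδ) a haQ⟩
    have c₃ := Submodule.finrank_lt_finrank_of_lt c₂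
    have c₄ := hI.le Ω y hy c₁
    omega
  · rw [← Ideal.sInf_minimalPrimes]
    exact le_sInf fun P hP => (hu P hP).ge
  · rw [inter, ordI, Ideal.span_insert, ← sup_assoc]
    by_cases hy : I ⊔ Ideal.span {a} ≤ van k y.1
    · refine len_congr ?_
      rw [Ideal.map_sup _ Q, map_eq (loc hREG hREG2 hI ha hg hy).1 hQ (hle y hy),
        ← Ideal.map_sup]
    · rw [len_eq_zero_iff.2 fun h => hy (le_sup_left.trans h),
        len_eq_zero_iff.2 fun h => hy (hQ.1.2.trans (le_sup_left.trans h))]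
  · obtain ⟨y, hy⟩ := ((hNSP k N).2 Q hp hh hr).2.2.1
      (hc.fin.subset fun y hy => ⟨fun f hf => hy f (hIQ hf), hy a haQ, hy g hgQ⟩)
    rw [hy, hNS0.1 k N y] at hdim
    norm_cast at hdim
  · refine (((hNSP k N).2 Q hp hh hr).2.2.2.2 hdim.le g d hd hgQ).subset fun y hy => ⟨?_, hy.2.2⟩
    exact hh.on_iff.2 (hle y ((le_iff hI.hom ha).2 ⟨hy.1, hy.2.1⟩))

end Pool.Agent.P.MP_12d50c_ag
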