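import Pool.Agent.P.MP_12d50c_ag.If1

/-! Smoothness passes to points with values in larger fields. -/

open MvPolynomial

namespace Pool.Agent.P.MP_12d50c_ag

namespace GOODW

variable {k : Type} [Field k] {N : ℕ}

/-- The equations of a singular point with multipliers. -/
def eqs (S : Finset (PP k N)) (a : PP k N) (i : Fin (N + 1)) :
    Set (MvPolynomial (Fin (N + 1) ⊕ Option S) k) :=
  {p | (∃ f ∈ S, p = rename Sum.inl f) ∨ p = rename Sum.inl a ∨
    p = X (Sum.inr none) * X (Sum.inl i) - 1 ∨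
    ∃ j, p = rename Sum.inl (pderiv j a) -
      ∑ f : S, X (Sum.inr (some f)) * rename Sum.inl (pderiv j f.1)}

theorem eqs_iff {S : Finset (PP k N)} {a : PP k N} {i : Fin (N + 1)} {Ω : Type} [Field Ω]
    [Algebra k Ω] (x : Fin (N + 1) ⊕ Option S → Ω) : (∀ p ∈ eqs S a i, aeval x p = 0) ↔
    (∀ f ∈ S, aeval (x ∘ Sum.inl) f = 0) ∧ aeval (x ∘ Sum.inl) a = 0 ∧
      x (Sum.inr none) * x (Sum.inl i) = 1 ∧ ∀ j, aeval (x ∘ Sum.inl) (pderiv j a) =
        ∑ f : S, x (Sum.inr (some f)) * aeval (x ∘ Sum.inl) (pderiv j f.1) := by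
  simp only [eqs, Set.mem_ofPred_eq, or_imp, forall_and, forall_exists_index, and_imp,
    forall_eq, forall_eq_apply_imp_iff, aeval_rename, map_sub, map_mul,
    map_sum, aeval_X, map_one, sub_eq_zero]
  refine and_congr ⟨fun h f hf => ?_, fun h p f hf e => ?_⟩ Iff.rfl
  · rw [← aeval_rename]
    exact h _ f hf rfl
  · rw [e, aeval_rename, h f hf]

end GOODW

open GOODW in
theorem t_GOODW : S_LIN → S_NS0 → S_GOODW := by
  intro hL hN k _ _ N I a e hI ha hG Ω _ _ y hy hOn hS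
  obtain ⟨S, -, rfl⟩ := hI.exists_gen
  obtain ⟨i, hi⟩ := Function.ne_iff.1 hy
  have h1 := (hL.1 Ω (Fin (N + 1)) (Set.range fun (f : S) j => aeval y (pderiv j f.1))
    (Tan (Ideal.span (S : Set (PP k N))) y) (fun δ => by
      rw [mem_Tan_span hOn, Set.forall_mem_range, Subtype.forall]
      rfl)).1 fun j => aeval y (pderiv j a)
  obtain ⟨c, hc⟩ := (Submodule.mem_span_range_iff_exists_fun Ω).1 (h1.2 hS.2)
  obtain ⟨x, hx⟩ := hN.2 k _ (eqs S a i) Ω (Sum.elim y fun o => o.elim (y i)⁻¹ c)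
    ((eqs_iff _).2 ⟨(on_span _).1 hOn, hS.1, inv_mul_cancel₀ hi, fun j => by
      have := congrFun hc j
      rw [Finset.sum_apply] at this
      exact this.symm⟩)
  obtain ⟨e1, e2, e3, e4⟩ := (eqs_iff x).1 hx
  have h0 : x ∘ Sum.inl ≠ 0 := fun h => by
    have h2 : x (Sum.inl i) = 0 := congrFun h i
    rw [h2, mul_zero] at e3
    exact zero_ne_one e3
  have h2 : On (Ideal.span (S : Set (PP k N))) (x ∘ Sum.inl) := (on_span _).2 e1
  have h3 : Sing (Ideal.span (S : Set (PP k N))) (x ∘ Sum.inl) a := ⟨e2, fun δ hδ => by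
    have h4 := (mem_Tan_span h2).1 hδ
    have h5 : grad (x ∘ Sum.inl) a δ =
        ∑ f : S, x (Sum.inr (some f)) * grad (x ∘ Sum.inl) f.1 δ := by
      simp only [grad, e4, Finset.sum_mul, Finset.mul_sum, mul_assoc]
      exact Finset.sum_comm
    rw [h5]
    exact Finset.sum_eq_zero fun f _ => by rw [h4 f.1 f.2, mul_zero]⟩
  obtain ⟨z, u, hu, hz⟩ := NP.exists_smul h0
  rw [hz] at h2 h3
  have h4 := (on_scale hI hu).1 h2
  exact hG z h4 ((sing_scale hI h4 hu ha).1 h3)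

end Pool.Agent.P.MP_12d50c_ag
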