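import Pool.Agent.P.MP_12d50c_ag.If4

/-!
The relation given by a graph.
-/

open MvPolynomial

namespace Pool.Agent.P.MP_12d50c_ag

namespace GR

variable {k : Type} [Field k] {N m n : ℕ}

theorem smap_inc (g : Fin (m + 1) → Fin (n + 1)) (f : PP k N) : smap g (inc n f) = inc m f :=
  DFunLike.congr_fun (MvPolynomial.algHom_ext (f := (smap g).comp (inc n)) (g := inc m)
    fun i => by simp [smap]) f

theorem smap_self (j : Fin (n + 2)) :
    smap j.succAbove (X (Sum.inr j) : RR k N (n + 1)) = (0 : RR k N n) := by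
  simp [smap]

theorem smap_succ (j : Fin (n + 2)) (i : Fin (n + 1)) :
    smap j.succAbove (X (Sum.inr (j.succAbove i)) : RR k N (n + 1)) = X (Sum.inr i) := by
  simp [smap, Finset.filter_eq']

theorem le_of_len {R : Type} [CommRing R] {J q : Ideal R} [q.IsPrime] {x : ℚ}
    (h : x * (len J q).toNat ≠ 0) : J ≤ q := by
  by_contra h0
  rw [len_eq_zero_iff.2 h0] at h
  simp at h

theorem beta_neg {φ : Ideal (RR k N 1) → ℚ} {p : Ideal (PP k N)} [hp : p.IsPrime]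
    {β : PP k N → ℚ} (h : Beta φ p β) {c : PP k N} {e : ℕ} (hc : c.IsHomogeneous e) (h0 : c ∉ p) :
    β (-c) = β c := by
  have h1 : (C (-1) : PP k N) ∉ p := fun h => hp.ne_top ((Ideal.eq_top_iff_one p).2 (by
    simpa using p.neg_mem h))
  have := h.mul (C (-1)) c 0 e (isHomogeneous_C _ _) hc h1 h0
  rwa [h.const _ (by simp), zero_add, C_neg, C_1, neg_one_mul] at this

end GR

open GR in
theorem t_GR : S_VP0 → S_CL → S_FINB → S_PT0 → S_G12 → S_FINC → S_GR1 → S_GR := by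
  intro hVP hCL hFB hPT hG hFC hGR k _ _ N I φ β a e hI hK hβ ha hc hH
  classical
  obtain ⟨W, hW, hP, hrel, hlen⟩ := hGR k N I a e hI ha hc hH
  have hHe : (∑ j, a j).IsHomogeneous e := IsHomogeneous.sum _ _ _ fun j _ => ha j
  obtain ⟨S, hS⟩ : ∃ S : Finset (PrimeSpectrum (RR k N 1)), ∀ Q, Q ∈ S ↔ Q ∈ Cv I 1 ∧
      ∃ j : Fin 3, W.asIdeal.map (smap j.succAbove) ≤ Q.asIdeal :=
    ⟨(Set.finite_iUnion (hFB k N 1 I W hW hP).1).toFinset, fun Q => by simp⟩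
  have h0 := hK W hW hP
  rw [finsum_cond_eq_sum_of_cond_iff (t := S) _ fun {Q} hQ => ⟨fun h => (hS Q).2 ⟨h, by
    by_contra hn
    refine hQ (mul_eq_zero_of_right _ (Int.cast_eq_zero.2 (Finset.sum_eq_zero fun j _ => ?_)))
    rw [len_eq_zero_iff.2 fun h => hn ⟨j, h⟩]
    simp⟩, fun h => ((hS Q).1 h).1⟩] at h0
  simp only [bdA, Int.cast_sum, Int.cast_mul, Int.cast_pow, Int.cast_neg, Int.cast_one,
    Int.cast_natCast, Finset.mul_sum, mul_left_comm (φ _)] at h0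
  rw [Finset.sum_comm] at h0
  refine Eq.trans (Finset.sum_congr rfl fun j _ => ?_) h0
  rw [← Finset.mul_sum]
  congr 1
  have cb := hc j _ (j.succAbove_ne 0).symm
  have cc := hc j _ (j.succAbove_ne 1).symm
  obtain ⟨T, hT⟩ : ∃ T : Finset (PrimeSpectrum (PP k N)), ∀ p, p ∈ T ↔ p ∈ Cu I ∧
      a j ∈ p.asIdeal := ⟨((hFC k N I).2 hI _ cb.nl).1.toFinset, fun p => by simp⟩
  have eB : ∀ g, Bsym I β (a j) g = ∑ p ∈ T,
      β p.asIdeal g * (len (I ⊔ Ideal.span {a j}) p.asIdeal).toNat := fun g => by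
    simp only [Bsym, mul_comm _ (β _ g)]
    exact finsum_cond_eq_sum_of_cond_iff _ fun {p} hp => ⟨fun h => (hT p).2 ⟨h,
      le_of_len hp (Ideal.mem_sup_right (Ideal.mem_span_singleton_self _))⟩, fun h => ((hT p).1 h).1⟩
  have eH : ∑ i, a i = a j + (a (j.succAbove 0) + a (j.succAbove 1)) := by
    rw [Fin.sum_univ_succAbove a j, Fin.sum_univ_two]
  have m1 : inc 1 (a j) ∈ W.asIdeal.map (smap j.succAbove) := by
    have := Ideal.mem_map_of_mem (smap j.succAbove) (hrel j)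
    rw [map_sub, map_mul, smap_self, smap_inc, smap_inc, zero_mul, zero_sub] at this
    exact neg_mem_iff.1 this
  have m2 : grEq (∑ i, a i) (a (j.succAbove 1)) ∈ W.asIdeal.map (smap j.succAbove) := by
    have := Ideal.mem_map_of_mem (smap j.succAbove) (hrel (j.succAbove 1))
    rwa [map_sub, map_mul, smap_succ, smap_inc, smap_inc] at this
  have nb : ∀ p ∈ T, a (j.succAbove 0) ∉ p.asIdeal ∧ a (j.succAbove 1) ∉ p.asIdeal := fun p hp =>
    ⟨((hFC k N I).1 p ((hT p).1 hp).1).2.2.1 _ _ cb ((hT p).1 hp).2,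
      ((hFC k N I).1 p ((hT p).1 hp).1).2.2.1 _ _ cc ((hT p).1 hp).2⟩
  have F1 : ∀ Q ∈ S, φ Q.asIdeal * (len (W.asIdeal.map (smap j.succAbove)) Q.asIdeal).toNat ≠ 0 →
      ∀ p, p = PrimeSpectrum.comap (inc 1 : PP k N →ₐ[k] RR k N 1).toRingHom Q →
      p ∈ T ∧ ∑ i, a i ∉ p.asIdeal ∧ ∀ Q', Gen1 p.asIdeal Q' (grEq (∑ i, a i)
        (a (j.succAbove 1))) → Q = Q' := by
    intro Q hQ hn p hp
    have hQ' := ((hS Q).1 hQ).1
    have hle := le_of_len hn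
    have e0 : Q.asIdeal.comap (inc 1) = p.asIdeal := by rw [hp]; rfl
    have hpT : p ∈ T := by
      refine (hT p).2 ⟨?_, e0 ▸ hle m1⟩
      rcases (hCL k N I).2.2 inferInstance Q hQ' with ⟨p', h1, h2⟩ | ⟨y, h1, h2⟩
      · rwa [← PrimeSpectrum.ext (h2.trans e0)]
      · exact (hn (mul_eq_zero_of_left ((congrArg φ h2).trans (hPT k N I φ y hI.hom hK h1))
          _)).elim
    refine ⟨hpT, fun h => (nb p hpT).2 ?_, fun Q' h => h.uniq Q ⟨⟨hQ'.1.prime, hQ'.1.hom,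
      e0 ▸ ((hCL k N I).1 1 _ hQ'.1).2.1, hQ'.1.rel⟩, hQ'.2⟩ e0 (hle m2)⟩
    rw [← e0] at h ⊢
    have := Q.asIdeal.sub_mem (Q.asIdeal.mul_mem_left (X (Sum.inr 1)) h) (hle m2)
    rwa [grEq, sub_sub_cancel] at this
  have F2 : ∀ p ∈ T, ∑ i, a i ∉ p.asIdeal → ∃ Q, Gen1 p.asIdeal Q (grEq (∑ i, a i)
      (a (j.succAbove 1))) ∧ Q ∈ Cv I 1 ∧
      φ Q.asIdeal * (len (W.asIdeal.map (smap j.succAbove)) Q.asIdeal).toNat =
      (β p.asIdeal (a (j.succAbove 1)) - β p.asIdeal (a (j.succAbove 0))) *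
        (len (I ⊔ Ideal.span {a j}) p.asIdeal).toNat := by
    intro p hp hn
    obtain ⟨h1, h2⟩ := (hT p).1 hp
    obtain ⟨Q, hQ⟩ := (hG k N I p h1).2 _ _ e hHe (ha (j.succAbove 1)) hn
    have hA : Adm I Q.asIdeal := ⟨hQ.cv.1.prime, hQ.cv.1.hom,
      (sup_le_sup_right (Ideal.map_mono h1.2.1) _).trans hQ.cv.1.le, hQ.cv.1.rel⟩
    have hG' : grEq (∑ i, a i) (a (j.succAbove 1)) ∈ Q.asIdeal :=
      le_of_len (x := 1) (by rw [hQ.one]; simp)
        (Ideal.mem_sup_right (Ideal.mem_span_singleton_self _))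
    have v : ∀ (v : Fin 2) (f : PP k N), vtx v (inc 1 f) = f := fun v => ((hVP k N 1).2.2.2.2 v).1
    have v0 : vtx 0 (grEq (∑ i, a i) (a (j.succAbove 1))) = -a (j.succAbove 1) := by
      rw [grEq, map_sub, map_mul, v, v]
      simp [vtx]
    have v1 : vtx 1 (grEq (∑ i, a i) (a (j.succAbove 1))) = a j + a (j.succAbove 0) := by
      rw [grEq, map_sub, map_mul, v, v, eH]
      simp [vtx, ← add_assoc]
    refine ⟨Q, hQ, ⟨hA, hQ.cv.2⟩, ?_⟩
    rw [hlen j p Q hA hQ.under h2 hn hG', (hβ p h1).val Q _ hQ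
      (by rw [v0, neg_mem_iff]; exact (nb p hp).2)
      (by rw [v1, Ideal.add_mem_iff_right _ h2]; exact (nb p hp).1), v0, v1,
      beta_neg (hβ p h1) (ha _) (nb p hp).2,
      (hβ p h1).congr (a j + a (j.succAbove 0)) (a (j.succAbove 0)) (by simpa using h2)]
  rw [eB, eB, ← Finset.sum_sub_distrib]
  simp only [← sub_mul]
  symm
  refine Finset.sum_bij_ne_zero
    (fun Q _ _ => PrimeSpectrum.comap (inc 1 : PP k N →ₐ[k] RR k N 1).toRingHom Q)
    (fun Q h1 h2 => (F1 Q h1 h2 _ rfl).1) (fun Q h1 h2 Q' h1' h2' h => ?_) (fun p hp hn => ?_)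
    fun Q h1 h2 => ?_
  · obtain ⟨a1, a2, a3⟩ := F1 Q h1 h2 _ rfl
    obtain ⟨Q₀, b1, -⟩ := F2 _ a1 a2
    exact (a3 Q₀ b1).trans ((F1 Q' h1' h2' _ h).2.2 Q₀ b1).symm
  · obtain ⟨h1, h2⟩ := (hT p).1 hp
    obtain ⟨Q, b1, b2, b3⟩ := F2 p hp fun h => hn (by
      rw [← beta_neg (hβ p h1) (ha _) (nb p hp).1, (hβ p h1).congr (a (j.succAbove 1))
        (-a (j.succAbove 0)) (by
          rw [sub_neg_eq_add, add_comm (a (j.succAbove 1)), ← Ideal.add_mem_iff_right _ h2, ← eH]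
          exact h), sub_self, zero_mul])
    exact ⟨Q, (hS Q).2 ⟨b2, j, le_of_len (b3 ▸ hn)⟩, b3 ▸ hn, PrimeSpectrum.ext b1.under⟩
  · obtain ⟨a1, a2, a3⟩ := F1 Q h1 h2 _ rfl
    obtain ⟨Q₀, b1, -, b3⟩ := F2 _ a1 a2
    rw [← b3, ← a3 Q₀ b1]

end Pool.Agent.P.MP_12d50c_ag
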