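import Pool.Agent.P.MP_12d50c_ag.If4

/-!
The graph of a rational map from a surface to the simplex.
-/

open MvPolynomial Function

namespace Pool.Agent.P.MP_12d50c_ag

namespace GR1

section Dim

theorem dim_lt {R : Type} [CommRing R] {I p : Ideal R} [I.IsPrime] (h : I ≤ p) {a : R}
    (h1 : a ∈ p) (h2 : a ∉ I) : ringKrullDim (R ⧸ p) + 1 ≤ ringKrullDim (R ⧸ I) :=
  ringKrullDim_succ_le_of_surjective (Ideal.Quotient.factor h) (Ideal.Quotient.factor_surjective h)
    (r := Ideal.Quotient.mk I a)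
    (mem_nonZeroDivisors_of_ne_zero fun h0 => h2 (Ideal.Quotient.eq_zero_iff_mem.1 h0))
    (Ideal.Quotient.eq_zero_iff_mem.2 h1)

theorem le_of_succ {x : WithBot ℕ∞} {m : ℕ} (h : x + 1 ≤ (m + 1 : ℕ)) : x ≤ m := by
  induction x with
  | bot => exact bot_le
  | coe x =>
    induction x with
    | top => exact absurd h (by norm_cast)
    | coe x =>
      have h1 : x + 1 ≤ m + 1 := by exact_mod_cast h
      have h2 : x ≤ m := by omega
      exact_mod_cast h2

theorem le_or_eq {x : WithBot ℕ∞} {m : ℕ} (h : x ≤ (m + 1 : ℕ)) : x ≤ m ∨ x = (m + 1 : ℕ) := by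
  induction x with
  | bot => exact .inl bot_le
  | coe x =>
    induction x with
    | top => exact absurd h (by norm_cast)
    | coe x =>
      have h1 : x ≤ m + 1 := by exact_mod_cast h
      rcases h1.lt_or_eq with h2 | h2
      · exact .inl (by exact_mod_cast Nat.lt_succ_iff.1 h2)
      · exact .inr (by exact_mod_cast h2)

theorem lq_congr {k K : Type} [Field k] [Field K] [Algebra k K] {S S' : Subalgebra k K}
    (h : S = S') (x : S) (x' u : S') (hu : IsUnit u) (hx : (x' : K) = x * u) :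
    lq (Ideal.span {x}) = lq (Ideal.span {x'}) := by
  subst h
  rw [show x' = x * u from Subtype.ext hx, Ideal.span_singleton_mul_right_unit hu]

variable {k R S : Type} [Field k] [CommRing R] [CommRing S] [Algebra k R] [Algebra k S]
  (f : R →ₐ[k] S)

theorem dim_surj (hf : Surjective f) {W : Ideal R} {Q : Ideal S} (h : W.map f ≤ Q) :
    ringKrullDim (S ⧸ Q) ≤ ringKrullDim (R ⧸ W) :=
  ringKrullDim_le_of_surjective (Ideal.quotientMap Q (f : R →+* S) (Ideal.map_le_iff_le_comap.1 h))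
    (Ideal.quotientMap_surjective hf)

theorem ls (hLS : S_LS) (hf : Surjective f) (J : Ideal R) (Q : Ideal S) [Q.IsPrime] :
    len (J.map f) Q = len (J ⊔ RingHom.ker f) (Q.comap f) := hLS R S (f : R →+* S) J Q hf

end Dim

variable {k : Type} [Field k] {N m n : ℕ}

theorem smap_inc (g : Fin (m + 1) → Fin (n + 1)) (f : PP k N) : smap g (inc n f) = inc m f :=
  DFunLike.congr_fun (algHom_ext (f := (smap g).comp (inc n)) (g := inc m) fun i => by
    simp [smap]) f

theorem smap_X (g : Fin (m + 1) → Fin (n + 1)) (j : Fin (n + 1)) :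
    (smap g (X (Sum.inr j)) : RR k N m) = ∑ i with g i = j, X (Sum.inr i) := by
  simp [smap]

/-- The equations of the graph. -/
noncomputable def rr (a : Fin (n + 1) → PP k N) (j : Fin (n + 1)) : RR k N n :=
  X (Sum.inr j) * inc n (∑ j, a j) - inc n (a j)

theorem smap_rr_out (a : Fin (n + 1) → PP k N) {g : Fin (m + 1) → Fin (n + 1)} {j : Fin (n + 1)}
    (hj : ∀ i, g i ≠ j) : smap g (rr a j) = -inc m (a j) := by
  rw [rr, map_sub, map_mul, smap_X, smap_inc, smap_inc, Finset.filter_false_of_mem fun i _ => hj i]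
  simp

theorem smap_rr_in (a : Fin (n + 1) → PP k N) {g : Fin (m + 1) → Fin (n + 1)} (hg : Injective g)
    (i : Fin (m + 1)) :
    smap g (rr a (g i)) = X (Sum.inr i) * inc m (∑ j, a j) - inc m (a (g i)) := by
  rw [rr, map_sub, map_mul, smap_X, smap_inc, smap_inc]
  simp [hg.eq_iff, Finset.filter_eq']

theorem sum_rr (a : Fin (n + 1) → PP k N) :
    ∑ j, rr a j = (∑ j, X (Sum.inr j) - 1) * inc n (∑ j, a j) := by
  simp only [rr, Finset.sum_sub_distrib, ← Finset.sum_mul, ← map_sum]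
  ring

/-- After multiplication by a power of the denominator, `f` is a form modulo the equations. -/
def SA (a : Fin (n + 1) → PP k N) (e d : ℕ) (f : RR k N n) : Prop :=
  ∃ (M : ℕ) (f0 : PP k N), f0.IsHomogeneous (d + M * e) ∧
    inc n (∑ j, a j) ^ M * f - inc n f0 ∈ Ideal.span (Set.range (rr a))

variable {a : Fin (n + 1) → PP k N} {e : ℕ}

theorem SA.mul {d d' : ℕ} {f g : RR k N n} (hf : SA a e d f) (hg : SA a e d' g) :
    SA a e (d + d') (f * g) := by
  obtain ⟨M, f0, h1, h2⟩ := hf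
  obtain ⟨M', g0, h3, h4⟩ := hg
  refine ⟨M + M', f0 * g0, by convert h1.mul h3 using 1; ring, ?_⟩
  have h5 := add_mem (Ideal.mul_mem_right (inc n (∑ j, a j) ^ M' * g) _ h2)
    (Ideal.mul_mem_left _ (inc n f0) h4)
  convert h5 using 1
  rw [map_mul]
  ring

theorem SA.add (ha : ∀ j, (a j).IsHomogeneous e) {d : ℕ} {f g : RR k N n} (hf : SA a e d f)
    (hg : SA a e d g) : SA a e d (f + g) := by
  obtain ⟨M, f0, h1, h2⟩ := hf
  obtain ⟨M', g0, h3, h4⟩ := hg
  have hH : (∑ j, a j).IsHomogeneous e := IsHomogeneous.sum _ _ _ fun j _ => ha j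
  refine ⟨M + M', (∑ j, a j) ^ M' * f0 + (∑ j, a j) ^ M * g0, IsHomogeneous.add
    (by convert (hH.pow M').mul h1 using 1; ring) (by convert (hH.pow M).mul h3 using 1; ring), ?_⟩
  have h5 := add_mem (Ideal.mul_mem_left _ (inc n (∑ j, a j) ^ M') h2)
    (Ideal.mul_mem_left _ (inc n (∑ j, a j) ^ M) h4)
  convert h5 using 1
  rw [map_add, map_mul, map_mul, map_pow, map_pow]
  ring

theorem sa_C (c : k) : SA a e 0 (C c) :=
  ⟨0, C c, by simpa using isHomogeneous_C _ c, by simp⟩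

theorem SA.pow {d : ℕ} {f : RR k N n} (hf : SA a e d f) (b : ℕ) : SA a e (b * d) (f ^ b) := by
  induction b with
  | zero => simpa using sa_C (a := a) (e := e) 1
  | succ b ih => simpa only [pow_succ, add_mul, one_mul] using ih.mul hf

theorem sa_X (ha : ∀ j, (a j).IsHomogeneous e) (i : Ix N n) : SA a e (wt N n i) (X i) := by
  rcases i with i | j
  · exact ⟨0, X i, by simpa [wt] using isHomogeneous_X k i, by simp⟩
  · exact ⟨1, a j, by simpa [wt] using ha j,
      Ideal.subset_span ⟨j, by rw [rr, pow_one, mul_comm]⟩⟩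

theorem sa (ha : ∀ j, (a j).IsHomogeneous e) {d : ℕ} {f : RR k N n}
    (hf : IsWeightedHomogeneous (wt N n) f d) : SA a e d f := by
  induction hf using IsWeightedHomogeneous.induction_on with
  | zero => exact ⟨0, 0, isHomogeneous_zero _ _ _, by simp⟩
  | add p q _ _ hp hq => exact hp.add ha hq
  | monomial s c hs =>
    subst hs
    induction s using Finsupp.induction with
    | zero => simpa using sa_C (a := a) (e := e) c
    | single_add i b s _ _ ih =>
      rw [monomial_single_add, map_add, Finsupp.weight_single, smul_eq_mul]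
      exact ((sa_X ha i).pow b).mul ih

section Graph

variable {K : Type} [Field K] [Algebra k K] {ξ : Fin (N + 1) → K}

/-- The generic point of the graph. -/
noncomputable def eta (a : Fin (n + 1) → PP k N) (ξ : Fin (N + 1) → K) : Ix N n → K :=
  Sum.elim ξ fun j => aeval ξ (a j) / aeval ξ (∑ j, a j)

theorem eta_inc (f : PP k N) : aeval (eta a ξ) (inc n f) = aeval ξ f := by
  rw [aeval_rename]
  rfl

theorem hom_inc {f : PP k N} {d : ℕ} (hf : f.IsHomogeneous d) (hV : S_VP0) :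
    IsWeightedHomogeneous (wt N n) (inc n f) d := (hV k N n).2.1 f d hf

theorem hom_X (j : Fin (n + 1)) :
    IsWeightedHomogeneous (wt N n) (X (Sum.inr j) : RR k N n) 0 :=
  isWeightedHomogeneous_X k (wt N n) (Sum.inr j)

theorem eta_rr (hH : aeval ξ (∑ j, a j) ≠ 0) (j : Fin (n + 1)) :
    aeval (eta a ξ) (rr a j) = 0 := by
  rw [rr, map_sub, map_mul, eta_inc, eta_inc, aeval_X]
  exact sub_eq_zero.2 (div_mul_cancel₀ _ hH)

theorem rr_mem (hV : S_VP0) (ha : ∀ j, (a j).IsHomogeneous e) (hH : aeval ξ (∑ j, a j) ≠ 0)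
    (j : Fin (n + 1)) : rr a j ∈ vanw k (wt N n) (eta a ξ) := by
  have h1 : IsWeightedHomogeneous (wt N n) (rr a j) (0 + e) :=
    ((hom_X j).mul (hom_inc (IsHomogeneous.sum _ _ _ fun j _ => ha j) hV)).sub
      (by simpa using hom_inc (ha j) hV)
  exact (mem_vanw_of_hom h1).2 (eta_rr hH j)

theorem eta_sa (hH : aeval ξ (∑ j, a j) ≠ 0) {M : ℕ} {f : RR k N n} {f0 : PP k N}
    (h : inc n (∑ j, a j) ^ M * f - inc n f0 ∈ Ideal.span (Set.range (rr a))) :
    aeval ξ (∑ j, a j) ^ M * aeval (eta a ξ) f = aeval ξ f0 := by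
  have h1 : Ideal.span (Set.range (rr a)) ≤ RingHom.ker (aeval (eta a ξ) : RR k N n →ₐ[k] K) :=
    Ideal.span_le.2 (Set.range_subset_iff.2 fun j => eta_rr hH j)
  have h2 := h1 h
  rwa [RingHom.mem_ker, map_sub, map_mul, map_pow, eta_inc, eta_inc, sub_eq_zero] at h2

theorem gen_eta (hV : S_VP0) (hg : Gen k 1 ξ) : Gen k (wt N n) (eta a ξ) := fun u => by
  obtain ⟨d, g, h, h1, h2, h3, h4⟩ := hg u
  exact ⟨d, inc n g, inc n h, hom_inc h1 hV, hom_inc h2 hV, by rwa [eta_inc],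
    by rwa [eta_inc, eta_inc]⟩

theorem adm_eta (hV : S_VP0) (hH : aeval ξ (∑ j, a j) ≠ 0) {i : Fin (N + 1)} (hi : ξ i ≠ 0) :
    Adm (van k ξ) (vanw k (wt N n) (eta a ξ)) := by
  refine ⟨inferInstance, wHom_vanw _, sup_le (Ideal.map_le_iff_le_comap.2
    ((wHom_vanw ξ).le_of_hom fun f d h1 h2 => ?_)) ((Ideal.span_singleton_le_iff_mem _).2 ?_),
    i, fun h => hi ?_⟩
  · rw [Ideal.mem_comap, mem_vanw_of_hom (hom_inc h1 hV), eta_inc]
    exact (mem_vanw_of_hom h1).1 h2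
  · rw [mem_vanw_of_hom ((IsWeightedHomogeneous.sum _ _ 0 fun j _ => hom_X j).sub
      (isWeightedHomogeneous_one k _))]
    simp only [map_sub, map_sum, aeval_X, eta, Sum.elim_inr, map_one, ← Finset.sum_div]
    rw [← map_sum, div_self hH, sub_self]
  · simpa [eta] using aeval_eq_zero_of_mem_vanw h

variable {q : Ideal (RR k N n)} [hq : q.IsPrime] {p : Ideal (PP k N)} [p.IsPrime]

theorem van_le (ha : ∀ j, (a j).IsHomogeneous e) (hH : aeval ξ (∑ j, a j) ≠ 0)
    (hp : q.comap (inc n) = p) (h1 : van k ξ ≤ p) (h2 : ∀ j, rr a j ∈ q) (h3 : ∑ j, a j ∉ p) :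
    vanw k (wt N n) (eta a ξ) ≤ q := by
  subst hp
  refine (wHom_vanw _).le_of_hom fun f d hf h4 => ?_
  obtain ⟨M, f0, h5, h6⟩ := sa ha hf
  have h7 := eta_sa hH h6
  rw [(mem_vanw_of_hom hf).1 h4, mul_zero] at h7
  have h8 : inc n f0 ∈ q := h1 ((mem_van_of_hom h5).2 h7.symm)
  have h9 := add_mem (Ideal.span_le.2 (Set.range_subset_iff.2 h2) h6) h8
  rw [sub_add_cancel] at h9
  exact (hq.mem_or_mem h9).resolve_left fun h => h3 (hq.mem_of_pow_mem _ h)

theorem locw_eq (hV : S_VP0) (ha : ∀ j, (a j).IsHomogeneous e) (hH : aeval ξ (∑ j, a j) ≠ 0)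
    (hp : q.comap (inc n) = p) (h2 : ∀ j, rr a j ∈ q) (h3 : ∑ j, a j ∉ p) :
    locw (wt N n) (eta a ξ) q = locw 1 ξ p := by
  subst hp
  have hS : (∑ j, a j).IsHomogeneous e := IsHomogeneous.sum _ _ _ fun j _ => ha j
  ext u
  constructor
  · rintro ⟨d, g, h, hg, hh, h4, h5⟩
    obtain ⟨M, g0, h6, h7⟩ := sa ha hg
    obtain ⟨M', h0, h8, h9⟩ := sa ha hh
    have e1 : ((∑ j, a j) ^ M' * g0).IsHomogeneous (d + (M + M') * e) := by
      convert (hS.pow M').mul h6 using 1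
      ring
    have e2 : ((∑ j, a j) ^ M * h0).IsHomogeneous (d + (M + M') * e) := by
      convert (hS.pow M).mul h8 using 1
      ring
    refine ⟨_, _, _, e1, e2, fun h10 => ?_, ?_⟩
    · have h11 : inc n h0 ∈ q := ((hq.comap (inc n)).mem_or_mem h10).resolve_left
        fun h => h3 ((hq.comap (inc n)).mem_of_pow_mem _ h)
      have h12 := add_mem (Ideal.span_le.2 (Set.range_subset_iff.2 h2) h9) h11
      rw [sub_add_cancel] at h12
      exact (hq.mem_or_mem h12).elim (fun h => h3 (hq.mem_of_pow_mem _ h)) h4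
    · rw [map_mul, map_mul, map_pow, map_pow, ← eta_sa hH h7, ← eta_sa hH h9, ← h5]
      ring
  · rintro ⟨d, g, h, hg, hh, h4, h5⟩
    exact ⟨d, inc n g, inc n h, hom_inc hg hV, hom_inc hh hV, h4, by rwa [eta_inc, eta_inc]⟩

theorem len_eq (hLOC : S_LOC) (hFL : S_FL) (hV : S_VP0) (ha : ∀ j, (a j).IsHomogeneous e)
    (hH : aeval ξ (∑ j, a j) ≠ 0) (hq' : WHom (wt N n) q) {i : Fin (N + 1)}
    (hi : X (Sum.inl i) ∉ q) (hp : q.comap (inc n) = p) (h1 : van k ξ ≤ p) (h2 : ∀ j, rr a j ∈ q)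
    (h3 : ∑ j, a j ∉ p) (j : Fin (n + 1)) :
    len (vanw k (wt N n) (eta a ξ) ⊔ Ideal.span {X (Sum.inr j)}) q =
      len (van k ξ ⊔ Ideal.span {a j}) p := by
  have hS : (∑ j, a j).IsHomogeneous e := IsHomogeneous.sum _ _ _ fun j _ => ha j
  have c1 : Ch (wt N n) (eta a ξ) q (Sum.inl i) := ⟨van_le ha hH hp h1 h2 h3, rfl, hi⟩
  have c2 : Ch 1 ξ p i := ⟨h1, rfl, fun h => hi (by simpa [← hp] using h)⟩
  have hp' : WHom 1 p := hp ▸ (hV k N n).2.2.1 q hq'
  have w1 : WHom (wt N n) (Ideal.span {(X (Sum.inr j) : RR k N n)}) :=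
    wHom_span fun f hf => ⟨0, Set.mem_singleton_iff.1 hf ▸ hom_X j⟩
  have w2 : WHom 1 (Ideal.span {a j}) :=
    wHom_span fun f hf => ⟨e, Set.mem_singleton_iff.1 hf ▸ ha j⟩
  rw [← (hFL k _ _ K _ q _ c1 hq').2 _ w1, ← (hFL k _ _ K _ p _ c2 hp').2 _ w2,
    Ideal.map_span, Ideal.map_span, Set.image_singleton, Set.image_singleton]
  obtain ⟨_, -, h4, -⟩ := hLOC k _ _ K _ p _ c2
  refine lq_congr (locw_eq hV ha hH hp h2 h3) _ _ _ ((h4 _ e hS).2 h3) ?_
  rw [coe_germ_of_hom c2 (ha j), coe_germ_of_hom c2 hS, coe_germ_of_hom c1 (hom_X j), aeval_X,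
    pow_zero, div_one, ← mul_div_assoc]
  exact congrArg (· / _) (div_mul_cancel₀ _ hH).symm

end Graph

theorem missing0 (g : Fin 1 → Fin 3) : ∃ j j', j ≠ j' ∧ (∀ i, g i ≠ j) ∧ ∀ i, g i ≠ j' := by
  revert g
  decide

theorem missing1 (g : Fin 2 → Fin 3) : ∃ j, ∀ i, g i ≠ j := by
  revert g
  decide

theorem prp [IsAlgClosed k] (hNSP : S_NSP) (hNS0 : S_NS0) (hV : S_VP0) (hVP : S_VP) (hCL : S_CL)
    (hF : S_FINC) {I : Ideal (PP k N)} (hI : IsSm 2 I) {a : Fin 3 → PP k N}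
    (hc : ∀ i j, i ≠ j → Cop I (a i) (a j)) {W : Ideal (RR k N 2)}
    (hd : ringKrullDim (RR k N 2 ⧸ W) = (2 + 1 : ℕ)) (hr : ∀ j, rr a j ∈ W) : Prp I W := by
  intro m g Q hQ hW
  have := hQ.prime
  have := hI.prime
  obtain ⟨c1, c2, -, c3⟩ := (hCL k N I).1 m Q hQ
  have h1 : ∀ j, smap g (rr a j) ∈ Q := fun j => hW (Ideal.mem_map_of_mem _ (hr j))
  have h2 : ∀ j, (∀ i, g i ≠ j) → a j ∈ Q.comap (inc m) := fun j hj => by
    have h := h1 j
    rwa [smap_rr_out a hj, neg_mem_iff] at h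
  have hh : Hom (Q.comap (inc m)) := (hV k N m).2.2.1 Q hQ.hom
  have hm : m + 1 ≤ 2 + 1 := by simpa using Fintype.card_le_of_injective g g.injective
  obtain rfl | rfl | rfl : m = 0 ∨ m = 1 ∨ m = 2 := by omega
  · obtain ⟨j, j', h3, h4, h5⟩ := missing0 g
    obtain ⟨i, hi⟩ := hQ.rel
    obtain ⟨y, hy⟩ := ((hNSP k N).2 (Q.comap (inc 0)) inferInstance hh
      ⟨i, by simpa using hi⟩).2.2.1 ((hc j j' h3).fin.subset fun y hy =>
        ⟨fun f hf => hy f (c1 hf), hy _ (h2 j h4), hy _ (h2 j' h5)⟩)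
    rw [hy, hNS0.1 k N y] at c3
    simpa using c3
  · obtain ⟨j, h3⟩ := missing1 g
    have h4 := hc j (g 1) (h3 1).symm
    have h5 := dim_lt c1 (h2 j h3) h4.nl
    rw [hI.dim] at h5
    rcases le_or_eq (m := 1) (le_of_succ h5) with h6 | h6
    · exact c3.trans ((add_le_add_left h6 _).trans (by norm_cast))
    obtain ⟨h7, h8⟩ := (hVP k N 1).1 (Q.comap (inc 1)) inferInstance
    have h9 : smap g (rr a (g 1)) ∉ cyl (Q.comap (inc 1)) 1 := fun h => by
      obtain ⟨v1, -, v2⟩ := (hV k N 1).2.2.2.2 0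
      have h10 := Ideal.mem_map_of_mem (vtx 0) h
      rw [(v2 _).1, smap_rr_in a g.injective, map_sub, map_mul, v1, v1] at h10
      refine ((hF k N I).1 ⟨Q.comap (inc 1), inferInstance⟩ ⟨hh, c1, h6⟩).2.2.1 _ _ h4
        (h2 j h3) ?_
      simpa [vtx] using h10
    have h11 := dim_lt c2 (h1 _) h9
    rw [h8, h6] at h11
    exact le_of_succ (by exact_mod_cast h11)
  · rw [← hd]
    exact dim_surj _ (((hV k N 2).1 2 g).2.2.2.2.2 g.injective).1 hW

end GR1

open GR1 in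
theorem t_GR1 : S_EX → S_DM → S_LOC → S_FL → S_NSP → S_NS0 → S_LS → S_VP0 → S_VP → S_GENL →
    S_CL → S_FINC → S_GR1 := by
  intro hEX hDM hLOC hFL hNSP hNS0 hLS hV hVP _ hCL hF k _ _ N I a e hI ha hc hS
  have := hI.prime
  obtain ⟨i, hi⟩ := hI.rel
  obtain ⟨K, _, _, ξ, rfl, h1, hg⟩ := hEX k _ 1 I i hI.hom rfl hi
  have hH : aeval ξ (∑ j, a j) ≠ 0 := fun h =>
    hS ((mem_van_of_hom (IsHomogeneous.sum _ _ _ fun j _ => ha j)).2 h)
  have h2 : ξ i ≠ 0 := h1 ▸ one_ne_zero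
  obtain ⟨d, h3, h4⟩ := hDM k _ 1 K ξ i hg rfl h2
  obtain ⟨d', h5, h6⟩ := hDM k _ (wt N 2) K (eta a ξ) (Sum.inl i) (gen_eta hV hg) rfl h2
  obtain rfl : d' = d := by exact_mod_cast h5.symm.trans h3
  obtain rfl : d' = 2 := by
    have h : d' + 1 = 2 + 1 := by exact_mod_cast h4.symm.trans hI.dim
    omega
  have hr := rr_mem hV ha hH
  refine ⟨⟨vanw k (wt N 2) (eta a ξ), inferInstance⟩, ⟨adm_eta hV hH h2, h6⟩,
    prp hNSP hNS0 hV hVP hCL hF hI hc h6 hr, hr, fun j p Q hQ hp h7 h8 h9 => ?_⟩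
  obtain ⟨-, -, -, v1, -, v2⟩ := (hV k N 2).1 1 j.succAbove
  obtain ⟨v2, v3⟩ := v2 Fin.succAbove_right_injective
  have hA := v1 _ _ hQ
  have hp' : (Q.asIdeal.comap (smap j.succAbove)).comap (inc 2) = p.asIdeal := by
    ext f
    rw [Ideal.mem_comap, Ideal.mem_comap, smap_inc, ← hp, Ideal.mem_comap]
  have r0 : rr a j ∈ Q.asIdeal.comap (smap j.succAbove) := by
    rw [Ideal.mem_comap, smap_rr_out a (Fin.succAbove_ne j), neg_mem_iff, ← Ideal.mem_comap, hp]
    exact h7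
  have r1 : rr a (j.succAbove 1) ∈ Q.asIdeal.comap (smap j.succAbove) := by
    rw [Ideal.mem_comap, smap_rr_in a Fin.succAbove_right_injective]
    exact h9
  have r2 : rr a (j.succAbove 0) ∈ Q.asIdeal.comap (smap j.succAbove) := by
    have h : ∑ j, rr a j ∈ Q.asIdeal.comap (smap j.succAbove) := by
      rw [sum_rr]
      exact Ideal.mul_mem_right _ _ (hA.le (Ideal.mem_sup_right (Ideal.subset_span rfl)))
    rw [Fin.sum_univ_succAbove _ j, Fin.sum_univ_two] at h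
    exact (Ideal.add_mem_iff_left _ r1).1 ((Ideal.add_mem_iff_right _ r0).1 h)
  have r3 : ∀ j', rr a j' ∈ Q.asIdeal.comap (smap j.succAbove) := fun j' => by
    induction j' using j.succAboveCases with
    | x => exact r0
    | p l =>
      fin_cases l
      · exact r2
      · exact r1
  obtain ⟨i', hi'⟩ := hA.rel
  have h10 := len_eq hLOC hFL hV ha hH hA.hom hi' hp' (hp ▸ ((hCL k N _).1 1 _ hQ).1) r3 h8 j
  rw [Fin.range_succAbove, compl_compl, Set.image_singleton] at v3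
  rw [← h10, ← v3]
  exact ls _ hLS v2 _ _

end Pool.Agent.P.MP_12d50c_ag
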