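import Pool.Agent.P.MP_12d50c_ag.If1

/-!
Local intersection numbers.
-/

open MvPolynomial IsLocalRing

namespace Pool.Agent.P.MP_12d50c_ag

namespace INT

theorem len_ne_top {R : Type} [CommRing R] [IsNoetherianRing R] {J q : Ideal R} [q.IsPrime]
    (h : q ∈ J.minimalPrimes) : len J q ≠ ⊤ := by
  have h1 := IsLocalization.AtPrime.radical_map_of_mem_minimalPrimes
    (Localization.AtPrime q) q J h
  rw [Localization.AtPrime.map_eq_maximalIdeal] at h1
  have : IsArtinianRing (LQ J q) :=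
    IsLocalRing.quotient_artinian_of_mem_minimalPrimes_of_isLocalRing _ (by
      rw [← Ideal.radical_minimalPrimes, h1, Ideal.minimalPrimes_eq_subsingleton_self]
      rfl)
  rw [len, Module.length_eq_of_surjective (R := LQ J q) Ideal.Quotient.mk_surjective]
  exact Module.length_ne_top

theorem range_two {α : Type} (f : Fin 2 → α) : Set.range f = {f 0, f 1} := by
  ext a
  simp [Fin.exists_fin_two, eq_comm]

variable {k : Type} [Field k] {N : ℕ} {I : Ideal (PP k N)} {h g : PP k N} {e e' : ℕ}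

theorem hom_sup (hI : Hom I) (hh : h.IsHomogeneous e) (hg : g.IsHomogeneous e') :
    Hom (I ⊔ Ideal.span {h, g}) :=
  WHom.sup hI (wHom_span (by
    rintro _ (rfl | rfl)
    exacts [⟨e, hh⟩, ⟨e', hg⟩]))

theorem on_iff {y : NP k N} : On (I ⊔ Ideal.span {h, g}) y.1 ↔ y ∈ Zs I h g := by
  rw [on_sup, on_span]
  simp [Zs]

end INT

open INT in
theorem t_INT : S_NSP → S_REG → S_REG2 → S_INT := by
  intro hN hR hR2 k _ _ N I hI
  have := hI.prime
  have h1 : ∀ (h g : PP k N) (e e' : ℕ) (y : NP k N), h.IsHomogeneous e → g.IsHomogeneous e' →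
      (inter I y h g = 0 ↔ y ∉ Zs I h g) := fun h g e e' y hh hg => by
    rw [inter, len_eq_zero_iff, ← (hom_sup hI.hom hh hg).on_iff, on_iff]
  have h2 : ∀ h g y, Cop I h g → inter I y h g ≠ ⊤ := by
    intro h g y H
    obtain ⟨e, hh⟩ := H.hl
    obtain ⟨e', hg⟩ := H.hr
    by_cases hy : I ⊔ Ideal.span {h, g} ≤ van k y.1
    · obtain ⟨q, hq, hqy⟩ := Ideal.exists_minimalPrimes_le hy
      obtain ⟨y', hy'⟩ := ((hN k N).2 q hq.1.1 ((hom_sup hI.hom hh hg).minimalPrimes hq)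
        ⟨y.piv, fun a => y.X_piv_notMem (hqy a)⟩).2.2.1
        (H.fin.subset fun z hz => on_iff.1 fun f hf => hz f (hq.1.2 hf))
      subst hy'
      obtain rfl := NP.eq_of_van_le hqy
      exact len_ne_top hq
    · rw [inter, len_eq_zero_iff.2 hy]
      exact ENat.zero_ne_top
  refine ⟨h1, h2, fun h g g' H H' => ?_, fun h g g' e e' hg hg' H => ⟨⟨H.hl, ⟨e, hg⟩, H.nl,
    fun a => H.nr (I.mul_mem_right _ a), H.fin.subset fun y hy => ⟨hy.1, hy.2.1, ?_⟩⟩,
    H.hl, ⟨e', hg'⟩, H.nl, fun a => H.nr (I.mul_mem_left _ a),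
    H.fin.subset fun y hy => ⟨hy.1, hy.2.1, ?_⟩⟩⟩
  · obtain ⟨e, hh⟩ := H.hl
    obtain ⟨e₁, hg⟩ := H.hr
    obtain ⟨e₂, hg'⟩ := H'.hr
    have H2 : Cop I h (g * g') := ⟨H.hl, ⟨_, hg.mul hg'⟩, H.nl,
      fun a => (hI.prime.mem_or_mem a).elim H.nr H'.nr, (H.fin.union H'.fin).subset fun y hy => by
        have := hy.2.2
        rw [map_mul, mul_eq_zero] at this
        exact this.imp (fun a => ⟨hy.1, hy.2.1, a⟩) fun a => ⟨hy.1, hy.2.1, a⟩⟩
    refine ⟨H2, fun y => ?_⟩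
    by_cases hy : On I y.1
    · have hle := hI.hom.on_iff.1 hy
      have := isDomain_LQ hle
      have := isLocalRing_LQ hle
      obtain ⟨d1, c, d2⟩ := (hR k N I y hI.hom hy).2 2 hI
      have h3 := h2 h (g * g') y H2
      simp only [inter, len_sup, Ideal.map_span, Set.image_pair, map_mul] at h3 ⊢
      rw [range_two] at d2
      exact (hR2 _ d1 ⟨_, _, maximalIdeal_LQ.trans d2⟩).2.2.2 _ _ _ h3
    · rw [(h1 _ _ _ _ y hh (hg.mul hg')).2 fun a => hy a.1, (h1 _ _ _ _ y hh hg).2 fun a => hy a.1,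
        (h1 _ _ _ _ y hh hg').2 fun a => hy a.1, add_zero]
  · rw [map_mul, hy.2.2, zero_mul]
  · rw [map_mul, hy.2.2, mul_zero]

end Pool.Agent.P.MP_12d50c_ag
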