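import Pool.Agent.P.MP_12d50c_ag.If5

/-!
The product of an integral scheme and a simplex is integral.
-/

open CategoryTheory AlgebraicGeometry MvPolynomial Limits

namespace Pool.Agent.P.MP_12d50c_ag

namespace INTD

/-- Elimination of the first coordinate. -/
noncomputable def fw (n : ℕ) : SimplexRing n →+* MvPolynomial (Fin n) (ULift.{0} ℤ) :=
  Ideal.Quotient.lift _ (eval₂Hom (Int.castRingHom _) (Fin.cons (1 - ∑ j, X j) X)) fun a ha => by
    obtain ⟨b, rfl⟩ := Ideal.mem_span_singleton'.1 ha
    simp [Fin.sum_univ_succ]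

/-- The inverse map. -/
noncomputable def bw (n : ℕ) : MvPolynomial (Fin n) (ULift.{0} ℤ) →+* SimplexRing n :=
  eval₂Hom ((Int.castRingHom _).comp ULift.ringEquiv.toRingHom)
    fun j => Ideal.Quotient.mk _ (X j.succ)

theorem ext_ulift {R : Type} [Ring R] (f g : ULift.{0} ℤ →+* R) : f = g := by
  have h := RingHom.ext_int (f.comp ULift.ringEquiv.symm.toRingHom)
    (g.comp ULift.ringEquiv.symm.toRingHom)
  exact RingHom.ext fun x => RingHom.congr_fun h x.down

/-- The simplex is an affine space. -/
noncomputable def eqv (n : ℕ) : SimplexRing n ≃+* MvPolynomial (Fin n) (ULift.{0} ℤ) :=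
  RingEquiv.ofRingHom (fw n) (bw n)
    (MvPolynomial.ringHom_ext' (ext_ulift _ _) fun j => by simp [fw, bw])
    (Ideal.Quotient.ringHom_ext (MvPolynomial.ringHom_ext' (RingHom.ext_int _ _) fun j => by
      refine Fin.cases ?_ (fun j => by simp [fw, bw]) j
      have h : Ideal.Quotient.mk (Ideal.span {(∑ i, X i - 1 : MvPolynomial (Fin (n + 1)) ℤ)})
          (X 0 + ∑ i : Fin n, X i.succ - 1) = 0 :=
        Ideal.Quotient.eq_zero_iff_mem.2 (by
          rw [← Fin.sum_univ_succ]
          exact Ideal.mem_span_singleton_self _)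
      rw [map_sub, map_add, map_sum, map_one] at h
      simp only [fw, bw, RingHom.comp_apply, Ideal.Quotient.lift_mk, eval₂Hom_X', Fin.cons_zero,
        map_sub, map_one, map_sum, RingHom.id_apply]
      linear_combination -h))

end INTD

open INTD in
theorem t_INTD : S_INTD := by
  intro Y _ n
  let e : AffineSpace (Fin n) Y ≅ XD Y n := (prodIsoPullback _ _).symm ≪≫
    prod.mapIso (Iso.refl Y) (Scheme.Spec.mapIso (eqv n).toCommRingCatIso.op)
  exact IsIntegral.of_isIso e.hom

end Pool.Agent.P.MP_12d50c_ag
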