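import Pool.Agent.P.MP_12d50c_ag.If3

/-!
A zero of high order gives a jet.
-/

open MvPolynomial WithZero Function
open Pool.Agent.P.MP_6f117a_ag (Place FF Model Reg)
open scoped Polynomial

namespace Pool.Agent.P.MP_12d50c_ag

namespace JET

variable {k E : Type} [Field k] [Field E] [Algebra k E] (P : Place k E) {π : E}

theorem le_exp {x : WithZero (Multiplicative ℤ)} (h : x < 1) : x ≤ exp (-1 : ℤ) := by
  rcases eq_or_ne x 0 with rfl | h0
  · exact zero_le
  · rw [← exp_log h0, ← exp_zero, exp_lt_exp] at h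
    rw [← exp_log h0, exp_le_exp]
    omega

theorem exp_lt_one {l : ℕ} (h : 0 < l) : exp (-(l : ℤ)) < 1 := by
  rw [← exp_zero, exp_lt_exp]
  omega

theorem expand (hπ : P.v π = exp (-1 : ℤ))
    (hr : ∀ x, P.v x ≤ 1 → ∃ c, P.v (x - algebraMap k E c) < 1) (l : ℕ) (u : E) (hu : P.v u ≤ 1) :
    ∃ g : k[X], g.natDegree ≤ l ∧ P.v (u - Polynomial.aeval π g) ≤ exp (-((l + 1 : ℕ) : ℤ)) := by
  have h0 : π ≠ 0 := fun h => by
    rw [h, map_zero] at hπ
    exact exp_ne_zero hπ.symm
  induction l generalizing u with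
  | zero =>
    obtain ⟨c, hc⟩ := hr u hu
    exact ⟨Polynomial.C c, by simp, by simpa using le_exp hc⟩
  | succ l ih =>
    obtain ⟨c, hc⟩ := hr u hu
    obtain ⟨g, h1, h2⟩ := ih ((u - algebraMap k E c) / π) (by
      rw [map_div₀, hπ, div_le_one₀ (zero_lt_iff.2 exp_ne_zero)]
      exact le_exp hc)
    refine ⟨Polynomial.C c + Polynomial.X * g, ?_, ?_⟩
    · refine Polynomial.natDegree_add_le_of_degree_le (by simp) (Polynomial.natDegree_mul_le.trans ?_)
      rw [Polynomial.natDegree_X]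
      omega
    · have e : u - Polynomial.aeval π (Polynomial.C c + Polynomial.X * g) =
          π * ((u - algebraMap k E c) / π - Polynomial.aeval π g) := by
        simp only [map_add, map_mul, Polynomial.aeval_C, Polynomial.aeval_X]
        field_simp
        ring
      rw [e, map_mul, hπ]
      refine (mul_le_mul_right h2 _).trans_eq ?_
      rw [← exp_add]
      congr 1
      push_cast
      ring

theorem coeff_zero (hπ : P.v π = exp (-1 : ℤ)) {g : k[X]} (h : P.v (Polynomial.aeval π g) < 1) :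
    g.coeff 0 = 0 := by
  by_contra h0
  have h1 : P.v π < 1 := hπ ▸ exp_lt_one (l := 1) one_pos
  have e : algebraMap k E (g.coeff 0) =
      Polynomial.aeval π g - π * Polynomial.aeval π g.divX := by
    have := congrArg (Polynomial.aeval π) (Polynomial.X_mul_divX_add g)
    simp only [map_add, map_mul, Polynomial.aeval_C, Polynomial.aeval_X] at this
    rw [← this]
    ring
  have h2 : P.v (π * Polynomial.aeval π g.divX) < 1 := by
    rw [map_mul]
    exact (mul_le_of_le_one_right' (P.v_aeval h1.le _)).trans_lt h1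
  have h3 := P.v.map_sub_lt h h2
  rw [← e, P.v_const h0] at h3
  exact lt_irrefl _ h3

theorem dvd (hπ : P.v π = exp (-1 : ℤ)) (l : ℕ) (g : k[X])
    (h : P.v (Polynomial.aeval π g) ≤ exp (-(l : ℤ))) : Polynomial.X ^ l ∣ g := by
  induction l generalizing g with
  | zero => simp
  | succ l ih =>
    have h0 := coeff_zero P hπ (h.trans_lt (exp_lt_one l.succ_pos))
    have e := Polynomial.X_mul_divX_add g
    rw [h0, map_zero, add_zero] at e
    rw [← e, map_mul, map_mul, Polynomial.aeval_X, hπ,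
      show -((l + 1 : ℕ) : ℤ) = -1 + -(l : ℤ) by push_cast; ring, exp_add,
      mul_le_mul_iff_right₀ (zero_lt_iff.2 exp_ne_zero)] at h
    rw [← e, pow_succ']
    exact mul_dvd_mul_left _ (ih _ h)

theorem close {σ : Type} {u u' : σ → E} {r : WithZero (Multiplicative ℤ)} (h : ∀ c, P.v (u c) ≤ 1)
    (h' : ∀ c, P.v (u' c) ≤ 1) (hr : ∀ c, P.v (u c - u' c) ≤ r) (f : MvPolynomial σ k) :
    P.v (aeval u f) ≤ 1 ∧ P.v (aeval u f - aeval u' f) ≤ r := by
  induction f using MvPolynomial.induction_on with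
  | C c => exact ⟨by simpa using P.triv c, by simp⟩
  | add f g hf hg =>
    rw [map_add (aeval u), map_add (aeval u'), add_sub_add_comm]
    exact ⟨P.v.map_add_le hf.1 hg.1, P.v.map_add_le hf.2 hg.2⟩
  | mul_X f c hf =>
    have e : aeval u f * u c - aeval u' f * u' c =
        aeval u f * (u c - u' c) + (aeval u f - aeval u' f) * u' c := by ring
    rw [map_mul (aeval u), map_mul (aeval u'), aeval_X, aeval_X, e]
    refine ⟨?_, P.v.map_add_le ?_ ?_⟩ <;> rw [map_mul]
    · exact mul_le_one' hf.1 (h c)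
    · exact (mul_le_of_le_one_left' hf.1).trans (hr c)
    · exact (mul_le_of_le_one_right' (h' c)).trans hf.2

end JET

theorem t_JET : S_REG → S_DICT → S_PLACE → S_CURVE → S_VAL → S_JET := by
  intro hREG hDICT hPL hC hV k _ _ N Q b e l y hQ hb hl ho
  obtain ⟨-, c2, c3, -⟩ := hC k N Q hQ
  have hOn : On Q y.1 := by
    by_contra h
    rw [(c2 b e y hb).2 fun h' => h h'.1] at ho
    have : l = 0 := by simpa using ho
    omega
  obtain ⟨E, _, _, _, ξ, pl, hD⟩ := hDICT k N Q hQ
  have hr := (hPL k E).2.2.2.2.2.2.1 (pl ⟨y, hOn⟩)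
  have hne : ξ y.piv ≠ 0 := hD.ne ⟨y, hOn⟩
  have hval := hD.val ⟨y, hOn⟩
  have hu : ∀ c, (pl ⟨y, hOn⟩).v ((ξ y.piv)⁻¹ * ξ c - algebraMap k E (y.1 c)) < 1 := fun c => by
    have := (hV k N Q E ξ pl ⟨y, hOn⟩ (X c) (X y.piv) 1 hQ hD (isHomogeneous_X k _)
      (isHomogeneous_X k _)).1 (by simp [y.piv_eq])
    simpa [y.piv_eq, div_eq_inv_mul] using this
  set P := pl ⟨y, hOn⟩
  have hu1 : ∀ c, P.v ((ξ y.piv)⁻¹ * ξ c) ≤ 1 := fun c => by
    simpa using P.v.map_add_le (hu c).le (P.triv (y.1 c))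
  obtain ⟨-, c, hc⟩ := (hREG k N Q y hQ.hom hOn).2 1 hQ
  rw [Set.range_unique] at hc
  set j := c default
  have h1 : (X j - C (y.1 j) * X y.piv : PP k N).IsHomogeneous 1 :=
    (isHomogeneous_X k _).sub (isHomogeneous_C_mul_X _ _)
  have h2 : ordI Q y (X j - C (y.1 j) * X y.piv) = 1 := by
    rw [ordI, len_sup, Ideal.map_span, Set.image_singleton, ← hc, mQ, ← len_sup,
      sup_eq_right.2 (hQ.hom.on_iff.1 hOn), len_self]
  have h3 := (hval _ 1 h1 fun h => by simpa [h2] using c3 _ y h hOn).2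
  have hπ : P.v ((ξ y.piv)⁻¹ * ξ j - algebraMap k E (y.1 j)) = exp (-1 : ℤ) := by
    rw [h2] at h3
    refine Eq.trans ?_ h3
    congr 1
    simp only [map_sub, map_mul, aeval_X, aeval_C]
    field_simp
  set π := (ξ y.piv)⁻¹ * ξ j - algebraMap k E (y.1 j) with hπ'
  have hπ1 : P.v π ≤ 1 := (hu j).le
  have hj : j ≠ y.piv := fun h => by
    rw [hπ', h, y.piv_eq, inv_mul_cancel₀ hne, map_one, sub_self, map_zero] at hπ
    exact exp_ne_zero hπ.symm
  have ex : ∀ c, ∃ g : k[X], g.natDegree < l ∧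
      P.v ((ξ y.piv)⁻¹ * ξ c - Polynomial.aeval π g) ≤ exp (-(l : ℤ)) ∧ (c = y.piv → g = 1) ∧
      (c = j → g = Polynomial.C (y.1 j) + Polynomial.X) := fun c => by
    by_cases a : c = y.piv
    · exact ⟨1, by rw [Polynomial.natDegree_one]; omega, by simp [a, hne], fun _ => rfl,
        fun h => (hj (h.symm.trans a)).elim⟩
    by_cases a' : c = j
    · refine ⟨_, ?_, ?_, fun h => (a h).elim, fun _ => rfl⟩
      · rw [add_comm, Polynomial.natDegree_X_add_C]
        omega
      · simp [a', hπ']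
    · obtain ⟨g, g1, g2⟩ := JET.expand P hπ hr (l - 1) _ (hu1 c)
      rw [show l - 1 + 1 = l by omega] at g2
      exact ⟨g, by omega, g2, fun h => (a h).elim, fun h => (a' h).elim⟩
  choose γ g1 g2 g3 g4 using ex
  have key : ∀ (f : PP k N) (d : ℕ), f.IsHomogeneous d →
      P.v (aeval ξ f / ξ y.piv ^ d) ≤ exp (-(l : ℤ)) →
      f ∈ (Ideal.span {Polynomial.X ^ l}).comap (aeval γ : PP k N →ₐ[k] k[X]) :=
    fun f d hf h => by
      refine Ideal.mem_span_singleton.2 (JET.dvd P hπ l _ ?_)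
      rw [div_eq_inv_mul, ← inv_pow, ← aeval_smul hf] at h
      have := P.v.map_sub_le h (JET.close P hu1 (fun c => P.v_aeval hπ1 (γ c)) g2 f).2
      rw [map_aeval' (Polynomial.aeval π)]
      simpa using this
  have kQ : Q ≤ (Ideal.span {Polynomial.X ^ l}).comap (aeval γ : PP k N →ₐ[k] k[X]) :=
    WHom.le_of_hom hQ.hom fun f d hf h => key f d hf (by
      rw [(mem_van_of_hom hf).1 (hD.van_eq ▸ h)]
      simp)
  refine ⟨j, γ, ⟨g3 _ rfl, ⟨_, g4 _ rfl⟩, fun f hf => Ideal.mem_span_singleton.1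
    (sup_le kQ ((Ideal.span_singleton_le_iff_mem _).2 ?_) hf)⟩, funext fun c => ?_, g1⟩
  · by_cases h : b ∈ Q
    · exact kQ h
    · obtain ⟨a1, a2⟩ := hval b e hb h
      refine key b e hb (a2.trans_le (exp_le_exp.2 (neg_le_neg ?_)))
      exact_mod_cast ENat.toNat_le_toNat ho a1
  · have a := P.v.map_sub_lt (hu c) ((g2 c).trans_lt (JET.exp_lt_one (by omega)))
    have := JET.coeff_zero P hπ (g := γ c - Polynomial.C (y.1 c)) (by
      simpa using a)
    simpa [base, sub_eq_zero] using this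

end Pool.Agent.P.MP_12d50c_ag
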