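import Pool.Agent.P.MP_12d50c_ag.If3

/-!
Jets on a smooth curve are determined by their base points.
-/

open MvPolynomial
open scoped Polynomial

namespace Pool.Agent.P.MP_12d50c_ag

namespace JU

variable {k : Type} [Field k] {N : ℕ}

theorem taylor {T : Type} [CommRing T] [Algebra k T] (a δ : Fin (N + 1) → T) (e : T) (f : PP k N) :
    ∃ u, aeval (fun c => a c + e * δ c) f = aeval a f + e * grad a f δ + e ^ 2 * u := by
  induction f using MvPolynomial.induction_on with
  | C c => exact ⟨0, by simp [grad_C]⟩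
  | add f g hf hg =>
    obtain ⟨u, hu⟩ := hf
    obtain ⟨v, hv⟩ := hg
    exact ⟨u + v, by rw [map_add, map_add, hu, hv, grad_add]; ring⟩
  | mul_X f n hf =>
    obtain ⟨u, hu⟩ := hf
    exact ⟨grad a f δ * δ n + u * (a n + e * δ n), by
      rw [map_mul, map_mul, hu, grad_mul, grad_X, aeval_X, aeval_X]; ring⟩

variable {Ω : Type} [Field Ω] [Algebra k Ω]

theorem coeff_zero (γ : Fin (N + 1) → Polynomial Ω) (f : PP k N) :
    (aeval γ f).coeff 0 = aeval (base γ) f := by
  have := map_aeval' ((Polynomial.aeval (0 : Ω) : Polynomial Ω →ₐ[Ω] Ω).restrictScalars k) γ f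
  simp only [AlgHom.restrictScalars_apply, ← Polynomial.coeff_zero_eq_aeval_zero] at this
  exact this

theorem step {γ γ' : Fin (N + 1) → Polynomial Ω} {r : ℕ} (hr : 0 < r)
    (h : ∀ c s, (γ' c).coeff s = if s < r then (γ c).coeff s else 0) (f : PP k N) :
    (aeval γ f).coeff r = (aeval γ' f).coeff r + grad (base γ) f fun c => (γ c).coeff r := by
  have h1 : ∀ c, Polynomial.X ^ r ∣ γ c - γ' c := fun c =>
    Polynomial.X_pow_dvd_iff.2 fun s hs => by rw [Polynomial.coeff_sub, h, if_pos hs, sub_self]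
  choose δ hδ using h1
  have h2 : γ = fun c => γ' c + Polynomial.X ^ r * δ c := funext fun c => by rw [← hδ]; ring
  have h3 : base γ' = base γ := funext fun c => by rw [base, h, if_pos hr, base]
  have h4 : ∀ p : Polynomial Ω, (Polynomial.X ^ r * p).coeff r = p.coeff 0 := fun p => by
    simpa using Polynomial.coeff_X_pow_mul p r 0
  have h5 : ∀ c, (δ c).coeff 0 = (γ c).coeff r := fun c => by
    rw [← h4, ← hδ, Polynomial.coeff_sub, h, if_neg (lt_irrefl r), sub_zero]
  obtain ⟨u, hu⟩ := taylor γ' δ (Polynomial.X ^ r) f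
  rw [← h2] at hu
  rw [hu, Polynomial.coeff_add, Polynomial.coeff_add, h4, ← pow_mul,
    Polynomial.X_pow_dvd_iff.1 (dvd_mul_right _ u) r (by omega), add_zero, ← h3]
  simp only [grad, Polynomial.finsetSum_coeff, Polynomial.mul_coeff_zero, coeff_zero, h5]

theorem uniq {T : Submodule Ω (Fin (N + 1) → Ω)} (hT : Module.finrank Ω T ≤ 2)
    {y v η : Fin (N + 1) → Ω} {i j : Fin (N + 1)} (hy : y ∈ T) (hv : v ∈ T) (hη : η ∈ T)
    (y1 : y i = 1) (v1 : v i = 0) (v2 : v j = 1) (e1 : η i = 0) (e2 : η j = 0) : η = 0 := by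
  by_contra c
  have : LinearIndependent Ω (![⟨y, hy⟩, ⟨v, hv⟩, ⟨η, hη⟩] : Fin 3 → T) := by
    rw [Fintype.linearIndependent_iff]
    intro g hg
    have h0 : g 0 • y + g 1 • v + g 2 • η = 0 := by
      simpa [Fin.sum_univ_three] using congrArg Subtype.val hg
    have h1 : g 0 = 0 := by simpa [y1, v1, e1] using congrFun h0 i
    have h2 : g 1 = 0 := by simpa [h1, v2, e2] using congrFun h0 j
    have h3 : g 2 = 0 := by simpa [h1, h2, c] using h0
    intro a
    fin_cases a
    exacts [h1, h2, h3]
  have := this.fintype_card_le_finrank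
  rw [Fintype.card_fin] at this
  omega

end JU

theorem t_JU : S_LIN → S_JU := by
  intro hLIN k _ N A Ω _ _ K l i j γ hA hJ hl hT hK
  classical
  have hz : ∀ f ∈ A, ∀ r < l, (aeval γ f).coeff r = 0 := fun f hf =>
    Polynomial.X_pow_dvd_iff.1 (hJ.dvd f hf)
  have hy : On A (base γ) := fun f hf => by rw [← JU.coeff_zero, hz f hf 0 (by omega)]
  obtain ⟨c₀, hc₀⟩ := hJ.lin
  have hv : (fun c => (γ c).coeff 1) ∈ Tan A (base γ) := fun f hf => by
    have h1 := JU.step (γ := γ) (γ' := fun c => Polynomial.C (base γ c)) one_pos (fun c s => by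
      rw [Polynomial.coeff_C]
      rcases s with _ | s
      · rfl
      · simp) f
    have h2 : aeval (fun c => Polynomial.C (base γ c)) f = Polynomial.C (aeval (base γ) f) :=
      (map_aeval' Polynomial.CAlgHom (base γ) f).symm
    rw [hz f hf 1 (by omega), h2, Polynomial.coeff_C_of_ne_zero one_ne_zero, zero_add] at h1
    exact h1.symm
  intro c r
  induction r using Nat.strong_induction_on generalizing c with
  | _ r ih =>
  intro hr
  rcases Nat.eq_zero_or_pos r with rfl | r0
  · exact hK c
  obtain ⟨p, hp⟩ : ∃ p : Fin (N + 1) → K[X], ∀ c s,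
      ((p c).map (algebraMap K Ω)).coeff s = if s < r then (γ c).coeff s else 0 := by
    refine ⟨fun c => ∑ s ∈ Finset.range r, Polynomial.monomial s
      (if h : (γ c).coeff s ∈ K then ⟨_, h⟩ else 0), fun c s => ?_⟩
    simp only [Polynomial.coeff_map, Polynomial.finsetSum_coeff, Polynomial.coeff_monomial,
      Finset.sum_ite_eq', Finset.mem_range]
    split_ifs with h1 h2
    · rfl
    · exact absurd (ih s h1 c (by omega)) h2
    · rfl
  have h1 : ∀ f : PP k N, algebraMap K Ω (aeval (fun c => (⟨base γ c, hK c⟩ : K)) f) =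
      aeval (base γ) f := fun f => map_aeval' K.val _ f
  have h2 : ∀ f : PP k N, aeval (fun c => (p c).map (algebraMap K Ω)) f =
      (aeval p f).map (algebraMap K Ω) := fun f =>
    (map_aeval' (Polynomial.mapAlgHom K.val) p f).symm
  have h3 : ∀ (a : Fin (N + 1)) (x : Fin (N + 1) → Ω),
      ∑ c, algebraMap K Ω ((Pi.single a 1 : Fin (N + 1) → K) c) * x c = x a := fun a x => by
    simp [Pi.single_apply, apply_ite]
  obtain ⟨x, hx⟩ := hLIN.2.2 K Ω (Fin (N + 1)) (A ⊕ Bool)
    (Sum.elim (fun f c => aeval (fun c => (⟨base γ c, hK c⟩ : K)) (pderiv c f.1))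
      fun b => Pi.single (cond b i j) 1)
    (Sum.elim (fun f => -(aeval p f.1).coeff r) fun b => cond b 0 (if 1 = r then 1 else 0))
    (fun c => (γ c).coeff r) (by
      rintro (f | _ | _)
      · have := JU.step r0 hp f.1
        rw [hz f f.2 r hr, h2, Polynomial.coeff_map] at this
        simp only [Sum.elim_inl, h1, map_neg]
        exact (neg_eq_of_add_eq_zero_right this.symm).symm
      · simp only [Sum.elim_inr, h3, cond_false, hc₀, Polynomial.coeff_add,
          Polynomial.coeff_C_of_ne_zero r0.ne', Polynomial.coeff_X, zero_add]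
        split_ifs <;> simp
      · simp only [Sum.elim_inr, h3, cond_true, hJ.one, Polynomial.coeff_one, if_neg r0.ne',
          map_zero]) (fun η hη => by
      refine JU.uniq hT (i := i) (j := j) (self_mem_Tan hA hy) hv (fun f hf => ?_)
        (by simp [base, hJ.one]) (by simp [hJ.one, Polynomial.coeff_one]) (by simp [hc₀]) ?_ ?_
      · simpa only [Sum.elim_inl, h1, grad] using hη (.inl ⟨f, hf⟩)
      · exact (h3 i η).symm.trans (hη (.inr true))
      · exact (h3 j η).symm.trans (hη (.inr false))) c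
  exact hx ▸ x.2

end Pool.Agent.P.MP_12d50c_ag
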