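import Pool.Agent.P.MP_12d50c_ag.If2

/-!
The Galois closure of a simply branched cover.
-/

open WithZero Function
open Pool.Agent.P.MP_6f117a_ag (Place FF Model Reg adjoin_sub trans_sub trans_ne)
open scoped IntermediateField Polynomial

namespace Pool.Agent.P.MP_12d50c_ag

namespace KA

theorem exists_gal (K E : Type) [Field K] [Field E] [Algebra K E] [FiniteDimensional K E] (x : E)
    (n : ℕ) (hx : K⟮x⟯ = ⊤) (hn : (minpoly K x).natDegree = n) (hs : (minpoly K x).Separable) :
    ∃ (M : Type) (_ : Field M) (_ : Algebra K M) (_ : Algebra E M) (_ : IsScalarTower K E M)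
      (_ : FiniteDimensional K M) (_ : IsGalois K M) (xs : Fin n → M), Injective xs ∧
      (minpoly K x).map (algebraMap K M) = ∏ i, (Polynomial.X - Polynomial.C (xs i)) := by
  classical
  have hi : IsIntegral K x := .of_finite K x
  have hsp := Polynomial.SplittingField.splits (minpoly K x)
  have hG : IsGalois K (minpoly K x).SplittingField := .of_separable_splitting_field hs
  have hm : ((minpoly K x).map (algebraMap K (minpoly K x).SplittingField)).Monic :=
    (minpoly.monic hi).map _
  have hnd := Polynomial.nodup_roots (hs.map (f := algebraMap K (minpoly K x).SplittingField))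
  have hc : ((minpoly K x).map (algebraMap K (minpoly K x).SplittingField)).roots.toFinset.card
      = n := by
    rw [Multiset.toFinset_card_of_nodup hnd, ← hsp.natDegree_eq_card_roots,
      Polynomial.natDegree_map, hn]
  obtain ⟨y, hy⟩ := Finset.card_pos.1 (hc ▸ hn ▸ minpoly.natDegree_pos hi)
  let ψ : E →ₐ[K] (minpoly K x).SplittingField :=
    ((IntermediateField.algHomAdjoinIntegralEquiv K hi).symm ⟨y, Multiset.mem_toFinset.1 hy⟩).comp
      ((IntermediateField.equivOfEq hx).trans IntermediateField.topEquiv).symm.toAlgHom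
  let _ := ψ.toRingHom.toAlgebra
  let e := (Finset.equivFinOfCardEq hc).symm
  refine ⟨(minpoly K x).SplittingField, inferInstance, inferInstance, inferInstance,
    .of_algebraMap_eq fun c => (ψ.commutes c).symm, inferInstance, hG, fun i => (e i).1,
    Subtype.val_injective.comp e.injective, ?_⟩
  rw [Equiv.prod_comp e fun r => Polynomial.X - Polynomial.C r.1,
    Finset.prod_coe_sort _ fun r => Polynomial.X - Polynomial.C r, Finset.prod_eq_multiset_prod,
    Multiset.toFinset_val, hnd.dedup]
  exact hsp.eq_prod_roots_of_monic hm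

theorem exists_tower (k K E M : Type) [Field k] [Field K] [Field E] [Field M] [Algebra k K]
    [Algebra k E] [Algebra K E] [Algebra K M] [Algebra E M] [IsScalarTower k K E]
    [IsScalarTower K E M] :
    ∃ _ : Algebra k M, IsScalarTower k K M ∧ IsScalarTower k E M := by
  let _ : Algebra k M := ((algebraMap K M).comp (algebraMap k K)).toAlgebra
  refine ⟨inferInstance, .of_algebraMap_eq fun _ => rfl, .of_algebraMap_eq fun c => ?_⟩
  rw [IsScalarTower.algebraMap_apply k K E, ← IsScalarTower.algebraMap_apply K E M]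
  rfl

variable {k E : Type} [Field k] [Field E] [Algebra k E]

theorem gen_top (t : E) : k⟮IntermediateField.AdjoinSimple.gen k t⟯ = ⊤ := by
  apply IntermediateField.lift_injective
  rw [IntermediateField.lift_adjoin_simple, IntermediateField.lift_top]
  rfl

theorem card_le {n : ℕ} {u : E} (hu : u ≠ 0) {Z : Finset (Place k E)}
    (hs : ∑ P ∈ Z, -log (P.v u) = n) (ram : ∀ P : Place k E, exp (-2) ≤ P.v u)
    (one : ∀ P P' : Place k E, P.v u < exp (-1) → P'.v u < exp (-1) → P = P') :
    n ≤ Z.card + 1 := by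
  classical
  have h0 : ∀ P : Place k E, P.v u ≠ 0 := fun P => (Valuation.ne_zero_iff _).2 hu
  have h1 : ∀ P ∈ Z, -log (P.v u) ≤ 1 + if P.v u < exp (-1) then 1 else 0 := fun P _ => by
    have h2 := ram P
    rw [← exp_log (h0 P), exp_le_exp] at h2
    split_ifs with h
    · omega
    · rw [← exp_log (h0 P), exp_lt_exp] at h
      omega
  have h2 := Finset.sum_le_sum h1
  rw [hs, Finset.sum_add_distrib, Finset.sum_boole, Finset.sum_const, nsmul_eq_mul, mul_one] at h2
  have h3 : (Z.filter fun P => P.v u < exp (-1)).card ≤ 1 :=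
    Finset.card_le_one.2 fun P hP P' hP' =>
      one P P' (Finset.mem_filter.1 hP).2 (Finset.mem_filter.1 hP').2
  omega

theorem sp_injective {t : E} (ht : Transcendental k t) : Injective fun f : k[X][X] => sp f t :=
  Polynomial.map_injective _ (transcendental_iff_injective.1 ht)

end KA

theorem t_KA : S_PLACE → S_KA1 → S_KA3 → S_MONO → S_KA := by
  intro hP h1 h3 hM k E _ _ _ _ _ n t x hSB
  classical
  obtain ⟨ht, hn, hs, f, hf, hfn, hw, hsp⟩ := h1 k E n t x hSB.pos hSB.poles hSB.reg
  have := FF.fin t ht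
  have hi : IsIntegral k⟮t⟯ x := .of_finite _ x
  have hd : (minpoly k⟮t⟯ x).natDegree = n := by rw [← hsp, sp, hf.natDegree_map, hfn]
  have hx : k⟮t⟯⟮x⟯ = ⊤ :=
    (Field.primitive_element_iff_minpoly_natDegree_eq _ x).2 (hd.trans hn.symm)
  obtain ⟨M, _, _, _, _, _, _, xs, hinj, hprod⟩ := KA.exists_gal k⟮t⟯ E x n hx hd hs
  obtain ⟨_, _, _⟩ := KA.exists_tower k k⟮t⟯ E M
  have ht0 : Transcendental k (IntermediateField.AdjoinSimple.gen k t) :=
    (transcendental_algebraMap_iff (algebraMap k⟮t⟯ E).injective).1 ht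
  have hev : ∀ g : k[X][X], (sp g t).eval x =
      Polynomial.aeval x (sp g (IntermediateField.AdjoinSimple.gen k t)) := fun g => by
    rw [Polynomial.aeval_def, Polynomial.eval₂_eq_eval_map]
    exact congrArg (Polynomial.eval x)
      (map_sp (IsScalarTower.toAlgHom k k⟮t⟯ E) g (IntermediateField.AdjoinSimple.gen k t)).symm
  have hmono := hM k k⟮t⟯ E M (IntermediateField.AdjoinSimple.gen k t) n x xs ht0 (KA.gen_top t) hx
    hinj hprod (by
      rintro t' (rfl | ⟨t₀, rfl⟩)
      · obtain ⟨P, c, hc, -, hPc⟩ := hSB.poles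
        have hPi : Injective P := fun i j hij => by
          by_contra hne
          have h5 := (P j).v.map_sub_lt (hij ▸ (hPc i).2) (hPc j).2
          rw [sub_sub_sub_cancel_left, ← map_sub,
            (P j).v_const (sub_ne_zero.2 fun h => hne (hc h).symm)] at h5
          exact lt_irrefl _ h5
        refine ⟨Finset.univ.image P, by simp [Finset.card_image_of_injective _ hPi], ?_⟩
        intro P' hP'
        obtain ⟨i, -, rfl⟩ := Finset.mem_image.1 hP'
        rw [map_inv₀, map_inv₀, IntermediateField.AdjoinSimple.algebraMap_gen, (hPc i).1,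
          ← exp_neg, ← exp_zero, exp_lt_exp]
        norm_num
      · obtain ⟨Z, hZ, hsum⟩ := ((hP k E).1 _ (trans_sub ht t₀)).fund
        rw [adjoin_sub, hn] at hsum
        refine ⟨Z, KA.card_le (trans_ne (trans_sub ht t₀)) hsum (hSB.ram t₀) (hSB.one t₀), ?_⟩
        intro P' hP'
        rw [map_sub, IntermediateField.AdjoinSimple.algebraMap_gen,
          ← IsScalarTower.algebraMap_apply]
        exact (hZ P').1 hP')
  refine ⟨f, M, inferInstance, inferInstance,
    algebraMap k⟮t⟯ M (IntermediateField.AdjoinSimple.gen k t), xs,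
    ⟨hf, hfn, hw, (transcendental_algebraMap_iff (algebraMap k⟮t⟯ M).injective).2 ht0, ?_, hinj,
      fun σ G hG => ?_⟩, by rw [hev, hsp, minpoly.aeval], fun g hg hgn hgx => ?_,
    fun t₀ x₀ => h3 k E n t x f t₀ x₀ ht hn hf hfn hsp⟩
  · rw [YY, ← hprod, ← hsp]
    exact (map_sp (IsScalarTower.toAlgHom k k⟮t⟯ M) f (IntermediateField.AdjoinSimple.gen k t)).symm
  · obtain ⟨g, hg⟩ := hmono σ
    have h5 := map_evq (g.toAlgHom.restrictScalars k)
      (algebraMap k⟮t⟯ M (IntermediateField.AdjoinSimple.gen k t)) xs G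
    have h6 : (g.toAlgHom.restrictScalars k) ∘ xs = xs ∘ σ := funext hg
    have h7 : (g.toAlgHom.restrictScalars k)
        (algebraMap k⟮t⟯ M (IntermediateField.AdjoinSimple.gen k t)) =
        algebraMap k⟮t⟯ M (IntermediateField.AdjoinSimple.gen k t) := g.commutes _
    rw [hG, map_zero, h6, h7] at h5
    exact h5.symm
  · refine KA.sp_injective ht0 ?_
    have hm : (sp g (IntermediateField.AdjoinSimple.gen k t)).Monic := hg.map _
    change sp g _ = sp f _
    rw [hsp]
    refine Polynomial.eq_of_monic_of_dvd_of_natDegree_le (minpoly.monic hi) hm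
      (minpoly.dvd _ _ (by rw [← hev, hgx])) ?_
    rw [hd, sp, hg.natDegree_map, hgn]

end Pool.Agent.P.MP_12d50c_ag
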