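import Pool.Agent.P.MP_12d50c_ag.If2
import Pool.Agent.P.MP_6f117a_ag.Trace

/-! The plane model of a function with simple poles. -/

open WithZero Function Polynomial
open Pool.Agent.P.MP_6f117a_ag (Place FF Model Reg adjoin_inv)
open scoped IntermediateField

namespace Pool.Agent.P.MP_12d50c_ag

namespace KA1

variable {k E : Type} [Field k] [Field E] [Algebra k E]

theorem mp {t u : E} (ht : Transcendental k t) {K : IntermediateField k E} (hK : K = k⟮t⟯)
    (hu : IsIntegral (Algebra.adjoin k {t}) u) :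
    ∃ g : k[X][X], g.Monic ∧ (minpoly K u).map (algebraMap K E) = sp g t := by
  subst hK
  let φ : k[X] →ₐ[k] k⟮t⟯ := aeval (IntermediateField.AdjoinSimple.gen k t)
  let _ : Algebra k[X] k⟮t⟯ := φ.toAlgebra
  let _ : Algebra k[X] E := (aeval t : k[X] →ₐ[k] E).toAlgebra
  have : IsScalarTower k[X] k⟮t⟯ E := .of_algebraMap_eq fun p =>
    aeval_algebraMap_apply E (IntermediateField.AdjoinSimple.gen k t) p
  have : IsFractionRing k[X] k⟮t⟯ := IsLocalization.isLocalization_of_algEquiv (nonZeroDivisors k[X])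
    { (RatFunc.algEquivOfTranscendental t ht).toRingEquiv with
      commutes' := RatFunc.algEquivOfTranscendental_algebraMap t ht : RatFunc k ≃ₐ[k[X]] k⟮t⟯ }
  let ψ : k[X] →ₐ[k] Algebra.adjoin k {t} :=
    (aeval t : k[X] →ₐ[k] E).codRestrict _ fun p => aeval_mem_adjoin_singleton k t
  let _ : Algebra k[X] (Algebra.adjoin k {t}) := ψ.toAlgebra
  have : IsScalarTower k[X] (Algebra.adjoin k {t}) E := .of_algebraMap_eq fun _ => rfl
  have : Algebra.IsIntegral k[X] (Algebra.adjoin k {t}) :=
    Algebra.isIntegral_of_surjective fun ⟨y, hy⟩ => by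
      rw [Algebra.adjoin_singleton_eq_range_aeval] at hy
      obtain ⟨p, hp⟩ := hy
      exact ⟨p, Subtype.ext hp⟩
  have h := isIntegral_trans (R := k[X]) u hu
  refine ⟨minpoly k[X] u, minpoly.monic h, ?_⟩
  rw [minpoly.isIntegrallyClosed_eq_field_fractions' k⟮t⟯ h, Polynomial.map_map,
    ← IsScalarTower.algebraMap_eq]
  rfl

theorem spec (P : Place k E) {z y : E} {a b : k} (hz : P.v (z - algebraMap k E a) < 1)
    (hy : P.v (y - algebraMap k E b) < 1) (g : k[X][X]) :
    P.v ((sp g z).eval y - algebraMap k E ((sp g a).eval b)) < 1 := by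
  induction g using Polynomial.induction_on' with
  | add p q hp hq =>
    simp only [sp, Polynomial.map_add, eval_add, map_add] at hp hq ⊢
    rw [add_sub_add_comm]
    exact P.v.map_add_lt hp hq
  | monomial n c =>
    have h1 := P.v_aeval_sub hz c
    have h2 := P.v_aeval_sub hy (X ^ n)
    have h3 : P.v z ≤ 1 := by simpa using P.v.map_add_le hz.le (P.triv a)
    simp only [map_pow, aeval_X, eval_pow, eval_X] at h2
    have e : (sp (monomial n c) z).eval y - algebraMap k E ((sp (monomial n c) a).eval b) =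
        (y ^ n - algebraMap k E b ^ n) * aeval z c +
          (aeval z c - algebraMap k E (c.eval a)) * algebraMap k E (b ^ n) := by
      simp [sp]
      ring
    rw [e]
    refine P.v.map_add_lt ?_ ?_ <;> rw [map_mul]
    · exact mul_lt_one_of_nonneg_of_lt_one_left zero_le h2 (P.v_aeval h3 c)
    · exact mul_lt_one_of_nonneg_of_lt_one_left zero_le h1 (P.triv _)

end KA1

theorem t_KA1 : S_PLACE → S_KA1 := by
  classical
  intro hP k E _ _ _ _ _ n t x hn ⟨P, c, hc, h1, h2⟩ hx
  obtain ⟨-, -, -, -, h5, h6, -⟩ := hP k E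
  have hv : ∀ i, 1 < (P i).v t := fun i => (h1 _).2 ⟨i, rfl⟩
  have ht0 : t ≠ 0 := fun e => by simpa [e] using hv ⟨0, hn⟩
  have ht : Transcendental k t := (P ⟨0, hn⟩).trans ht0 (hv _).ne'
  have hti : Transcendental k t⁻¹ := fun h => ht (IsAlgebraic.inv_iff.1 h)
  have := FF.fin (L := k) t ht
  have hvi : ∀ i, (P i).v t⁻¹ < 1 := fun i => by
    rw [map_inv₀]
    exact inv_lt_one_of_one_lt₀ (hv i)
  have hPi : Injective P := fun i j e => hc (by
    by_contra hne
    have h3 := (P j).v.map_sub_lt (h2 j).2 (e ▸ (h2 i).2)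
    rw [sub_sub_sub_cancel_left, ← map_sub, (P j).v_const (sub_ne_zero.2 hne)] at h3
    exact lt_irrefl _ h3)
  have hr : Module.finrank k⟮t⟯ E = n := by
    obtain ⟨Z, hZ, hs⟩ := h5 t ht
    have e : Z = Finset.univ.map ⟨P, hPi⟩ := Finset.ext fun Q => by
      rw [hZ, h1]
      simp
    rw [e, Finset.sum_map] at hs
    simpa [fun i => (h2 i).1] using hs.symm
  have hu : Reg k t⁻¹ (x / t) := fun Q hQ => by
    by_cases h : 1 < Q.v t
    · obtain ⟨i, rfl⟩ := (h1 Q).1 h
      simpa using (P i).v.map_add_le (h2 i).2.le ((P i).triv (c i))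
    · rw [div_eq_mul_inv, map_mul]
      exact mul_le_one' (hx Q (not_lt.1 h)) hQ
  obtain ⟨f, hf, ef⟩ := KA1.mp ht rfl ((h6 t x ht).1 hx)
  obtain ⟨g, hg, eg⟩ := KA1.mp hti (adjoin_inv t).symm ((h6 _ _ hti).1 hu)
  have hint : IsIntegral k⟮t⟯ (x / t) := .of_finite _ _
  have dg : (minpoly k⟮t⟯ (x / t)).natDegree = g.natDegree := by
    rw [← natDegree_map (algebraMap k⟮t⟯ E), eg, sp, hg.natDegree_map]
  have hroot : ∀ i, (sp g (0 : k)).IsRoot (c i) := fun i => by
    have h3 := KA1.spec (P i) (z := t⁻¹) (a := 0) (by simpa using hvi i) (h2 i).2 g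
    rw [← eg, eval_map_algebraMap, minpoly.aeval, zero_sub, Valuation.map_neg] at h3
    by_contra h4
    rw [(P i).v_const h4] at h3
    exact lt_irrefl _ h3
  have hm0 : (sp g (0 : k)).Monic := hg.map _
  have hdvd : ∏ i, (X - C (c i)) ∣ sp g (0 : k) :=
    Finset.prod_dvd_of_coprime (fun i _ j _ h => pairwise_coprime_X_sub_C hc h)
      fun i _ => dvd_iff_isRoot.2 (hroot i)
  have hd0 : (∏ i, (X - C (c i))).natDegree = n := by
    rw [natDegree_finsetProd_X_sub_C_eq_card]
    simp
  have hle : g.natDegree ≤ n := by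
    rw [← dg, ← hr]
    exact minpoly.natDegree_le _
  have hd1 : (sp g (0 : k)).natDegree = g.natDegree := hg.natDegree_map _
  have e0 : sp g (0 : k) = ∏ i, (X - C (c i)) :=
    eq_of_monic_of_dvd_of_natDegree_le (monic_prod_X_sub_C _ _) hm0 hdvd (by omega)
  have hgn : g.natDegree = n := by rw [← hd1, e0, hd0]
  have hsep : IsSeparable k⟮t⟯ (x / t) := by
    refine (separable_iff_derivative_ne_zero (minpoly.irreducible hint)).2 fun h => ?_
    have h3 : (derivative g).map (aeval t⁻¹ : k[X] →ₐ[k] E).toRingHom = 0 := by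
      rw [← derivative_map, ← sp, ← eg, derivative_map, h, Polynomial.map_zero]
    rw [Polynomial.map_eq_zero_iff (transcendental_iff_injective.1 hti)] at h3
    have h4 : (sp g (0 : k)).Separable := by
      rw [e0]
      exact separable_prod_X_sub_C_iff.2 hc
    rw [separable_def, sp, derivative_map, h3, Polynomial.map_zero, isCoprime_zero_right] at h4
    have h5 := natDegree_eq_zero_of_isUnit h4
    rw [← sp, hd1] at h5
    omega
  have hT : IntermediateField.AdjoinSimple.gen k t ≠ 0 := fun h => ht0 (congrArg Subtype.val h)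
  have ex : x = IntermediateField.AdjoinSimple.gen k t • (x / t) := by
    rw [Algebra.smul_def, IntermediateField.AdjoinSimple.algebraMap_gen, mul_div_cancel₀ _ ht0]
  have hs := IsIntegrallyClosed.minpoly_smul hT hint
  rw [← ex] at hs
  refine ⟨ht, hr, ?_, f, hf, ?_, fun i => ?_, ?_⟩
  · rw [ex, Algebra.smul_def]
    exact Field.isSeparable_mul (isSeparable_algebraMap _) hsep
  · rw [← hf.natDegree_map (aeval t : k[X] →ₐ[k] E).toRingHom, ← sp, ← ef, natDegree_map, hs,
      natDegree_scaleRoots, dg, hgn]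
  · by_cases h0 : f.coeff i = 0
    · simp [h0]
    have e1 := congrArg (·.coeff i) ef
    have e2 := congrArg (·.coeff i) eg
    simp only [sp, coeff_map, hs, coeff_scaleRoots, map_mul, map_pow, dg, hgn,
      IntermediateField.AdjoinSimple.algebraMap_gen] at e1 e2
    have h3 := (P ⟨0, hn⟩).v_aeval_pole (hv _) h0
    have h4 := (P ⟨0, hn⟩).v_aeval (hvi _).le (g.coeff i)
    rw [e2] at e1
    rw [show aeval t (f.coeff i) = aeval t⁻¹ (g.coeff i) * t ^ (n - i) from e1.symm, map_mul,
      map_pow] at h3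
    exact (pow_le_pow_iff_right₀ (hv ⟨0, hn⟩)).1 (h3.symm.trans_le (mul_le_of_le_one_left' h4))
  · refine map_injective (algebraMap k⟮t⟯ E) (algebraMap k⟮t⟯ E).injective ?_
    rw [ef]
    exact map_sp (IntermediateField.val k⟮t⟯) f _

end Pool.Agent.P.MP_12d50c_ag
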