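import Pool.Agent.P.MP_12d50c_ag.If2

/-!
Unramified fibres.
-/

open WithZero Function Polynomial
open Pool.Agent.P.MP_6f117a_ag (Place FF Model Reg trans_sub adjoin_sub trans_ne)
open scoped IntermediateField

namespace Pool.Agent.P.MP_12d50c_ag

namespace KA3

variable {k : Type} [Field k]

theorem ev_eq {M : Type} [CommRing M] [Algebra k M] (t x : M) (g : k[X][X]) :
    aevalAeval t x g = (sp g t).eval x := by
  rw [sp, eval_map]
  induction g using Polynomial.induction_on' with
  | add p q hp hq => rw [map_add, eval₂_add, hp, hq]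
  | monomial n a =>
    rw [eval₂_monomial, ← C_mul_X_pow_eq_monomial, map_mul, map_pow, aevalAeval_C, aevalAeval_Y]
    rfl

theorem ev_gen {E : Type} [Field E] [Algebra k E] (t x : E) (g : k[X][X]) :
    aevalAeval t x g = aeval x (sp g (IntermediateField.AdjoinSimple.gen k t)) := by
  rw [ev_eq, aeval_def, ← eval_map]
  exact congrArg _ (map_sp (k⟮t⟯).val g (IntermediateField.AdjoinSimple.gen k t)).symm

theorem dvd_of {E : Type} [Field E] [Algebra k E] {t x : E} {f g : k[X][X]}
    (ht : Transcendental k t) (hf : f.Monic)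
    (h : sp f (IntermediateField.AdjoinSimple.gen k t) = minpoly k⟮t⟯ x)
    (hg : aevalAeval t x g = 0) : f ∣ g := by
  have h1 : aevalAeval t x f = 0 := by rw [ev_gen, h, minpoly.aeval]
  have h2 : aevalAeval t x (g %ₘ f) = 0 := by
    rw [modByMonic_eq_sub_mul_div, map_sub, map_mul, hg, h1, zero_mul, sub_zero]
  have inj : Injective (aeval (IntermediateField.AdjoinSimple.gen k t) : k[X] →ₐ[k] _) :=
    transcendental_iff_injective.1 fun a => ht (a.algHom (k⟮t⟯).val)
  rw [← modByMonic_eq_zero_iff_dvd hf]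
  by_contra g0
  have h3 := minpoly.degree_le_of_ne_zero k⟮t⟯ x
    ((Polynomial.map_ne_zero_iff inj).2 g0) ((ev_gen t x _).symm.trans h2)
  rw [← h, sp, hf.degree_map] at h3
  exact (degree_modByMonic_lt g hf).not_ge (h3.trans degree_map_le)

end KA3

open KA3 in
theorem t_KA3 : S_PLACE → S_KA3 := by
  classical
  intro hP k E _ _ _ _ _ n t x f t₀ x₀ ht hn hf _ h hx hy
  obtain ⟨p1, -, -, -, -, -, -, p8⟩ := hP k E
  have key : ∀ i, ∃ P : Place k E, P.v (t - algebraMap k E t₀) < 1 ∧
      P.v (x - algebraMap k E (x₀ i)) < 1 := fun i => by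
    have H : RingHom.ker (aevalAeval t x : k[X][X] →ₐ[k] E).rangeRestrict.toRingHom ≤
        RingHom.ker (aevalAeval t₀ (x₀ i) : k[X][X] →ₐ[k] k).toRingHom := fun g hg => by
      obtain ⟨u, rfl⟩ := dvd_of ht hf h (congrArg Subtype.val hg)
      show aevalAeval t₀ (x₀ i) (f * u) = 0
      rw [map_mul, ev_eq, hy, eval_prod, Finset.prod_eq_zero (Finset.mem_univ i) (by simp),
        zero_mul]
    obtain ⟨P, hP⟩ := p8 _ (AlgHom.liftOfSurjective _ (AlgHom.rangeRestrict_surjective _) _ H) t
      ⟨C X, aevalAeval_X t x⟩ ht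
    have a := fun g => hP ((aevalAeval t x : k[X][X] →ₐ[k] E).rangeRestrict g)
    simp only [AlgHom.liftOfSurjective_apply] at a
    exact ⟨P, by simpa using a (C X), by simpa using a X⟩
  choose P h1 h2 using key
  have inj : Injective P := fun i j e => hx <| by_contra fun g => by
    have a := (P j).v.map_sub_lt (h2 j) (e ▸ h2 i)
    rw [sub_sub_sub_cancel_left, ← map_sub, (P j).v_const (sub_ne_zero.2 g)] at a
    exact a.false
  obtain ⟨Z, z1, z2⟩ := (p1 _ (trans_sub ht t₀)).fund
  rw [adjoin_sub, hn] at z2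
  have v0 : ∀ Q : Place k E, Q.v (t - algebraMap k E t₀) ≠ 0 := fun Q =>
    Q.v.ne_zero_iff.2 (trans_ne (trans_sub ht t₀))
  have z3 : ∀ Q ∈ Z, 1 ≤ -log (Q.v (t - algebraMap k E t₀)) := fun Q hQ => by
    have := (log_lt_iff_lt_exp (v0 Q) (a := 0)).2 ((z1 Q).1 hQ)
    omega
  have z4 : Finset.univ.image P ⊆ Z := fun Q hQ => by
    obtain ⟨i, -, rfl⟩ := Finset.mem_image.1 hQ
    exact (z1 _).2 (h1 i)
  have z5 : (Finset.univ.image P).card = n := by
    rw [Finset.card_image_of_injective _ inj, Finset.card_univ, Fintype.card_fin]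
  have z6 : Z.card ≤ n := by
    have := Finset.card_nsmul_le_sum _ _ _ z3
    rw [z2, nsmul_eq_mul, mul_one] at this
    exact_mod_cast this
  obtain rfl := Finset.eq_of_subset_of_card_le z4 (z6.trans z5.ge)
  refine ⟨P, fun Q => by simp [← z1], fun i => ⟨?_, h2 i⟩⟩
  have z7 := (Finset.sum_eq_sum_iff_of_le z3).1 (by simp [z2, z5]) (P i) (by simp)
  rw [← exp_log (v0 _), z7, neg_neg]

end Pool.Agent.P.MP_12d50c_ag
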