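import Pool.Agent.P.MP_12d50c_ag.If3

/-!
Smooth hypersurface sections of a smooth surface: dimension and tangent spaces.
-/

open MvPolynomial

namespace Pool.Agent.P.MP_12d50c_ag

theorem t_KC : S_NE → S_GOODW → S_KC := by
  intro hNE hG k _ _ N I a n hI ha hn hg
  have := hI.prime
  have hna : a ∉ I := fun h => by
    obtain ⟨y, h1, -⟩ := ((hNE k N I hI).1 a n ha hn).nonempty
    exact hg y h1 (sing_of_mem h1 h)
  refine ⟨hI.hom.sup (wHom_span fun f hf => ⟨n, hf ▸ ha⟩), ?_, fun Ω _ _ y hy hon => ?_⟩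
  · have h1 := ringKrullDim_succ_le_of_surjective
      (Ideal.Quotient.factor (le_sup_left : I ≤ I ⊔ Ideal.span {a}))
      (Ideal.Quotient.factor_surjective _) (r := Ideal.Quotient.mk I a)
      (mem_nonZeroDivisors_of_ne_zero fun h => hna (Ideal.Quotient.eq_zero_iff_mem.1 h))
      (Ideal.Quotient.eq_zero_iff_mem.2 (Ideal.mem_sup_right (Ideal.mem_span_singleton_self a)))
    rw [hI.dim, Nat.cast_succ] at h1
    exact ENat.WithBot.add_le_add_one_right_iff.1 h1
  · obtain ⟨h1, h2⟩ := (on_sup y).1 hon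
    have h3 := hG k N I a n hI.hom ha hg Ω y hy h1
    have h4 : Tan (I ⊔ Ideal.span {a}) y < Tan I y :=
      lt_of_le_of_ne (Tan_anti le_sup_left) fun h => h3
        ⟨h2 a (Ideal.mem_span_singleton_self a), fun δ hδ =>
          (h ▸ hδ : δ ∈ Tan (I ⊔ Ideal.span {a}) y) a
            (Ideal.mem_sup_right (Ideal.mem_span_singleton_self a))⟩
    have h5 := Submodule.finrank_lt_finrank_of_lt h4
    have h6 := hI.le Ω y hy h1
    omega

end Pool.Agent.P.MP_12d50c_ag
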