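import Pool.Agent.P.MP_12d50c_ag.If3

open MvPolynomial Function
open scoped Nat

namespace Pool.Agent.P.MP_12d50c_ag

namespace KEY

theorem count {F V : Type} [Field F] [Finite F] [AddCommGroup V] [Module F V] [Finite V]
    (S : V → Prop) (Bad : V × V → Prop) (A M D : ℝ) (hA : 0 ≤ A) (hM : 1 ≤ M)
    (good : ∀ x, ¬ Bad x → |M * {t : F | S (x.1 + t • x.2)}.ncard - Nat.card F| ≤ A)
    (bad : ({x | Bad x}.ncard : ℝ) * Nat.card F ≤ D * Nat.card V ^ 2) :
    |M * {c | S c}.ncard - Nat.card V| * Nat.card F ≤ (A + M * D) * Nat.card V := by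
  classical
  have := Fintype.ofFinite F
  have := Fintype.ofFinite V
  have e : ∀ {T : Type} [Fintype T] (P : T → Prop),
      ({x | P x}.ncard : ℝ) = ∑ x, if P x then 1 else 0 := fun P => by
    simp [Set.ncard_eq_toFinset_card']
  have hV : (0 : ℝ) < Nat.card V := by exact_mod_cast Nat.card_pos
  have hF : (0 : ℝ) ≤ Nat.card F := Nat.cast_nonneg _
  have h1 : ∑ x : V × V, ({t : F | S (x.1 + t • x.2)}.ncard : ℝ) =
      Nat.card V * (Nat.card F * {c | S c}.ncard) := by
    simp only [e]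
    rw [Fintype.sum_prod_type_right]
    simp only [Finset.sum_comm (s := (Finset.univ : Finset V)) (t := (Finset.univ : Finset F))]
    have : ∀ v : V, ∑ x : V, (if S (x + v) then (1 : ℝ) else 0) = ∑ x, if S x then 1 else 0 :=
      fun v => Equiv.sum_comp (Equiv.addRight v) fun x => if S x then (1 : ℝ) else 0
    simp only [this, Finset.sum_const, nsmul_eq_mul, Finset.card_univ, Nat.card_eq_fintype_card]
    ring
  have h2 : ∀ x : V × V, |M * {t : F | S (x.1 + t • x.2)}.ncard - Nat.card F| ≤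
      A + M * Nat.card F * if Bad x then 1 else 0 := fun x => by
    split_ifs with h
    · have h3 : ({t : F | S (x.1 + t • x.2)}.ncard : ℝ) ≤ Nat.card F := by
        exact_mod_cast Set.ncard_le_card _
      have h4 : (0 : ℝ) ≤ {t : F | S (x.1 + t • x.2)}.ncard := Nat.cast_nonneg _
      rw [abs_le]
      constructor <;> nlinarith
    · simpa using good x h
  have h3 := (Finset.abs_sum_le_sum_abs _ _).trans
    (Finset.sum_le_sum fun x (_ : x ∈ Finset.univ) => h2 x)
  rw [Finset.sum_sub_distrib, ← Finset.mul_sum, h1, Finset.sum_add_distrib, ← Finset.mul_sum,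
    ← e] at h3
  simp only [Finset.sum_const, nsmul_eq_mul, Finset.card_univ, ← Nat.card_eq_fintype_card,
    Nat.card_prod, Nat.cast_mul] at h3
  refine le_of_mul_le_mul_left ?_ hV
  rw [← abs_of_nonneg hF, ← abs_mul, ← abs_of_pos hV, ← abs_mul, abs_of_pos hV]
  have h4 := mul_le_mul_of_nonneg_left bad (zero_le_one.trans hM)
  refine le_trans (le_of_eq (congrArg _ (by ring))) (h3.trans (by nlinarith))

variable {k : Type} [Field k] {N : ℕ}

theorem on_iff {I Q : Ideal (PP k N)} {a : PP k N} (h : CurveOf I a Q) {y : Fin (N + 1) → k} :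
    On Q y ↔ On I y ∧ aeval y a = 0 := by
  refine ⟨fun H => ⟨fun f hf => H f (h.le hf), H a h.mem⟩, fun H f hf => ?_⟩
  obtain ⟨n, hn⟩ := h.rad hf
  have := on_sup (y := y).2 ⟨H.1, on_span (y := y).2 (by simpa using H.2)⟩ _ hn
  rw [map_pow] at this
  exact eq_zero_of_pow_eq_zero this

theorem split_iff {I Q : Ideal (PP k N)} {a b : PP k N} (h : CurveOf I a Q) {F : Subfield k}
    {m : ℕ} (hb : b.IsHomogeneous m) : Split I F a b ↔ SplC Q F b := by
  simp only [Split, SplC, h.cop b m hb, on_iff h, Zs, h.inter_eq, Set.mem_ofPred_eq, and_imp]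

theorem notMem {Q : Ideal (PP k N)} (h : IsSm 1 Q) {z z' : NP k N} (hz : z ≠ z') (h1 : On Q z.1)
    (h2 : On Q z'.1) {b : PP k N} (hb : ordI Q z b ≤ 1) : b ∉ Q := fun hm => by
  have := h.prime
  have h3 := h.hom.on_iff.1 h1
  rw [ordI, sup_eq_left.2 ((Ideal.span_singleton_le_iff_mem _).2 hm)] at hb
  have h4 := le_antisymm hb (Order.one_le_iff_ne_zero.2 fun h0 => len_eq_zero_iff.1 h0 h3)
  have h5 := IsLocalRing.eq_maximalIdeal (Ideal.isMaximal_def.2
    (isSimpleModule_iff_isCoatom.1 (Module.length_eq_one_iff.1 h4)))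
  rw [← Localization.AtPrime.map_eq_maximalIdeal] at h5
  refine hz (NP.eq_of_van_le (le_trans (fun f hf => (toL_eq_zero_iff h3).1 ?_)
    (h.hom.on_iff.1 h2)))
  exact Ideal.Quotient.eq_zero_iff_mem.2 (h5 ▸ Ideal.mem_map_of_mem _ hf)

theorem exists_ev {F : Subfield k} (m : ℕ) {z : NP k N} (hz : RatPt F z) :
    ∃ e : (Mon N m → F) →ₗ[F] F, ∀ c, (e c : k) = aeval z.1 (formF c) := by
  refine ⟨⟨⟨fun c => ⟨_, (ratP_formF c).aeval_mem hz⟩, fun c c' => Subtype.ext ?_⟩,
    fun t c => Subtype.ext ?_⟩, fun _ => rfl⟩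
  · have := formF_add_smul c c' 1
    simp only [one_smul] at this
    simp [this]
  · have : formF (t • c) = C (t : k) * formF c := form_smul (t : k) fun s => (c s : k)
    simp [this]

theorem ncard_coe {T : Type} {P : T → Prop} (S : T → Prop) :
    {t : {t // P t} | S t}.ncard = {t | S t ∧ P t}.ncard := by
  rw [← Set.ncard_image_of_injective _ Subtype.val_injective]
  congr 1
  ext t
  simp

theorem pairs (hS : S_SZP) {F : Subfield k} [Finite F] {J : Type} [Finite J]
    (π : (J → F) →ₗ[F] (J → F)) (W : Submodule F (J → F)) (h1 : ∀ c, π c ∈ W)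
    (h2 : ∀ c ∈ W, π c = c) (Bad : (J → F) → (J → F) → Prop) {Φ : MvPolynomial (J ⊕ J) k}
    (h3 : Φ ≠ 0) (h4 : ∀ c c', Bad (π c) (π c') →
      eval (Sum.elim (fun j => (c j : k)) fun j => (c' j : k)) Φ = 0) :
    {x : W × W | Bad x.1 x.2}.ncard * Nat.card F ≤ Φ.totalDegree * Nat.card W ^ 2 := by
  let π' : (J ⊕ J → F) →+ (J ⊕ J → F) := AddMonoidHom.mk'
    (fun c => Sum.elim (π (c ∘ .inl)) (π (c ∘ .inr))) fun a b => funext fun j => by
      cases j <;> exact congrFun (π.map_add _ _) _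
  have e : ∀ P : (J → F) → (J → F) → Prop,
      {c | π' c = c ∧ P (c ∘ .inl) (c ∘ .inr)}.ncard = {x : W × W | P x.1 x.2}.ncard := fun P => by
    symm
    refine Set.ncard_congr (fun x _ => Sum.elim x.1.1 x.2.1) (fun x hx => ⟨?_, hx⟩)
      (fun x y _ _ h => Prod.ext (Subtype.ext (congrArg (· ∘ Sum.inl) h))
        (Subtype.ext (congrArg (· ∘ Sum.inr) h))) fun c hc => ?_
    · exact congrArg₂ Sum.elim (h2 _ x.1.2) (h2 _ x.2.2)
    · have a1 : π (c ∘ .inl) = c ∘ .inl := congrArg (· ∘ Sum.inl) hc.1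
      have a2 : π (c ∘ .inr) = c ∘ .inr := congrArg (· ∘ Sum.inr) hc.1
      exact ⟨(⟨c ∘ .inl, a1 ▸ h1 _⟩, ⟨c ∘ .inr, a2 ▸ h1 _⟩), hc.2, Sum.elim_comp_inl_inr c⟩
  have h := (hS k (J ⊕ J)).1 F π' Φ (fun c => Bad (c ∘ .inl) (c ∘ .inr))
    (fun c => congrArg₂ Sum.elim (h2 _ (h1 _)) (h2 _ (h1 _))) h3 fun c hc => by
      rw [← h4 _ _ hc]
      congr 2
      funext j
      cases j <;> rfl
  have e' := e fun _ _ => True
  simp only [and_true, Set.ofPred_true, Set.ncard_univ, Nat.card_prod] at e'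
  rwa [e, e', ← sq] at h

end KEY

open KEY in
theorem t_KEY : S_FQ → S_GOODC → S_CNT → S_SZP → S_KEY1 → S_KEY2 → S_KEY := by
  intro hFQ hG hC hS hK1 hK2 k _ _ p hp _ N I n m d ε hI hn hm hd hdeg hε
  obtain ⟨C', hC'⟩ := hK1 (d - 2) (by omega)
  obtain ⟨D, hD⟩ := hK2 k N I n m hI hn hm
  obtain ⟨s₀, hs₀⟩ := exists_nat_ge ((C' + (d - 2)! * D) / ε)
  refine ⟨s₀ + d, fun s F a z z' hs hF hR ha hg hRa hzz hz hz' h1 h1' h2 h2' => ?_⟩
  have hps : s < p ^ s := Nat.lt_pow_self hp.out.one_lt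
  have := hF.finite
  obtain ⟨Q, hQ⟩ := hG k N I a n hI ha hn hg
  have hy := hC k N m F Bool (fun b => cond b z z')
    (Bool.injective_iff.2 hzz.symm) (by rintro (_ | _) <;> assumption) (by simp; omega)
  obtain ⟨lam, hl⟩ := hy.1 fun b => cond b 1 0
  obtain ⟨lam', hl'⟩ := hy.1 fun b => cond b 0 1
  obtain ⟨e, he⟩ := exists_ev m hz
  obtain ⟨e', he'⟩ := exists_ev m hz'
  have l1 : e lam = 1 := Subtype.ext ((he _).trans (hl true))
  have l2 : e' lam = 0 := Subtype.ext ((he' _).trans (hl false))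
  have l3 : e lam' = 0 := Subtype.ext ((he _).trans (hl' true))
  have l4 : e' lam' = 1 := Subtype.ext ((he' _).trans (hl' false))
  let W : Submodule F (Mon N m → F) := LinearMap.ker e ⊓ LinearMap.ker e'
  have hW : ∀ c, c ∈ W ↔ aeval z.1 (formF c) = 0 ∧ aeval z'.1 (formF c) = 0 := fun c => by
    simp [W, ← he, ← he']
  obtain ⟨Φ, p1, p2, p3⟩ := hD a Q z z' (fun j => lam j) (fun j => lam' j) ha hg hQ hzz
  have hb := pairs hS (LinearMap.id - e.smulRight lam - e'.smulRight lam') W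
    (fun c => by simp [W, l1, l2, l3, l4]) (fun c hc => by
      have a1 : e c = 0 := hc.1
      have a2 : e' c = 0 := hc.2
      simp [a1, a2]) (fun c c' => ¬ Pencil Q z z' (formF c) (formF c')) p1 fun c c' h => by
      have a : ∀ c : Mon N m → F, formF ((LinearMap.id - e.smulRight lam - e'.smulRight lam' :
          _ →ₗ[F] _) c) = form (pr z.1 z'.1 (fun j => lam j) (fun j => lam' j) fun j => c j) :=
        fun c => congrArg form (funext fun j => by simp [pr, he, he'])
      rw [a, a] at h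
      exact by_contra fun h' => h (p3 _ _ h')
  have hq : (Nat.card F : ℝ) = (p ^ s) ^ 2 := by rw [hF.card]; push_cast; rfl
  have hr : (1 : ℝ) ≤ p ^ s := by exact_mod_cast (by omega : 1 ≤ p ^ s)
  have hM : (1 : ℝ) ≤ (d - 2)! := by exact_mod_cast Nat.factorial_pos _
  have h := count (F := F) (V := W) (fun c => SplC Q F (formF c.1))
    (fun x => ¬ Pencil Q z z' (formF x.1.1) (formF x.2.1)) (C' * p ^ s) (d - 2)! D
    (by positivity) hM (fun x hx => by
      have hx := not_not.1 hx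
      have a1 := (on_iff hQ).2 ⟨h1, h2⟩
      have a2 := (on_iff hQ).2 ⟨h1', h2'⟩
      have a3 := hC' k p s F N m Q z z' _ _ hF (Nat.pow_lt_pow_left (by omega) two_ne_zero)
        (by omega) hQ.sm ((hFQ k p).2.2.2 s F N I Q a hF hR hRa hQ) hzz a1 a2 hz hz'
        (form_isHomogeneous _) (form_isHomogeneous _) (by
          simp only [List.forall_mem_cons]
          exact ⟨⟨ratP_formF _, (hW _).1 x.1.2⟩, ⟨ratP_formF _, (hW _).1 x.2.2⟩, by simp⟩) hx (by
          have := hdeg a _ ha hg (form_isHomogeneous _) ((hQ.cop _ m (form_isHomogeneous _)).2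
            (notMem hQ.sm hzz a1 a2 (hx.p1 z)))
          simp only [deg, hQ.inter_eq] at this
          exact this.trans (by omega))
      simp only [and_comm (a := _ ∈ F)] at a3
      rw [← ncard_coe fun t => SplC Q F (formF x.1.1 + C t * formF x.2.1)] at a3
      simp only [← formF_add_smul] at a3
      rw [hq]
      exact_mod_cast a3) (by
      exact_mod_cast hb.trans (Nat.mul_le_mul_right _ p2))
  rw [ncard_coe fun c => SplC Q F (formF c), ← Set.ncard_univ, ← Set.ofPred_true,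
    ncard_coe fun _ => True, hq] at h
  simp only [true_and, hW, ← split_iff hQ (form_isHomogeneous _)] at h
  refine le_of_mul_le_mul_right (h.trans ?_) (by positivity)
  rw [mul_right_comm]
  refine mul_le_mul_of_nonneg_right ?_ (Nat.cast_nonneg _)
  have a1 : (s₀ : ℝ) ≤ p ^ s := by exact_mod_cast (by omega : s₀ ≤ p ^ s)
  have a2 := (div_le_iff₀ hε).1 (hs₀.trans a1)
  have a3 : (0 : ℝ) ≤ (d - 2)! * D := by positivity
  nlinarith

end Pool.Agent.P.MP_12d50c_ag
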