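import Pool.Agent.P.MP_12d50c_ag.If3

/-! A general pencil is simply branched. -/

open MvPolynomial WithZero Function
open Pool.Agent.P.MP_6f117a_ag (Place FF Model Reg)

namespace Pool.Agent.P.MP_12d50c_ag

namespace KEY0

theorem sum_ind {α : Type} (Z : Set α) (hZ : Z.Finite) (f : α → ℕ) (h1 : ∀ y ∈ Z, f y = 1)
    (h0 : ∀ y, y ∉ Z → f y = 0) : ∑ᶠ y, f y = Z.ncard := by
  rw [finsum_eq_sum_of_support_subset f (s := hZ.toFinset) fun y hy => by
    by_contra h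
    exact hy (h0 y (by simpa using h)), Set.ncard_eq_toFinset_card Z hZ, Finset.card_eq_sum_ones]
  exact Finset.sum_congr rfl fun y hy => h1 y (by simpa using hy)

theorem enum {α : Type} (Y : Set α) (hY : Y.Finite) (n : ℕ) (h : Y.ncard = n) :
    ∃ g : Fin n → α, (∀ i, g i ∈ Y) ∧ Injective g ∧ ∀ y ∈ Y, ∃ i, g i = y := by
  haveI := hY.to_subtype
  have e : Y ≃ Fin n := Finite.equivFinOfCardEq (by rw [← h]; rfl)
  exact ⟨fun i => (e.symm i).1, fun i => (e.symm i).2,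
    Subtype.val_injective.comp e.symm.injective, fun y hy => ⟨e ⟨y, hy⟩, by simp⟩⟩

theorem toNat_le {a : ℕ∞} {n : ℕ} (h : a ≤ n) : a.toNat ≤ n := by
  simpa using ENat.toNat_le_toNat h (ENat.coe_ne_top n)

theorem le_of_toNat {a : ℕ∞} {n : ℕ} (h : n ≤ a.toNat) : (n : ℕ∞) ≤ a :=
  (ENat.coe_le_coe.2 h).trans (ENat.coe_toNat_le_self a)

end KEY0

open KEY0

theorem t_KEY0 : S_CURVE → S_VAL → S_KEY0 := by
  intro hCURVE hVAL k _ _ N Q E _ _ ξ pl z z' b₀ b₁ l m n hsm hd hzz hz hz' h0 h1 hl hv hP hdeg hn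
  obtain ⟨-, c2, c3, c4, -, -⟩ := hCURVE k N Q hsm
  have v0 := hv b₀ (by simp)
  have v1 := hv b₁ (by simp)
  have vl := hv l (by simp)
  have hom : ∀ t : k, (b₀ + C t * b₁).IsHomogeneous m := fun t => h0.add (h1.C_mul t)
  have n1 : b₁ ∉ Q := fun h => by
    have := hP.p1 z
    rw [c3 _ z h hz] at this
    simp at this
  have nt : ∀ t : k, b₀ + C t * b₁ ∉ Q := fun t h => by
    have := hP.p3 t z
    rw [c3 _ z h hz] at this
    exact absurd this (by decide)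
  have n0 : b₀ ∉ Q := by simpa using nt 0
  have hne : ∀ g : PP k N, g.IsHomogeneous m → g ∉ Q → aeval ξ g ≠ 0 := fun g hg hQ h =>
    hQ (hd.van_eq ▸ (mem_van_of_hom hg).2 h)
  -- orders
  have oz : ∀ (g : PP k N) (y : NP k N), g.IsHomogeneous m → ¬ (On Q y.1 ∧ aeval y.1 g = 0) →
      (ordI Q y g).toNat = 0 := fun g y hg h => by rw [(c2 g m y hg).2 h]; rfl
  have op : ∀ (g : PP k N) (y : NP k N), g.IsHomogeneous m → g ∉ Q → On Q y.1 → aeval y.1 g = 0 →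
      1 ≤ (ordI Q y g).toNat := fun g y hg hQ h h' => by
    rw [Nat.one_le_iff_ne_zero, Ne, ENat.toNat_eq_zero, not_or]
    exact ⟨fun e => (c2 g m y hg).1 e ⟨h, h'⟩, (c4 g m hg hQ).1 y⟩
  have o1 : ∀ y, (ordI Q y b₁).toNat ≤ 1 := fun y => toNat_le (n := 1) (hP.p1 y)
  set Y := {y : NP k N | On Q y.1 ∧ aeval y.1 b₁ = 0 ∧ y ≠ z ∧ y ≠ z'} with hY
  have hZ := (c4 b₁ m h1 n1).2.1
  have hYf : Y.Finite := hZ.subset fun y hy => ⟨hy.1, hy.2.1⟩
  have hcard : Y.ncard = n := by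
    have e1 := sum_ind _ hZ (fun y => (ordI Q y b₁).toNat)
      (fun y hy => le_antisymm (o1 y) (op _ y h1 n1 hy.1 hy.2)) fun y hy => oz _ y h1 hy
    have e2 : Y = {y : NP k N | On Q y.1 ∧ aeval y.1 b₁ = 0} \ {z, z'} := by
      ext y
      simp only [hY, Set.mem_setOf_eq, Set.mem_diff, Set.mem_insert_iff, Set.mem_singleton_iff,
        not_or, and_assoc, Ne]
    have e3 : ({z, z'} : Set (NP k N)) ⊆ {y : NP k N | On Q y.1 ∧ aeval y.1 b₁ = 0} := by
      rintro y (rfl | rfl)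
      exacts [⟨hz, v1.1⟩, ⟨hz', v1.2⟩]
    rw [e2, Set.ncard_diff e3, Set.ncard_pair hzz, ← e1]
    change degC Q b₁ - 2 = n
    omega
  refine ⟨hcard, fun hinj => ?_⟩
  have x1 := hne _ h1 n1
  have x0 := hne _ h0 n0
  have key : ∀ (t : k) (y : {y : NP k N // On Q y.1}),
      (pl y).v (-aeval ξ b₀ / aeval ξ b₁ - algebraMap k E t) =
        exp (((ordI Q y.1 b₁).toNat : ℤ) - (ordI Q y.1 (b₀ + C t * b₁)).toNat) := fun t y => by
    rw [← (hVAL k N Q E ξ pl y _ _ m hsm hd (hom t) h1).2 (nt t) n1, ← Valuation.map_neg]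
    congr 1
    rw [map_add, map_mul, aeval_C]
    field_simp
    ring
  have key0 : ∀ y : {y : NP k N // On Q y.1}, (pl y).v (-aeval ξ b₀ / aeval ξ b₁) =
      exp (((ordI Q y.1 b₁).toNat : ℤ) - (ordI Q y.1 b₀).toNat) := fun y => by
    simpa using key 0 y
  have yb : ∀ y ∈ Y, aeval y.1 b₀ ≠ 0 := fun y hy h =>
    (hP.p2 y hy.1 h hy.2.1).elim hy.2.2.1 hy.2.2.2
  have inY : ∀ y : {y : NP k N // On Q y.1}, y.1 ∈ Y →
      (pl y).v (-aeval ξ b₀ / aeval ξ b₁) = exp 1 := fun y hy => by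
    rw [key0, le_antisymm (o1 y.1) (op _ y.1 h1 n1 hy.1 hy.2.1),
      oz _ y.1 h0 fun h => yb _ hy h.2]
    rfl
  have ofY : ∀ y : {y : NP k N // On Q y.1}, 1 < (pl y).v (-aeval ξ b₀ / aeval ξ b₁) →
      y.1 ∈ Y := fun y hy => by
    rw [key0, ← exp_zero, exp_lt_exp] at hy
    have a1 := o1 y.1
    have a2 : aeval y.1.1 b₀ ≠ 0 := fun h => by
      have := op _ y.1 h0 n0 y.2 h
      omega
    refine ⟨y.2, by_contra fun h => ?_, fun h => a2 (h ▸ v0.1), fun h => a2 (h ▸ v0.2)⟩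
    have := oz _ y.1 h1 fun h' => h h'.2
    omega
  refine ⟨hn, ?_, fun P hP' => ?_, fun t P => ?_, fun t P P' hP1 hP2 => ?_⟩
  · obtain ⟨g, hg, hgi, hgs⟩ := enum Y hYf n hcard
    refine ⟨fun i => pl ⟨g i, (hg i).1⟩,
      fun i => aeval (g i).1 (-l) / aeval (g i).1 b₀, fun i j hij => ?_,
      fun P' => ?_, fun i => ⟨inY _ (hg i), ?_⟩⟩
    · refine hgi (hinj _ (hg i) _ (hg j) ?_)
      have := (div_eq_div_iff (yb _ (hg i)) (yb _ (hg j))).1 hij
      rwa [map_neg, map_neg, neg_mul, neg_mul, neg_inj] at this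
    · obtain ⟨y, rfl⟩ := pl.surjective P'
      refine ⟨fun h => ?_, ?_⟩
      · obtain ⟨i, hi⟩ := hgs _ (ofY y h)
        exact ⟨i, congrArg pl (Subtype.ext hi)⟩
      rintro ⟨i, hi⟩
      rw [← show pl ⟨g i, (hg i).1⟩ = pl y from hi, inY ⟨g i, (hg i).1⟩ (hg i), ← exp_zero,
        exp_lt_exp]
      exact one_pos
    · have := (hVAL k N Q E ξ pl ⟨g i, (hg i).1⟩ _ _ m hsm hd hl.neg h0).1 (yb _ (hg i))
      have e1 : aeval ξ l / aeval ξ b₁ / (-aeval ξ b₀ / aeval ξ b₁) =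
          aeval ξ (-l) / aeval ξ b₀ := by
        rw [map_neg]
        field_simp
      rwa [e1]
  · obtain ⟨y, rfl⟩ := pl.surjective P
    by_cases hlQ : l ∈ Q
    · rw [(mem_van_of_hom hl).1 (hd.van_eq ▸ hlQ : l ∈ van k ξ)]
      simp
    rw [(hVAL k N Q E ξ pl y _ _ m hsm hd hl h1).2 hlQ n1, ← exp_zero, exp_le_exp]
    by_cases hb : aeval y.1.1 b₁ = 0
    · have hy : y.1 ∉ Y := fun h => by
        rw [inY y h, ← exp_zero, exp_le_exp] at hP'
        omega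
      have hly : aeval y.1.1 l = 0 := by
        by_contra h
        exact hy ⟨y.2, hb, fun e => h (e ▸ vl.1), fun e => h (e ▸ vl.2)⟩
      have := op _ y.1 hl hlQ y.2 hly
      have := o1 y.1
      omega
    · have := oz _ y.1 h1 fun h' => hb h'.2
      omega
  · obtain ⟨y, rfl⟩ := pl.surjective P
    rw [key, exp_le_exp]
    have := toNat_le (n := 2) (hP.p3 t y.1)
    omega
  · obtain ⟨y, rfl⟩ := pl.surjective P
    obtain ⟨y', rfl⟩ := pl.surjective P'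
    rw [key, exp_lt_exp] at hP1 hP2
    exact congrArg pl (Subtype.ext (hP.p4 t _ _ (le_of_toNat (n := 2) (by omega))
      (le_of_toNat (n := 2) (by omega))))

end Pool.Agent.P.MP_12d50c_ag
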