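import Pool.Agent.P.MP_12d50c_ag.If3

/-!
The number of split members of a general pencil.
-/

open MvPolynomial WithZero Function
open Pool.Agent.P.MP_6f117a_ag (Place FF Model Reg)
open scoped IntermediateField Polynomial Nat

namespace Pool.Agent.P.MP_12d50c_ag

namespace KEY1

variable {k : Type} [Field k] {N : ℕ}

theorem hom_comb {b₀ b₁ : PP k N} {m : ℕ} (h₀ : b₀.IsHomogeneous m) (h₁ : b₁.IsHomogeneous m)
    (t : k) : (b₀ + C t * b₁).IsHomogeneous m :=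
  h₀.add (h₁.C_mul t)

/-- At most one member of the pencil has a multiple zero at a given point. -/
theorem subsingleton_ram {Q : Ideal (PP k N)} {E : Type} [Field E] [Algebra k E]
    {ξ : Fin (N + 1) → E} {pl : {y : NP k N // On Q y.1} ≃ Place k E} (hD : Dict Q ξ pl)
    {b₀ b₁ : PP k N} {m : ℕ} (h₀ : b₀.IsHomogeneous m) (h₁ : b₁.IsHomogeneous m) {z : NP k N}
    (hz : On Q z.1) (hb : b₁ ∉ Q) (h1 : ordI Q z b₁ ≤ 1) (hn : ∀ t : k, b₀ + C t * b₁ ∉ Q)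
    (h2 : ∀ t : k, ordI Q z (b₀ + C t * b₁) ≤ 2) :
    {t : k | ¬ ordI Q z (b₀ + C t * b₁) ≤ 1}.Subsingleton := by
  intro t ht t' ht'
  by_contra hne
  have key : ∀ t : k, ¬ ordI Q z (b₀ + C t * b₁) ≤ 1 →
      (pl ⟨z, hz⟩).v (aeval ξ (b₀ + C t * b₁) / ξ z.piv ^ m) ≤ exp (-2) := fun t ht => by
    have h3 : ordI Q z (b₀ + C t * b₁) = 2 :=
      le_antisymm (h2 t) (Order.add_one_le_of_lt (not_le.1 ht))
    rw [(hD.val ⟨z, hz⟩ _ m (hom_comb h₀ h₁ t) (hn t)).2, h3]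
    rfl
  have h4 := (pl ⟨z, hz⟩).v.map_sub_le (key t ht) (key t' ht')
  have h5 : aeval ξ (b₀ + C t * b₁) / ξ z.piv ^ m - aeval ξ (b₀ + C t' * b₁) / ξ z.piv ^ m =
      algebraMap k E (t - t') * (aeval ξ b₁ / ξ z.piv ^ m) := by
    simp only [map_add, map_mul, aeval_C, map_sub]
    ring
  rw [h5, map_mul, (pl ⟨z, hz⟩).v_const (sub_ne_zero.2 hne), one_mul,
    (hD.val ⟨z, hz⟩ _ m h₁ hb).2, exp_le_exp] at h4
  have h6 : (ordI Q z b₁).toNat ≤ 1 := ENat.toNat_le_of_le_natCast (by simpa using h1)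
  simp only at h4
  omega

theorem arith {a b c q r n C : ℕ} (h1 : a ≤ b + c) (h2 : b ≤ a + c) (hr : 1 ≤ r)
    (h : |(n * b : ℤ) - q| ≤ C * r) : |(n * a : ℤ) - q| ≤ (C + n * c : ℕ) * r := by
  have h3 : (n : ℤ) * a ≤ n * b + n * c := by exact_mod_cast (mul_add n b c) ▸ Nat.mul_le_mul_left n h1
  have h4 : (n : ℤ) * b ≤ n * a + n * c := by exact_mod_cast (mul_add n a c) ▸ Nat.mul_le_mul_left n h2
  have h5 : (n : ℤ) * c ≤ n * c * r := by exact_mod_cast Nat.le_mul_of_pos_right (n * c) hr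
  rw [abs_le] at h ⊢
  push_cast
  constructor <;> nlinarith [h.1, h.2]

end KEY1

open KEY1 in
theorem t_KEY1 : S_DICT → S_ELL → S_KEY0 → S_KA → S_KEYR → S_KEYS → S_CH0 → S_CH → S_VAL →
    S_CURVE → S_KEY1 := by
  intro hDICT hELL hKEY0 hKA hKEYR hKEYS hCH0 hCH _ hCURVE n hn
  obtain ⟨C'', hC⟩ := hCH n
  refine ⟨C'' + n ! * (n ^ 2 + 2), ?_⟩
  intro k _ _ p hp _ s F N m Q z z' b₀ b₁ hF hnq hm hQ hfr hzz hz hz' hrz hrz' h₀ h₁ hb hP hdeg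
  have := hF.finite
  obtain ⟨E, _, _, _, ξ, pl, hD⟩ := hDICT k N Q hQ
  obtain ⟨-, -, htop, -⟩ := hCURVE k N Q hQ
  obtain ⟨hr₀, hz₀, hz₀'⟩ := hb b₀ (by simp)
  obtain ⟨hr₁, hz₁, hz₁'⟩ := hb b₁ (by simp)
  have hb₁ : b₁ ∉ Q := fun h => by
    have h1 := hP.p1 z
    rw [htop b₁ z h hz] at h1
    simp at h1
  have hbt : ∀ t : k, b₀ + C t * b₁ ∉ Q := fun t h => by
    have h1 := hP.p3 t z
    rw [htop _ z h hz, top_le_iff] at h1
    exact ENat.ofNat_ne_top 2 h1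
  have hξ : aeval ξ b₁ ≠ 0 := fun h => hb₁ (hD.van_eq ▸ (mem_van_of_hom h₁).2 h)
  have hY := (hKEY0 k N Q E ξ pl z z' b₀ b₁ b₁ m n hQ hD hzz hz hz' h₀ h₁ h₁
    (by simp only [List.mem_cons, List.not_mem_nil, or_false]; rintro b (rfl | rfl | rfl) <;>
      exact ⟨‹_›, ‹_›⟩) hP hdeg hn).1
  obtain ⟨l, hl, hrl, hzl, hzl', hsep⟩ := hELL k N m F z z' _ (fun y => aeval y.1 b₀) hm hzz hrz hrz'
    (Set.finite_of_ncard_ne_zero (hY ▸ hn.ne')) (fun h => h.2.2.1 rfl) (fun h => h.2.2.2 rfl)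
    (fun y hy h => (hP.p2 y hy.1 h hy.2.1).elim hy.2.2.1 hy.2.2.2) (by rw [hY, hF.card]; exact hnq)
  have hSB := (hKEY0 k N Q E ξ pl z z' b₀ b₁ l m n hQ hD hzz hz hz' h₀ h₁ hl
    (by simp only [List.mem_cons, List.not_mem_nil, or_false]; rintro b (rfl | rfl | rfl) <;>
      exact ⟨‹_›, ‹_›⟩) hP hdeg hn).2 hsep
  obtain ⟨f, M, _, _, T, xs, hcov, hev, huniq, hfib⟩ := hKA k E n _ _ hSB
  have hf : f.map (Polynomial.mapRingHom (frob k p s)) = f :=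
    huniq _ (hcov.monic.map _) (by rw [hcov.monic.natDegree_map, hcov.deg])
      (hKEYR k N E ξ (frob k p s) b₀ b₁ l m f (hD.van_eq ▸ hfr) h₀ h₁ hl (hr₀.map_frob hF)
        (hr₁.map_frob hF) (hrl.map_frob hF) hξ hev)
  have hcoef : ∀ i j, (f.coeff i).coeff j ∈ F := fun i j => by
    rw [← hF.frob_eq]
    conv_rhs => rw [← hf]
    simp
  have hmain := hC k M p s F f T xs hF hcov hcoef
  obtain ⟨-, hfin, hcard⟩ := hCH0 k M n f T xs hcov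
  have hs := subsingleton_ram hD h₀ h₁ hz hb₁ (hP.p1 z) hbt fun t => hP.p3 t z
  have hs' := subsingleton_ram hD h₀ h₁ hz' hb₁ (hP.p1 z') hbt fun t => hP.p3 t z'
  set B₀ := {t₀ : k | ¬ ∃ x₀ : Fin n → k, Injective x₀ ∧ YY f t₀ x₀}
  set B₁ := {t : k | ¬ ordI Q z (b₀ + C t * b₁) ≤ 1}
  set B₂ := {t : k | ¬ ordI Q z' (b₀ + C t * b₁) ≤ 1}
  have hBf : (B₀ ∪ B₁ ∪ B₂).Finite := (hfin.union hs.finite).union hs'.finite
  have hBc : (B₀ ∪ B₁ ∪ B₂).ncard ≤ n ^ 2 + 2 := by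
    have h1 := Set.ncard_union_le (B₀ ∪ B₁) B₂
    have h2 := Set.ncard_union_le B₀ B₁
    have h3 := (Set.ncard_le_one hs.finite).2 fun a ha b hb => hs ha hb
    have h4 := (Set.ncard_le_one hs'.finite).2 fun a ha b hb => hs' ha hb
    omega
  have key : ∀ t ∈ F, t ∉ B₀ ∪ B₁ ∪ B₂ → (SplC Q F (b₀ + C t * b₁) ↔ t ∈ SplT f n F) := by
    intro t ht hB
    simp only [B₀, B₁, B₂, Set.mem_union, Set.mem_ofPred_eq, not_or, not_not] at hB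
    obtain ⟨⟨⟨x₀, hinj, hyy⟩, h1⟩, h2⟩ := hB
    rw [hKEYS k p s F N Q E ξ pl z z' b₀ b₁ l m n t x₀ hF hQ hD hfr hz hz' hrz hrz' h₀ h₁ hl
      (by simp only [List.mem_cons, List.not_mem_nil, or_false]; rintro b (rfl | rfl | rfl) <;>
        exact ⟨‹_›, ‹_›, ‹_›⟩) hP ht h1 h2 hinj (hfib t x₀ hinj hyy)]
    refine ⟨fun h => ⟨ht, x₀, hinj, h, hyy⟩, fun ⟨_, x₁, _, h, hyy'⟩ i => ?_⟩
    obtain ⟨σ, rfl⟩ := hyy'.exists_perm hyy
    exact h _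
  have hA : {t : k | t ∈ F ∧ SplC Q F (b₀ + C t * b₁)}.Finite :=
    (Set.toFinite (F : Set k)).subset fun t ht => ht.1
  have hT : (SplT f n F).Finite := (Set.toFinite (F : Set k)).subset fun t ht => ht.1
  have h1 : {t : k | t ∈ F ∧ SplC Q F (b₀ + C t * b₁)}.ncard ≤
      (SplT f n F).ncard + (n ^ 2 + 2) := by
    refine (Set.ncard_le_ncard (t := SplT f n F ∪ (B₀ ∪ B₁ ∪ B₂)) (fun t ht => ?_)
      (hT.union hBf)).trans ((Set.ncard_union_le _ _).trans (Nat.add_le_add_left hBc _))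
    by_cases hB : t ∈ B₀ ∪ B₁ ∪ B₂
    · exact Or.inr hB
    · exact Or.inl ((key t ht.1 hB).1 ht.2)
  have h2 : (SplT f n F).ncard ≤
      {t : k | t ∈ F ∧ SplC Q F (b₀ + C t * b₁)}.ncard + (n ^ 2 + 2) := by
    refine (Set.ncard_le_ncard
      (t := {t : k | t ∈ F ∧ SplC Q F (b₀ + C t * b₁)} ∪ (B₀ ∪ B₁ ∪ B₂)) (fun t ht => ?_)
      (hA.union hBf)).trans ((Set.ncard_union_le _ _).trans (Nat.add_le_add_left hBc _))
    by_cases hB : t ∈ B₀ ∪ B₁ ∪ B₂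
    · exact Or.inr hB
    · exact Or.inl ⟨ht.1, (key t ht.1 hB).2 ht⟩
  have h3 := arith (q := (p ^ s) ^ 2) (r := p ^ s) (n := n !) (C := C'') h1 h2
    (Nat.one_le_pow _ _ hp.out.pos) (by exact_mod_cast hmain)
  exact_mod_cast h3

end Pool.Agent.P.MP_12d50c_ag
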