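import Pool.Agent.P.MP_12d50c_ag.If3

/-! Most pencils are general. -/

open MvPolynomial Function

namespace Pool.Agent.P.MP_12d50c_ag

theorem t_KEY2 : S_KJ → S_KP → S_KEY2 := by
  intro hJ hP k _ _ N I n m hI hn hm
  obtain ⟨D₁, h₁⟩ := hJ k N I n m false Unit (fun _ => 2) hI hn (by simp) (by simp; omega) (by simp)
  obtain ⟨D₂, h₂⟩ := hJ k N I n m true Unit (fun _ => 3) hI hn (by simp) (by simp; omega) (by simp)
  obtain ⟨D₃, h₃⟩ := hJ k N I n m true Bool (fun _ => 2) hI hn (by simp) (by simp; omega) (by simp)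
  obtain ⟨D₄, h₄⟩ := hP k N I n m hI hn (by omega)
  refine ⟨D₁ + D₂ + D₃ + D₄, fun a Q z z' lam lam' ha hg hQ hz => ?_⟩
  obtain ⟨Φ₁, n₁, d₁, e₁⟩ := h₁ a Q z z' lam lam' ha hg hQ hz
  obtain ⟨Φ₂, n₂, d₂, e₂⟩ := h₂ a Q z z' lam lam' ha hg hQ hz
  obtain ⟨Φ₃, n₃, d₃, e₃⟩ := h₃ a Q z z' lam lam' ha hg hQ hz
  obtain ⟨Φ₄, n₄, d₄, e₄⟩ := h₄ a z z' lam lam' ha hg hz
  refine ⟨Φ₁ * Φ₂ * Φ₃ * Φ₄, mul_ne_zero (mul_ne_zero (mul_ne_zero n₁ n₂) n₃) n₄,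
    (totalDegree_mul _ _).trans (add_le_add ((totalDegree_mul _ _).trans (add_le_add
      ((totalDegree_mul _ _).trans (add_le_add d₁ d₂)) d₃)) d₄), fun β₀ β₁ h => ?_⟩
  simp only [map_mul, ne_eq, mul_eq_zero, not_or] at h
  obtain ⟨⟨⟨k₁, k₂⟩, k₃⟩, k₄⟩ := h
  have e : ∀ (t : k) (c₀ c₁ : Mon N m → k),
      (form (comb true t c₀ c₁) : PP k N) = form c₀ + C t * form c₁ := fun t c₀ c₁ => by
    rw [← form_smul, ← form_add]
    rfl
  refine ⟨fun y => ?_, fun y hy h0 h1 => ?_, fun t y => ?_, fun t y y' h0 h1 => ?_⟩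
  · by_contra h
    exact k₁ (e₁ β₀ β₁ 0 (fun _ => y) (injective_of_subsingleton _) fun _ =>
      Order.add_one_le_of_lt (not_le.1 h))
  · by_contra h
    exact k₄ (e₄ β₀ β₁ y (fun f hf => hy f (hQ.le hf)) (hy a hQ.mem) (fun e => h (Or.inl e))
      (fun e => h (Or.inr e)) h0 h1)
  · by_contra h
    exact k₂ (e₂ β₀ β₁ t (fun _ => y) (injective_of_subsingleton _) fun _ =>
      e t _ _ ▸ Order.add_one_le_of_lt (not_le.1 h))
  · by_contra h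
    refine k₃ (e₃ β₀ β₁ t (fun b => cond b y y') ?_ fun b => ?_)
    · rintro (_ | _) (_ | _) hb
      exacts [rfl, absurd hb.symm h, absurd hb h, rfl]
    · rw [e]
      cases b
      exacts [h1, h0]

end Pool.Agent.P.MP_12d50c_ag
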