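import Pool.Agent.P.MP_12d50c_ag.If3

/-!
The plane model is defined over the finite field.
-/

open MvPolynomial Finset
open scoped Polynomial

namespace Pool.Agent.P.MP_12d50c_ag

theorem t_KEYR : S_KEYR := by
  intro k _ N E _ _ ξ ψ b₀ b₁ l m f h h0 h1 hl e0 e1 el hb hf
  obtain ⟨D, d1, d2⟩ : ∃ D, f.natDegree < D ∧ ∀ i, (f.coeff i).natDegree < D := by
    refine ⟨f.natDegree + (f.support.sup fun i => (f.coeff i).natDegree) + 1, by omega, fun i => ?_⟩
    by_cases g : i ∈ f.support
    · have := le_sup (f := fun i => (f.coeff i).natDegree) g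
      omega
    · simp [Polynomial.notMem_support_iff.1 g]
  let H : k[X][X] → PP k N := fun g => ∑ i ∈ range D, ∑ j ∈ range D,
    C ((g.coeff i).coeff j) * ((-b₀) ^ j * b₁ ^ (D - j) * (l ^ i * b₁ ^ (D - i)))
  have hom : ∀ g, (H g).IsHomogeneous (m * D + m * D) := fun g =>
    IsHomogeneous.sum _ _ _ fun i hi => IsHomogeneous.sum _ _ _ fun j hj => by
      have := (((h0.neg.pow j).mul (h1.pow (D - j))).mul ((hl.pow i).mul (h1.pow (D - i)))).C_mul
        ((g.coeff i).coeff j)
      rwa [← mul_add, ← mul_add, Nat.add_sub_cancel' (mem_range.1 hi).le,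
        Nat.add_sub_cancel' (mem_range.1 hj).le] at this
  have ev : ∀ g : k[X][X], g.natDegree < D → (∀ i, (g.coeff i).natDegree < D) →
      aeval ξ (H g) = aeval ξ b₁ ^ D * aeval ξ b₁ ^ D *
        (sp g (-aeval ξ b₀ / aeval ξ b₁)).eval (aeval ξ l / aeval ξ b₁) := fun g g1 g2 => by
    rw [sp, Polynomial.eval_eq_sum_range' (Polynomial.natDegree_map_le.trans_lt g1), map_sum,
      mul_sum]
    refine sum_congr rfl fun i hi => ?_
    rw [Polynomial.coeff_map, AlgHom.toRingHom_eq_coe, RingHom.coe_coe,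
      Polynomial.aeval_eq_sum_range' (g2 i), map_sum, sum_mul, mul_sum]
    refine sum_congr rfl fun j hj => ?_
    obtain ⟨a, ha⟩ := Nat.exists_eq_add_of_le (mem_range.1 hi).le
    obtain ⟨b, hb'⟩ := Nat.exists_eq_add_of_le (mem_range.1 hj).le
    rw [show D - i = a by omega, show D - j = b by omega, Algebra.smul_def]
    nth_rw 1 [ha]
    rw [hb']
    simp only [map_mul, map_pow, map_neg, aeval_C, div_pow, pow_add]
    field_simp
  have mp : map ψ (H f) = H (f.map (Polynomial.mapRingHom ψ)) := by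
    simp only [H, map_sum, map_mul, map_pow, map_neg, map_C, e0, e1, el, Polynomial.coeff_map,
      Polynomial.coe_mapRingHom]
  have a := (mem_van_of_hom (hom _)).1 (mp ▸ h _ ((mem_van_of_hom (hom f)).2 (by
    rw [ev f d1 d2, hf, mul_zero])))
  rw [ev _ (Polynomial.natDegree_map_le.trans_lt d1) fun i => by
    rw [Polynomial.coeff_map]
    exact Polynomial.natDegree_map_le.trans_lt (d2 i)] at a
  exact (mul_eq_zero.1 a).resolve_left (by simp [hb])

end Pool.Agent.P.MP_12d50c_ag
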