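import Pool.Agent.P.MP_12d50c_ag.If3

/-!
Split members of a pencil and split parameters.
-/

open MvPolynomial WithZero Function
open Pool.Agent.P.MP_6f117a_ag (Place)

namespace Pool.Agent.P.MP_12d50c_ag

namespace KEYS

theorem val_uniq {k E : Type} [Field k] [Field E] [Algebra k E] (P : Place k E) {x : E} {c c' : k}
    (h : P.v (x - algebraMap k E c) < 1) (h' : P.v (x - algebraMap k E c') < 1) : c = c' := by
  by_contra hne
  have h1 := P.v_const (sub_ne_zero.2 hne)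
  have h2 : algebraMap k E (c - c') = (x - algebraMap k E c') - (x - algebraMap k E c) := by
    rw [map_sub]; ring
  rw [h2] at h1
  exact (lt_of_le_of_lt (P.v.map_sub _ _) (max_lt h' h)).ne h1

theorem exists_pre {k : Type} [Field k] {N : ℕ} {φ : k →+* k} (hφ : Bijective φ) (y : NP k N) :
    ∃ y' : NP k N, (∀ c, φ (y'.1 c) = y.1 c) ∧
      ∀ f : PP k N, φ (aeval y'.1 f) = aeval y.1 (map φ f) := by
  choose x hx using fun c => hφ.2 (y.1 c)
  refine ⟨⟨x, y.piv, hφ.1 (by rw [hx, y.piv_eq, map_one]), fun j hj =>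
    hφ.1 (by rw [hx, y.eq_zero hj, map_zero])⟩, hx, fun f => ?_⟩
  rw [aeval_eq_eval, aeval_eq_eval, map_eval]
  exact congrArg (fun u => eval u (map φ f)) (funext hx)

end KEYS

open KEYS in
theorem t_KEYS : S_CURVE → S_VAL → S_KEYS := by
  intro hC hV k _ _ p _ _ s F N Q E _ _ ξ pl z z' b₀ b₁ l m n t₀ x₀ hF hQ hD hfr hz hz' rz rz'
    h0 h1 hl hrat hP ht oz oz' hx hfib
  obtain ⟨-, c2, c3, c4, -, -⟩ := hC k N Q hQ
  obtain ⟨P, hP1, hP2⟩ := hfib
  have r0 : RatP F b₀ := (hrat b₀ (by simp)).1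
  have r1 : RatP F b₁ := (hrat b₁ (by simp)).1
  have rl : RatP F l := (hrat l (by simp)).1
  set b := b₀ + C t₀ * b₁ with hbdef
  have hb : b.IsHomogeneous m := h0.add (h1.C_mul t₀)
  have nb : b ∉ Q := fun h => by
    rw [c3 b z h hz] at oz
    exact absurd oz (by decide)
  have n1 : b₁ ∉ Q := fun h => by
    have := hP.p1 z
    rw [c3 b₁ z h hz] at this
    exact absurd this (by decide)
  have x1 : aeval ξ b₁ ≠ 0 := fun h => n1 (hD.van_eq ▸ (mem_van_of_hom h1).2 h)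
  have fb := (c4 b m hb nb).1
  have f1 := (c4 b₁ m h1 n1).1
  have hv : ∀ y : {y : NP k N // On Q y.1},
      (pl y).v (-aeval ξ b₀ / aeval ξ b₁ - algebraMap k E t₀) =
        exp (((ordI Q y.1 b₁).toNat : ℤ) - (ordI Q y.1 b).toNat) := by
    intro y
    rw [← (hV k N Q E ξ pl y b b₁ m hQ hD hb h1).2 nb n1, ← (pl y).v.map_neg]
    congr 1
    rw [hbdef, map_add, map_mul, aeval_C]
    field_simp
    ring
  have hval : ∀ (y : {y : NP k N // On Q y.1}) (i : Fin n), pl y = P i → aeval y.1.1 b₁ ≠ 0 →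
      x₀ i = aeval y.1.1 l / aeval y.1.1 b₁ := fun y i he hy =>
    val_uniq (P i) (hP2 i).2 (he ▸ (hV k N Q E ξ pl y l b₁ m hQ hD hl h1).1 hy)
  have step : ∀ y : {y : NP k N // On Q y.1}, aeval y.1.1 b = 0 → aeval y.1.1 b₁ ≠ 0 →
      ∃ i, pl y = P i ∧ ordI Q y.1 b = 1 := by
    intro y e0 e1
    have a1 : ordI Q y.1 b₁ = 0 := (c2 b₁ m y.1 h1).2 fun h => e1 h.2
    have a2 : ordI Q y.1 b ≠ 0 := fun h => (c2 b m y.1 hb).1 h ⟨y.2, e0⟩
    have a3 : (ordI Q y.1 b).toNat ≠ 0 := by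
      rw [Ne, ENat.toNat_eq_zero, not_or]
      exact ⟨a2, fb _⟩
    have a4 := hv y
    rw [a1, ENat.toNat_zero] at a4
    obtain ⟨i, hi⟩ := (hP1 (pl y)).1 (by
      rw [a4, ← exp_zero, exp_lt_exp]
      omega)
    refine ⟨i, hi.symm, ?_⟩
    rw [← hi, (hP2 i).1, exp_inj] at a4
    rw [← ENat.coe_toNat (fb y.1), show (ordI Q y.1 b).toNat = 1 by omega]
    rfl
  constructor
  · rintro ⟨-, hS⟩ i
    obtain ⟨y, hy⟩ := pl.surjective (P i)
    have a4 := hv y
    rw [hy, (hP2 i).1, exp_inj] at a4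
    have a2 : ordI Q y.1 b ≠ 0 := fun h => by
      rw [h, ENat.toNat_zero] at a4
      omega
    have e0 : aeval y.1.1 b = 0 := by
      by_contra h
      exact a2 ((c2 b m y.1 hb).2 fun h' => h h'.2)
    obtain ⟨ry, a5⟩ := hS y.1 y.2 e0
    rw [a5, ENat.toNat_one] at a4
    have a6 : ordI Q y.1 b₁ = 0 :=
      (ENat.toNat_eq_zero.1 (by omega)).resolve_right (f1 _)
    have e1 : aeval y.1.1 b₁ ≠ 0 := fun h => (c2 b₁ m y.1 h1).1 a6 ⟨y.2, h⟩
    rw [hval y i hy e1]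
    exact div_mem (rl.aeval_mem ry) (r1.aeval_mem ry)
  · refine fun hxF => ⟨nb, fun y hy e0 => ?_⟩
    by_cases e1 : aeval y.1 b₁ = 0
    · have a2 : ordI Q y b ≠ 0 := fun h => (c2 b m y hb).1 h ⟨hy, e0⟩
      have e2 : aeval y.1 b₀ = 0 := by
        rwa [hbdef, map_add, map_mul, e1, mul_zero, add_zero] at e0
      rcases hP.p2 y hy e2 e1 with rfl | rfl
      · exact ⟨rz, le_antisymm oz (ENat.one_le_iff_ne_zero.2 a2)⟩
      · exact ⟨rz', le_antisymm oz' (ENat.one_le_iff_ne_zero.2 a2)⟩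
    obtain ⟨i, hi, ho⟩ := step ⟨y, hy⟩ e0 e1
    refine ⟨?_, ho⟩
    have hφ := frob_bijective k p s
    obtain ⟨y', g1, g2⟩ := exists_pre hφ y
    have hy' : On Q y'.1 := fun f hf => hφ.1 (by rw [g2, map_zero]; exact hy _ (hfr f hf))
    have mb : map (frob k p s) b = b := by
      rw [hbdef, map_add, map_mul, map_C, r0.map_frob hF, r1.map_frob hF, hF.frob_eq.2 ht]
    have e0' : aeval y'.1 b = 0 := hφ.1 (by rw [g2, mb, e0, map_zero])
    have e1' : aeval y'.1 b₁ ≠ 0 := fun h => e1 (by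
      rw [← r1.map_frob hF, ← g2, h, map_zero])
    obtain ⟨i', hi', -⟩ := step ⟨y', hy'⟩ e0' e1'
    have a7 : x₀ i' = x₀ i := by
      rw [← hF.frob_eq.2 (hxF i'), hval _ i' hi' e1', hval _ i hi e1, map_div₀, g2, g2,
        rl.map_frob hF, r1.map_frob hF]
    have a8 : y' = y := congrArg Subtype.val (pl.injective (hi'.trans (hx a7 ▸ hi.symm)))
    rw [a8] at g1
    exact fun c => hF.frob_eq.1 (g1 c)

end Pool.Agent.P.MP_12d50c_ag
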