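import Pool.Agent.P.MP_12d50c_ag.If3

/-!
Pencils with a member having prescribed multiple zeros lie in a hypersurface.
-/

open MvPolynomial Function
open scoped Polynomial

namespace Pool.Agent.P.MP_12d50c_ag

namespace KJ

/-- Uniform genericity for equations with polynomial values. -/
theorem ug3 (h : S_UG2) (k : Type) [Field k] (P J U ι : Type) [Finite P] [Finite J] [Finite U]
    (e : ∀ (T : Type) [CommRing T] [Algebra k T], (P → T) → (J → T) → (U → T) → ι → T[X])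
    (he : ∀ (T T' : Type) [CommRing T] [Algebra k T] [CommRing T'] [Algebra k T'] (ψ : T →ₐ[k] T')
      (τ : P → T) (w : J → T) (u : U → T) (i : ι),
      (e T τ w u i).map (ψ : T →+* T') = e T' (ψ ∘ τ) (ψ ∘ w) (ψ ∘ u) i) :
    ∃ D : ℕ, ∀ τ : P → k,
      (∀ (Ω : Type) [Field Ω] [Algebra k Ω] (w : J → Ω) (u : U → Ω), AlgebraicIndependent k w →
        ¬ ∀ i, e Ω (algebraMap k Ω ∘ τ) w u i = 0) →
      ∃ Φ : MvPolynomial J k, Φ ≠ 0 ∧ Φ.totalDegree ≤ D ∧ ∀ (w : J → k) (u : U → k),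
        (∀ i, e k τ w u i = 0) → eval w Φ = 0 := by
  obtain ⟨D, hD⟩ := h k P J U (ι × ℕ) (fun T _ _ τ w u x => (e T τ w u x.1).coeff x.2)
    fun T T' _ _ _ _ ψ τ w u x => by
      rw [← he, Polynomial.coeff_map]
      rfl
  refine ⟨D, fun τ hτ => ?_⟩
  obtain ⟨Φ, h1, h2, h3⟩ := hD τ fun Ω _ _ w u hw h0 =>
    hτ Ω w u hw fun i => Polynomial.ext fun r => h0 (i, r)
  exact ⟨Φ, h1, h2, fun w u h0 => h3 w u fun x => by rw [h0, Polynomial.coeff_zero]⟩

section Nat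

variable {T T' : Type} [CommRing T] [CommRing T'] (ψ : T →+* T') {N m : ℕ}

theorem eval_form (z : Fin (N + 1) → T) (c : Mon N m → T) :
    ψ (eval z (form c)) = eval (ψ ∘ z) (form (ψ ∘ c)) := by
  have h : ∀ F : PP T N, ψ (eval z F) = eval (ψ ∘ z) (map ψ F) := fun F => by
    induction F using MvPolynomial.induction_on <;> simp [*]
  rw [h, map_form]
  rfl

theorem aeval_form (γ : Fin (N + 1) → T[X]) (c : Mon N m → T) :
    (aeval γ (form c)).map ψ = aeval (fun i => (γ i).map ψ) (form (ψ ∘ c)) := by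
  have h : ∀ F : PP T N, (aeval γ F).map ψ = aeval (fun i => (γ i).map ψ) (map ψ F) := fun F => by
    induction F using MvPolynomial.induction_on <;> simp [*]
  rw [h, map_form]
  rfl

theorem comp_pr (z z' : Fin (N + 1) → T) (lam lam' β : Mon N m → T) :
    ψ ∘ pr z z' lam lam' β = pr (ψ ∘ z) (ψ ∘ z') (ψ ∘ lam) (ψ ∘ lam') (ψ ∘ β) := by
  funext s
  simp [pr, eval_form]

theorem comp_comb {V : Type} (δ : Bool) (t : T) (c₀ c₁ : V → T) :
    ψ ∘ comb δ t c₀ c₁ = comb δ (ψ t) (ψ ∘ c₀) (ψ ∘ c₁) := by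
  funext s
  cases δ <;> simp [comb]

end Nat

/-- Parameters. -/
abbrev Par (N n m : ℕ) : Type := Mon N n ⊕ (Fin (N + 1) ⊕ Fin (N + 1)) ⊕ (Mon N m ⊕ Mon N m)

/-- Unknowns. -/
abbrev Unk (N m : ℕ) (ι : Type) : Type := (ι × Fin (N + 1) × Fin (m + 1)) ⊕ Unit ⊕ (ι × ι)

/-- Charts. -/
abbrev Cht (N : ℕ) (ι : Type) : Type :=
  (ι → Fin (N + 1)) × (ι → Fin (N + 1)) × (ι → ι → Fin (N + 1) × Fin (N + 1))

section Eqs

variable {k : Type} [Field k] {N n m : ℕ} {ι : Type} {T : Type} [CommRing T]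

/-- The jets. -/
noncomputable def gam (u : Unk N m ι → T) (a : ι) (c : Fin (N + 1)) : T[X] :=
  ∑ r : Fin (m + 1), Polynomial.monomial r (u (.inl (a, c, r)))

/-- The member of the pencil. -/
noncomputable def mbr (δ : Bool) (τ : Par N n m → T) (w : Mon N m ⊕ Mon N m → T) (t : T) :
    Mon N m → T :=
  comb δ t
    (pr (fun i => τ (.inr (.inl (.inl i)))) (fun i => τ (.inr (.inl (.inr i))))
      (fun s => τ (.inr (.inr (.inl s)))) (fun s => τ (.inr (.inr (.inr s)))) fun s => w (.inl s))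
    (pr (fun i => τ (.inr (.inl (.inl i)))) (fun i => τ (.inr (.inl (.inr i))))
      (fun s => τ (.inr (.inr (.inl s)))) (fun s => τ (.inr (.inr (.inr s)))) fun s => w (.inr s))

/-- A minor of the base points. -/
noncomputable def mnr (γ γ' : Fin (N + 1) → T[X]) (ρ : Fin (N + 1) × Fin (N + 1)) : T :=
  base γ ρ.1 * base γ' ρ.2 - base γ ρ.2 * base γ' ρ.1

theorem map_gam {T' : Type} [CommRing T'] (ψ : T →+* T') (u : Unk N m ι → T) (a : ι)
    (c : Fin (N + 1)) : (gam u a c).map ψ = gam (ψ ∘ u) a c := by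
  simp [gam, Polynomial.map_sum]

theorem comp_mbr {T' : Type} [CommRing T'] (ψ : T →+* T') (δ : Bool) (τ : Par N n m → T)
    (w : Mon N m ⊕ Mon N m → T) (t : T) : ψ ∘ mbr δ τ w t = mbr δ (ψ ∘ τ) (ψ ∘ w) (ψ t) := by
  rw [mbr, comp_comb, comp_pr, comp_pr]
  rfl

variable [Algebra k T]

open Classical in
/-- The equations. -/
noncomputable def eqs (I : Ideal (PP k N)) (δ : Bool) (l : ι → ℕ) (ch : Cht N ι)
    (τ : Par N n m → T) (w : Mon N m ⊕ Mon N m → T) (u : Unk N m ι → T) :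
    ι × (I ⊕ ι ⊕ Bool ⊕ Bool) → T[X]
  | (a, .inl f) => aeval (gam u a) f.1 %ₘ Polynomial.X ^ l a
  | (a, .inr (.inl b)) => if a = b then 0 else
      Polynomial.C (u (.inr (.inr (a, b))) * mnr (gam u a) (gam u b) (ch.2.2 a b) - 1)
  | (a, .inr (.inr (.inl true))) => gam u a (ch.1 a) - 1
  | (a, .inr (.inr (.inl false))) =>
      gam u a (ch.2.1 a) - (Polynomial.C ((gam u a (ch.2.1 a)).coeff 0) + Polynomial.X)
  | (a, .inr (.inr (.inr true))) =>
      aeval (gam u a) (form fun s => τ (.inl s)) %ₘ Polynomial.X ^ l a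
  | (a, .inr (.inr (.inr false))) =>
      aeval (gam u a) (form (mbr δ τ w (u (.inr (.inl ()))))) %ₘ Polynomial.X ^ l a

theorem eqs_iff {I : Ideal (PP k N)} {δ : Bool} {l : ι → ℕ} {ch : Cht N ι}
    {τ : Par N n m → T} {w : Mon N m ⊕ Mon N m → T} {u : Unk N m ι → T} :
    (∀ x, eqs I δ l ch τ w u x = 0) ↔ ∀ a, (∀ f ∈ I, Polynomial.X ^ l a ∣ aeval (gam u a) f) ∧
      (∀ b, a ≠ b → u (.inr (.inr (a, b))) * mnr (gam u a) (gam u b) (ch.2.2 a b) = 1) ∧
      (gam u a (ch.2.1 a) = Polynomial.C ((gam u a (ch.2.1 a)).coeff 0) + Polynomial.X ∧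
        gam u a (ch.1 a) = 1) ∧
      Polynomial.X ^ l a ∣ aeval (gam u a) (form (mbr δ τ w (u (.inr (.inl ()))))) ∧
      Polynomial.X ^ l a ∣ aeval (gam u a) (form fun s => τ (.inl s)) := by
  simp only [Prod.forall, Sum.forall, Bool.forall_bool, eqs, Subtype.forall, sub_eq_zero,
    Polynomial.modByMonic_eq_zero_iff_dvd (Polynomial.monic_X_pow _), ite_eq_left_iff,
    Polynomial.C_eq_zero, ne_eq]

theorem map_eqs {T' : Type} [CommRing T'] [Algebra k T'] (ψ : T →ₐ[k] T') (I : Ideal (PP k N))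
    (δ : Bool) (l : ι → ℕ) (ch : Cht N ι) (τ : Par N n m → T) (w : Mon N m ⊕ Mon N m → T)
    (u : Unk N m ι → T) (x : ι × (I ⊕ ι ⊕ Bool ⊕ Bool)) :
    (eqs I δ l ch τ w u x).map (ψ : T →+* T') = eqs I δ l ch (ψ ∘ τ) (ψ ∘ w) (ψ ∘ u) x := by
  have hg : ∀ a c, (gam u a c).map (ψ : T →+* T') = gam (ψ ∘ u) a c := map_gam _ u
  have hc : ∀ a c, ψ ((gam u a c).coeff 0) = (gam (ψ ∘ u) a c).coeff 0 := fun a c => by
    rw [← hg, Polynomial.coeff_map]
    rfl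
  have hm : ∀ (p : T[X]) r, (p %ₘ Polynomial.X ^ r).map (ψ : T →+* T') =
      p.map (ψ : T →+* T') %ₘ Polynomial.X ^ r := fun p r => by
    rw [Polynomial.map_modByMonic _ (Polynomial.monic_X_pow _), Polynomial.map_pow,
      Polynomial.map_X]
  rcases x with ⟨a, f | b | (_ | _) | (_ | _)⟩
  · have h := map_aeval' (Polynomial.mapAlgHom ψ) (gam u a) f.1
    simp only [Polynomial.coe_mapAlgHom, hg] at h
    simp only [eqs, hm, h]
  · simp only [eqs]
    split_ifs <;> simp [mnr, base, hc]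
  · simp [eqs, hg, hc]
  · simp [eqs, hg]
  · simp only [eqs, hm, aeval_form, hg, comp_mbr]
    rfl
  · simp only [eqs, hm, aeval_form, hg]
    rfl

end Eqs

end KJ

open KJ

theorem t_KJ : S_UG2 → S_KC → S_JET → S_GE → S_KJ := by
  intro hUG hKC hJET hGE k _ _ N I n m δ ι _ l hI hn hl hm hδ
  classical
  choose D hD using fun ch : Cht N ι => ug3 hUG k (Par N n m) (Mon N m ⊕ Mon N m) (Unk N m ι) _
    (fun T _ _ => eqs I δ l ch) fun T T' _ _ _ _ ψ => map_eqs ψ I δ l ch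
  refine ⟨∑ ch, D ch, fun a Q z z' lam lam' ha hG hQ hz => ?_⟩
  obtain ⟨h1, h2, h3⟩ := hKC k N I a n hI ha hn hG
  choose Φ hΦ₁ hΦ₂ hΦ₃ using fun ch => hD ch
    (Sum.elim (fun s => coeff s.1 a) (Sum.elim (Sum.elim z.1 z'.1) (Sum.elim lam lam')))
    fun Ω _ _ w u hw h0 => by
      rw [eqs_iff] at h0
      refine hδ.not_ge ((hGE k N m _ z.1 z'.1 lam lam' Ω (w ∘ .inl) (w ∘ .inr) _ _ h1 h2 (h3 Ω)
        ⟨_, z.piv_eq⟩ ⟨_, z'.piv_eq⟩ (NP.dist hz) (by rwa [Sum.elim_comp_inl_inr]) rfl rfl).1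
        δ (u (.inr (.inl ()))) ι l ch.1 ch.2.1 (gam u)
        (fun b => ⟨(h0 b).2.2.1.2, ⟨_, (h0 b).2.2.1.1⟩, fun f hf => ?_⟩) hl
        (fun b c hbc => ⟨(ch.2.2 b c).1, (ch.2.2 b c).2, fun h => ?_⟩) hm fun b => (h0 b).2.2.2.1)
      · have h4 : I ⊔ Ideal.span {a} ≤
            (Ideal.span {Polynomial.X ^ l b}).comap
              (aeval (gam u b) : PP k N →ₐ[k] Polynomial Ω) := by
          refine sup_le (fun g hg => Ideal.mem_span_singleton.2 ((h0 b).1 g hg))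
            ((Ideal.span_singleton_le_iff_mem _).2 (Ideal.mem_span_singleton.2 ?_))
          rw [← aeval_map_algebraMap Ω, ← form_coeff ha, map_form]
          exact (h0 b).2.2.2.2
        exact Ideal.mem_span_singleton.1 (h4 hf)
      · have h4 := (h0 b).2.1 c hbc
        rw [mnr, h, sub_self, mul_zero] at h4
        exact zero_ne_one h4
  refine ⟨∏ ch, Φ ch, Finset.prod_ne_zero_iff.2 fun ch _ => hΦ₁ ch,
    (totalDegree_finsetProd _ _).trans (Finset.sum_le_sum fun ch _ => hΦ₂ ch),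
    fun β₀ β₁ t y hy ho => ?_⟩
  choose j γ g1 g2 g3 using fun b =>
    hJET k N Q _ m (l b) (y b) hQ.sm (form_isHomogeneous _) (hl b) (ho b)
  have hρ : ∀ b c, ∃ ρ, b ≠ c → mnr (γ b) (γ c) ρ ≠ 0 := fun b c => by
    by_cases h : b = c
    · exact ⟨(0, 0), fun h' => (h' h).elim⟩
    · obtain ⟨r, s, h4⟩ := NP.dist (hy.ne h)
      exact ⟨(r, s), fun _ => by rwa [mnr, g2, g2, sub_ne_zero]⟩
  choose ρ hρ using hρ
  obtain ⟨u, u1, u2, u3⟩ : ∃ u : Unk N m ι → k, gam u = γ ∧ u (.inr (.inl ())) = t ∧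
      ∀ b c, u (.inr (.inr (b, c))) = (mnr (γ b) (γ c) (ρ b c))⁻¹ := by
    refine ⟨Sum.elim (fun x => (γ x.1 x.2.1).coeff x.2.2)
      (Sum.elim (fun _ => t) fun x => (mnr (γ x.1) (γ x.2) (ρ x.1 x.2))⁻¹), ?_, rfl, fun _ _ => rfl⟩
    funext b c
    have h4 : l b ≤ ∑ a, l a := Finset.single_le_sum (fun _ _ => Nat.zero_le _) (Finset.mem_univ b)
    rw [(γ b c).as_sum_range' (m + 1) (by have := g3 b c; omega), Finset.sum_range]
    rfl
  rw [map_prod]
  refine Finset.prod_eq_zero (Finset.mem_univ (fun b => (y b).piv, j, ρ)) (hΦ₃ _ _ u ?_)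
  rw [eqs_iff, u1, u2]
  refine fun b => ⟨fun f hf => (g1 b).dvd f (Ideal.mem_sup_left (hQ.le hf)), fun c hc => ?_,
    ⟨?_, (g1 b).one⟩, (g1 b).dvd _ (Ideal.mem_sup_right (Ideal.mem_span_singleton_self _)), ?_⟩
  · rw [u3]
    exact inv_mul_cancel₀ (hρ b c hc)
  · obtain ⟨c, hc⟩ := (g1 b).lin
    simp [hc]
  · exact (g1 b).dvd _ (Ideal.mem_sup_left ((form_coeff ha).symm ▸ hQ.mem))

end Pool.Agent.P.MP_12d50c_ag
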