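import Pool.Agent.P.MP_12d50c_ag.If3

/-!
Pencils with a third base point lie in a hypersurface.
-/

open MvPolynomial

namespace Pool.Agent.P.MP_12d50c_ag

namespace KP

variable {k : Type} [Field k] {N : ℕ}

section
variable {T T' : Type} [CommRing T] [CommRing T'] (ψ : T →+* T') {m : ℕ}

theorem nat_ev (y : Fin (N + 1) → T) (c : Mon N m → T) :
    ψ (eval y (form c)) = eval (ψ ∘ y) (form (ψ ∘ c)) := by
  rw [map_eval, map_form]
  rfl

theorem nat_pr (z z' : Fin (N + 1) → T) (lam lam' β : Mon N m → T) :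
    ψ ∘ pr z z' lam lam' β = pr (ψ ∘ z) (ψ ∘ z') (ψ ∘ lam) (ψ ∘ lam') (ψ ∘ β) := by
  funext s
  simp only [pr, Function.comp_apply, Pi.sub_apply, Pi.smul_apply, smul_eq_mul, map_sub, map_mul,
    nat_ev]

/-- A combination of minors, minus one. -/
def mn (μ : Fin (N + 1) × Fin (N + 1) → T) (y z : Fin (N + 1) → T) : T :=
  ∑ p, μ p * (y p.1 * z p.2 - y p.2 * z p.1) - 1

theorem nat_mn (μ : Fin (N + 1) × Fin (N + 1) → T) (y z : Fin (N + 1) → T) :
    ψ (mn μ y z) = mn (ψ ∘ μ) (ψ ∘ y) (ψ ∘ z) := by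
  simp [mn]

end

theorem dist_of_mn {μ : Fin (N + 1) × Fin (N + 1) → k} {y z : Fin (N + 1) → k}
    (h : mn μ y z = 0) : Dist y z := by
  by_contra h1
  simp only [Dist, not_exists, not_not] at h1
  simp [mn, h1] at h

theorem mn_of_dist {y z : Fin (N + 1) → k} (h : Dist y z) : ∃ μ, mn μ y z = 0 := by
  obtain ⟨i, j, h⟩ := h
  refine ⟨Pi.single (i, j) (y i * z j - y j * z i)⁻¹, ?_⟩
  rw [mn, Finset.sum_eq_single (i, j) (fun p _ hp => by simp [hp]) (by simp), Pi.single_eq_same,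
    inv_mul_cancel₀ (sub_ne_zero.mpr h), sub_self]

/-- Parameters. -/
abbrev Par (N n m : ℕ) : Type := Mon N n ⊕ (Fin (N + 1) ⊕ Fin (N + 1)) ⊕ (Mon N m ⊕ Mon N m)

/-- Unknowns. -/
abbrev Unk (N : ℕ) : Type :=
  Fin (N + 1) ⊕ (Fin (N + 1) × Fin (N + 1)) ⊕ (Fin (N + 1) × Fin (N + 1))

/-- The projected coefficient vector. -/
noncomputable def prj {T : Type} [CommRing T] {n m : ℕ} (τ : Par N n m → T) (β : Mon N m → T) :
    Mon N m → T :=
  pr (fun c => τ (.inr (.inl (.inl c)))) (fun c => τ (.inr (.inl (.inr c))))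
    (fun s => τ (.inr (.inr (.inl s)))) (fun s => τ (.inr (.inr (.inr s)))) β

/-- The equations in the chart `i`. -/
noncomputable def eqs (I : Ideal (PP k N)) (n m : ℕ) (i : Fin (N + 1)) (T : Type) [CommRing T]
    [Algebra k T] (τ : Par N n m → T) (w : Mon N m ⊕ Mon N m → T) (u : Unk N → T) :
    I ⊕ Fin 6 → T :=
  Sum.elim (fun f => aeval (u ∘ .inl) f.1)
    ![u (.inl i) - 1, eval (u ∘ .inl) (form (τ ∘ .inl)),
      eval (u ∘ .inl) (form (prj τ (w ∘ .inl))), eval (u ∘ .inl) (form (prj τ (w ∘ .inr))),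
      mn (fun p => u (.inr (.inl p))) (u ∘ .inl) (fun c => τ (.inr (.inl (.inl c)))),
      mn (fun p => u (.inr (.inr p))) (u ∘ .inl) (fun c => τ (.inr (.inl (.inr c))))]

theorem nat_eqs (I : Ideal (PP k N)) (n m : ℕ) (i : Fin (N + 1)) (T T' : Type) [CommRing T]
    [Algebra k T] [CommRing T'] [Algebra k T'] (ψ : T →ₐ[k] T') (τ : Par N n m → T)
    (w : Mon N m ⊕ Mon N m → T) (u : Unk N → T) (j : I ⊕ Fin 6) :
    ψ (eqs I n m i T τ w u j) = eqs I n m i T' (ψ ∘ τ) (ψ ∘ w) (ψ ∘ u) j := by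
  rcases j with f | j
  · exact comp_aeval_apply _ ψ f.1
  · fin_cases j
    · simp [eqs]
    · exact nat_ev (ψ : T →+* T') _ _
    · exact (nat_ev (ψ : T →+* T') _ _).trans (by rw [prj, nat_pr]; rfl)
    · exact (nat_ev (ψ : T →+* T') _ _).trans (by rw [prj, nat_pr]; rfl)
    · exact nat_mn (ψ : T →+* T') (fun p => u (.inr (.inl p))) (u ∘ .inl)
        fun c => τ (.inr (.inl (.inl c)))
    · exact nat_mn (ψ : T →+* T') (fun p => u (.inr (.inr p))) (u ∘ .inl)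
        fun c => τ (.inr (.inl (.inr c)))

end KP

open KP in
theorem t_KP : S_UG2 → S_KC → S_GE → S_KP := by
  intro hUG hKC hGE k _ _ N I n m hI hn hm
  choose D hD using fun i : Fin (N + 1) =>
    hUG k (Par N n m) (Mon N m ⊕ Mon N m) (Unk N) (I ⊕ Fin 6) (eqs I n m i) (nat_eqs I n m i)
  refine ⟨∑ i, D i, fun a z z' lam lam' ha ga hz => ?_⟩
  obtain ⟨k1, k2, k3⟩ := hKC k N I a n hI ha hn ga
  set τ : Par N n m → k := Sum.elim (fun s => coeff s.1 a)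
    (Sum.elim (Sum.elim z.1 z'.1) (Sum.elim lam lam')) with hτ
  have hgen : ∀ (i : Fin (N + 1)) (Ω : Type) [Field Ω] [Algebra k Ω] (w : Mon N m ⊕ Mon N m → Ω)
      (u : Unk N → Ω), AlgebraicIndependent k w →
      ¬ ∀ j, eqs I n m i Ω (algebraMap k Ω ∘ τ) w u j = 0 := by
    intro i Ω _ _ w u hw h
    have e1 : eval (u ∘ .inl) (form ((algebraMap k Ω ∘ τ) ∘ .inl)) = 0 := h (.inr 1)
    have e2 : (form ((algebraMap k Ω ∘ τ) ∘ .inl) : PP Ω N) = map (algebraMap k Ω) a := by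
      rw [← form_coeff ha, map_form]
      rfl
    rw [e2, eval_map, ← aeval_def] at e1
    refine (hGE k N m _ z.1 z'.1 lam lam' Ω (w ∘ .inl) (w ∘ .inr) _ _ k1 k2 (k3 Ω)
      ⟨_, z.piv_eq⟩ ⟨_, z'.piv_eq⟩ (NP.dist hz) (by rwa [Sum.elim_comp_inl_inr]) rfl rfl).2
      (u ∘ .inl) i hm (sub_eq_zero.mp (h (.inr 0)))
      ((on_sup _).2 ⟨fun f hf => h (.inl ⟨f, hf⟩), (on_span _).2 ?_⟩)
      (dist_of_mn (h (.inr 4))) (dist_of_mn (h (.inr 5))) (h (.inr 2)) (h (.inr 3))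
    rintro f rfl
    exact e1
  choose Φ h0 h1 h2 using fun i => hD i τ (hgen i)
  refine ⟨∏ i, Φ i, Finset.prod_ne_zero_iff.mpr fun i _ => h0 i,
    (totalDegree_finsetProd _ _).trans (Finset.sum_le_sum fun i _ => h1 i),
    fun β₀ β₁ y hy hya hyz hyz' e0 e1 => ?_⟩
  obtain ⟨μ, hμ⟩ := mn_of_dist (NP.dist hyz)
  obtain ⟨μ', hμ'⟩ := mn_of_dist (NP.dist hyz')
  rw [map_prod]
  refine Finset.prod_eq_zero (Finset.mem_univ y.piv)
    (h2 y.piv _ (Sum.elim y.1 (Sum.elim μ μ')) ?_)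
  rintro (f | j)
  · exact hy f.1 f.2
  · fin_cases j
    · exact sub_eq_zero.mpr y.piv_eq
    · show eval y.1 (form fun s : Mon N n => coeff s.1 a) = 0
      rw [form_coeff ha]
      exact hya
    · exact e0
    · exact e1
    · exact hμ
    · exact hμ'

end Pool.Agent.P.MP_12d50c_ag
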