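import Pool.Agent.P.MP_12d50c_ag.If3

/-!
Sums over affine lines.
-/

open Function

namespace Pool.Agent.P.MP_12d50c_ag

namespace L20

variable {F U : Type} [Field F] [AddCommGroup U] [Module F U] [Fintype U]

theorem diag (u : U → ℝ) (t : F) :
    ∑ b₀, ∑ b₁, u (b₀ + t • b₁) * u (b₀ + t • b₁) = Fintype.card U * ∑ b, u b ^ 2 := by
  rw [Finset.sum_comm]
  have : ∀ b₁ : U, ∑ b₀, u (b₀ + t • b₁) * u (b₀ + t • b₁) = ∑ b, u b ^ 2 := fun b₁ => by
    rw [← Equiv.sum_comp (Equiv.addRight (t • b₁)) fun b => u b ^ 2]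
    simp only [Equiv.coe_addRight, sq]
  simp only [this, Finset.sum_const, Finset.card_univ, nsmul_eq_mul]

theorem off (u : U → ℝ) (h : ∑ b, u b = 0) {t t' : F} (ht : t ≠ t') :
    ∑ b₀, ∑ b₁, u (b₀ + t • b₁) * u (b₀ + t' • b₁) = 0 := by
  have hi : Injective fun z : U × U => (z.1 + t • z.2, z.1 + t' • z.2) := by
    rintro ⟨a, b⟩ ⟨a', b'⟩ e
    have e1 : a + t • b = a' + t • b' := congrArg Prod.fst e
    have e2 : a + t' • b = a' + t' • b' := congrArg Prod.snd e
    have e3 : (t - t') • (b - b') = 0 := by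
      have : (t - t') • (b - b') = (a + t • b - (a' + t • b')) - (a + t' • b - (a' + t' • b')) := by
        module
      rw [this, e1, e2, sub_self, sub_self, sub_self]
    have e4 : b = b' := sub_eq_zero.1 ((smul_eq_zero.1 e3).resolve_left (sub_ne_zero.2 ht))
    subst e4
    rw [add_right_cancel e1]
  have h1 := Fintype.sum_bijective _ (Finite.injective_iff_bijective.1 hi)
    (fun z : U × U => u (z.1 + t • z.2) * u (z.1 + t' • z.2)) (fun z => u z.1 * u z.2)
    fun _ => rfl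
  rw [Fintype.sum_prod_type, Fintype.sum_prod_type] at h1
  rw [h1, ← Finset.sum_mul_sum, h, zero_mul]

end L20

theorem t_L20 : S_L20 := by
  classical
  intro F U _ _ _ _ _ u h
  have h1 : ∑ b₀, ∑ b₁, (∑ t : F, u (b₀ + t • b₁)) ^ 2 =
      ∑ t : F, ∑ t' : F, ∑ b₀, ∑ b₁, u (b₀ + t • b₁) * u (b₀ + t' • b₁) := by
    have e := Finset.sum_comm (s := (Finset.univ : Finset (U × U)))
      (t := (Finset.univ : Finset (F × F)))
      (f := fun z w => u (z.1 + w.1 • z.2) * u (z.1 + w.2 • z.2))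
    simp only [Fintype.sum_prod_type] at e
    simp only [sq, Finset.sum_mul_sum]
    exact e
  have h2 : ∀ t : F, ∑ t' : F, ∑ b₀, ∑ b₁, u (b₀ + t • b₁) * u (b₀ + t' • b₁) =
      Fintype.card U * ∑ b, u b ^ 2 := fun t => by
    rw [Finset.sum_eq_single t (fun t' _ ht => L20.off u h ht.symm) (by simp), L20.diag]
  rw [h1]
  simp only [h2, Finset.sum_const, Finset.card_univ, nsmul_eq_mul, mul_assoc]

end Pool.Agent.P.MP_12d50c_ag
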