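import Pool.Agent.P.MP_12d50c_ag.If3

/-! The abstract spectral gap argument. -/

namespace Pool.Agent.P.MP_12d50c_ag

namespace L21

open Finset
open scoped Classical

theorem sum_sub {F V : Type} [Field F] [AddCommGroup V] [Module F V] [Fintype V]
    (U : Submodule F V) (f : V → ℝ) :
    ∑ b : U, f b = ∑ b, if b ∈ U then f b else 0 := by
  rw [← sum_filter]
  exact (sum_subtype _ (fun x => by simp) f).symm

theorem line {F V : Type} [Field F] [Fintype F] [AddCommGroup V] [Module F V] [Fintype V]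
    (h : S_L20) (U : Submodule F V) (f : V → ℝ) (h0 : ∀ b, f b ≠ 0 → b ∈ U) (h1 : ∑ b, f b = 0) :
    ∑ b₀, ∑ b₁, (if b₀ ∈ U ∧ b₁ ∈ U then (∑ t : F, f (b₀ + t • b₁)) ^ 2 else 0) =
      Fintype.card F * Nat.card U * ∑ b, f b ^ 2 := by
  have h2 : ∀ g : ℝ → ℝ, g 0 = 0 → ∑ b : U, g (f b) = ∑ b, g (f b) := fun g hg => by
    rw [sum_sub U fun b => g (f b)]
    refine sum_congr rfl fun b _ => ?_
    split_ifs with hb
    · rfl
    · rw [not_not.1 (mt (h0 b) hb), hg]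
  have h3 := h F U (fun b => f b) ((h2 id rfl).trans h1)
  rw [h2 (· ^ 2) (by simp), ← Nat.card_eq_fintype_card (α := U)] at h3
  rw [← h3]
  simp only [Submodule.coe_add, Submodule.coe_smul]
  rw [sum_sub U fun b₀ => ∑ b₁ : U, (∑ t : F, f (b₀ + t • (b₁ : V))) ^ 2]
  refine sum_congr rfl fun b₀ _ => ?_
  rw [sum_sub U fun b₁ => (∑ t : F, f (b₀ + t • b₁)) ^ 2]
  by_cases hb : b₀ ∈ U <;> simp [hb]

end L21

open Finset L21 in
theorem t_L21 : S_L20 → S_L21 := by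
  classical
  intro h20 F V α _ _ _ _ _ U P G Sp S u d D c₀ hU hu h0 hS hc hD hq
  set T : α → V → V → ℝ := fun y b₀ b₁ => ∑ t : F, u (b₀ + t • b₁) y with hT
  set W : α → V → V → ℝ := fun y b₀ b₁ => if b₀ ∈ U y ∧ b₁ ∈ U y then T y b₀ b₁ ^ 2 else 0 with hW
  have hW0 : ∀ y b₀ b₁, 0 ≤ W y b₀ b₁ := fun y b₀ b₁ => by
    simp only [hW]
    split_ifs
    · positivity
    · exact le_rfl
  have hD' : (0 : ℝ) ≤ Fintype.card F - D := sub_nonneg.2 (by exact_mod_cast hD)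
  have h1 : ∀ b₀ ∈ G, ∀ b₁ ∈ Sp b₀, (Fintype.card F - D : ℝ) ^ 2 * (∑ y ∈ S b₀ b₁, u b₀ y) ^ 2 ≤
      d * ∑ y ∈ P, W y b₀ b₁ := fun b₀ hb₀ b₁ hb₁ => by
    obtain ⟨s1, s2, s3, s4, s5⟩ := hS b₀ hb₀ b₁ hb₁
    have e1 : ∑ y ∈ S b₀ b₁, T y b₀ b₁ =
        (univ.filter fun t : F => b₀ + t • b₁ ∈ G).card * ∑ y ∈ S b₀ b₁, u b₀ y := by
      rw [sum_comm, ← nsmul_eq_mul, ← sum_const, sum_filter]
      refine sum_congr rfl fun t _ => ?_
      split_ifs with ht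
      · exact s5 t ht
      · exact sum_eq_zero fun y hy => not_not.1 fun h => ht (hu _ y (s1 hy) h).1
    have e2 : (Fintype.card F - D : ℝ) ≤ (univ.filter fun t : F => b₀ + t • b₁ ∈ G).card := by
      have e3 := card_filter_add_card_filter_not (s := (univ : Finset F))
        (fun t : F => b₀ + t • b₁ ∈ G)
      have e4 : (univ.filter fun t : F => ¬ b₀ + t • b₁ ∈ G).card ≤ D := by
        refine le_trans (le_of_eq ?_) s4
        rw [← Set.ncard_coe_finset]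
        congr 1
        ext t
        simp
      rw [card_univ] at e3
      rw [sub_le_iff_le_add]
      exact_mod_cast (by omega : Fintype.card F ≤
        (univ.filter fun t : F => b₀ + t • b₁ ∈ G).card + D)
    have e5 : ∑ y ∈ S b₀ b₁, T y b₀ b₁ ^ 2 ≤ ∑ y ∈ P, W y b₀ b₁ := by
      refine le_trans (le_of_eq (sum_congr rfl fun y hy => ?_))
        (sum_le_sum_of_subset_of_nonneg s1 fun y _ _ => hW0 y b₀ b₁)
      simp only [hW, if_pos (s3 y hy)]
    calc _ ≤ ((univ.filter fun t : F => b₀ + t • b₁ ∈ G).card : ℝ) ^ 2 *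
          (∑ y ∈ S b₀ b₁, u b₀ y) ^ 2 :=
          mul_le_mul_of_nonneg_right (pow_le_pow_left₀ hD' e2 2) (sq_nonneg _)
      _ = (∑ y ∈ S b₀ b₁, T y b₀ b₁) ^ 2 := by rw [e1, mul_pow]
      _ ≤ (S b₀ b₁).card * ∑ y ∈ S b₀ b₁, T y b₀ b₁ ^ 2 := sq_sum_le_card_mul_sum_sq
      _ ≤ _ := mul_le_mul (by exact_mod_cast s2) e5 (sum_nonneg fun y _ => sq_nonneg _)
          (Nat.cast_nonneg _)
  set M : ℝ := ∑ b, ∑ y ∈ P, u b y ^ 2 with hM
  have h2 : ∑ b₀, ∑ b₁, ∑ y ∈ P, W y b₀ b₁ = Fintype.card V * M := by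
    have e1 : ∀ y ∈ P, ∑ b₀, ∑ b₁, W y b₀ b₁ = Fintype.card V * ∑ b, u b y ^ 2 := fun y hy => by
      have e2 := line h20 (U y) (fun b => u b y) (fun b hb => (hu b y hy hb).2) (h0 y hy)
      rw [← hU y hy, Nat.cast_mul, mul_comm (Nat.card (U y) : ℝ), ← e2]
    rw [hM, sum_comm (s := univ) (t := P), mul_sum, ← sum_congr rfl e1,
      sum_comm (s := P) (t := univ)]
    exact sum_congr rfl fun b₀ _ => sum_comm
  have h3 : ∑ b ∈ G, ∑ y ∈ P, u b y ^ 2 = M :=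
    sum_subset (subset_univ G) fun b _ hb => sum_eq_zero fun y hy => by
      rw [not_not.1 fun h => hb (hu b y hy h).1]
      simp
  have h4 : ∀ b₀ ∈ G, (Fintype.card F - D : ℝ) ^ 2 * (c₀ * Fintype.card V * ∑ y ∈ P, u b₀ y ^ 2) ≤
      Fintype.card F * d * ∑ b₁, ∑ y ∈ P, W y b₀ b₁ := fun b₀ hb₀ => by
    refine (mul_le_mul_of_nonneg_left (hc b₀ hb₀) (sq_nonneg _)).trans ?_
    rw [mul_left_comm, mul_assoc]
    refine mul_le_mul_of_nonneg_left ?_ (Nat.cast_nonneg _)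
    rw [mul_sum, mul_sum]
    exact (sum_le_sum (h1 b₀ hb₀)).trans (sum_le_sum_of_subset_of_nonneg (subset_univ _)
      fun b _ _ => mul_nonneg (Nat.cast_nonneg _) (sum_nonneg fun y _ => hW0 y b₀ b))
  have h5 := (sum_le_sum h4).trans (sum_le_sum_of_subset_of_nonneg (subset_univ G)
    fun b₀ _ _ => mul_nonneg (by positivity)
      (sum_nonneg fun b _ => sum_nonneg fun y _ => hW0 y b₀ b))
  rw [← mul_sum, ← mul_sum, ← mul_sum, h2, h3] at h5
  have hV : (0 : ℝ) < Fintype.card V := by exact_mod_cast Fintype.card_pos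
  have hM0 : 0 ≤ M := sum_nonneg fun b _ => sum_nonneg fun y _ => sq_nonneg _
  have h6 : M = 0 := by
    by_contra h
    have := mul_lt_mul_of_pos_right hq (mul_pos hV (lt_of_le_of_ne hM0 (Ne.symm h)))
    nlinarith
  intro b y hy
  have h7 := (sum_eq_zero_iff_of_nonneg fun b _ => sum_nonneg fun y _ => sq_nonneg _).1 h6 b
    (mem_univ b)
  exact pow_eq_zero_iff two_ne_zero |>.1
    ((sum_eq_zero_iff_of_nonneg fun y _ => sq_nonneg _).1 h7 y hy)

end Pool.Agent.P.MP_12d50c_ag
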