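import Pool.Agent.P.MP_12d50c_ag.If3

/-!
Compatible weights on the smooth curves of one degree come from a weight on the surface.
-/

open MvPolynomial

namespace Pool.Agent.P.MP_12d50c_ag

namespace L2A

variable {k : Type} [Field k] {N : ℕ}

theorem formF_zero {F : Subfield k} {m : ℕ} : formF (0 : Mon N m → F) = 0 := by
  simp [form]

/-- The forms vanishing at a point. -/
def U (F : Subfield k) (m : ℕ) (y : NP k N) : Submodule F (Mon N m → F) where
  carrier := {c | aeval y.1 (formF c) = 0}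
  add_mem' {a b} ha hb := by
    have h := formF_add_smul a b 1
    rw [one_smul] at h
    change aeval y.1 (formF (a + b)) = 0
    rw [h, map_add, map_mul, show aeval y.1 (formF a) = 0 from ha,
      show aeval y.1 (formF b) = 0 from hb, mul_zero, add_zero]
  zero_mem' := by
    change aeval y.1 (formF (0 : Mon N m → F)) = 0
    rw [formF_zero, map_zero]
  smul_mem' t b hb := by
    have h := formF_add_smul 0 b t
    rw [zero_add, formF_zero, zero_add] at h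
    change aeval y.1 (formF (t • b)) = 0
    rw [h, map_mul, show aeval y.1 (formF b) = 0 from hb, mul_zero]

theorem mem_U {F : Subfield k} {m : ℕ} {y : NP k N} {c : Mon N m → F} :
    c ∈ U F m y ↔ aeval y.1 (formF c) = 0 := Iff.rfl

theorem span_eq (a b : PP k N) {t : k} (ht : t ≠ 0) :
    Ideal.span {a, a + C t * b} = Ideal.span {a, b} := by
  refine le_antisymm (Ideal.span_le.2 ?_) (Ideal.span_le.2 ?_)
  · rintro x (rfl | rfl)
    · exact Ideal.mem_span_pair.2 ⟨1, 0, by ring⟩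
    · exact Ideal.mem_span_pair.2 ⟨1, C t, by ring⟩
  · rintro x (rfl | rfl)
    · exact Ideal.mem_span_pair.2 ⟨1, 0, by ring⟩
    · refine Ideal.mem_span_pair.2 ⟨-C t⁻¹, C t⁻¹, ?_⟩
      have h : (C t⁻¹ * C t : PP k N) = 1 := by rw [← C_mul, inv_mul_cancel₀ ht, C_1]
      linear_combination x * h

theorem zs_eq (I : Ideal (PP k N)) (a b : PP k N) {t : k} (ht : t ≠ 0) :
    Zs I a (a + C t * b) = Zs I a b := by
  ext y
  refine and_congr_right fun _ => and_congr_right fun h => ?_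
  rw [map_add, map_mul, h, zero_add, aeval_C, mul_eq_zero, or_iff_right]
  exact ht

theorem sum_mean {α : Type} (A : Finset α) (f : α → ℝ) :
    ∑ c ∈ A, (f c - (∑ c ∈ A, f c) / A.card) = 0 := by
  rcases A.eq_empty_or_nonempty with rfl | h
  · simp
  · have h1 : (A.card : ℝ) ≠ 0 := Nat.cast_ne_zero.2 h.card_pos.ne'
    rw [Finset.sum_sub_distrib, Finset.sum_const, nsmul_eq_mul, mul_div_cancel₀ _ h1, sub_self]

theorem large (d D : ℕ) {c₀ : ℝ} (h : 0 < c₀) : ∃ M : ℕ, ∀ q : ℕ, M ≤ q →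
    D ≤ q ∧ (q * d : ℝ) < (q - D) ^ 2 * c₀ := by
  obtain ⟨M, hM⟩ := exists_nat_gt (4 * d / c₀)
  refine ⟨M + 2 * D + 1, fun q hq => ⟨by omega, ?_⟩⟩
  have h1 : (M + 2 * D + 1 : ℝ) ≤ q := by exact_mod_cast hq
  have h2 : (0 : ℝ) ≤ M := M.cast_nonneg
  have h3 : (0 : ℝ) ≤ D := D.cast_nonneg
  rw [div_lt_iff₀ h] at hM
  have h4 : 4 * (d : ℝ) < q * c₀ := hM.trans_le (mul_le_mul_of_nonneg_right (by linarith) h.le)
  have h5 : (q / 2 : ℝ) ^ 2 ≤ (q - D) ^ 2 := pow_le_pow_left₀ (by linarith) (by linarith) 2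
  have h6 : (0 : ℝ) < q := by linarith
  calc (q * d : ℝ) = q / 4 * (4 * d) := by ring
    _ < q / 4 * (q * c₀) := mul_lt_mul_of_pos_left h4 (by linarith)
    _ = (q / 2) ^ 2 * c₀ := by ring
    _ ≤ _ := mul_le_mul_of_nonneg_right h5 h.le

end L2A

open L2A in
theorem t_L2A : S_FQ → S_NE → S_NB → S_CLO → S_CNT → S_SZP → S_QF → S_L21 → S_L2A := by
  intro hFQ hNE hNB hCLO hCNT hSZP hQF hL21 k _ _ p hp _ N I m χ hloc hI hm hχ a b z ha hga hb hgb
    hz hza hzb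
  classical
  have hm0 : 0 < m := by omega
  obtain ⟨d, c₀, s₀, hd, hc₀, hQ⟩ := hQF k p N I m m hI hm0 hm
  obtain ⟨T, hT⟩ := hCLO k N I m hI
  obtain ⟨hN1, hN2⟩ := hNE k N I hI.toIsSm
  obtain ⟨z₁, hz₁, hne₁⟩ := (hN1 a m ha hm0).nontrivial.exists_ne z
  obtain ⟨z₂, hz₂, hne₂⟩ := (hN1 b m hb hm0).nontrivial.exists_ne z
  obtain ⟨M, hM⟩ := large d (T.sup totalDegree) hc₀
  obtain ⟨hF1, -, hF3, -⟩ := hFQ k p
  obtain ⟨Sa, hSa, hSa'⟩ := exists_ratP a
  obtain ⟨Sb, hSb, hSb'⟩ := exists_ratP b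
  obtain ⟨SI, hSI, hSI'⟩ := hF3 N I
  obtain ⟨s, F, hs, hF, hsub⟩ := hF1 hloc
    (Set.range z.1 ∪ Set.range z₁.1 ∪ Set.range z₂.1 ∪ Sa ∪ Sb ∪ SI)
    ((((((Set.finite_range _).union (Set.finite_range _)).union (Set.finite_range _)).union
      hSa).union hSb).union hSI) (s₀ + M)
  simp only [Set.union_subset_iff] at hsub
  obtain ⟨⟨⟨⟨⟨r0, r1⟩, r2⟩, ra⟩, rb⟩, rI⟩ := hsub
  have hfin : Finite F := hF.finite
  let _ : Fintype F := Fintype.ofFinite F
  have hcard : Fintype.card F = (p ^ s) ^ 2 := by rw [← Nat.card_eq_fintype_card, hF.card]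
  have hMq : M ≤ Fintype.card F := by
    have h1 : s < p ^ s := Nat.lt_pow_self hp.out.one_lt
    have h2 : p ^ s ≤ (p ^ s) ^ 2 := Nat.le_self_pow two_ne_zero _
    omega
  have hRI := hSI' F rI
  let P : Finset (NP k N) := (finite_ratPt F).toFinset.filter fun y => On I y.1
  have hP : ∀ y, y ∈ P ↔ RatPt F y ∧ On I y.1 := fun y => by simp [P]
  let G : Finset (Mon N m → F) := Finset.univ.filter fun c =>
    Good I (formF c) ∧ 2 ≤ (P.filter fun y => c ∈ U F m y).card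
  have hG : ∀ c, c ∈ G ↔ Good I (formF c) ∧ 2 ≤ (P.filter fun y => c ∈ U F m y).card :=
    fun c => by simp only [G, Finset.mem_filter, Finset.mem_univ, true_and]
  let Sp : (Mon N m → F) → Finset (Mon N m → F) := fun b₀ =>
    Finset.univ.filter fun c => Split I F (formF b₀) (formF c)
  have hSp : ∀ b₀ c, c ∈ Sp b₀ ↔ Split I F (formF b₀) (formF c) :=
    fun b₀ c => by simp only [Sp, Finset.mem_filter, Finset.mem_univ, true_and]
  let S : (Mon N m → F) → (Mon N m → F) → Finset (NP k N) := fun b₀ b₁ =>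
    P.filter fun y => b₀ ∈ U F m y ∧ b₁ ∈ U F m y
  have hS : ∀ b₀, ∀ b₁ ∈ Sp b₀, ∀ y, y ∈ S b₀ b₁ ↔ y ∈ Zs I (formF b₀) (formF b₁) := by
    intro b₀ b₁ h y
    rw [Finset.mem_filter, hP]
    exact ⟨fun h1 => ⟨h1.1.2, h1.2⟩, fun h1 => ⟨⟨(((hSp _ _).1 h).2 y h1).1, h1.1⟩, h1.2⟩⟩
  let A : NP k N → Finset (Mon N m → F) := fun y =>
    Finset.univ.filter fun c => c ∈ G ∧ c ∈ U F m y
  let mean : NP k N → ℝ := fun y => (∑ c ∈ A y, (χ (formF c) y : ℝ)) / (A y).card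
  let u : (Mon N m → F) → NP k N → ℝ := fun c y =>
    if c ∈ G ∧ c ∈ U F m y then (χ (formF c) y : ℝ) - mean y else 0
  have hu : ∀ c y, c ∈ G → c ∈ U F m y → u c y = (χ (formF c) y : ℝ) - mean y :=
    fun c y h1 h2 => if_pos ⟨h1, h2⟩
  have hu0 : ∀ c y, u c y ≠ 0 → c ∈ G ∧ c ∈ U F m y := fun c y h => by
    by_contra h1
    exact h (if_neg h1)
  have hQ' := fun b₀ (h : b₀ ∈ G) => hQ s F (formF b₀) (by omega) hF hRI (form_isHomogeneous _)
    ((hG _).1 h).1 (ratP_formF _)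
  have key := hL21 F (Mon N m → F) (NP k N) (U F m) P G Sp S u d (T.sup totalDegree) c₀
    ?_ (fun c y _ h => hu0 c y h) ?_ ?_ ?_ (hM _ hMq).1 (hM _ hMq).2
  · have hzP : z ∈ P := (hP z).2 ⟨fun i => r0 ⟨i, rfl⟩, hz⟩
    have fin : ∀ (a : PP k N) (z₁ : NP k N), a.IsHomogeneous m → Good I a → RatP F a →
        aeval z.1 a = 0 → RatPt F z₁ → On I z₁.1 → aeval z₁.1 a = 0 → z₁ ≠ z →
        (χ a z : ℝ) = mean z := by
      intro a z₁ h1 h2 h3 h4 h5 h6 h7 h8
      obtain ⟨c, rfl⟩ := h3.exists_formF h1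
      have h9 : c ∈ G := (hG c).2 ⟨h2, Finset.one_lt_card.2 ⟨z₁,
        Finset.mem_filter.2 ⟨(hP _).2 ⟨h5, h6⟩, h7⟩, z, Finset.mem_filter.2 ⟨hzP, h4⟩, h8⟩⟩
      have h10 := key c z hzP
      rwa [hu c z h9 h4, sub_eq_zero] at h10
    have e1 := fin a z₁ ha hga (hSa' F ra) hza (fun i => r1 ⟨i, rfl⟩) hz₁.1 hz₁.2 hne₁
    have e2 := fin b z₂ hb hgb (hSb' F rb) hzb (fun i => r2 ⟨i, rfl⟩) hz₂.1 hz₂.2 hne₂
    exact_mod_cast e1.trans e2.symm
  · intro y hy
    have h1 := (hCNT k N m F Unit (fun _ => y) (fun _ _ _ => rfl) (fun _ => ((hP y).1 hy).1)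
      (by simp)).2 hfin
    rw [Fintype.card_unit, pow_one, ← Nat.card_coe_set_eq] at h1
    rw [← Nat.card_eq_fintype_card, ← Nat.card_eq_fintype_card, ← h1]
    congr 1
    exact Nat.card_congr (Equiv.subtypeEquivRight fun c => ⟨fun h _ => h, fun h => h ()⟩)
  · intro y _
    rw [← sum_mean (A y) fun c => (χ (formF c) y : ℝ), Finset.sum_filter]
  · intro b₀ h₀ b₁ h₁
    have hsp := (hSp _ _).1 h₁
    have hcd : (S b₀ b₁).card = d := by
      rw [← (hQ' b₀ h₀).1 _ (form_isHomogeneous _) hsp, ← Set.ncard_coe_finset]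
      exact congrArg _ (Set.ext (hS b₀ b₁ h₁))
    have hmem : ∀ y ∈ S b₀ b₁, b₀ ∈ U F m y ∧ b₁ ∈ U F m y :=
      fun y hy => (Finset.mem_filter.1 hy).2
    have hmt : ∀ t : F, ∀ y ∈ S b₀ b₁, b₀ + t • b₁ ∈ U F m y := fun t y hy =>
      add_mem (hmem y hy).1 (Submodule.smul_mem _ t (hmem y hy).2)
    refine ⟨Finset.filter_subset _ _, hcd.le, hmem, ?_, fun t ht => ?_⟩
    · obtain ⟨Φ, hΦ, hΦ'⟩ := (hT _).1 ((hG _).1 h₀).1
      obtain ⟨f1, f2⟩ := (hSZP k (Mon N m)).2.2 _ (fun s => (b₁ s : k)) Φ hΦ'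
      refine le_trans ?_ (f2.trans (Finset.le_sup (f := totalDegree) hΦ))
      refine Set.ncard_le_ncard_of_injOn (fun t : F => (t : k)) (fun t ht => ?_)
        Subtype.val_injective.injOn f1
      by_contra h2
      refine ht ((hG _).2 ⟨(hT _).2 ⟨Φ, hΦ, h2⟩, hd.trans (hcd.symm.le.trans ?_)⟩)
      exact Finset.card_le_card fun y hy =>
        Finset.mem_filter.2 ⟨(Finset.mem_filter.1 hy).1, hmt t y hy⟩
    · rcases eq_or_ne t 0 with rfl | ht0
      · rw [zero_smul, add_zero]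
      have ht1 : (t : k) ≠ 0 := fun h => ht0 (Subtype.ext h)
      have hzs : Zs I (formF b₀) (formF (b₀ + t • b₁)) = Zs I (formF b₀) (formF b₁) := by
        rw [formF_add_smul, zs_eq _ _ _ ht1]
      have hcop : Cop I (formF b₀) (formF (b₀ + t • b₁)) :=
        hN2 _ _ m m (form_isHomogeneous _) (form_isHomogeneous _) hm0 hm0 (hzs ▸ hsp.1.fin)
      have hsp' : Split I F (formF b₀) (formF (b₀ + t • b₁)) := ⟨hcop, fun y hy => by
        have h3 := hsp.2 y (hzs ▸ hy)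
        refine ⟨h3.1, ?_⟩
        rw [formF_add_smul, inter, span_eq _ _ ht1]
        exact h3.2⟩
      have h4 := hχ _ _ (form_isHomogeneous _) ((hG _).1 h₀).1 (form_isHomogeneous _)
        ((hG _).1 ht).1 hcop
      have h5 := fun χ' => (hNB k N I hI).2.2.2.2.2 χ' F _ _ (S b₀ b₁) hsp'
        fun y => hzs ▸ hS b₀ b₁ h₁ y
      rw [h5, h5] at h4
      rw [Finset.sum_congr rfl fun y hy => hu _ y ht (hmt t y hy),
        Finset.sum_congr rfl fun y hy => hu _ y h₀ (hmem y hy).1, Finset.sum_sub_distrib,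
        Finset.sum_sub_distrib]
      congr 1
      exact_mod_cast h4.symm
  · intro b₀ h₀
    have h1 := (hQ' b₀ h₀).2 (Sp b₀) (P.filter fun y => b₀ ∈ U F m y) (S b₀) (u b₀) (hSp b₀)
      (fun y => by rw [Finset.mem_filter, hP, and_assoc, mem_U]) (hS b₀) ((hG _).1 h₀).2
    rw [Finset.sum_filter_of_ne fun y _ h => (hu0 b₀ y fun h' => h (by rw [h']; simp)).2,
      Nat.card_eq_fintype_card] at h1
    rw [hcard]
    exact_mod_cast h1

end Pool.Agent.P.MP_12d50c_ag
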