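import Pool.Agent.P.MP_12d50c_ag.If3

/-!
A weight on a smooth curve is determined by its sums over smooth sections.
-/

open MvPolynomial Function

namespace Pool.Agent.P.MP_12d50c_ag

namespace L2B

/-- Projection to the kernel of the pairing with `E`. -/
def prj {T J : Type} [CommRing T] [Fintype J] (E lam : J → T) : (J → T) →ₗ[T] (J → T) where
  toFun w := w - (∑ s, w s * E s) • lam
  map_add' w w' := by
    simp only [Pi.add_apply, add_mul, Finset.sum_add_distrib, add_smul]; abel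
  map_smul' t w := by
    simp only [Pi.smul_apply, smul_eq_mul, mul_assoc, ← Finset.mul_sum, RingHom.id_apply, smul_sub,
      smul_smul]

theorem prj_apply {T J : Type} [CommRing T] [Fintype J] (E lam w : J → T) (j : J) :
    prj E lam w j = w j - (∑ s, w s * E s) * lam j := rfl

theorem pair_prj {T J : Type} [CommRing T] [Fintype J] {E lam : J → T}
    (h : ∑ s, lam s * E s = 1) (w : J → T) : ∑ s, prj E lam w s * E s = 0 := by
  simp only [prj_apply, sub_mul, Finset.sum_sub_distrib, mul_assoc, ← Finset.mul_sum, h, mul_one,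
    sub_self]

theorem prj_eq {T J : Type} [CommRing T] [Fintype J] {E lam : J → T}
    (h : ∑ s, lam s * E s = 1) (w : J → T) : prj E lam w = w ↔ ∑ s, w s * E s = 0 := by
  refine ⟨fun h1 => by rw [← h1]; exact pair_prj h w, fun h1 => funext fun j => ?_⟩
  rw [prj_apply, h1, zero_mul, sub_zero]

theorem aeval_form {k : Type} [Field k] {N m : ℕ} (y : Fin (N + 1) → k) (w : Mon N m → k) :
    aeval y (form w : PP k N) = ∑ s, w s * s.1.prod fun i e => y i ^ e := by
  simp [form, aeval_monomial]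

theorem cnt {α β : Type} [DecidableEq α] (P : Finset α) (C : Finset β) (S : β → Finset α)
    (Bad : β → Prop) [DecidablePred Bad] (v : α → ℝ) (d : ℕ) (K : ℝ)
    (h1 : ∀ c ∈ C, S c ⊆ P ∧ (S c).card = d) (h2 : ∀ c ∈ C, ¬ Bad c → ∑ y ∈ S c, v y = 0)
    (h3 : ∀ y ∈ P, ((C.filter fun c => Bad c ∧ y ∈ S c).card : ℝ) ≤ K) :
    ∑ c ∈ C, (∑ y ∈ S c, v y) ^ 2 ≤ d * K * ∑ y ∈ P, v y ^ 2 := by
  have a : ∀ c ∈ C, (∑ y ∈ S c, v y) ^ 2 ≤
      ∑ y ∈ P, if Bad c ∧ y ∈ S c then d * v y ^ 2 else 0 := by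
    intro c hc
    by_cases hb : Bad c
    · have := sq_sum_le_card_mul_sum_sq (s := S c) (f := v)
      rw [(h1 c hc).2, Finset.mul_sum] at this
      refine this.trans (le_of_eq ?_)
      simp only [hb, true_and]
      rw [Finset.sum_ite_mem, Finset.inter_eq_right.2 (h1 c hc).1]
    · simp [h2 c hc hb, hb]
  refine (Finset.sum_le_sum a).trans ?_
  rw [Finset.sum_comm, Finset.mul_sum]
  refine Finset.sum_le_sum fun y hy => ?_
  rw [← Finset.sum_filter, Finset.sum_const, nsmul_eq_mul]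
  calc _ ≤ K * (d * v y ^ 2) := mul_le_mul_of_nonneg_right (h3 y hy) (by positivity)
    _ = _ := by ring

theorem bad (hEXG : S_EXG) (hCNT : S_CNT) (hSZP : S_SZP) {k : Type} [Field k] [IsAlgClosed k]
    {N m : ℕ} {I : Ideal (PP k N)} (hI : IsSurf I) (hm : 2 ≤ m)
    (T : Finset (MvPolynomial (Mon N m) k))
    (hT : ∀ w : Mon N m → k, Good I (form w) ↔ ∃ Φ ∈ T, eval w Φ ≠ 0) (F : Subfield k) [Finite F]
    (y : NP k N) (hy : RatPt F y) (hy' : On I y.1) :
    {c : Mon N m → F | aeval y.1 (formF c) = 0 ∧ ¬ Good I (formF c)}.ncard * Nat.card F *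
      Nat.card F ≤ T.sup totalDegree * Nat.card (Mon N m → F) := by
  obtain ⟨c1, c2⟩ := hCNT k N m F Unit (fun _ => y) (fun _ _ _ => rfl) (fun _ => hy) (by simp)
  obtain ⟨lam, hl⟩ := c1 fun _ => 1
  have c3 := c2 inferInstance
  simp only [forall_const, Fintype.card_unit, pow_one] at c3
  let E : Mon N m → F := fun s => ⟨s.1.prod fun i e => y.1 i ^ e,
    prod_mem fun i _ => pow_mem (hy i) _⟩
  have ev : ∀ c : Mon N m → F, aeval y.1 (formF c) = ((∑ s, c s * E s : F) : k) := fun c => by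
    rw [aeval_form]; push_cast; rfl
  have ev0 : ∀ c : Mon N m → F, aeval y.1 (formF c) = 0 ↔ ∑ s, c s * E s = 0 := fun c => by
    rw [ev]; exact ZeroMemClass.coe_eq_zero
  have l1 : ∑ s, lam s * E s = 1 := Subtype.ext (by rw [← ev]; exact hl ())
  have l2 : ∑ s, (lam s : k) * (E s : k) = 1 := by exact_mod_cast congrArg Subtype.val l1
  have co : ∀ c : Mon N m → F, (fun j => (prj E lam c j : k)) =
      prj (fun j => (E j : k)) (fun j => (lam j : k)) fun j => (c j : k) := fun c => by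
    funext j
    rw [prj_apply, prj_apply]; push_cast; rfl
  obtain ⟨b, b1, b2, b3, -⟩ := (hEXG k N I ∅ hI Set.finite_empty).2 y hy' (Set.notMem_empty _) m hm
  rw [← form_coeff b1] at b2 b3
  obtain ⟨Φ, f1, f2⟩ := (hT _).1 b2
  obtain ⟨s1, s2, -⟩ := hSZP k (Mon N m)
  obtain ⟨Ψ, g1, g2⟩ := s2 (prj (fun j => (E j : k)) fun j => (lam j : k)) Φ
  have g3 : Ψ ≠ 0 := by
    rintro rfl
    have := g2 fun s => coeff s.1 b
    rw [(prj_eq l2 _).2 (by rw [aeval_form] at b3; exact b3), map_zero] at this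
    exact f2 this.symm
  have s3 := s1 F (prj E lam).toAddMonoidHom Ψ (fun c => ¬ Good I (formF c))
    (fun c => (prj_eq l1 _).2 (pair_prj l1 c)) g3 (fun c hc => by
      rw [g2, ← co]
      by_contra hn
      exact hc ((hT _).2 ⟨Φ, f1, hn⟩))
  simp only [LinearMap.toAddMonoidHom_coe, prj_eq l1, ← ev0] at s3
  rw [← c3, ← mul_assoc]
  exact Nat.mul_le_mul_right _ (s3.trans (Nat.mul_le_mul_right _
    (g1.trans (Finset.le_sup (f := totalDegree) f1))))

end L2B

open L2B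

theorem t_L2B : S_FQ → S_NE → S_EXG → S_NB → S_CLO → S_CNT → S_SZP → S_QF → S_L2B := by
  intro hFQ hNE hEXG hNB hCLO hCNT hSZP hQF k _ _ p hp _ N I n m a D hk hI hn hm ha hg H z z1 z2
  classical
  obtain ⟨d, c₀, s₀, -, hc, hQ⟩ := hQF k p N I n m hI hn hm
  obtain ⟨T, hT⟩ := hCLO k N I m hI
  obtain ⟨z', ⟨z3, z4⟩, z5⟩ := ((hNE k N I hI.toIsSm).1 a n ha hn).exists_notMem_finite
    (Set.finite_singleton z)
  obtain ⟨q1, -, q3, -⟩ := hFQ k p
  obtain ⟨S₀, S1, S2⟩ := q3 N I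
  obtain ⟨s₁, hs₁⟩ := exists_nat_gt (d * (T.sup totalDegree : ℕ) / c₀)
  obtain ⟨s, F, f1, f2, f3⟩ := q1 hk (S₀ ∪ Set.range z.1 ∪ Set.range z'.1 ∪ (↑a.coeffs ∪ {0}))
    (((S1.union (Set.finite_range _)).union (Set.finite_range _)).union
      ((Finset.finite_toSet _).union (Set.finite_singleton _))) (max s₀ s₁)
  simp only [Set.union_subset_iff] at f3
  obtain ⟨⟨⟨r1, r2⟩, r3⟩, r4, r5⟩ := f3
  have := f2.finite
  have hR : RatP F a := fun s => by
    by_cases h : coeff s a = 0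
    · rw [h]; exact zero_mem _
    · exact r4 (coeff_mem_coeffs s h)
  obtain ⟨Q1, Q2⟩ := hQ s F a ((le_max_left _ _).trans f1) f2 (S2 F r1) ha hg hR
  have hP : {y : NP k N | RatPt F y ∧ On I y.1 ∧ aeval y.1 a = 0}.Finite :=
    ((Set.Finite.pi' fun _ : Fin (N + 1) => (F : Set k).toFinite).preimage
      Subtype.val_injective.injOn).subset fun y hy => hy.1
  let C : Finset (Mon N m → F) := (Set.toFinite {c | Split I F a (formF c)}).toFinset
  let S : (Mon N m → F) → Finset (NP k N) := fun c =>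
    hP.toFinset.filter fun y => y ∈ Zs I a (formF c)
  have hC : ∀ c, c ∈ C ↔ Split I F a (formF c) := fun c => Set.Finite.mem_toFinset _
  have hS : ∀ c ∈ C, ∀ y, y ∈ S c ↔ y ∈ Zs I a (formF c) := fun c hc y => by
    simp only [S, Finset.mem_filter, Set.Finite.mem_toFinset, and_iff_right_iff_imp]
    exact fun h => ⟨(((hC c).1 hc).2 y h).1, h.1, h.2.1⟩
  have m1 : z ∈ hP.toFinset := hP.mem_toFinset.2 ⟨fun i => r2 ⟨i, rfl⟩, z1, z2⟩
  have m2 : z' ∈ hP.toFinset := hP.mem_toFinset.2 ⟨fun i => r3 ⟨i, rfl⟩, z3, z4⟩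
  have key := Q2 C hP.toFinset S (fun y => D y) hC (fun y => hP.mem_toFinset) hS
    (Finset.one_lt_card.2 ⟨z', m2, z, m1, z5⟩)
  set q : ℝ := ((p : ℝ) ^ s) ^ 2 with hq
  set V : ℝ := (Nat.card (Mon N m → F) : ℝ) with hV
  set D₀ : ℝ := ((T.sup totalDegree : ℕ) : ℝ) with hD
  have hq1 : (s₁ : ℝ) < q := by
    have h1 : s < p ^ s := Nat.lt_pow_self hp.out.one_lt
    have h2 : p ^ s ≤ (p ^ s) ^ 2 := Nat.le_self_pow (by norm_num) _
    have h3 : s₁ < (p ^ s) ^ 2 := by have := (le_max_right _ _).trans f1; omega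
    rw [hq]; exact_mod_cast h3
  have q0 : 0 < q := (Nat.cast_nonneg _).trans_lt hq1
  have V0 : 0 < V := by rw [hV]; exact_mod_cast Nat.card_pos
  have main := cnt hP.toFinset C S (fun c => ¬ Good I (formF c)) (fun y => D y) d
    (D₀ * V / q ^ 2) (fun c hc => ⟨Finset.filter_subset _ _, by
      rw [← Q1 _ (form_isHomogeneous _) ((hC c).1 hc), ← Set.ncard_coe_finset]
      congr 1
      exact Set.ext (hS c hc)⟩)
    (fun c hc hb => by
      have h1 := (hNB k N I hI).2.2.2.2.2 D F a _ (S c) ((hC c).1 hc) (hS c hc)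
      rw [H _ (form_isHomogeneous _) (not_not.1 hb) ((hC c).1 hc).1] at h1
      exact_mod_cast h1.symm)
    (fun y hy => by
      have h0 := hP.mem_toFinset.1 hy
      have h1 := bad hEXG hCNT hSZP hI (by omega) T hT F y h0.1 h0.2.1
      rw [f2.card] at h1
      have h2 : (C.filter fun c => ¬ Good I (formF c) ∧ y ∈ S c).card ≤
          {c : Mon N m → F | aeval y.1 (formF c) = 0 ∧ ¬ Good I (formF c)}.ncard := by
        rw [← Set.ncard_coe_finset]
        refine Set.ncard_le_ncard (fun c hc => ?_)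
        obtain ⟨h3, h4, h5⟩ := Finset.mem_filter.1 hc
        exact ⟨((hS c h3 y).1 h5).2.2, h4⟩
      have h3 := (Nat.mul_le_mul_right _ (Nat.mul_le_mul_right _ h2)).trans h1
      rw [le_div_iff₀ (by positivity), sq, ← mul_assoc, hq, hD, hV]
      exact_mod_cast h3)
  rw [div_lt_iff₀ hc] at hs₁
  set M := ∑ y ∈ hP.toFinset, (D y : ℝ) ^ 2 with hM
  have M0 : 0 ≤ M := Finset.sum_nonneg fun _ _ => sq_nonneg _
  have h1 : c₀ * V * M ≤ q * (d * (D₀ * V / q ^ 2) * M) :=
    key.trans (mul_le_mul_of_nonneg_left main q0.le)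
  have h2 : q * (d * (D₀ * V / q ^ 2) * M) = d * D₀ / q * (V * M) := by field_simp
  have h3 : d * D₀ / q < c₀ := by
    rw [div_lt_iff₀ q0]; nlinarith
  have h4 : M ≤ 0 := by
    by_contra hn
    have := mul_lt_mul_of_pos_right h3 (mul_pos V0 (not_le.1 hn))
    linarith
  have h5 := Finset.single_le_sum (f := fun y => (D y : ℝ) ^ 2) (fun _ _ => sq_nonneg _) m1
  have h6 : (D z : ℝ) ^ 2 = 0 := le_antisymm (h5.trans h4) (sq_nonneg _)
  exact_mod_cast pow_eq_zero_iff (two_ne_zero) |>.1 h6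

end Pool.Agent.P.MP_12d50c_ag
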