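import Pool.Agent.P.MP_12d50c_ag.If1

/-!
Linear algebra.
-/

namespace Pool.Agent.P.MP_12d50c_ag

namespace LIN

theorem part1 (Ω : Type) [Field Ω] (σ : Type) [Fintype σ] (S : Set (σ → Ω))
    (T : Submodule Ω (σ → Ω)) (hT : ∀ δ, δ ∈ T ↔ ∀ s ∈ S, ∑ j, s j * δ j = 0) :
    (∀ v, v ∈ Submodule.span Ω S ↔ ∀ δ ∈ T, ∑ j, v j * δ j = 0) ∧
      Module.finrank Ω (Submodule.span Ω S) + Module.finrank Ω T = Fintype.card σ := by
  classical
  set B : LinearMap.BilinForm Ω (σ → Ω) := Matrix.toBilin' (1 : Matrix σ σ Ω) with hB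
  have hBv : ∀ x y, B x y = ∑ j, x j * y j := by
    intro x y
    rw [hB, Matrix.toBilin'_apply', Matrix.one_mulVec]
    rfl
  have hnd : B.Nondegenerate :=
    LinearMap.BilinForm.nondegenerate_toBilin'_iff_det_ne_zero.mpr (by simp)
  have hrefl : B.IsRefl := by
    intro x y h
    rw [hBv] at h ⊢
    rw [← h]
    exact Finset.sum_congr rfl fun j _ => mul_comm _ _
  have hTe : T = B.orthogonal (Submodule.span Ω S) := by
    ext δ
    rw [hT, LinearMap.BilinForm.mem_orthogonal_iff]
    constructor
    · intro h n hn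
      induction hn using Submodule.span_induction with
      | mem x hx => rw [hBv]; exact h x hx
      | zero => simp
      | add x y _ _ hx hy => rw [map_add, LinearMap.add_apply, hx, hy, add_zero]
      | smul a x _ hx => rw [map_smul, LinearMap.smul_apply, hx, smul_zero]
    · intro h s hs
      rw [← hBv]
      exact h s (Submodule.subset_span hs)
  refine ⟨fun v => ?_, ?_⟩
  · conv_lhs => rw [← LinearMap.BilinForm.orthogonal_orthogonal hnd hrefl (Submodule.span Ω S),
      ← hTe, LinearMap.BilinForm.mem_orthogonal_iff]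
    refine forall_congr' fun δ => forall_congr' fun _ => ?_
    rw [← hBv]
    exact ⟨hrefl _ _, hrefl _ _⟩
  · have h := LinearMap.BilinForm.finrank_add_finrank_orthogonal' (B := B) (Submodule.span Ω S)
    rw [hnd.ker_eq_bot, inf_bot_eq, finrank_bot, add_zero, ← hTe,
      Module.finrank_fintype_fun_eq_card] at h
    exact h

theorem part2 (Ω : Type) [Field Ω] (σ : Type) [Fintype σ] (r : ℕ) (v : Fin r → σ → Ω) :
    ¬ LinearIndependent Ω v ↔ ∀ c : Fin r → σ, (Matrix.of fun i j => v i (c j)).det = 0 := by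
  classical
  constructor
  · intro h c
    by_contra hd
    apply h
    have h1 : LinearIndependent Ω (Matrix.of fun i j => v i (c j)).row :=
      Matrix.linearIndependent_rows_iff_isUnit.mpr
        ((Matrix.isUnit_iff_isUnit_det _).mpr (isUnit_iff_ne_zero.mpr hd))
    exact LinearIndependent.of_comp (LinearMap.funLeft Ω Ω c) h1
  · intro h hv
    set A : Matrix (Fin r) σ Ω := Matrix.of v with hA
    have hr : A.rank = r := by
      have := LinearIndependent.rank_matrix (M := A) hv
      rwa [Fintype.card_fin] at this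
    obtain ⟨κ, a, ha, hsp, hli⟩ := exists_linearIndependent' Ω A.col
    haveI : Finite κ := Finite.of_injective a ha
    haveI : Fintype κ := Fintype.ofFinite κ
    have hc : Fintype.card κ = r := by
      rw [linearIndependent_iff_card_eq_finrank_span.mp hli, Set.finrank, hsp,
        ← Matrix.rank_eq_finrank_span_cols, hr]
    let e : Fin r ≃ κ := (Fintype.equivFinOfCardEq hc).symm
    have h1 : LinearIndependent Ω (Matrix.of fun i j => v i (a (e j))).col :=
      hli.comp e e.injective
    have h2 := (Matrix.isUnit_iff_isUnit_det _).mp (Matrix.linearIndependent_cols_iff_isUnit.mp h1)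
    exact h2.ne_zero (h fun j => a (e j))

theorem part3 (K Ω : Type) [Field K] [Field Ω] [Algebra K Ω] (σ ι : Type) [Fintype σ]
    (M : ι → σ → K) (b : ι → K) (x : σ → Ω)
    (hx : ∀ i, ∑ j, algebraMap K Ω (M i j) * x j = algebraMap K Ω (b i))
    (hu : ∀ η : σ → Ω, (∀ i, ∑ j, algebraMap K Ω (M i j) * η j = 0) → η = 0) (j : σ) :
    x j ∈ (algebraMap K Ω).range := by
  obtain ⟨ρ, hρ⟩ := (Algebra.linearMap K Ω).exists_leftInverse_of_injective
    (LinearMap.ker_eq_bot.mpr (algebraMap K Ω).injective)
  have hρ' : ∀ c, ρ (algebraMap K Ω c) = c := fun c => LinearMap.congr_fun hρ c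
  have h1 : ∀ i, ∑ j, M i j * ρ (x j) = b i := by
    intro i
    have := congrArg ρ (hx i)
    rw [hρ', map_sum] at this
    rw [← this]
    refine Finset.sum_congr rfl fun j _ => ?_
    rw [← Algebra.smul_def, map_smul, smul_eq_mul]
  have h2 := hu (fun j => x j - algebraMap K Ω (ρ (x j))) fun i => by
    simp only [mul_sub, Finset.sum_sub_distrib, ← map_mul, ← map_sum, h1, hx, sub_self]
  exact ⟨ρ (x j), (sub_eq_zero.mp (congrFun h2 j)).symm⟩

end LIN

theorem t_LIN : S_LIN := ⟨LIN.part1, LIN.part2, LIN.part3⟩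

end Pool.Agent.P.MP_12d50c_ag
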