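import Pool.Agent.P.MP_12d50c_ag.If1

/-!
The local rings `locw`.
-/

open MvPolynomial

namespace Pool.Agent.P.MP_12d50c_ag

namespace LOC

variable {k : Type} [Field k] {τ : Type} {w : τ → ℕ} {L : Type} [Field L] [Algebra k L]
  {ξ : τ → L} {q : Ideal (MvPolynomial τ k)} [hq : q.IsPrime] {i : τ}

omit hq in
theorem homX (h : Ch w ξ q i) (n : ℕ) :
    IsWeightedHomogeneous w (X i ^ n : MvPolynomial τ k) n := by
  simpa [h.wt] using (isWeightedHomogeneous_X k w i).pow n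

theorem rep (h : Ch w ξ q i) (u : locw w ξ q) : ∃ d g g', IsWeightedHomogeneous w g d ∧
    IsWeightedHomogeneous w g' d ∧ g' ∉ q ∧ u * germ h g' = germ h g := by
  obtain ⟨d, g, g', h1, h2, h3, h4⟩ := u.2
  refine ⟨d, g, g', h1, h2, h3, Subtype.ext ?_⟩
  rw [MulMemClass.coe_mul, coe_germ_of_hom h h1, coe_germ_of_hom h h2, ← h4, mul_div_assoc]

theorem mem_of_zero (h : Ch w ξ q i) {f : MvPolynomial τ k} {d : ℕ}
    (hf : IsWeightedHomogeneous w f d) (h0 : germ h f = 0) : f ∈ q := by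
  have h1 := coe_germ_of_hom h hf
  rw [h0, eq_comm, ZeroMemClass.coe_zero, div_eq_zero_iff] at h1
  exact h.le ((mem_vanw_of_hom hf).2 (h1.resolve_right (pow_ne_zero _ h.ne)))

theorem unit_iff (h : Ch w ξ q i) {f : MvPolynomial τ k} {d : ℕ}
    (hf : IsWeightedHomogeneous w f d) : IsUnit (germ h f) ↔ f ∉ q := by
  constructor
  · intro hu hm
    obtain ⟨v, hv⟩ := hu.exists_right_inv
    obtain ⟨e, g, g', h1, h2, h3, h4⟩ := rep h v
    have h5 : X i ^ d * g' - f * g ∈ q :=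
      mem_of_zero h (d := d + e) ((weightedHomogeneousSubmodule k w (d + e)).sub_mem
        ((homX h d).mul h2) (hf.mul h1)) (by
        rw [map_sub, map_mul, map_mul, map_pow, germ_X, ← h4, ← mul_assoc, hv, one_pow, sub_self])
    have h6 : X i ^ d * g' ∈ q := by simpa using q.add_mem h5 (q.mul_mem_right g hm)
    exact (hq.mem_or_mem h6).elim (fun h7 => h.nm (hq.mem_of_pow_mem _ h7)) h3
  · intro hm
    have h0 : aeval ξ f ≠ 0 := fun h0 => hm (h.le ((mem_vanw_of_hom hf).2 h0))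
    refine IsUnit.of_mul_eq_one ⟨ξ i ^ d / aeval ξ f, d, X i ^ d, f, homX h d, hf, hm, by
      simp [h0]⟩ (Subtype.ext ?_)
    rw [MulMemClass.coe_mul, coe_germ_of_hom h hf]
    simp [h0, h.ne]

theorem loc (h : Ch w ξ q i) : IsLocalRing (locw w ξ q) := by
  refine IsLocalRing.of_nonunits_add fun u v hu hv huv => ?_
  obtain ⟨d, f, f', a1, a2, a3, a4⟩ := rep h u
  obtain ⟨e, g, g', b1, b2, b3, b4⟩ := rep h v
  have a5 : f ∈ q := by_contra fun hm =>
    hu (isUnit_of_mul_isUnit_left (a4 ▸ (unit_iff h a1).2 hm))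
  have b5 : g ∈ q := by_contra fun hm =>
    hv (isUnit_of_mul_isUnit_left (b4 ▸ (unit_iff h b1).2 hm))
  refine (unit_iff h ((a1.mul b2).add (a2.mul b1))).1 ?_
    (q.add_mem (q.mul_mem_right _ a5) (q.mul_mem_left _ b5))
  have e1 : germ h (f * g' + f' * g) = (u + v) * (germ h f' * germ h g') := by
    rw [map_add, map_mul, map_mul, ← a4, ← b4]
    ring
  rw [e1]
  exact huv.mul (((unit_iff h a2).2 a3).mul ((unit_iff h b2).2 b3))

theorem noeth' {R S : Type} [CommRing R] [CommRing S] [IsNoetherianRing R] (φ : R →+* S)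
    (h : ∀ u : S, ∃ g g', IsUnit (φ g') ∧ u * φ g' = φ g) : IsNoetherianRing S := by
  refine (isNoetherianRing_iff_ideal_fg _).2 fun I => ?_
  have e : (I.comap φ).map φ = I := by
    refine le_antisymm Ideal.map_comap_le fun u hu => ?_
    obtain ⟨g, g', h3, h4⟩ := h u
    refine (Ideal.mul_unit_mem_iff_mem _ h3).1 ?_
    rw [h4]
    exact Ideal.mem_map_of_mem _ (show φ g ∈ I from h4 ▸ I.mul_mem_right _ hu)
  rw [← e]
  exact Ideal.FG.map (IsNoetherian.noetherian _) φ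

theorem noeth [Finite τ] (h : Ch w ξ q i) : IsNoetherianRing (locw w ξ q) :=
  noeth' (germ h).toRingHom fun u =>
    let ⟨_, g, g', _, h2, h3, h4⟩ := rep h u
    ⟨g, g', (unit_iff h h2).2 h3, h4⟩

theorem frac (h : Ch w ξ q i) (hG : Gen k w ξ) : IsFractionRing (locw w ξ q) L := by
  refine IsFractionRing.of_field _ _ fun u => ?_
  obtain ⟨d, g, g', h1, h2, h3, h4⟩ := hG u
  refine ⟨germ h g, germ h g', ?_⟩
  change u = (germ h g : L) / (germ h g' : L)
  rw [coe_germ_of_hom h h1, coe_germ_of_hom h h2, div_div_div_cancel_right₀ (pow_ne_zero _ h.ne),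
    eq_div_iff h3, h4]

end LOC

theorem t_LOC : S_LOC := fun _ _ _ _ _ _ _ _ _ _ _ _ h =>
  ⟨LOC.loc h, LOC.noeth h, fun _ _ hf => LOC.unit_iff h hf, LOC.rep h, LOC.frac h⟩

end Pool.Agent.P.MP_12d50c_ag
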