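import Pool.Agent.P.MP_12d50c_ag.If4

/-!
Curves over a curve are irreducible polynomials over its function field.
-/

open MvPolynomial Function
open scoped IntermediateField Polynomial

namespace Pool.Agent.P.MP_12d50c_ag

namespace M1

variable {k : Type} [Field k] {N n : ℕ}

theorem aeval_line {E T : Type} [Field E] [CommRing T] [Algebra k E] [Algebra E T] [Algebra k T]
    [IsScalarTower k E T] (ξ : Fin (N + 1) → E) (θ : T) (G : RR k N 1) :
    aeval (Sum.elim (algebraMap E T ∘ ξ) ![1 - θ, θ]) G = Polynomial.aeval θ (th1 ξ G) := by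
  have h := map_aeval' ((Polynomial.aeval θ : E[X] →ₐ[E] T).restrictScalars k)
    (Sum.elim (algebraMap E E[X] ∘ ξ) ![1 - Polynomial.X, Polynomial.X]) G
  refine Eq.trans ?_ h.symm
  congr 2
  funext i
  rcases i with i | i
  · simp
  · fin_cases i <;> simp

theorem comap_vanw {D : Type} [CommRing D] [Algebra k D] (η : Ix N n → D) :
    (vanw k (wt N n) η).comap (inc n) = van k fun i => η (Sum.inl i) := by
  ext f
  rw [Ideal.mem_comap, vanw, van, vanw, RingHom.mem_ker, RingHom.mem_ker, aeval_rename]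
  rfl

theorem sum_mem_vanw {D : Type} [CommRing D] [Algebra k D] (η : Ix N n → D) :
    (∑ j, X (Sum.inr j) - 1 : RR k N n) ∈ vanw k (wt N n) η ↔ ∑ j, η (Sum.inr j) = 1 := by
  have h : IsWeightedHomogeneous (wt N n) (∑ j, X (Sum.inr j) - 1 : RR k N n) 0 :=
    (IsWeightedHomogeneous.sum _ _ _ fun j _ =>
      isWeightedHomogeneous_X k (wt N n) (Sum.inr j)).sub (isWeightedHomogeneous_one k _)
  rw [mem_vanw_of_hom h]
  simp [sub_eq_zero]

theorem X_notMem {τ D : Type} [CommRing D] [Nontrivial D] [Algebra k D] {w : τ → ℕ} {η : τ → D}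
    {i : τ} (h : η i = 1) : X i ∉ vanw k w η := by
  rw [mem_vanw_of_hom (isWeightedHomogeneous_X k w i), aeval_X, h]
  exact one_ne_zero

theorem van_map {E T : Type} [Field E] [CommRing T] [Nontrivial T] [Algebra k E] [Algebra E T]
    [Algebra k T] [IsScalarTower k E T] (ξ : Fin (N + 1) → E) :
    (van k fun i => algebraMap E T (ξ i)) = van k ξ :=
  vanw_map (IsScalarTower.toAlgHom k E T) (algebraMap E T).injective ξ

variable {E : Type} [Field E] [Algebra k E] {ξ : Fin (N + 1) → E}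

theorem mem_QP (π : E[X]) {G : RR k N 1} {d : ℕ} (hG : IsWeightedHomogeneous (wt N 1) G d) :
    G ∈ QP k ξ π ↔ π ∣ th1 ξ G := by
  rw [QP, mem_vanw_of_hom hG, aeval_line, AdjoinRoot.aeval_eq, AdjoinRoot.mk_eq_zero]

theorem adjoin_top {T : Type} [CommRing T] [Algebra E T] {θ : T}
    (h : Algebra.adjoin E {θ} = ⊤) (u : T) : u ∈ Algebra.adjoin E (Set.range ![1 - θ, θ]) := by
  have h1 : Algebra.adjoin E {θ} ≤ Algebra.adjoin E (Set.range ![1 - θ, θ]) :=
    Algebra.adjoin_mono (Set.singleton_subset_iff.2 ⟨1, rfl⟩)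
  exact h1 (h ▸ Algebra.mem_top)

theorem trdeg_one (hDM : S_DM) (h : CvD k ξ) : Algebra.trdeg k E = 1 := by
  obtain ⟨i, hi⟩ := h.one
  obtain ⟨m, h1, h2⟩ := hDM k _ 1 E ξ i h.gen rfl (hi ▸ one_ne_zero)
  rw [h.dim] at h2
  have h3 : m = 1 := by
    have h4 : ((2 : ℕ) : WithBot ℕ∞) = (m + 1 : ℕ) := h2
    have h5 : 2 = m + 1 := by exact_mod_cast h4
    omega
  rw [h1, h3, Nat.cast_one]

theorem part2 (hDM : S_DM) (hG : S_GENL) (h : CvD k ξ) (π : E[X]) (hπ : Irreducible π) :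
    ∃ Q ∈ Cv (van k ξ) 1, Q.asIdeal = QP k ξ π ∧ Q.asIdeal.comap (inc 1) = van k ξ := by
  have : Fact (Irreducible π) := ⟨hπ⟩
  obtain ⟨i, hi⟩ := h.one
  have hp : (QP k ξ π).IsPrime := by
    unfold QP
    infer_instance
  have hc : (QP k ξ π).comap (inc 1) = van k ξ := by
    rw [QP, comap_vanw]
    exact van_map (T := AdjoinRoot π) ξ
  have hs : ∑ j, ![1 - AdjoinRoot.root π, AdjoinRoot.root π] j = 1 := by simp
  have h1 : (Sum.elim (algebraMap E (AdjoinRoot π) ∘ ξ)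
      ![1 - AdjoinRoot.root π, AdjoinRoot.root π] : Ix N 1 → AdjoinRoot π) (Sum.inl i) = 1 := by
    simp [hi]
  refine ⟨⟨QP k ξ π, hp⟩, ⟨⟨hp, wHom_vanw _, sup_le (Ideal.map_le_iff_le_comap.2 hc.ge) ?_,
    i, X_notMem h1⟩, ?_⟩, rfl, hc⟩
  · rw [Ideal.span_le, Set.singleton_subset_iff]
    exact (sum_mem_vanw _).2 hs
  · have hg := hG k N 1 E (AdjoinRoot π) ξ _ hs h.gen h.one fun u =>
      ⟨u, adjoin_top AdjoinRoot.adjoinRoot_eq_top u, 1, one_mem _, one_ne_zero, mul_one u⟩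
    obtain ⟨m, h2, h3⟩ := hDM k _ (wt N 1) (AdjoinRoot π) _ (Sum.inl i) hg rfl
      (h1.trans_ne one_ne_zero)
    have : Module.Finite E (AdjoinRoot π) := (AdjoinRoot.powerBasis hπ.ne_zero).finite
    have h4 := trdeg_add_eq k E (A := AdjoinRoot π)
    rw [trdeg_one hDM h, trdeg_eq_zero, add_zero, h2] at h4
    have h5 : m = 1 := by exact_mod_cast h4.symm
    subst h5
    exact h3

theorem part3 (hEX : S_EX) (hEMB : S_EMB) (hVP : S_VP) (h : CvD k ξ)
    (Q : PrimeSpectrum (RR k N 1)) (hQ : Q ∈ Cv (van k ξ) 1)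
    (hc : Q.asIdeal.comap (inc 1) = van k ξ) :
    ∃ π : E[X], π.Monic ∧ Irreducible π ∧ Q.asIdeal = QP k ξ π := by
  obtain ⟨i, hi⟩ := h.one
  have h0 : X (Sum.inl i) ∉ Q.asIdeal := fun h0 => X_notMem (k := k) (w := 1) hi (by
    rw [← van, ← hc, Ideal.mem_comap, rename_X]
    exact h0)
  obtain ⟨L, _, _, η, h1, h2, -⟩ := hEX k _ (wt N 1) Q.asIdeal (Sum.inl i) hQ.1.hom rfl h0
  obtain ⟨ψ, hψ⟩ := hEMB k _ 1 E L ξ (fun j => η (Sum.inl j)) i h.gen rfl hi h2 (by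
    rw [← van, ← hc, ← h1, comap_vanw])
  let _ : Algebra E L := ψ.toRingHom.toAlgebra
  have : IsScalarTower k E L := IsScalarTower.of_algebraMap_eq fun c => (ψ.commutes c).symm
  have hs : ∑ j, η (Sum.inr j) = 1 := (sum_mem_vanw (k := k) η).1 (by
    rw [h1]
    exact hQ.1.le (Ideal.mem_sup_right (Ideal.subset_span rfl)))
  obtain ⟨θ, hθ⟩ : ∃ θ, η = Sum.elim (algebraMap E L ∘ ξ) ![1 - θ, θ] := by
    refine ⟨η (Sum.inr 1), funext fun j => ?_⟩
    rcases j with j | j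
    · exact (hψ j).symm
    · rw [Fin.sum_univ_two] at hs
      fin_cases j
      · exact eq_sub_of_add_eq hs
      · rfl
  subst hθ
  by_cases ht : IsAlgebraic E θ
  · refine ⟨minpoly E θ, minpoly.monic ht.isIntegral, minpoly.irreducible ht.isIntegral, ?_⟩
    rw [← h1]
    refine le_antisymm ((wHom_vanw _).le_of_hom fun f d hf hm => ?_)
      ((wHom_vanw _).le_of_hom fun f d hf hm => ?_)
    · rw [mem_QP _ hf, minpoly.dvd_iff, ← aeval_line]
      exact (mem_vanw_of_hom hf).1 hm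
    · rw [mem_vanw_of_hom hf, aeval_line, ← minpoly.dvd_iff, ← mem_QP _ hf]
      exact hm
  · have h3 := ((hVP k N 1).2 E L ξ ![1 - θ, θ] (by simp)).1
      ((algebraicIndependent_singleton_iff 0).2 ht)
    have h4 := ((hVP k N 1).1 (van k ξ) inferInstance).2
    rw [← h3, h1, hQ.2, h.dim] at h4
    have h5 : ((1 + 1 : ℕ) : WithBot ℕ∞) = ((2 : ℕ) : WithBot ℕ∞) + (1 : ℕ) := h4
    have h6 : 1 + 1 = 2 + 1 := by exact_mod_cast h5
    omega

theorem part4 (hVP : S_VP) (h : CvD k ξ) (π π' : E[X]) (h1 : π.Monic) (h2 : Irreducible π)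
    (h3 : π'.Monic) (h4 : Irreducible π') (h5 : QP k ξ π = QP k ξ π') : π = π' := by
  obtain ⟨G, d, u, hu, hG, h6⟩ := ((hVP k N 1).2 E E[X] ξ ![1 - Polynomial.X, Polynomial.X]
    (by simp)).2 h.gen h.one π (adjoin_top Polynomial.adjoin_X π)
  have h7 : G ∈ QP k ξ π := (mem_QP π hG).2 (h6 ▸ dvd_mul_left _ _)
  rw [h5, mem_QP π' hG, h6, Polynomial.algebraMap_eq, Polynomial.dvd_C_mul hu] at h7
  exact (Polynomial.eq_of_monic_of_associated h3 h1 (h4.associated_of_dvd h2 h7)).symm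

end M1

theorem t_M1 : S_EX → S_DM → S_EMB → S_VP0 → S_VP → S_GENL → S_M1 :=
  fun hEX hDM hEMB _ hVP hG _ _ _ _ _ _ _ h =>
    ⟨fun π _ _ hG => M1.mem_QP π hG, M1.part2 hDM hG h, M1.part3 hEX hEMB hVP h, M1.part4 hVP h⟩

end Pool.Agent.P.MP_12d50c_ag
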