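import Pool.Agent.P.MP_12d50c_ag.If4

/-!
Lengths on a curve times a simplex are multiplicities of polynomials.
-/

open MvPolynomial Function
open scoped Polynomial

namespace Pool.Agent.P.MP_12d50c_ag

namespace M2

theorem ord_eq {A O : Type} [CommRing A] [CommRing O] [IsDomain O] (al : A →+* O) (π g : A)
    (h0 : al π ≠ 0) (h1 : ∀ q, ¬ π ∣ q → IsUnit (al q)) (h2 : ∀ u, IsUnit u ∨ al π ∣ u)
    (h3 : ¬ IsUnit (al π)) : Ring.ord O (al g) = emultiplicity π g := by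
  have hm : (Ideal.span {al π}).IsMaximal := Ideal.isMaximal_iff.2
    ⟨fun h => h3 (isUnit_of_dvd_one (Ideal.mem_span_singleton.1 h)), fun J x _ hx hJ =>
      (Ideal.eq_top_iff_one J).1 (Ideal.eq_top_of_isUnit_mem J hJ
        ((h2 x).resolve_right fun h => hx (Ideal.mem_span_singleton.2 h)))⟩
  have o1 : Ring.ord O (al π) = 1 := Module.length_eq_one_iff.2
    (isSimpleModule_iff_isCoatom.2 (Ideal.isMaximal_def.1 hm))
  have op : ∀ n : ℕ, Ring.ord O (al (π ^ n)) = n := fun n => by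
    rw [map_pow, Ring.ord_pow (mem_nonZeroDivisors_of_ne_zero h0), o1, nsmul_one]
  by_cases hf : FiniteMultiplicity π g
  · obtain ⟨c, hc, hn⟩ := hf.exists_eq_pow_mul_and_not_dvd
    rw [hf.emultiplicity_eq_multiplicity]
    conv_lhs => rw [hc, map_mul, Ring.ord_mul_of_isUnit_right (h1 c hn), op]
  · rw [emultiplicity_eq_top.2 hf]
    refine ENat.eq_top_iff_forall_ge.2 fun n => ?_
    rw [← op]
    exact Ring.ord_le_ord_of_dvd (map_dvd al (FiniteMultiplicity.not_iff_forall.1 hf n))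

theorem aux (hL : S_LOC) (hF : S_FL) (h0 : S_VP0) (hV : S_VP) (h1 : S_M1) (k : Type) [Field k]
    (N : ℕ) (E : Type) [Field E] [Algebra k E] (L : Type) [Field L] [Algebra k L] [Algebra E L]
    [IsScalarTower k E L] (x : L) (hx : Transcendental E x) (ξ : Fin (N + 1) → E) (π g : E[X])
    (Q : PrimeSpectrum (RR k N 1)) (J : Ideal (RR k N 1)) (hξ : CvD k ξ) (hπ : Irreducible π)
    (hQ : Q.asIdeal = QP k ξ π) (hJ : WHom (wt N 1) J) (hc : cyl (van k ξ) 1 ≤ J)
    (hg : J.map (th1 ξ) = Ideal.span {g}) : len J Q.asIdeal = emultiplicity π g := by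
  obtain ⟨i, hi⟩ := hξ.one
  obtain ⟨m1, m2, -⟩ := h1 k N E ξ hξ
  set η : Ix N 1 → L := Sum.elim (algebraMap E L ∘ ξ) ![1 - x, x] with hη
  have v1 : vanw k (wt N 1) η = cyl (van k ξ) 1 :=
    ((hV k N 1).2 E L ξ ![1 - x, x] (by simp)).1 (algebraicIndependent_unique_type_iff.2 hx)
  have v2 : ∀ q : E[X], ∃ (G : RR k N 1) (d : ℕ) (u : E), u ≠ 0 ∧
      IsWeightedHomogeneous (wt N 1) G d ∧ th1 ξ G = Polynomial.C u * q := fun q =>
    ((hV k N 1).2 E E[X] ξ ![1 - Polynomial.X, Polynomial.X] (by simp)).2 hξ.gen ⟨i, hi⟩ q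
      (Algebra.adjoin_mono (s := {Polynomial.X})
        (Set.singleton_subset_iff.2 (Set.mem_range_self (1 : Fin 2)))
        (Polynomial.adjoin_X (R := E) ▸ Algebra.mem_top))
  have nu : ∀ u : E, u ≠ 0 → IsUnit (Polynomial.C u) := fun u hu =>
    Polynomial.isUnit_C.2 hu.isUnit
  have e0 : ∀ f : PP k N, th1 ξ (inc 1 f) = Polynomial.C (aeval ξ f) := fun f => by
    rw [th1, th, aeval_rename]
    exact (map_aeval' (Polynomial.CAlgHom : E →ₐ[k] E[X]) ξ f).symm
  have mq : ∀ G d, IsWeightedHomogeneous (wt N 1) G d → (G ∈ Q.asIdeal ↔ π ∣ th1 ξ G) :=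
    fun G d hG => hQ ▸ m1 π G d hG
  have ni : ∀ (f : PP k N) d, f.IsHomogeneous d → aeval ξ f ≠ 0 → inc 1 f ∉ Q.asIdeal :=
    fun f d hf hn h => hπ.not_isUnit (isUnit_of_dvd_unit
      (e0 f ▸ (mq _ d ((h0 k N 1).2.1 f d hf)).1 h) (nu _ hn))
  have h : Ch (wt N 1) η Q.asIdeal (Sum.inl i) := by
    refine ⟨?_, rfl, ?_⟩
    · obtain ⟨Q', a, b, -⟩ := m2 π hπ
      rw [v1, hQ, ← b]
      exact a.1.le
    · simpa using ni (X i) 1 (isHomogeneous_X k i) (by simp [hi])
  have e1 : ∀ f, aeval η f = Polynomial.aeval x (th1 ξ f) := fun f => by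
    refine Eq.trans ?_ (map_aeval' ((Polynomial.aeval x : E[X] →ₐ[E] L).restrictScalars k) _ f).symm
    congr 2
    funext j
    rcases j with j | j
    · simp [hη]
    · fin_cases j <;> simp [hη]
  have e2 : ∀ f, (germ h f : L) = Polynomial.aeval x (th1 ξ f) := fun f => by
    rw [coe_germ, ← e1]
    simp [hη, hi]
  have hm : ∀ q : E[X], Polynomial.aeval x q ∈ locw (wt N 1) η Q.asIdeal := fun q => by
    have hX : x ∈ locw (wt N 1) η Q.asIdeal := by
      have := (germ h (X (Sum.inr 1))).2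
      rw [e2] at this
      simpa [th] using this
    induction q using Polynomial.induction_on' with
    | add p q hp hq => rw [map_add]; exact add_mem hp hq
    | monomial n a =>
      rw [Polynomial.aeval_monomial]
      refine mul_mem ?_ (pow_mem hX n)
      obtain ⟨d, f, f', a1, a2, a3, a4⟩ := hξ.gen a
      refine ⟨d, inc 1 f, inc 1 f', (h0 k N 1).2.1 f d a1, (h0 k N 1).2.1 f' d a2,
        ni f' d a2 a3, ?_⟩
      rw [e1, e1, e0, e0, Polynomial.aeval_C, Polynomial.aeval_C, ← map_mul, a4]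
  set al : E[X] →+* locw (wt N 1) η Q.asIdeal :=
    (Polynomial.aeval x : E[X] →ₐ[E] L).toRingHom.codRestrict _ hm with hal
  have e3 : ∀ f, germ h f = al (th1 ξ f) := fun f => Subtype.ext (e2 f)
  have e4 : J.map (germ h) = (J.map (th1 ξ)).map al := by
    refine le_antisymm (Ideal.map_le_iff_le_comap.2 fun f hf => ?_)
      (Ideal.map_le_iff_le_comap.2 (Ideal.map_le_iff_le_comap.2 fun f hf => ?_))
    · rw [Ideal.mem_comap, e3]
      exact Ideal.mem_map_of_mem _ (Ideal.mem_map_of_mem _ hf)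
    · rw [Ideal.mem_comap, Ideal.mem_comap, ← e3]
      exact Ideal.mem_map_of_mem _ hf
  obtain ⟨_, -, l1, l2, -⟩ := hL k _ (wt N 1) L η Q.asIdeal _ h
  have f1 := (hF k _ (wt N 1) L η Q.asIdeal _ h (hQ ▸ wHom_vanw _)).2 J hJ
  rw [v1, sup_eq_right.2 hc, e4, hg, Ideal.map_span, Set.image_singleton] at f1
  rw [← f1]
  refine ord_eq al π g (fun a => hπ.ne_zero (transcendental_iff.1 hx π (congrArg Subtype.val a)))
    (fun q hq => ?_) (fun u => ?_) fun a => ?_
  · obtain ⟨G, d, u, a, b, c⟩ := v2 q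
    have := (l1 G d b).2 fun m => hq ((nu u a).dvd_mul_left.1 (c ▸ (mq G d b).1 m))
    rw [e3, c, map_mul] at this
    exact isUnit_of_mul_isUnit_right this
  · obtain ⟨d, f, f', a, b, c, e⟩ := l2 u
    by_cases m : f ∈ Q.asIdeal
    · refine Or.inr (((l1 f' d b).2 c).dvd_mul_right.1 ?_)
      rw [e, e3]
      exact map_dvd al ((mq f d a).1 m)
    · exact Or.inl (isUnit_of_mul_isUnit_left (e ▸ (l1 f d a).2 m))
  · obtain ⟨G, d, u, a', b, c⟩ := v2 π
    refine (l1 G d b).1 ?_ ((mq G d b).2 (c ▸ dvd_mul_left _ _))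
    rw [e3, c, map_mul]
    exact ((nu u a').map al).mul a

end M2

theorem t_M2 : S_LOC → S_FL → S_VP0 → S_VP → S_M1 → S_M2 :=
  fun hL hF h0 hV h1 k _ N E _ _ ξ π g Q J =>
    M2.aux hL hF h0 hV h1 k N E (RatFunc E) RatFunc.X RatFunc.transcendental_X ξ π g Q J

end Pool.Agent.P.MP_12d50c_ag
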