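import Pool.Agent.P.MP_12d50c_ag.If4

/-!
The boundary of a curve in `V(p) × Δ^1` is the divisor of a function.
-/

open MvPolynomial Function

namespace Pool.Agent.P.MP_12d50c_ag

namespace M3

theorem len_eq {R : Type} [CommRing R] {J J' q q' : Ideal R} [q.IsPrime] [q'.IsPrime]
    (h : J = J') (h' : q = q') : len J q = len J' q' := by
  subst h h'
  rfl

theorem dim_lt {R : Type} [CommRing R] {P P' : Ideal R} [P.IsPrime] (h : P < P') :
    ringKrullDim (R ⧸ P') + 1 ≤ ringKrullDim (R ⧸ P) := by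
  obtain ⟨a, h1, h2⟩ := SetLike.exists_of_lt h
  refine ringKrullDim_succ_le_of_surjective (Ideal.Quotient.factor h.le)
    (Ideal.Quotient.factor_surjective h.le) (r := Ideal.Quotient.mk P a)
    (mem_nonZeroDivisors_of_ne_zero fun h0 => h2 (Ideal.Quotient.eq_zero_iff_mem.1 h0)) ?_
  rw [Ideal.Quotient.factor_mk, Ideal.Quotient.eq_zero_iff_mem]
  exact h1

theorem eq_of_dim {R : Type} [CommRing R] {P P' : Ideal R} [P.IsPrime] (h : P ≤ P')
    (h1 : ringKrullDim (R ⧸ P) = 2) (h2 : ringKrullDim (R ⧸ P') = 2) : P = P' := by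
  by_contra h3
  have h4 := dim_lt (lt_of_le_of_ne h h3)
  rw [h1, h2] at h4
  exact absurd h4 (by decide)

theorem dim_comap {R S : Type} [CommRing R] [CommRing S] (f : R →+* S) (hf : Surjective f)
    (p : Ideal S) : ringKrullDim (R ⧸ p.comap f) = ringKrullDim (S ⧸ p) :=
  ringKrullDim_eq_of_ringEquiv (RingEquiv.ofBijective (Ideal.quotientMap p f le_rfl)
    ⟨Ideal.quotientMap_injective, Ideal.quotientMap_surjective hf⟩)

theorem two_of (d : WithBot ℕ∞) (h1 : 1 + 1 ≤ d) (h2 : d + 1 ≤ 2 + 1) : d = 2 := by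
  induction d using WithBot.recBotCoe with
  | bot => exact absurd h1 (by decide)
  | coe d =>
    induction d using ENat.recTopCoe with
    | top => exact absurd h2 (by decide)
    | coe d =>
      have h3 : 1 + 1 ≤ d := by
        have h5 : (((1 + 1 : ℕ) : ℕ∞) : WithBot ℕ∞) ≤ ((d : ℕ∞) : WithBot ℕ∞) := h1
        exact ENat.natCast_le_natCast.1 (WithBot.coe_le_coe.1 h5)
      have h4 : d + 1 ≤ 2 + 1 := by
        have h5 : (((d + 1 : ℕ) : ℕ∞) : WithBot ℕ∞) ≤ (((2 + 1 : ℕ) : ℕ∞) : WithBot ℕ∞) := h2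
        exact ENat.natCast_le_natCast.1 (WithBot.coe_le_coe.1 h5)
      obtain rfl : d = 2 := by omega
      rfl

theorem compl_eq (j : Fin 2) : ({j.succAbove 0}ᶜ : Set (Fin 2)) = {j} := by
  ext i
  revert i j
  decide

variable {k : Type} [Field k] {N : ℕ}

theorem vtx_inr {n : ℕ} (v j : Fin (n + 1)) :
    vtx v (X (Sum.inr j) : RR k N n) = (Pi.single v 1 : Fin (n + 1) → PP k N) j := by
  simp [vtx]

theorem vtx_inl {n : ℕ} (v : Fin (n + 1)) (i : Fin (N + 1)) :
    vtx v (X (Sum.inl i) : RR k N n) = X i := by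
  simp [vtx]

theorem main (hNS : S_NS0) (hLS : S_LS) (hAS : S_AS) (hVP0 : S_VP0) (hVP : S_VP) (hCL : S_CL)
    (hF : S_FINC) [IsAlgClosed k] {I : Ideal (PP k N)} {Q : PrimeSpectrum (RR k N 1)}
    {G : RR k N 1} (y : NP k N) {z : PrimeSpectrum (RR k N 0)} {p : PrimeSpectrum (PP k N)}
    (hp : p ∈ Cu I) (hG : Gen1 p.asIdeal Q G) (hz : z.asIdeal = cyl (van k y.1) 0)
    (V : PrimeSpectrum (RR k N 1)) (hV : V.asIdeal = cyl (van k y.1) 1) (j : Fin 2)
    (hv : vtx (j.succAbove 0) G ∉ p.asIdeal) :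
    (ordI p.asIdeal y (vtx (j.succAbove 0) G)).toNat =
      (len (Q.asIdeal.map (smap j.succAbove)) z.asIdeal).toNat +
        (len (cyl p.asIdeal 1 ⊔ Ideal.span {G}) V.asIdeal).toNat := by
  classical
  obtain ⟨hA, -, -, hC, hD⟩ := hVP0 k N 1
  obtain ⟨-, -, -, -, hsv, hsk⟩ := hA 0 j.succAbove
  obtain ⟨hsurj, hker⟩ := hsk Fin.succAbove_right_injective
  set v := j.succAbove 0 with hvdef
  obtain ⟨hinc, -, hcyl⟩ := hD v
  set x : RR k N 1 := X (Sum.inr j) with hx
  set J := cyl p.asIdeal 1 ⊔ Ideal.span {G} with hJ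
  have hcm : ∀ q : Ideal (PP k N), q.comap (vtx v) = cyl q 1 ⊔ Ideal.span {x} := fun q => by
    rw [(hcyl q).2, hvdef, compl_eq, Set.image_singleton]
  have hvs : Surjective (vtx v : RR k N 1 →ₐ[k] PP k N) := fun f => ⟨_, hinc f⟩
  let f : RR k N 1 →+* PP k N := (vtx v : RR k N 1 →ₐ[k] PP k N)
  let g : RR k N 1 →+* RR k N 0 := (smap j.succAbove : RR k N 1 →ₐ[k] RR k N 0)
  let n : Ideal (RR k N 1) := (van k y.1).comap f
  have hn : n = V.asIdeal ⊔ Ideal.span {x} := by rw [hV]; exact hcm _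
  have hpp := p.isPrime
  have hcp := (hVP k N 1).1 p.asIdeal hpp
  have hcpp := hcp.1
  have hdc : ringKrullDim (RR k N 1 ⧸ cyl p.asIdeal 1) = 2 + 1 := by
    rw [hcp.2, hp.2.2]; rfl
  have hdn : ringKrullDim (RR k N 1 ⧸ n) = 1 := (dim_comap f hvs _).trans (hNS.1 k N y)
  have hdV : ringKrullDim (RR k N 1 ⧸ V.asIdeal) = 2 := by
    rw [hV, ((hVP k N 1).1 (van k y.1) inferInstance).2, hNS.1 k N y]; rfl
  have hdQ : ringKrullDim (RR k N 1 ⧸ Q.asIdeal) = 2 := hG.cv.2
  -- step A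
  have hAq : len (Q.asIdeal.map (smap j.succAbove)) z.asIdeal =
      len (Q.asIdeal ⊔ Ideal.span {x}) n := by
    refine (hLS _ _ g Q.asIdeal z.asIdeal hsurj).trans (len_eq ?_ ?_)
    · congr 1
      refine hker.trans ?_
      rw [Fin.range_succAbove, compl_compl, Set.image_singleton]
    · have h0 := (((hVP0 k N 0).2.2.2.2 0).2.2 (van k y.1)).2
      have h1 : ({0}ᶜ : Set (Fin (0 + 1))) = ∅ := by
        ext i
        revert i
        decide
      rw [h1, Set.image_empty, Ideal.span_empty, sup_bot_eq] at h0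
      rw [hz, ← h0]
      ext a
      exact iff_of_eq (congrArg (· ∈ van k y.1) (hsv 0 a))
  -- step B
  have hB : ordI p.asIdeal y (vtx v G) = len (J ⊔ Ideal.span {x}) n := by
    refine Eq.trans (len_eq ?_ rfl) ((hLS _ _ f J (van k y.1) hvs).trans (len_eq ?_ rfl))
    · rw [hJ, Ideal.map_sup, Ideal.map_span, Set.image_singleton]
      exact congrArg (· ⊔ _) (hcyl _).1.symm
    · have h1 : RingHom.ker f = cyl ⊥ 1 ⊔ Ideal.span {x} := hcm ⊥
      have h2 : cyl (⊥ : Ideal (PP k N)) 1 ≤ J :=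
        le_sup_of_le_left (sup_le_sup_right (Ideal.map_mono bot_le) _)
      rw [h1, ← sup_assoc, sup_eq_left.2 h2]
  have hGc : G ∉ cyl p.asIdeal 1 := fun h =>
    hv (show G ∈ p.asIdeal.comap (vtx v) from (hcm _).ge (Ideal.mem_sup_left h))
  have hGJ : G ∈ J := Ideal.mem_sup_right (Ideal.mem_span_singleton_self G)
  have hdim : ∀ P : Ideal (RR k N 1), P.IsPrime → J ≤ P → P < n →
      ringKrullDim (RR k N 1 ⧸ P) = 2 := fun P _ h1 h2 => by
    have h3 := dim_lt h2
    have h4 := dim_lt (P := cyl p.asIdeal 1) (P' := P)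
      (lt_of_le_of_ne (le_sup_left.trans h1) fun h => hGc (h ▸ h1 hGJ))
    rw [hdn] at h3
    rw [hdc] at h4
    exact two_of _ h3 h4
  have hJh : WHom (wt N 1) J := (hC _ hp.1).sup (wHom_span fun a ha => by
    rw [Set.mem_singleton_iff.1 ha]; exact hG.hom)
  have hcl : ∀ P : PrimeSpectrum (RR k N 1), J ≤ P.asIdeal → P.asIdeal < n → P = Q ∨ P = V :=
    fun P h1 h2 => by
      have hPp := P.isPrime
      obtain ⟨P₀, h3, h4⟩ := Ideal.exists_minimalPrimes_le h1
      have h5 := h3.1.1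
      have h6 := hdim P.asIdeal hPp h1 h2
      have h7 : P₀ = P.asIdeal := eq_of_dim h4 (hdim P₀ h5 h3.1.2 (h4.trans_lt h2)) h6
      have h8 : P ∈ Cv p.asIdeal 1 :=
        ⟨⟨hPp, h7 ▸ hJh.minimalPrimes h3, le_sup_left.trans h1, y.piv, fun h => y.X_piv_notMem
          (by rw [← vtx_inl v]; exact h2.le h)⟩, h6⟩
      rcases (hCL k N p.asIdeal).2.2 inferInstance P h8 with ⟨p', h9, h10⟩ | ⟨y', -, h10⟩
      · have h11 := ((hF k N p.asIdeal).1 p ⟨hp.1, le_rfl, hp.2.2⟩).2.2.2.1 p' h9 h9.2.1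
        exact Or.inl (hG.uniq P h8 (by rw [← h10, h11]) (h1 hGJ))
      · have h11 : van k y'.1 ≤ van k y.1 := by
          rw [← (hcyl (van k y'.1)).1, ← h10]
          exact Ideal.map_le_iff_le_comap.2 h2.le
        refine Or.inr (PrimeSpectrum.ext ?_)
        rw [h10, hV, NP.eq_of_van_le h11]
  have hJQ : J ≤ Q.asIdeal := by
    by_contra h
    have h1 := hG.one
    rw [len_eq_zero_iff.2 h] at h1
    exact zero_ne_one h1
  have hxQ : x ∉ Q.asIdeal := fun h => by
    have h1 : p.asIdeal.comap f ≤ Q.asIdeal :=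
      (hcm _).le.trans (sup_le (le_sup_left.trans hJQ) ((Ideal.span_singleton_le_iff_mem _).2 h))
    have h2 := eq_of_dim h1 ((dim_comap f hvs _).trans hp.2.2) hdQ
    exact hv (show G ∈ p.asIdeal.comap f from h2 ▸ hJQ hGJ)
  have hxV : x ∉ V.asIdeal := fun h => by
    have h1 : vtx j x ∈ van k y.1 := by
      rw [← ((hD j).2.2 (van k y.1)).1, ← hV]
      exact Ideal.mem_map_of_mem _ h
    rw [hx, vtx_inr, Pi.single_eq_same] at h1
    exact Ideal.IsPrime.ne_top inferInstance ((Ideal.eq_top_iff_one _).2 h1)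
  have hQV : Q ≠ V := fun h => by
    have h1 : van k y.1 ≤ p.asIdeal := by
      rw [← hG.under, h, hV]
      exact Ideal.map_le_iff_le_comap.1 le_sup_left
    have h2 := ringKrullDim_le_of_surjective _ (Ideal.Quotient.factor_surjective h1)
    rw [hp.2.2, hNS.1 k N y] at h2
    exact absurd h2 (by decide)
  have hreg : ∀ a, x * a ∈ J → ∃ s, s ∉ n ∧ s * a ∈ J := fun a ha => by
    refine ⟨1, fun h => Ideal.IsPrime.ne_top inferInstance ((Ideal.eq_top_iff_one n).2 h), ?_⟩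
    obtain ⟨c, hc, b, hb, h1⟩ := Submodule.mem_sup.1 ha
    obtain ⟨u, rfl⟩ := Ideal.mem_span_singleton'.1 hb
    have hx' : x ∈ p.asIdeal.comap f :=
      (hcm _).ge (Ideal.mem_sup_right (Ideal.mem_span_singleton_self x))
    have h2 : u * G ∈ p.asIdeal.comap f := by
      rw [← sub_eq_iff_eq_add'.2 h1.symm]
      exact sub_mem (Ideal.mul_mem_right _ _ hx') ((hcm _).ge (Ideal.mem_sup_left hc))
    have h3 : u ∈ p.asIdeal.comap f :=
      ((Ideal.comap_isPrime f p.asIdeal).mem_or_mem h2).resolve_right hv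
    obtain ⟨c', hc', b', hb', h4⟩ := Submodule.mem_sup.1 ((hcm _).le h3)
    obtain ⟨u', rfl⟩ := Ideal.mem_span_singleton'.1 hb'
    have h5 : x * (a - u' * G) ∈ cyl p.asIdeal 1 := by
      have h6 : x * (a - u' * G) = c + c' * G := by
        rw [mul_sub, ← h1, ← h4]; ring
      rw [h6]
      exact add_mem hc (Ideal.mul_mem_right _ _ hc')
    have h6 := (hcpp.mem_or_mem h5).resolve_left fun h => hxQ (hJQ (Ideal.mem_sup_left h))
    rw [one_mul, ← sub_add_cancel a (u' * G)]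
    exact add_mem (Ideal.mem_sup_left h6) (Ideal.mul_mem_left _ _ hGJ)
  rw [hAq, hB]
  by_cases hJV : J ≤ V.asIdeal
  · rw [hAS _ J n x {Q, V} (fun P h1 h2 => by simpa using hcl P h1 h2) ?_ ?_ hreg,
      Finset.sum_pair hQV, hG.one, len_eq hn.symm rfl, len_self]
    · simp
    · intro P hP
      rcases Finset.mem_insert.1 hP with rfl | hP
      · exact ⟨hJQ, hxQ⟩
      · rw [Finset.mem_singleton.1 hP]
        exact ⟨hJV, hxV⟩
    · have h1 : ∀ P ∈ ({Q, V} : Finset _), ringKrullDim (RR k N 1 ⧸ P.asIdeal) = 2 := by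
        intro P hP
        rcases Finset.mem_insert.1 hP with rfl | hP
        · exact hdQ
        · rw [Finset.mem_singleton.1 hP]
          exact hdV
      exact fun P hP P' hP' h => PrimeSpectrum.ext (eq_of_dim h (h1 P hP) (h1 P' hP'))
  · rw [hAS _ J n x {Q} (fun P h1 h2 => Finset.mem_singleton.2
      ((hcl P h1 h2).resolve_right fun h => hJV (h ▸ h1))) ?_ ?_ hreg,
      Finset.sum_singleton, hG.one, len_eq_zero_iff.2 hJV]
    · simp
    · intro P hP
      rw [Finset.mem_singleton.1 hP]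
      exact ⟨hJQ, hxQ⟩
    · intro P hP P' hP' _
      rw [Finset.mem_singleton.1 hP, Finset.mem_singleton.1 hP']

end M3

theorem t_M3 : S_NS0 → S_LS → S_AS → S_VP0 → S_VP → S_CL → S_FINC → S_M3 := by
  intro hNS hLS hAS hVP0 hVP hCL hF k _ _ N I Q G y z p hp hG h0 h1 hz
  let V : PrimeSpectrum (RR k N 1) := ⟨_, ((hVP k N 1).1 (van k y.1) inferInstance).1⟩
  have e0 := M3.main hNS hLS hAS hVP0 hVP hCL hF y hp hG hz V rfl 0 h1
  have e1 := M3.main hNS hLS hAS hVP0 hVP hCL hF y hp hG hz V rfl 1 h0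
  have e2 : (0 : Fin 2).succAbove 0 = 1 := rfl
  have e3 : (1 : Fin 2).succAbove 0 = 0 := rfl
  rw [e2] at e0
  rw [e3] at e1
  rw [bdA, Fin.sum_univ_two, e0, e1]
  simp [sub_eq_add_neg]

end Pool.Agent.P.MP_12d50c_ag
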