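import Pool.Agent.P.MP_12d50c_ag.If2

/-!
Simple branching gives the full symmetric group.
-/

open WithZero Function
open Pool.Agent.P.MP_6f117a_ag (Place FF Model Reg)
open scoped IntermediateField Polynomial Nat

namespace Pool.Agent.P.MP_12d50c_ag

namespace MONO

variable {k K : Type} [Field k] [Field K] [Algebra k K]

theorem rank_one {t : K} (h : k⟮t⟯ = ⊤) : Module.finrank k⟮t⟯ K = 1 := by
  rw [h]
  exact IntermediateField.finrank_top

theorem param {t t' : K} (ht : Transcendental k t) (h : k⟮t⟯ = ⊤)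
    (h' : t' = t⁻¹ ∨ ∃ t₀, t' = t - algebraMap k K t₀) : Transcendental k t' ∧ k⟮t'⟯ = ⊤ := by
  have hm := IntermediateField.mem_adjoin_simple_self k t'
  have key : t ∈ k⟮t'⟯ → k⟮t'⟯ = ⊤ := fun a => by
    rw [eq_top_iff, ← h]
    exact IntermediateField.adjoin_simple_le_iff.2 a
  rcases h' with rfl | ⟨t₀, rfl⟩
  · refine ⟨fun a => ht (IsAlgebraic.inv_iff.1 a), key ?_⟩
    simpa using inv_mem hm
  · refine ⟨fun a => ht ?_, key ?_⟩
    · have := a.isIntegral.add (isIntegral_algebraMap (x := t₀))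
      rw [sub_add_cancel] at this
      exact this.isAlgebraic
    · have := add_mem hm (IntermediateField.algebraMap_mem k⟮t - algebraMap k K t₀⟯ t₀)
      rwa [sub_add_cancel] at this

theorem uniq {t : K} (ht : Transcendental k t) (h : k⟮t⟯ = ⊤) (hM : Model k t) {P Q : Place k K}
    (hP : P.v t < 1) (hQ : Q.v t < 1) : P = Q := by
  classical
  obtain ⟨Z, h1, h2⟩ := hM.fund
  have h0 : t ≠ 0 := fun e => ht (e ▸ isAlgebraic_zero)
  have h3 : ∀ R ∈ Z, 1 ≤ -log (R.v t) := fun R hR => by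
    have := (log_lt_log (by simpa using h0) one_ne_zero).2 ((h1 R).1 hR)
    rw [log_one] at this
    omega
  by_contra hne
  have h4 : ∑ R ∈ ({P, Q} : Finset (Place k K)), -log (R.v t) ≤ ∑ R ∈ Z, -log (R.v t) := by
    refine Finset.sum_le_sum_of_subset_of_nonneg ?_ fun R hR _ => zero_le_one.trans (h3 R hR)
    intro R hR
    rcases Finset.mem_insert.1 hR with rfl | hR
    · exact (h1 _).2 hP
    · rw [Finset.mem_singleton.1 hR]
      exact (h1 _).2 hQ
  rw [Finset.sum_pair hne, h2, rank_one h] at h4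
  have := h3 P ((h1 _).2 hP)
  have := h3 Q ((h1 _).2 hQ)
  omega

variable {M : Type} [Field M] [Algebra k M] [Algebra K M] [IsScalarTower k K M]

/-- the place moved by an automorphism -/
def mv (P : Place k M) (g : M ≃ₐ[K] M) : Place k M where
  v := P.v.comap (g : M →+* M)
  surj := P.surj.comp g.surjective
  triv c := by
    have : g (algebraMap k M c) = algebraMap k M c := by
      rw [IsScalarTower.algebraMap_apply k K M, AlgEquiv.commutes]
    change P.v (g (algebraMap k M c)) ≤ 1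
    rw [this]
    exact P.triv c

theorem agree {K E M : Type} [Field K] [Field E] [Field M] [Algebra K E] [Algebra K M]
    [Algebra E M] [IsScalarTower K E M] {x : E} (hx : K⟮x⟯ = ⊤) {g g' : M ≃ₐ[K] M}
    (h : g (algebraMap E M x) = g' (algebraMap E M x)) (u : E) :
    g (algebraMap E M u) = g' (algebraMap E M u) := by
  have hu : u ∈ K⟮x⟯ := hx ▸ IntermediateField.mem_top
  induction hu using IntermediateField.adjoin_induction with
  | mem y hy => rw [Set.mem_singleton_iff.1 hy, h]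
  | algebraMap c => rw [← IsScalarTower.algebraMap_apply, AlgEquiv.commutes, AlgEquiv.commutes]
  | add a b _ _ ha hb => simp only [map_add, ha, hb]
  | inv a _ ha => simp only [map_inv₀, ha]
  | mul a b _ _ ha hb => simp only [map_mul, ha, hb]

end MONO

theorem t_MONO : S_PLACE → S_PRES → S_PTR → S_PI1G → S_SW → S_MONO := by
  intro hPL hPR hPT hPI hSW k K E M _ _ _ _ _ _ _ _ _ _ _ _ _ _ _ _ _ t n x xs ht htop hx hinj hmin
    hZ
  have fK : FiniteDimensional k⟮t⟯ K := Module.finite_of_finrank_eq_succ (MONO.rank_one htop)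
  have fE : FiniteDimensional K E := Module.Finite.left K E M
  have fM : FiniteDimensional E M := Module.Finite.right K E M
  obtain ⟨ffK, ffM, -, resK, -⟩ := hPR k K M t ht fK
  have ffE : FF k E := (hPR k K E t ht fK).2.1
  have htE : Transcendental k (algebraMap K E t) :=
    (transcendental_algebraMap_iff (algebraMap K E).injective).2 ht
  obtain ⟨-, -, uE, resE, extE⟩ := hPR k E M _ htE (ffE.fin _ htE)
  have hroot : ∀ y : M, Polynomial.aeval y (minpoly K x) = 0 ↔ ∃ j, y = xs j := by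
    intro y
    rw [← Polynomial.eval_map_algebraMap, hmin, Polynomial.eval_prod, Finset.prod_eq_zero_iff]
    simp [sub_eq_zero]
  have hmap : ∀ (g : M ≃ₐ[K] M) (y : M), Polynomial.aeval y (minpoly K x) = 0 →
      ∃ j, g y = xs j := fun g y hy => (hroot _).1 (by
    rw [Polynomial.aeval_algHom_apply g, hy, map_zero])
  have hx0 : Polynomial.aeval (algebraMap E M x) (minpoly K x) = 0 := by
    rw [Polynomial.aeval_algebraMap_apply, minpoly.aeval, map_zero]
  choose ρ hρ using fun (g : M ≃ₐ[K] M) (i : Fin n) => hmap g (xs i) ((hroot _).2 ⟨i, rfl⟩)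
  have hg : ∀ i, ∃ g : M ≃ₐ[K] M, g (algebraMap E M x) = xs i := fun i =>
    minpoly.exists_algEquiv_of_root' (Algebra.IsAlgebraic.isAlgebraic _) (by
      rw [minpoly.algebraMap_eq (algebraMap E M).injective]
      exact (hroot _).2 ⟨i, rfl⟩)
  choose γ hγ using hg
  let act : MulAction (M ≃ₐ[K] M) (Fin n) :=
    { smul := ρ
      one_smul := fun i => hinj (hρ 1 i).symm
      mul_smul := fun g h i => hinj (by
        change xs (ρ (g * h) i) = xs (ρ g (ρ h i))
        rw [← hρ, ← hρ, ← hρ]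
        rfl) }
  have htr : MulAction.IsPretransitive (M ≃ₐ[K] M) (Fin n) := ⟨fun i j =>
    ⟨γ j * (γ i)⁻¹, hinj (by
      change xs (ρ _ i) = xs j
      rw [← hρ, ← hγ i, ← hγ j, AlgEquiv.mul_apply]
      exact congrArg _ ((γ i).symm_apply_apply _))⟩⟩
  have hstab : ∀ (P : Place k M) (g : M ≃ₐ[K] M), (∀ y, P.v (g y) = P.v y) →
      MulAction.toPermHom (M ≃ₐ[K] M) (Fin n) g = 1 ∨
        (MulAction.toPermHom (M ≃ₐ[K] M) (Fin n) g).IsSwap := by
    intro P g hP
    have h1 : ∃ t' : K, (t' = t⁻¹ ∨ ∃ t₀, t' = t - algebraMap k K t₀) ∧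
        P.v (algebraMap K M t') < 1 := by
      rcases le_or_gt (P.v (algebraMap K M t)) 1 with a | a
      · obtain ⟨c, hc⟩ := (hPL k M).2.2.2.2.2.2.1 P _ a
        refine ⟨_, Or.inr ⟨c, rfl⟩, ?_⟩
        rwa [map_sub, ← IsScalarTower.algebraMap_apply]
      · refine ⟨_, Or.inl rfl, ?_⟩
        rw [map_inv₀, map_inv₀]
        exact inv_lt_one_of_one_lt₀ a
    obtain ⟨t', ht', hv⟩ := h1
    obtain ⟨tr', top'⟩ := MONO.param ht htop ht'
    obtain ⟨Z, hZ1, hZ2⟩ := hZ t' ht'
    choose ψ hψ using fun i => resE (MONO.mv P (γ i))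
    have hψ' : ∀ i u, P.v (γ i (algebraMap E M u)) < 1 ↔ (ψ i).v u < 1 := hψ
    refine hSW n _ ψ Z _ hZ1 (fun P1 hP1 => ?_) fun i => ?_
    · obtain ⟨P2, hP2⟩ := extE P1
      obtain ⟨Q, hQ⟩ := resK P
      obtain ⟨Q2, hQ2⟩ := resK P2
      have e : Q = Q2 := MONO.uniq tr' top' ((hPL k K).1 t' tr') ((hQ _).1 hv) ((hQ2 _).1 (by
        rw [IsScalarTower.algebraMap_apply K E M]
        exact (hP2 _).2 (hZ2 P1 hP1)))
      obtain ⟨h, hh⟩ := hPT k K M t P P2 ht fun u => by rw [hQ, hQ2, e]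
      obtain ⟨i, hi⟩ := hmap h _ hx0
      refine ⟨i, uE _ _ fun u => ?_⟩
      rw [← hψ', ← hP2, hh, MONO.agree hx (hi.trans (hγ i).symm) u]
    · refine uE _ _ fun u => ?_
      have e : γ (ρ g i) (algebraMap E M x) = (g * γ i) (algebraMap E M x) := by
        rw [hγ, ← hρ, AlgEquiv.mul_apply, hγ]
      change (ψ (ρ g i)).v u < 1 ↔ _
      rw [← hψ', ← hψ', MONO.agree hx e u, AlgEquiv.mul_apply, hP]
  have hsurj := surjective_of_isSwap_of_isPretransitive'
    {g : M ≃ₐ[K] M | MulAction.toPermHom (M ≃ₐ[K] M) (Fin n) g = 1 ∨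
      (MulAction.toPermHom (M ≃ₐ[K] M) (Fin n) g).IsSwap} (fun _ h => h)
    (hPI k K M t _ ht htop fun P g hP => Subgroup.subset_closure (hstab P g hP))
  intro σ
  obtain ⟨g, hg⟩ := hsurj σ
  exact ⟨g, fun i => by rw [hρ, ← hg]; rfl⟩

end Pool.Agent.P.MP_12d50c_ag
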