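import Pool.Agent.P.MP_12d50c_ag.If3

/-! Smooth curves, additivity of intersection cycles. -/

open MvPolynomial

namespace Pool.Agent.P.MP_12d50c_ag

namespace NB

variable {k : Type} [Field k] [IsAlgClosed k] {N : ℕ} {I : Ideal (PP k N)}

theorem supp (hINT : S_INT) (hI : IsSm 2 I) (χ : NP k N → ℚ) {h g : PP k N} (H : Cop I h g) :
    (Function.support fun y => χ y * ((inter I y h g).toNat : ℚ)) ⊆ Zs I h g := by
  intro y hy
  by_contra hn
  obtain ⟨e, he⟩ := H.hl
  obtain ⟨e', he'⟩ := H.hr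
  have h0 := ((hINT k N I hI).1 h g e e' y he he').2 hn
  simp [h0] at hy

theorem eq_sum (hINT : S_INT) (hI : IsSm 2 I) (χ : NP k N → ℚ) {h g : PP k N} (H : Cop I h g)
    (S : Finset (NP k N)) (hS : Zs I h g ⊆ S) :
    wsum I χ h g = ∑ y ∈ S, χ y * ((inter I y h g).toNat : ℚ) :=
  finsum_eq_sum_of_support_subset _ ((supp hINT hI χ H).trans hS)

end NB

theorem t_NB : S_NE → S_INT → S_AV → S_EXG → S_NB := by
  intro hNE hINT hAV hEXG k _ _ N I hI
  classical
  have hs : IsSm 2 I := hI.toIsSm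
  refine ⟨fun H n hH hH' hn => ?_, fun a n _ hg haI => ?_, fun χ h g g' H H' => ?_,
    fun χ χ' h g H => ?_, fun χ χ' h g H e => ?_, fun χ F h g S H hS => ?_⟩
  · have h1 : ∀ h : H, ∃ T : Set (NP k N), T.Finite ∧
        ∀ (g : PP k N) (e' : ℕ), g.IsHomogeneous e' → (∀ y ∈ T, aeval y.1 g ≠ 0) →
          Cop I h.1 g := fun h => by
      obtain ⟨h2, e, he⟩ := hH' h.1 h.2
      obtain ⟨T, t1, -, t2⟩ := hAV k N I h.1 e ∅ hs he h2 Set.finite_empty
      exact ⟨T, t1, t2⟩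
    choose T t1 t2 using h1
    have : Finite H := hH.to_subtype
    obtain ⟨a, a1, a2, a3⟩ := (hEXG k N I (⋃ h, T h) hI (Set.finite_iUnion t1)).1 n hn
    exact ⟨a, a1, a2, fun h hh => t2 ⟨h, hh⟩ a n a1 fun y hy => a3 y (Set.mem_iUnion.2 ⟨_, hy⟩)⟩
  · obtain ⟨y, hy, -⟩ := ((hNE k N I hs).1 (X 0) 1 (isHomogeneous_X k 0) one_pos).nonempty
    exact hg y hy (sing_of_mem hy haI)
  · obtain ⟨H'', e⟩ := (hINT k N I hs).2.2.1 h g g' H H'
    have hf : (Zs I h g ∪ Zs I h g' ∪ Zs I h (g * g')).Finite := (H.fin.union H'.fin).union H''.fin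
    rw [NB.eq_sum hINT hs χ H hf.toFinset (fun y hy => by simp [hy]),
      NB.eq_sum hINT hs χ H' hf.toFinset (fun y hy => by simp [hy]),
      NB.eq_sum hINT hs χ H'' hf.toFinset (fun y hy => by simp [hy]), ← Finset.sum_add_distrib]
    refine Finset.sum_congr rfl fun y _ => ?_
    rw [e y, ENat.toNat_add ((hINT k N I hs).2.1 h g y H) ((hINT k N I hs).2.1 h g' y H')]
    push_cast
    ring
  · rw [NB.eq_sum hINT hs _ H H.fin.toFinset (fun y hy => by simp [hy]),
      NB.eq_sum hINT hs χ H H.fin.toFinset (fun y hy => by simp [hy]),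
      NB.eq_sum hINT hs χ' H H.fin.toFinset (fun y hy => by simp [hy]), ← Finset.sum_sub_distrib]
    exact Finset.sum_congr rfl fun y _ => by rw [Pi.sub_apply, sub_mul]
  · rw [NB.eq_sum hINT hs χ H H.fin.toFinset (fun y hy => by simp [hy]),
      NB.eq_sum hINT hs χ' H H.fin.toFinset (fun y hy => by simp [hy])]
    exact Finset.sum_congr rfl fun y hy => by rw [e y (by simpa using hy)]
  · rw [NB.eq_sum hINT hs χ H.1 S fun y hy => (hS y).2 hy]
    exact Finset.sum_congr rfl fun y hy => by simp [(H.2 y ((hS y).1 hy)).2]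

end Pool.Agent.P.MP_12d50c_ag
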