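import Pool.Agent.P.MP_12d50c_ag.If1

/-!
Two curves on a projective surface meet.
-/

open MvPolynomial

namespace Pool.Agent.P.MP_12d50c_ag

namespace NE

theorem dim_le (R A : Type) [CommRing R] [CommRing A] [Algebra R A] [Algebra.IsIntegral R A] :
    ringKrullDim A ≤ ringKrullDim R :=
  Order.krullDim_le_of_strictMono (PrimeSpectrum.comap (algebraMap R A))
    fun _ _ h => Ideal.IsIntegral.comap_lt_comap (R := R) h

variable {k : Type} [Field k] {N : ℕ}

theorem dim_quot (I : Ideal (PP k N)) {r m N₁ : ℕ} (f : Fin r → PP k N) (hm : 0 < m)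
    (h : ∀ d, N₁ ≤ d → ∀ g : PP k N, g.IsHomogeneous (d + m) →
      ∃ c : Fin r → PP k N, (∀ i, (c i).IsHomogeneous d) ∧ g - ∑ i, c i * f i ∈ I) :
    ringKrullDim (PP k N ⧸ I) ≤ r := by
  let _ : Algebra (MvPolynomial (Fin r) k) (PP k N ⧸ I) :=
    ((Ideal.Quotient.mk I).comp (aeval f : MvPolynomial (Fin r) k →ₐ[k] PP k N).toRingHom).toAlgebra
  have hs : ∀ (u : MvPolynomial (Fin r) k) (g : PP k N),
      u • Ideal.Quotient.mk I g = Ideal.Quotient.mk I (aeval f u * g) := fun u g => by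
    rw [map_mul]; rfl
  let S : Set (PP k N ⧸ I) :=
    (fun s => Ideal.Quotient.mk I (monomial s 1)) '' {s : Fin (N + 1) →₀ ℕ | s.degree ≤ N₁ + m}
  have key : ∀ d, ∀ g : PP k N, g.IsHomogeneous d →
      Ideal.Quotient.mk I g ∈ Submodule.span (MvPolynomial (Fin r) k) S := fun d => by
    induction d using Nat.strong_induction_on with
    | _ d ih =>
      intro g hg
      by_cases hd : d ≤ N₁ + m
      · rw [g.as_sum, map_sum]
        refine Submodule.sum_mem _ fun s hs' => ?_
        have e : monomial s (coeff s g) = aeval f (C (coeff s g) : MvPolynomial (Fin r) k) *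
            monomial s 1 := by rw [aeval_C, algebraMap_eq, C_mul_monomial, mul_one]
        rw [e, ← hs]
        refine Submodule.smul_mem _ _ (Submodule.subset_span ⟨s, ?_, rfl⟩)
        by_contra hn
        exact mem_support_iff.1 hs' (hg.coeff_eq_zero fun e => hn (e.trans_le hd))
      · obtain ⟨c, hc, hI⟩ := h (d - m) (by omega) g (by rwa [Nat.sub_add_cancel (by omega)])
        rw [Ideal.Quotient.eq.2 hI, map_sum]
        refine Submodule.sum_mem _ fun i _ => ?_
        rw [mul_comm, ← aeval_X (R := k) f i, ← hs]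
        exact Submodule.smul_mem _ _ (ih _ (by omega) _ (hc i))
  have : Module.Finite (MvPolynomial (Fin r) k) (PP k N ⧸ I) := by
    refine Module.finite_def.2 (Submodule.fg_def.2 ⟨S, (Finsupp.finite_of_degree_le _).image _,
      eq_top_iff.2 fun x _ => ?_⟩)
    obtain ⟨g, rfl⟩ := Ideal.Quotient.mk_surjective x
    rw [← g.sum_homogeneousComponent, map_sum]
    exact Submodule.sum_mem _ fun d _ => key d _ (homogeneousComponent_isHomogeneous d g)
  refine (dim_le (MvPolynomial (Fin r) k) _).trans_eq ?_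
  simp [ringKrullDim_eq_zero_of_field]

end NE

theorem t_NE : S_AVOID → S_FIN → S_NE := by
  intro hA hF k _ _ N I hI
  have h1 : ∀ (a : PP k N) (e : ℕ), a.IsHomogeneous e → 0 < e →
      {y : NP k N | On I y.1 ∧ aeval y.1 a = 0}.Infinite := fun a e ha he hT => by
    obtain ⟨b, hb, hb'⟩ := (hA k N _ hT).1 e
    obtain ⟨N₁, h⟩ := hF k N I 2 e ![a, b] hI.hom he (Fin.forall_fin_two.2 ⟨ha, hb⟩) fun y hy => by
      by_cases h0 : aeval y.1 a = 0
      · exact ⟨1, hb' y ⟨hy, h0⟩⟩
      · exact ⟨0, h0⟩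
    have h2 := NE.dim_quot I _ he h
    rw [hI.dim] at h2
    exact absurd (by exact_mod_cast h2 : 2 + 1 ≤ 2) (by omega)
  refine ⟨h1, fun a b e e' ha hb he he' hZ => ⟨⟨e, ha⟩, ⟨e', hb⟩, fun h => ?_, fun h => ?_, hZ⟩⟩
  · exact h1 b e' hb he' (hZ.subset fun y hy => ⟨hy.1, hy.1 a h, hy.2⟩)
  · exact h1 a e ha he (hZ.subset fun y hy => ⟨hy.1, hy.2, hy.1 b h⟩)

end Pool.Agent.P.MP_12d50c_ag
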