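import Pool.Agent.P.MP_12d50c_ag.If1

/-! The dimension of a point; transfer of solutions. -/

open MvPolynomial

namespace Pool.Agent.P.MP_12d50c_ag

namespace NS0

theorem one (k : Type) [Field k] (N : ℕ) (y : NP k N) :
    ringKrullDim (PP k N ⧸ van k y.1) = 1 := by
  obtain ⟨i, hi, -⟩ := y.2
  have hs : Function.Surjective (aeval fun j => Polynomial.C (y.1 j) *
      Polynomial.X ^ (1 : Fin (N + 1) → ℕ) j : PP k N →ₐ[k] Polynomial k) := fun p =>
    ⟨Polynomial.aeval (X i) p, by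
      rw [← Polynomial.aeval_algHom_apply]
      simp [hi]⟩
  rw [van, vanw, ringKrullDim_eq_of_ringEquiv (Ideal.quotientKerAlgEquivOfSurjective hs).toRingEquiv,
    Polynomial.ringKrullDim_of_isNoetherianRing, ringKrullDim_eq_zero_of_field, zero_add]

theorem two (k : Type) [Field k] [IsAlgClosed k] (τ : Type) [Finite τ]
    (S : Set (MvPolynomial τ k)) (Ω : Type) [Field Ω] [Algebra k Ω] (x : τ → Ω)
    (h : ∀ f ∈ S, aeval x f = 0) : ∃ x' : τ → k, ∀ f ∈ S, aeval x' f = 0 := by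
  obtain ⟨M, hM, h1⟩ := Ideal.exists_le_maximal _
    (RingHom.ker_ne_top (aeval x : MvPolynomial τ k →ₐ[k] Ω))
  obtain ⟨x', rfl⟩ := isMaximal_iff_eq_vanishingIdeal_singleton.1 hM
  exact ⟨x', fun f hf => (mem_vanishingIdeal_singleton_iff x' f).1 (h1 (h f hf))⟩

end NS0

theorem t_NS0 : S_NS0 := ⟨NS0.one, NS0.two⟩

end Pool.Agent.P.MP_12d50c_ag
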