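import Pool.Agent.P.MP_12d50c_ag.If4

/-!
Homogeneous prime avoidance.
-/

open MvPolynomial Function

namespace Pool.Agent.P.MP_12d50c_ag

namespace PAV

variable {k : Type} [Field k] {N : ℕ}

theorem sep {q q' : Ideal (PP k N)} (hq : Hom q') (h : ¬ q' ≤ q) :
    ∃ (f : PP k N) (d : ℕ), f.IsHomogeneous d ∧ f ∈ q' ∧ f ∉ q := by
  by_contra hc
  apply h
  refine WHom.le_of_hom hq fun f d hf hm => ?_
  by_contra hn
  exact hc ⟨f, d, hf, hm, hn⟩

theorem one (S : Finset (PrimeSpectrum (PP k N))) (q : PrimeSpectrum (PP k N))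
    (h : ∀ q' ∈ S, Hom q'.asIdeal ∧ ¬ q'.asIdeal ≤ q.asIdeal) :
    ∃ (c : PP k N) (d : ℕ), c.IsHomogeneous d ∧ c ∉ q.asIdeal ∧ ∀ q' ∈ S, c ∈ q'.asIdeal := by
  classical
  induction S using Finset.induction_on with
  | empty =>
    exact ⟨1, 0, isHomogeneous_one _ _, (Ideal.ne_top_iff_one _).1 q.2.ne_top, by simp⟩
  | insert r S hr ih =>
    obtain ⟨c, d, h1, h2, h3⟩ := ih fun q' hq' => h q' (Finset.mem_insert_of_mem hq')
    obtain ⟨f, d', g1, g2, g3⟩ := sep (h r (Finset.mem_insert_self _ _)).1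
      (h r (Finset.mem_insert_self _ _)).2
    refine ⟨c * f, d + d', h1.mul g1, fun hm => (q.2.mem_or_mem hm).elim h2 g3, fun q' hq' => ?_⟩
    rcases Finset.mem_insert.1 hq' with rfl | hq'
    · exact Ideal.mul_mem_left _ _ g2
    · exact Ideal.mul_mem_right _ _ (h3 q' hq')

theorem two (S : Finset (PrimeSpectrum (PP k N))) (h : ∀ q ∈ S, Hom q.asIdeal ∧ Rel q.asIdeal)
    (hS : ∀ q ∈ S, ∀ q' ∈ S, q ≤ q' → q = q') (q : PrimeSpectrum (PP k N)) :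
    ∃ d : ℕ, q ∈ S → ∀ D, d ≤ D → ∃ c : PP k N, c.IsHomogeneous D ∧ c ∉ q.asIdeal ∧
      ∀ q' ∈ S, q' ≠ q → c ∈ q'.asIdeal := by
  classical
  by_cases hq : q ∈ S
  swap
  · exact ⟨0, fun h' => absurd h' hq⟩
  obtain ⟨c, d, h1, h2, h3⟩ := one (S.erase q) q fun q' hq' =>
    ⟨(h q' (Finset.mem_of_mem_erase hq')).1, fun hle =>
      Finset.ne_of_mem_erase hq' (hS q' (Finset.mem_of_mem_erase hq') q hq hle)⟩
  obtain ⟨i, hi⟩ := (h q hq).2
  refine ⟨d, fun _ D hD => ⟨c * X i ^ (D - d), ?_, fun hm => ?_, fun q' hq' hne => ?_⟩⟩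
  · have := h1.mul ((isHomogeneous_X k i).pow (D - d))
    rwa [one_mul, Nat.add_sub_cancel' hD] at this
  · exact (q.2.mem_or_mem hm).elim h2 fun h' => hi (q.2.mem_of_pow_mem _ h')
  · exact Ideal.mul_mem_right _ _ (h3 q' (Finset.mem_erase.2 ⟨hne, hq'⟩))

end PAV

theorem t_PAV : S_PAV := by
  classical
  intro k _ N S p e h hp hS
  choose d hd using PAV.two S h hS
  have hD : ∀ q ∈ S, d q ≤ S.sup d := fun q hq => Finset.le_sup hq
  obtain ⟨a, ha1, ha2, ha3⟩ := hd p hp _ (hD p hp)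
  have hc : ∀ q : PrimeSpectrum (PP k N), ∃ c : PP k N, q ∈ S →
      c.IsHomogeneous (S.sup d + e) ∧ c ∉ q.asIdeal ∧ ∀ q' ∈ S, q' ≠ q → c ∈ q'.asIdeal := by
    intro q
    by_cases hq : q ∈ S
    · obtain ⟨c, hc⟩ := hd q hq (S.sup d + e) ((hD q hq).trans (Nat.le_add_right _ _))
      exact ⟨c, fun _ => hc⟩
    · exact ⟨0, fun h' => absurd h' hq⟩
  choose c hc using hc
  refine ⟨a, ∑ q ∈ S.erase p, c q, S.sup d, ha1, ?_, ha2, ?_, fun q hq hne => ⟨ha3 q hq hne, ?_⟩⟩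
  · exact IsHomogeneous.sum _ _ _ fun q hq => (hc q (Finset.mem_of_mem_erase hq)).1
  · exact Ideal.sum_mem _ fun q hq =>
      (hc q (Finset.mem_of_mem_erase hq)).2.2 p hp (Finset.ne_of_mem_erase hq).symm
  · intro hm
    have hq' : q ∈ S.erase p := Finset.mem_erase.2 ⟨hne, hq⟩
    rw [← Finset.add_sum_erase _ _ hq'] at hm
    refine (hc q hq).2.1 ((Ideal.add_mem_iff_left _ ?_).1 hm)
    exact Ideal.sum_mem _ fun r hr =>
      (hc r (Finset.mem_of_mem_erase (Finset.mem_of_mem_erase hr))).2.2 q hq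
        (Finset.ne_of_mem_erase hr).symm

end Pool.Agent.P.MP_12d50c_ag
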