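import Pool.Agent.P.MP_12d50c_ag.If2

/-!
The discriminant at an unramified point.
-/

open WithZero Polynomial Function
open Pool.Agent.P.MP_6f117a_ag
open scoped IntermediateField

namespace Pool.Agent.P.MP_12d50c_ag

namespace PI0

variable {k E : Type} [Field k] [Field E] [Algebra k E]

/-- The function `x` has the value `c` at `P`. -/
def Val (P : Place k E) (x : E) (c : k) : Prop := P.v (x - algebraMap k E c) < 1

variable {P : Place k E} {x y : E} {c d : k}

theorem Val.le (h : Val P x c) : P.v x ≤ 1 := by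
  have := P.v.map_add_le (le_of_lt h) (P.triv c)
  rwa [sub_add_cancel] at this

theorem Val.uniq (h : Val P x c) (h' : Val P x d) : c = d := by
  by_contra hn
  have h1 := P.v.map_sub_lt h' h
  rw [sub_sub_sub_cancel_left, ← map_sub, P.v_const (sub_ne_zero.2 hn)] at h1
  exact lt_irrefl _ h1

theorem Val.const (c : k) : Val P (algebraMap k E c) c := by simp [Val]

theorem Val.add (h : Val P x c) (h' : Val P y d) : Val P (x + y) (c + d) := by
  have := P.v.map_add_lt h h'
  rwa [sub_add_sub_comm, ← map_add] at this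

theorem Val.mul (h : Val P x c) (h' : Val P y d) : Val P (x * y) (c * d) := by
  have e : x * y - algebraMap k E (c * d) =
      x * (y - algebraMap k E d) + algebraMap k E d * (x - algebraMap k E c) := by
    rw [map_mul]; ring
  rw [Val, e]
  refine P.v.map_add_lt ?_ ?_ <;> rw [map_mul]
  · exact mul_lt_one_of_nonneg_of_lt_one_right h.le zero_le h'
  · exact mul_lt_one_of_nonneg_of_lt_one_right (P.triv d) zero_le h

theorem Val.sum {ι : Type} (s : Finset ι) {x : ι → E} {c : ι → k} (h : ∀ i, Val P (x i) (c i)) :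
    Val P (∑ i ∈ s, x i) (∑ i ∈ s, c i) := by
  classical
  induction s using Finset.induction_on with
  | empty => simp [Val]
  | insert a s ha ih => rw [Finset.sum_insert ha, Finset.sum_insert ha]; exact (h a).add ih

theorem Val.aeval (h : Val P x c) (p : k[X]) : Val P (aeval x p) (p.eval c) := by
  induction p using Polynomial.induction_on with
  | C a => simpa using Val.const a
  | add p q hp hq => rw [map_add, eval_add]; exact hp.add hq
  | monomial n a ih =>
    rw [pow_succ, ← mul_assoc, map_mul, eval_mul, aeval_X, eval_X]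
    exact ih.mul h

theorem log_le {γ : ℤᵐ⁰} (h0 : γ ≠ 0) (h : γ < 1) : log γ ≤ -1 := by
  have : log γ < 0 := by rwa [log_lt_iff_lt_exp h0]
  omega

theorem one [IsAlgClosed k] {t : E} {t₀ : k} {e : ℕ} {P : Fin e → Place k E}
    (ht : Transcendental k t) (M : Model k (t - algebraMap k E t₀))
    (he : e = Module.finrank k⟮t⟯ E) (hP : Injective P) (h : ∀ a, Val (P a) t t₀) (u : E)
    (hu : Reg k t u) (hv : ∀ a, (P a).v u < 1) : Reg k t (u / (t - algebraMap k E t₀)) := by
  classical
  obtain ⟨Z, hZ, hs⟩ := M.fund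
  rw [adjoin_sub, ← he] at hs
  have h0 : ∀ Q : Place k E, Q.v (t - algebraMap k E t₀) ≠ 0 := fun Q => by
    simpa using trans_ne (trans_sub ht t₀)
  have h1 : ∀ Q ∈ Z, (1 : ℤ) ≤ -log (Q.v (t - algebraMap k E t₀)) := fun Q hQ => by
    have := log_le (h0 Q) ((hZ Q).1 hQ)
    omega
  have hsub : Finset.univ.image P ⊆ Z := fun Q hQ => by
    obtain ⟨a, -, rfl⟩ := Finset.mem_image.1 hQ
    exact (hZ _).2 (h a)
  have hc : (Finset.univ.image P).card = e := by
    rw [Finset.card_image_of_injective _ hP, Finset.card_univ, Fintype.card_fin]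
  have h2 := Finset.sum_le_sum h1
  have h3 := Finset.card_le_card hsub
  have h4 : ∑ _Q ∈ Z, (1 : ℤ) = Z.card := by simp
  have hE : Finset.univ.image P = Z := Finset.eq_of_subset_of_card_le hsub (by omega)
  have h5 := (Finset.sum_eq_sum_iff_of_le h1).1 (by omega)
  intro Q hQ
  rw [map_div₀, div_le_one₀ (zero_lt_iff.2 (h0 Q))]
  by_cases hm : Q ∈ Z
  · have h6 := h5 Q hm
    rw [← hE] at hm
    obtain ⟨a, -, rfl⟩ := Finset.mem_image.1 hm
    rcases eq_or_ne ((P a).v u) 0 with h7 | h7
    · rw [h7]; exact zero_le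
    · have := log_le h7 (hv a)
      rw [← log_le_log h7 (h0 _)]
      omega
  · exact (hu Q hQ).trans (not_lt.1 fun h7 => hm ((hZ Q).2 h7))

theorem alg (t : E) (p : k[X]) :
    algebraMap k⟮t⟯ E (aeval (IntermediateField.AdjoinSimple.gen k t) p) = aeval t p :=
  (aeval_algebraMap_apply E (IntermediateField.AdjoinSimple.gen k t) p).symm

theorem coord {t : E} {e : ℕ} (b : Module.Basis (Fin e) k⟮t⟯ E) (p : Fin e → k[X]) (j : Fin e) :
    b.repr (∑ i, aeval t (p i) * b i) j = aeval (IntermediateField.AdjoinSimple.gen k t) (p j) := by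
  rw [Finset.sum_congr rfl fun i _ => by rw [← alg t (p i), ← Algebra.smul_def],
    ← b.equivFun_symm_apply, ← b.equivFun_apply, LinearEquiv.apply_symm_apply]

theorem tr {t : E} {t₀ : k} {e : ℕ} {P : Fin e → Place k E} (ht : Transcendental k t)
    (b : Module.Basis (Fin e) k⟮t⟯ E)
    (hb : ∀ x, Reg k t x ↔ ∃ p : Fin e → k[X], x = ∑ i, aeval t (p i) * b i)
    (res : ∀ P : Place k E, P.v t ≤ 1 → ∀ x, P.v x ≤ 1 → ∃ c, Val P x c)
    (h : ∀ a, Val (P a) t t₀)
    (h1 : ∀ u, Reg k t u → (∀ a, (P a).v u < 1) → Reg k t (u / (t - algebraMap k E t₀)))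
    (w : E) (c : Fin e → k) (hw : Reg k t w) (hc : ∀ a, Val (P a) w (c a)) :
    ∃ g : k[X], Algebra.trace k⟮t⟯ E w = aeval (IntermediateField.AdjoinSimple.gen k t) g ∧
      g.eval t₀ = ∑ a, c a := by
  classical
  have hr : ∀ i, Reg k t (b i) := fun i => (hb _).2 ⟨Pi.single i 1, by
    rw [Finset.sum_eq_single i (fun j _ hj => by simp [Pi.single_eq_of_ne hj]) (by simp)]
    simp⟩
  choose V hV using fun i a => res (P a) (h a).le (b i) (hr i _ (h a).le)
  choose m hm using fun i => (hb _).1 (hw.mul (hr i))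
  have hdet : (Matrix.of V).det ≠ 0 := by
    rw [Ne, ← Matrix.exists_vecMul_eq_zero_iff]
    rintro ⟨l, hl, e⟩
    have h2 : ∀ a, Val (P a) (∑ i, aeval t (C (l i)) * b i) (∑ i, l i * V i a) := fun a =>
      Val.sum _ fun i => by rw [aeval_C]; exact (Val.const _).mul (hV i a)
    obtain ⟨p, hp⟩ := (hb _).1 (h1 _ ((hb _).2 ⟨_, rfl⟩) fun a => by
      have h3 := h2 a
      rwa [show ∑ i, l i * V i a = 0 from congrFun e a, Val, map_zero, sub_zero] at h3)
    rw [div_eq_iff (trans_ne (trans_sub ht t₀)), Finset.sum_mul] at hp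
    refine hl (funext fun j => ?_)
    have h4 : ∑ i, aeval t (C (l i)) * b i = ∑ i, aeval t (p i * (X - C t₀)) * b i :=
      hp.trans (Finset.sum_congr rfl fun i _ => by simp; ring)
    have h5 := congrArg (algebraMap k⟮t⟯ E)
      ((coord b _ j).symm.trans ((congrArg (b.repr · j) h4).trans (coord b _ j)))
    rw [alg, alg] at h5
    simpa using congrArg (Polynomial.eval t₀) (transcendental_iff_injective.1 ht h5)
  have hM : Matrix.of V * Matrix.diagonal c =
      (Matrix.of fun i j => (m i j).eval t₀) * Matrix.of V := by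
    ext i a
    rw [Matrix.mul_diagonal, Matrix.mul_apply, mul_comm]
    exact ((hc a).mul (hV i a)).uniq
      (hm i ▸ Val.sum _ fun j => ((h a).aeval (m i j)).mul (hV j a))
  refine ⟨∑ i, m i i, ?_, ?_⟩
  · rw [Algebra.trace_eq_matrix_trace b, map_sum]
    refine Finset.sum_congr rfl fun i _ => ?_
    rw [Matrix.diag_apply, Algebra.leftMulMatrix_eq_repr_mul, hm i, coord]
  · have h6 := congrArg (fun A => Matrix.trace (A * (Matrix.of V)⁻¹)) hM
    have hu := Ne.isUnit hdet
    rw [Matrix.mul_nonsing_inv_cancel_right _ _ hu, Matrix.trace_mul_comm, ← Matrix.mul_assoc,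
      Matrix.nonsing_inv_mul _ hu, Matrix.one_mul, Matrix.trace_diagonal] at h6
    rw [h6, eval_finsetSum]
    rfl

end PI0

open PI0 in
theorem t_PI0 : S_PLACE → S_PI0 := by
  intro hP k E _ _ _ _ _ t K t₀ e P ht hK he inj h
  subst hK
  have h1 := one ht ((hP k E).1 _ (trans_sub ht t₀)) he inj h
  refine ⟨h1, fun u c hu hc => ?_⟩
  subst he
  have M := (hP k E).1 t ht
  obtain ⟨b, hb⟩ := M.basis
  choose g hg hg' using fun i j => tr ht b hb M.res h h1 (u i * u j) (fun a => c i a * c j a)
    ((hu i).mul (hu j)) fun a => Val.mul (hc i a) (hc j a)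
  refine ⟨(Matrix.of g).det, ?_, ?_⟩
  · rw [← alg, Algebra.discr_def, AlgHom.map_det]
    congr 2
    ext i j
    rw [Algebra.traceMatrix_apply, Algebra.traceForm_apply, hg]
    rfl
  · rw [← coe_evalRingHom, RingHom.map_det, sq,
      ← congrArg ((Matrix.of c).det * ·) (Matrix.det_transpose (Matrix.of c)), ← Matrix.det_mul]
    congr 1
    ext i j
    exact hg' i j

end Pool.Agent.P.MP_12d50c_ag
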