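import Pool.Agent.P.MP_12d50c_ag.If2

/-!
The projective line over an algebraically closed field is simply connected.
-/

open WithZero Function Polynomial
open Pool.Agent.P.MP_6f117a_ag (Place FF Model Reg aeval_ne trans_ne trans_inv adjoin_inv)
open scoped IntermediateField Matrix

namespace Pool.Agent.P.MP_12d50c_ag

namespace PI1

variable {k E : Type} [Field k] [Field E] [Algebra k E] {t : E} {e : ℕ}

/-- Bases of the ring of functions that are regular wherever `t` is. -/
structure RB (k : Type) [Field k] [Algebra k E] (t : E) (b : Fin e → E) : Prop where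
  ind : ∀ p : Fin e → k[X], ∑ i, aeval t (p i) * b i = 0 → ∀ i, p i = 0
  gen : ∀ x, Reg k t x ↔ ∃ p : Fin e → k[X], x = ∑ i, aeval t (p i) * b i

theorem RB.reg {b : Fin e → E} (h : RB k t b) (i : Fin e) : Reg k t (b i) :=
  (h.gen _).2 ⟨Pi.single i 1, by
    rw [Finset.sum_eq_single i] <;> simp +contextual [Pi.single_eq_of_ne]⟩

theorem RB.upd {b : Fin e → E} (h : RB k t b) (q : Fin e → k[X]) (j : Fin e) {μ : k}
    (hq : q j = C μ) (hμ : μ ≠ 0) : RB k t (update b j (∑ i, aeval t (q i) * b i)) := by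
  have key : ∀ p : Fin e → k[X], ∑ i, aeval t (p i) * update b j (∑ i, aeval t (q i) * b i) i =
      ∑ i, aeval t (update p j 0 i + p j * q i) * b i := fun p => by
    have h1 : ∀ i, aeval t (p i) * update b j (∑ i, aeval t (q i) * b i) i =
        aeval t (update p j 0 i) * b i +
          if i = j then aeval t (p j) * ∑ i, aeval t (q i) * b i else 0 := fun i => by
      rcases eq_or_ne i j with rfl | hi
      · simp
      · simp [hi]
    simp only [h1, Finset.sum_add_distrib, Finset.sum_ite_eq', Finset.mem_univ, if_true, map_add,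
      map_mul, add_mul, Finset.mul_sum, mul_assoc]
  refine ⟨fun p hp i => ?_, fun x => (h.gen x).trans ⟨?_, ?_⟩⟩
  · have h1 := h.ind _ (key p ▸ hp)
    have h2 : p j = 0 := by simpa [hq, hμ] using h1 j
    rcases eq_or_ne i j with rfl | hi
    · exact h2
    · simpa [h2, hi] using h1 i
  · rintro ⟨r, rfl⟩
    refine ⟨update (fun i => r i - r j * C μ⁻¹ * q i) j (r j * C μ⁻¹), ?_⟩
    rw [key]
    refine Finset.sum_congr rfl fun i _ => ?_
    rcases eq_or_ne i j with rfl | hi
    · simp only [update_self, zero_add, hq, mul_assoc, ← C_mul, inv_mul_cancel₀ hμ, C_1, mul_one]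
    · simp [hi]
  · rintro ⟨p, rfl⟩
    exact ⟨_, key p⟩

theorem comb (Q : Place k E) {u : Fin e → E} {c l : Fin e → k}
    (h : ∀ i, Q.v (u i - algebraMap k E (c i)) < 1) (hl : ∑ i, l i * c i = 0) :
    Q.v (∑ i, algebraMap k E (l i) * u i) < 1 := by
  have h1 : ∑ i, algebraMap k E (l i) * u i =
      ∑ i, algebraMap k E (l i) * (u i - algebraMap k E (c i)) := by
    simp only [mul_sub, Finset.sum_sub_distrib, ← map_mul, ← map_sum, hl, map_zero, sub_zero]
  rw [h1]
  refine Q.v.map_sum_lt one_ne_zero fun i _ => ?_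
  rw [map_mul]
  exact (mul_le_of_le_one_left' (Q.triv _)).trans_lt (h i)

theorem aeval_inj (ht : Transcendental k t) {p q : k[X]} (h : aeval t p = aeval t q) : p = q :=
  sub_eq_zero.1 (by_contra fun h0 => aeval_ne ht h0 (by rw [map_sub, h, sub_self]))

variable [IsAlgClosed k] [FF k E]

theorem poles (hP : S_PLACE) (ht : Transcendental k t) (he : e = Module.finrank k⟮t⟯ E)
    {P : Fin e → Place k E} (hi : Injective P) (h : ∀ a, 1 < (P a).v t) :
    (∀ a, (P a).v t = exp 1) ∧ ∀ Q : Place k E, 1 < Q.v t → ∃ a, P a = Q := by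
  classical
  obtain ⟨Z, h1, h2⟩ := (hP k E).2.2.2.2.1 t ht
  have h0 : ∀ Q : Place k E, Q.v t ≠ 0 := fun Q => by simpa using trans_ne ht
  have h3 : ∀ Q ∈ Z, 0 ≤ log (Q.v t) - 1 := fun Q hQ => by
    have := (lt_log_iff_exp_lt (a := (0 : ℤ)) (h0 Q)).2 ((h1 Q).1 hQ)
    omega
  have h4 : Finset.univ.image P ⊆ Z := fun Q hQ => by
    obtain ⟨a, -, rfl⟩ := Finset.mem_image.1 hQ
    exact (h1 _).2 (h a)
  have h5 : (Finset.univ.image P).card = e := by
    rw [Finset.card_image_of_injective _ hi, Finset.card_univ, Fintype.card_fin]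
  have h6 := Finset.card_le_card h4
  have h7 : ∑ Q ∈ Z, (log (Q.v t) - 1) = e - Z.card := by
    rw [Finset.sum_sub_distrib, h2, ← he]
    simp
  have h8 := Finset.sum_nonneg h3
  have h9 := (Finset.sum_eq_zero_iff_of_nonneg h3).1 (by omega)
  refine ⟨fun a => ?_, fun Q hQ => ?_⟩
  · rw [← exp_log (h0 _), sub_eq_zero.1 (h9 _ ((h1 _).2 (h a)))]
  · have := (h1 Q).2 hQ
    rw [← Finset.eq_of_subset_of_card_le h4 (by omega)] at this
    simpa using this

/-- The discriminant of a basis is a nonzero constant. -/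
theorem discr_const (hP : S_PLACE) (h0 : S_PI0) (ht : Transcendental k t)
    (he : e = Module.finrank k⟮t⟯ E)
    (h : ∀ t₀ : k, ∃ P : Fin e → Place k E, Injective P ∧
      ∀ a, (P a).v (t - algebraMap k E t₀) < 1) {b : Fin e → E} (hb : RB k t b) :
    ∃ γ : k, γ ≠ 0 ∧ algebraMap k⟮t⟯ E (Algebra.discr k⟮t⟯ b) = algebraMap k E γ := by
  have key : ∀ t₀ : k, ∃ g : k[X], algebraMap k⟮t⟯ E (Algebra.discr k⟮t⟯ b) = aeval t g ∧
      g.eval t₀ ≠ 0 := fun t₀ => by
    obtain ⟨P, h1, h2⟩ := h t₀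
    obtain ⟨h3, h4⟩ := h0 k E t _ t₀ e P ht rfl he h1 h2
    have h5 : ∀ a, (P a).v t ≤ 1 := fun a => by
      simpa using (P a).v.map_add_le (h2 a).le ((P a).triv t₀)
    choose c hc using fun i a => (hP k E).2.2.2.2.2.2.1 (P a) (b i) (hb.reg i _ (h5 a))
    obtain ⟨g, g1, g2⟩ := h4 b c hb.reg hc
    refine ⟨g, g1, g2 ▸ pow_ne_zero 2 fun hd => ?_⟩
    obtain ⟨l, l1, l2⟩ := Matrix.exists_vecMul_eq_zero_iff.2 hd
    obtain ⟨p, hp⟩ := (hb.gen _).1 (h3 _ ((hb.gen _).2 ⟨fun i => C (l i), rfl⟩) fun a => by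
      simpa only [aeval_C] using comb (P a) (fun i => hc i a) (congrFun l2 a))
    have h6 : t - algebraMap k E t₀ ≠ 0 := by simpa using aeval_ne ht (X_sub_C_ne_zero t₀)
    rw [div_eq_iff h6] at hp
    refine l1 (funext fun i => ?_)
    have h7 := hb.ind (fun i => C (l i) - p i * (X - C t₀)) (by
      simp only [map_sub, map_mul, sub_mul, Finset.sum_sub_distrib, hp, aeval_X,
        Finset.sum_mul]
      simp only [aeval_C, mul_right_comm, sub_self]) i
    simpa using congrArg (Polynomial.eval t₀) h7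
  obtain ⟨g, g1, g2⟩ := key 0
  have h1 : g.degree = 0 := by
    by_contra h1
    obtain ⟨x, hx⟩ := IsAlgClosed.exists_root g h1
    obtain ⟨g', g3, g4⟩ := key x
    exact g4 (aeval_inj ht (g1.symm.trans g3) ▸ hx)
  rw [eq_C_of_degree_eq_zero h1] at g1 g2
  exact ⟨_, by simpa using g2, by simpa using g1⟩

theorem main (hP : S_PLACE) (h0 : S_PI0) (ht : Transcendental k t)
    (he : e = Module.finrank k⟮t⟯ E)
    (h : ∀ t₀ : k, ∃ P : Fin e → Place k E, Injective P ∧
      ∀ a, (P a).v (t - algebraMap k E t₀) < 1) {P : Fin e → Place k E} (hi : Injective P)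
    (h1 : ∀ a, (P a).v t = exp 1) (h2 : ∀ Q : Place k E, 1 < Q.v t → ∃ a, P a = Q) (n : ℕ) :
    ∀ (b : Fin e → E) (d : Fin e → ℕ), RB k t b → (∀ i a, (P a).v (b i) ≤ exp (d i : ℤ)) →
      ∑ i, d i = n → e ≤ 1 := by
  classical
  induction n using Nat.strong_induction_on with
  | _ n ih =>
  intro b d hb hd hn
  have t0 := trans_ne ht
  have hc : ∀ x, Reg k t x → (∀ a, (P a).v x ≤ 1) → ∃ c, algebraMap k E c = x := fun x x1 x2 =>
    (hP k E).2.2.2.1 x fun Q => by
      rcases le_or_gt (Q.v t) 1 with a | a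
      · exact x1 Q a
      · obtain ⟨a', rfl⟩ := h2 Q a
        exact x2 a'
  have hu : ∀ i a, (P a).v (t⁻¹ ^ d i * b i) ≤ 1 := fun i a => by
    rw [map_mul, map_pow, map_inv₀, h1, inv_pow, ← exp_nsmul, inv_mul_le_iff₀ exp_pos]
    simpa using hd i a
  have hr : ∀ i, Reg k t⁻¹ (t⁻¹ ^ d i * b i) := fun i Q hQ => by
    rcases le_or_gt (Q.v t) 1 with a | a
    · rw [map_mul, map_pow]
      exact mul_le_one' (pow_le_one₀ zero_le hQ) (hb.reg i Q a)
    · obtain ⟨a', rfl⟩ := h2 Q a
      exact hu i a'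
  choose c hc' using fun i a => (hP k E).2.2.2.2.2.2.1 (P a) _ (hu i a)
  by_cases hdet : (Matrix.of c).det = 0
  · obtain ⟨l, l1, l2⟩ := Matrix.exists_vecMul_eq_zero_iff.2 hdet
    obtain ⟨j, j1, j2⟩ := Finset.exists_max_image (Finset.univ.filter fun i => l i ≠ 0) d
      (by simpa [Finset.Nonempty] using ne_iff.1 l1)
    have j0 : l j ≠ 0 := by simpa using j1
    have hx : ∑ i, aeval t (C (l i) * X ^ (d j - d i)) * b i =
        t ^ d j * ∑ i, algebraMap k E (l i) * (t⁻¹ ^ d i * b i) := by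
      rw [Finset.mul_sum]
      refine Finset.sum_congr rfl fun i _ => ?_
      by_cases hl : l i = 0
      · simp [hl]
      · rw [map_mul, aeval_C, map_pow, aeval_X, pow_sub₀ _ t0 (j2 i (by simpa using hl)), inv_pow]
        ring
    have hv : ∀ a, (P a).v (∑ i, aeval t (C (l i) * X ^ (d j - d i)) * b i) < exp (d j : ℤ) :=
      fun a => by
        rw [hx, map_mul, map_pow, h1, ← exp_nsmul, nsmul_one]
        exact mul_lt_of_lt_one_right exp_pos (comb (P a) (fun i => hc' i a) (congrFun l2 a))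
    rcases Nat.eq_zero_or_pos (d j) with hj | hj
    · simp only [hj, Nat.cast_zero, exp_zero] at hv
      obtain ⟨γ, hγ⟩ := hc _ ((hb.gen _).2 ⟨_, rfl⟩) fun a => (hv a).le
      have g0 : γ = 0 := by_contra fun g0 => (hv j).ne (by rw [← hγ, (P j).v_const g0])
      rw [g0, map_zero] at hγ
      simpa [j0] using hb.ind _ hγ.symm j
    · refine ih _ ?_ _ (update d j (d j - 1)) (hb.upd (fun i => C (l i) * X ^ (d j - d i)) j
        (by simp) j0) (fun i a => ?_) rfl
      · rw [← hn]
        refine Finset.sum_lt_sum (fun i _ => ?_) ⟨j, Finset.mem_univ _, by simpa using hj⟩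
        rcases eq_or_ne i j with rfl | hi
        · simp
        · simp [hi]
      · rcases eq_or_ne i j with rfl | hi
        · rw [update_self, update_self, ← lt_mul_exp_iff_le exp_ne_zero, ← exp_add,
            Nat.cast_sub hj, Nat.cast_one, sub_add_cancel]
          exact hv a
        · rw [update_of_ne hi, update_of_ne hi]
          exact hd i a
  obtain ⟨γ, g0, g1⟩ := discr_const hP h0 ht he h hb
  obtain ⟨g, g2, g3⟩ := (h0 k E t⁻¹ k⟮t⟯ 0 e P (trans_inv ht) (adjoin_inv t).symm he hi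
    fun a => by
      rw [map_zero, sub_zero, map_inv₀, h1, ← exp_neg, ← exp_zero, exp_lt_exp]
      norm_num).2 _ c hr hc'
  have g4 : (fun i => t⁻¹ ^ d i * b i) = (Matrix.diagonal fun i =>
      (IntermediateField.AdjoinSimple.gen k t)⁻¹ ^ d i).map (algebraMap k⟮t⟯ E) *ᵥ b := by
    funext i
    rw [Matrix.diagonal_map (map_zero _), Matrix.mulVec_diagonal, map_pow, map_inv₀,
      IntermediateField.AdjoinSimple.algebraMap_gen]
  rw [g4, Algebra.discr_of_matrix_mulVec, Matrix.det_diagonal, Finset.prod_pow_eq_pow_sum, hn,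
    map_mul, g1, map_pow, map_pow, map_inv₀, IntermediateField.AdjoinSimple.algebraMap_gen] at g2
  have g5 : g = (X ^ n) ^ 2 * C γ := aeval_inj (trans_inv ht) (by rw [← g2]; simp)
  have g6 : n = 0 := by
    by_contra g6
    rw [g5] at g3
    exact pow_ne_zero 2 hdet (g3.symm.trans (by simp [g6]))
  have g7 : ∀ i, d i = 0 := fun i =>
    Finset.sum_eq_zero_iff.1 (hn.trans g6) i (Finset.mem_univ _)
  choose β hβ using fun i => hc _ (hb.reg i) fun a => by simpa [g7] using hd i a
  have g8 : ∀ i, β i ≠ 0 := fun i g8 => by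
    simpa using hb.ind (Pi.single i 1) (by
      rw [Finset.sum_eq_single i] <;> simp +contextual [Pi.single_eq_of_ne, ← hβ, g8]) i
  refine Fin.subsingleton_iff_le_one.1 ⟨fun i j => by_contra fun hij => g8 j ?_⟩
  have g9 := hb.ind (Pi.single i (C (β j)) - Pi.single j (C (β i))) (by
    simp only [Pi.sub_apply, map_sub, sub_mul, Finset.sum_sub_distrib]
    rw [Finset.sum_eq_single i, Finset.sum_eq_single j] <;>
      simp +contextual [Pi.single_eq_of_ne, ← hβ, mul_comm]) i
  rwa [Pi.sub_apply, Pi.single_eq_same, Pi.single_eq_of_ne hij, sub_zero, C_eq_zero] at g9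

end PI1

theorem t_PI1 : S_PLACE → S_PI0 → S_PI1 := by
  rintro hP h0 k E _ _ _ _ _ t e ht he h ⟨P, hi, h1⟩
  obtain ⟨h2, h3⟩ := PI1.poles hP ht he hi h1
  have := FF.fin t ht
  have h4 : 0 < e := he ▸ Module.finrank_pos
  subst he
  obtain ⟨b, hb⟩ := ((hP k E).1 t ht).basis
  have h5 : PI1.RB k t b := ⟨fun p hp i => ?_, hb⟩
  · have h6 := PI1.main hP h0 ht rfl h hi h2 h3 _ b
      (fun i => Finset.univ.sup fun a => (log ((P a).v (b i))).toNat) h5 (fun i a => ?_) rfl
    · omega
    · refine le_exp_of_log_le ((Int.self_le_toNat _).trans ?_)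
      exact_mod_cast Finset.le_sup (f := fun a => (log ((P a).v (b i))).toNat) (Finset.mem_univ a)
  · have h6 := Fintype.linearIndependent_iff.1 b.linearIndependent
      (fun i => aeval (IntermediateField.AdjoinSimple.gen k t) (p i)) (by
        simpa only [Algebra.smul_def, ← aeval_algebraMap_apply,
          IntermediateField.AdjoinSimple.algebraMap_gen] using hp) i
    refine by_contra fun h7 => aeval_ne ht h7 ?_
    rw [← IntermediateField.AdjoinSimple.algebraMap_gen k t, aeval_algebraMap_apply, h6, map_zero]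

end Pool.Agent.P.MP_12d50c_ag
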