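import Pool.Agent.P.MP_12d50c_ag.If2

/-! The inertia groups generate the Galois group of a covering of the projective line. -/

open Function
open Pool.Agent.P.MP_6f117a_ag (Place FF Model Reg)
open scoped IntermediateField

namespace Pool.Agent.P.MP_12d50c_ag

namespace PI1G

theorem rank_eq {k K L : Type} [Field k] [Field K] [Field L] [Algebra k K] [Algebra k L]
    [Algebra K L] [IsScalarTower k K L] {t : K} (ht : k⟮t⟯ = ⊤) :
    Module.finrank K L = Module.finrank k⟮algebraMap K L t⟯ L := by
  let φ : K →ₐ[k] L := IsScalarTower.toAlgHom k K L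
  have h : φ.fieldRange = k⟮algebraMap K L t⟯ := by
    rw [AlgHom.fieldRange_eq_map, ← ht, IntermediateField.adjoin_map, Set.image_singleton]
    rfl
  let e : K ≃ₐ[k] k⟮algebraMap K L t⟯ :=
    (AlgEquiv.ofInjectiveField φ).trans (IntermediateField.equivOfEq h)
  exact Algebra.finrank_eq_of_equiv_equiv e.toRingEquiv (RingEquiv.refl L) (by ext; rfl)

/-- The place obtained by composing with an automorphism. -/
def act {k K M : Type} [Field k] [Field K] [Field M] [Algebra k K] [Algebra k M] [Algebra K M]
    [IsScalarTower k K M] (g : M ≃ₐ[K] M) (P : Place k M) : Place k M where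
  v := P.v.comap (g : M →+* M)
  surj := P.surj.comp g.surjective
  triv c := by
    have : g (algebraMap k M c) = algebraMap k M c := by
      rw [IsScalarTower.algebraMap_apply k K M, g.commutes]
    exact (congrArg P.v this).trans_le (P.triv c)

theorem act_v {k K M : Type} [Field k] [Field K] [Field M] [Algebra k K] [Algebra k M]
    [Algebra K M] [IsScalarTower k K M] (g : M ≃ₐ[K] M) (P : Place k M) (y : M) :
    (act g P).v y = P.v (g y) := rfl

theorem exists_place (hP : S_PLACE) {k M : Type} [Field k] [IsAlgClosed k] [Field M]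
    [Algebra k M] [FF k M] {t : M} (ht : Transcendental k t) : ∃ P : Place k M, P.v t < 1 := by
  obtain ⟨Z, hZ, hs⟩ := ((hP k M).1 t ht).fund
  have := FF.fin (L := k) t ht
  have h0 : 0 < Module.finrank k⟮t⟯ M := Module.finrank_pos
  rcases Z.eq_empty_or_nonempty with rfl | ⟨P, h⟩
  · simp only [Finset.sum_empty] at hs
    omega
  · exact ⟨P, (hZ P).1 h⟩

end PI1G

open PI1G in
theorem t_PI1G : S_PLACE → S_PRES → S_PTR → S_PI1 → S_PI1G := by
  intro hP hR hT h1 k K M _ _ _ _ _ _ _ _ _ _ t H ht htop hH
  let L := IntermediateField.fixedField H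
  have : IsScalarTower k L M := .of_algebraMap_eq fun c => by
    rw [IsScalarTower.algebraMap_apply k K L, ← IsScalarTower.algebraMap_apply K L M,
      ← IsScalarTower.algebraMap_apply k K M]
  have hrk : Module.finrank K L = Module.finrank k⟮algebraMap K L t⟯ L := rank_eq htop
  have htL : Transcendental k (algebraMap K L t) :=
    (transcendental_algebraMap_iff (algebraMap K L).injective).2 ht
  have hfin : FiniteDimensional k⟮algebraMap K L t⟯ L :=
    FiniteDimensional.of_finrank_pos (hrk ▸ Module.finrank_pos)
  obtain ⟨hL, hM, -, hres, -⟩ := hR k L M (algebraMap K L t) htL hfin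
  have hidx : H.index = Module.finrank K L := by
    have e1 := Module.finrank_mul_finrank K L M
    have e2 : Module.finrank L M = Nat.card H := IntermediateField.finrank_fixedField_eq_card H
    have e3 := H.index_mul_card
    rw [IsGalois.card_aut_eq_finrank, ← e1, e2] at e3
    exact Nat.eq_of_mul_eq_mul_right Nat.card_pos e3
  have key : ∀ t' : K, Transcendental k t' → ∃ P : Fin H.index → Place k L, Injective P ∧
      ∀ a, (P a).v (algebraMap K L t') < 1 := fun t' ht' => by
    obtain ⟨P, hPt⟩ := exists_place hP (M := M)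
      ((transcendental_algebraMap_iff (algebraMap K M).injective).2 ht')
    choose R hRv using fun g : M ≃ₐ[K] M => hres (act g P)
    have hinj : ∀ g g' : M ≃ₐ[K] M, R g = R g' → g'⁻¹ * g ∈ H := fun g g' e => by
      obtain ⟨h, hh⟩ := hT k L M (algebraMap K L t) (act g P) (act g' P) htL
        fun u => by rw [hRv, hRv, e]
      have hm : h.restrictScalars K ∈ H := by
        rw [← IntermediateField.fixingSubgroup_fixedField H,
          IntermediateField.mem_fixingSubgroup_iff]
        exact fun x hx => h.commutes ⟨x, hx⟩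
      have := hH (act g' P) (g'⁻¹ * g * h.restrictScalars K) fun y => by
        rw [hh y, act_v, act_v, ← AlgEquiv.mul_apply, ← mul_assoc, ← mul_assoc, mul_inv_cancel,
          one_mul]
        rfl
      exact (H.mul_mem_cancel_right hm).1 this
    let ε : Fin H.index ≃ (M ≃ₐ[K] M) ⧸ H := (Finite.equivFin _).symm
    refine ⟨fun a => R (ε a).out, fun a b e => ε.injective ?_, fun a => ?_⟩
    · rw [← (ε a).out_eq, ← (ε b).out_eq]
      exact (QuotientGroup.eq.2 (hinj _ _ e)).symm
    · rw [← hRv, act_v, ← IsScalarTower.algebraMap_apply, AlgEquiv.commutes]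
      exact hPt
  rw [← Subgroup.index_eq_one]
  refine h1 k L (algebraMap K L t) H.index htL (hidx.trans hrk) (fun t₀ => ?_) ?_
  · obtain ⟨P, hi, hv⟩ := key (t - algebraMap k K t₀) fun h => ht (by
      simpa using h.add (isAlgebraic_algebraMap t₀))
    exact ⟨P, hi, fun a => by
      simpa only [map_sub, ← IsScalarTower.algebraMap_apply] using hv a⟩
  · obtain ⟨P, hi, hv⟩ := key t⁻¹ fun h => ht (by simpa using h.inv)
    refine ⟨P, hi, fun a => ?_⟩
    have h0 : algebraMap K L t ≠ 0 := fun e => htL (e ▸ isAlgebraic_zero)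
    have := hv a
    rwa [map_inv₀, map_inv₀, inv_lt_one₀ (zero_lt_iff.2 (by simpa using h0))] at this

end Pool.Agent.P.MP_12d50c_ag
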