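import Pool.Agent.P.MP_12d50c_ag.If1

/-!
Places of function fields in one variable, in any characteristic.
-/

open WithZero Polynomial IsDedekindDomain
open Pool.Agent.P.MP_6f117a_ag
open scoped IntermediateField nonZeroDivisors

namespace Pool.Agent.P.MP_12d50c_ag

namespace PLACE

theorem fin_of_inj {A B C : Type} [CommRing A] [CommRing B] [CommRing C] [IsNoetherianRing A]
    (f : A →+* B) (ψ : B →+* C) (hψ : Function.Injective ψ) (h : (ψ.comp f).Finite) :
    f.Finite := by
  let _ := f.toAlgebra
  let _ := (ψ.comp f).toAlgebra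
  have : Module.Finite A C := h
  let g : B →ₗ[A] C :=
    { toFun := ψ
      map_add' := map_add ψ
      map_smul' := fun a b => map_mul ψ (f a) b }
  exact Module.Finite.of_injective g hψ

theorem frob_finite (k : Type) [Field k] [IsAlgClosed k] (p n : ℕ) [ExpChar k p] :
    (iterateFrobenius k[X] p n).Finite := by
  refine RingHom.IsIntegral.to_finite (fun x => ⟨X ^ p ^ n - C x,
    monic_X_pow_sub_C x (expChar_pow_pos k p n).ne', by simp [iterateFrobenius_def]⟩) ?_
  refine RingHom.FiniteType.of_comp_finiteType (f := (C : k →+* k[X])) ?_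
  have e : (iterateFrobenius k[X] p n).comp (C : k →+* k[X]) =
      (C : k →+* k[X]).comp (iterateFrobenius k p n) := by
    ext c : 1
    simp [iterateFrobenius_def]
  rw [e]
  exact RingHom.FiniteType.comp (RingHom.finiteType_algebraMap.2 inferInstance)
    (RingHom.FiniteType.of_surjective _ (bijective_iterateFrobenius k p n).2)

/-- Finiteness of the integral closure. -/
theorem closure_finite (k K E : Type) [Field k] [IsAlgClosed k] [Field K] [Field E]
    [Algebra k[X] K] [IsFractionRing k[X] K] [Algebra K E] [Algebra k[X] E]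
    [IsScalarTower k[X] K E] [FiniteDimensional K E] :
    Module.Finite k[X] (integralClosure k[X] E) := by
  let p := ringExpChar k
  let S := separableClosure K E
  have hK : ExpChar K p := expChar_of_injective_ringHom (IsFractionRing.injective k[X] K) p
  have : IsScalarTower k[X] S E := .of_algebraMap_eq fun _ => rfl
  have h1 : Module.Finite k[X] (integralClosure k[X] S) :=
    IsIntegralClosure.finite k[X] K S (integralClosure k[X] S)
  let n := IsPurelyInseparable.exponent S E
  let Fr : E →+* S := IsPurelyInseparable.iterateFrobenius S E p (le_refl n)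
  have hFr : ∀ x, algebraMap S E (Fr x) = x ^ p ^ n :=
    IsPurelyInseparable.algebraMap_iterateFrobenius S p (le_refl n)
  let ψ : integralClosure k[X] E →+* integralClosure k[X] S :=
    (Fr.comp (integralClosure k[X] E).val.toRingHom).codRestrict (integralClosure k[X] S)
      fun b => (isIntegral_algebraMap_iff (algebraMap S E).injective).1 (by
        have : IsIntegral k[X] ((b : E) ^ p ^ n) := IsIntegral.pow b.2 _
        rwa [← hFr] at this)
  have hψ : Function.Injective ψ := fun a b h =>
    Subtype.ext (Fr.injective (congrArg Subtype.val h))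
  refine RingHom.finite_algebraMap.1 (fin_of_inj _ ψ hψ ?_)
  have e : ψ.comp (algebraMap k[X] (integralClosure k[X] E)) =
      (algebraMap k[X] (integralClosure k[X] S)).comp (iterateFrobenius k[X] p n) := by
    refine RingHom.ext fun a => Subtype.ext ((algebraMap S E).injective ?_)
    change algebraMap S E (Fr (algebraMap k[X] E a)) =
      algebraMap S E (algebraMap k[X] S (iterateFrobenius k[X] p n a))
    rw [hFr, ← IsScalarTower.algebraMap_apply, iterateFrobenius_def, map_pow]
  rw [e]
  exact RingHom.Finite.comp (RingHom.finite_algebraMap.2 h1) (frob_finite k p n)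

variable {L K : Type} [Field L] [Field K] [Algebra L K] [IsAlgClosed L]

/-- A valuation centred at a finite point is dominated by a place. -/
def Dom (L : Type) [Field L] [Algebra L K] (t : K) : Prop :=
  ∀ (O : ValuationSubring K) (c : L), (∀ a, algebraMap L K a ∈ O) → t ∈ O →
    O.valuation (t - algebraMap L K c) < 1 → ∃ P : Place L K, ∀ x, O.valuation x < 1 → P.v x < 1

theorem setup {t : K} (ht : Transcendental L t) [FiniteDimensional L⟮t⟯ K] :
    Model L t ∧ (∀ x, Reg L t x ↔ IsIntegral (Algebra.adjoin L {t}) x) ∧ Dom L t := by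
  let φ : L[X] →ₐ[L] L⟮t⟯ := aeval (IntermediateField.AdjoinSimple.gen L t)
  let _ : Algebra L[X] L⟮t⟯ := φ.toAlgebra
  let _ : Algebra L[X] K := (aeval t : L[X] →ₐ[L] K).toAlgebra
  have hX : algebraMap L[X] K X = t := aeval_X t
  have : IsScalarTower L L[X] K := .of_algebraMap_eq fun c =>
    ((aeval t : L[X] →ₐ[L] K).commutes c).symm
  have : IsScalarTower L[X] L⟮t⟯ K := .of_algebraMap_eq fun p =>
    aeval_algebraMap_apply K (IntermediateField.AdjoinSimple.gen L t) p
  have : IsFractionRing L[X] L⟮t⟯ := IsLocalization.isLocalization_of_algEquiv L[X]⁰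
    { (RatFunc.algEquivOfTranscendental t ht).toRingEquiv with
      commutes' := RatFunc.algEquivOfTranscendental_algebraMap t ht : RatFunc L ≃ₐ[L[X]] L⟮t⟯ }
  have : Module.IsTorsionFree L[X] K := .trans_faithfulSMul L[X] L⟮t⟯ K
  let B := integralClosure L[X] K
  have : IsFractionRing B K := integralClosure.isFractionRing_of_finite_extension L⟮t⟯ K
  have : Module.Finite L[X] B := closure_finite L L⟮t⟯ K
  have : IsDedekindDomain B :=
    { IsNoetherianRing.of_finite L[X] B, Ring.DimensionLEOne.of_isIntegral L[X] B,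
      (integralClosure.isIntegrallyClosedOfFiniteExtension L⟮t⟯ : IsIntegrallyClosed B) with }
  have : Module.IsTorsionFree L[X] B := IsIntegralClosure.isTorsionFree L[X] K
  have : Module.Free L[X] B := inferInstance
  have := IsIntegralClosure.isLocalization L[X] L⟮t⟯ K B
  have rk : Module.finrank L[X] B = Module.finrank L⟮t⟯ K := by
    rw [Module.finrank_eq_card_chooseBasisIndex, Module.finrank_eq_card_basis
      (Module.Basis.localizationLocalization L⟮t⟯ L[X]⁰ K (Module.Free.chooseBasis L[X] B))]
  have hr : ∀ x, Reg L t x ↔ ∃ b, algebraMap B K b = x := fun x => hX ▸ reg_iff x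
  have hp : ∀ P : Place L K, P.v t ≤ 1 → ∃ w : HeightOneSpectrum B, P = toPlace w :=
    fun P h => exists_prime P (hX ▸ h)
  refine ⟨⟨?_, fun P P' h h' ne => ?_, fun P h x hx => ?_, fun P h x hx => ?_,
    by simpa only [hX, rk] using fund_aux (L := L) (K := K) (B := B)⟩, fun x => ?_,
    fun O c h1 h2 h3 => ?_⟩
  · let b := Module.finBasisOfFinrankEq L[X] B rk
    refine ⟨b.localizationLocalization L⟮t⟯ L[X]⁰ K, fun x => (hr x).trans ⟨?_, ?_⟩⟩
    · rintro ⟨y, rfl⟩
      refine ⟨b.repr y, ?_⟩
      conv_lhs => rw [← b.sum_repr y]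
      simp only [map_sum, Algebra.smul_def, map_mul, Module.Basis.localizationLocalization_apply]
      rfl
    · rintro ⟨p, rfl⟩
      refine ⟨∑ i, p i • b i, ?_⟩
      simp only [map_sum, Algebra.smul_def, map_mul, Module.Basis.localizationLocalization_apply]
      rfl
  · obtain ⟨w, rfl⟩ := hp P h
    obtain ⟨w', rfl⟩ := hp P' h'
    obtain ⟨y, h1, h2⟩ := SetLike.not_le_iff_exists.1 fun hle : w'.asIdeal ≤ w.asIdeal =>
      ne (by rw [HeightOneSpectrum.ext (w'.isMaximal.eq_of_le w.isPrime.ne_top hle)])
    exact ⟨_, (hr _).2 ⟨y, rfl⟩, w.valuation_eq_one_iff_notMem.2 h2,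
      (w'.valuation_lt_one_iff_mem _).2 h1⟩
  · obtain ⟨w, rfl⟩ := hp P h
    obtain ⟨n, d, e⟩ := w.exists_primeCompl_mul_eq_of_integer x hx
    exact ⟨_, _, (hr _).2 ⟨n, rfl⟩, (hr _).2 ⟨d, rfl⟩, w.valuation_eq_one_iff_notMem.2 d.2, e⟩
  · obtain ⟨w, rfl⟩ := hp P h
    obtain ⟨a, ha⟩ := w.exists_valuation_sub_lt_of_integer hx 1
    have := w.isMaximal
    obtain ⟨c, hc⟩ := (res_bij (L := L) w.asIdeal).2 (Ideal.Quotient.mk _ a)
    have h2 := (w.valuation_lt_one_iff_mem (K := K) _).2
      (Ideal.Quotient.eq.1 (hc.symm : _ = Ideal.Quotient.mk _ (algebraMap L B c)))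
    refine ⟨c, ?_⟩
    have e : x - algebraMap L K c =
        algebraMap B K (a - algebraMap L B c) - (algebraMap B K a - x) := by
      rw [map_sub, ← IsScalarTower.algebraMap_apply]; ring
    rw [e]
    exact (w.valuation K).map_sub_lt h2 ha
  · rw [hr, ← RingEquiv.isIntegral_iff (Polynomial.algEquivOfTranscendental L t ht).toRingEquiv
      (RingHom.ext fun p => by
        change ((Polynomial.algEquivOfTranscendental L t ht p : Algebra.adjoin L {t}) : K) = _
        rw [Polynomial.algEquivOfTranscendental_apply]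
        exact (aeval_algebraMap_apply K (⟨t, Algebra.self_mem_adjoin_singleton L t⟩ :
          Algebra.adjoin L {t}) p).symm) x]
    exact ⟨fun ⟨b, hb⟩ => hb ▸ b.2, fun h => ⟨⟨x, h⟩, rfl⟩⟩
  · have hO : ∀ p : L[X], algebraMap L[X] K p ∈ O.valuation.integer := fun p => by
      change O.valuation (aeval t p) ≤ 1
      rw [O.valuation_le_one_iff]
      induction p using Polynomial.induction_on' with
      | add p q hp hq => rw [map_add]; exact add_mem hp hq
      | monomial n a => rw [aeval_monomial]; exact mul_mem (h1 a) (pow_mem h2 n)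
    have hB : ∀ b : B, O.valuation (algebraMap B K b) ≤ 1 := fun b => by
      let _ := ((algebraMap L[X] K).codRestrict _ hO).toAlgebra
      have : IsScalarTower L[X] O.valuation.integer K := .of_algebraMap_eq fun _ => rfl
      exact (Valuation.integer.integers O.valuation).mem_of_integral
        (IsIntegral.tower_top (R := L[X]) b.2)
    let I : Ideal B :=
      { carrier := {b | O.valuation (algebraMap B K b) < 1}
        add_mem' := fun h1 h2 => by
          simp only [Set.mem_ofPred_eq, map_add]; exact O.valuation.map_add_lt h1 h2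
        zero_mem' := by simp
        smul_mem' := fun c b h => by
          simp only [Set.mem_ofPred_eq, smul_eq_mul, map_mul]
          exact mul_lt_one_of_nonneg_of_lt_one_right (hB c) zero_le h }
    have mem : ∀ b, b ∈ I ↔ O.valuation (algebraMap B K b) < 1 := fun _ => Iff.rfl
    have one : ∀ b, b ∉ I → O.valuation (algebraMap B K b) = 1 := fun b h =>
      le_antisymm (hB b) (not_lt.1 h)
    have e0 : algebraMap B K (algebraMap L[X] B (X - C c)) = t - algebraMap L K c := by
      rw [← IsScalarTower.algebraMap_apply]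
      change aeval t (X - C c) = _
      simp
    let w : HeightOneSpectrum B :=
      { asIdeal := I
        isPrime := ⟨(Ideal.ne_top_iff_one _).2 (by simp [mem]), fun {a b} h => by
          by_contra hc
          push Not at hc
          rw [mem, map_mul, map_mul, one _ hc.1, one _ hc.2, mul_one] at h
          exact lt_irrefl _ h⟩
        ne_bot := fun h => by
          have h4 : algebraMap L[X] B (X - C c) ∈ I := (mem _).2 (e0 ▸ h3)
          rw [h, Ideal.mem_bot] at h4
          rw [h4, map_zero] at e0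
          exact trans_ne (trans_sub ht c) e0.symm }
    refine ⟨toPlace w, fun x hx => not_le.1 fun hle => ?_⟩
    have h0 : x ≠ 0 := by
      rintro rfl
      simp at hle
    obtain ⟨n, d, e⟩ := w.exists_primeCompl_mul_eq_of_integer x⁻¹ (by
      rw [map_inv₀]
      exact inv_le_one_of_one_le₀ hle)
    have h5 := hB n
    rw [← e, map_mul, one d d.2, mul_one, map_inv₀,
      inv_le_one₀ (zero_lt_iff.2 (by simpa using h0))] at h5
    exact h5.not_gt hx

variable [FF L K]

theorem model {t : K} (ht : Transcendental L t) : Model L t :=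
  have := FF.fin t ht
  (setup ht).1

theorem exists_poles {t : K} (ht : Transcendental L t) : ∃ Z : Finset (Place L K),
    (∀ P, P ∈ Z ↔ 1 < P.v t) ∧ ∑ P ∈ Z, log (P.v t) = Module.finrank L⟮t⟯ K := by
  obtain ⟨Z, h1, h2⟩ := (model (trans_inv ht)).fund
  refine ⟨Z, fun P => (h1 P).trans ?_, by rw [adjoin_inv] at h2; simpa using h2⟩
  rw [map_inv₀, inv_lt_one₀ (zero_lt_iff.2 (by simpa using trans_ne ht))]

theorem finite_supp {x : K} (hx : x ≠ 0) : {P : Place L K | P.v x ≠ 1}.Finite := by
  rcases const_or_trans (L := L) x with ⟨c, rfl⟩ | ht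
  · refine Set.finite_empty.subset fun P h => h (P.v_const fun h => hx (by rw [h, map_zero]))
  obtain ⟨Z, h1, -⟩ := (model ht).fund
  obtain ⟨Z', h2, -⟩ := exists_poles ht
  exact (Z.finite_toSet.union Z'.finite_toSet).subset fun P h =>
    (lt_or_gt_of_ne h).imp (h1 P).2 (h2 P).2

theorem prod_formula {x : K} (hx : x ≠ 0) (Z : Finset (Place L K))
    (hZ : ∀ P, P.v x ≠ 1 → P ∈ Z) : ∑ P ∈ Z, log (P.v x) = 0 := by
  classical
  rcases const_or_trans (L := L) x with ⟨c, rfl⟩ | ht
  · exact Finset.sum_eq_zero fun P _ => by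
      rw [P.v_const fun h => hx (by rw [h, map_zero]), log_one]
  obtain ⟨Z₁, h1, e1⟩ := (model ht).fund
  obtain ⟨Z₂, h2, e2⟩ := exists_poles ht
  rw [← Finset.sum_subset (s₁ := Z₁ ∪ Z₂) (fun P h => hZ P ((Finset.mem_union.1 h).elim
      (fun h => ((h1 P).1 h).ne) fun h => ((h2 P).1 h).ne')) fun P _ h => by
        rw [Finset.mem_union, h1, h2, not_or, not_lt, not_lt] at h
        rw [le_antisymm h.2 h.1, log_one],
    Finset.sum_union (Finset.disjoint_left.2 fun P a b => ((h1 P).1 a).asymm ((h2 P).1 b)), e2,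
    ← e1, Finset.sum_neg_distrib, add_neg_cancel]

theorem const_of_le {x : K} (h : ∀ P : Place L K, P.v x ≤ 1) : ∃ c, algebraMap L K c = x := by
  refine (const_or_trans (L := L) x).resolve_right fun ht => ?_
  obtain ⟨Z, h1, h2⟩ := exists_poles ht
  have := FF.fin x ht
  have := Module.finrank_pos (R := L⟮x⟯) (M := K)
  obtain ⟨P, hP⟩ := Z.eq_empty_or_nonempty.resolve_left (by rintro rfl; simp at h2; omega)
  exact ((h1 P).1 hP).not_ge (h P)

theorem exists_center (R : Subalgebra L K) (φ : R →ₐ[L] L) {t : K} (hR : t ∈ R)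
    (ht : Transcendental L t) : ∃ P : Place L K, ∀ r : R, P.v (r - algebraMap L K (φ r)) < 1 := by
  have := FF.fin t ht
  obtain ⟨O, h1, h2⟩ := Ideal.image_subset_nonunits_valuationSubring (A := R.toSubring)
    (RingHom.ker (φ : R →+* L)) (RingHom.ker_ne_top _)
  have h3 : ∀ r : R, O.valuation (r - algebraMap L K (φ r)) < 1 := fun r =>
    O.mem_nonunits_iff.1 (h2 ⟨r - algebraMap L R (φ r), by
      change φ (r - algebraMap L R (φ r)) = 0
      simp, rfl⟩)
  obtain ⟨P, hP⟩ := (setup ht).2.2 O (φ ⟨t, hR⟩) (fun a => h1 (R.algebraMap_mem a)) (h1 hR)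
    (h3 ⟨t, hR⟩)
  exact ⟨P, fun r => hP _ (h3 r)⟩

end PLACE

theorem t_PLACE : S_PLACE := fun _ _ _ _ _ _ _ =>
  ⟨fun _ ht => PLACE.model ht, fun _ hx => PLACE.finite_supp hx,
    fun _ hx Z hZ => PLACE.prod_formula hx Z hZ, fun _ h => PLACE.const_of_le h,
    fun _ ht => PLACE.exists_poles ht,
    fun t x ht => have := FF.fin t ht; (PLACE.setup ht).2.1 x,
    fun P x hx => (PLACE.model P.π_trans).res P P.v_π_le x hx,
    fun R φ _ hR ht => PLACE.exists_center R φ hR ht⟩

end Pool.Agent.P.MP_12d50c_ag
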