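import Pool.Agent.P.MP_12d50c_ag.If4
import Pool.Agent.P.MP_638e8a_ag.ChA3

/-! Vertical lines are boundaries. -/

open MvPolynomial

namespace Pool.Agent.P.MP_12d50c_ag

theorem t_PT0 : S_VP0 → S_CL → S_PT0 := by
  intro h0 hC k _ N I φ y hI hφ hy
  classical
  obtain ⟨W, hW, eW, pW⟩ := (hC k N I).2.1 2 y hy hI
  obtain ⟨V, hV, eV, -⟩ := (hC k N I).2.1 1 y hy hI
  have hb : ∀ Q, bdA W.asIdeal Q = (len V.asIdeal Q.asIdeal).toNat := fun Q => by
    simp only [bdA, eW, ((h0 k N 2).1 1 _).1, ← eV]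
    simp [Fin.sum_univ_succ]
  have := hφ W hW pW
  rw [finsum_eq_single _ V fun Q hQ => ?_, finsum_eq_if, if_pos hV, hb, len_self] at this
  · simpa [eV] using this
  · rw [finsum_eq_if, ite_eq_right_iff]
    intro h
    rw [hb, len_eq_zero_iff.2 fun hle => hQ (PrimeSpectrum.ext
      (Pool.Agent.P.MP_638e8a_ag.Cyc.eq_of_dim_quot_eq hle hV.2 h.2))]
    simp

end Pool.Agent.P.MP_12d50c_ag
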