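import Pool.Agent.P.MP_12d50c_ag.If2

/-!
The Galois group acts transitively on the places over a place.
-/

open WithZero Function
open Pool.Agent.P.MP_6f117a_ag (Place FF Model Reg)

namespace Pool.Agent.P.MP_12d50c_ag

namespace PTR

variable {k L M : Type} [Field k] [Field L] [Field M] [Algebra k L] [Algebra k M] [Algebra L M]
  [IsScalarTower k L M]

/-- The conjugate of a place. -/
noncomputable def conj (P : Place k M) (g : M ≃ₐ[L] M) : Place k M where
  v := P.v.comap (g : M →+* M)
  surj := P.surj.comp g.surjective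
  triv c := by
    rw [Valuation.comap_apply, IsScalarTower.algebraMap_apply k L M, RingHom.coe_coe, g.commutes,
      ← IsScalarTower.algebraMap_apply]
    exact P.triv c

theorem conj_v (P : Place k M) (g : M ≃ₐ[L] M) (y : M) : (conj P g).v y = P.v (g y) := rfl

theorem main [FiniteDimensional L M] [IsGalois L M] {t : L} {P P' : Place k M}
    (hM : Model k (algebraMap L M t)) (h1 : P.v (algebraMap L M t) ≤ 1)
    (h2 : P'.v (algebraMap L M t) ≤ 1)
    (h : ∀ u : L, P'.v (algebraMap L M u) < 1 → P.v (algebraMap L M u) < 1) :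
    ∃ g : M ≃ₐ[L] M, P' = conj P g := by
  classical
  by_contra hc
  push Not at hc
  have c1 : ∀ (Q : Place k M) (g : M ≃ₐ[L] M), Q.v (algebraMap L M t) ≤ 1 →
      (conj Q g).v (algebraMap L M t) ≤ 1 := fun Q g a => by rwa [conj_v, g.commutes]
  choose y y1 y2 y3 using fun g => hM.sep P' (conj P g) h2 (c1 P g h1) (hc g)
  have z1 : ∀ Q : Place k M, Q.v (algebraMap L M t) ≤ 1 → Q.v (∏ g, y g) ≤ 1 := fun Q a => by
    rw [map_prod]
    exact Finset.prod_le_one' fun g _ => y1 g Q a
  have z2 : P'.v (∏ g, y g) = 1 := by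
    rw [map_prod]
    exact Finset.prod_eq_one fun g _ => y2 g
  have z3 : ∀ g : M ≃ₐ[L] M, (conj P g).v (∏ g, y g) < 1 := fun g => by
    rw [map_prod, ← Finset.mul_prod_erase _ _ (Finset.mem_univ g)]
    exact mul_lt_one_of_nonneg_of_lt_one_left zero_le (y3 g)
      (Finset.prod_le_one' fun g' _ => y1 g' _ (c1 P g h1))
  obtain ⟨c, hc⟩ := hM.res P' h2 _ z2.le
  have c0 : c ≠ 0 := by
    rintro rfl
    rw [map_zero, sub_zero, z2] at hc
    exact hc.false
  have a1 := h (Algebra.norm L (∏ g, y g - algebraMap k M c)) (by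
    rw [Algebra.norm_eq_prod_automorphisms, map_prod,
      ← Finset.mul_prod_erase _ _ (Finset.mem_univ 1)]
    exact mul_lt_one_of_nonneg_of_lt_one_left zero_le hc (Finset.prod_le_one' fun g _ =>
      (conj P' g).v.map_sub_le (z1 _ (c1 P' g h2)) ((conj P' g).triv c)))
  rw [Algebra.norm_eq_prod_automorphisms, map_prod, Finset.prod_eq_one fun g _ => ?_] at a1
  · exact a1.false
  · rw [← conj_v, (conj P g).v.map_sub_eq_of_lt_right (by rw [Place.v_const _ c0]; exact z3 g),
      Place.v_const _ c0]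

end PTR

theorem t_PTR : S_PLACE → S_PTR := fun hP k L M _ _ _ _ _ _ _ _ _ _ _ t P P' ht h => by
  have key : ∀ u : L, Transcendental k u → P.v (algebraMap L M u) ≤ 1 →
      ∃ g : M ≃ₐ[L] M, ∀ y, P'.v y = P.v (g y) := fun u hu a => by
    have hu' : Transcendental k (algebraMap L M u) :=
      (transcendental_algebraMap_iff (algebraMap L M).injective).2 hu
    obtain ⟨g, rfl⟩ := PTR.main ((hP k M).1 _ hu') a (P' := P') (by
      by_contra b
      have b1 := (h u⁻¹).2 (by
        rw [map_inv₀, map_inv₀]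
        exact inv_lt_one_of_one_lt₀ (not_le.1 b))
      rw [map_inv₀, map_inv₀, inv_lt_one₀ (zero_lt_iff.2 (by
        simpa using MP_6f117a_ag.trans_ne hu))] at b1
      exact b1.not_ge a) fun u => (h u).2
    exact ⟨g, fun _ => rfl⟩
  rcases le_total (P.v (algebraMap L M t)) 1 with a | a
  · exact key t ht a
  · refine key t⁻¹ (MP_6f117a_ag.trans_inv ht) ?_
    rw [map_inv₀, map_inv₀]
    exact inv_le_one_of_one_le₀ a

end Pool.Agent.P.MP_12d50c_ag
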