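import Pool.Agent.P.MP_12d50c_ag.If5

/-!
Points and homogeneous primes.
-/

open CategoryTheory AlgebraicGeometry IsLocalRing MvPolynomial
open Pool.Agent.P.MP_638e8a_ag.Cyc (St Rf ev primeOf)
open Pool.Agent.P.MP_638e8a_ag

namespace Pool.Agent.P.MP_12d50c_ag

namespace PTS1

variable {F : Type} [Field F] {τ : Type} {w : τ → ℕ}

theorem scale {R S : Type} [CommRing R] [CommRing S] (k : F →+* R) (k' : F →+* S) (ψ : R →+* S)
    (hk : ψ.comp k = k') (s : τ → R) (x : τ → S) (e : S) (hs : ∀ i, ψ (s i) = e ^ w i * x i)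
    {f : MvPolynomial τ F} {d : ℕ} (hf : IsWeightedHomogeneous w f d) :
    ψ (eval₂ k s f) = e ^ d * eval₂ k' x f := by
  let := k'.toAlgebra
  rw [hom_eval₂, hk]
  simp only [hs]
  exact aeval_scale hf e x

theorem ext_hom {I I' : Ideal (MvPolynomial τ F)} (h : WHom w I) (h' : WHom w I')
    (H : ∀ f d, IsWeightedHomogeneous w f d → (f ∈ I ↔ f ∈ I')) : I = I' :=
  le_antisymm (h.le_of_hom fun f d hf => (H f d hf).1) (h'.le_of_hom fun f d hf => (H f d hf).2)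

variable {Y : Scheme.{0}} {κ : Y ⟶ Spec (.of F)} {J : Ideal (MvPolynomial τ F)} (c : CS κ w J)

theorem ev_self (y : Y) (a : St y) : ev (le_refl y) a = 0 ↔ ¬ IsUnit a := by
  rw [Cyc.ev_eq_zero, Cyc.primeOf_self, mem_maximalIdeal, mem_nonunits_iff]

theorem ev_local (y : Y) : IsLocalHom (ev (le_refl y)) :=
  ⟨fun a ha => by_contra fun h => ha.ne_zero ((ev_self y a).2 h)⟩

theorem hom_pt (y : Y) : WHom w (c.pt y) :=
  letI := algR κ y
  wHom_vanw (c.co y)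

theorem aeval_co (y : Y) (f : MvPolynomial τ F) :
    letI := algR κ y
    aeval (c.co y) f = ev (le_refl y) (eval₂ (cstk κ y) (c.s y) f) :=
  (hom_eval₂ _ _ _ _).symm

theorem mem_pt (y : Y) {f : MvPolynomial τ F} {d : ℕ} (hf : IsWeightedHomogeneous w f d) :
    f ∈ c.pt y ↔ ¬ IsUnit (eval₂ (cstk κ y) (c.s y) f) := by
  let := algR κ y
  rw [← ev_self, ← aeval_co]
  exact mem_vanw_of_hom hf

theorem mem_pt_of_le {x y : Y} (h : x ≤ y) {f : MvPolynomial τ F} {d : ℕ}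
    (hf : IsWeightedHomogeneous w f d) :
    f ∈ c.pt y ↔ eval₂ (cstk κ x) (c.s x) f ∈ primeOf x y := by
  obtain ⟨u, hu⟩ := c.unit h
  have h1 := scale (cstk κ y) (cstk κ y) (RingHom.id _) rfl (c.s y) _ u hu hf
  have h2 := scale (w := w) (cstk κ x) (cstk κ y) (Cyc.sp h) (RingHom.ext (sp_cstk κ h)) (c.s x)
    (fun i => Cyc.sp h (c.s x i)) 1 (fun i => by rw [one_pow, one_mul]) hf
  rw [one_pow, one_mul] at h2
  rw [mem_pt c y hf, Cyc.mem_primeOf h, mem_maximalIdeal, mem_nonunits_iff, h2]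
  rw [RingHom.id_apply] at h1
  rw [h1, (u.isUnit.pow d).mul_left_iff]

theorem le_pt (y : Y) : J ≤ c.pt y := by
  let := algR κ y
  exact c.hom.le_vanw.2 fun f hf => (aeval_co c y f).trans (c.on y f hf)

theorem unit_iff (y : Y) (i : τ) : IsUnit (c.s y i) ↔ X i ∉ c.pt y := by
  rw [mem_pt c y (isWeightedHomogeneous_X F w i), not_not, eval₂_X]

theorem pt_eq {L : Type} [Field L] [Algebra F L] (ξ : τ → L) {y : Y} (ψ : St y →+* L)
    [IsLocalHom ψ] (e : Lˣ) (h1 : ψ.comp (cstk κ y) = algebraMap F L)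
    (h2 : ∀ i, ψ (c.s y i) = e ^ w i * ξ i) : c.pt y = vanw F w ξ :=
  ext_hom (hom_pt c y) (wHom_vanw ξ) fun f d hf => by
    rw [mem_pt c y hf, ← isUnit_map_iff ψ, scale _ _ ψ h1 _ ξ e h2 hf,
      (e.isUnit.pow d).mul_left_iff, isUnit_iff_ne_zero, not_not, mem_vanw_of_hom hf]
    rfl

theorem inj (hEX : S_EX) (hEMB : S_EMB) {y y' : Y} (h : c.pt y = c.pt y') : y = y' := by
  obtain ⟨i, hi, hu⟩ := c.bpf y
  have hX := (unit_iff c y i).1 hu
  obtain ⟨L, _, _, ξ, h1, h2, h3⟩ := hEX F τ w (c.pt y) i (hom_pt c y) hi hX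
  obtain ⟨z, ψ, e, hψ, h4, h5⟩ := c.ex' (algebraMap F L) ξ ⟨i, hi, h2 ▸ isUnit_one⟩
    fun f hf => aeval_eq_zero_of_mem_vanw (w := w) (h1 ▸ le_pt c y hf)
  have key : ∀ v : Y, c.pt v = c.pt y → z = v := by
    intro v hv
    let := algR κ v
    have hne : c.co v i ≠ 0 := fun h0 =>
      (ev_self v _).1 h0 ((unit_iff c v i).2 (hv ▸ hX))
    obtain ⟨emb, hemb⟩ := hEMB F τ w L (Rf v) ξ (fun j => (c.co v i)⁻¹ ^ w j * c.co v j) i h3 hi h2
      (by rw [hi, pow_one, inv_mul_cancel₀ hne]) (by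
        rw [vanw_scale (inv_ne_zero hne).isUnit, h1, ← hv]
        rfl)
    have := ev_local v
    obtain ⟨h6, -⟩ := c.sep' ((emb : L →+* Rf v).comp ψ) (ev (le_refl v))
      (Units.map (emb : L →* Rf v) e * (Units.mk0 _ hne)⁻¹) (by
        rw [RingHom.comp_assoc, h4]
        exact RingHom.ext emb.commutes) fun j => by
        rw [RingHom.comp_apply, h5, map_mul, map_pow, RingHom.coe_coe, hemb, Units.val_mul, mul_pow,
          mul_assoc]
        simp [CS.co]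
    exact h6
  rw [← key y rfl, key y' h.symm]

theorem le_of_pt [Finite τ] (hEX : S_EX) (hEMB : S_EMB) (hLOC : S_LOC) {x y : Y}
    (h : c.pt y ≤ c.pt x) : x ≤ y := by
  obtain ⟨i, hi, hu⟩ := c.bpf x
  let := algR κ y
  have H : Ch w (c.co y) (c.pt x) i := ⟨h, hi, (unit_iff c x i).1 hu⟩
  obtain ⟨_, -, hO, -⟩ := hLOC F τ w (Rf y) (c.co y) (c.pt x) i H
  have hg : ∀ f, eval₂ (algebraMap F _) (fun j => germ H (X j)) f = germ H f := fun f =>
    (map_aeval' (germ H) X f).symm.trans (by rw [aeval_X_left_apply])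
  have hz : ∀ f d, IsWeightedHomogeneous w f d → (germ H f = 0 ↔ f ∈ c.pt y) := fun f d hf => by
    rw [← ZeroMemClass.coe_eq_zero, coe_germ_of_hom H hf, div_eq_zero_iff,
      or_iff_left (pow_ne_zero _ H.ne)]
    exact (mem_vanw_of_hom hf).symm
  obtain ⟨y₁, ψ, e, hψ, h1, h2⟩ := c.ex' (algebraMap F (locw w (c.co y) (c.pt x)))
    (fun j => germ H (X j)) ⟨i, hi, (germ_X H).symm ▸ isUnit_one⟩ fun f hf => by
      rw [hg]
      have h3 : J ≤ RingHom.ker (germ H) :=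
        c.hom.le_of_hom fun g d hd hg => (hz g d hd).2 (le_pt c y hg)
      exact h3 hf
  have h3 : c.pt y₁ = c.pt x := ext_hom (hom_pt c _) (hom_pt c _) fun f d hf => by
    rw [mem_pt c y₁ hf, ← isUnit_map_iff ψ, scale _ _ ψ h1 _ _ e h2 hf,
      (e.isUnit.pow d).mul_left_iff, hg, hO f d hf, not_not]
  obtain ⟨y₂, h4, h5⟩ := Cyc.exists_primeOf (RingHom.ker ψ) (hQ := RingHom.ker_isPrime ψ)
  have h6 : c.pt y₂ = c.pt y := ext_hom (hom_pt c _) (hom_pt c _) fun f d hf => by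
    rw [mem_pt_of_le c h4 hf, ← h5, RingHom.mem_ker, scale _ _ ψ h1 _ _ e h2 hf,
      (e.isUnit.pow d).mul_right_eq_zero, hg, hz f d hf]
  rw [← inj c hEX hEMB h3, ← inj c hEX hEMB h6]
  exact h4

end PTS1

theorem t_PTS1 : S_EX → S_EMB → S_LOC → S_PTS1 := by
  intro hEX hEMB hLOC F _ Y κ τ _ w J c
  refine ⟨fun y => ⟨PTS1.hom_pt c y, PTS1.le_pt c y, ?_, fun i _ => PTS1.unit_iff c y i⟩,
    fun x y => ⟨fun h => ?_, PTS1.le_of_pt c hEX hEMB hLOC⟩, ?_⟩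
  · obtain ⟨i, hi, hu⟩ := c.bpf y
    exact ⟨i, hi, (PTS1.unit_iff c y i).1 hu⟩
  · refine (PTS1.hom_pt c y).le_of_hom fun f d hf h1 => (PTS1.mem_pt c x hf).2 ?_
    exact le_maximalIdeal (Cyc.primeOf_isPrime h).ne_top ((PTS1.mem_pt_of_le c h hf).1 h1)
  · rintro q hq h1 h2 ⟨i, hi, hX⟩
    obtain ⟨L, _, _, ξ, h3, h4, -⟩ := hEX F τ w q i h1 hi hX
    obtain ⟨z, ψ, e, hψ, h5, h6⟩ := c.ex' (algebraMap F L) ξ ⟨i, hi, h4 ▸ isUnit_one⟩
      fun f hf => aeval_eq_zero_of_mem_vanw (w := w) (h3 ▸ h2 hf)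
    exact ⟨z, (PTS1.pt_eq c ξ ψ e h5 h6).trans h3⟩

end Pool.Agent.P.MP_12d50c_ag
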