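import Pool.Agent.P.MP_12d50c_ag.If5

/-!
The local rings of subvarieties in coordinates.
-/

open CategoryTheory AlgebraicGeometry IsLocalRing MvPolynomial
open Pool.Agent.P.MP_638e8a_ag.Cyc (St Rf ev primeOf ev_sp sp_refl ev_eq_zero primeOf_self)

namespace Pool.Agent.P.MP_12d50c_ag

namespace PTS2

variable {F : Type} [Field F] {Y : Scheme.{0}} {κ : Y ⟶ Spec (.of F)} {τ : Type} {w : τ → ℕ}
  {J : Ideal (MvPolynomial τ F)} (c : CS κ w J)

theorem ev_cstk {x y : Y} (h : x ≤ y) :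
    (ev h).comp (cstk κ x) = (ev (le_refl y)).comp (cstk κ y) :=
  RingHom.ext fun a => by rw [RingHom.comp_apply, RingHom.comp_apply, ← sp_cstk κ h, ev_sp]

theorem scale {x y : Y} (h : x ≤ y) :
    letI := algR κ y
    ∃ u : Rf y, u ≠ 0 ∧ (∀ i, c.co y i = u ^ w i * ev h (c.s x i)) ∧
      ∀ f d, IsWeightedHomogeneous w f d →
        aeval (c.co y) f = u ^ d * ev h (eval₂ (cstk κ x) (c.s x) f) := by
  let := algR κ y
  obtain ⟨e, he⟩ := c.unit h
  have h1 : ∀ i, c.co y i = ev (le_refl y) e ^ w i * ev h (c.s x i) := fun i => by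
    rw [CS.co, he, map_mul, map_pow, ev_sp]
  refine ⟨ev (le_refl y) e, (e.isUnit.map _).ne_zero, h1, fun f d hf => ?_⟩
  rw [funext h1, aeval_scale hf, eval₂_comp_left, ev_cstk h]
  rfl

theorem unit_iff (x : Y) {f : MvPolynomial τ F} {d : ℕ} (hf : IsWeightedHomogeneous w f d) :
    IsUnit (eval₂ (cstk κ x) (c.s x) f) ↔ f ∉ c.pt x := by
  let := algR κ x
  obtain ⟨u, h1, -, h2⟩ := scale c (le_refl x)
  rw [CS.pt, mem_vanw_of_hom hf, h2 f d hf, mul_eq_zero, or_iff_right (pow_ne_zero _ h1),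
    ev_eq_zero, primeOf_self, mem_maximalIdeal, mem_nonunits_iff, not_not]

end PTS2

open PTS2 in
theorem t_PTS2 : S_LOC → S_PTS1 → S_PTS2 := by
  intro hLOC hP F _ Y κ τ _ w J c x y h
  let := algR κ y
  obtain ⟨u, hu, hco, hsc⟩ := scale c h
  have hge : ∀ v ∈ locw w (c.co y) (c.pt x), v ∈ (ev h).range := by
    rintro v ⟨d, g, g', h1, h2, h3, h4⟩
    obtain ⟨t, ht⟩ := (unit_iff c x h2).2 h3
    refine ⟨eval₂ (cstk κ x) (c.s x) g * ↑t⁻¹, ?_⟩
    rw [hsc _ _ h1, hsc _ _ h2, ← ht, mul_left_comm] at h4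
    rw [map_mul, ← mul_left_cancel₀ (pow_ne_zero _ hu) h4, mul_assoc, ← map_mul, t.mul_inv,
      map_one, mul_one]
  refine Set.Subset.antisymm ?_ hge
  obtain ⟨h1, h2, -⟩ := hP F Y κ τ w J c
  obtain ⟨i, hw, hi⟩ := c.bpf x
  have hc : Ch w (c.co y) (c.pt x) i := ⟨(h2 x y).1 h, hw, ((h1 x).2.2.2 i hw).1 hi⟩
  obtain ⟨_, -, h3, h4, -⟩ := hLOC F τ w (Rf y) (c.co y) (c.pt x) i hc
  have hJ : J ≤ RingHom.ker (germ hc) := c.hom.le_of_hom fun f d hf hf' => Subtype.ext (by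
    rw [coe_germ_of_hom hc hf, aeval_eq_zero_of_mem_vanw ((h1 y).2.1 hf'), zero_div]
    rfl)
  obtain ⟨y₁, ψ, e, hψ, h5, h6⟩ := c.ex' (algebraMap F (locw w (c.co y) (c.pt x)))
    (fun j => germ hc (X j)) ⟨i, hw, by rw [germ_X]; exact isUnit_one⟩ fun f hf => by
      rw [← aeval_def]
      exact (DFunLike.congr_fun (aeval_unique (germ hc)) f).symm.trans (hJ hf)
  let ρ := (ev h).rangeRestrict
  have hρ : Function.Surjective ρ := (ev h).rangeRestrict_surjective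
  have : IsLocalRing (ev h).range := .of_surjective' ρ hρ
  have : IsLocalHom ρ := .of_surjective ρ hρ
  let ι : locw w (c.co y) (c.pt x) →+* (ev h).range :=
    ((locw w (c.co y) (c.pt x)).val : _ →+* Rf y).codRestrict _ fun v => hge v v.2
  have h0 : ev h (c.s x i) ≠ 0 := (hi.map _).ne_zero
  have hg : ∀ f d, IsWeightedHomogeneous w f d →
      ι (germ hc f) * ρ (c.s x i) ^ d = ρ (eval₂ (cstk κ x) (c.s x) f) := fun f d hf =>
    Subtype.ext (by
      change (germ hc f : Rf y) * ev h (c.s x i) ^ d = ev h _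
      rw [coe_germ_of_hom hc hf, hsc f d hf, hco, hw, pow_one]
      field_simp
      ring)
  have : IsLocalHom ι := ⟨fun v hv => by
    obtain ⟨d, g, g', h7, h8, h9, h10⟩ := h4 v
    have h11 : IsUnit (ρ (eval₂ (cstk κ x) (c.s x) g)) := by
      rw [← hg g d h7, ← h10, map_mul]
      exact (hv.mul (((h3 _ _ h8).2 h9).map ι)).mul ((hi.map ρ).pow d)
    have h12 := (h3 _ _ h7).2 ((unit_iff c x h7).1 ((isUnit_map_iff ρ _).1 h11))
    rw [← h10] at h12
    exact isUnit_of_mul_isUnit_left h12⟩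
  obtain ⟨t, ht⟩ := hi.map ρ
  have H := c.sep' (ι.comp ψ) ρ (Units.map ι.toMonoidHom e * t⁻¹) ?_ fun j => ?_
  · obtain ⟨rfl, h7⟩ := H
    rintro _ ⟨a, rfl⟩
    have h8 := congrArg Subtype.val (RingHom.congr_fun h7 a)
    rw [RingHom.comp_apply, RingHom.comp_apply, sp_refl] at h8
    have h9 : (ψ a).1 = ev h a := h8
    exact h9 ▸ (ψ a).2
  · rw [RingHom.comp_assoc, h5]
    exact RingHom.ext fun a => Subtype.ext (RingHom.congr_fun (ev_cstk h) a).symm
  · have h7 := hg (X j) (w j) (isWeightedHomogeneous_X F w j)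
    rw [eval₂_X] at h7
    rw [RingHom.comp_apply, h6, map_mul, map_pow, ← h7, ← ht, Units.val_mul, mul_pow,
      mul_comm (ι (germ hc (X j))), mul_assoc, ← mul_assoc ((↑t⁻¹ : (ev h).range) ^ _),
      ← mul_pow, t.inv_mul, one_pow, one_mul]
    rfl

end Pool.Agent.P.MP_12d50c_ag
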