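import Pool.Agent.P.MP_12d50c_ag.If5

/-!
The local rings of an integral scheme in coordinates.
-/

open CategoryTheory AlgebraicGeometry IsLocalRing MvPolynomial
open Pool.Agent.P.MP_638e8a_ag
open Pool.Agent.P.MP_638e8a_ag.Cyc (St Rf ev stm primeOf)

namespace Pool.Agent.P.MP_12d50c_ag

namespace PTS3

variable {F : Type} [Field F] {Y : Scheme.{0}} {κ : Y ⟶ Spec (.of F)} {τ : Type} {w : τ → ℕ}
  {J : Ideal (MvPolynomial τ F)} (c : CS κ w J) {x v : Y} {i : τ}

theorem co_eq (h : x ≤ v) : ∃ E : Rf v, E ≠ 0 ∧ ∀ j, c.co v j = E ^ w j * ev h (c.s x j) := by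
  obtain ⟨e, he⟩ := c.unit h
  refine ⟨ev (le_refl v) (e : St v), (e.isUnit.map _).ne_zero, fun j => ?_⟩
  rw [CS.co, he, map_mul, map_pow, Cyc.ev_sp]

theorem co_ne (h : x ≤ v) (hi : IsUnit (c.s x i)) : c.co v i ≠ 0 := by
  obtain ⟨E, h1, h2⟩ := co_eq c h
  rw [h2]
  exact mul_ne_zero (pow_ne_zero _ h1) (hi.map _).ne_zero

theorem ev_th (h : x ≤ v) (hi : IsUnit (c.s x i)) (hw : w i = 1) (f : MvPolynomial τ F) :
    letI := algR κ v
    ev h (c.th x hi f) = aeval (fun j => c.co v j / c.co v i ^ w j) f := by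
  let := algR κ v
  obtain ⟨E, h1, h2⟩ := co_eq c h
  have h3 : ev h (c.s x i) ≠ 0 := (hi.map _).ne_zero
  have h4 : ev h ((hi.unit⁻¹ : (St x)ˣ) : St x) = (ev h (c.s x i))⁻¹ := by
    refine eq_inv_of_mul_eq_one_left ?_
    rw [← map_mul, IsUnit.val_inv_mul, map_one]
  induction f using MvPolynomial.induction_on with
  | C a =>
    rw [CS.th, eval₂Hom_C, aeval_C]
    change _ = ev (le_refl v) (cstk κ v a)
    rw [← sp_cstk κ h, Cyc.ev_sp]
  | add f g hf hg => rw [map_add, map_add, map_add, hf, hg]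
  | mul_X f j hf =>
    rw [map_mul, map_mul, map_mul, hf, aeval_X, CS.th, eval₂Hom_X', map_mul, Units.val_pow_eq_pow_val,
      map_pow, h4, h2, h2, hw, pow_one, mul_pow, mul_div_mul_left _ _ (pow_ne_zero _ h1), inv_pow,
      div_eq_mul_inv]

theorem ev_th_hom (h : x ≤ v) (hi : IsUnit (c.s x i)) (hw : w i = 1) {f : MvPolynomial τ F}
    {d : ℕ} (hf : IsWeightedHomogeneous w f d) :
    letI := algR κ v
    ev h (c.th x hi f) = aeval (c.co v) f / c.co v i ^ d := by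
  let := algR κ v
  rw [ev_th c h hi hw, div_eq_inv_mul, ← inv_pow, ← aeval_scale hf]
  simp only [div_eq_inv_mul, inv_pow]

theorem th_mem (h : x ≤ v) (hi : IsUnit (c.s x i)) (hw : w i = 1) {f : MvPolynomial τ F}
    {d : ℕ} (hf : IsWeightedHomogeneous w f d) : c.th x hi f ∈ primeOf x v ↔ f ∈ c.pt v := by
  let := algR κ v
  rw [← Cyc.ev_eq_zero h, ev_th_hom c h hi hw hf, div_eq_zero_iff,
    or_iff_left (pow_ne_zero _ (co_ne c h hi))]
  exact (mem_vanw_of_hom hf).symm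

theorem th_unit (hi : IsUnit (c.s x i)) (hw : w i = 1) {f : MvPolynomial τ F}
    {d : ℕ} (hf : IsWeightedHomogeneous w f d) (h : f ∉ c.pt x) : IsUnit (c.th x hi f) := by
  rw [← th_mem c (le_refl x) hi hw hf, Cyc.primeOf_self] at h
  exact not_not.1 h

theorem ev_inj [IsIntegral Y] (x : Y) : Function.Injective (ev (Cyc.le_gen x)) := by
  rw [injective_iff_map_eq_zero]
  intro a ha
  rwa [Cyc.ev_eq_zero, Cyc.primeOf_gen, Ideal.mem_bot] at ha

theorem length_map {R S : Type} [CommRing R] [CommRing S] (e : R ≃+* S) (I : Ideal R) :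
    Module.length R (R ⧸ I) = lq (I.map (e : R →+* S)) := by
  let := (e : R →+* S).toAlgebra
  have h1 : Function.Surjective (algebraMap R S) := e.surjective
  have e' : (R ⧸ I) ≃ₐ[R] (S ⧸ I.map (e : R →+* S)) :=
    AlgEquiv.ofRingEquiv (f := Ideal.quotientEquiv I _ e rfl) fun _ => rfl
  rw [e'.toLinearEquiv.length_eq, lq]
  exact Module.length_eq_of_surjective (R := S) (S := R) (M := S ⧸ I.map (e : R →+* S)) h1

end PTS3

open PTS3 in
theorem t_PTS3 : S_LOC → S_FL → S_PTS1 → S_PTS2 → S_PTS3 := by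
  intro _ hFL hP1 hP2 F _ Y _ κ τ _ w J c x i hi hw
  obtain ⟨h1, h2, -⟩ := hP1 F Y κ τ w J c
  have hg := Cyc.le_gen x
  let := algR κ (genericPoint Y)
  have hr := hP2 F Y κ τ w J c x _ hg
  have hinj : Function.Injective (ev hg) := ev_inj x
  have hc : Ch w (c.co (genericPoint Y)) (c.pt x) i :=
    ⟨(h2 _ _).1 hg, hw, ((h1 x).2.2.2 i hw).1 hi⟩
  have hmem : ∀ u, ev hg u ∈ locw w (c.co (genericPoint Y)) (c.pt x) := fun u => by
    have : ev hg u ∈ Set.range (ev hg) := ⟨u, rfl⟩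
    rwa [hr] at this
  have hfr : ∀ u, ∃ d g g', IsWeightedHomogeneous w g d ∧ IsWeightedHomogeneous w g' d ∧
      g' ∉ c.pt x ∧ u * c.th x hi g' = c.th x hi g := fun u => by
    obtain ⟨d, g, g', h3, h4, h5, h6⟩ := hmem u
    refine ⟨d, g, g', h3, h4, h5, hinj ?_⟩
    rw [map_mul, ev_th_hom c hg hi hw h3, ev_th_hom c hg hi hw h4, ← h6, mul_div_assoc]
  let e0 : St x →+* locw w (c.co (genericPoint Y)) (c.pt x) := (ev hg).codRestrict _ hmem
  have hb : Function.Bijective e0 := by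
    refine ⟨fun a b hab => hinj (congrArg Subtype.val hab), fun u => ?_⟩
    have : (u : Rf (genericPoint Y)) ∈ Set.range (ev hg) := by
      rw [hr]
      exact u.2
    obtain ⟨a, ha⟩ := this
    exact ⟨a, Subtype.ext ha⟩
  let e := RingEquiv.ofBijective e0 hb
  have he : (e : St x →+* locw w (c.co (genericPoint Y)) (c.pt x)).comp (c.th x hi) =
      (germ hc : MvPolynomial τ F →+* locw w (c.co (genericPoint Y)) (c.pt x)) :=
    RingHom.ext fun f => Subtype.ext ((ev_th c hg hi hw f).trans (coe_germ hc f).symm)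
  obtain ⟨h7, h8⟩ := hFL F τ w _ _ (c.pt x) i hc (h1 x).1
  refine ⟨fun f d hf => ?_, fun u => ?_, fun v => ?_, fun J' hJ' => ?_, ?_⟩
  · rw [← th_mem c hg hi hw hf, Cyc.primeOf_gen, Ideal.mem_bot]
  · obtain ⟨d, g, g', -, h4, h5, h6⟩ := hfr u
    exact ⟨g, g', th_unit c hi hw h4 h5, h6⟩
  · by_cases hv : x ≤ v
    · refine le_antisymm (fun u hu => ?_) (Ideal.map_le_iff_le_comap.2
        ((h1 v).1.le_of_hom fun f d hf hm => (th_mem c hv hi hw hf).2 hm))
      obtain ⟨d, g, g', h3, h4, h5, h6⟩ := hfr u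
      have h9 : g ∈ c.pt v := (th_mem c hv hi hw h3).1 (h6 ▸ Ideal.mul_mem_right _ _ hu)
      have h10 := Ideal.mem_map_of_mem (c.th x hi) h9
      rwa [← h6, Ideal.mul_unit_mem_iff_mem _ (th_unit c hi hw h4 h5)] at h10
    · rw [Cyc.primeOf_eq_top hv, eq_comm]
      by_contra h3
      refine hv ((h2 _ _).2 ((h1 v).1.le_of_hom fun f d hf hm => by_contra fun h4 => h3 ?_))
      exact Ideal.eq_top_of_isUnit_mem _ (Ideal.mem_map_of_mem _ hm) (th_unit c hi hw hf h4)
  · rw [length_map e, Ideal.map_map, he]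
    exact h8 J' hJ'
  · rw [ringKrullDim_eq_of_ringEquiv e, h7]
    exact dim_LQ F hc.le

end Pool.Agent.P.MP_12d50c_ag
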