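import Pool.Agent.P.MP_12d50c_ag.If3

/-! The spectral gap on one curve. -/

open MvPolynomial Function
open scoped Nat

namespace Pool.Agent.P.MP_12d50c_ag

namespace QF

variable {k : Type} [Field k] {N : ℕ}

theorem ncard_split {I : Ideal (PP k N)} (hI : Hom I) {F : Subfield k} {a b : PP k N}
    (h : Split I F a b) : (Zs I a b).ncard = deg I a b := by
  classical
  obtain ⟨e, ha⟩ := h.1.hl
  obtain ⟨e', hb⟩ := h.1.hr
  have hH : Hom (I ⊔ Ideal.span {a, b}) := WHom.sup hI (wHom_span (by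
    rintro _ (rfl | rfl)
    exacts [⟨e, ha⟩, ⟨e', hb⟩]))
  have h0 : ∀ y, y ∉ Zs I a b → inter I y a b = 0 := fun y hy => by
    rw [inter, len_eq_zero_iff, ← hH.on_iff, on_sup, on_span]
    simpa [Zs] using hy
  rw [deg, finsum_eq_sum_of_support_subset (s := h.1.fin.toFinset),
    Set.ncard_eq_toFinset_card _ h.1.fin, Finset.card_eq_sum_ones]
  · refine Finset.sum_congr rfl fun y hy => ?_
    rw [(h.2 y (h.1.fin.mem_toFinset.1 hy)).2]
    rfl
  · intro y hy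
    by_contra h1
    rw [mem_support, h0 y (by simpa using h1)] at hy
    exact hy rfl

theorem cnt2 (h : S_CNT) {m : ℕ} (hm : 5 ≤ m) (F : Subfield k) [Finite F] {z z' : NP k N}
    (hz : RatPt F z) (hz' : RatPt F z') (h1 : z ≠ z') :
    {c : Mon N m → F | aeval z.1 (formF c) = 0 ∧ aeval z'.1 (formF c) = 0}.ncard *
      Nat.card F ^ 2 = Nat.card (Mon N m → F) := by
  have h2 := (h k N m F (Fin 2) ![z, z'] (fun i j => by
    fin_cases i <;> fin_cases j <;> simp [h1, h1.symm]) (fun i => by fin_cases i <;> simpa)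
    (by simp; omega)).2 inferInstance
  simpa [Fin.forall_fin_two] using h2

theorem cnt3 (h : S_CNT) {m : ℕ} (hm : 5 ≤ m) (F : Subfield k) [Finite F] {z z' z'' : NP k N}
    (hz : RatPt F z) (hz' : RatPt F z') (hz'' : RatPt F z'') (h1 : z ≠ z') (h2 : z ≠ z'')
    (h3 : z' ≠ z'') :
    {c : Mon N m → F | aeval z.1 (formF c) = 0 ∧ aeval z'.1 (formF c) = 0 ∧
      aeval z''.1 (formF c) = 0}.ncard * Nat.card F ^ 3 = Nat.card (Mon N m → F) := by
  have h4 := (h k N m F (Fin 3) ![z, z', z''] (fun i j => by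
    fin_cases i <;> fin_cases j <;> simp [h1, h1.symm, h2, h2.symm, h3, h3.symm])
    (fun i => by fin_cases i <;> simpa) (by simp; omega)).2 inferInstance
  simpa [Fin.forall_fin_succ] using h4

end QF

open QF in
theorem t_QF : S_DEG → S_CNT → S_KEY → S_QF0 → S_QF := by
  intro hDEG hCNT hKEY hQ k _ _ p hp _ N I n m hI hn hm
  obtain ⟨d, hmd, hdeg⟩ := hDEG k N I n m hI hn
  have hd0 : (0 : ℝ) < d := by exact_mod_cast (by omega : 0 < d)
  have hK : (0 : ℝ) < ((d - 2)! : ℕ) := by exact_mod_cast Nat.factorial_pos _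
  obtain ⟨s₀, hs₀⟩ := hKEY k p N I n m d (1 / (4 * d)) hI.toIsSm hn hm hmd hdeg (by positivity)
  refine ⟨d, 1 / (8 * d * ((d - 2)! : ℕ) ^ 2), max s₀ ((8 * d + 4) * (d - 2)!), by omega,
    by positivity, fun s F a hs hF hIF ha hg haF => ?_⟩
  have hZ : ∀ b : PP k N, b.IsHomogeneous m → Split I F a b → (Zs I a b).ncard = d :=
    fun b hb h => (ncard_split hI.hom h).trans (hdeg a b ha hg hb h.1)
  refine ⟨hZ, fun C P S v hC hP hS hP2 => ?_⟩
  have := hF.finite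
  have hq1 : (8 * d + 4) * (d - 2)! ≤ (p ^ s) ^ 2 :=
    ((le_max_right _ _).trans hs).trans ((Nat.lt_pow_self hp.out.one_lt).le.trans
      (Nat.le_self_pow two_ne_zero _))
  have hq0 : (0 : ℝ) < ((p : ℝ) ^ s) ^ 2 := by
    have : (0 : ℝ) < p := by exact_mod_cast hp.out.pos
    positivity
  have hq2 : ((8 * d + 4) * ((d - 2)! : ℕ) : ℝ) ≤ ((p : ℝ) ^ s) ^ 2 := by exact_mod_cast hq1
  have hcard : (Nat.card F : ℝ) = ((p : ℝ) ^ s) ^ 2 := by exact_mod_cast hF.card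
  have hV : (0 : ℝ) < Nat.card (Mon N m → F) := by exact_mod_cast Nat.card_pos
  generalize ((p : ℝ) ^ s) ^ 2 = q at hq0 hq2 hcard ⊢
  have hmem : ∀ c ∈ C, ∀ y ∈ P, y ∈ S c ↔ aeval y.1 (formF c) = 0 := fun c hc y hy => by
    rw [hS c hc]
    exact ⟨fun h => h.2.2, fun h => ⟨((hP y).1 hy).2.1, ((hP y).1 hy).2.2, h⟩⟩
  have key := hQ _ _ P C S d (Nat.card (Mon N m → F) / (((d - 2)! : ℕ) * q ^ 2))
    (Nat.card (Mon N m → F) / q ^ 3) v (by omega) hP2 (by positivity) ?_ ?_ ?_ ?_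
  · have e : ((Nat.card (Mon N m → F) : ℝ) / (((d - 2)! : ℕ) * q ^ 2)) ^ 2 /
        (8 * d * (Nat.card (Mon N m → F) / q ^ 3)) =
        1 / (8 * d * ((d - 2)! : ℕ) ^ 2) * Nat.card (Mon N m → F) / q := by
      field_simp
    rw [e, div_mul_eq_mul_div, div_le_iff₀ hq0] at key
    exact key.trans_eq (mul_comm _ _)
  · rw [← mul_div_assoc, div_le_div_iff₀ (by positivity) (by positivity)]
    have := mul_le_mul_of_nonneg_right hq2 (show 0 ≤ Nat.card (Mon N m → F) * q ^ 2 by positivity)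
    nlinarith
  · intro c hc
    have h1 := (hC c).1 hc
    refine ⟨fun y hy => ?_, ?_⟩
    · have h2 := (hS c hc y).1 hy
      exact (hP y).2 ⟨(h1.2 y h2).1, h2.1, h2.2.1⟩
    · rw [← hZ _ (form_isHomogeneous _) h1, ← Set.ncard_coe_finset]
      congr 1
      ext y
      exact hS c hc y
  · intro z hz z' hz' hzz
    obtain ⟨a1, a2, a3⟩ := (hP z).1 hz
    obtain ⟨b1, b2, b3⟩ := (hP z').1 hz'
    have h1 := hs₀ s F a z z' ((le_max_left _ _).trans hs) hF hIF ha hg haF hzz a1 b1 a2 b2 a3 b3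
    have h2 : {c | c ∈ C ∧ z ∈ S c ∧ z' ∈ S c} = {c : Mon N m → F | Split I F a (formF c) ∧
        aeval z.1 (formF c) = 0 ∧ aeval z'.1 (formF c) = 0} := by
      ext c
      simp only [Set.mem_ofPred_eq, ← hC]
      exact and_congr_right fun hc => by rw [hmem c hc z hz, hmem c hc z' hz']
    have h3 := congrArg (Nat.cast : ℕ → ℝ) (cnt2 hCNT hm F a1 b1 hzz)
    rw [Nat.cast_mul, Nat.cast_pow, hcard] at h3
    rw [h2, ← h3]
    generalize (({c : Mon N m → F | Split I F a (formF c) ∧ aeval z.1 (formF c) = 0 ∧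
      aeval z'.1 (formF c) = 0}.ncard : ℕ) : ℝ) = A at h1 ⊢
    generalize (({c : Mon N m → F | aeval z.1 (formF c) = 0 ∧
      aeval z'.1 (formF c) = 0}.ncard : ℕ) : ℝ) = W at h1 ⊢
    have e1 : A - W * q ^ 2 / (((d - 2)! : ℕ) * q ^ 2) = (((d - 2)! : ℕ) * A - W) / (d - 2)! := by
      field_simp
    have e2 : W * q ^ 2 / (((d - 2)! : ℕ) * q ^ 2) / (4 * d) = 1 / (4 * d) * W / (d - 2)! := by
      field_simp
    rw [e1, e2, abs_div, abs_of_pos hK]
    exact div_le_div_of_nonneg_right h1 hK.le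
  · intro z hz z' hz' z'' hz'' h1 h2 h3
    have h4 := congrArg (Nat.cast : ℕ → ℝ)
      (cnt3 hCNT hm F ((hP z).1 hz).1 ((hP z').1 hz').1 ((hP z'').1 hz'').1 h1 h2 h3)
    rw [Nat.cast_mul, Nat.cast_pow, hcard] at h4
    rw [← h4, mul_div_assoc, div_self (by positivity), mul_one]
    refine Nat.cast_le.2 (Set.ncard_le_ncard (fun c hc => ?_) (Set.toFinite _))
    exact ⟨(hmem c hc.1 z hz).1 hc.2.1, (hmem c hc.1 z' hz').1 hc.2.2.1,
      (hmem c hc.1 z'' hz'').1 hc.2.2.2⟩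

end Pool.Agent.P.MP_12d50c_ag
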