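import Pool.Agent.P.MP_12d50c_ag.If3

/-! Approximate designs have a spectral gap. -/

namespace Pool.Agent.P.MP_12d50c_ag

namespace QF0

open Finset
open scoped Classical

variable {α β : Type}

/-- The indicator of a block. -/
noncomputable def ind (S : β → Finset α) (c : β) (z : α) : ℝ := if z ∈ S c then 1 else 0

theorem ind_sq (S : β → Finset α) (c : β) (z : α) : ind S c z * ind S c z = ind S c z := by
  unfold ind
  split_ifs <;> simp

theorem ncard_eq (C : Finset β) (q : β → Prop) :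
    ({c | c ∈ C ∧ q c}.ncard : ℝ) = ∑ c ∈ C, if q c then (1 : ℝ) else 0 := by
  rw [Finset.sum_boole, ← Set.ncard_coe_finset]
  congr 2
  ext c
  simp

theorem n2_eq (C : Finset β) (S : β → Finset α) (z z' : α) :
    ({c | c ∈ C ∧ z ∈ S c ∧ z' ∈ S c}.ncard : ℝ) = ∑ c ∈ C, ind S c z * ind S c z' := by
  rw [ncard_eq]
  refine sum_congr rfl fun c _ => ?_
  unfold ind
  by_cases h : z ∈ S c <;> by_cases h' : z' ∈ S c <;> simp [h, h']

theorem n3_eq (C : Finset β) (S : β → Finset α) (z z' z'' : α) :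
    ({c | c ∈ C ∧ z ∈ S c ∧ z' ∈ S c ∧ z'' ∈ S c}.ncard : ℝ) =
      ∑ c ∈ C, ind S c z * ind S c z' * ind S c z'' := by
  rw [ncard_eq]
  refine sum_congr rfl fun c _ => ?_
  unfold ind
  by_cases h : z ∈ S c <;> by_cases h' : z' ∈ S c <;> by_cases h'' : z'' ∈ S c <;>
    simp [h, h', h'']

theorem sum_ind {P : Finset α} {S : β → Finset α} {c : β} (h : S c ⊆ P) (v : α → ℝ) :
    ∑ z ∈ P, ind S c z * v z = ∑ z ∈ S c, v z := by
  rw [← sum_subset h (f := fun z => ind S c z * v z) fun z _ hz => by simp [ind, hz]]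
  exact sum_congr rfl fun z hz => by simp [ind, hz]

theorem sum_w {P : Finset α} {C : Finset β} {S : β → Finset α} {d : ℕ}
    (h : ∀ c ∈ C, S c ⊆ P ∧ (S c).card = d) (w : β → ℝ) :
    ∑ z ∈ P, ∑ c ∈ C, w c * ind S c z = d * ∑ c ∈ C, w c := by
  rw [sum_comm, mul_sum]
  refine sum_congr rfl fun c hc => ?_
  have h1 := sum_ind (h c hc).1 (fun _ => (1 : ℝ))
  simp only [mul_one, sum_const, (h c hc).2, nsmul_eq_mul] at h1
  rw [← mul_sum, h1, mul_comm]

end QF0

open Finset QF0 in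
theorem t_QF0 : S_QF0 := by
  classical
  intro α β P C S d ν μ v hd hP hμ hν hS h2 h3
  simp only [n2_eq] at h2
  simp only [n3_eq] at h3
  set n : α → α → ℝ := fun z z' => ∑ c ∈ C, ind S c z * ind S c z' with hn
  have hd3 : (3 : ℝ) ≤ d := by exact_mod_cast hd
  have hν0 : 0 < ν := lt_of_lt_of_le (by positivity) hν
  have hP2 : (2 : ℝ) ≤ P.card := by exact_mod_cast hP
  obtain ⟨e, he⟩ : ∃ e, e = ν / (4 * d) := ⟨_, rfl⟩
  rw [← he] at h2
  have he1 : 4 * d * e = ν := by rw [he]; field_simp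
  have he0 : 0 < e := by rw [he]; positivity
  have hlow : ∀ z ∈ P, ∀ z' ∈ P, z ≠ z' → ν - e ≤ n z z' := fun z hz z' hz' h => by
    have := (abs_le.1 (h2 z hz z' hz' h)).1
    simp only [hn]
    linarith
  have hdiag : ∀ z ∈ P, 3 * (P.card - 1) * e ≤ n z z := fun z hz => by
    have h4 : ∑ z' ∈ P, n z z' = d * n z z := by
      simp only [hn, ind_sq]
      exact sum_w hS _
    rw [← add_sum_erase P _ hz] at h4
    have h5 : ((P.erase z).card : ℝ) * (ν - e) ≤ ∑ z' ∈ P.erase z, n z z' := by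
      rw [← nsmul_eq_mul]
      exact card_nsmul_le_sum _ _ _ fun z' hz' =>
        hlow z hz z' (mem_of_mem_erase hz') (ne_of_mem_erase hz').symm
    rw [card_erase_of_mem hz, Nat.cast_sub (by omega), Nat.cast_one] at h5
    refine le_of_mul_le_mul_left ?_ (show (0 : ℝ) < d - 1 by linarith)
    have h6 : 0 ≤ (P.card - 1 : ℝ) * e := by
      have : (0 : ℝ) ≤ P.card - 1 := by linarith
      positivity
    rw [← he1] at h5
    nlinarith
  have hbig : ν ≤ 2 * (P.card * μ) := by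
    obtain ⟨z, hz, z', hz', hzz⟩ := one_lt_card.1 (show 1 < P.card by omega)
    have hz2 : z' ∈ P.erase z := mem_erase.2 ⟨hzz.symm, hz'⟩
    have h4 : ∑ z'' ∈ P, ∑ c ∈ C, ind S c z * ind S c z' * ind S c z'' = d * n z z' :=
      sum_w hS _
    rw [← add_sum_erase P _ hz, ← add_sum_erase _ _ hz2] at h4
    have h5 : ∑ c ∈ C, ind S c z * ind S c z' * ind S c z = n z z' :=
      sum_congr rfl fun c _ => by rw [mul_right_comm, ind_sq]
    have h6 : ∑ c ∈ C, ind S c z * ind S c z' * ind S c z' = n z z' :=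
      sum_congr rfl fun c _ => by rw [mul_assoc, ind_sq]
    have h7 : ∑ z'' ∈ (P.erase z).erase z', ∑ c ∈ C, ind S c z * ind S c z' * ind S c z'' ≤
        ((P.erase z).erase z').card • μ :=
      sum_le_card_nsmul _ _ _ fun y hy => h3 z hz z' hz' y
        (mem_of_mem_erase (mem_of_mem_erase hy)) hzz
        (ne_of_mem_erase (mem_of_mem_erase hy)).symm (ne_of_mem_erase hy).symm
    have h8 : (((P.erase z).erase z').card : ℝ) ≤ P.card := by
      exact_mod_cast card_le_card ((erase_subset _ _).trans (erase_subset _ _))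
    rw [nsmul_eq_mul] at h7
    have h9 := hlow z hz z' hz' hzz
    have h10 := mul_le_mul_of_nonneg_right h8 hμ.le
    have h11 : ν / 2 ≤ n z z' := by nlinarith
    nlinarith
  have hR : ∑ c ∈ C, (∑ z ∈ S c, v z) ^ 2 = ∑ z ∈ P, ∑ z' ∈ P, n z z' * (v z * v z') := by
    have : ∀ c ∈ C, (∑ z ∈ S c, v z) ^ 2 =
        ∑ z ∈ P, ∑ z' ∈ P, ind S c z * ind S c z' * (v z * v z') := fun c hc => by
      rw [← sum_ind (hS c hc).1 v, sq, sum_mul_sum]
      exact sum_congr rfl fun z _ => sum_congr rfl fun z' _ => by ring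
    rw [sum_congr rfl this, sum_comm]
    refine sum_congr rfl fun z _ => ?_
    rw [sum_comm]
    exact sum_congr rfl fun z' _ => by rw [hn, sum_mul]
  have hterm : ∀ z ∈ P, ∀ z' ∈ P, ν * (v z * v z') - e / 2 * v z ^ 2 - e / 2 * v z' ^ 2 +
      (if z = z' then (3 * (P.card - 1) * e - ν + e) * v z ^ 2 else 0) ≤
      n z z' * (v z * v z') := fun z hz z' hz' => by
    split_ifs with h
    · subst h
      nlinarith [mul_le_mul_of_nonneg_right (hdiag z hz) (sq_nonneg (v z))]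
    · obtain ⟨h4, h5⟩ := abs_le.1 (h2 z hz z' hz' h)
      have h6 : 0 ≤ (e + (n z z' - ν)) * (v z + v z') ^ 2 :=
        mul_nonneg (by simp only [hn]; linarith) (sq_nonneg _)
      have h7 : 0 ≤ (e - (n z z' - ν)) * (v z - v z') ^ 2 :=
        mul_nonneg (by simp only [hn]; linarith) (sq_nonneg _)
      nlinarith
  rw [hR]
  refine le_trans ?_ (sum_le_sum fun z hz => sum_le_sum fun z' hz' => hterm z hz z' hz')
  have hsum : ∑ z ∈ P, ∑ z' ∈ P, (ν * (v z * v z') - e / 2 * v z ^ 2 - e / 2 * v z' ^ 2 +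
      (if z = z' then (3 * (P.card - 1) * e - ν + e) * v z ^ 2 else 0)) =
      ν * (∑ z ∈ P, v z) ^ 2 + (2 * (P.card - 1) * e - ν) * ∑ z ∈ P, v z ^ 2 := by
    have h4 : ∀ z ∈ P, ∑ z' ∈ P, (ν * (v z * v z') - e / 2 * v z ^ 2 - e / 2 * v z' ^ 2 +
        (if z = z' then (3 * (P.card - 1) * e - ν + e) * v z ^ 2 else 0)) =
        (ν * ∑ y ∈ P, v y) * v z + (3 * (P.card - 1) * e - ν + e - P.card * (e / 2)) * v z ^ 2 -
          e / 2 * ∑ y ∈ P, v y ^ 2 := fun z hz => by
      rw [sum_add_distrib, sum_sub_distrib, sum_sub_distrib, sum_ite_eq, if_pos hz, sum_const,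
        ← mul_sum, ← mul_sum, ← mul_sum, nsmul_eq_mul]
      ring
    rw [sum_congr rfl h4, sum_sub_distrib, sum_add_distrib, sum_const, ← mul_sum, ← mul_sum,
      nsmul_eq_mul]
    ring
  rw [hsum]
  have hN : 0 ≤ ∑ z ∈ P, v z ^ 2 := sum_nonneg fun z _ => sq_nonneg _
  have hc : ν ^ 2 / (8 * d * μ) ≤ 2 * (P.card - 1) * e - ν := by
    rw [div_le_iff₀ (by positivity)]
    have h4 : (2 * (P.card - 1) * e - ν) * (8 * d * μ) =
        ν * (4 * (P.card * μ) - (8 * d + 4) * μ) := by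
      rw [← he1]
      ring
    rw [h4, sq]
    exact mul_le_mul_of_nonneg_left (by linarith) hν0.le
  have := mul_le_mul_of_nonneg_right hc hN
  have := mul_nonneg hν0.le (sq_nonneg (∑ z ∈ P, v z))
  linarith

end Pool.Agent.P.MP_12d50c_ag
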