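import Pool.Agent.P.MP_12d50c_ag.If4

/-!
Descent of the theorem along a Galois extension of the ground field.
-/

open MvPolynomial Function

namespace Pool.Agent.P.MP_12d50c_ag

namespace RD

theorem sum_fib {α β : Type} (p : α → β) (T : Finset β) (T' : Finset α)
    (hT : ∀ a, a ∈ T' ↔ p a ∈ T) (hne : ∀ b, {a | p a = b}.Nonempty) (g : β → ℚ) :
    ∑ a ∈ T', g (p a) / ({a' | p a' = p a}.ncard : ℚ) = ∑ b ∈ T, g b := by
  classical
  rw [← Finset.sum_fiberwise_of_maps_to (g := p) (fun a ha => (hT a).1 ha)]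
  refine Finset.sum_congr rfl fun b hb => ?_
  have h1 : {a' | p a' = b} = ((T'.filter fun a => p a = b : Finset α) : Set α) := by
    ext a
    simp only [Set.mem_ofPred_eq, Finset.coe_filter]
    exact ⟨fun h => ⟨(hT a).2 (h ▸ hb), h⟩, fun h => h.2⟩
  have h2 : ({a' | p a' = b}.ncard : ℚ) ≠ 0 := by
    have h3 : {a' | p a' = b}.Finite := h1 ▸ Finset.finite_toSet _
    exact_mod_cast ((Set.ncard_pos h3).2 (hne b)).ne'
  rw [Finset.sum_congr rfl (g := fun _ => g b / ({a' | p a' = b}.ncard : ℚ))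
    (fun a ha => by rw [(Finset.mem_filter.1 ha).2]), Finset.sum_const, nsmul_eq_mul,
    ← Set.ncard_coe_finset, ← h1]
  field_simp

variable {F k : Type} [Field F] [Field k] [Algebra F k]

theorem map_ext (τ : Type) (σ : k ≃ₐ[F] k) :
    (map (σ : k →+* k) : MvPolynomial τ k →+* MvPolynomial τ k).comp (ext F k τ) = ext F k τ := by
  refine RingHom.ext fun f => ?_
  rw [RingHom.comp_apply, map_map]
  congr 2
  ext a
  simp

theorem map_symm (τ : Type) (σ : k ≃ₐ[F] k) :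
    (map (σ : k →+* k) : MvPolynomial τ k →+* MvPolynomial τ k).comp
      (map (σ.symm : k →+* k)) = RingHom.id _ := by
  refine RingHom.ext fun f => ?_
  rw [RingHom.comp_apply, map_map]
  have : (σ : k →+* k).comp (σ.symm : k →+* k) = RingHom.id k := by
    ext a
    simp
  rw [this, map_id]
  rfl

theorem cm_map {τ : Type} (σ : k ≃ₐ[F] k) (Q : PrimeSpectrum (MvPolynomial τ k)) :
    PrimeSpectrum.comap (ext F k τ) (PrimeSpectrum.comap (map (σ : k →+* k)) Q) =
      PrimeSpectrum.comap (ext F k τ) Q := by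
  rw [← PrimeSpectrum.comap_comp_apply, map_ext]

theorem map_smap {N m n : ℕ} (ψ : k →+* k) (g : Fin (m + 1) → Fin (n + 1)) :
    (map ψ : RR k N m →+* RR k N m).comp (smap g : RR k N n →ₐ[k] RR k N m) =
      (smap g : RR k N n →ₐ[k] RR k N m).toRingHom.comp (map ψ) := by
  refine ringHom_ext (fun a => ?_) fun i => ?_
  · simp [smap]
  · rcases i with i | j <;> simp [smap]

theorem bdA_map (hLS : S_LS) {N n : ℕ} (σ : k ≃ₐ[F] k) (W : Ideal (RR k N (n + 1)))
    (Q : PrimeSpectrum (RR k N n)) :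
    bdA (W.comap (map (σ : k →+* k))) (PrimeSpectrum.comap (map (σ : k →+* k)) Q) = bdA W Q := by
  unfold bdA
  refine Finset.sum_congr rfl fun j _ => ?_
  have h1 := hLS _ _ (map (σ : k →+* k) : RR k N n →+* RR k N n)
    ((W.comap (map (σ : k →+* k) : RR k N (n + 1) →+* RR k N (n + 1))).map
      (smap j.succAbove : RR k N (n + 1) →ₐ[k] RR k N n)) Q.asIdeal
    (map_surjective _ σ.surjective)
  have h2 : RingHom.ker (map (σ : k →+* k) : RR k N n →+* RR k N n) = ⊥ :=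
    (RingHom.injective_iff_ker_eq_bot _).1 (map_injective _ σ.injective)
  have h3 : ((W.comap (map (σ : k →+* k) : RR k N (n + 1) →+* RR k N (n + 1))).map
      (smap j.succAbove : RR k N (n + 1) →ₐ[k] RR k N n)).map
        (map (σ : k →+* k) : RR k N n →+* RR k N n) =
      W.map (smap j.succAbove : RR k N (n + 1) →ₐ[k] RR k N n) := by
    have h4 := Ideal.map_map (I := W.comap (map (σ : k →+* k) : RR k N (n + 1) →+* RR k N (n + 1)))
      ((smap j.succAbove : RR k N (n + 1) →ₐ[k] RR k N n) : RR k N (n + 1) →+* RR k N n)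
      (map (σ : k →+* k) : RR k N n →+* RR k N n)
    rw [map_smap, ← Ideal.map_map,
      Ideal.map_comap_of_surjective _ (map_surjective _ σ.surjective)] at h4
    exact h4
  rw [h2, sup_bot_eq, h3] at h1
  rw [h1]
  rfl

/-- The functional over the larger field. -/
noncomputable def up (F : Type) {k : Type} [Field F] [Field k] [Algebra F k] {N : ℕ}
    (φ : Ideal (RR F N 1) → ℚ) (J : Ideal (RR k N 1)) : ℚ :=
  φ (J.comap (ext F k _)) /
    ({Q : PrimeSpectrum (RR k N 1) | Q.asIdeal.comap (ext F k _) = J.comap (ext F k _)}.ncard : ℚ)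

theorem up_eq {N : ℕ} (φ : Ideal (RR F N 1) → ℚ) (Q : PrimeSpectrum (RR k N 1)) :
    up F φ Q.asIdeal = φ (PrimeSpectrum.comap (ext F k _) Q).asIdeal /
      ({Q' | PrimeSpectrum.comap (ext F k _) Q' = PrimeSpectrum.comap (ext F k _) Q}.ncard : ℚ) := by
  simp only [up, PrimeSpectrum.ext_iff, PrimeSpectrum.comap_asIdeal]

theorem kills [IsGalois F k] (hLS : S_LS) (hB : S_FINB) (h1 : S_RD1) (h2 : S_RD2) (hBC : S_BC)
    {N : ℕ} (I : Ideal (PP F N)) (φ : Ideal (RR F N 1) → ℚ) (hφ : Kills I φ) :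
    Kills (I.map (ext F k _)) (up F φ) := by
  classical
  intro W' hW' hP'
  set W := PrimeSpectrum.comap (ext F k _) W' with hW
  have hWc : W ∈ Cv I 2 := (h2 F k N 2 I W').1.1 hW'
  have hWp : Prp I W.asIdeal := (h2 F k N 2 I W').2.1 hP'
  obtain ⟨hfin, -, -⟩ := (h1 F k (Ix N 2)).1 W
  let S := hfin.toFinset
  have hS : ∀ V, V ∈ S ↔ PrimeSpectrum.comap (ext F k _) V = W := fun V => by simp [S]
  have hSc : ∀ V ∈ S, V ∈ Cv (I.map (ext F k _)) 2 ∧ Prp (I.map (ext F k _)) V.asIdeal :=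
    fun V hV => ⟨(h2 F k N 2 I V).1.2 ((hS V).1 hV ▸ hWc), (h2 F k N 2 I V).2.2 (by
      have h3 : V.asIdeal.comap (ext F k _) = W.asIdeal :=
        congrArg PrimeSpectrum.asIdeal ((hS V).1 hV)
      rw [h3]
      exact hWp)⟩
  let A : PrimeSpectrum (RR k N 2) → ℚ := fun V =>
    ∑ᶠ Q ∈ Cv (I.map (ext F k _)) 1, up F φ Q.asIdeal * bdA V.asIdeal Q
  have hA : ∀ V ∈ S, A V = A W' := by
    intro V hV
    obtain ⟨-, σ, hσ⟩ := ((h1 F k (Ix N 2)).2 W').2.2 V ((hS V).1 hV)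
    symm
    refine finsum_mem_eq_of_bijOn (PrimeSpectrum.comap (map (σ : k →+* k))) ⟨?_, ?_, ?_⟩ ?_
    · intro Q hQ
      exact (h2 F k N 1 I _).1.2 (by rw [cm_map]; exact (h2 F k N 1 I _).1.1 hQ)
    · exact (PrimeSpectrum.comap_injective_of_surjective _
        (map_surjective _ σ.surjective)).injOn
    · intro Q hQ
      refine ⟨PrimeSpectrum.comap (map (σ.symm : k →+* k)) Q, ?_, ?_⟩
      · exact (h2 F k N 1 I _).1.2 (by rw [cm_map]; exact (h2 F k N 1 I _).1.1 hQ)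
      · have h3 := map_symm (Ix N 1) σ.symm
        rw [AlgEquiv.symm_symm] at h3
        rw [← PrimeSpectrum.comap_comp_apply, h3]
        rfl
    · intro Q _
      rw [hσ, bdA_map hLS, up_eq, up_eq, cm_map]
  have hf0 : ({Q ∈ Cv I 1 | bdA W.asIdeal Q ≠ 0} ∪ PrimeSpectrum.comap (ext F k _) ''
      ⋃ V ∈ S, {Q ∈ Cv (I.map (ext F k _)) 1 | bdA V.asIdeal Q ≠ 0}).Finite :=
    (hB F N 1 I W hWc hWp).2.union ((S.finite_toSet.biUnion fun V hV =>
      (hB k N 1 _ V (hSc V hV).1 (hSc V hV).2).2).image _)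
  let T := hf0.toFinset
  have hTc : ∀ Q ∈ T, Q ∈ Cv I 1 := by
    intro Q hQ
    rcases (Set.Finite.mem_toFinset _).1 hQ with h | ⟨Q', h, rfl⟩
    · exact h.1
    · obtain ⟨V, -, h3⟩ := Set.mem_iUnion₂.1 h
      exact (h2 F k N 1 I _).1.1 h3.1
  have hf1 : (PrimeSpectrum.comap (ext F k (Ix N 1)) ⁻¹' (T : Set _)).Finite :=
    T.finite_toSet.preimage' fun Q _ => ((h1 F k (Ix N 1)).1 Q).1
  let T' := hf1.toFinset
  have hT' : ∀ Q, Q ∈ T' ↔ PrimeSpectrum.comap (ext F k _) Q ∈ T := fun Q => by simp [T']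
  have hAs : ∀ V ∈ S, A V = ∑ Q ∈ T', up F φ Q.asIdeal * bdA V.asIdeal Q := by
    intro V hV
    refine finsum_mem_eq_sum_of_inter_support_eq _ ?_
    ext Q
    simp only [Set.mem_inter_iff, Finset.mem_coe, mem_support]
    refine and_congr_left fun hQ => ⟨fun h => (hT' Q).2 ((Set.Finite.mem_toFinset _).2
      (Or.inr ⟨Q, Set.mem_iUnion₂.2 ⟨V, hV, h, fun h0 => hQ (by simp [h0])⟩, rfl⟩)),
      fun h => (h2 F k N 1 I _).1.2 (hTc _ ((hT' Q).1 h))⟩
  have h0 : ∑ Q ∈ T, φ Q.asIdeal * bdA W.asIdeal Q = 0 := by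
    rw [← hφ W hWc hWp]
    symm
    refine finsum_mem_eq_sum_of_inter_support_eq _ ?_
    ext Q
    simp only [Set.mem_inter_iff, Finset.mem_coe, mem_support]
    exact and_congr_left fun hQ => ⟨fun h => (Set.Finite.mem_toFinset _).2
      (Or.inl ⟨h, fun h0 => hQ (by simp [h0])⟩), hTc Q⟩
  have hsum : ∑ V ∈ S, A V = 0 := by
    rw [Finset.sum_congr rfl hAs, Finset.sum_comm, ← h0,
      ← sum_fib _ T T' hT' (fun Q => ((h1 F k (Ix N 1)).1 Q).2.1)]
    refine Finset.sum_congr rfl fun Q hQ => ?_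
    rw [← Finset.mul_sum, ← Int.cast_sum, hBC F k N 1 I W Q S hWc hWp (hTc _ ((hT' Q).1 hQ)) hS,
      up_eq]
    ring
  rw [Finset.sum_congr rfl hA, Finset.sum_const, nsmul_eq_mul, mul_eq_zero] at hsum
  refine hsum.resolve_left ?_
  exact_mod_cast (Finset.card_pos.2 ⟨W', (hS W').2 rfl⟩).ne'

end RD

theorem t_RD : S_LS → S_FINB → S_RD1 → S_RD2 → S_BC → S_RD := by
  classical
  intro hLS hB h1 h2 hBC F k _ _ _ _ N I hK φ hφ c hc hz
  have hf : (support fun Q => c (PrimeSpectrum.comap (ext F k (Ix N 1)) Q)).Finite :=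
    (c.support.finite_toSet.preimage' fun Q _ => ((h1 F k (Ix N 1)).1 Q).1).subset
      fun Q hQ => Finsupp.mem_support_iff.2 hQ
  let c' := Finsupp.ofSupportFinite _ hf
  have hc' : ∀ Q, c' Q = c (PrimeSpectrum.comap (ext F k _) Q) := fun Q => rfl
  have hs : ∀ Q, Q ∈ c'.support ↔ PrimeSpectrum.comap (ext F k _) Q ∈ c.support := fun Q => by
    rw [Finsupp.mem_support_iff, Finsupp.mem_support_iff, hc']
  have key := hK _ (RD.kills hLS hB h1 h2 hBC I φ hφ) c'
    (fun Q hQ => ⟨(h2 F k N 1 I Q).1.2 (hc _ ((hs Q).1 hQ)).1,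
      (h2 F k N 1 I Q).2.2 (hc _ ((hs Q).1 hQ)).2⟩) (fun z hz' => by
      have hz1 := (h2 F k N 0 I z).1.1 hz'
      rw [← hz _ hz1, Finsupp.sum, Finsupp.sum,
        ← Finset.sum_fiberwise_of_maps_to (fun Q hQ => (hs Q).1 hQ)]
      refine Finset.sum_congr rfl fun Q hQ => ?_
      rw [← hBC F k N 0 I Q z (c'.support.filter fun Q' => PrimeSpectrum.comap (ext F k _) Q' = Q)
        (hc Q hQ).1 (hc Q hQ).2 hz1 (fun Q' => by
          rw [Finset.mem_filter]
          exact ⟨fun h => h.2, fun h => ⟨(hs Q').2 (h ▸ hQ), h⟩⟩), Int.cast_sum, Finset.mul_sum]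
      refine Finset.sum_congr rfl fun Q' hQ' => ?_
      rw [hc', (Finset.mem_filter.1 hQ').2])
  rw [← key, Finsupp.sum, Finsupp.sum,
    ← RD.sum_fib _ c.support c'.support hs (fun Q => ((h1 F k (Ix N 1)).1 Q).2.1)]
  refine Finset.sum_congr rfl fun Q _ => ?_
  rw [hc', RD.up_eq]
  ring

end Pool.Agent.P.MP_12d50c_ag
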