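import Pool.Agent.P.MP_12d50c_ag.If4
import Pool.Agent.P.MP_638e8a_ag.ChA7b

/-!
Primes of polynomial rings under a Galois extension of the ground field.
-/

open MvPolynomial Function

namespace Pool.Agent.P.MP_12d50c_ag

namespace RD1

attribute [local instance] MvPolynomial.algebraMvPolynomial

variable {F k : Type} [Field F] [Field k] [Algebra F k] {τ : Type}

theorem map_ext (σ : k ≃ₐ[F] k) (b : MvPolynomial τ F) :
    map (σ : k →+* k) (ext F k τ b) = ext F k τ b := by
  ext m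
  simp [coeff_map]

theorem norm0 [FiniteDimensional F k] [IsGalois F k] (a : MvPolynomial τ k) :
    ∃ b, ext F k τ b = ∏ γ : k ≃ₐ[F] k, map (γ : k →+* k) a := by
  refine mem_range_map_iff_coeffs_subset.2 fun x hx => ?_
  obtain ⟨m, -, rfl⟩ := mem_coeffs_iff.1 hx
  refine (IsGalois.mem_range_algebraMap_iff_fixed _).2 fun σ => ?_
  have h : map (σ : k →+* k) (∏ γ : k ≃ₐ[F] k, map (γ : k →+* k) a) =
      ∏ γ : k ≃ₐ[F] k, map (γ : k →+* k) a := by
    rw [map_prod]
    refine Fintype.prod_equiv (Equiv.mulLeft σ) _ _ fun γ => ?_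
    rw [map_map]
    rfl
  have h2 := congrArg (coeff m) h
  rwa [coeff_map] at h2

theorem trace0 [FiniteDimensional F k] [IsGalois F k] (a : MvPolynomial τ k)
    (J : Ideal (MvPolynomial τ k)) (h : ∀ γ : k ≃ₐ[F] k, map (γ : k →+* k) a ∈ J) :
    a ∈ (J.comap (ext F k τ)).map (ext F k τ) := by
  classical
  let e := Module.finBasis F k
  let b : _ → MvPolynomial τ F := fun i =>
    ∑ m ∈ a.support, monomial m (Algebra.trace F k (coeff m a * e i))
  have hb : ∀ i m, coeff m (b i) = Algebra.trace F k (coeff m a * e i) := fun i m => by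
    simp only [b, coeff_sum, coeff_monomial, Finset.sum_ite_eq', mem_support_iff]
    split_ifs with h
    · rfl
    · rw [not_not.1 h, zero_mul, map_zero]
  have h1 : a = ∑ i, C (e.traceDual i) * ext F k τ (b i) := by
    ext m
    rw [coeff_sum]
    conv_lhs => rw [← e.traceDual.sum_repr (coeff m a)]
    refine Finset.sum_congr rfl fun i _ => ?_
    rw [coeff_C_mul, coeff_map, hb, Module.Basis.traceDual_repr_apply, Algebra.traceForm_apply,
      Algebra.smul_def, mul_comm]
  have h2 : ∀ i, ext F k τ (b i) = ∑ γ : k ≃ₐ[F] k, C (γ (e i)) * map (γ : k →+* k) a := fun i => by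
    ext m
    rw [coeff_map, hb, trace_eq_sum_automorphisms, coeff_sum]
    refine Finset.sum_congr rfl fun γ _ => ?_
    rw [coeff_C_mul, coeff_map, map_mul, mul_comm]
    rfl
  rw [h1]
  refine Ideal.sum_mem _ fun i _ => Ideal.mul_mem_left _ _ (Ideal.mem_map_of_mem _ ?_)
  rw [Ideal.mem_comap, h2]
  exact Ideal.sum_mem _ fun γ _ => Ideal.mul_mem_left _ _ (h γ)

variable [IsGalois F k]

theorem dev (a : MvPolynomial τ k) : ∃ (Γ : Type) (_ : Fintype Γ) (s : Γ → (k ≃ₐ[F] k)),
    (∃ γ, map (s γ : k →+* k) a = a) ∧ (∃ b, ext F k τ b = ∏ γ, map (s γ : k →+* k) a) ∧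
    ∀ J : Ideal (MvPolynomial τ k), (∀ γ, map (s γ : k →+* k) a ∈ J) →
      a ∈ (J.comap (ext F k τ)).map (ext F k τ) := by
  let K := (FiniteGaloisIntermediateField.adjoin F (a.coeffs : Set k)).toIntermediateField
  obtain ⟨a', ha⟩ : a ∈ Set.range (ext K k τ) := mem_range_map_iff_coeffs_subset.2 fun x hx =>
    ⟨⟨x, FiniteGaloisIntermediateField.subset_adjoin F _ hx⟩, rfl⟩
  have e : (ext K k τ).comp (ext F K τ) = ext F k τ := RingHom.ext fun b => by
    rw [RingHom.comp_apply, map_map, ← IsScalarTower.algebraMap_eq]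
  have hs : ∀ γ : K ≃ₐ[F] K, map (γ.liftNormal k : k →+* k) (ext K k τ a') =
      ext K k τ (map (γ : K →+* K) a') := fun γ => by
    ext m
    simp only [coeff_map]
    exact γ.liftNormal_commutes k _
  rw [← ha]
  refine ⟨K ≃ₐ[F] K, inferInstance, fun γ => γ.liftNormal k, ⟨1, ?_⟩, ?_, fun J hJ => ?_⟩
  · rw [hs]
    congr 1
    exact map_id a'
  · obtain ⟨b, hb⟩ := norm0 (F := F) a'
    refine ⟨b, ?_⟩
    rw [← e, RingHom.comp_apply, hb, map_prod]
    exact Finset.prod_congr rfl fun γ _ => (hs γ).symm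
  · have h1 := trace0 (F := F) a' (J.comap (ext K k τ)) fun γ => by
      rw [Ideal.mem_comap, ← hs]
      exact hJ γ
    rw [Ideal.comap_comap, e] at h1
    have h2 := Ideal.mem_map_of_mem (ext K k τ) h1
    rwa [Ideal.map_map, e] at h2

theorem incomp {P Q : Ideal (MvPolynomial τ k)} [P.IsPrime] (h : P ≤ Q)
    (h' : Q.comap (ext F k τ) ≤ P.comap (ext F k τ)) : P = Q := by
  by_contra hn
  exact (Ideal.IsIntegral.comap_lt_comap (R := MvPolynomial τ F) (lt_of_le_of_ne h hn)).not_ge h'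

theorem minp (P : Ideal (MvPolynomial τ k)) [hP : P.IsPrime] :
    P ∈ ((P.comap (ext F k τ)).map (ext F k τ)).minimalPrimes := by
  refine ⟨⟨hP, Ideal.map_comap_le⟩, fun Q hQ h => ?_⟩
  have := hQ.1
  exact (incomp (F := F) h (Ideal.map_le_iff_le_comap.1 hQ.2)).ge

theorem fin [Finite τ] (P : PrimeSpectrum (MvPolynomial τ F)) :
    {P' | PrimeSpectrum.comap (ext F k τ) P' = P}.Finite := by
  refine Set.Finite.of_finite_image (f := PrimeSpectrum.asIdeal)
    ((Ideal.finite_minimalPrimes_of_isNoetherianRing _ (P.asIdeal.map (ext F k τ))).subset ?_)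
    fun _ _ _ _ h => PrimeSpectrum.ext h
  rintro _ ⟨Q, rfl, rfl⟩
  exact minp Q.asIdeal

theorem nonempty (P : PrimeSpectrum (MvPolynomial τ F)) :
    {P' | PrimeSpectrum.comap (ext F k τ) P' = P}.Nonempty := by
  obtain ⟨Q, -, h1, h2⟩ := Ideal.exists_ideal_over_prime_of_isIntegral (S := MvPolynomial τ k)
    P.asIdeal ⊥ (by
      intro x hx
      have : x = 0 := map_injective _ (algebraMap F k).injective
        ((Ideal.mem_bot.1 hx).trans (map_zero _).symm)
      rw [this]
      exact zero_mem _)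
  exact ⟨⟨Q, h1⟩, PrimeSpectrum.ext h2⟩

omit [IsGalois F k] in
theorem conj (σ : k ≃ₐ[F] k) (P : PrimeSpectrum (MvPolynomial τ k)) :
    PrimeSpectrum.comap (ext F k τ) (PrimeSpectrum.comap (map (σ : k →+* k)) P) =
      PrimeSpectrum.comap (ext F k τ) P := by
  ext b
  simp only [PrimeSpectrum.comap_asIdeal, Ideal.mem_comap, map_ext]

theorem whc {R S : Type} [CommRing R] [CommRing S] (φ : R →+* S) (w : τ → ℕ) (d : ℕ)
    (f : MvPolynomial τ R) : map φ (weightedHomogeneousComponent w d f) =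
      weightedHomogeneousComponent w d (map φ f) := by
  ext m
  simp only [coeff_map, coeff_weightedHomogeneousComponent]
  split_ifs
  · rfl
  · exact map_zero φ

end RD1

open RD1

attribute [local instance] MvPolynomial.algebraMvPolynomial in
theorem t_RD1 : S_RD1 := by
  intro F k _ _ _ _ τ _
  refine ⟨fun P => ⟨fin P, nonempty P, fun a ha => ?_⟩, fun P' => ⟨?_, fun w => ⟨?_, ?_⟩,
    fun P'' h => ⟨fun hle => PrimeSpectrum.ext (incomp (F := F) hle
      (congrArg PrimeSpectrum.asIdeal h).le), ?_⟩⟩⟩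
  · obtain ⟨Γ, _, s, -, -, h⟩ := dev (F := F) a
    obtain ⟨Q, rfl⟩ := nonempty (k := k) P
    exact h Q.asIdeal fun γ => ha _ (conj (s γ) Q)
  · exact MP_638e8a_ag.Cyc.ringKrullDim_eq_of_integral
      (R := MvPolynomial τ F ⧸ P'.asIdeal.comap (algebraMap (MvPolynomial τ F) (MvPolynomial τ k)))
      Ideal.quotientMap_injective
  · intro h f hf d
    rw [Ideal.mem_comap, whc]
    exact h _ hf d
  · intro h
    refine WHom.minimalPrimes ?_ (minp (F := F) P'.asIdeal)
    obtain ⟨S, h1, h2⟩ := h.exists_gen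
    rw [← h2, Ideal.map_span]
    refine wHom_span ?_
    rintro _ ⟨f, hf, rfl⟩
    obtain ⟨d, hd⟩ := h1 f hf
    refine ⟨d, fun m hm => hd fun h0 => hm ?_⟩
    rw [coeff_map, h0, map_zero]
  · by_contra hn
    have hf : (Set.range fun σ : k ≃ₐ[F] k => PrimeSpectrum.comap (map (σ : k →+* k)) P').Finite :=
      (fin (PrimeSpectrum.comap (ext F k τ) P')).subset (by
        rintro _ ⟨σ, rfl⟩
        exact conj σ P')
    have h1 := (Ideal.subset_union_prime_finite hf (f := PrimeSpectrum.asIdeal) P' P'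
      (fun Q _ _ _ => Q.isPrime) (I := P''.asIdeal)).not.2 (by
        rintro ⟨_, ⟨σ, rfl⟩, hle⟩
        exact hn ⟨σ, incomp (F := F) hle
          (congrArg PrimeSpectrum.asIdeal ((conj σ P').trans h.symm)).le⟩)
    obtain ⟨x, hx, hx'⟩ := Set.not_subset.1 h1
    obtain ⟨Γ, _, s, ⟨γ, h2⟩, ⟨b, h3⟩, -⟩ := dev (F := F) x
    have h4 : b ∈ (PrimeSpectrum.comap (ext F k τ) P'').asIdeal := by
      rw [PrimeSpectrum.comap_asIdeal, Ideal.mem_comap, h3]
      exact Ideal.prod_mem _ (Finset.mem_univ γ) (h2.symm ▸ hx)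
    rw [h, PrimeSpectrum.comap_asIdeal, Ideal.mem_comap, h3] at h4
    obtain ⟨γ', -, h5⟩ := Ideal.IsPrime.prod_mem_iff.1 h4
    exact hx' (Set.mem_biUnion (Set.mem_range_self (s γ')) h5)

end Pool.Agent.P.MP_12d50c_ag
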