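import Pool.Agent.P.MP_12d50c_ag.If4

/-!
Admissible primes and extension of the ground field.
-/

open MvPolynomial Function

namespace Pool.Agent.P.MP_12d50c_ag

namespace RD2

section
variable {F k : Type} [Field F] [Field k] {N m n : ℕ}

theorem map_smap (φ : F →+* k) (g : Fin (m + 1) → Fin (n + 1)) (f : RR F N n) :
    map φ (smap g f) = smap g (map φ f) := by
  induction f using MvPolynomial.induction_on with
  | C c => simp [algHom_C]
  | add p q hp hq => simp only [map_add, hp, hq]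
  | mul_X p j hp =>
    simp only [map_mul, hp, map_X]
    congr 1
    rcases j with j | j <;> simp [smap]

theorem cyl_map (φ : F →+* k) (I : Ideal (PP F N)) (n : ℕ) :
    cyl (I.map (map φ)) n = (cyl I n).map (map φ) := by
  unfold cyl
  rw [Ideal.map_sup, Ideal.map_span, Set.image_singleton]
  congr 1
  · have e : ∀ (K : Type) [Field K] (J : Ideal (PP K N)),
        J.map (inc n) = J.map (inc n : PP K N →ₐ[K] RR K N n).toRingHom := fun _ _ _ => rfl
    rw [e, e, Ideal.map_map, Ideal.map_map]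
    congr 1
    exact RingHom.ext fun f => (map_rename φ _ f).symm
  · simp

variable [Algebra F k]

theorem map_ext {τ : Type} (σ : k ≃ₐ[F] k) (a : MvPolynomial τ F) :
    map (σ : k →+* k) (ext F k τ a) = ext F k τ a := by
  rw [map_map]
  congr 2
  exact RingHom.ext fun x => σ.commutes x

theorem map_symm {τ : Type} (σ : k ≃ₐ[F] k) (a : MvPolynomial τ k) :
    map (σ : k →+* k) (map (σ.symm : k →+* k) a) = a := by
  rw [map_map]
  have : (σ : k →+* k).comp (σ.symm : k →+* k) = RingHom.id k :=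
    RingHom.ext fun x => σ.apply_symm_apply x
  rw [this, map_id]

theorem adm_iff [IsGalois F k] (h : S_RD1) (I : Ideal (PP F N)) (Q : PrimeSpectrum (RR k N n)) :
    Adm (I.map (ext F k _)) Q.asIdeal ↔ Adm I (Q.asIdeal.comap (ext F k _)) := by
  have hw := ((h F k (Ix N n)).2 Q).2.1 (wt N n)
  have hl : cyl (I.map (ext F k _)) n ≤ Q.asIdeal ↔ cyl I n ≤ Q.asIdeal.comap (ext F k _) := by
    rw [cyl_map, Ideal.map_le_iff_le_comap]
  have hr : ∀ i, X (Sum.inl i) ∉ Q.asIdeal ↔ X (Sum.inl i) ∉ Q.asIdeal.comap (ext F k _) :=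
    fun i => by rw [Ideal.mem_comap, map_X]
  have := Q.isPrime
  exact ⟨fun a => ⟨inferInstance, hw.1 a.hom, hl.1 a.le, a.rel.imp fun i => (hr i).1⟩,
    fun a => ⟨inferInstance, hw.2 a.hom, hl.2 a.le, a.rel.imp fun i => (hr i).2⟩⟩

end

end RD2

open RD2 in
theorem t_RD2 : S_RD1 → S_RD2 := by
  intro h F k _ _ _ _ N n I P'
  classical
  refine ⟨?_, fun hp m g Q hQ hle => ?_, fun hp m g Q' hQ hle => ?_⟩
  · exact and_congr (adm_iff h I P') (by rw [((h F k (Ix N n)).2 P').1]; rfl)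
  · obtain ⟨Q', hQ'⟩ := ((h F k (Ix N m)).1 ⟨Q, hQ.prime⟩).2.1
    have hQe : Q'.asIdeal.comap (ext F k _) = Q := congrArg PrimeSpectrum.asIdeal hQ'
    obtain ⟨hfin, -, hint⟩ := (h F k (Ix N n)).1 (PrimeSpectrum.comap (ext F k _) P')
    have := Q'.isPrime
    have hpr : (Q'.asIdeal.comap (smap (N := N) g)).IsPrime := inferInstance
    have h1 : hfin.toFinset.inf (fun P => P.asIdeal) ≤ Q'.asIdeal.comap (smap g) := by
      intro a ha
      have h2 := hint a fun P hP =>
        (Finset.inf_le (f := fun P : PrimeSpectrum _ => P.asIdeal) (hfin.mem_toFinset.2 hP)) ha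
      refine (Ideal.map_le_iff_le_comap.2 fun b hb => ?_) h2
      rw [Ideal.mem_comap, Ideal.mem_comap, ← map_smap, ← Ideal.mem_comap, hQe]
      exact hle (Ideal.mem_map_of_mem _ hb)
    obtain ⟨P'', hP'', h2⟩ := hpr.inf_le'.1 h1
    obtain ⟨σ, hσ⟩ := (((h F k (Ix N n)).2 P').2.2 P'' (hfin.mem_toFinset.1 hP'')).2
    let Q'' : PrimeSpectrum (RR k N m) := PrimeSpectrum.comap (map (σ.symm : k →+* k)) Q'
    have h3 : Q''.asIdeal.comap (ext F k _) = Q := by
      rw [← hQe]
      ext a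
      change map (σ.symm : k →+* k) (ext F k _ a) ∈ Q'.asIdeal ↔ ext F k _ a ∈ Q'.asIdeal
      rw [map_ext]
    have h4 := hp m g Q''.asIdeal ((adm_iff h I Q'').2 (h3 ▸ hQ))
      (Ideal.map_le_iff_le_comap.2 fun a ha => by
        change map (σ.symm : k →+* k) (smap g a) ∈ Q'.asIdeal
        rw [map_smap]
        apply h2
        change _ ∈ P''.asIdeal
        rw [hσ, Ideal.mem_comap, map_symm]
        exact ha)
    rwa [((h F k (Ix N m)).2 Q'').1, h3] at h4
  · have h1 := ((h F k (Ix N m)).2 ⟨Q', hQ.prime⟩).1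
    refine h1.trans_le (hp m g _ ((adm_iff h I ⟨Q', hQ.prime⟩).1 hQ)
      (Ideal.map_le_iff_le_comap.2 fun a ha => ?_))
    rw [Ideal.mem_comap, Ideal.mem_comap, map_smap]
    exact hle (Ideal.mem_map_of_mem _ ha)

end Pool.Agent.P.MP_12d50c_ag
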