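import Pool.Agent.P.MP_12d50c_ag.If1

/-!
Local rings at smooth points are regular.
-/

open MvPolynomial

namespace Pool.Agent.P.MP_12d50c_ag

namespace REG

variable {k : Type} [Field k] {N : ℕ}

section T

variable {T : Type} [CommRing T] [Algebra k T]

theorem taylor (x δ : Fin (N + 1) → T) (f : PP k N) :
    aeval (x + δ) f - aeval x f ∈ Ideal.span (Set.range δ) ∧
      aeval (x + δ) f - aeval x f - grad x f δ ∈ Ideal.span (Set.range δ) ^ 2 := by
  induction f using MvPolynomial.induction_on with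
  | C c => simp [grad_C]
  | add f g hf hg =>
    rw [map_add, map_add, grad_add, add_sub_add_comm, add_sub_add_comm]
    exact ⟨add_mem hf.1 hg.1, add_mem hf.2 hg.2⟩
  | mul_X f j hf =>
    have hj : δ j ∈ Ideal.span (Set.range δ) := Ideal.subset_span ⟨j, rfl⟩
    rw [map_mul, map_mul, grad_mul, grad_X, aeval_X, aeval_X, Pi.add_apply]
    refine ⟨?_, ?_⟩
    · rw [show ∀ a b : T, a * (x j + δ j) - b * x j = (a - b) * x j + a * δ j from fun a b => by
        ring]
      exact add_mem (Ideal.mul_mem_right _ _ hf.1) (Ideal.mul_mem_left _ _ hj)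
    · rw [show ∀ a b c : T, a * (x j + δ j) - b * x j - (b * δ j + x j * c) =
        (a - b - c) * x j + (a - b) * δ j from fun a b c => by ring]
      exact add_mem (Ideal.mul_mem_right _ _ hf.2) (by rw [sq]; exact Ideal.mul_mem_mul hf.1 hj)

variable (k) in
/-- The polynomials that vanish at `x` together with their derivative in the direction `δ`. -/
def dz (x δ : Fin (N + 1) → T) : Ideal (PP k N) where
  carrier := {g | aeval x g = 0 ∧ grad x g δ = 0}
  add_mem' ha hb := ⟨by rw [map_add, ha.1, hb.1, add_zero], by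
    rw [grad_add, ha.2, hb.2, add_zero]⟩
  zero_mem' := ⟨map_zero _, by simp [grad]⟩
  smul_mem' c a ha := ⟨by rw [smul_eq_mul, map_mul, ha.1, mul_zero], by
    rw [smul_eq_mul, grad_mul, ha.1, ha.2, mul_zero, zero_mul, add_zero]⟩

theorem aeval_alg (y : Fin (N + 1) → k) (f : PP k N) :
    aeval (fun j => algebraMap k T (y j)) f = algebraMap k T (aeval y f) :=
  aeval_algebraMap_apply T y f

theorem grad_alg {f : PP k N} {d : ℕ} (hf : f.IsHomogeneous d) (u : T) (y : Fin (N + 1) → k)
    (δ : Fin (N + 1) → T) : grad (fun j => u * algebraMap k T (y j)) f δ =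
      u ^ (d - 1) * ∑ j, algebraMap k T (aeval y (pderiv j f)) * δ j := by
  rw [grad_scale _ hf, grad]
  simp only [aeval_alg]

end T

theorem exists_std {n : ℕ} (d : ℕ) : ∀ V : Submodule k (Fin (n + 1) → k),
    n + 1 ≤ Module.finrank k V + d → ∃ c : Fin d → Fin (n + 1), ∀ W : Submodule k _, V ≤ W →
      (∀ j, Pi.single (c j) 1 ∈ W) → W = ⊤ := by
  induction d with
  | zero =>
    exact fun V h => ⟨Fin.elim0, fun W h1 _ => top_unique (h1.trans' (Submodule.eq_top_of_finrank_eq
      (le_antisymm V.finrank_le (by simpa using h))).ge)⟩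
  | succ d ih =>
    intro V h
    by_cases hV : ∀ j, Pi.single j 1 ∈ V
    · refine ⟨0, fun W h1 _ => top_unique fun v _ => h1 ?_⟩
      rw [pi_eq_sum_univ' v]
      exact V.sum_mem fun j _ => V.smul_mem _ (hV j)
    obtain ⟨j, hj⟩ := not_forall.1 hV
    have := Submodule.finrank_lt_finrank_of_lt (Submodule.lt_sup_iff_notMem.2 hj)
    obtain ⟨c, hc⟩ := ih (V ⊔ k ∙ Pi.single j 1) (by omega)
    exact ⟨Fin.cons j c, fun W h1 h2 => hc W
      (sup_le h1 ((Submodule.span_singleton_le_iff_mem _ _).2 (h2 0))) fun i => h2 i.succ⟩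

variable (y : NP k N)

/-- The linear forms that cut out the point. -/
noncomputable def l (j : Fin (N + 1)) : PP k N := X j - C (y.1 j) * X y.piv

theorem tay {f : PP k N} {d : ℕ} (hf : f.IsHomogeneous d) (h0 : aeval y.1 f = 0) :
    f ∈ Ideal.span (Set.range (l y)) ∧
      f - X y.piv ^ (d - 1) * ∑ j, C (aeval y.1 (pderiv j f)) * l y j ∈
        Ideal.span (Set.range (l y)) ^ 2 := by
  have h := taylor (fun j => X y.piv * algebraMap k (PP k N) (y.1 j)) (l y) f
  rwa [show (fun j => X y.piv * algebraMap k (PP k N) (y.1 j)) + l y = X from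
    funext fun j => by simp [l, mul_comm], aeval_X_left_apply, grad_alg hf, aeval_smul hf,
    aeval_alg, h0, map_zero, mul_zero, sub_zero] at h

theorem van_eq : van k y.1 = Ideal.span (Set.range (l y)) := by
  refine le_antisymm ((wHom_vanw _).le_of_hom fun f d hf h =>
    (tay y hf ((mem_van_of_hom hf).1 h)).1) (Ideal.span_le.2 ?_)
  rintro _ ⟨j, rfl⟩
  exact (mem_van_of_hom ((isHomogeneous_X k j).sub (isHomogeneous_C_mul_X _ _))).2
    (by simp [y.piv_eq])

variable (I : Ideal (PP k N))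

/-- The coefficient vectors of the linear forms that lie in `J`. -/
def W (J : Ideal (LQ I (van k y.1))) : Submodule k (Fin (N + 1) → k) where
  carrier := {c | toL I (van k y.1) (∑ j, C (c j) * l y j) ∈ J}
  add_mem' ha hb := by simpa [add_mul, Finset.sum_add_distrib] using J.add_mem ha hb
  zero_mem' := by simp
  smul_mem' a c hc := by
    simpa [Finset.mul_sum, mul_assoc] using J.mul_mem_left (toL I (van k y.1) (C a)) hc

theorem single_mem {J : Ideal (LQ I (van k y.1))} {j : Fin (N + 1)} :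
    Pi.single j 1 ∈ W y I J ↔ toL I (van k y.1) (l y j) ∈ J := by
  change toL I _ (∑ i, C ((Pi.single j 1 : Fin (N + 1) → k) i) * l y i) ∈ J ↔ _
  rw [Finset.sum_eq_single j (fun i _ h => by simp [h]) (by simp), Pi.single_eq_same, C_1, one_mul]

theorem sq_iff {f : PP k N} {d : ℕ} (hf : f.IsHomogeneous d) (h0 : aeval y.1 f = 0) :
    toL I (van k y.1) f ∈ mQ I (van k y.1) ^ 2 ↔
      (fun j => aeval y.1 (pderiv j f)) ∈ W y I (mQ I (van k y.1) ^ 2) := by
  have h := Ideal.mem_map_of_mem (toL I (van k y.1)) (tay y hf h0).2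
  rw [← van_eq, Ideal.map_pow, map_sub, map_mul, map_pow] at h
  rw [← sub_add_cancel (toL I (van k y.1) f)]
  exact (Submodule.add_mem_iff_right _ h).trans
    (Ideal.unit_mul_mem_iff_mem _ ((isUnit_toL y.X_piv_notMem).pow _))

end REG

open REG in
theorem t_REG : S_LIN → S_NS0 → S_REG := by
  intro hLIN hNS k _ N I y hI hy
  have hle := hI.on_iff.1 hy
  obtain ⟨h1, h2⟩ := hLIN.1 k (Fin (N + 1))
    {s | ∃ f ∈ I, (∃ d, f.IsHomogeneous d) ∧ s = fun j => aeval y.1 (pderiv j f)} (Tan I y.1)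
    fun δ => ⟨fun h _ ⟨f, hf, _, e⟩ => e ▸ h f hf, fun h => by
      obtain ⟨S, h1, rfl⟩ := hI.exists_gen
      exact (mem_Tan_span hy).2 fun f hf => h _ ⟨f, Ideal.subset_span hf, h1 f hf, rfl⟩⟩
  have h3 := Submodule.span_le (p := W y I (mQ I (van k y.1) ^ 2)).2
    (show {s | ∃ f ∈ I, (∃ d, f.IsHomogeneous d) ∧ s = fun j => aeval y.1 (pderiv j f)} ⊆ _ from
      fun _ ⟨f, hf, ⟨d, hd⟩, e⟩ => e ▸ (sq_iff y I hd (hy f hf)).1 (by
        rw [toL_eq_zero hf]
        exact zero_mem _))
  refine ⟨fun a e ha => ⟨fun h => (sq_iff y I ha h.1).2 (h3 ((h1 _).2 h.2)), fun h => ?_⟩,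
    fun d hd => ⟨?_, ?_⟩⟩
  · have h4 := (toL_mem_mQ hle).1 (Ideal.pow_le_self two_ne_zero h)
    refine ⟨(mem_van_of_hom ha).1 h4, fun δ hδ => ?_⟩
    rw [mQ, ← Ideal.map_pow] at h
    obtain ⟨s, h5, h6⟩ := toL_mem_map.1 h
    have h7 : ∀ f : PP k N, f ∈ van k y.1 ↔
        aeval (fun j => Polynomial.X * algebraMap k (Polynomial k) (y.1 j)) f = 0 := fun f => by
      simp only [vanw, RingHom.mem_ker, Pi.one_apply, pow_one, mul_comm Polynomial.X,
        Polynomial.algebraMap_eq]
    have h8 : ∀ {f : PP k N} {d : ℕ}, f.IsHomogeneous d →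
        grad (fun j => Polynomial.X * algebraMap k (Polynomial k) (y.1 j)) f
          (fun j => algebraMap k _ (δ j)) = Polynomial.X ^ (d - 1) * algebraMap k _ (grad y.1 f δ) :=
      fun hf => by rw [grad_alg hf, grad, map_sum]; simp only [map_mul]
    have h9 : I ⊔ van k y.1 ^ 2 ≤ dz k (fun j => Polynomial.X * algebraMap k (Polynomial k) (y.1 j))
        fun j => algebraMap k _ (δ j) := by
      refine sup_le (hI.le_of_hom fun f d hf h => ⟨(h7 f).1 (hle h), ?_⟩) ?_
      · rw [h8 hf, hδ f h, map_zero, mul_zero]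
      · rw [sq]
        exact Ideal.mul_le.2 fun f hf g hg => ⟨by rw [map_mul, (h7 f).1 hf, zero_mul], by
          rw [grad_mul, (h7 f).1 hf, (h7 g).1 hg, zero_mul, zero_mul, add_zero]⟩
    have h10 := (h9 h6).2
    rw [grad_mul, (h7 a).1 h4, zero_mul, add_zero, h8 ha] at h10
    simpa using (mul_eq_zero.1 h10).resolve_left (mt (h7 s).2 h5)
  · have := hd.prime
    have h4 := dim_LQ k hle
    rw [hNS.1, hd.dim] at h4
    exact ENat.WithBot.add_one_cancel.1 h4
  · have h4 := Submodule.finrank_lt_finrank_of_lt (Submodule.lt_sup_iff_notMem.2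
      fun h => one_ne_zero (α := k) (by
        simpa [Pi.single_apply, y.piv_eq] using (h1 (Pi.single y.piv 1)).1 h _ (self_mem_Tan hI hy)))
    have h5 := hd.le k y.1 y.ne_zero hy
    rw [Fintype.card_fin] at h2
    obtain ⟨c, hc⟩ := exists_std d _ (le_trans (by omega) (Nat.add_le_add_right h4 d))
    have := isLocalRing_LQ hle
    have h6 : mQ I (van k y.1) = Ideal.span (Set.range fun j => toL I (van k y.1) (l y j)) := by
      rw [mQ, Set.range_comp' (toL I (van k y.1)), ← Ideal.map_span, ← van_eq]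
    refine ⟨c, le_antisymm (Submodule.le_of_le_smul_of_le_jacobson_bot
      (h6 ▸ Submodule.fg_span (Set.finite_range _)) (IsLocalRing.maximalIdeal_le_jacobson _) ?_) ?_⟩
    · rw [maximalIdeal_LQ, smul_eq_mul, ← sq]
      refine h6.le.trans (Ideal.span_le.2 ?_)
      rintro _ ⟨j, rfl⟩
      refine (single_mem y I).1 ((hc (W y I _) (sup_le (h3.trans fun v hv => Ideal.mem_sup_right hv)
        ((Submodule.span_singleton_le_iff_mem _ _).2 ((single_mem y I).2 ?_))) fun j =>
          (single_mem y I).2 (Ideal.mem_sup_left (Ideal.subset_span (Set.mem_range_self j)))).ge trivial)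
      simp [l, y.piv_eq]
    · rw [h6]
      exact Ideal.span_mono (Set.range_comp_subset_range c fun j => toL I (van k y.1) (l y j))

end Pool.Agent.P.MP_12d50c_ag
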