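import Pool.Agent.P.MP_12d50c_ag.If1

/-! Regular local rings of dimension two. -/

open IsLocalRing

namespace Pool.Agent.P.MP_12d50c_ag

namespace REG2

theorem dvr_of {S : Type} [CommRing S] [IsLocalRing S] [IsNoetherianRing S] (z : S)
    (hm : maximalIdeal S = Ideal.span {z}) (hz : ¬ IsNilpotent z) :
    ∃ _ : IsDomain S, IsDiscreteValuationRing S := by
  classical
  have key : ∀ s : S, s ≠ 0 → ∃ (j : ℕ) (u : S), IsUnit u ∧ s = u * z ^ j := by
    intro s hs
    have h1 : ∃ i, ¬ z ^ i ∣ s := by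
      by_contra h
      push Not at h
      apply hs
      rw [← Ideal.mem_bot, ← Ideal.iInf_pow_eq_bot_of_isLocalRing _ (maximalIdeal.isMaximal S).ne_top,
        Ideal.mem_iInf]
      intro i
      rw [hm, Ideal.span_singleton_pow, Ideal.mem_span_singleton]
      exact h i
    have h2 := Nat.find_spec h1
    have h3 : Nat.find h1 ≠ 0 := fun e => h2 (by rw [e, pow_zero]; exact one_dvd _)
    obtain ⟨j, hj⟩ := Nat.exists_eq_succ_of_ne_zero h3
    obtain ⟨u, hu⟩ := not_not.1 (Nat.find_min h1 (m := j) (by omega))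
    refine ⟨j, u, ?_, by rw [hu, mul_comm]⟩
    by_contra h4
    have h5 : u ∈ Ideal.span {z} := hm ▸ (mem_maximalIdeal u).2 h4
    rw [hj, hu, pow_succ] at h2
    exact h2 (mul_dvd_mul_left _ (Ideal.mem_span_singleton.1 h5))
  have : NoZeroDivisors S := ⟨fun {a b} hab => by
    by_contra h
    push Not at h
    obtain ⟨i, u, hu, rfl⟩ := key a h.1
    obtain ⟨j, v, hv, rfl⟩ := key b h.2
    refine hz ⟨i + j, ?_⟩
    rw [← (hu.mul hv).mul_right_eq_zero, ← hab]
    ring⟩
  have hD : IsDomain S := NoZeroDivisors.to_isDomain S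
  refine ⟨hD, ((IsDiscreteValuationRing.TFAE S ?_).out 4 0).1 (⟨z, hm⟩ : (maximalIdeal S).IsPrincipal)⟩
  rw [isField_iff_maximalIdeal_eq, hm, Ideal.span_singleton_eq_bot]
  rintro rfl
  exact hz IsNilpotent.zero

variable {R : Type} [CommRing R] [IsLocalRing R] [IsNoetherianRing R]

theorem no_min (hd : ringKrullDim R = 2) {a : R} (ha : a ∈ maximalIdeal R)
    (h : ∀ p : Ideal R, p.IsPrime → a ∈ p → maximalIdeal R ≤ p) : False := by
  have h1 := Ideal.height_le_one_of_isPrincipal_of_mem_minimalPrimes (Ideal.span {a})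
    (maximalIdeal R) ⟨⟨inferInstance, (Ideal.span_singleton_le_iff_mem _).2 ha⟩,
      fun q hq _ => h q hq.1 ((Ideal.span_singleton_le_iff_mem _).1 hq.2)⟩
  have h2 := IsLocalRing.maximalIdeal_height_eq_ringKrullDim (R := R)
  rw [hd] at h2
  have h3 : (maximalIdeal R).height = 2 := WithBot.coe_injective h2
  rw [h3] at h1
  exact absurd h1 (by decide)

theorem not_span (hd : ringKrullDim R = 2) (a : R) : ¬ maximalIdeal R = Ideal.span {a} := fun h =>
  no_min hd (h ▸ Ideal.mem_span_singleton_self a) fun _ _ ha =>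
    h ▸ (Ideal.span_singleton_le_iff_mem _).2 ha

theorem dvr_pair (hd : ringKrullDim R = 2) {a z : R} (hm : maximalIdeal R = Ideal.span {a, z}) :
    ∃ _ : IsDomain (R ⧸ Ideal.span {a}), IsDiscreteValuationRing (R ⧸ Ideal.span {a}) := by
  have ha : a ∈ maximalIdeal R := hm ▸ Ideal.subset_span (by simp)
  have hne : Ideal.span {a} ≠ ⊤ := fun e => (maximalIdeal.isMaximal R).ne_top
    (top_le_iff.1 (e ▸ (Ideal.span_singleton_le_iff_mem _).2 ha))
  have := Ideal.Quotient.nontrivial_iff.2 hne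
  have := IsLocalRing.of_surjective' (Ideal.Quotient.mk (Ideal.span {a})) Ideal.Quotient.mk_surjective
  refine dvr_of (Ideal.Quotient.mk _ z) ?_ ?_
  · rw [← IsLocalRing.map_maximalIdeal_of_surjective (Ideal.Quotient.mk (Ideal.span {a}))
      Ideal.Quotient.mk_surjective, hm, Ideal.map_span, Set.image_pair,
      Ideal.Quotient.eq_zero_iff_mem.2 (Ideal.mem_span_singleton_self a), Ideal.span_insert_zero]
  · rintro ⟨n, hn⟩
    rw [← map_pow, Ideal.Quotient.eq_zero_iff_mem] at hn
    refine no_min hd ha fun p hp hap => ?_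
    rw [hm, Ideal.span_le, Set.insert_subset_iff, Set.singleton_subset_iff]
    exact ⟨hap, hp.mem_of_pow_mem n ((Ideal.span_singleton_le_iff_mem _).2 hap hn)⟩

omit [IsLocalRing R] [IsNoetherianRing R] in
theorem pair_eq {x y α β : R} (h : IsUnit α) :
    Ideal.span {x, y} = Ideal.span {α * x + β * y, y} := by
  rw [mul_comm β, Ideal.span_pair_add_right_mul, Ideal.span_insert, Ideal.span_insert,
    Ideal.span_singleton_mul_left_unit h]

theorem dvr (hd : ringKrullDim R = 2) {x y : R} (hm : maximalIdeal R = Ideal.span {x, y})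
    (a : R) (ha : a ∈ maximalIdeal R) (ha2 : a ∉ maximalIdeal R ^ 2) :
    ∃ _ : IsDomain (R ⧸ Ideal.span {a}), IsDiscreteValuationRing (R ⧸ Ideal.span {a}) := by
  obtain ⟨α, β, rfl⟩ := Ideal.mem_span_pair.1 (hm ▸ ha)
  by_cases h1 : IsUnit α
  · exact dvr_pair hd (hm.trans (pair_eq h1))
  by_cases h2 : IsUnit β
  · rw [add_comm]
    exact dvr_pair hd ((hm.trans Ideal.span_pair_comm).trans (pair_eq h2))
  refine absurd ?_ ha2
  rw [pow_two]
  exact Ideal.add_mem _ (Ideal.mul_mem_mul h1 (hm ▸ Ideal.subset_span (by simp)))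
    (Ideal.mul_mem_mul h2 (hm ▸ Ideal.subset_span (by simp)))

theorem princ (hd : ringKrullDim R = 2) {x y : R} (hm : maximalIdeal R = Ideal.span {x, y})
    (p : Ideal R) (hp : p.IsPrime) (hpm : p ≠ maximalIdeal R) : p.IsPrincipal := by
  obtain ⟨_, _⟩ := dvr_pair hd hm
  have hs := Ideal.Quotient.mk_surjective (I := Ideal.span {x})
  by_cases hx : x ∈ p
  · have hk : RingHom.ker (Ideal.Quotient.mk (Ideal.span {x})) ≤ p := by
      rw [Ideal.mk_ker]
      exact (Ideal.span_singleton_le_iff_mem _).2 hx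
    have hp' := Ideal.map_isPrime_of_surjective hs hk
    have hc : (p.map (Ideal.Quotient.mk (Ideal.span {x}))).comap (Ideal.Quotient.mk _) = p := by
      rw [Ideal.comap_map_of_surjective _ hs]
      exact sup_eq_left.2 hk
    by_cases hb : p.map (Ideal.Quotient.mk (Ideal.span {x})) = ⊥
    · rw [hb] at hc
      exact ⟨x, hc.symm.trans Ideal.mk_ker⟩
    · have := hp'.isMaximal hb
      exact absurd (eq_maximalIdeal (hc ▸ Ideal.comap_isMaximal_of_surjective _ hs)) hpm
  · obtain ⟨g, hg⟩ := (IsPrincipalIdealRing.principal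
      (p.map (Ideal.Quotient.mk (Ideal.span {x})))).principal
    obtain ⟨f, hf, rfl⟩ := (Ideal.mem_map_iff_of_surjective _ hs).1
      (hg ▸ Submodule.mem_span_singleton_self g : g ∈ p.map (Ideal.Quotient.mk (Ideal.span {x})))
    refine ⟨f, le_antisymm ?_ ((Ideal.span_singleton_le_iff_mem _).2 hf)⟩
    refine Submodule.le_of_le_smul_of_le_jacobson_bot (IsNoetherian.noetherian p)
      (maximalIdeal_le_jacobson _) fun c hc => ?_
    have h1 := Ideal.mem_map_of_mem (Ideal.Quotient.mk (Ideal.span {x})) hc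
    rw [hg] at h1
    obtain ⟨r, hr⟩ := Ideal.mem_span_singleton'.1 h1
    obtain ⟨r, rfl⟩ := hs r
    rw [← map_mul, Ideal.Quotient.eq] at hr
    obtain ⟨t, ht⟩ := Ideal.mem_span_singleton'.1 hr
    have h2 : t ∈ p := (hp.mem_or_mem (ht ▸ p.sub_mem (p.mul_mem_left r hf) hc)).resolve_right hx
    have e : c = r * f - x * t := by rw [mul_comm x, ht]; ring
    rw [e]
    exact Submodule.sub_mem _ (Submodule.mem_sup_left (Ideal.mem_span_singleton'.2 ⟨r, rfl⟩))
      (Submodule.mem_sup_right (Submodule.smul_mem_smul (hm ▸ Ideal.subset_span (by simp)) h2))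

omit [IsLocalRing R] [IsNoetherianRing R] in
theorem lq_pair (h g : R) :
    lq (Ideal.span {h, g}) = Ring.ord (R ⧸ Ideal.span {h}) (Ideal.Quotient.mk _ g) := by
  have e := DoubleQuot.quotQuotEquivQuotSupₐ R (Ideal.span {h}) (Ideal.span {g})
  unfold lq Ring.ord
  rw [Ideal.span_insert, ← e.toLinearEquiv.length_eq, ← Set.image_singleton, ← Ideal.map_span]
  exact Module.length_eq_of_surjective (R := R ⧸ Ideal.span {h}) (S := R)
    (M := (R ⧸ Ideal.span {h}) ⧸ (Ideal.span {g}).map (Ideal.Quotient.mk _))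
    Ideal.Quotient.mk_surjective

omit [IsNoetherianRing R] in
theorem eq_max {J q : Ideal R} (hJ : lq J ≠ ⊤) (hq : q.IsPrime) (h : J ≤ q) :
    q = maximalIdeal R := by
  have h1 := (isFiniteLength_iff_isNoetherian_isArtinian.1 (Module.length_ne_top_iff.1 hJ)).2
  have h2 : IsArtinianRing (R ⧸ J) := isArtinian_of_tower R h1
  have hs := Ideal.Quotient.mk_surjective (I := J)
  have hk : RingHom.ker (Ideal.Quotient.mk J) ≤ q := by rwa [Ideal.mk_ker]
  have hp' := Ideal.map_isPrime_of_surjective hs hk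
  have hc : (q.map (Ideal.Quotient.mk J)).comap (Ideal.Quotient.mk _) = q := by
    rw [Ideal.comap_map_of_surjective _ hs]
    exact sup_eq_left.2 hk
  exact eq_maximalIdeal (hc ▸ Ideal.comap_isMaximal_of_surjective _ hs)

end REG2

open REG2 in
theorem t_REG2 : S_REG2 := by
  rintro R _ _ _ _ hd ⟨x, y, hm⟩
  have hU : UniqueFactorizationMonoid R := by
    refine UniqueFactorizationMonoid.of_forall_isPrincipal_of_height_eq_one fun p hp h1 =>
      princ hd hm p hp ?_
    rintro rfl
    have h2 := IsLocalRing.maximalIdeal_height_eq_ringKrullDim (R := R)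
    rw [hd, h1] at h2
    exact absurd h2 (by decide)
  refine ⟨princ hd hm, hU, dvr hd hm, fun h g g' hf => ?_⟩
  have key : ∀ d : R, (Ideal.span {d}).IsPrime → d ∣ h → d ∣ g' → False := fun d hp h1 h2 =>
    not_span hd d (eq_max hf hp (by
      rw [Ideal.span_le, Set.insert_subset_iff, Set.singleton_subset_iff]
      exact ⟨Ideal.mem_span_singleton.2 h1, Ideal.mem_span_singleton.2 (h2.mul_left g)⟩)).symm
  rw [lq_pair, lq_pair, lq_pair, map_mul]
  refine Ring.ord_mul _ (mem_nonZeroDivisors_iff_right.2 fun t ht => ?_)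
  obtain ⟨t, rfl⟩ := Ideal.Quotient.mk_surjective t
  rw [← map_mul, Ideal.Quotient.eq_zero_iff_mem, Ideal.mem_span_singleton] at ht
  rw [Ideal.Quotient.eq_zero_iff_mem, Ideal.mem_span_singleton]
  rcases eq_or_ne h 0 with rfl | h0
  · rw [zero_dvd_iff] at ht ⊢
    refine (mul_eq_zero.1 ht).resolve_right fun e => key 0 ?_ dvd_rfl (zero_dvd_iff.2 e)
    rw [Ideal.span_singleton_eq_bot.2 rfl]
    exact Ideal.isPrime_bot
  · exact UniqueFactorizationMonoid.dvd_of_dvd_mul_left_of_no_prime_factors h0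
      (fun d h1 h2 hp => key d ((Ideal.span_singleton_prime hp.ne_zero).2 hp) h1 h2) ht

end Pool.Agent.P.MP_12d50c_ag
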