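import Pool.Agent.P.MP_12d50c_ag.If4

/-!
The functional on cycles over a curve depends only on the values at the vertices.
-/

open MvPolynomial Function
open scoped Polynomial

namespace Pool.Agent.P.MP_12d50c_ag

namespace REL

theorem eq_of_dim {R : Type} [CommRing R] {P Q : Ideal R} [P.IsPrime] (h : P ≤ Q) {n : ℕ}
    (hP : ringKrullDim (R ⧸ P) = n) (hQ : ringKrullDim (R ⧸ Q) = n) : Q = P := by
  refine le_antisymm (fun r hr => ?_) h
  by_contra hr'
  have h1 : Ideal.Quotient.mk P r ∈ nonZeroDivisors (R ⧸ P) :=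
    mem_nonZeroDivisors_of_ne_zero fun h0 => hr' (Ideal.Quotient.eq_zero_iff_mem.1 h0)
  have h2 := ringKrullDim_succ_le_of_surjective (Ideal.Quotient.factor h)
    (Ideal.Quotient.factor_surjective h) h1
    (by rw [Ideal.Quotient.factor_mk]; exact Ideal.Quotient.eq_zero_iff_mem.2 hr)
  rw [hP, hQ] at h2
  have h3 : n + 1 ≤ n := by exact_mod_cast h2
  omega

variable {k : Type} [Field k] {N n : ℕ} {I I' : Ideal (PP k N)}

theorem cyl_mono (h : I ≤ I') (n : ℕ) : cyl I n ≤ cyl I' n :=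
  sup_le_sup_right (Ideal.map_mono h) _

theorem cv_mono (h : I ≤ I') {P : PrimeSpectrum (RR k N n)} (hP : P ∈ Cv I' n) : P ∈ Cv I n :=
  ⟨⟨hP.1.prime, hP.1.hom, (cyl_mono h n).trans hP.1.le, hP.1.rel⟩, hP.2⟩

variable {E : Type} [Field E]

theorem toNat_emult {π g : E[X]} (hπ : Irreducible π) (hg : g ≠ 0) :
    (emultiplicity π g).toNat = multiplicity π g := by
  rw [(FiniteMultiplicity.of_not_isUnit hπ.not_isUnit hg).emultiplicity_eq_multiplicity,
    ENat.toNat_natCast]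

theorem fin_supp (c : E[X] → ℚ) {g : E[X]} (hg : g ≠ 0) :
    HasFiniteSupport fun π : {π : E[X] | π.Monic ∧ Irreducible π} =>
      c π * (multiplicity π.1 g : ℚ) := by
  classical
  refine ((UniqueFactorizationMonoid.normalizedFactors g).toFinset.finite_toSet.preimage
    Subtype.val_injective.injOn).subset fun π hπ => ?_
  have h1 : multiplicity π.1 g ≠ 0 := fun h0 => hπ (by simp [h0])
  simp only [Set.mem_preimage, Finset.mem_coe, Multiset.mem_toFinset]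
  exact (Polynomial.mem_normalizedFactors_iff hg).2
    ⟨π.2.2, π.2.1, not_not.1 fun h => h1 (multiplicity_eq_zero.2 h)⟩

end REL

open REL in
theorem t_REL : S_VP0 → S_CL → S_FINB → S_PT0 → S_M1 → S_M2 → S_REL1 → S_REL := by
  intro hVP0 hCL _ hPT0 hM1 hM2 hREL1 k _ _ N I φ E _ _ ξ p p' hI hK hξ hle hcop h0 h1 n0 n1
  by_cases hpp : p = p'
  · rw [hpp]
  obtain ⟨W, hW, hWp, hf⟩ := hREL1 k N E ξ p p' hξ hcop hpp h0 h1 n0 n1
  have hcyl : ∀ (m : ℕ) (g : Fin (m + 1) → Fin 3), cyl (van k ξ) m ≤ W.asIdeal.map (smap g) :=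
    fun m g => by
      rw [← ((hVP0 k N 2).1 m g).1]
      exact Ideal.map_mono hW.1.le
  have hWp' : Prp I W.asIdeal := fun m g Q hQ hWQ =>
    hWp m g Q ⟨hQ.prime, hQ.hom, (hcyl m g).trans hWQ, hQ.rel⟩ hWQ
  have hsum := hK W (cv_mono hle hW) hWp'
  obtain ⟨-, m2, m3, m4⟩ := hM1 k N E ξ hξ
  choose q hq1 hq2 hq3 using fun π : {π : E[X] | π.Monic ∧ Irreducible π} => m2 π.1 π.2.2
  have hp : p ≠ 0 := fun h => n0 (by simp [h])
  have hp' : p' ≠ 0 := fun h => n0 (by simp [h0, h])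
  have hbd : ∀ π, bdA W.asIdeal (q π) = multiplicity π.1 p' - multiplicity π.1 p := fun π => by
    have h2 : ∀ j : Fin 3, len (W.asIdeal.map (smap j.succAbove)) (q π).asIdeal =
        emultiplicity π.1 (![p', p, Polynomial.C (p.eval 0)] j) := fun j =>
      hM2 k N E ξ π.1 _ (q π) _ hξ π.2.2 (hq2 π) (((hVP0 k N 2).1 1 _).2.2.1 _ hW.1.hom)
        (hcyl 1 _) (hf j)
    have h3 : emultiplicity π.1 (Polynomial.C (p.eval 0)) = 0 :=
      emultiplicity_eq_zero.2 fun h =>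
        π.2.2.not_isUnit (isUnit_of_dvd_unit h (Polynomial.isUnit_C.2 (IsUnit.mk0 _ n0)))
    rw [bdA, Fin.sum_univ_three, h2, h2, h2]
    simp only [Matrix.cons_val_zero, Matrix.cons_val_one, Matrix.cons_val, h3,
      toNat_emult π.2.2 hp, toNat_emult π.2.2 hp']
    simp [sub_eq_add_neg]
  have hinj : Injective q := fun π π' h =>
    Subtype.ext (m4 _ _ π.2.1 π.2.2 π'.2.1 π'.2.2 (by rw [← hq2, ← hq2, h]))
  have hrange : ∀ Q ∈ Cv I 1, φ Q.asIdeal * bdA W.asIdeal Q ≠ 0 → Q ∈ Set.range q := by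
    intro Q hQ hne
    have h2 : ∃ j : Fin 3, W.asIdeal.map (smap j.succAbove) ≤ Q.asIdeal := by
      by_contra h
      refine hne ?_
      rw [bdA, Finset.sum_eq_zero fun j _ => ?_]
      · simp
      · rw [len_eq_zero_iff.2 fun h' => h ⟨j, h'⟩]
        simp
    obtain ⟨j, hj⟩ := h2
    have hA : Adm (van k ξ) Q.asIdeal := ⟨hQ.1.prime, hQ.1.hom, (hcyl 1 _).trans hj, hQ.1.rel⟩
    rcases (hCL k N I).2.2 inferInstance Q hQ with ⟨c, hc, hcQ⟩ | ⟨y, hy, hQy⟩
    · have h3 : Q.asIdeal.comap (inc 1) = van k ξ :=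
        eq_of_dim (n := 2) ((hCL k N _).1 1 _ hA).1 hξ.dim (hcQ ▸ hc.2.2)
      obtain ⟨π, a1, a2, a3⟩ := m3 Q ⟨hA, hQ.2⟩ h3
      exact ⟨⟨π, a1, a2⟩, PrimeSpectrum.ext (by rw [hq2, a3])⟩
    · exact absurd (by rw [hQy, hPT0 k N I φ y hI hK hy, zero_mul]) hne
  rw [finsum_mem_inter_support_eq' _ (Cv I 1) (Set.range q) fun Q hQ =>
    ⟨fun h => hrange Q h hQ, by rintro ⟨π, rfl⟩; exact cv_mono hle (hq1 π)⟩,
    finsum_mem_range hinj] at hsum
  simp only [hbd, hq2, Int.cast_sub, Int.cast_natCast, mul_sub] at hsum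
  rw [finsum_sub_distrib (fin_supp (fun π => φ (QP k ξ π)) hp')
    (fin_supp (fun π => φ (QP k ξ π)) hp), sub_eq_zero] at hsum
  rw [cyc, cyc, ← finsum_set_coe_eq_finsum_mem, ← finsum_set_coe_eq_finsum_mem]
  exact hsum.symm

end Pool.Agent.P.MP_12d50c_ag
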