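import Pool.Agent.P.MP_12d50c_ag.If4
import Pool.Agent.P.MP_638e8a_ag.ChA3b

/-!
A rational surface over a curve with prescribed faces.
-/

open MvPolynomial
open scoped Polynomial

namespace Pool.Agent.P.MP_12d50c_ag

namespace REL1

variable {k : Type} [Field k] {N n m : ℕ} {E : Type} [Field E] [Algebra k E]
  {T T' : Type} [CommRing T] [Algebra E T] [Algebra k T] [IsScalarTower k E T]
  [CommRing T'] [Algebra E T'] [Algebra k T'] [IsScalarTower k E T']

theorem th_comp (ξ : Fin (N + 1) → E) (φ : T →ₐ[E] T') (t : Fin (n + 1) → T) (f : RR k N n) :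
    φ (th ξ t f) = th ξ (fun j => φ (t j)) f := by
  refine (map_aeval' (φ.restrictScalars k) _ f).trans ?_
  unfold th
  congr 2
  funext i
  rcases i with i | i
  · exact φ.commutes _
  · rfl

omit [Algebra k E] [IsScalarTower k E T] in
theorem th_smap (ξ : Fin (N + 1) → E) (t : Fin (m + 1) → T) (g : Fin (m + 1) → Fin (n + 1)) :
    (th ξ t).comp (smap g : RR k N n →ₐ[k] RR k N m) =
      th ξ fun j => ∑ i with g i = j, t i := by
  refine algHom_ext fun i => ?_
  rcases i with i | i <;> simp [th, smap]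

theorem aeval_vtx (ξ : Fin (N + 1) → E) (v : Fin (n + 1)) (f : RR k N n) :
    aeval ξ (vtx v f) = th ξ (Pi.single v (1 : E)) f := by
  have : (aeval ξ).comp (vtx v : RR k N n →ₐ[k] PP k N) = th ξ (Pi.single v (1 : E)) := by
    refine algHom_ext fun i => ?_
    rcases i with i | i
    · simp [th, vtx]
    · by_cases h : i = v
      · simp [th, vtx, h]
      · simp [th, vtx, h]
  exact DFunLike.congr_fun this f

/-- The generic point of the simplex of dimension two. -/
noncomputable def t2 (E : Type) [Field E] : Fin 3 → E[X][X] :=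
  ![1 - Polynomial.X - Polynomial.C Polynomial.X, Polynomial.X, Polynomial.C Polynomial.X]

theorem sig_th (ξ : Fin (N + 1) → E) (a b : T) (f : RR k N 2) :
    Polynomial.aevalTower (Polynomial.aeval b : E[X] →ₐ[E] T) a (th ξ (t2 E) f) =
      th ξ ![1 - a - b, a, b] f := by
  rw [th_comp]
  congr 2
  funext j
  fin_cases j <;> simp [t2]

theorem le_of_succ {x : WithBot ℕ∞} {m : ℕ} (h : x + 1 ≤ 2 + m) : x ≤ (m + 1 : ℕ) := by
  induction x using WithBot.recBotCoe with
  | bot => exact bot_le
  | coe x =>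
    have e : (2 + m : WithBot ℕ∞) = ((2 + m : ℕ) : ℕ∞) := by push_cast; rfl
    rw [e, ← WithBot.coe_one, ← WithBot.coe_add, WithBot.coe_le_coe] at h
    rw [← WithBot.coe_natCast, WithBot.coe_le_coe]
    induction x using ENat.recTopCoe with
    | top => simp at h
    | coe x =>
      have : x + 1 ≤ 2 + m := by exact_mod_cast h
      exact_mod_cast (show x ≤ m + 1 by omega)

theorem dvd_of_root {L : Type} [Field L] [Algebra E[X] L] [IsFractionRing E[X] L] {p r : E[X]}
    (hr : r ≠ 0) (hc : IsCoprime p r) {q : E[X][X]}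
    (hq : Polynomial.aeval (algebraMap E[X] L p / algebraMap E[X] L r) q = 0) :
    Polynomial.C p - Polynomial.X * Polynomial.C r ∣ q := by
  have hr' : algebraMap E[X] L r ≠ 0 := (map_ne_zero_iff _ (IsFractionRing.injective _ _)).2 hr
  have hp : (Polynomial.C p - Polynomial.X * Polynomial.C r).IsPrimitive := fun c h => by
    rw [Polynomial.C_dvd_iff_dvd_coeff] at h
    have h0 := h 0
    have h1 := h 1
    simp only [Polynomial.coeff_sub, Polynomial.coeff_C_zero, Polynomial.mul_coeff_zero,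
      Polynomial.coeff_X_zero, zero_mul, sub_zero] at h0
    rw [Polynomial.coeff_sub, Polynomial.coeff_X_mul, Polynomial.coeff_C_succ,
      Polynomial.coeff_C_zero, zero_sub, dvd_neg] at h1
    exact hc.isUnit_of_dvd' h0 h1
  refine hp.dvd_of_fraction_map_dvd_fraction_map (K := L) ?_
  rw [Polynomial.aeval_def, Polynomial.eval₂_eq_eval_map] at hq
  refine Dvd.dvd.trans ⟨Polynomial.C (-(algebraMap E[X] L r)⁻¹), ?_⟩ (Polynomial.dvd_iff_isRoot.2 hq)
  rw [Polynomial.map_sub, Polynomial.map_mul, Polynomial.map_C, Polynomial.map_C, Polynomial.map_X,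
    sub_mul, mul_assoc, ← map_mul, ← map_mul, mul_neg, mul_neg, mul_inv_cancel₀ hr', map_neg,
    map_neg, map_one, div_eq_mul_inv]
  ring

end REL1

open REL1 in
theorem t_REL1 : S_DM → S_VP0 → S_VP → S_GENL → S_REL1 := by
  intro hDM hVP0 hVP hGENL k _ N E _ _ ξ p p' hξ hc hne h0 h1 hp0 hp1
  obtain ⟨ρ, hρ⟩ : Polynomial.X * (1 - Polynomial.X) ∣ p - p' := by
    refine IsCoprime.mul_dvd ⟨1, 1, by ring⟩ ?_ ?_
    · rw [Polynomial.X_dvd_iff, Polynomial.coeff_zero_eq_eval_zero, Polynomial.eval_sub, h0,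
        sub_self]
    · rw [← neg_sub, neg_dvd, ← Polynomial.C_1, Polynomial.dvd_iff_isRoot, Polynomial.IsRoot,
        Polynomial.eval_sub, h1, sub_self]
  obtain ⟨r, hrd⟩ : ∃ r, r = Polynomial.X * ρ := ⟨_, rfl⟩
  have hpr : p' = p - (1 - Polynomial.X) * r := by rw [hrd]; linear_combination -hρ
  have hr : r ≠ 0 := fun e => hne (by rw [hpr, e, mul_zero, sub_zero])
  have hr0 : r.eval 0 = 0 := by simp [hrd]
  have hcr : IsCoprime p r := by
    obtain ⟨a, b, hab⟩ := hc
    exact ⟨a + b, -(b * (1 - Polynomial.X)), by rw [hpr] at hab; linear_combination hab⟩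
  obtain ⟨i, hi⟩ := hξ.one
  let L := FractionRing E[X]
  have hinj : Function.Injective (algebraMap E[X] L) := IsFractionRing.injective _ _
  have hr' : algebraMap E[X] L r ≠ 0 := (map_ne_zero_iff _ hinj).2 hr
  obtain ⟨s, hs⟩ : ∃ s, s = algebraMap E[X] L Polynomial.X := ⟨_, rfl⟩
  obtain ⟨a, ha⟩ : ∃ a, a = algebraMap E[X] L p / algebraMap E[X] L r := ⟨_, rfl⟩
  have hsa : ∀ q : E[X], Polynomial.aeval s q = algebraMap E[X] L q := fun q => by
    rw [hs, Polynomial.aeval_algebraMap_apply, Polynomial.aeval_X_left_apply]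
  have hsum : ∑ j, (![1 - a - s, a, s] : Fin 3 → L) j = 1 := by
    simp [Fin.sum_univ_three]
    ring
  have hgen := hGENL k N 2 E L ξ _ hsum hξ.gen hξ.one fun u => by
    have hm : ∀ q : E[X], algebraMap E[X] L q ∈
        Algebra.adjoin E (Set.range (![1 - a - s, a, s] : Fin 3 → L)) := fun q => by
      rw [← hsa]
      refine Algebra.adjoin_mono ?_ (Polynomial.aeval_mem_adjoin_singleton E s)
      exact Set.singleton_subset_iff.2 ⟨2, rfl⟩
    obtain ⟨x, y, hy, rfl⟩ := IsFractionRing.div_surjective (A := E[X]) u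
    have hy0 : algebraMap E[X] L y ≠ 0 := (map_ne_zero_iff _ hinj).2 (nonZeroDivisors.ne_zero hy)
    exact ⟨_, hm x, _, hm y, hy0, div_mul_cancel₀ _ hy0⟩
  obtain ⟨G, d, u, hu, hG, hGe⟩ := ((hVP k N 2).2 E E[X][X] ξ (t2 E)
    (by simp [t2, Fin.sum_univ_three]; ring)).2 hξ.gen hξ.one
    (Polynomial.C p - Polynomial.X * Polynomial.C r) (by
      have hm : ∀ q : E[X], Polynomial.C q ∈ Algebra.adjoin E (Set.range (t2 E)) := fun q => by
        have : Polynomial.aeval (Polynomial.C (Polynomial.X : E[X])) q = Polynomial.C q := by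
          have := Polynomial.aeval_algHom_apply (Polynomial.CAlgHom : E[X] →ₐ[E] E[X][X])
            Polynomial.X q
          rwa [Polynomial.aeval_X_left_apply] at this
        rw [← this]
        refine Algebra.adjoin_mono ?_ (Polynomial.aeval_mem_adjoin_singleton E _)
        exact Set.singleton_subset_iff.2 ⟨2, rfl⟩
      exact sub_mem (hm p) (mul_mem (Algebra.subset_adjoin ⟨1, rfl⟩) (hm r)))
  have hGv : ∀ (T : Type) [CommRing T] [Algebra E T] [Algebra k T] [IsScalarTower k E T] (x y : T),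
      th ξ ![1 - x - y, x, y] G =
        algebraMap E T u * (Polynomial.aeval y p - x * Polynomial.aeval y r) := by
    intro T _ _ _ _ x y
    rw [← sig_th, hGe, map_mul, AlgHom.commutes, map_sub, map_mul, Polynomial.aevalTower_C,
      Polynomial.aevalTower_C, Polynomial.aevalTower_X]
  have hGW : G ∈ vanw k (wt N 2) (Sum.elim (algebraMap E L ∘ ξ) ![1 - a - s, a, s]) := by
    rw [mem_vanw_of_hom hG]
    refine (hGv L a s).trans ?_
    rw [hsa, hsa, ha, div_mul_cancel₀ _ hr', sub_self, mul_zero]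
  have hmap : ∀ x y : E[X], (vanw k (wt N 2)
      (Sum.elim (algebraMap E L ∘ ξ) ![1 - a - s, a, s])).map (th ξ ![1 - x - y, x, y]) =
      Ideal.span {Polynomial.aeval y p - x * Polynomial.aeval y r} := by
    intro x y
    refine le_antisymm (Ideal.map_le_iff_le_comap.2 fun f hf => ?_) ?_
    · have e1 : th ξ ![1 - a - s, a, s] f = 0 := aeval_eq_zero_of_mem_vanw hf
      rw [← sig_th] at e1
      have e2 : Polynomial.aeval a (th ξ (t2 E) f) = 0 := by
        rw [← e1, Polynomial.aeval_def]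
        change _ = Polynomial.eval₂ _ _ _
        congr 1
        exact RingHom.ext fun q => (hsa q).symm
      rw [ha] at e2
      have e3 := map_dvd (Polynomial.aevalTower (Polynomial.aeval y : E[X] →ₐ[E] E[X]) x)
        (dvd_of_root hr hcr e2)
      rw [sig_th, map_sub, map_mul, Polynomial.aevalTower_C, Polynomial.aevalTower_C,
        Polynomial.aevalTower_X] at e3
      rwa [Ideal.mem_comap, Ideal.mem_span_singleton]
    · rw [Ideal.span_singleton_le_iff_mem]
      have := Ideal.mul_mem_left _ (algebraMap E E[X] u⁻¹)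
        (Ideal.mem_map_of_mem (th ξ ![1 - x - y, x, y]) hGW)
      rwa [hGv, ← mul_assoc, ← map_mul, inv_mul_cancel₀ hu, map_one, one_mul] at this
  refine ⟨⟨vanw k (wt N 2) (Sum.elim (algebraMap E L ∘ ξ) ![1 - a - s, a, s]), inferInstance⟩,
    ⟨⟨inferInstance, wHom_vanw _, ?_, i, fun h => ?_⟩, ?_⟩, fun m g Q hQ hle => ?_, fun j => ?_⟩
  · refine ((hVP0 k N 2).2.2.2.1 _ (wHom_vanw ξ)).le_vanw.2 fun f hf => ?_
    refine (show cyl (van k ξ) 2 ≤ RingHom.ker (aeval (R := k)
      (Sum.elim (algebraMap E L ∘ ξ) ![1 - a - s, a, s])) from sup_le ?_ ?_) hf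
    · refine Ideal.map_le_iff_le_comap.2 fun f hf => ?_
      rw [Ideal.mem_comap, RingHom.mem_ker, aeval_rename, Sum.elim_comp_inl]
      have := map_aeval' (IsScalarTower.toAlgHom k E L) ξ f
      rw [aeval_eq_zero_of_mem_vanw hf, map_zero] at this
      exact this.symm
    · rw [Ideal.span_singleton_le_iff_mem, RingHom.mem_ker, map_sub, map_sum, map_one]
      simp only [aeval_X, Sum.elim_inr]
      rw [hsum, sub_self]
  · have := aeval_eq_zero_of_mem_vanw h
    simp [hi] at this
  · obtain ⟨n, e1, e2⟩ := hDM k _ _ L _ (Sum.inl i) hgen rfl (by simp [hi])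
    obtain ⟨n', e3, e4⟩ := hDM k _ _ E ξ i hξ.gen rfl (by simp [hi])
    have e5 : n' = 1 := by
      have := e4.symm.trans hξ.dim
      have : n' + 1 = 2 := by exact_mod_cast this
      omega
    have e6 : Algebra.trdeg E L = 1 := by
      rw [← Pool.Agent.P.MP_638e8a_ag.Cyc.Dim0.trdeg_frac (IsScalarTower.toAlgHom E E[X] L) hinj
        fun c => ?_, Polynomial.trdeg_of_isDomain]
      obtain ⟨x, y, hy, rfl⟩ := IsFractionRing.div_surjective (A := E[X]) c
      have hy0 : algebraMap E[X] L y ≠ 0 := (map_ne_zero_iff _ hinj).2 (nonZeroDivisors.ne_zero hy)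
      exact ⟨x, y, hy0, (div_mul_cancel₀ _ hy0).symm⟩
    have e7 := trdeg_add_eq k E (A := L)
    rw [e1, e3, e6, e5] at e7
    have e8 : 1 + 1 = n := by exact_mod_cast e7
    rw [e2, ← e8]
  · have := hQ.prime
    obtain ⟨c1, c2⟩ := (hVP k N m).1 (van k ξ) inferInstance
    have hlt := Pool.Agent.P.MP_638e8a_ag.Cyc.A3b.dim_succ_le hQ.le fun e => ?_
    · rw [c2, hξ.dim] at hlt
      exact le_of_succ hlt
    have m1 : smap g G ∈ cyl (van k ξ) m := e ▸ hle (Ideal.mem_map_of_mem _ hGW)
    have m2 := Ideal.mem_map_of_mem (vtx 0) m1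
    rw [(((hVP0 k N m).2.2.2.2 0).2.2 _).1, ((hVP0 k N 2).1 m g).2.2.2.2.1] at m2
    have m3 := aeval_eq_zero_of_mem_vanw m2
    rw [aeval_vtx] at m3
    generalize g 0 = v at m3
    have f0 : (Pi.single 0 1 : Fin 3 → E) = ![1 - 0 - 0, 0, 0] := by
      funext j; fin_cases j <;> simp
    have f1 : (Pi.single 1 1 : Fin 3 → E) = ![1 - 1 - 0, 1, 0] := by
      funext j; fin_cases j <;> simp
    have f2 : (Pi.single 2 1 : Fin 3 → E) = ![1 - 0 - 1, 0, 1] := by
      funext j; fin_cases j <;> simp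
    fin_cases v
    · have := (hGv E 0 0).symm.trans (f0 ▸ m3)
      simp [hu, hp0] at this
    · have := (hGv E 1 0).symm.trans (f1 ▸ m3)
      simp [hu, hp0, hr0] at this
    · have := (hGv E 0 1).symm.trans (f2 ▸ m3)
      simp [hu, hp1] at this
  · rw [Ideal.map_mapₐ, th_smap]
    fin_cases j
    · have := hmap (1 - Polynomial.X) Polynomial.X
      rw [Polynomial.aeval_X_left_apply, Polynomial.aeval_X_left_apply, ← hpr] at this
      refine Eq.trans ?_ this
      congr 2
      funext l
      fin_cases l <;> simp [Finset.sum_filter, Fin.sum_univ_two, Fin.succAbove]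
    · have := hmap 0 Polynomial.X
      rw [Polynomial.aeval_X_left_apply, zero_mul, sub_zero p] at this
      refine Eq.trans ?_ this
      congr 2
      funext l
      fin_cases l <;> simp [Finset.sum_filter, Fin.sum_univ_two, Fin.succAbove]
    · have := hmap Polynomial.X 0
      rw [← Polynomial.coeff_zero_eq_aeval_zero', ← Polynomial.coeff_zero_eq_aeval_zero',
        Polynomial.coeff_zero_eq_eval_zero, Polynomial.coeff_zero_eq_eval_zero, hr0, map_zero,
        mul_zero, sub_zero (algebraMap _ _ _)] at this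
      refine Eq.trans ?_ this
      congr 2
      funext l
      fin_cases l <;> simp [Finset.sum_filter, Fin.sum_univ_two, Fin.succAbove]

end Pool.Agent.P.MP_12d50c_ag
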