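import Pool.Agent.P.MP_12d50c_ag.If3

/-!
Forms of large degree separate jets.
-/

open MvPolynomial
open scoped Polynomial

namespace Pool.Agent.P.MP_12d50c_ag

namespace SEP

variable {K : Type} [Field K] {N : ℕ}

theorem jet (γ : Fin (N + 1) → K[X]) {i : Fin (N + 1)} (hi : γ i = 1) {l D : ℕ} (hl : l ≤ D + 1)
    (hj : 1 < l → ∃ j c, γ j = Polynomial.C c + Polynomial.X) (h : K[X]) :
    ∃ H : PP K N, H.IsHomogeneous D ∧ Polynomial.X ^ l ∣ aeval γ H - h := by
  obtain ⟨T, T1, T2⟩ : ∃ T : PP K N, T.IsHomogeneous 1 ∧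
      ∀ r < l, aeval γ T ^ r = Polynomial.X ^ r := by
    by_cases h1 : 1 < l
    · obtain ⟨j, c, hc⟩ := hj h1
      refine ⟨X j - C c * X i, (isHomogeneous_X K j).sub ((isHomogeneous_X K i).C_mul c),
        fun r _ => ?_⟩
      simp [hi, hc]
    · refine ⟨X i, isHomogeneous_X K i, fun r hr => ?_⟩
      rw [show r = 0 by omega, pow_zero, pow_zero]
  refine ⟨∑ r ∈ Finset.range l, C (h.coeff r) * (T ^ r * X i ^ (D - r)), ?_, ?_⟩
  · refine IsHomogeneous.sum _ _ _ fun r hr => IsHomogeneous.C_mul ?_ _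
    have h1 := (T1.pow r).mul ((isHomogeneous_X K i).pow (D - r))
    have := Finset.mem_range.1 hr
    rwa [show 1 * r + 1 * (D - r) = D by omega] at h1
  · have e : aeval γ (∑ r ∈ Finset.range l, C (h.coeff r) * (T ^ r * X i ^ (D - r))) =
        ∑ r ∈ Finset.range l, Polynomial.C (h.coeff r) * Polynomial.X ^ r := by
      rw [map_sum]
      refine Finset.sum_congr rfl fun r hr => ?_
      simp [hi, T2 r (Finset.mem_range.1 hr)]
    rw [e, Polynomial.X_pow_dvd_iff]
    intro d hd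
    simp [Polynomial.coeff_X_pow, hd]

theorem lin {γ γ' : Fin (N + 1) → K[X]} (h : Dist (base γ) (base γ')) :
    ∃ L : PP K N, L.IsHomogeneous 1 ∧ IsCoprime Polynomial.X (aeval γ L) ∧
      Polynomial.X ∣ aeval γ' L := by
  obtain ⟨i, j, h⟩ := h
  refine ⟨C (base γ' j) * X i - C (base γ' i) * X j,
    ((isHomogeneous_X K i).C_mul _).sub ((isHomogeneous_X K j).C_mul _), ?_, ?_⟩
  · rw [Polynomial.prime_X.irreducible.coprime_iff_not_dvd, Polynomial.X_dvd_iff]
    intro h0
    apply h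
    simp [base] at h0 ⊢
    linear_combination h0
  · rw [Polynomial.X_dvd_iff]
    simp [base]
    ring

end SEP

theorem t_SEP : S_SEP := by
  classical
  intro K _ N m ι _ l γ g h1 h2 h3 h4
  have key : ∀ a, ∃ β : PP K N, β.IsHomogeneous m ∧
      Polynomial.X ^ l a ∣ aeval (γ a) β - g a ∧
      ∀ b, b ≠ a → Polynomial.X ^ l b ∣ aeval (γ b) β := by
    intro a
    rcases Nat.eq_zero_or_pos (l a) with h0 | h0
    · exact ⟨0, isHomogeneous_zero _ _ _, by simp [h0], fun b _ => by simp⟩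
    obtain ⟨i, hi⟩ := h1 a
    have hL : ∀ b, ∃ L : PP K N, L.IsHomogeneous 1 ∧ IsCoprime Polynomial.X (aeval (γ a) L) ∧
        (b ≠ a → Polynomial.X ^ l b ∣ aeval (γ b) L ^ l b) := by
      intro b
      by_cases hb : b ≠ a ∧ 0 < l b
      · obtain ⟨L, L1, L2, L3⟩ := SEP.lin (h3 a b hb.1.symm h0 hb.2)
        exact ⟨L, L1, L2, fun _ => pow_dvd_pow_of_dvd L3 _⟩
      · refine ⟨X i, isHomogeneous_X K i, by simp [hi, isCoprime_one_right], fun hba => ?_⟩
        have : l b = 0 := by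
          by_contra hc
          exact hb ⟨hba, Nat.pos_of_ne_zero hc⟩
        simp [this]
    choose L L1 L2 L3 using hL
    have hU : (∏ b ∈ Finset.univ.erase a, L b ^ l b).IsHomogeneous
        (∑ b ∈ Finset.univ.erase a, l b) :=
      IsHomogeneous.prod _ _ _ fun b _ => by simpa using (L1 b).pow (l b)
    have hs := Finset.add_sum_erase Finset.univ l (Finset.mem_univ a)
    have hcop : IsCoprime (Polynomial.X ^ l a)
        (aeval (γ a) (∏ b ∈ Finset.univ.erase a, L b ^ l b)) := by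
      rw [map_prod]
      exact IsCoprime.prod_right fun b _ => by
        rw [map_pow]
        exact (L2 b).pow
    obtain ⟨p, q, hpq⟩ := hcop
    obtain ⟨H, H1, w, hw⟩ := SEP.jet (γ a) hi (D := m - ∑ b ∈ Finset.univ.erase a, l b)
      (by omega) (h2 a) (q * g a)
    refine ⟨(∏ b ∈ Finset.univ.erase a, L b ^ l b) * H, ?_, ?_, fun b hb => ?_⟩
    · have := hU.mul H1
      rwa [Nat.add_sub_cancel' (by omega)] at this
    · refine ⟨aeval (γ a) (∏ b ∈ Finset.univ.erase a, L b ^ l b) * w - p * g a, ?_⟩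
      rw [map_mul]
      linear_combination aeval (γ a) (∏ b ∈ Finset.univ.erase a, L b ^ l b) * hw + g a * hpq
    · rw [map_mul, map_prod]
      refine Dvd.dvd.mul_right ((L3 b hb).trans ?_) _
      rw [← map_pow]
      exact Finset.dvd_prod_of_mem (fun b' => aeval (γ b) (L b' ^ l b'))
        (Finset.mem_erase.2 ⟨hb, Finset.mem_univ b⟩)
  choose β β1 β2 β3 using key
  refine ⟨fun s => coeff s.1 (∑ a, β a), fun a => ?_⟩
  rw [form_coeff (IsHomogeneous.sum _ _ _ fun a _ => β1 a), map_sum,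
    ← Finset.add_sum_erase Finset.univ _ (Finset.mem_univ a), add_sub_right_comm]
  exact (β2 a).add (Finset.dvd_sum fun b hb => β3 b a (Finset.ne_of_mem_erase hb).symm)

end Pool.Agent.P.MP_12d50c_ag
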