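import Pool.Agent.P.MP_12d50c_ag.If5

/-!
Tangent spaces and differentials.
-/

open MvPolynomial

namespace Pool.Agent.P.MP_12d50c_ag

namespace SMO2

variable {F : Type} [Field F] {N : ℕ} {O K : Type} [CommRing O] [Algebra F O] [Field K]
  [Algebra F K]

theorem aeval_dual (y δ : Fin (N + 1) → K) (f : PP F N) :
    (aeval (fun j => (TrivSqZeroExt.inl (y j) + TrivSqZeroExt.inr (δ j) : TrivSqZeroExt K K))
      f).fst = aeval y f ∧
    (aeval (fun j => (TrivSqZeroExt.inl (y j) + TrivSqZeroExt.inr (δ j) : TrivSqZeroExt K K))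
      f).snd = grad y f δ := by
  induction f using MvPolynomial.induction_on with
  | C c =>
    rw [grad_C, aeval_C, aeval_C, TrivSqZeroExt.algebraMap_eq_inl']
    simp
  | add f g hf hg =>
    rw [grad_add, map_add, map_add, TrivSqZeroExt.fst_add, TrivSqZeroExt.snd_add, hf.1, hf.2, hg.1,
      hg.2]
    exact ⟨rfl, rfl⟩
  | mul_X f j hf =>
    rw [grad_mul, map_mul, map_mul, TrivSqZeroExt.fst_mul, TrivSqZeroExt.snd_mul, hf.1, hf.2,
      grad_X]
    simp [mul_comm]

theorem aeval_theta (θ : PP F N →ₐ[F] O) (f : PP F N) : aeval (fun j => θ (X j)) f = θ f := by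
  rw [← map_aeval' θ X f, aeval_X_left_apply]

theorem aeval_psi (θ : PP F N →ₐ[F] O) (ψ : O →ₐ[F] K) (f : PP F N) :
    aeval (fun j => ψ (θ (X j))) f = ψ (θ f) := by
  rw [← map_aeval' ψ, aeval_theta]

theorem grad_sub (y δ : Fin (N + 1) → K) (f g : PP F N) :
    grad y (f - g) δ = grad y f δ - grad y g δ := by
  rw [eq_sub_iff_add_eq, ← grad_add, sub_add_cancel]

/-- Extension of a tangent vector to a function on the local ring. -/
theorem exists_ext (θ : PP F N →ₐ[F] O) (ψ : O →ₐ[F] K) (δ : Fin (N + 1) → K)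
    (h0 : ∀ f, θ f = 0 → grad (fun j => ψ (θ (X j))) f δ = 0)
    (hs : ∀ u, ∃ g h, IsUnit (θ h) ∧ u * θ h = θ g) :
    ∃ E : O →ₗ[F] K, (∀ a b, E (a * b) = ψ a * E b + ψ b * E a) ∧
      ∀ f, E (θ f) = grad (fun j => ψ (θ (X j))) f δ := by
  set y : Fin (N + 1) → K := fun j => ψ (θ (X j)) with hy
  choose g h hu hg using hs
  have hne : ∀ k, IsUnit (θ k) → ψ (θ k) ≠ 0 := fun k hk => (hk.map ψ).ne_zero
  have hev : ∀ f, aeval y f = ψ (θ f) := aeval_psi θ ψ
  obtain ⟨E, hE⟩ : ∃ E : O → K, ∀ u g' h', u * θ h' = θ g' →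
      E u * ψ (θ h') = grad y g' δ - ψ u * grad y h' δ := by
    refine ⟨fun u => (grad y (g u) δ - ψ u * grad y (h u) δ) / ψ (θ (h u)), fun u g' h' e => ?_⟩
    have h1 := h0 (g u * h' - g' * h u) (by
      rw [map_sub, map_mul, map_mul, ← hg u, ← e]; ring)
    rw [grad_sub, grad_mul, grad_mul, hev, hev, hev, hev, ← hg u, ← e, map_mul, map_mul] at h1
    have h2 := hne _ (hu u)
    field_simp
    linear_combination h1
  have hadd : ∀ a b, E (a + b) = E a + E b := by
    intro a b
    have h1 := hE (a + b) (g a * h b + h a * g b) (h a * h b) (by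
      rw [map_add, map_mul, map_mul, map_mul, ← hg a, ← hg b]; ring)
    have h2 := hE a _ _ (hg a)
    have h3 := hE b _ _ (hg b)
    rw [grad_add, grad_mul, grad_mul, grad_mul, hev, hev, hev, hev, ← hg a, ← hg b] at h1
    simp only [map_mul, map_add] at h1
    apply mul_right_cancel₀ (mul_ne_zero (hne _ (hu a)) (hne _ (hu b)))
    linear_combination h1 - ψ (θ (h b)) * h2 - ψ (θ (h a)) * h3
  have hmul : ∀ a b, E (a * b) = ψ a * E b + ψ b * E a := by
    intro a b
    have h1 := hE (a * b) (g a * g b) (h a * h b) (by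
      rw [map_mul, map_mul, ← hg a, ← hg b]; ring)
    have h2 := hE a _ _ (hg a)
    have h3 := hE b _ _ (hg b)
    rw [grad_mul, grad_mul, hev, hev, hev, hev, ← hg a, ← hg b] at h1
    simp only [map_mul] at h1
    apply mul_right_cancel₀ (mul_ne_zero (hne _ (hu a)) (hne _ (hu b)))
    linear_combination h1 - ψ b * ψ (θ (h b)) * h2 - ψ a * ψ (θ (h a)) * h3
  have hth : ∀ f, E (θ f) = grad y f δ := by
    intro f
    have h1 := hE (θ f) f (C 1) (by simp)
    rw [grad_C] at h1
    simpa using h1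
  refine ⟨{ toFun := E, map_add' := hadd, map_smul' := fun c a => ?_ }, hmul, hth⟩
  have h1 : algebraMap F O c = θ (C c) := by rw [← algebraMap_eq, AlgHom.commutes]
  rw [Algebra.smul_def, hmul, AlgHom.commutes, h1, hth, grad_C, RingHom.id_apply, Algebra.smul_def]
  ring

end SMO2

theorem t_SMO2 : S_SMO2 := by
  intro F _ N d I O K _ _ _ _ θ ψ i hI hi hθ hs hfree hfin hd
  letI : Algebra O K := ψ.toRingHom.toAlgebra
  haveI : IsScalarTower F O K := IsScalarTower.of_algebraMap_eq fun c => (ψ.commutes c).symm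
  haveI : Nontrivial O := ψ.toRingHom.domain_nontrivial
  have hsm : ∀ (a : O) (x : K), a • x = ψ a * x := fun a x => rfl
  set y : Fin (N + 1) → K := fun j => ψ (θ (X j)) with hy
  have hev : ∀ f, aeval y f = ψ (θ f) := SMO2.aeval_psi θ ψ
  have hI0 : ∀ f ∈ I, θ f = 0 := by
    intro f hf
    obtain ⟨n, h1, -⟩ := exists_sum_comp (1 : Fin (N + 1) → ℕ) f
    rw [h1, map_sum]
    exact Finset.sum_eq_zero fun e _ =>
      (hθ _ e (weightedHomogeneousComponent_isWeightedHomogeneous _ _)).2 (hI f hf e)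
  have hon : On I y := fun f hf => by rw [hev, hI0 f hf, map_zero]
  have hyi : y i = 1 := by rw [hy]; simp [hi]
  let Ψ : (Ω[O⁄F] →ₗ[O] K) →ₗ[K] (Fin (N + 1) → K) :=
    { toFun := fun L j => L (KaehlerDifferential.D F O (θ (X j)))
      map_add' := fun _ _ => rfl
      map_smul' := fun _ _ => rfl }
  have hΨ : ∀ L f, L (KaehlerDifferential.D F O (θ f)) = grad y f (Ψ L) := by
    intro L f
    induction f using MvPolynomial.induction_on with
    | C c => rw [grad_C, ← algebraMap_eq, AlgHom.commutes, Derivation.map_algebraMap, map_zero]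
    | add f g hf hg => rw [grad_add, map_add, map_add, map_add, hf, hg]
    | mul_X f j hf =>
      rw [grad_mul, map_mul, Derivation.leibniz, map_add, map_smul, map_smul, hf, grad_X, hev, hev,
        hsm, hsm]
      rfl
  have hinj : Function.Injective Ψ := by
    rw [injective_iff_map_eq_zero]
    intro L hL
    have h1 : ∀ f, L (KaehlerDifferential.D F O (θ f)) = 0 := fun f => by
      rw [hΨ, hL]; simp [grad]
    refine Derivation.liftKaehlerDifferential_unique _ _ (Derivation.ext fun u => ?_)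
    obtain ⟨g, h, hu, e⟩ := hs u
    have h2 := h1 g
    rw [← e, Derivation.leibniz, map_add, map_smul, map_smul, h1, smul_zero, zero_add, hsm] at h2
    exact (mul_eq_zero.1 h2).resolve_left (hu.map ψ).ne_zero
  let ℓ : Tan I y →ₗ[K] K := (LinearMap.proj i).comp (Tan I y).subtype
  have hr : LinearMap.range ℓ = ⊤ := by
    rw [eq_top_iff]
    intro c _
    refine ⟨c • ⟨y, self_mem_Tan hI hon⟩, ?_⟩
    rw [map_smul]
    show c * y i = c
    rw [hyi, mul_one]
  have hk : (LinearMap.ker ℓ).map (Tan I y).subtype = LinearMap.range Ψ := by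
    ext δ
    constructor
    · rintro ⟨⟨δ, hδ⟩, h1, rfl⟩
      have h2 : δ i = 0 := h1
      obtain ⟨E, hE1, hE2⟩ := SMO2.exists_ext θ ψ δ (fun f hf => by
        obtain ⟨e, f', h3, h4⟩ := exists_homog (w := (1 : Fin (N + 1) → ℕ)) (i := i) rfl f
        have h5 : θ f' = 0 := by
          rw [← SMO2.aeval_theta, h4 O _ hi, SMO2.aeval_theta, hf]
        have h6 := hδ f' ((hθ f' e h3).1 h5)
        rw [← (SMO2.aeval_dual y δ f').2, h4 _ _ (by simp [hyi, h2]),
          (SMO2.aeval_dual y δ f).2] at h6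
        exact h6) hs
      refine ⟨(Derivation.mk' E hE1).liftKaehlerDifferential, funext fun j => ?_⟩
      show (Derivation.mk' E hE1).liftKaehlerDifferential (KaehlerDifferential.D F O _) = δ j
      rw [Derivation.liftKaehlerDifferential_comp_D, Derivation.coe_mk', hE2, grad_X]
    · rintro ⟨L, rfl⟩
      refine ⟨⟨Ψ L, fun f hf => ?_⟩, ?_, rfl⟩
      · rw [← hΨ, hI0 f hf, map_zero, map_zero]
      · show L (KaehlerDifferential.D F O (θ (X i))) = 0
        rw [hi, Derivation.map_one_eq_zero, map_zero]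
  have h1 := LinearMap.finrank_range_add_finrank_ker ℓ
  rw [hr, finrank_top, Module.finrank_self, ← Submodule.finrank_map_subtype_eq, hk,
    LinearMap.finrank_range_of_inj hinj, Module.finrank_linearMap, Module.finrank_self, hd] at h1
  omega

end Pool.Agent.P.MP_12d50c_ag
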