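import Pool.Agent.P.MP_12d50c_ag.If5

/-!
The smooth projective surface in coordinates.
-/

open CategoryTheory AlgebraicGeometry IsLocalRing MvPolynomial
open Pool.Agent.P.MP_638e8a_ag.Cyc (St Rf ev stm primeOf)
open Pool.Agent.P.MP_90138e_ag (IsProjective SmProj)

namespace Pool.Agent.P.MP_12d50c_ag

namespace SURF

section

variable {F k Ω : Type} [Field F] [Field k] [Field Ω] [Algebra F k] [Algebra k Ω] [Algebra F Ω]
  [IsScalarTower F k Ω] {N : ℕ} {I : Ideal (PP F N)} {y : Fin (N + 1) → Ω}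

theorem on_map (h : On (I.map (ext F k _)) y) : On I y := fun f hf => by
  rw [← aeval_map_algebraMap k]
  exact h _ (Ideal.mem_map_of_mem _ hf)

theorem grad_map (f : PP F N) (δ : Fin (N + 1) → Ω) : grad y (ext F k _ f) δ = grad y f δ := by
  simp only [grad, pderiv_map, aeval_map_algebraMap]

theorem tan_map (h : On (I.map (ext F k _)) y) : Tan (I.map (ext F k _)) y = Tan I y := by
  ext δ
  refine (mem_Tan_span h).trans ⟨fun a f hf => ?_, ?_⟩
  · rw [← grad_map (k := k)]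
    exact a _ ⟨f, hf, rfl⟩
  · rintro a _ ⟨f, hf, rfl⟩
    rw [grad_map]
    exact a f hf

theorem hom_map (h : Hom I) : Hom (I.map (ext F k _)) := by
  obtain ⟨S, h1, rfl⟩ := h.exists_gen
  rw [Ideal.map_span]
  refine wHom_span ?_
  rintro _ ⟨f, hf, rfl⟩
  obtain ⟨d, hd⟩ := h1 f hf
  exact ⟨d, IsHomogeneous.map hd _⟩

end

theorem tan3 (h3 : S_PTS3) (s1 : S_SMO1) (s2 : S_SMO2) {F : Type} [Field F] {Y : Scheme.{0}}
    [IsIntegral Y] (κ : Y ⟶ Spec (.of F)) [SmoothOfRelativeDimension 2 κ] {N : ℕ}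
    {I : Ideal (PP F N)} (c : CS κ 1 I) (hI : c.pt (genericPoint Y) = I) {Ω : Type} [Field Ω]
    [Algebra F Ω] {y : Fin (N + 1) → Ω} (hy : y ≠ 0) (hon : On I y) :
    Module.finrank Ω (Tan I y) = 3 := by
  obtain ⟨i, hi0⟩ := Function.ne_iff.1 hy
  obtain ⟨x, ψ, e, hl, hψ, hs⟩ := c.ex' (algebraMap F Ω) y ⟨i, rfl, Ne.isUnit hi0⟩ hon
  simp only [Pi.one_apply, pow_one] at hs
  have hi : IsUnit (c.s x i) := by
    refine isUnit_of_map_unit ψ _ ?_
    rw [hs]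
    exact e.isUnit.mul (Ne.isUnit hi0)
  let := algS κ x
  let θ : PP F N →ₐ[F] St x := { c.th x hi with commutes' := fun r => eval₂Hom_C _ _ r }
  let ψ' : St x →ₐ[F] Ω := { ψ with commutes' := fun r => RingHom.congr_fun hψ r }
  have hθ : ∀ j, θ (X j) = c.s x j * ↑(hi.unit⁻¹) := fun j =>
    (eval₂Hom_X' _ _ j).trans (by rw [Pi.one_apply, pow_one])
  have h1 : θ (X i) = 1 := by rw [hθ, hi.mul_val_inv]
  obtain ⟨p1, p2, -⟩ := h3 F Y κ _ 1 I c x i hi rfl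
  obtain ⟨q1, q2, q3⟩ := s1 F Y κ 2 x
  have h := s2 F N 2 I (St x) Ω θ ψ' i c.hom h1 (fun f d hf => hI ▸ p1 f d hf) p2 q1 q2 q3
  have e1 : (fun j => ψ' (θ (X j))) = fun j => (y i)⁻¹ * y j := funext fun j => by
    have h2 := congrArg ψ' h1
    rw [hθ, map_mul, map_one] at h2
    rw [hθ, map_mul]
    change ψ _ * _ = _ at h2 ⊢
    rw [hs] at h2 ⊢
    rw [eq_inv_mul_iff_mul_eq₀ hi0]
    linear_combination y j * h2
  rwa [e1, Tan_scale c.hom hon (inv_ne_zero hi0)] at h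

theorem gen (h2 : S_PTS2) {F : Type} [Field F] {Y : Scheme.{0}} (κ : Y ⟶ Spec (.of F)) {N : ℕ}
    {I : Ideal (PP F N)} (c : CS κ 1 I) (g : Y) :
    letI := algR κ g
    Gen F 1 (c.co g) := by
  let := algR κ g
  intro u
  have hu : u ∈ Set.range (ev (le_refl g)) := by
    obtain ⟨a, rfl⟩ := Y.residue_surjective g u
    exact ⟨a, congrArg (Y.residue g).hom (MP_638e8a_ag.Cyc.sp_refl g a)⟩
  rw [h2 F Y κ _ 1 I c g g (le_refl g)] at hu
  obtain ⟨d, a, b, ha, hb, hn, e⟩ := hu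
  exact ⟨d, a, b, ha, hb, fun h => hn ((mem_vanw_of_hom hb).2 h), e⟩

end SURF

theorem t_SURF : S_DM → S_RD1 → S_PTS1 → S_PTS2 → S_PTS3 → S_SMO1 → S_SMO2 → S_GI1 → S_GI2 →
    S_SURF := by
  intro hDM hRD h1 h2 h3 s1 s2 g1 g2 F k _ _ _ _ X _ _ _ N I c hX hI
  let := algR X.hom (genericPoint X.left)
  have hp : I.IsPrime := hI ▸ inferInstance
  obtain ⟨i, -, hi⟩ := ((h1 F _ X.hom _ 1 I c).1 (genericPoint X.left)).2.2.1
  have hd : ringKrullDim (PP F N ⧸ I) = 3 := by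
    obtain ⟨n, a, b⟩ := hDM F _ 1 _ (c.co (genericPoint X.left)) i (SURF.gen h2 X.hom c _) rfl
      fun h => hi ((mem_van_of_hom (isHomogeneous_X F i)).2 (by rwa [aeval_X]))
    let S : SmProj F := ⟨X, 2, inferInstance, inferInstance, hX⟩
    have e := MP_638e8a_ag.Cyc.trdeg_eq_dm (S := S) S.gen
    rw [MP_638e8a_ag.Cyc.dm_gen] at e
    obtain rfl : n = 2 := by exact_mod_cast a.symm.trans e
    rw [← hI]
    exact b
  have hp' : (I.map (ext F k _)).IsPrime := hI ▸ g2 F k _ N (c.co (genericPoint X.left))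
    (g1 F k _ X.hom)
  have hc : (I.map (ext F k _)).comap (ext F k _) = I := by
    obtain ⟨P, hP⟩ := ((hRD F k _).1 ⟨I, hp⟩).2.1
    have e : P.asIdeal.comap (ext F k _) = I := congrArg PrimeSpectrum.asIdeal hP
    exact le_antisymm ((Ideal.comap_mono (Ideal.map_le_iff_le_comap.2 e.ge)).trans e.le)
      Ideal.le_comap_map
  have ht : ∀ (Ω : Type) [Field Ω] [Algebra k Ω] (y : Fin (N + 1) → Ω), y ≠ 0 →
      On (I.map (ext F k _)) y → Module.finrank Ω (Tan (I.map (ext F k _)) y) = 3 := by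
    intro Ω _ _ y hy hon
    let : Algebra F Ω := ((algebraMap k Ω).comp (algebraMap F k)).toAlgebra
    have : IsScalarTower F k Ω := .of_algebraMap_eq fun _ => rfl
    rw [SURF.tan_map hon]
    exact SURF.tan3 h3 s1 s2 X.hom c hI hy (SURF.on_map hon)
  refine ⟨hp, ⟨i, hI ▸ hi⟩, hd, ⟨hp', SURF.hom_map c.hom, ?_, fun Ω _ _ y a b => (ht Ω y a b).le⟩,
    fun Ω _ _ y a b => (ht Ω y a b).ge⟩
  have e := ((hRD F k _).2 ⟨_, hp'⟩).1
  dsimp only at e
  rw [e, hc, hd]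
  rfl

end Pool.Agent.P.MP_12d50c_ag
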