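import Pool.Agent.P.MP_12d50c_ag.If2

/-!
Permutations preserving an almost injective map.
-/

namespace Pool.Agent.P.MP_12d50c_ag

theorem t_SW : S_SW := by
  classical
  intro n α ψ Z σ hn hZ hσ
  by_cases h1 : σ = 1
  · exact Or.inl h1
  right
  obtain ⟨i, hi⟩ : ∃ i, σ i ≠ i := by
    by_contra h
    exact h1 (Equiv.ext fun i => not_not.1 fun h' => h ⟨i, h'⟩)
  have key : ∀ j, j ≠ i → j ≠ σ i → σ j = j := by
    intro j h2 h3
    by_contra h4
    have h5 : Z ⊆ ((Finset.univ.erase (σ i)).erase j).image ψ := by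
      intro a ha
      obtain ⟨b, rfl⟩ := hZ a ha
      by_cases e1 : b = σ i
      · exact Finset.mem_image.2 ⟨i, by simp [h2.symm, hi.symm], by rw [e1, hσ]⟩
      by_cases e2 : b = j
      · exact Finset.mem_image.2 ⟨σ j, by simp [h2, h4], by rw [e2, hσ]⟩
      · exact Finset.mem_image.2 ⟨b, by simp [e1, e2], rfl⟩
    have h6 := (Finset.card_le_card h5).trans Finset.card_image_le
    have h7 := Finset.card_erase_add_one (s := Finset.univ.erase (σ i)) (a := j) (by simp [h3])
    have h8 := Finset.card_erase_add_one (Finset.mem_univ (σ i))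
    rw [Finset.card_univ, Fintype.card_fin] at h8
    omega
  have h2 : σ (σ i) = i := by
    by_contra h
    have h3 : σ (σ i) ≠ σ i := fun e => hi (σ.injective e)
    exact h3 (σ.injective (key _ h h3))
  refine ⟨i, σ i, hi.symm, Equiv.ext fun j => ?_⟩
  rw [Equiv.swap_apply_def]
  split_ifs with e1 e2
  · rw [e1]
  · rw [e2, h2]
  · exact key j e1 e2

end Pool.Agent.P.MP_12d50c_ag
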