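import Pool.Agent.P.MP_12d50c_ag.If4

/-!
The symbol attached to a functional has the properties of a symbol.
-/

open MvPolynomial

namespace Pool.Agent.P.MP_12d50c_ag

namespace SYMB

variable {k : Type} [Field k] {N : ℕ} {I : Ideal (PP k N)} {β : Ideal (PP k N) → PP k N → ℚ}

theorem len_zero {h : PP k N} {p : PrimeSpectrum (PP k N)} (hp : h ∉ p.asIdeal) :
    len (I ⊔ Ideal.span {h}) p.asIdeal = 0 :=
  len_eq_zero_iff.2 fun hle => hp (hle (Ideal.mem_sup_right (Ideal.mem_span_singleton_self h)))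

theorem Bsym_congr {h g g' : PP k N}
    (H : ∀ p ∈ Cu I, h ∈ p.asIdeal → β p.asIdeal g = β p.asIdeal g') :
    Bsym I β h g = Bsym I β h g' := by
  unfold Bsym
  refine finsum_mem_congr rfl fun p hp => ?_
  by_cases hh : h ∈ p.asIdeal
  · rw [H p hp hh]
  · simp [len_zero hh]

theorem fin_supp {h : PP k N} (hf : {p ∈ Cu I | h ∈ p.asIdeal}.Finite) (g : PP k N) :
    (Cu I ∩ Function.support fun p : PrimeSpectrum (PP k N) =>
      ((len (I ⊔ Ideal.span {h}) p.asIdeal).toNat : ℚ) * β p.asIdeal g).Finite :=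
  hf.subset fun p hp => ⟨hp.1, by
    by_contra hh
    exact hp.2 (by simp [len_zero hh])⟩

theorem unit_C {c : k} (hc : c ≠ 0) : IsUnit (C c : PP k N) := (IsUnit.mk0 c hc).map C

theorem cop_C {c : k} (hc : c ≠ 0) {a b : PP k N} (H : Cop I a b) : Cop I (C c * a) b := by
  obtain ⟨e, he⟩ := H.hl
  refine ⟨⟨e, he.C_mul c⟩, H.hr, fun h => H.nl ((Ideal.unit_mul_mem_iff_mem I (unit_C hc)).1 h),
    H.nr, H.fin.subset fun y hy => ⟨hy.1, ?_, hy.2.2⟩⟩
  have h1 := hy.2.1
  rw [map_mul, aeval_C] at h1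
  exact (mul_eq_zero.1 h1).resolve_left (by simpa using hc)

theorem Bsym_C_left {c : k} (hc : c ≠ 0) (a g : PP k N) :
    Bsym I β (C c * a) g = Bsym I β a g := by
  unfold Bsym
  rw [Ideal.span_singleton_mul_left_unit (unit_C hc)]

theorem exists_scal [Infinite k] {a b c : PP k N} (ha : a ∉ I) :
    ∃ t : k, t ≠ 0 ∧ C t * a + b + c ∉ I := by
  classical
  by_cases h : a + b + c ∈ I
  · obtain ⟨t, ht⟩ := Infinite.exists_notMem_finset ({0, 1} : Finset k)
    simp only [Finset.mem_insert, Finset.mem_singleton, not_or] at ht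
    refine ⟨t, ht.1, fun h' => ha ?_⟩
    have h1 : C (t - 1) * a ∈ I := by
      have h2 := I.sub_mem h' h
      have h3 : C t * a + b + c - (a + b + c) = C (t - 1) * a := by
        rw [map_sub, map_one]
        ring
      rwa [h3] at h2
    exact (Ideal.unit_mul_mem_iff_mem I (unit_C (sub_ne_zero.2 ht.2))).1 h1
  · exact ⟨1, one_ne_zero, by simpa using h⟩

end SYMB

open SYMB in
theorem t_SYMB : S_NSP → S_FINC → S_GR → S_SYMB := by
  intro NSP FINC GR k _ _ N I φ β hI hK hβ
  obtain ⟨F1, F2⟩ := FINC k N I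
  have F2 := F2 hI
  refine ⟨fun h h' g H H' => ?_, fun h g g' H H' => ?_, fun h g g' e H H' hg hg' hv => ?_,
    fun a b c e ha hb hc Hab Hbc Hca => ?_⟩
  · unfold Bsym
    rw [← finsum_mem_add_distrib' (fin_supp (F2 h H.nl).1 g) (fin_supp (F2 h' H'.nl).1 g)]
    refine finsum_mem_congr rfl fun p hp => ?_
    rw [((F2 h H.nl).2.2 p hp).2 h' H'.nl,
      ENat.toNat_add ((F2 h H.nl).2.2 p hp).1 ((F2 h' H'.nl).2.2 p hp).1, Nat.cast_add, add_mul]
  · unfold Bsym
    rw [← finsum_mem_add_distrib' (fin_supp (F2 h H.nl).1 g) (fin_supp (F2 h H.nl).1 g')]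
    refine finsum_mem_congr rfl fun p hp => ?_
    by_cases hh : h ∈ p.asIdeal
    · obtain ⟨e, he⟩ := H.hr
      obtain ⟨e', he'⟩ := H'.hr
      rw [(hβ p hp).mul g g' e e' he he' ((F1 p hp).2.2.1 h g H hh) ((F1 p hp).2.2.1 h g' H' hh),
        mul_add]
    · simp [len_zero hh]
  · refine Bsym_congr fun p hp hh => (hβ p hp).congr g g' ?_
    refine ((NSP k N).2 p.asIdeal p.isPrime hp.1 (F1 p hp).1).1 _ e (hg.sub hg') fun y hy => ?_
    rw [map_sub, hv y (fun f hf => hy f (hp.2.1 hf)) (hy h hh), sub_self]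
  · obtain ⟨t, ht, hs⟩ := exists_scal (b := b) (c := c) Hab.nl
    have hr : ∀ h, Cop I h a → Bsym I β h (C t * a) = Bsym I β h a := fun h H =>
      Bsym_congr fun p hp hh => by
        rw [(hβ p hp).mul (C t) a 0 e (isHomogeneous_C _ t) ha
          (fun h0 => p.isPrime.ne_top (Ideal.eq_top_of_isUnit_mem _ h0 (unit_C ht)))
          ((F1 p hp).2.2.1 h a H hh), (hβ p hp).const t ht, zero_add]
    have h1 := cop_C ht Hab
    have h2 := cop_C ht Hca.symm
    have key := GR k N I φ β ![C t * a, b, c] e hI hK hβ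
      (fun j => by
        fin_cases j
        · exact ha.C_mul t
        · exact hb
        · exact hc)
      (fun i j hij => by
        fin_cases i <;> fin_cases j
        · exact absurd rfl hij
        · exact h1
        · exact h2
        · exact h1.symm
        · exact absurd rfl hij
        · exact Hbc
        · exact h2.symm
        · exact Hbc.symm
        · exact absurd rfl hij)
      (by rw [Fin.sum_univ_three]; exact hs)
    rw [Fin.sum_univ_three] at key
    change (-1) ^ 0 * (Bsym I β (C t * a) c - Bsym I β (C t * a) b) +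
      (-1) ^ 1 * (Bsym I β b c - Bsym I β b (C t * a)) +
      (-1) ^ 2 * (Bsym I β c b - Bsym I β c (C t * a)) = 0 at key
    rw [Bsym_C_left ht, Bsym_C_left ht, hr b Hab.symm, hr c Hca] at key
    linarith

end Pool.Agent.P.MP_12d50c_ag
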