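import Pool.Agent.P.MP_12d50c_ag.If3

/-!
Counting zeros of polynomials.
-/

open MvPolynomial Function
open scoped Polynomial

namespace Pool.Agent.P.MP_12d50c_ag

namespace SZP

theorem fib {V : Type} [AddCommGroup V] (π : V →+ V) (h : ∀ c, π (π c) = π c) (B : V → Prop) :
    {c | B (π c)}.ncard = {c | π c = c ∧ B c}.ncard * {c | π c = 0}.ncard := by
  rw [← Set.ncard_prod]
  refine Set.ncard_congr (fun c _ => (π c, c - π c)) (fun c hc => ⟨⟨h c, hc⟩, ?_⟩)
    (fun a b _ _ e => ?_) fun p hp => ⟨p.1 + p.2, ?_, ?_⟩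
  · simp [h]
  · have h1 : π a = π b := congrArg Prod.fst e
    have h2 : a - π a = b - π b := congrArg Prod.snd e
    rwa [h1, sub_left_inj] at h2
  · have h1 : π p.1 = p.1 := hp.1.1
    have h2 : π p.2 = 0 := hp.2
    simpa [h1, h2] using hp.1.2
  · have h1 : π p.1 = p.1 := hp.1.1
    have h2 : π p.2 = 0 := hp.2
    simp [h1, h2]

theorem sz {k : Type} [Field k] {J : Type} [Finite J] (F : Subfield k) [Finite F]
    {Φ : MvPolynomial J k} (hΦ : Φ ≠ 0) :
    {c : J → F | eval (fun j => (c j : k)) Φ = 0}.ncard * Nat.card F ≤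
      Φ.totalDegree * Nat.card (J → F) := by
  classical
  obtain ⟨n, ⟨e⟩⟩ := Finite.exists_equiv_fin J
  have := Fintype.ofFinite F
  have hS : (Finset.univ.map (Function.Embedding.subtype (· ∈ F))).card = Nat.card F := by
    rw [Finset.card_map, Finset.card_univ, Nat.card_eq_fintype_card]
  have hq : 0 < Nat.card F := Nat.card_pos
  have h := schwartz_zippel_totalDegree (p := renameEquiv k e Φ)
    ((map_ne_zero_iff _ (renameEquiv k e).injective).2 hΦ)
    (Finset.univ.map (Function.Embedding.subtype (· ∈ F)))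
  rw [hS, totalDegree_renameEquiv,
    div_le_div_iff₀ (by positivity) (by positivity)] at h
  have h2 : Nat.card (J → F) = Nat.card F ^ n := by
    rw [Nat.card_fun, Nat.card_congr e, Nat.card_fin]
  rw [h2]
  refine le_trans (Nat.mul_le_mul_right _ ?_) (by exact_mod_cast h)
  rw [← Set.ncard_coe_finset]
  refine Set.ncard_le_ncard_of_injOn (fun c i => (c (e.symm i) : k)) (fun c hc => ?_)
    (fun a _ b _ hab => funext fun j => Subtype.ext ?_) (Finset.finite_toSet _)
  · refine Finset.mem_filter.2 ⟨Fintype.mem_piFinset.2 fun i =>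
      Finset.mem_map.2 ⟨c (e.symm i), Finset.mem_univ _, rfl⟩, ?_⟩
    rw [renameEquiv_apply, eval_rename]
    simpa [Function.comp_def] using hc
  · simpa using congrFun hab (e j)

theorem deg_aeval {k : Type} [Field k] {J J' : Type} (g : J → MvPolynomial J' k)
    (hg : ∀ j, (g j).totalDegree ≤ 1) (Φ : MvPolynomial J k) :
    (aeval g Φ).totalDegree ≤ Φ.totalDegree := by
  conv_lhs => rw [Φ.as_sum, map_sum]
  refine (totalDegree_finsetSum _ _).trans (Finset.sup_le fun s hs => ?_)
  rw [aeval_monomial, algebraMap_eq]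
  refine (totalDegree_mul _ _).trans ?_
  rw [totalDegree_C, zero_add]
  refine (totalDegree_finsetProd _ _).trans (le_trans (Finset.sum_le_sum fun j _ => ?_)
    (le_totalDegree hs))
  exact (totalDegree_pow _ _).trans (mul_le_of_le_one_right' (hg j))

end SZP

theorem t_SZP : S_SZP := by
  intro k _ J _
  classical
  have := Fintype.ofFinite J
  refine ⟨fun F _ π Φ Bad hπ hΦ hB => ?_, fun π Φ => ?_, fun w₀ w₁ Φ h => ?_⟩
  · have h1 := SZP.fib π hπ Bad
    have h2 := SZP.fib π hπ fun _ => True
    simp only [Set.ofPred_true, Set.ncard_univ, and_true] at h2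
    have h3 : {c | Bad (π c)}.ncard ≤ {c : J → F | eval (fun j => (c j : k)) Φ = 0}.ncard :=
      Set.ncard_le_ncard hB (Set.toFinite _)
    have h4 := (Nat.mul_le_mul_right _ h3).trans (SZP.sz F hΦ)
    have h5 : 0 < {c | π c = 0}.ncard := (Set.ncard_pos (Set.toFinite _)).2 ⟨0, map_zero π⟩
    rw [h1, h2, mul_right_comm, ← mul_assoc] at h4
    exact Nat.le_of_mul_le_mul_right h4 h5
  · refine ⟨aeval (fun j => ∑ i, C (π (fun l => if i = l then 1 else 0) j) * X i) Φ,
      SZP.deg_aeval _ (fun j => ?_) Φ, fun w => ?_⟩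
    · refine (totalDegree_finsetSum _ _).trans (Finset.sup_le fun i _ => ?_)
      refine (totalDegree_mul _ _).trans ?_
      rw [totalDegree_C, totalDegree_X]
    · rw [← coe_aeval_eq_eval, ← coe_aeval_eq_eval]
      refine (map_aeval' (aeval w) _ Φ).trans (congrArg (aeval · Φ) (funext fun j => ?_))
      rw [LinearMap.pi_apply_eq_sum_univ π w]
      simp [mul_comm]
  · have key : ∀ t, Polynomial.eval t (aeval (fun j => Polynomial.C (w₀ j) +
        Polynomial.C (w₁ j) * Polynomial.X) Φ) = eval (w₀ + t • w₁) Φ := fun t => by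
      rw [← coe_aeval_eq_eval, ← Polynomial.coe_aeval_eq_eval]
      refine (map_aeval' (Polynomial.aeval t) _ Φ).trans
        (congrArg (aeval · Φ) (funext fun j => ?_))
      rw [map_add, map_mul, Polynomial.aeval_C, Polynomial.aeval_C, Polynomial.aeval_X, mul_comm]
      rfl
    have hd := aeval_natDegree_le Φ le_rfl (n := 1) (fun j => Polynomial.C (w₀ j) +
      Polynomial.C (w₁ j) * Polynomial.X) fun j => by
        rw [add_comm]
        exact Polynomial.natDegree_linear_le
    generalize aeval (fun j => Polynomial.C (w₀ j) + Polynomial.C (w₁ j) * Polynomial.X) Φ = g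
      at key hd
    have h0 : g ≠ 0 := fun e => h (by simpa [e] using (key 0).symm)
    have h1 : {t : k | eval (w₀ + t • w₁) Φ = 0} = g.roots.toFinset := by
      ext t
      simp [h0, key]
    rw [h1, Set.ncard_coe_finset]
    exact ⟨Finset.finite_toSet _, (Multiset.toFinset_card_le _).trans
      ((Polynomial.card_roots' g).trans (hd.trans (mul_one _).le))⟩

end Pool.Agent.P.MP_12d50c_ag
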