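import Pool.Agent.P.MP_12d50c_ag.If4

/-!
The theorem over the algebraic closure.
-/

open MvPolynomial Function

namespace Pool.Agent.P.MP_12d50c_ag

theorem t_TK : S_NSP → S_VP0 → S_CL → S_PT0 → S_G12 → S_FINC → S_AC → S_SYMB → S_EXTR → S_M3 →
    S_CORE → S_TK := by
  intro NSP VP0 CL PT0 G12 FINC AC SYMB EXTR M3 CORE k _ _ p _ _ N I hk hI φ hφ c hc h0
  classical
  have hs := hI.toIsSm
  have hβ : ∀ q : Ideal (PP k N), ∃ β, ∀ q' ∈ Cu I, q'.asIdeal = q → Beta φ q β := fun q => by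
    by_cases h : ∃ q' ∈ Cu I, q'.asIdeal = q
    · obtain ⟨q', h1, rfl⟩ := h
      obtain ⟨β, hβ⟩ := AC k p N I φ hk hs.hom hφ q' h1
      exact ⟨β, fun _ _ _ => hβ⟩
    · exact ⟨0, fun q' h1 h2 => (h ⟨q', h1, h2⟩).elim⟩
  choose β hβ using hβ
  have hb : ∀ q ∈ Cu I, Beta φ q.asIdeal (β q.asIdeal) := fun q hq => hβ _ q hq rfl
  obtain ⟨χ, hχ⟩ := CORE k p N I _ hk hI (SYMB k N I φ β hs hφ hb)
  have hz : ∀ y : NP k N, ∃ z : PrimeSpectrum (RR k N 0),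
      On I y.1 → z ∈ Cv I 0 ∧ z.asIdeal = cyl (van k y.1) 0 := fun y => by
    by_cases h : On I y.1
    · obtain ⟨z, h1, h2, -⟩ := (CL k N I).2.1 0 y h hs.hom
      exact ⟨z, fun _ => ⟨h1, h2⟩⟩
    · exact ⟨Classical.arbitrary _, fun h' => (h h').elim⟩
  choose z hz using hz
  have key : ∀ Q, ∃ Z : Set (NP k N), Z.Finite ∧ (∀ y ∈ Z, On I y.1) ∧ (Q ∈ c.support →
      ∀ S : Finset (NP k N), (∀ y ∈ S, On I y.1) → Z ⊆ S →
        φ Q.asIdeal = -∑ y ∈ S, χ y * bdA Q.asIdeal (z y)) := fun Q => by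
    by_cases hQ : Q ∈ c.support
    swap
    · exact ⟨∅, Set.finite_empty, by simp, fun h => (hQ h).elim⟩
    obtain ⟨h1, h2⟩ := hc Q hQ
    rcases (CL k N I).2.2 inferInstance Q h1 with ⟨q, hq, e⟩ | ⟨y, hy, e⟩
    · obtain ⟨G, hG, h3⟩ := (G12 k N I q hq).1 Q h1 e.symm
      obtain ⟨h4, h5⟩ := h3 h2
      obtain ⟨d, hd⟩ := hG.hom
      have g0 := ((VP0 k N 1).2.2.2.2 0).2.1 G d hd
      have g1 := ((VP0 k N 1).2.2.2.2 1).2.1 G d hd
      have fin := ((NSP k N).2 q.asIdeal q.2 hq.1 ((FINC k N I).1 q hq).1).2.2.2.2 hq.2.2.le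
      refine ⟨_, (fin _ d g0 h4).union (fin _ d g1 h5), ?_, fun _ S hS hZ => ?_⟩
      · rintro y (h | h) f hf <;> exact h.1 f (hq.2.1 hf)
      rw [(hb q hq).val Q G hG h4 h5, EXTR k N I φ β χ hs hb hχ q hq _ _ d S g0 g1 h4 h5
        fun y hy h => hZ (h.imp (fun h => ⟨hy, h⟩) fun h => ⟨hy, h⟩), ← Finset.sum_neg_distrib]
      refine Finset.sum_congr rfl fun y hy => ?_
      rw [M3 k N I Q G y (z y) q hq hG h4 h5 (hz y (hS y hy)).2]
      push_cast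
      ring
    · refine ⟨∅, Set.finite_empty, by simp, fun _ S _ _ => ?_⟩
      rw [e, PT0 k N I φ y hs.hom hφ hy, Finset.sum_eq_zero, neg_zero]
      intro y' _
      rw [bdA, Fin.sum_univ_two, ((VP0 k N 1).1 0 _).1, ((VP0 k N 1).1 0 _).1]
      simp
  choose Z hZ hZ' key using key
  have fin : (⋃ Q ∈ c.support, Z Q).Finite := c.support.finite_toSet.biUnion fun Q _ => hZ Q
  have hS : ∀ y ∈ fin.toFinset, On I y.1 := fun y hy => by
    obtain ⟨Q, -, h⟩ := Set.mem_iUnion₂.1 (fin.mem_toFinset.1 hy)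
    exact hZ' Q y h
  rw [Finsupp.sum, Finset.sum_congr rfl fun Q hQ => by
    rw [key Q hQ _ hS fun y hy => fin.mem_toFinset.2 (Set.mem_biUnion hQ hy), mul_neg,
      Finset.mul_sum], Finset.sum_neg_distrib, Finset.sum_comm, neg_eq_zero]
  refine Finset.sum_eq_zero fun y hy => ?_
  have h1 := h0 (z y) (hz y (hS y hy)).1
  rw [Finsupp.sum] at h1
  rw [Finset.sum_congr rfl fun Q _ => mul_left_comm _ _ _, ← Finset.mul_sum, h1, mul_zero]

end Pool.Agent.P.MP_12d50c_ag
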