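import Pool.Agent.P.MP_12d50c_ag.If5

/-!
Duality: from functionals that kill boundaries to the rank of the higher Chow group.
-/

open CategoryTheory AlgebraicGeometry MvPolynomial Order
open scoped TensorProduct

namespace Pool.Agent.P.MP_12d50c_ag

namespace TOP

theorem dims {a : ℕ∞} {D : WithBot ℕ∞} {n : ℕ} (h : (a : WithBot ℕ∞) + D = (3 + n : ℕ)) :
    (a = (2 : ℕ) ↔ D = (n + 1 : ℕ)) ∧ (((2 : ℕ) : ℕ∞) ≤ a ↔ D ≤ (n + 1 : ℕ)) := by
  induction D using WithBot.recBotCoe with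
  | bot => exact absurd h.symm (by rw [WithBot.add_bot]; exact WithBot.coe_ne_bot)
  | coe b =>
    have h1 : a + b = (3 + n : ℕ) := WithBot.coe_injective h
    have h2 : a + b ≠ ⊤ := h1 ▸ ENat.natCast_ne_top _
    lift a to ℕ using (WithTop.add_ne_top.1 h2).1
    lift b to ℕ using (WithTop.add_ne_top.1 h2).2
    have h3 : a + b = 3 + n := by exact_mod_cast h1
    have e1 : (((b : ℕ∞) : WithBot ℕ∞) = (n + 1 : ℕ)) ↔ b = n + 1 :=
      (WithBot.coe_inj (b := ((n + 1 : ℕ) : ℕ∞))).trans ENat.natCast_inj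
    have e2 : (((b : ℕ∞) : WithBot ℕ∞) ≤ (n + 1 : ℕ)) ↔ b ≤ n + 1 :=
      (WithBot.coe_le_coe (b := ((n + 1 : ℕ) : ℕ∞))).trans ENat.natCast_le_natCast
    rw [e1, e2, ENat.natCast_inj, ENat.natCast_le_natCast]
    omega

theorem rank_zero {A : Type} [AddCommGroup A] (C B : AddSubgroup A)
    (h : ∀ ψ : A →+ ℚ, (∀ b ∈ B, ψ b = 0) → ∀ c ∈ C, ψ c = 0) :
    Module.rank ℚ (ℚ ⊗[ℤ] (C ⧸ B.addSubgroupOf C)) = 0 := by
  have tor : ∀ c ∈ C, ∃ n : ℤ, n ≠ 0 ∧ n • c ∈ B := fun c hc => by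
    by_contra hn
    have hi : Function.Injective (zmultiplesHom (A ⧸ B) (c : A ⧸ B)) := by
      rw [injective_iff_map_eq_zero]
      intro n e
      by_contra h0
      exact hn ⟨n, h0, (QuotientAddGroup.eq_zero_iff _).1 e⟩
    obtain ⟨g, hg⟩ := (Module.Baer.of_divisible ℚ).extension_property_addMonoidHom _ hi
      (Int.castAddHom ℚ)
    have h1 := h (g.comp (QuotientAddGroup.mk' B)) (fun b hb => by
      rw [AddMonoidHom.comp_apply, QuotientAddGroup.mk'_apply,
        (QuotientAddGroup.eq_zero_iff b).2 hb, map_zero]) c hc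
    have h2 := DFunLike.congr_fun hg 1
    simp only [AddMonoidHom.comp_apply, zmultiplesHom_apply, one_smul, Int.coe_castAddHom,
      Int.cast_one] at h2
    exact one_ne_zero (h2.symm.trans h1)
  have : Subsingleton (ℚ ⊗[ℤ] (C ⧸ B.addSubgroupOf C)) := by
    refine subsingleton_of_forall_eq 0 fun x => ?_
    induction x using TensorProduct.induction_on with
    | zero => rfl
    | add x y hx hy => rw [hx, hy, add_zero]
    | tmul q x =>
      obtain ⟨c, rfl⟩ := QuotientAddGroup.mk_surjective x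
      obtain ⟨n, h0, hn⟩ := tor c c.2
      have h1 : n • (c : C ⧸ B.addSubgroupOf C) = 0 :=
        (QuotientAddGroup.eq_zero_iff (n • c)).2 hn
      have h2 : q = n • (q / n) := by
        rw [zsmul_eq_mul, mul_div_cancel₀ _ (Int.cast_ne_zero.2 h0)]
      rw [h2, TensorProduct.smul_tmul, h1, TensorProduct.tmul_zero]
  exact rank_subsingleton' _ _

theorem map_eq {α : Type} (ψ : (α →₀ ℤ) →+ ℚ) (c : α →₀ ℤ) :
    ψ c = c.sum fun a r => (r : ℚ) * ψ (Finsupp.single a 1) := by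
  conv_lhs => rw [← c.sum_single]
  rw [map_finsuppSum]
  refine Finsupp.sum_congr fun a _ => ?_
  rw [← zsmul_eq_mul, ← map_zsmul, Finsupp.smul_single_one]

variable {F : Type} [Field F] {Y : Scheme.{0}} {N : ℕ} {I : Ideal (PP F N)}
  {pt : ∀ n, XD Y n → PrimeSpectrum (RR F N n)}

theorem inj (h : Bridge Y I pt) (n : ℕ) : Function.Injective fun y => (pt n y).asIdeal :=
  fun _ _ e => Pool.Agent.P.MP_638e8a_ag.Cyc.eq_of_le_of_le ((h.le n _ _).2 e.ge)
    ((h.le n _ _).2 e.le)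

theorem cv (h : Bridge Y I pt) {n : ℕ} {z : XD Y n} : pt n z ∈ Cv I n ↔ coheight z = (2 : ℕ) :=
  (and_iff_right (h.adm n z)).trans (dims (h.dim n z)).1.symm

theorem ex (h : Bridge Y I pt) {n : ℕ} {Q : PrimeSpectrum (RR F N n)} (hQ : Q ∈ Cv I n) :
    ∃ z, pt n z = Q :=
  let ⟨z, e⟩ := h.surj n _ hQ.1
  ⟨z, PrimeSpectrum.ext e⟩

theorem adm (h : Bridge Y I pt) {n : ℕ} {w : XD Y n} :
    Admissible Y 2 n w ↔ pt n w ∈ Cv I n ∧ Prp I (pt n w).asIdeal := by
  refine and_congr (cv h).symm (forall₂_congr fun m g => ⟨fun a Q hQ hl => ?_, fun a z hz => ?_⟩)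
  · obtain ⟨z, rfl⟩ := h.surj m Q hQ
    refine (dims (h.dim m z)).2.1 (a z ((h.le n _ _).2 ?_))
    rw [h.face]
    exact Ideal.map_le_iff_le_comap.1 hl
  · refine (dims (h.dim m z)).2.2 (a _ (h.adm m z) (Ideal.map_le_iff_le_comap.2 ?_))
    rw [← h.face]
    exact (h.le n _ _).1 hz

open Classical in
theorem bd_eq (h : Bridge Y I pt) {n : ℕ} (c : XD Y (n + 1) →₀ ℤ) (z : XD Y n) :
    bd Y 2 n c z = if coheight z = (2 : ℕ) then
      c.sum fun w r => r * bdA (pt (n + 1) w).asIdeal (pt n z) else 0 := by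
  rw [bd, Finsupp.linearCombination_apply, Finsupp.sum, Finset.sum_apply, Finsupp.sum]
  simp only [Pi.smul_apply, smul_eq_mul, h.mult, bdA]
  split_ifs
  · rfl
  · simp

end TOP

open TOP in
theorem t_TOP : S_FINB → S_TOP := by
  intro hF F _ Y N I pt h hT
  refine rank_zero _ _ fun ψ hψ c hc => ?_
  obtain ⟨φ, hφ⟩ : ∃ φ : Ideal (RR F N 1) → ℚ,
      ∀ y, φ (pt 1 y).asIdeal = ψ (Finsupp.single y 1) :=
    ⟨Function.extend _ (fun y => ψ (Finsupp.single y 1)) 0, fun y => (inj h 1).extend_apply _ _ y⟩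
  have hK : Kills I φ := fun W hW hP => by
    obtain ⟨w, rfl⟩ := ex h hW
    have e : ∀ z, bd Y 2 1 (Finsupp.single w 1) z ≠ 0 → coheight z = (2 : ℕ) := fun z hz => by
      by_contra a
      exact hz (by rw [bd_eq h, if_neg a])
    have e' : ∀ z, coheight z = (2 : ℕ) →
        bd Y 2 1 (Finsupp.single w 1) z = bdA (pt 2 w).asIdeal (pt 1 z) := fun z hz => by
      rw [bd_eq h, if_pos hz, Finsupp.sum_single_index (zero_mul _), one_mul]
    have hf : (Function.support (bd Y 2 1 (Finsupp.single w 1))).Finite :=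
      ((hF F N 1 I _ hW hP).2.preimage
        (Function.Injective.of_comp (f := PrimeSpectrum.asIdeal) (inj h 1)).injOn).subset
        fun z hz => ⟨(cv h).2 (e z hz), e' z (e z hz) ▸ hz⟩
    have hb : Finsupp.ofSupportFinite _ hf ∈ boundaries Y 2 1 :=
      ⟨Finsupp.single w 1, Finsupp.single_mem_supported ℤ 1 ((adm h).2 ⟨hW, hP⟩), rfl⟩
    rw [← hψ _ hb, map_eq, Finsupp.sum, ← finsum_mem_eq_sum_of_inter_support_eq
      (s := {z | coheight z = (2 : ℕ)})]
    · refine (finsum_mem_eq_of_bijOn (pt 1) ⟨fun z hz => (cv h).2 hz,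
        (Function.Injective.of_comp (f := PrimeSpectrum.asIdeal) (inj h 1)).injOn,
        fun Q hQ => ?_⟩ fun z hz => ?_).symm
      · obtain ⟨z, rfl⟩ := ex h hQ
        exact ⟨z, (cv h).1 hQ, rfl⟩
      · rw [hφ, mul_comm, ← e' z hz]
        rfl
    · ext z
      refine and_congr_left fun hz => ?_
      have h1 : Finsupp.ofSupportFinite _ hf z ≠ 0 := fun a => hz (by simp only [a]; simp)
      exact iff_of_true (e z h1) (Finsupp.mem_support_iff.2 h1)
  have hs : ∀ g : PrimeSpectrum (RR F N 1) → ℚ,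
      ((c.mapRange (Int.cast : ℤ → ℚ) Int.cast_zero).mapDomain (pt 1)).sum (fun Q r => r * g Q) =
        c.sum fun w r => (r : ℚ) * g (pt 1 w) := fun g => by
    rw [Finsupp.sum_mapDomain_index (fun _ => zero_mul _) fun _ _ _ => add_mul _ _ _,
      Finsupp.sum_mapRange_index fun _ => zero_mul _]
  have := hT φ hK ((c.mapRange (Int.cast : ℤ → ℚ) Int.cast_zero).mapDomain (pt 1))
    (fun Q hQ => ?_) fun z hz => ?_
  · rw [hs fun Q => φ Q.asIdeal] at this
    rw [map_eq, ← this]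
    simp only [hφ]
  · classical
    obtain ⟨w, hw, rfl⟩ := Finset.mem_image.1 (Finsupp.mapDomain_support hQ)
    exact (adm h).1 (hc.1 (Finsupp.support_mapRange hw))
  · obtain ⟨y, rfl⟩ := ex h hz
    have h1 : bd Y 2 0 c y = 0 := congrFun hc.2 y
    rw [bd_eq h, if_pos ((cv h).1 hz)] at h1
    rw [hs fun Q => (bdA Q.asIdeal (pt 0 y) : ℚ)]
    have h2 := congrArg (Int.cast : ℤ → ℚ) h1
    simpa [Finsupp.sum] using h2

end Pool.Agent.P.MP_12d50c_ag
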