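import Pool.Agent.P.MP_12d50c_ag.If1

/-!
Counting transcendence degrees.
-/

open MvPolynomial Cardinal AlgebraicIndependent

namespace Pool.Agent.P.MP_12d50c_ag

namespace TR

variable {k Ω : Type} [Field k] [Field Ω] [Algebra k Ω]

theorem trdeg_eq (K : IntermediateField k Ω) :
    Algebra.trdeg k K = (matroid k Ω).cRk (K : Set Ω) := by
  apply le_antisymm
  · obtain ⟨s, hs⟩ := exists_isTranscendenceBasis k K
    have h1 := hs.1.map' (f := K.val) Subtype.val_injective
    rw [← hs.cardinalMk_eq_trdeg, ← mk_range_eq _ h1.injective]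
    refine (matroid_indep_iff.2 h1.to_subtype_range).cardinalMk_le_cRk_of_subset ?_
    rintro _ ⟨x, rfl⟩
    exact x.1.2
  · refine Matroid.cRk_le_iff.2 fun I hI => ?_
    have h1 : AlgebraicIndependent k fun x : I => (⟨x.1, hI.subset x.2⟩ : K) :=
      AlgebraicIndependent.of_comp K.val (matroid_indep_iff.1 hI.indep)
    exact h1.cardinalMk_le_trdeg

theorem cRk_adjoin (S : Set Ω) :
    (matroid k Ω).cRk (IntermediateField.adjoin k S : Set Ω) ≤ (matroid k Ω).cRk S := by
  rw [← Matroid.cRk_closure _ S]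
  refine Matroid.cRk_le_of_subset _ fun x hx => ?_
  rw [matroid_closure_eq]
  exact IntermediateField.isAlgebraic_adjoin_iff.1
    (isAlgebraic_algebraMap (⟨x, hx⟩ : IntermediateField.adjoin k S))

theorem cRk_union (S T : Set Ω) :
    (matroid k Ω).cRk (S ∪ T) ≤ (matroid k Ω).cRk S + (matroid k Ω).cRk T :=
  le_add_self.trans (Matroid.cRk_inter_add_cRk_union_le _ S T)

theorem one (K : IntermediateField k Ω) (ρ : ℕ) (J ι : Type) [Fintype J] [Fintype ι] (w : J → Ω)
    (M : ι → J → K) (h1 : Algebra.trdeg k K ≤ ρ) (h2 : AlgebraicIndependent k w)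
    (h3 : ∀ b : ι → K, ∃ c : J → K, ∀ i, ∑ j, M i j * c j = b i)
    (h4 : ∀ i, ∑ j, (M i j : Ω) * w j = 0) : Fintype.card ι ≤ ρ := by
  classical
  let φ : (J → K) →ₗ[K] Ω := Fintype.linearCombination K w
  have hM : ∀ i, M i ∈ LinearMap.ker φ := fun i => h4 i
  have h5 : LinearIndependent K fun i => (⟨M i, hM i⟩ : LinearMap.ker φ) := by
    refine LinearIndependent.of_comp (LinearMap.ker φ).subtype ?_
    rw [Fintype.linearIndependent_iff]
    intro a ha i
    obtain ⟨c, hc⟩ := h3 (Pi.single i 1)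
    have h6 : ∀ j, ∑ i, a i * M i j = 0 := fun j => by simpa using congrFun ha j
    have h7 : ∑ i', a i' * (Pi.single i 1 : ι → K) i' = 0 := by
      simp only [← hc, Finset.mul_sum, ← mul_assoc]
      rw [Finset.sum_comm]
      simp only [← Finset.sum_mul, h6, zero_mul, Finset.sum_const_zero]
    simpa [Pi.single_apply] using h7
  have h6 := h5.fintype_card_le_finrank
  have h7 := φ.finrank_range_add_finrank_ker
  rw [Module.finrank_fintype_fun_eq_card] at h7
  let b := Module.finBasis K (LinearMap.range φ)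
  have h8 : Set.range w ⊆
      IntermediateField.adjoin k ((K : Set Ω) ∪ Set.range fun t => (b t : Ω)) := by
    rintro _ ⟨j, rfl⟩
    have h9 := congrArg Subtype.val (b.sum_repr ⟨w j, Pi.single j 1, by simp [φ]⟩)
    rw [Submodule.coe_sum] at h9
    rw [SetLike.mem_coe, ← show _ = w j from h9]
    exact sum_mem fun t _ => mul_mem
      (IntermediateField.subset_adjoin k _ (Or.inl (SetLike.coe_mem _)))
      (IntermediateField.subset_adjoin k _ (Or.inr ⟨t, rfl⟩))
  have h9 := ((matroid_indep_iff.2 h2.to_subtype_range).cardinalMk_le_cRk_of_subset h8).trans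
    ((cRk_adjoin _).trans ((cRk_union _ _).trans (add_le_add ((trdeg_eq K).symm.trans_le h1)
      ((Matroid.cRk_le_cardinalMk _ _).trans mk_range_le))))
  rw [mk_range_eq _ h2.injective, mk_fintype, mk_fin] at h9
  have h10 : Fintype.card J ≤ ρ + Module.finrank K (LinearMap.range φ) := by exact_mod_cast h9
  omega

end TR

open TR in
theorem t_TR : S_DM → S_TR := by
  intro hDM
  refine ⟨fun k Ω _ _ _ => one, fun k Ω _ _ _ K K' => ?_, fun k Ω _ _ _ N d I y i hI h1 h2 h3 => ?_⟩
  · rw [trdeg_eq, trdeg_eq, trdeg_eq, IntermediateField.sup_def]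
    exact (cRk_adjoin _).trans (cRk_union _ _)
  · obtain ⟨n, h4, h5⟩ := hDM k _ 1 _ _ i (gen_adjoin (k := k) (ξ := y) rfl h3) rfl
      (fun h => one_ne_zero (h3.symm.trans (congrArg Subtype.val h)))
    rw [← vanw_map (IntermediateField.adjoin k (Set.range y)).val Subtype.val_injective] at h5
    have h6 := h5.symm.trans_le ((ringKrullDim_le_of_surjective _
      (Ideal.Quotient.factor_surjective (hI.on_iff.1 h2))).trans h1)
    have h7 : n + 1 ≤ d + 1 := by exact_mod_cast h6
    rw [h4]
    exact_mod_cast Nat.le_of_succ_le_succ h7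

end Pool.Agent.P.MP_12d50c_ag
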