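import Pool.Agent.P.MP_12d50c_ag.If1

/-!
Uniform genericity through Chevalley's theorem.
-/

open MvPolynomial

namespace Pool.Agent.P.MP_12d50c_ag

namespace UG

variable {k : Type} [Field k] {P J U : Type}

theorem deg_aeval {σ τ : Type} (x : σ → MvPolynomial τ k) (hx : ∀ i, (x i).totalDegree ≤ 1)
    (g : MvPolynomial σ k) : (aeval x g).totalDegree ≤ g.totalDegree := by
  conv_lhs => rw [g.as_sum, map_sum]
  refine totalDegree_finsetSum_le fun s hs => ?_
  rw [aeval_monomial]
  refine (totalDegree_mul _ _).trans ?_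
  rw [algebraMap_eq, totalDegree_C, zero_add]
  refine (totalDegree_finsetProd _ _).trans (le_trans ?_ (le_totalDegree hs))
  refine Finset.sum_le_sum fun i _ => (totalDegree_pow _ _).trans ?_
  exact (Nat.mul_le_mul_left _ (hx i)).trans (mul_one _).le

/-- Substitution of the parameters. -/
noncomputable def ev (J : Type) (τ : P → k) : MvPolynomial (P ⊕ J) k →ₐ[k] MvPolynomial J k :=
  aeval (Sum.elim (fun p => C (τ p)) X)

theorem deg_ev (τ : P → k) (g : MvPolynomial (P ⊕ J) k) :
    (ev J τ g).totalDegree ≤ g.totalDegree := by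
  refine deg_aeval _ (fun i => ?_) g
  rcases i with p | j
  · simp
  · simp

theorem ev_rename (τ : P → k) (F : MvPolynomial J k) : ev J τ (rename Sum.inr F) = F := by
  rw [ev, aeval_rename, Sum.elim_comp_inr, aeval_X_left_apply]

/-- The inclusion of polynomial rings. -/
noncomputable def inc (k : Type) [Field k] (P J U : Type) :
    MvPolynomial (P ⊕ J) k →ₐ[k] MvPolynomial (P ⊕ J ⊕ U) k :=
  rename (Sum.map id Sum.inl)

theorem aeval_inc (τ : P → k) (w : J → k) (u : U → k) (g : MvPolynomial (P ⊕ J) k) :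
    aeval (Sum.elim τ (Sum.elim w u)) (inc k P J U g) = eval w (ev J τ g) := by
  have h : (aeval (Sum.elim τ (Sum.elim w u))).comp (inc k P J U) =
      (aeval w : MvPolynomial J k →ₐ[k] k).comp (ev J τ) := by
    refine algHom_ext fun i => ?_
    rcases i with p | j
    · simp [inc, ev]
    · simp [inc, ev]
  exact DFunLike.congr_fun h g

theorem fp [Finite P] [Finite J] [Finite U] :
    (inc k P J U).toRingHom.FinitePresentation := by
  refine RingHom.FinitePresentation.of_finiteType.1 ?_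
  refine RingHom.FiniteType.of_comp_finiteType (f := algebraMap k _) ?_
  have h : (inc k P J U).toRingHom.comp (algebraMap k _) = algebraMap k _ :=
    (inc k P J U).comp_algebraMap
  rw [h, RingHom.finiteType_algebraMap]
  infer_instance

theorem generic (τ : P → k) (q : PrimeSpectrum (MvPolynomial (P ⊕ J ⊕ U) k))
    (hq : q.asIdeal.comap (inc k P J U).toRingHom = RingHom.ker (ev J τ)) :
    ∃ (Ω : Type) (_ : Field Ω) (_ : Algebra k Ω) (w : J → Ω) (u : U → Ω),
      AlgebraicIndependent k w ∧ ∀ f ∈ q.asIdeal,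
        aeval (Sum.elim (fun p => algebraMap k Ω (τ p)) (Sum.elim w u)) f = 0 := by
  let ψ : MvPolynomial (P ⊕ J ⊕ U) k →ₐ[k] q.asIdeal.ResidueField :=
    IsScalarTower.toAlgHom k _ _
  have hψ : ∀ f, ψ f = 0 ↔ f ∈ q.asIdeal := fun f => Ideal.algebraMap_residueField_eq_zero
  have hk : ∀ g, ψ (inc k P J U g) = 0 ↔ ev J τ g = 0 := by
    intro g
    rw [hψ, ← RingHom.mem_ker, ← hq]
    rfl
  refine ⟨q.asIdeal.ResidueField, inferInstance, inferInstance,
    fun j => ψ (X (Sum.inr (Sum.inl j))), fun u => ψ (X (Sum.inr (Sum.inr u))), ?_, ?_⟩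
  · rw [algebraicIndependent_iff]
    intro F hF
    have h : (aeval fun j => ψ (X (Sum.inr (Sum.inl j)))) =
        (ψ.comp (inc k P J U)).comp (rename Sum.inr) := by
      refine algHom_ext fun j => ?_
      simp [inc]
    rw [h] at hF
    rw [← ev_rename τ F]
    exact (hk _).1 hF
  · intro f hf
    have h : aeval (Sum.elim (fun p => algebraMap k q.asIdeal.ResidueField (τ p))
        (Sum.elim (fun j => ψ (X (Sum.inr (Sum.inl j)))) fun u => ψ (X (Sum.inr (Sum.inr u))))) =
        ψ := by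
      refine algHom_ext fun i => ?_
      rcases i with p | j | u
      · have h1 := (hk (X (Sum.inl p) - C (τ p))).2 (by simp [ev])
        rw [map_sub, map_sub, sub_eq_zero, ← algebraMap_eq, AlgHom.commutes,
          AlgHom.commutes] at h1
        rw [aeval_X, Sum.elim_inl, ← h1]
        simp [inc]
      · simp
      · simp
    rw [h]
    exact (hψ f).2 hf

end UG

open UG PrimeSpectrum in
theorem t_UG : S_UG := by
  intro k _ P J U _ _ _ S
  classical
  have hc : Topology.IsConstructible (PrimeSpectrum.zeroLocus S) := by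
    rw [← PrimeSpectrum.zeroLocus_span, ← Topology.isConstructible_compl]
    exact (isRetrocompact_zeroLocus_compl_of_fg
      (IsNoetherian.noetherian _)).isConstructible (isClosed_zeroLocus _).isOpen_compl
  obtain ⟨T, hT⟩ := exists_constructibleSetData_iff.2 (isConstructible_comap_image fp hc)
  refine ⟨∑ c ∈ T, ∑ i, (c.g i).totalDegree, fun τ hτ => ?_⟩
  let η : PrimeSpectrum (MvPolynomial (P ⊕ J) k) := ⟨RingHom.ker (ev J τ), RingHom.ker_isPrime _⟩
  have hη : η ∉ T.toSet := by
    rw [hT]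
    rintro ⟨q, hq, hq'⟩
    obtain ⟨Ω, _, _, w, u, h1, h2⟩ := generic τ q (congrArg PrimeSpectrum.asIdeal hq')
    exact hτ Ω w u h1 fun f hf => h2 f (hq hf)
  have key : ∀ c ∈ T, ∃ h : MvPolynomial J k, h ≠ 0 ∧ h.totalDegree ≤ ∑ i, (c.g i).totalDegree ∧
      ∀ w : J → k, (∀ i, eval w (ev J τ (c.g i)) = 0) → eval w (ev J τ c.f) ≠ 0 →
        eval w h = 0 := by
    intro c hc
    by_cases h0 : ev J τ c.f = 0
    · exact ⟨1, one_ne_zero, by simp, fun w _ h => (h (by rw [h0, map_zero])).elim⟩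
    · have h1 : ∃ i, ev J τ (c.g i) ≠ 0 := by
        by_contra hn
        push Not at hn
        refine hη (Set.mem_biUnion hc ⟨?_, fun h => h0 (h (Set.mem_singleton _))⟩)
        rintro _ ⟨i, rfl⟩
        exact hn i
      obtain ⟨i, hi⟩ := h1
      exact ⟨_, hi, (deg_ev τ _).trans (Finset.single_le_sum
        (f := fun i => (c.g i).totalDegree) (fun _ _ => Nat.zero_le _) (Finset.mem_univ i)),
        fun w h _ => h i⟩
  choose! h h1 h2 h3 using key
  refine ⟨∏ c ∈ T, h c, Finset.prod_ne_zero_iff.2 h1,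
    (totalDegree_finsetProd _ _).trans (Finset.sum_le_sum h2), fun w u hw => ?_⟩
  let q : PrimeSpectrum (MvPolynomial (P ⊕ J ⊕ U) k) :=
    ⟨RingHom.ker (aeval (Sum.elim τ (Sum.elim w u)) : _ →ₐ[k] k), RingHom.ker_isPrime _⟩
  have hq : comap (inc k P J U).toRingHom q ∈ T.toSet := by
    rw [hT]
    exact ⟨q, fun f hf => hw f hf, rfl⟩
  have hm : ∀ g, g ∈ (comap (inc k P J U).toRingHom q).asIdeal ↔ eval w (ev J τ g) = 0 := by
    intro g
    rw [← aeval_inc τ w u]
    rfl
  obtain ⟨c, hc, hc1, hc2⟩ := Set.mem_iUnion₂.1 hq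
  rw [map_prod]
  refine Finset.prod_eq_zero hc (h3 c hc w (fun i => (hm _).1 (hc1 ⟨i, rfl⟩)) fun h0 => hc2 ?_)
  rintro _ rfl
  exact (hm _).2 h0

end Pool.Agent.P.MP_12d50c_ag
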