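import Pool.Agent.P.MP_12d50c_ag.If3

/-!
Uniform genericity, functorial form.
-/

open MvPolynomial Function

namespace Pool.Agent.P.MP_12d50c_ag

theorem t_UG2 : S_UG → S_UG2 := by
  intro h k _ P J U ι _ _ _ e he
  have key : ∀ (T : Type) [CommRing T] [Algebra k T] (τ : P → T) (w : J → T) (u : U → T),
      (∀ f ∈ Set.range (e (MvPolynomial (P ⊕ J ⊕ U) k) (X ∘ Sum.inl) (X ∘ Sum.inr ∘ Sum.inl)
        (X ∘ Sum.inr ∘ Sum.inr)), aeval (Sum.elim τ (Sum.elim w u)) f = 0) ↔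
      ∀ i, e T τ w u i = 0 := by
    intro T _ _ τ w u
    rw [Set.forall_mem_range]
    refine forall_congr' fun i => ?_
    rw [he]
    have h1 : (aeval (Sum.elim τ (Sum.elim w u)) : MvPolynomial (P ⊕ J ⊕ U) k →ₐ[k] T) ∘
        X ∘ Sum.inl = τ := funext fun _ => by simp
    have h2 : (aeval (Sum.elim τ (Sum.elim w u)) : MvPolynomial (P ⊕ J ⊕ U) k →ₐ[k] T) ∘
        X ∘ Sum.inr ∘ Sum.inl = w := funext fun _ => by simp
    have h3 : (aeval (Sum.elim τ (Sum.elim w u)) : MvPolynomial (P ⊕ J ⊕ U) k →ₐ[k] T) ∘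
        X ∘ Sum.inr ∘ Sum.inr = u := funext fun _ => by simp
    rw [h1, h2, h3]
  obtain ⟨D, hD⟩ := h k P J U (Set.range (e (MvPolynomial (P ⊕ J ⊕ U) k) (X ∘ Sum.inl)
    (X ∘ Sum.inr ∘ Sum.inl) (X ∘ Sum.inr ∘ Sum.inr)))
  refine ⟨D, fun τ hτ => ?_⟩
  obtain ⟨Φ, h0, h1, h2⟩ := hD τ fun Ω _ _ w u hw h3 => hτ Ω w u hw ((key Ω _ w u).1 h3)
  exact ⟨Φ, h0, h1, fun w u h3 => h2 w u ((key k τ w u).2 h3)⟩

end Pool.Agent.P.MP_12d50c_ag
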