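import Pool.Agent.P.MP_12d50c_ag.If3

/-! Values and orders of quotients of forms. -/

open MvPolynomial WithZero Function
open Pool.Agent.P.MP_6f117a_ag (Place FF)

namespace Pool.Agent.P.MP_12d50c_ag

theorem t_VAL : S_CURVE → S_VAL := by
  intro hC k _ _ N Q E _ _ ξ pl y g h e hQ hD hg hh
  have key : ∀ g : PP k N, g.IsHomogeneous e → g ∉ Q → h ∉ Q → (pl y).v (aeval ξ g / aeval ξ h) =
      exp (((ordI Q y.1 h).toNat : ℤ) - (ordI Q y.1 g).toNat) := fun g hg h1 h2 => by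
    rw [← div_div_div_cancel_right₀ (pow_ne_zero e (hD.ne y)), map_div₀, (hD.val y g e hg h1).2,
      (hD.val y h e hh h2).2, ← exp_sub]
    congr 1
    ring
  refine ⟨fun h0 => ?_, key g hg⟩
  have h1 : h ∉ Q := fun hm => h0 (y.2 h hm)
  have h2 : aeval ξ h ≠ 0 := fun hm => h1 (hD.van_eq ▸ (mem_van_of_hom hh).2 hm)
  obtain ⟨c, hc⟩ : ∃ c, c = aeval y.1.1 g / aeval y.1.1 h := ⟨_, rfl⟩
  have hg' : (g - C c * h).IsHomogeneous e := hg.sub (hh.C_mul c)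
  have e1 : aeval ξ g / aeval ξ h - algebraMap k E c = aeval ξ (g - C c * h) / aeval ξ h := by
    rw [map_sub, map_mul, aeval_C, sub_div, mul_div_cancel_right₀ _ h2]
  rw [← hc, e1]
  by_cases h3 : g - C c * h ∈ Q
  · rw [(mem_van_of_hom hg').1 (hD.van_eq ▸ h3), zero_div, map_zero]
    exact zero_lt_one
  have h4 := (hC k N Q hQ).2.1
  have h5 : ordI Q y.1 (g - C c * h) ≠ 0 := fun h6 => (h4 _ e y.1 hg').1 h6 ⟨y.2, by
    rw [map_sub, map_mul, aeval_C, hc]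
    exact sub_eq_zero.2 (div_mul_cancel₀ _ h0).symm⟩
  have h6 : (ordI Q y.1 (g - C c * h)).toNat ≠ 0 := fun h7 =>
    (ENat.toNat_eq_zero.1 h7).elim h5 (hD.val y _ e hg' h3).1
  rw [key _ hg' h3 h1, (h4 h e y.1 hh).2 fun h7 => h0 h7.2, ← exp_zero, exp_lt_exp]
  simp only [ENat.toNat_zero]
  omega

end Pool.Agent.P.MP_12d50c_ag
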