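import Pool.Agent.P.MP_12d50c_ag.If4

/-!
Products with a simplex.
-/

open MvPolynomial Function

namespace Pool.Agent.P.MP_12d50c_ag

namespace VP

variable {k : Type} [Field k] {N n : ℕ}

/-- Elimination of the first simplex coordinate. -/
noncomputable def el (k : Type) [Field k] (N n : ℕ) :
    RR k N n →ₐ[k] MvPolynomial (Fin n) (PP k N) :=
  aeval (Sum.elim (fun i => C (X i)) (Fin.cons (1 - ∑ j, X j) X))

/-- A section of the elimination. -/
noncomputable def se (k : Type) [Field k] (N n : ℕ) :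
    MvPolynomial (Fin n) (PP k N) →+* RR k N n :=
  eval₂Hom (inc n : PP k N →ₐ[k] RR k N n) fun j => X (Sum.inr j.succ)

theorem el_inc (f : PP k N) : el k N n (inc n f) = C f := by
  have h : (el k N n).comp (inc n) = IsScalarTower.toAlgHom k (PP k N) _ := by
    ext i : 1
    simp [el]
  exact DFunLike.congr_fun h f

theorem el_se (g : MvPolynomial (Fin n) (PP k N)) : el k N n (se k N n g) = g := by
  induction g using MvPolynomial.induction_on with
  | C c => simpa [se] using el_inc c
  | add f g hf hg => rw [map_add, map_add, hf, hg]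
  | mul_X f i hf =>
    rw [map_mul, map_mul, hf]
    simp [se, el]

theorem sub_se (f : RR k N n) :
    f - se k N n (el k N n f) ∈ Ideal.span {(∑ j, X (Sum.inr j) - 1 : RR k N n)} := by
  induction f using MvPolynomial.induction_on with
  | C c =>
    have h : (C c : RR k N n) = inc n (C c) := by simp
    rw [h, el_inc]
    simp [se]
  | add f g hf hg =>
    rw [map_add, map_add, add_sub_add_comm]
    exact add_mem hf hg
  | mul_X f i hf =>
    have h : (X i : RR k N n) - se k N n (el k N n (X i)) ∈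
        Ideal.span {(∑ j, X (Sum.inr j) - 1 : RR k N n)} := by
      rcases i with i | j
      · simp [se, el]
      · refine Fin.cases ?_ (fun j => by simp [se, el]) j
        refine Ideal.subset_span ?_
        simp only [se, el, aeval_X, Sum.elim_inr, Fin.cons_zero, map_sub, map_one, map_sum,
          coe_eval₂Hom, eval₂_X, Fin.sum_univ_succ, Set.mem_singleton_iff]
        ring
    rw [map_mul, map_mul]
    have h2 := add_mem (Ideal.mul_mem_right (X i) _ hf) (Ideal.mul_mem_left _ (se k N n (el k N n f)) h)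
    convert h2 using 1
    ring

theorem mem_cyl {p : Ideal (PP k N)} {f : RR k N n} :
    f ∈ cyl p n ↔ ∀ m, coeff m (el k N n f) ∈ p := by
  constructor
  · intro hf
    have h : cyl p n ≤ (p.map (C : PP k N →+* MvPolynomial (Fin n) (PP k N))).comap (el k N n) := by
      refine sup_le (Ideal.map_le_iff_le_comap.2 fun g hg => ?_) (Ideal.span_le.2 ?_)
      · rw [Ideal.mem_comap, Ideal.mem_comap, el_inc]
        exact Ideal.mem_map_of_mem _ hg
      · rintro _ rfl
        simp [el, Fin.sum_univ_succ]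
    exact mem_map_C_iff.1 (h hf)
  · intro h
    have h1 : se k N n (el k N n f) ∈ p.map (inc n) := by
      rw [se, coe_eval₂Hom, eval₂_eq]
      exact Ideal.sum_mem _ fun m _ => Ideal.mul_mem_right _ _ (Ideal.mem_map_of_mem _ (h m))
    have h2 := add_mem (Ideal.mem_sup_left h1 : _ ∈ cyl p n) (Ideal.mem_sup_right (sub_se f))
    rwa [add_sub_cancel] at h2

theorem part1 (p : Ideal (PP k N)) (hp : p.IsPrime) : (cyl p n).IsPrime ∧
    ringKrullDim (RR k N n ⧸ cyl p n) = ringKrullDim (PP k N ⧸ p) + n := by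
  let φ : RR k N n →+* MvPolynomial (Fin n) (PP k N ⧸ p) :=
    (map (Ideal.Quotient.mk p)).comp (el k N n : RR k N n →+* MvPolynomial (Fin n) (PP k N))
  have h1 : cyl p n = RingHom.ker φ := by
    ext f
    rw [mem_cyl, RingHom.mem_ker, MvPolynomial.ext_iff]
    simp [φ, coeff_map, Ideal.Quotient.eq_zero_iff_mem]
  have h2 : Surjective φ :=
    (map_surjective _ Ideal.Quotient.mk_surjective).comp fun g => ⟨se k N n g, el_se g⟩
  rw [h1]
  refine ⟨RingHom.ker_isPrime φ, ?_⟩
  rw [ringKrullDim_eq_of_ringEquiv (RingHom.quotientKerEquivOfSurjective h2),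
    MvPolynomial.ringKrullDim_of_isNoetherianRing]
  simp

variable {E T : Type} [Field E] [CommRing T] [Algebra k E] [Algebra E T] [Algebra k T]
  [IsScalarTower k E T] (ξ : Fin (N + 1) → E) (t : Fin (n + 1) → T)

theorem part2 (ht : ∑ j, t j = 1) (hi : AlgebraicIndependent E fun j : Fin n => t j.succ) :
    vanw k (wt N n) (Sum.elim (algebraMap E T ∘ ξ) t) = cyl (van k ξ) n := by
  classical
  let ψ : PP k N →ₐ[k] Polynomial E := aeval fun i => Polynomial.C (ξ i) * Polynomial.X ^ 1
  let Θ : MvPolynomial (Fin n) (PP k N) →+* Polynomial T :=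
    eval₂Hom ((Polynomial.mapRingHom (algebraMap E T)).comp (ψ : PP k N →+* Polynomial E))
      fun j => Polynomial.C (t j.succ)
  have h1 : ∀ f : RR k N n, aeval (fun i => Polynomial.C (Sum.elim (algebraMap E T ∘ ξ) t i) *
      Polynomial.X ^ wt N n i) f = Θ (el k N n f) := fun f => by
    induction f using MvPolynomial.induction_on with
    | C c =>
      have h : (C c : RR k N n) = inc n (C c) := by simp
      rw [aeval_C, h, el_inc]
      simp [Θ, ψ, ← IsScalarTower.algebraMap_apply]
    | add f g hf hg => rw [map_add, map_add, map_add, hf, hg]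
    | mul_X f i hf =>
      rw [map_mul, map_mul, map_mul, hf]
      congr 1
      rcases i with i | j
      · simp [Θ, ψ, el, wt]
      · refine Fin.cases ?_ (fun j => by simp [Θ, el, wt]) j
        rw [Fin.sum_univ_succ] at ht
        simp [Θ, el, wt, eq_sub_of_add_eq ht]
  ext f
  rw [mem_cyl, vanw, RingHom.mem_ker, h1]
  change _ ↔ ∀ m, ψ (coeff m (el k N n f)) = 0
  generalize el k N n f = g
  simp only [Θ, coe_eval₂Hom, eval₂_eq]
  refine ⟨fun h m => ?_, fun h => Finset.sum_eq_zero fun m _ => by simp [h m]⟩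
  ext d
  have h2 : aeval (fun j : Fin n => t j.succ)
      (∑ m ∈ g.support, monomial m ((ψ (coeff m g)).coeff d)) = 0 := by
    have h3 := congrArg (fun q => Polynomial.coeff q d) h
    simp only [Polynomial.finsetSum_coeff, ← map_pow, ← map_prod, Polynomial.coeff_mul_C,
      Polynomial.coeff_zero] at h3
    rw [map_sum, ← h3]
    refine Finset.sum_congr rfl fun m _ => ?_
    simp [aeval_monomial, Finsupp.prod]
  have h4 := congrArg (coeff m) ((injective_iff_map_eq_zero _).1 hi _ h2)
  rw [coeff_sum] at h4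
  simp only [coeff_monomial, Finset.sum_ite_eq', coeff_zero] at h4
  split_ifs at h4 with h5
  · simpa using h4
  · simp [notMem_support_iff.1 h5]

theorem th_inc (f : PP k N) : th ξ t (inc n f) = algebraMap E T (aeval ξ f) := by
  rw [th, aeval_rename]
  exact (map_aeval' (IsScalarTower.toAlgHom k E T) ξ f).symm

theorem part3 (h0 : ∀ (f : PP k N) d, f.IsHomogeneous d → IsWeightedHomogeneous (wt N n) (inc n f) d)
    (hg : Gen k 1 ξ) (hi : ∃ i, ξ i = 1) (g : T) (hm : g ∈ Algebra.adjoin E (Set.range t)) :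
    ∃ (G : RR k N n) (d : ℕ) (u : E), u ≠ 0 ∧ IsWeightedHomogeneous (wt N n) G d ∧
      th ξ t G = algebraMap E T u * g := by
  obtain ⟨i, hi⟩ := hi
  have hX : ∀ d, IsWeightedHomogeneous (wt N n) (X (Sum.inl i) ^ d : RR k N n) d := fun d => by
    simpa [wt] using (isWeightedHomogeneous_X k (wt N n) (Sum.inl i)).pow d
  have hX1 : th ξ t (X (Sum.inl i) : RR k N n) = 1 := by simp [th, hi]
  induction hm using Algebra.adjoin_induction with
  | mem x hx =>
    obtain ⟨j, rfl⟩ := hx
    exact ⟨X (Sum.inr j), _, 1, one_ne_zero, isWeightedHomogeneous_X k _ _, by simp [th]⟩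
  | algebraMap r =>
    obtain ⟨d, a, b, h1, -, h3, h4⟩ := hg r
    exact ⟨inc n a, d, _, h3, h0 a d h1, by rw [th_inc, ← h4, map_mul, mul_comm]⟩
  | add x y _ _ hx hy =>
    obtain ⟨G, d, u, h1, h2, h3⟩ := hx
    obtain ⟨G', d', u', h1', h2', h3'⟩ := hy
    obtain ⟨c, a, b, h4, h5, h6, h7⟩ := hg (u / u')
    have h8 : u' * aeval ξ a = u * aeval ξ b := by
      rw [← h7]
      field_simp
    refine ⟨inc n b * G * X (Sum.inl i) ^ d' + inc n a * G' * X (Sum.inl i) ^ d, c + d + d',
      u * aeval ξ b, mul_ne_zero h1 h6, (((h0 b c h5).mul h2).mul (hX d')).add ?_, ?_⟩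
    · rw [add_right_comm]
      exact ((h0 a c h4).mul h2').mul (hX d)
    · have h9 := congrArg (algebraMap E T) h8
      simp only [map_add, map_mul, map_pow, th_inc, hX1, h3, h3', one_pow, mul_one] at h9 ⊢
      linear_combination y * h9
  | mul x y _ _ hx hy =>
    obtain ⟨G, d, u, h1, h2, h3⟩ := hx
    obtain ⟨G', d', u', h1', h2', h3'⟩ := hy
    refine ⟨G * G', d + d', u * u', mul_ne_zero h1 h1', h2.mul h2', ?_⟩
    rw [map_mul, map_mul, h3, h3']
    ring

end VP

theorem t_VP : S_VP0 → S_VP := fun h k _ N n =>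
  ⟨VP.part1, fun _ _ _ _ _ _ _ _ ξ t ht => ⟨VP.part2 ξ t ht, VP.part3 ξ t (h k N n).2.1⟩⟩

end Pool.Agent.P.MP_12d50c_ag
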