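import Pool.Agent.P.MP_12d50c_ag.TVP0
import Pool.Agent.P.MP_12d50c_ag.TFINB
import Pool.Agent.P.MP_12d50c_ag.TTOP
import Pool.Agent.P.MP_12d50c_ag.TLS
import Pool.Agent.P.MP_12d50c_ag.TRD1
import Pool.Agent.P.MP_12d50c_ag.TRD2
import Pool.Agent.P.MP_12d50c_ag.TAS
import Pool.Agent.P.MP_12d50c_ag.TFU
import Pool.Agent.P.MP_12d50c_ag.TBC
import Pool.Agent.P.MP_12d50c_ag.TRD
import Pool.Agent.P.MP_12d50c_ag.TNS0
import Pool.Agent.P.MP_12d50c_ag.TNSP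
import Pool.Agent.P.MP_12d50c_ag.TVP
import Pool.Agent.P.MP_12d50c_ag.TCL
import Pool.Agent.P.MP_12d50c_ag.TPT0
import Pool.Agent.P.MP_12d50c_ag.TEX
import Pool.Agent.P.MP_12d50c_ag.TDM
import Pool.Agent.P.MP_12d50c_ag.TEMB
import Pool.Agent.P.MP_12d50c_ag.TGENL
import Pool.Agent.P.MP_12d50c_ag.TM1
import Pool.Agent.P.MP_12d50c_ag.TLOC
import Pool.Agent.P.MP_12d50c_ag.TFL
import Pool.Agent.P.MP_12d50c_ag.TM2
import Pool.Agent.P.MP_12d50c_ag.TG12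
import Pool.Agent.P.MP_12d50c_ag.TFINC
import Pool.Agent.P.MP_12d50c_ag.TFQ
import Pool.Agent.P.MP_12d50c_ag.TREL1
import Pool.Agent.P.MP_12d50c_ag.TREL
import Pool.Agent.P.MP_12d50c_ag.TAC
import Pool.Agent.P.MP_12d50c_ag.TGR1
import Pool.Agent.P.MP_12d50c_ag.TGR
import Pool.Agent.P.MP_12d50c_ag.TSYMB
import Pool.Agent.P.MP_12d50c_ag.TLIN
import Pool.Agent.P.MP_12d50c_ag.TREG
import Pool.Agent.P.MP_12d50c_ag.TREG2
import Pool.Agent.P.MP_12d50c_ag.TIV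
import Pool.Agent.P.MP_12d50c_ag.TPAV
import Pool.Agent.P.MP_12d50c_ag.TINT
import Pool.Agent.P.MP_12d50c_ag.TEXTR
import Pool.Agent.P.MP_12d50c_ag.TM3
import Pool.Agent.P.MP_12d50c_ag.TAVOID
import Pool.Agent.P.MP_12d50c_ag.TFIN
import Pool.Agent.P.MP_12d50c_ag.TNE
import Pool.Agent.P.MP_12d50c_ag.TAV
import Pool.Agent.P.MP_12d50c_ag.TUG
import Pool.Agent.P.MP_12d50c_ag.TTR
import Pool.Agent.P.MP_12d50c_ag.TBERT
import Pool.Agent.P.MP_12d50c_ag.TEXG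
import Pool.Agent.P.MP_12d50c_ag.TNB
import Pool.Agent.P.MP_12d50c_ag.TCONNP
import Pool.Agent.P.MP_12d50c_ag.TCONNF
import Pool.Agent.P.MP_12d50c_ag.TCONN
import Pool.Agent.P.MP_12d50c_ag.TGOODW
import Pool.Agent.P.MP_12d50c_ag.TGOODC
import Pool.Agent.P.MP_12d50c_ag.TPLACE
import Pool.Agent.P.MP_12d50c_ag.TDICT
import Pool.Agent.P.MP_12d50c_ag.TCURVE
import Pool.Agent.P.MP_12d50c_ag.TEXT
import Pool.Agent.P.MP_12d50c_ag.TSTEP1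
import Pool.Agent.P.MP_12d50c_ag.TELIM
import Pool.Agent.P.MP_12d50c_ag.TCLO
import Pool.Agent.P.MP_12d50c_ag.TSEP
import Pool.Agent.P.MP_12d50c_ag.TCNT
import Pool.Agent.P.MP_12d50c_ag.TSZP
import Pool.Agent.P.MP_12d50c_ag.TDEG
import Pool.Agent.P.MP_12d50c_ag.TELL
import Pool.Agent.P.MP_12d50c_ag.TVAL
import Pool.Agent.P.MP_12d50c_ag.TKEY0
import Pool.Agent.P.MP_12d50c_ag.TKA1
import Pool.Agent.P.MP_12d50c_ag.TKA3
import Pool.Agent.P.MP_12d50c_ag.TPRES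
import Pool.Agent.P.MP_12d50c_ag.TPTR
import Pool.Agent.P.MP_12d50c_ag.TPI0
import Pool.Agent.P.MP_12d50c_ag.TPI1
import Pool.Agent.P.MP_12d50c_ag.TPI1G
import Pool.Agent.P.MP_12d50c_ag.TSW
import Pool.Agent.P.MP_12d50c_ag.TMONO
import Pool.Agent.P.MP_12d50c_ag.TKA
import Pool.Agent.P.MP_12d50c_ag.TKEYR
import Pool.Agent.P.MP_12d50c_ag.TKEYS
import Pool.Agent.P.MP_12d50c_ag.TCH1
import Pool.Agent.P.MP_12d50c_ag.TCH2
import Pool.Agent.P.MP_12d50c_ag.TCH0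
import Pool.Agent.P.MP_12d50c_ag.TCHL
import Pool.Agent.P.MP_12d50c_ag.TCH3
import Pool.Agent.P.MP_12d50c_ag.TCH4
import Pool.Agent.P.MP_12d50c_ag.TCH5
import Pool.Agent.P.MP_12d50c_ag.TCH6
import Pool.Agent.P.MP_12d50c_ag.TCH
import Pool.Agent.P.MP_12d50c_ag.TKEY1
import Pool.Agent.P.MP_12d50c_ag.TUG2
import Pool.Agent.P.MP_12d50c_ag.TKC
import Pool.Agent.P.MP_12d50c_ag.TJET
import Pool.Agent.P.MP_12d50c_ag.TJU
import Pool.Agent.P.MP_12d50c_ag.TSUR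
import Pool.Agent.P.MP_12d50c_ag.TGE
import Pool.Agent.P.MP_12d50c_ag.TKJ
import Pool.Agent.P.MP_12d50c_ag.TKP
import Pool.Agent.P.MP_12d50c_ag.TKEY2
import Pool.Agent.P.MP_12d50c_ag.TKEY
import Pool.Agent.P.MP_12d50c_ag.TQF0
import Pool.Agent.P.MP_12d50c_ag.TQF
import Pool.Agent.P.MP_12d50c_ag.TL2B
import Pool.Agent.P.MP_12d50c_ag.TL20
import Pool.Agent.P.MP_12d50c_ag.TL21
import Pool.Agent.P.MP_12d50c_ag.TL2A
import Pool.Agent.P.MP_12d50c_ag.TCORE1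
import Pool.Agent.P.MP_12d50c_ag.TCORE2
import Pool.Agent.P.MP_12d50c_ag.TFULT0
import Pool.Agent.P.MP_12d50c_ag.TFULT1
import Pool.Agent.P.MP_12d50c_ag.TFULT2
import Pool.Agent.P.MP_12d50c_ag.TFULT
import Pool.Agent.P.MP_12d50c_ag.TCORE
import Pool.Agent.P.MP_12d50c_ag.TTK
import Pool.Agent.P.MP_12d50c_ag.TPTS1
import Pool.Agent.P.MP_12d50c_ag.TPTS2
import Pool.Agent.P.MP_12d50c_ag.TPTS3
import Pool.Agent.P.MP_12d50c_ag.TSMO1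
import Pool.Agent.P.MP_12d50c_ag.TSMO2
import Pool.Agent.P.MP_12d50c_ag.TGI1
import Pool.Agent.P.MP_12d50c_ag.TGI2
import Pool.Agent.P.MP_12d50c_ag.TSURF
import Pool.Agent.P.MP_12d50c_ag.TINTD
import Pool.Agent.P.MP_12d50c_ag.TBRM
import Pool.Agent.P.MP_12d50c_ag.TCXD
import Pool.Agent.P.MP_12d50c_ag.TCP
import Pool.Agent.P.MP_12d50c_ag.TCX

/-!
Assembly.
-/

open CategoryTheory AlgebraicGeometry
open Pool.Agent.P.MP_90138e_ag (IsProjective)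
open scoped TensorProduct

namespace Pool.Agent.P.MP_12d50c_ag

theorem a_VP0 : S_VP0 := t_VP0
theorem a_FINB : S_FINB := t_FINB a_VP0
theorem a_TOP : S_TOP := t_TOP a_FINB
theorem a_LS : S_LS := t_LS
theorem a_RD1 : S_RD1 := t_RD1
theorem a_RD2 : S_RD2 := t_RD2 a_RD1
theorem a_AS : S_AS := t_AS
theorem a_FU : S_FU := t_FU a_RD1
theorem a_BC : S_BC := t_BC a_LS a_AS a_VP0 a_RD1 a_FU
theorem a_RD : S_RD := t_RD a_LS a_FINB a_RD1 a_RD2 a_BC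
theorem a_NS0 : S_NS0 := t_NS0
theorem a_NSP : S_NSP := t_NSP a_NS0
theorem a_VP : S_VP := t_VP a_VP0
theorem a_CL : S_CL := t_CL a_NSP a_NS0 a_VP0 a_VP
theorem a_PT0 : S_PT0 := t_PT0 a_VP0 a_CL
theorem a_EX : S_EX := t_EX
theorem a_DM : S_DM := t_DM
theorem a_EMB : S_EMB := t_EMB
theorem a_GENL : S_GENL := t_GENL a_VP0 a_VP
theorem a_M1 : S_M1 := t_M1 a_EX a_DM a_EMB a_VP0 a_VP a_GENL
theorem a_LOC : S_LOC := t_LOC
theorem a_FL : S_FL := t_FL a_LOC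
theorem a_M2 : S_M2 := t_M2 a_LOC a_FL a_VP0 a_VP a_M1
theorem a_G12 : S_G12 := t_G12 a_EX a_VP0 a_VP a_CL a_M1 a_M2
theorem a_FINC : S_FINC := t_FINC a_NSP a_NS0
theorem a_FQ : S_FQ := t_FQ
theorem a_REL1 : S_REL1 := t_REL1 a_DM a_VP0 a_VP a_GENL
theorem a_REL : S_REL := t_REL a_VP0 a_CL a_FINB a_PT0 a_M1 a_M2 a_REL1
theorem a_AC : S_AC := t_AC a_EX a_FQ a_FINC a_M1 a_M2 a_REL a_VP0
theorem a_GR1 : S_GR1 := t_GR1 a_EX a_DM a_LOC a_FL a_NSP a_NS0 a_LS a_VP0 a_VP a_GENL a_CL a_FINC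
theorem a_GR : S_GR := t_GR a_VP0 a_CL a_FINB a_PT0 a_G12 a_FINC a_GR1
theorem a_SYMB : S_SYMB := t_SYMB a_NSP a_FINC a_GR
theorem a_LIN : S_LIN := t_LIN
theorem a_REG : S_REG := t_REG a_LIN a_NS0
theorem a_REG2 : S_REG2 := t_REG2
theorem a_IV : S_IV := t_IV a_NS0 a_REG a_REG2 a_AS a_FINC
theorem a_PAV : S_PAV := t_PAV
theorem a_INT : S_INT := t_INT a_NSP a_REG a_REG2
theorem a_EXTR : S_EXTR := t_EXTR a_IV a_PAV a_FINC a_INT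
theorem a_M3 : S_M3 := t_M3 a_NS0 a_LS a_AS a_VP0 a_VP a_CL a_FINC
theorem a_AVOID : S_AVOID := t_AVOID
theorem a_FIN : S_FIN := t_FIN a_NSP
theorem a_NE : S_NE := t_NE a_AVOID a_FIN
theorem a_AV : S_AV := t_AV a_NSP a_NS0
theorem a_UG : S_UG := t_UG
theorem a_TR : S_TR := t_TR a_DM
theorem a_BERT : S_BERT := t_BERT a_LIN a_UG a_TR
theorem a_EXG : S_EXG := t_EXG a_AVOID a_BERT
theorem a_NB : S_NB := t_NB a_NE a_INT a_AV a_EXG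
theorem a_CONNP : S_CONNP := t_CONNP
theorem a_CONNF : S_CONNF := t_CONNF
theorem a_CONN : S_CONN := t_CONN a_EX a_DM a_LOC a_AV a_AVOID a_FIN a_NSP a_CONNP a_CONNF
theorem a_GOODW : S_GOODW := t_GOODW a_LIN a_NS0
theorem a_GOODC : S_GOODC := t_GOODC a_NSP a_NS0 a_NE a_REG a_REG2 a_CONN a_GOODW
theorem a_PLACE : S_PLACE := t_PLACE
theorem a_DICT : S_DICT := t_DICT a_EX a_DM a_LOC a_FL a_REG a_NS0 a_PLACE
theorem a_CURVE : S_CURVE := t_CURVE a_NSP a_NS0 a_AVOID a_REG a_PLACE a_DICT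
theorem a_EXT : S_EXT := t_EXT
theorem a_STEP1 : S_STEP1 := t_STEP1 a_FQ a_INT a_GOODC a_CURVE a_EXT
theorem a_ELIM : S_ELIM := t_ELIM a_NSP
theorem a_CLO : S_CLO := t_CLO a_LIN a_ELIM
theorem a_SEP : S_SEP := t_SEP
theorem a_CNT : S_CNT := t_CNT a_SEP
theorem a_SZP : S_SZP := t_SZP
theorem a_DEG : S_DEG := t_DEG a_AV a_EXG a_GOODC a_CURVE a_NE
theorem a_ELL : S_ELL := t_ELL a_CNT a_SZP
theorem a_VAL : S_VAL := t_VAL a_CURVE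
theorem a_KEY0 : S_KEY0 := t_KEY0 a_CURVE a_VAL
theorem a_KA1 : S_KA1 := t_KA1 a_PLACE
theorem a_KA3 : S_KA3 := t_KA3 a_PLACE
theorem a_PRES : S_PRES := t_PRES a_PLACE
theorem a_PTR : S_PTR := t_PTR a_PLACE
theorem a_PI0 : S_PI0 := t_PI0 a_PLACE
theorem a_PI1 : S_PI1 := t_PI1 a_PLACE a_PI0
theorem a_PI1G : S_PI1G := t_PI1G a_PLACE a_PRES a_PTR a_PI1
theorem a_SW : S_SW := t_SW
theorem a_MONO : S_MONO := t_MONO a_PLACE a_PRES a_PTR a_PI1G a_SW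
theorem a_KA : S_KA := t_KA a_PLACE a_KA1 a_KA3 a_MONO
theorem a_KEYR : S_KEYR := t_KEYR
theorem a_KEYS : S_KEYS := t_KEYS a_CURVE a_VAL
theorem a_CH1 : S_CH1 := t_CH1
theorem a_CH2 : S_CH2 := t_CH2
theorem a_CH0 : S_CH0 := t_CH0 a_CH1 a_CH2
theorem a_CHL : S_CHL := t_CHL
theorem a_CH3 : S_CH3 := t_CH3 a_CH0 a_CH1 a_CH2 a_CHL
theorem a_CH4 : S_CH4 := t_CH4
theorem a_CH5 : S_CH5 := t_CH5
theorem a_CH6 : S_CH6 := t_CH6 a_CH0 a_CH1 a_CHL a_CH3 a_CH4 a_CH5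
theorem a_CH : S_CH := t_CH a_CH0 a_CH6
theorem a_KEY1 : S_KEY1 := t_KEY1 a_DICT a_ELL a_KEY0 a_KA a_KEYR a_KEYS a_CH0 a_CH a_VAL a_CURVE
theorem a_UG2 : S_UG2 := t_UG2 a_UG
theorem a_KC : S_KC := t_KC a_NE a_GOODW
theorem a_JET : S_JET := t_JET a_REG a_DICT a_PLACE a_CURVE a_VAL
theorem a_JU : S_JU := t_JU a_LIN
theorem a_SUR : S_SUR := t_SUR a_SEP
theorem a_GE : S_GE := t_GE a_LIN a_TR a_JU a_SUR
theorem a_KJ : S_KJ := t_KJ a_UG2 a_KC a_JET a_GE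
theorem a_KP : S_KP := t_KP a_UG2 a_KC a_GE
theorem a_KEY2 : S_KEY2 := t_KEY2 a_KJ a_KP
theorem a_KEY : S_KEY := t_KEY a_FQ a_GOODC a_CNT a_SZP a_KEY1 a_KEY2
theorem a_QF0 : S_QF0 := t_QF0
theorem a_QF : S_QF := t_QF a_DEG a_CNT a_KEY a_QF0
theorem a_L2B : S_L2B := t_L2B a_FQ a_NE a_EXG a_NB a_CLO a_CNT a_SZP a_QF
theorem a_L20 : S_L20 := t_L20
theorem a_L21 : S_L21 := t_L21 a_L20
theorem a_L2A : S_L2A := t_L2A a_FQ a_NE a_NB a_CLO a_CNT a_SZP a_QF a_L21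
theorem a_CORE1 : S_CORE1 := t_CORE1 a_EXT a_NB a_STEP1 a_L2A
theorem a_CORE2 : S_CORE2 := t_CORE2 a_FQ a_INT a_NB
theorem a_FULT0 : S_FULT0 := t_FULT0 a_NE a_INT a_AV a_EXG a_BERT
theorem a_FULT1 : S_FULT1 := t_FULT1 a_NE a_INT a_AV a_BERT
theorem a_FULT2 : S_FULT2 := t_FULT2 a_INT
theorem a_FULT : S_FULT := t_FULT a_NE a_INT a_AV a_EXG a_REG a_REG2 a_FULT0 a_FULT1 a_FULT2
theorem a_CORE : S_CORE := t_CORE a_NB a_STEP1 a_L2B a_CORE1 a_CORE2 a_FULT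
theorem a_TK : S_TK := t_TK a_NSP a_VP0 a_CL a_PT0 a_G12 a_FINC a_AC a_SYMB a_EXTR a_M3 a_CORE
theorem a_PTS1 : S_PTS1 := t_PTS1 a_EX a_EMB a_LOC
theorem a_PTS2 : S_PTS2 := t_PTS2 a_LOC a_PTS1
theorem a_PTS3 : S_PTS3 := t_PTS3 a_LOC a_FL a_PTS1 a_PTS2
theorem a_SMO1 : S_SMO1 := t_SMO1
theorem a_SMO2 : S_SMO2 := t_SMO2
theorem a_GI1 : S_GI1 := t_GI1
theorem a_GI2 : S_GI2 := t_GI2
theorem a_SURF : S_SURF := t_SURF a_DM a_RD1 a_PTS1 a_PTS2 a_PTS3 a_SMO1 a_SMO2 a_GI1 a_GI2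
theorem a_INTD : S_INTD := t_INTD
theorem a_BRM : S_BRM := t_BRM a_VP0 a_VP a_PTS1 a_PTS3 a_INTD
theorem a_CXD : S_CXD := t_CXD
theorem a_CP : S_CP := t_CP
theorem a_CX : S_CX := t_CX a_CP a_PTS1

theorem locFin (F : Type) [Field F] [Finite F] (p : ℕ) [Fact p.Prime] [CharP F p] :
    LocFin (AlgebraicClosure F) p := fun x => by
  have : FiniteDimensional F (IntermediateField.adjoin F {x}) :=
    IntermediateField.adjoin.finiteDimensional (Algebra.IsIntegral.isIntegral x)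
  have : Finite (IntermediateField.adjoin F {x}) := Module.finite_of_finite F
  have := Fintype.ofFinite (IntermediateField.adjoin F {x})
  have : CharP (IntermediateField.adjoin F {x}) p := charP_of_injective_algebraMap' F p
  obtain ⟨n, -, hn⟩ := FiniteField.card (IntermediateField.adjoin F {x}) p
  refine ⟨n, n.pos, ?_⟩
  have h := FiniteField.pow_card (IntermediateField.AdjoinSimple.gen F x)
  rw [hn] at h
  exact congrArg Subtype.val h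

theorem main (F : Type) [Field F] [Finite F] (X : Over (Spec (.of F)))
    [SmoothOfRelativeDimension 2 X.hom] [GeometricallyIntegral X.hom] (h : IsProjective X) :
    Module.rank ℚ (ℚ ⊗[ℤ] CH X.left 2 1) = 0 := by
  have : IsIntegral X.left := GeometricallyIntegral.isIntegral_of_subsingleton X.hom
  obtain ⟨p, hp⟩ := CharP.exists F
  have : Fact p.Prime := ⟨CharP.char_is_prime F p⟩
  have : IsGalois F (AlgebraicClosure F) := ⟨⟩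
  obtain ⟨N, I, c, hc⟩ := a_CX F X h
  obtain ⟨h1, h2, h3, h4⟩ := a_SURF F (AlgebraicClosure F) X N I c h hc
  obtain ⟨c', hc'⟩ := a_CXD F X.left X.hom N I c
  exact a_TOP F X.left N I _ (a_BRM F X.left X.hom N I c' hc' h1 c.hom h2 h3)
    (a_RD F (AlgebraicClosure F) N I (a_TK _ p N _ (locFin F p) h4))

end Pool.Agent.P.MP_12d50c_ag
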