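import Pool.Agent.P.MP_12d50c_ag.D

/-!
Basic lemmas on homogeneous vanishing ideals, normalized points, lengths and forms.
-/

open MvPolynomial

namespace Pool.Agent.P.MP_12d50c_ag

section W

variable {k : Type} [Field k] {τ : Type} {w : τ → ℕ} {D D' : Type} [CommRing D] [Algebra k D]
  [CommRing D'] [Algebra k D']

theorem map_aeval' (φ : D →ₐ[k] D') (ξ : τ → D) (f : MvPolynomial τ k) :
    φ (aeval ξ f) = aeval (fun i => φ (ξ i)) f := comp_aeval_apply ξ φ f

theorem aeval_scale {f : MvPolynomial τ k} {d : ℕ} (hf : IsWeightedHomogeneous w f d) (u : D)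
    (ξ : τ → D) : aeval (fun i => u ^ w i * ξ i) f = u ^ d * aeval ξ f := by
  classical
  rw [f.as_sum, map_sum, map_sum, Finset.mul_sum]
  refine Finset.sum_congr rfl fun s hs => ?_
  rw [aeval_monomial, aeval_monomial, ← hf (mem_support_iff.1 hs), Finsupp.weight_apply,
    mul_left_comm]
  congr 1
  simp only [Finsupp.prod, Finsupp.sum, mul_pow, Finset.prod_mul_distrib, smul_eq_mul,
    ← Finset.prod_pow_eq_pow_sum, ← pow_mul, mul_comm]

theorem aeval_tw {f : MvPolynomial τ k} {d : ℕ} (hf : IsWeightedHomogeneous w f d) (ξ : τ → D) :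
    aeval (fun i => Polynomial.C (ξ i) * Polynomial.X ^ w i) f =
      Polynomial.C (aeval ξ f) * Polynomial.X ^ d := by
  have h := aeval_scale hf (Polynomial.X : Polynomial D) fun i => Polynomial.C (ξ i)
  simp only [mul_comm (Polynomial.X ^ _)] at h
  rw [h]
  congr 1
  exact (map_aeval' (Polynomial.CAlgHom : D →ₐ[k] Polynomial D) ξ f).symm

theorem exists_sum_comp (w : τ → ℕ) (f : MvPolynomial τ k) :
    ∃ n, f = ∑ d ∈ Finset.range n, weightedHomogeneousComponent w d f ∧
      ∀ d, n ≤ d → weightedHomogeneousComponent w d f = 0 := by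
  refine ⟨weightedTotalDegree w f + 1, ?_, fun d hd =>
    weightedHomogeneousComponent_eq_zero d f (by omega)⟩
  conv_lhs => rw [← finsum_weightedHomogeneousComponent w f]
  refine finsum_eq_sum_of_support_subset _ fun d hd => ?_
  simp only [Finset.coe_range, Set.mem_Iio]
  by_contra h
  exact hd (weightedHomogeneousComponent_eq_zero d f (by omega))

theorem coeff_tw (f : MvPolynomial τ k) (ξ : τ → D) (d : ℕ) :
    (aeval (fun i => Polynomial.C (ξ i) * Polynomial.X ^ w i) f).coeff d =
      aeval ξ (weightedHomogeneousComponent w d f) := by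
  obtain ⟨n, h1, h2⟩ := exists_sum_comp w f
  conv_lhs => rw [h1, map_sum]
  simp only [aeval_tw (weightedHomogeneousComponent_isWeightedHomogeneous _ _),
    Polynomial.finsetSum_coeff, Polynomial.coeff_C_mul_X_pow]
  rw [Finset.sum_ite_eq]
  split_ifs with h
  · rfl
  · rw [h2 d (by simpa using h), map_zero]

theorem mem_vanw {ξ : τ → D} {f : MvPolynomial τ k} :
    f ∈ vanw k w ξ ↔ ∀ d, aeval ξ (weightedHomogeneousComponent w d f) = 0 := by
  rw [vanw, RingHom.mem_ker, Polynomial.ext_iff]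
  simp only [coeff_tw, Polynomial.coeff_zero]

theorem mem_vanw_of_hom {ξ : τ → D} {f : MvPolynomial τ k} {d : ℕ}
    (hf : IsWeightedHomogeneous w f d) : f ∈ vanw k w ξ ↔ aeval ξ f = 0 := by
  rw [vanw, RingHom.mem_ker, aeval_tw hf, Polynomial.C_mul_X_pow_eq_monomial,
    Polynomial.monomial_eq_zero_iff]

theorem wHom_vanw (ξ : τ → D) : WHom w (vanw k w ξ) := fun _ hf d =>
  (mem_vanw_of_hom (weightedHomogeneousComponent_isWeightedHomogeneous _ _)).2 (mem_vanw.1 hf d)

theorem aeval_eq_zero_of_mem_vanw {ξ : τ → D} {f : MvPolynomial τ k} (hf : f ∈ vanw k w ξ) :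
    aeval ξ f = 0 := by
  obtain ⟨n, h1, -⟩ := exists_sum_comp w f
  rw [h1, map_sum]
  exact Finset.sum_eq_zero fun d _ => mem_vanw.1 hf d

theorem WHom.le_vanw {J : Ideal (MvPolynomial τ k)} (hJ : WHom w J) {ξ : τ → D} :
    J ≤ vanw k w ξ ↔ ∀ f ∈ J, aeval ξ f = 0 :=
  ⟨fun h _ hf => aeval_eq_zero_of_mem_vanw (h hf), fun h f hf => mem_vanw.2 fun d => h _ (hJ f hf d)⟩

/-- Homogeneous ideals are compared on forms. -/
theorem WHom.le_of_hom {J J' : Ideal (MvPolynomial τ k)} (hJ : WHom w J)
    (h : ∀ f d, IsWeightedHomogeneous w f d → f ∈ J → f ∈ J') : J ≤ J' := fun f hf => by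
  obtain ⟨n, h1, -⟩ := exists_sum_comp w f
  rw [h1]
  exact J'.sum_mem fun d _ =>
    h _ d (weightedHomogeneousComponent_isWeightedHomogeneous _ _) (hJ f hf d)

theorem vanw_le_map (φ : D →ₐ[k] D') (ξ : τ → D) : vanw k w ξ ≤ vanw k w fun i => φ (ξ i) :=
  (wHom_vanw ξ).le_vanw.2 fun f hf => by
    rw [← map_aeval' φ ξ f, aeval_eq_zero_of_mem_vanw hf, map_zero]

theorem vanw_map (φ : D →ₐ[k] D') (hφ : Function.Injective φ) (ξ : τ → D) :
    (vanw k w fun i => φ (ξ i)) = vanw k w ξ :=
  le_antisymm ((wHom_vanw _).le_vanw.2 fun f hf => hφ (by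
    rw [map_aeval' φ ξ f, aeval_eq_zero_of_mem_vanw hf, map_zero])) (vanw_le_map φ ξ)

theorem vanw_scale {u : D} (hu : IsUnit u) (ξ : τ → D) :
    (vanw k w fun i => u ^ w i * ξ i) = vanw k w ξ := by
  ext f
  simp only [mem_vanw, aeval_scale (weightedHomogeneousComponent_isWeightedHomogeneous _ _),
    (hu.pow _).mul_right_eq_zero]

theorem wHom_iff {J : Ideal (MvPolynomial τ k)} :
    letI := weightedGradedAlgebra k w
    WHom w J ↔ J.IsHomogeneous (weightedHomogeneousSubmodule k w) := by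
  let := weightedGradedAlgebra k w
  refine ⟨fun h d f hf => ?_, fun h f hf d => weightedHomogeneousComponent_mem_of_mem k w h hf d⟩
  have := h f hf d
  rwa [← weightedDecomposition.decompose'_apply] at this

theorem wHom_span {S : Set (MvPolynomial τ k)} (hS : ∀ f ∈ S, ∃ d, IsWeightedHomogeneous w f d) :
    WHom w (Ideal.span S) := by
  let := weightedGradedAlgebra k w
  exact wHom_iff.2 (Ideal.homogeneous_span _ _ hS)

theorem WHom.sup {J J' : Ideal (MvPolynomial τ k)} (h : WHom w J) (h' : WHom w J') :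
    WHom w (J ⊔ J') := by
  let := weightedGradedAlgebra k w
  exact wHom_iff.2 ((wHom_iff.1 h).sup (wHom_iff.1 h'))

theorem WHom.mul {J J' : Ideal (MvPolynomial τ k)} (h : WHom w J) (h' : WHom w J') :
    WHom w (J * J') := by
  let := weightedGradedAlgebra k w
  exact wHom_iff.2 ((wHom_iff.1 h).mul (wHom_iff.1 h'))

theorem WHom.radical {J : Ideal (MvPolynomial τ k)} (h : WHom w J) : WHom w J.radical := by
  let := weightedGradedAlgebra k w
  exact wHom_iff.2 (wHom_iff.1 h).radical

theorem WHom.minimalPrimes {J q : Ideal (MvPolynomial τ k)} (h : WHom w J)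
    (hq : q ∈ J.minimalPrimes) : WHom w q := by
  let := weightedGradedAlgebra k w
  have h1 := hq.1.1.homogeneousCore (𝒜 := weightedHomogeneousSubmodule k w)
  have h2 : J ≤ (q.homogeneousCore (weightedHomogeneousSubmodule k w)).toIdeal := by
    rw [← (wHom_iff.1 h).toIdeal_homogeneousCore_eq_self]
    exact Ideal.homogeneousCore_mono _ hq.1.2
  have h3 := Ideal.toIdeal_homogeneousCore_le (weightedHomogeneousSubmodule k w) q
  rw [← le_antisymm h3 (hq.2 ⟨h1, h2⟩ h3)]
  exact wHom_iff.2 (HomogeneousIdeal.isHomogeneous _)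

/-- A homogeneous ideal has finitely many homogeneous generators. -/
theorem WHom.exists_gen [Finite τ] {J : Ideal (MvPolynomial τ k)} (h : WHom w J) :
    ∃ S : Finset (MvPolynomial τ k), (∀ f ∈ S, ∃ d, IsWeightedHomogeneous w f d) ∧
      Ideal.span (S : Set (MvPolynomial τ k)) = J := by
  have h1 : Ideal.span {f | f ∈ J ∧ ∃ d, IsWeightedHomogeneous w f d} = J :=
    le_antisymm (Ideal.span_le.2 fun _ hf => hf.1)
      (h.le_of_hom fun f d h1 h2 => Ideal.subset_span ⟨h2, d, h1⟩)
  have h2 : (Ideal.span {f | f ∈ J ∧ ∃ d, IsWeightedHomogeneous w f d}).FG :=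
    IsNoetherian.noetherian _
  obtain ⟨S, hS, h3⟩ := (Submodule.fg_span_iff_fg_span_finset_subset _).1 h2
  exact ⟨S, fun f hf => (hS hf).2, h3.symm.trans h1⟩

/-- Homogenization with respect to a variable of weight one. -/
theorem exists_homog {i : τ} (hi : w i = 1) (f : MvPolynomial τ k) :
    ∃ (d : ℕ) (f' : MvPolynomial τ k), IsWeightedHomogeneous w f' d ∧
      ∀ (T : Type) [CommRing T] [Algebra k T] (γ : τ → T), γ i = 1 → aeval γ f' = aeval γ f := by
  obtain ⟨n, h1, -⟩ := exists_sum_comp w f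
  refine ⟨n, ∑ d ∈ Finset.range n, X i ^ (n - d) * weightedHomogeneousComponent w d f,
    IsWeightedHomogeneous.sum _ _ _ fun d hd => ?_, fun T _ _ γ hγ => ?_⟩
  · have h2 := ((isWeightedHomogeneous_X k w i).pow (n - d)).mul
      (weightedHomogeneousComponent_isWeightedHomogeneous (w := w) d f)
    rwa [hi, smul_eq_mul, mul_one, Nat.sub_add_cancel (Finset.mem_range.1 hd).le] at h2
  · conv_rhs => rw [h1]
    simp [hγ]

variable {L : Type} [Field L] [Algebra k L] {ξ : τ → L} {q : Ideal (MvPolynomial τ k)}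
  [q.IsPrime] {i : τ}

/-- Two polynomials can be homogenized to the same degree. -/
theorem exists_homog₂ (hi : w i = 1) (f g : MvPolynomial τ k) :
    ∃ (d : ℕ) (f' g' : MvPolynomial τ k), IsWeightedHomogeneous w f' d ∧
      IsWeightedHomogeneous w g' d ∧ ∀ (T : Type) [CommRing T] [Algebra k T] (γ : τ → T), γ i = 1 →
        aeval γ f' = aeval γ f ∧ aeval γ g' = aeval γ g := by
  obtain ⟨d, f', h1, h2⟩ := exists_homog hi f
  obtain ⟨e, g', h3, h4⟩ := exists_homog hi g
  have hX : ∀ n, IsWeightedHomogeneous w (X i ^ n : MvPolynomial τ k) n := fun n => by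
    simpa [hi] using (isWeightedHomogeneous_X k w i).pow n
  refine ⟨d + e, f' * X i ^ e, X i ^ d * g', h1.mul (hX e), (hX d).mul h3, fun T _ _ γ hγ => ?_⟩
  simp [hγ, h2 T γ hγ, h4 T γ hγ]

/-- The field generated by normalized coordinates. -/
theorem gen_adjoin (hi : w i = 1) (h1 : ξ i = 1) :
    Gen k w fun j => (⟨ξ j, IntermediateField.subset_adjoin k _ ⟨j, rfl⟩⟩ :
      IntermediateField.adjoin k (Set.range ξ)) := by
  intro u
  have key : ∀ f : MvPolynomial τ k, ((aeval (fun j => (⟨ξ j, IntermediateField.subset_adjoin k _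
      ⟨j, rfl⟩⟩ : IntermediateField.adjoin k (Set.range ξ))) f :
        IntermediateField.adjoin k (Set.range ξ)) : L) = aeval ξ f :=
    fun f => map_aeval' (IntermediateField.adjoin k (Set.range ξ)).val _ f
  obtain ⟨r, s, h⟩ := (IntermediateField.mem_adjoin_range_iff k ξ u).1 u.2
  by_cases hs : aeval ξ s = 0
  · refine ⟨0, 0, 1, isWeightedHomogeneous_zero k w 0, isWeightedHomogeneous_one k w, by simp,
      Subtype.ext ?_⟩
    simp [h, hs]
  obtain ⟨d, r', s', h2, h3, h4⟩ := exists_homog₂ hi r s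
  refine ⟨d, r', s', h2, h3, fun h0 => hs ?_, Subtype.ext ?_⟩
  · rw [← (h4 L ξ h1).2, ← key, h0]
    rfl
  · rw [MulMemClass.coe_mul, key, key, (h4 L ξ h1).1, (h4 L ξ h1).2, h, div_mul_cancel₀ _ hs]

theorem coe_germ (h : Ch w ξ q i) (f : MvPolynomial τ k) :
    (germ h f : L) = aeval (fun j => ξ j / ξ i ^ w j) f :=
  map_aeval' (locw w ξ q).val _ f

theorem coe_germ_of_hom (h : Ch w ξ q i) {f : MvPolynomial τ k} {d : ℕ}
    (hf : IsWeightedHomogeneous w f d) : (germ h f : L) = aeval ξ f / ξ i ^ d := by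
  rw [coe_germ, div_eq_inv_mul, ← inv_pow, ← aeval_scale hf]
  simp only [div_eq_inv_mul, inv_pow]

theorem germ_X (h : Ch w ξ q i) : germ h (X i) = 1 :=
  Subtype.ext (by rw [coe_germ]; simp [h.wt, h.ne])

end W

section Len

variable {R : Type} [CommRing R] {J J' q : Ideal R} [q.IsPrime]

theorem len_congr (h : J.map (algebraMap R (Localization.AtPrime q)) =
    J'.map (algebraMap R (Localization.AtPrime q))) : len J q = len J' q := by
  unfold len LQ
  rw [h]

theorem len_eq_zero_iff : len J q = 0 ↔ ¬ J ≤ q := by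
  rw [len, Module.length_eq_zero_iff, Ideal.Quotient.subsingleton_iff]
  constructor
  · intro h h'
    have h1 := Ideal.map_mono (f := algebraMap R (Localization.AtPrime q)) h'
    rw [h, Localization.AtPrime.map_eq_maximalIdeal] at h1
    exact (IsLocalRing.maximalIdeal.isMaximal _).ne_top (top_le_iff.1 h1)
  · intro h
    obtain ⟨a, h1, h2⟩ := SetLike.not_le_iff_exists.1 h
    exact Ideal.eq_top_of_isUnit_mem _ (Ideal.mem_map_of_mem _ h1)
      (IsLocalization.map_units _ (⟨a, h2⟩ : q.primeCompl))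

theorem len_anti (h : J ≤ J') : len J' q ≤ len J q :=
  Module.length_le_of_surjective (Submodule.factor (Ideal.map_mono h))
    (Submodule.factor_surjective _)

/-- Lengths computed in the local ring of `V(J)`. -/
theorem len_sup (J J' q : Ideal R) [q.IsPrime] :
    len (J ⊔ J') q = lq (J'.map (toL J q)) := by
  let A := Localization.AtPrime q
  have e := DoubleQuot.quotQuotEquivQuotSupₐ A (J.map (algebraMap R A)) (J'.map (algebraMap R A))
  unfold len LQ lq
  rw [Ideal.map_sup, ← e.toLinearEquiv.length_eq, toL, ← Ideal.map_map]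
  exact Module.length_eq_of_surjective (R := LQ J q) (S := A)
    (M := LQ J q ⧸ (J'.map (algebraMap R A)).map (Ideal.Quotient.mk _)) Ideal.Quotient.mk_surjective

theorem len_sup_span (J q : Ideal R) [q.IsPrime] (g : R) :
    len (J ⊔ Ideal.span {g}) q = Ring.ord (LQ J q) (toL J q g) := by
  rw [len_sup, Ideal.map_span, Set.image_singleton, Ring.ord, lq]

theorem len_self (q : Ideal R) [q.IsPrime] : len q q = 1 := by
  unfold len LQ
  rw [Localization.AtPrime.map_eq_maximalIdeal, Module.length_eq_one_iff]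
  exact isSimpleModule_iff_isCoatom.2 (Ideal.isMaximal_def.1 inferInstance)

end Len

section Proj

variable {k : Type} [Field k] {N : ℕ}

theorem NP.piv_eq (y : NP k N) : y.1 y.piv = 1 := y.2.choose_spec.1

theorem NP.eq_zero (y : NP k N) {j : Fin (N + 1)} (h : j < y.piv) : y.1 j = 0 :=
  y.2.choose_spec.2 j h

theorem NP.ne_zero (y : NP k N) : y.1 ≠ 0 := fun h => by
  simpa [h] using y.piv_eq

/-- Proportional normalized points are equal. -/
theorem NP.eq_of_minors {y y' : NP k N} (h : ∀ i j, y.1 i * y'.1 j = y.1 j * y'.1 i) : y = y' := by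
  have h1 : ∀ j, y'.1 j = y.1 j * y'.1 y.piv := fun j => by rw [← h, y.piv_eq, one_mul]
  have h2 : ∀ j, y.1 j = y'.1 j * y.1 y'.piv := fun j => by
    rw [mul_comm, h, y'.piv_eq, mul_one]
  have h3 : y.piv = y'.piv := by
    rcases lt_trichotomy y.piv y'.piv with h3 | h3 | h3
    · simpa [y.piv_eq, y'.eq_zero h3] using h2 y.piv
    · exact h3
    · simpa [y'.piv_eq, y.eq_zero h3] using h1 y'.piv
  refine Subtype.ext (funext fun j => ?_)
  rw [h1, h3, y'.piv_eq, mul_one]

/-- Every nonzero vector is proportional to a normalized point. -/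
theorem NP.exists_smul {x : Fin (N + 1) → k} (hx : x ≠ 0) :
    ∃ (y : NP k N) (c : k), c ≠ 0 ∧ x = fun i => c * y.1 i := by
  classical
  have h : ∃ i, x i ≠ 0 := Function.ne_iff.1 hx
  let i := Fin.find _ h
  have hi : x i ≠ 0 := Fin.find_spec h
  refine ⟨⟨fun j => x j / x i, i, div_self hi, fun j hj => ?_⟩, x i, hi,
    funext fun j => (mul_div_cancel₀ _ hi).symm⟩
  have : x j = 0 := not_not.1 (Fin.find_min h hj)
  simp [this]

theorem aeval_smul {T : Type} [CommRing T] [Algebra k T] {f : PP k N} {d : ℕ}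
    (hf : f.IsHomogeneous d) (u : T) (x : Fin (N + 1) → T) :
    aeval (fun i => u * x i) f = u ^ d * aeval x f := by
  simpa using aeval_scale (w := 1) hf u x

theorem mem_van_of_hom {T : Type} [CommRing T] [Algebra k T] {x : Fin (N + 1) → T} {f : PP k N}
    {d : ℕ} (hf : f.IsHomogeneous d) : f ∈ van k x ↔ aeval x f = 0 := mem_vanw_of_hom hf

theorem Hom.on_iff {I : Ideal (PP k N)} (hI : Hom I) {T : Type} [CommRing T] [Algebra k T]
    {x : Fin (N + 1) → T} : On I x ↔ I ≤ van k x := (WHom.le_vanw hI).symm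

theorem NP.X_piv_notMem (y : NP k N) : X y.piv ∉ van k y.1 := by
  rw [mem_van_of_hom (isHomogeneous_X k _), aeval_X, y.piv_eq]
  exact one_ne_zero

theorem NP.eq_of_van_le {y y' : NP k N} (h : van k y.1 ≤ van k y'.1) : y = y' := by
  refine NP.eq_of_minors fun i j => ?_
  have h1 : (C (y.1 i) * X j - C (y.1 j) * X i : PP k N).IsHomogeneous 1 :=
    (isHomogeneous_C_mul_X _ _).sub (isHomogeneous_C_mul_X _ _)
  have h2 := (mem_van_of_hom h1).1 (h ((mem_van_of_hom h1).2 (by simp [mul_comm])))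
  simpa [sub_eq_zero] using h2

theorem IsSm.rel {d : ℕ} {I : Ideal (PP k N)} (h : IsSm d I) : Rel I := by
  by_contra h1
  simp only [Rel, not_exists, not_not] at h1
  have h2 : Function.Surjective (algebraMap k (PP k N ⧸ I)) := fun a => by
    obtain ⟨f, rfl⟩ := Ideal.Quotient.mk_surjective a
    induction f using MvPolynomial.induction_on with
    | C c => exact ⟨c, rfl⟩
    | add f g hf hg =>
      obtain ⟨a, ha⟩ := hf
      obtain ⟨b, hb⟩ := hg
      exact ⟨a + b, by rw [map_add, map_add, ha, hb]⟩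
    | mul_X f i _ =>
      exact ⟨0, by rw [map_zero, map_mul, Ideal.Quotient.eq_zero_iff_mem.2 (h1 i), mul_zero]⟩
  have h3 := ringKrullDim_le_of_surjective _ h2
  rw [h.dim, ringKrullDim_eq_zero_of_field] at h3
  norm_cast at h3

theorem Cop.symm {I : Ideal (PP k N)} {h g : PP k N} (H : Cop I h g) : Cop I g h :=
  ⟨H.hr, H.hl, H.nr, H.nl, H.fin.subset fun _ hy => ⟨hy.1, hy.2.2, hy.2.1⟩⟩

theorem inter_comm (I : Ideal (PP k N)) (y : NP k N) (h g : PP k N) :
    inter I y h g = inter I y g h := by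
  rw [inter, inter, Set.pair_comm]

theorem form_isHomogeneous {T : Type} [CommRing T] {m : ℕ} (c : Mon N m → T) :
    (form c : PP T N).IsHomogeneous m :=
  IsHomogeneous.sum _ _ _ fun s _ => isHomogeneous_monomial _ s.2

theorem coeff_form {T : Type} [CommRing T] {m : ℕ} (c : Mon N m → T) (s : Mon N m) :
    coeff s.1 (form c : PP T N) = c s := by
  classical
  rw [form, coeff_sum, Finset.sum_eq_single s]
  · simp
  · intro t _ ht
    rw [coeff_monomial, if_neg fun h => ht (Subtype.ext h)]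
  · simp

theorem form_coeff {T : Type} [CommRing T] {m : ℕ} {f : PP T N} (hf : f.IsHomogeneous m) :
    form (fun s : Mon N m => coeff s.1 f) = f := by
  ext s
  by_cases hs : s.degree = m
  · exact coeff_form _ ⟨s, hs⟩
  · rw [(form_isHomogeneous _).coeff_eq_zero hs, hf.coeff_eq_zero hs]

theorem form_add {T : Type} [CommRing T] {m : ℕ} (c c' : Mon N m → T) :
    (form (c + c') : PP T N) = form c + form c' := by
  simp [form, Finset.sum_add_distrib]

theorem form_smul {T : Type} [CommRing T] {m : ℕ} (t : T) (c : Mon N m → T) :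
    (form (t • c) : PP T N) = C t * form c := by
  simp [form, Finset.mul_sum, C_mul_monomial]

theorem map_form {T T' : Type} [CommRing T] [CommRing T'] (φ : T →+* T') {m : ℕ}
    (c : Mon N m → T) : map φ (form c : PP T N) = form fun s => φ (c s) := by
  simp [form, map_monomial]

end Proj

end Pool.Agent.P.MP_12d50c_ag
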