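import Pool.Agent.P.MP_12d50c_ag.B0
import Pool.Agent.P.MP_638e8a_ag.ChDim0

/-!
Basic lemmas on the local rings `LQ`, differentials and tangent spaces.
-/

open MvPolynomial

namespace Pool.Agent.P.MP_12d50c_ag

section Len

variable {R : Type} [CommRing R] {J q : Ideal R} [q.IsPrime]

/-- The maximal ideal of `LQ J q`. -/
noncomputable def mQ (J q : Ideal R) [q.IsPrime] : Ideal (LQ J q) := q.map (toL J q)

theorem map_ne_top (h : J ≤ q) : J.map (algebraMap R (Localization.AtPrime q)) ≠ ⊤ := fun h' => by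
  have h1 := Ideal.map_mono (f := algebraMap R (Localization.AtPrime q)) h
  rw [h', Localization.AtPrime.map_eq_maximalIdeal] at h1
  exact (IsLocalRing.maximalIdeal.isMaximal _).ne_top (top_le_iff.1 h1)

theorem isLocalRing_LQ (h : J ≤ q) : IsLocalRing (LQ J q) :=
  have := Ideal.Quotient.nontrivial_iff.2 (map_ne_top h)
  .of_surjective' _ Ideal.Quotient.mk_surjective

theorem maximalIdeal_LQ [IsLocalRing (LQ J q)] : IsLocalRing.maximalIdeal (LQ J q) = mQ J q := by
  rw [mQ, toL, ← Ideal.map_map, Localization.AtPrime.map_eq_maximalIdeal]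
  exact (IsLocalRing.map_maximalIdeal_of_surjective _ Ideal.Quotient.mk_surjective).symm

theorem isUnit_toL {a : R} (ha : a ∉ q) : IsUnit (toL J q a) :=
  (IsLocalization.map_units (Localization.AtPrime q) (⟨a, ha⟩ : q.primeCompl)).map
    (Ideal.Quotient.mk _)

theorem toL_mem_mQ (h : J ≤ q) {a : R} : toL J q a ∈ mQ J q ↔ a ∈ q := by
  have := isLocalRing_LQ h
  refine ⟨fun h1 => by_contra fun h2 => ?_, Ideal.mem_map_of_mem _⟩
  rw [← maximalIdeal_LQ] at h1
  exact h1 (isUnit_toL h2)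

theorem toL_eq_zero {a : R} (ha : a ∈ J) : toL J q a = 0 :=
  Ideal.Quotient.eq_zero_iff_mem.2 (Ideal.mem_map_of_mem _ ha)

/-- Every element of the local ring is a fraction. -/
theorem exists_toL (u : LQ J q) : ∃ a b : R, b ∉ q ∧ u * toL J q b = toL J q a := by
  obtain ⟨u, rfl⟩ := Ideal.Quotient.mk_surjective u
  obtain ⟨⟨a, b⟩, h⟩ := IsLocalization.surj q.primeCompl u
  exact ⟨a, b, b.2, congrArg (Ideal.Quotient.mk _) h⟩

/-- Membership in an extended ideal. -/
theorem toL_mem_map {J' : Ideal R} {a : R} :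
    toL J q a ∈ J'.map (toL J q) ↔ ∃ s, s ∉ q ∧ s * a ∈ J ⊔ J' := by
  rw [toL, ← Ideal.map_map, RingHom.comp_apply, ← Ideal.mem_comap, Ideal.comap_map_quotientMk,
    ← Ideal.map_sup, IsLocalization.algebraMap_mem_map_algebraMap_iff q.primeCompl]
  exact ⟨fun ⟨s, h1, h2⟩ => ⟨s, h1, h2⟩, fun ⟨s, h1, h2⟩ => ⟨s, h1, h2⟩⟩

theorem isDomain_LQ [J.IsPrime] (h : J ≤ q) : IsDomain (LQ J q) := by
  have : (J.map (algebraMap R (Localization.AtPrime q))).IsPrime :=
    IsLocalization.isPrime_of_isPrime_disjoint q.primeCompl _ J inferInstance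
      (Set.disjoint_left.2 fun a h1 h2 => h1 (h h2))
  exact Ideal.Quotient.isDomain _

theorem toL_eq_zero_iff [hJ : J.IsPrime] (h : J ≤ q) {a : R} : toL J q a = 0 ↔ a ∈ J := by
  refine ⟨fun h1 => ?_, toL_eq_zero⟩
  have h2 : toL J q a ∈ (⊥ : Ideal R).map (toL J q) := h1 ▸ zero_mem _
  obtain ⟨s, h3, h4⟩ := toL_mem_map.1 h2
  rw [sup_bot_eq] at h4
  exact (hJ.mem_or_mem h4).resolve_left fun h5 => h3 (h h5)

theorem dim_LQ (k : Type) [Field k] [Algebra k R] [Algebra.FiniteType k R] [J.IsPrime]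
    (h : J ≤ q) : ringKrullDim (LQ J q) + ringKrullDim (R ⧸ q) = ringKrullDim (R ⧸ J) := by
  have hd : Disjoint (q.primeCompl : Set R) J := Set.disjoint_left.2 fun a h1 h2 => h1 (h h2)
  have : (J.map (algebraMap R (Localization.AtPrime q))).IsPrime :=
    IsLocalization.isPrime_of_isPrime_disjoint q.primeCompl _ J inferInstance hd
  have h1 := MP_638e8a_ag.Cyc.Dim0.dim_loc (k := k) q
    (J.map (algebraMap R (Localization.AtPrime q)))
  rwa [show Ideal.comap _ _ = J from
    IsLocalization.under_map_of_isPrime_disjoint q.primeCompl _ inferInstance hd] at h1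

end Len

section Proj

variable {k : Type} [Field k] {N : ℕ} {T : Type} [CommRing T] [Algebra k T]
  (y : Fin (N + 1) → T)

theorem grad_add (f g : PP k N) (δ : Fin (N + 1) → T) :
    grad y (f + g) δ = grad y f δ + grad y g δ := by
  simp [grad, add_mul, Finset.sum_add_distrib]

theorem grad_mul (f g : PP k N) (δ : Fin (N + 1) → T) :
    grad y (f * g) δ = aeval y f * grad y g δ + aeval y g * grad y f δ := by
  simp [grad, add_mul, Finset.sum_add_distrib, Finset.mul_sum, mul_assoc]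

theorem grad_C (c : k) (δ : Fin (N + 1) → T) : grad y (C c : PP k N) δ = 0 := by simp [grad]

theorem grad_X (j : Fin (N + 1)) (δ : Fin (N + 1) → T) : grad y (X j : PP k N) δ = δ j := by
  simp [grad, Pi.single_apply, apply_ite]

theorem grad_add_right (f : PP k N) (δ δ' : Fin (N + 1) → T) :
    grad y f (δ + δ') = grad y f δ + grad y f δ' := by
  simp [grad, mul_add, Finset.sum_add_distrib]

theorem grad_smul_right (f : PP k N) (c : T) (δ : Fin (N + 1) → T) :
    grad y f (c • δ) = c * grad y f δ := by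
  simp [grad, Finset.mul_sum, mul_left_comm]

/-- Euler's identity. -/
theorem grad_self {f : PP k N} {d : ℕ} (hf : f.IsHomogeneous d) : grad y f y = d * aeval y f := by
  have h := congrArg (aeval y) hf.sum_X_mul_pderiv
  simpa [grad, mul_comm] using h

theorem grad_scale {f : PP k N} {d : ℕ} (hf : f.IsHomogeneous d) (u : T) (δ : Fin (N + 1) → T) :
    grad (fun i => u * y i) f δ = u ^ (d - 1) * grad y f δ := by
  simp only [grad, Finset.mul_sum, aeval_smul hf.pderiv, mul_assoc]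

theorem on_span {S : Set (PP k N)} : On (Ideal.span S) y ↔ ∀ f ∈ S, aeval y f = 0 :=
  ⟨fun h _ hf => h _ (Ideal.subset_span hf), fun h _ hf =>
    (Ideal.span_le (I := RingHom.ker (aeval y : PP k N →ₐ[k] T))).2 h hf⟩

theorem on_sup {I J : Ideal (PP k N)} : On (I ⊔ J) y ↔ On I y ∧ On J y :=
  ⟨fun h => ⟨fun _ hf => h _ (Ideal.mem_sup_left hf), fun _ hf => h _ (Ideal.mem_sup_right hf)⟩,
    fun h _ hf => (sup_le (α := Ideal _) (c := RingHom.ker (aeval y : PP k N →ₐ[k] T)) h.1 h.2) hf⟩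

variable {Ω : Type} [Field Ω] [Algebra k Ω] {x : Fin (N + 1) → Ω}

theorem mem_Tan {I : Ideal (PP k N)} {δ : Fin (N + 1) → Ω} :
    δ ∈ Tan I x ↔ ∀ f ∈ I, grad x f δ = 0 := Iff.rfl

theorem Tan_anti {I J : Ideal (PP k N)} (h : I ≤ J) : Tan J x ≤ Tan I x :=
  fun _ hδ f hf => hδ f (h hf)

/-- The tangent space is cut out by the differentials of generators. -/
theorem mem_Tan_span {S : Set (PP k N)} (hx : On (Ideal.span S) x) {δ : Fin (N + 1) → Ω} :
    δ ∈ Tan (Ideal.span S) x ↔ ∀ f ∈ S, grad x f δ = 0 := by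
  refine ⟨fun h f hf => h f (Ideal.subset_span hf), fun h f hf => ?_⟩
  induction hf using Submodule.span_induction with
  | mem f hf => exact h f hf
  | zero => simp [grad]
  | add f g _ _ h1 h2 => rw [grad_add, h1, h2, add_zero]
  | smul c f hf h1 => rw [smul_eq_mul, grad_mul, h1, hx f hf, mul_zero, zero_mul, add_zero]

theorem self_mem_Tan {I : Ideal (PP k N)} (hI : Hom I) (hx : On I x) : x ∈ Tan I x := by
  obtain ⟨S, h1, rfl⟩ := hI.exists_gen
  refine (mem_Tan_span hx).2 fun f hf => ?_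
  obtain ⟨d, hd⟩ := h1 f hf
  rw [grad_self x hd, hx f (Ideal.subset_span hf), mul_zero]

theorem on_scale {I : Ideal (PP k N)} (hI : Hom I) {u : Ω} (hu : u ≠ 0) :
    On I (fun i => u * x i) ↔ On I x := by
  have h := vanw_scale (k := k) (w := 1) (Ne.isUnit hu) x
  simp only [Pi.one_apply, pow_one] at h
  rw [hI.on_iff, hI.on_iff, van, h]

theorem Tan_scale {I : Ideal (PP k N)} (hI : Hom I) (hx : On I x) {u : Ω} (hu : u ≠ 0) :
    Tan I (fun i => u * x i) = Tan I x := by
  have hx' := (on_scale hI hu).2 hx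
  obtain ⟨S, h1, rfl⟩ := hI.exists_gen
  ext δ
  rw [mem_Tan_span hx, mem_Tan_span hx']
  refine forall₂_congr fun f hf => ?_
  obtain ⟨d, hd⟩ := h1 f hf
  rw [grad_scale x hd, mul_eq_zero, or_iff_right (pow_ne_zero _ hu)]

theorem sing_scale {I : Ideal (PP k N)} (hI : Hom I) (hx : On I x) {u : Ω} (hu : u ≠ 0)
    {a : PP k N} {d : ℕ} (ha : a.IsHomogeneous d) : Sing I (fun i => u * x i) a ↔ Sing I x a := by
  simp only [Sing, Tan_scale hI hx hu, aeval_smul ha, grad_scale x ha, mul_eq_zero,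
    or_iff_right (pow_ne_zero _ hu)]

theorem sing_of_mem {I : Ideal (PP k N)} (hx : On I x) {a : PP k N} (ha : a ∈ I) : Sing I x a :=
  ⟨hx a ha, fun _ hδ => hδ a ha⟩

/-- The forms that are singular at `x`. -/
def singSub (I : Ideal (PP k N)) (x : Fin (N + 1) → Ω) : Submodule k (PP k N) where
  carrier := {a | Sing I x a}
  add_mem' ha hb := ⟨by rw [map_add, ha.1, hb.1, add_zero], fun δ hδ => by
    rw [grad_add, ha.2 δ hδ, hb.2 δ hδ, add_zero]⟩
  zero_mem' := ⟨map_zero _, fun _ _ => by simp [grad]⟩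
  smul_mem' c a ha := ⟨by rw [map_smul, ha.1, smul_zero], fun δ hδ => by
    rw [smul_eq_C_mul, grad_mul, ha.2 δ hδ, grad_C, mul_zero, mul_zero, add_zero]⟩

end Proj

end Pool.Agent.P.MP_12d50c_ag
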