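import Mathlib

/-!
Bloch's cycle complex and higher Chow groups of a scheme. Integral closed subschemes are
identified with their generic points; `z ≤ w` means that `z` lies in the closure of `w`, and
`coheight w` is the codimension of the closure of `w`.
-/

open CategoryTheory AlgebraicGeometry Limits MvPolynomial Order

namespace Pool.Agent.P.MP_12d50c_ag

/-- The coordinate ring `ℤ[t_0, ..., t_n] / (t_0 + ... + t_n - 1)` of the simplex. -/
abbrev SimplexRing (n : ℕ) : Type :=
  MvPolynomial (Fin (n + 1)) ℤ ⧸ Ideal.span {(∑ i, X i - 1 : MvPolynomial (Fin (n + 1)) ℤ)}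

/-- The ring map `t_j ↦ ∑ t_i`, the sum over all `i` with `g i = j`. For injective `g` it is the
restriction to the face on which the coordinates outside the image of `g` vanish. -/
noncomputable def simplexMap {m n : ℕ} (g : Fin (m + 1) → Fin (n + 1)) :
    SimplexRing n →+* SimplexRing m :=
  Ideal.quotientMap _ (aeval fun j => ∑ i with g i = j, X i).toRingHom (by
    rw [Ideal.span_singleton_le_iff_mem, Ideal.mem_comap]
    refine Ideal.subset_span ?_
    simp [Finset.sum_fiberwise])

/-- The scheme `X × Δ^n`. -/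
noncomputable def XD (X : Scheme.{0}) (n : ℕ) : Scheme.{0} :=
  X ⨯ Spec (CommRingCat.of (SimplexRing n))

/-- The map `X × Δ^m → X × Δ^n` induced by `g`. -/
noncomputable def face (X : Scheme.{0}) {m n : ℕ} (g : Fin (m + 1) → Fin (n + 1)) :
    XD X m ⟶ XD X n :=
  prod.map (𝟙 X) (Spec.map (CommRingCat.ofHom (simplexMap g)))

/-- The subvariety `w` of `X × Δ^n` has codimension `r` and meets all faces properly: every point
of its intersection with `X × F` has codimension at least `r` in `X × F`. -/
def Admissible (X : Scheme.{0}) (r n : ℕ) (w : XD X n) : Prop :=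
  coheight w = r ∧ ∀ (m : ℕ) (g : Fin (m + 1) ↪o Fin (n + 1)) (z : XD X m),
    face X g z ≤ w → (r : ℕ∞) ≤ coheight z

/-- The group `Z^r(X, n)`. -/
noncomputable def Zr (X : Scheme.{0}) (r n : ℕ) : AddSubgroup (XD X n →₀ ℤ) :=
  (Finsupp.supported ℤ ℤ {w | Admissible X r n w}).toAddSubgroup

/-- The ideal of the subvariety `w` in the local ring at `x` (the unit ideal if `x` does not lie
on `w`). -/
noncomputable def idealOf {Y : Scheme.{0}} (x w : Y) : Ideal (Y.presheaf.stalk x) :=
  ⨅ h : w ⤳ x, (IsLocalRing.maximalIdeal (Y.presheaf.stalk w)).comap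
    (Y.presheaf.stalkSpecializes h).hom

/-- The length of the local ring at `z` of the scheme-theoretic inverse image of the subvariety
`w` under `f`. -/
noncomputable def mult {Y Y' : Scheme.{0}} (f : Y ⟶ Y') (w : Y') (z : Y) : ℕ :=
  (Module.length (Y.presheaf.stalk z)
    (Y.presheaf.stalk z ⧸ (idealOf (f z) w).map (f.stalkMap z).hom)).toNat

open Classical in
/-- The differential: the coefficient at a codimension `r` subvariety `z` of the alternating sum
of the pull-backs along the faces `t_j = 0`. -/
noncomputable def bd (X : Scheme.{0}) (r n : ℕ) : (XD X (n + 1) →₀ ℤ) →ₗ[ℤ] (XD X n → ℤ) :=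
  Finsupp.linearCombination ℤ fun w z => if coheight z = r then
    ∑ j : Fin (n + 2), (-1) ^ (j : ℕ) * (mult (face X j.succAbove) w z : ℤ) else 0

/-- Cycles of the complex `Z^r(X, •)`. -/
noncomputable def cycles (X : Scheme.{0}) (r : ℕ) : (n : ℕ) → AddSubgroup (XD X n →₀ ℤ)
  | 0 => Zr X r 0
  | n + 1 => Zr X r (n + 1) ⊓ (bd X r n).toAddMonoidHom.ker

/-- Boundaries of the complex `Z^r(X, •)`. -/
noncomputable def boundaries (X : Scheme.{0}) (r n : ℕ) : AddSubgroup (XD X n →₀ ℤ) :=
  ((Zr X r (n + 1)).map (bd X r n).toAddMonoidHom).comap Finsupp.coeFnAddHom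

/-- Bloch's higher Chow group `CH^r(X, n)`: cycles modulo boundaries. -/
abbrev CH (X : Scheme.{0}) (r n : ℕ) : Type :=
  cycles X r n ⧸ (boundaries X r n).addSubgroupOf (cycles X r n)

end Pool.Agent.P.MP_12d50c_ag
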