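import Pool.Agent.P.MP_12d50c_ag.If4
import Pool.Agent.P.MP_12d50c_ag.Bloch
import Pool.Agent.P.MP_638e8a_ag.ChCoord0
import Pool.Agent.P.MP_638e8a_ag.ChDim

/-!
Coordinate systems on schemes.
-/

open CategoryTheory AlgebraicGeometry IsLocalRing MvPolynomial
open Pool.Agent.P.MP_638e8a_ag.Cyc (St Rf sp ev stm primeOf sp_germ sp_refl)

namespace Pool.Agent.P.MP_12d50c_ag

variable {Y Y' : Scheme.{0}}

section

variable {F : Type} [CommRing F]

/-- Constants as germs. -/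
noncomputable def cstk (κ : Y ⟶ Spec (.of F)) (y : Y) : F →+* St y :=
  (Y.presheaf.germ ⊤ y trivial).hom.comp
    (κ.appTop.hom.comp (Scheme.ΓSpecIso (CommRingCat.of F)).inv.hom)

/-- The local rings as algebras. -/
@[reducible]
noncomputable def algS (κ : Y ⟶ Spec (.of F)) (y : Y) : Algebra F (St y) := (cstk κ y).toAlgebra

/-- The residue fields as algebras. -/
@[reducible]
noncomputable def algR (κ : Y ⟶ Spec (.of F)) (y : Y) : Algebra F (Rf y) :=
  ((ev (le_refl y)).comp (cstk κ y)).toAlgebra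

theorem idealOf_eq (x v : Y) : idealOf x v = primeOf x v := rfl

theorem sp_cstk (κ : Y ⟶ Spec (.of F)) {x y : Y} (h : x ≤ y) (c : F) :
    Pool.Agent.P.MP_638e8a_ag.Cyc.sp h (cstk κ x c) = cstk κ y c := sp_germ (U := ⊤) h trivial _

theorem stm_cstk (f : Y' ⟶ Y) (κ : Y ⟶ Spec (.of F)) (x : Y') (c : F) :
    stm f x (cstk κ (f x) c) = cstk (f ≫ κ) x c := by
  change (f.stalkMap x).hom ((Y.presheaf.germ ⊤ _ _).hom _) = _
  rw [Scheme.Hom.germ_stalkMap_apply]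
  rfl

theorem fromSpecStalk_comp (κ : Y ⟶ Spec (.of F)) (y : Y) :
    Y.fromSpecStalk y ≫ κ = Spec.map (CommRingCat.ofHom (cstk κ y)) := by
  have h : κ = Y.toSpecΓ ≫ Spec.map ((Scheme.ΓSpecIso (CommRingCat.of F)).inv ≫ κ.appTop) := by
    rw [Spec.map_comp, ← Scheme.toSpecΓ_naturality_assoc, ← SpecMap_ΓSpecIso_hom, ← Spec.map_comp,
      Iso.inv_hom_id, Spec.map_id, Category.comp_id]
  conv_lhs => rw [h, Scheme.fromSpecStalk_toSpecΓ_assoc, ← Spec.map_comp]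
  rfl

theorem comp_eq_cstk {R : CommRingCat.{0}} [IsLocalRing R] (κ : Y ⟶ Spec (.of F))
    (a : Spec R ⟶ Y) : a ≫ κ =
      Spec.map (CommRingCat.ofHom ((Scheme.stalkClosedPointTo a).hom.comp (cstk κ _))) := by
  conv_lhs => rw [← Scheme.Spec_stalkClosedPointTo_fromSpecStalk a, Category.assoc,
    fromSpecStalk_comp, ← Spec.map_comp]
  rfl

end

variable {F : Type} [Field F]

/-- Weighted homogeneous coordinates that identify the points of `Y` with values in local domains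
with the solutions of `J`. -/
structure CS (κ : Y ⟶ Spec (.of F)) {τ : Type} (w : τ → ℕ) (J : Ideal (MvPolynomial τ F)) where
  s : ∀ y : Y, τ → St y
  hom : WHom w J
  unit : ∀ {x y : Y} (h : x ≤ y), ∃ c : (St y)ˣ, ∀ i,
    s y i = c ^ w i * Pool.Agent.P.MP_638e8a_ag.Cyc.sp h (s x i)
  bpf : ∀ y, ∃ i, w i = 1 ∧ IsUnit (s y i)
  on : ∀ y, ∀ f ∈ J, ev (le_refl y) (eval₂ (cstk κ y) (s y) f) = 0
  sep : ∀ (R : CommRingCat.{0}) [IsLocalRing R] (a b : Spec R ⟶ Y) (e : Rˣ), a ≫ κ = b ≫ κ →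
    (∀ i, (Scheme.stalkClosedPointTo a).hom (s _ i) =
      e ^ w i * (Scheme.stalkClosedPointTo b).hom (s _ i)) → a = b
  ex : ∀ (R : CommRingCat.{0}) [IsLocalRing R] [IsDomain R] (c : F →+* R) (x : τ → R),
    (∃ i, w i = 1 ∧ IsUnit (x i)) → (∀ f ∈ J, eval₂ c x f = 0) →
    ∃ (a : Spec R ⟶ Y) (e : Rˣ), a ≫ κ = Spec.map (CommRingCat.ofHom c) ∧
      ∀ i, (Scheme.stalkClosedPointTo a).hom (s _ i) = e ^ w i * x i

namespace CS

variable {κ : Y ⟶ Spec (.of F)} {τ : Type} {w : τ → ℕ} {J : Ideal (MvPolynomial τ F)}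
  (c : CS κ w J)

/-- The coordinates of `y` in its residue field. -/
noncomputable def co (y : Y) : τ → Rf y := fun i => ev (le_refl y) (c.s y i)

/-- The homogeneous prime ideal of `y`. -/
noncomputable def pt (y : Y) : Ideal (MvPolynomial τ F) :=
  letI := algR κ y
  vanw F w (c.co y)

instance (y : Y) : (c.pt y).IsPrime :=
  letI := algR κ y
  inferInstanceAs (vanw F w (c.co y)).IsPrime

theorem sep' {R : Type} [CommRing R] [IsLocalRing R] {y y' : Y} (ψ : St y →+* R)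
    (ψ' : St y' →+* R) [h : IsLocalHom ψ] [h' : IsLocalHom ψ'] (e : Rˣ)
    (h1 : ψ.comp (cstk κ y) = ψ'.comp (cstk κ y'))
    (h2 : ∀ i, ψ (c.s y i) = e ^ w i * ψ' (c.s y' i)) :
    ∃ h : y = y', ψ = ψ'.comp (Pool.Agent.P.MP_638e8a_ag.Cyc.sp h.le) := by
  let E := SpecToEquivOfLocalRing Y (CommRingCat.of R)
  let v : (Σ x : Y, {f : Y.presheaf.stalk x ⟶ CommRingCat.of R // IsLocalHom f.hom}) → τ → R :=
    fun xf i => xf.2.1.hom (c.s xf.1 i)
  have h3 := c.sep (.of R) (E.symm ⟨y, CommRingCat.ofHom ψ, h⟩)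
    (E.symm ⟨y', CommRingCat.ofHom ψ', h'⟩) e ?_ fun i => ?_
  · obtain ⟨rfl, h5⟩ := Sigma.mk.inj_iff.1 (E.symm.injective h3)
    have h6 : ψ = ψ' := congrArg (fun f => f.1.hom) (eq_of_heq h5)
    exact ⟨rfl, RingHom.ext fun a => by rw [RingHom.comp_apply, sp_refl, h6]⟩
  · change (Spec.map _ ≫ _) ≫ κ = (Spec.map _ ≫ _) ≫ κ
    rw [Category.assoc, Category.assoc, fromSpecStalk_comp, fromSpecStalk_comp, ← Spec.map_comp,
      ← Spec.map_comp]
    exact congrArg (fun f => Spec.map (CommRingCat.ofHom f)) h1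
  · change v (E (E.symm _)) i = e ^ w i * v (E (E.symm _)) i
    rw [E.apply_symm_apply, E.apply_symm_apply]
    exact h2 i

theorem ex' {R : Type} [CommRing R] [IsLocalRing R] [IsDomain R] (k : F →+* R) (x : τ → R)
    (h1 : ∃ i, w i = 1 ∧ IsUnit (x i)) (h2 : ∀ f ∈ J, eval₂ k x f = 0) :
    ∃ (y : Y) (ψ : St y →+* R) (e : Rˣ), IsLocalHom ψ ∧ ψ.comp (cstk κ y) = k ∧
      ∀ i, ψ (c.s y i) = e ^ w i * x i := by
  obtain ⟨a, e, h3, h4⟩ := c.ex (.of R) k x h1 h2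
  refine ⟨_, (Scheme.stalkClosedPointTo a).hom, e, inferInstance, ?_, h4⟩
  exact congrArg (fun f => f.hom) (Spec.map_injective ((comp_eq_cstk κ a).symm.trans h3))

end CS

end Pool.Agent.P.MP_12d50c_ag
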