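import Mathlib

/-!
Algebraic definitions: weighted homogeneous vanishing ideals, local rings, lengths, smooth
projective surfaces and curves in coordinates.
-/

open MvPolynomial

namespace Pool.Agent.P.MP_12d50c_ag

section W

variable (k : Type) [Field k] {τ : Type} (w : τ → ℕ)

/-- The ideal generated by the weighted homogeneous polynomials vanishing at `ξ`. -/
noncomputable def vanw {D : Type} [CommRing D] [Algebra k D] (ξ : τ → D) :
    Ideal (MvPolynomial τ k) :=
  RingHom.ker (aeval fun i => Polynomial.C (ξ i) * Polynomial.X ^ w i :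
    MvPolynomial τ k →ₐ[k] Polynomial D)

instance {D : Type} [CommRing D] [IsDomain D] [Algebra k D] (ξ : τ → D) :
    (vanw k w ξ).IsPrime := RingHom.ker_isPrime _

variable {k}

/-- Weighted homogeneous ideals. -/
def WHom (I : Ideal (MvPolynomial τ k)) : Prop :=
  ∀ f ∈ I, ∀ d, weightedHomogeneousComponent w d f ∈ I

variable {L : Type} [Field L] [Algebra k L]

/-- The local ring at `q`, inside the field `L`. -/
noncomputable def locw (ξ : τ → L) (q : Ideal (MvPolynomial τ k)) [hq : q.IsPrime] :
    Subalgebra k L where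
  carrier := {u | ∃ d g h, IsWeightedHomogeneous w g d ∧ IsWeightedHomogeneous w h d ∧ h ∉ q ∧
    u * aeval ξ h = aeval ξ g}
  mul_mem' := by
    rintro u u' ⟨d, g, h, h1, h2, h3, h4⟩ ⟨d', g', h', h1', h2', h3', h4'⟩
    refine ⟨d + d', g * g', h * h', h1.mul h1', h2.mul h2',
      fun hm => (hq.mem_or_mem hm).elim h3 h3', ?_⟩
    rw [map_mul, map_mul, ← h4, ← h4']
    ring
  add_mem' := by
    rintro u u' ⟨d, g, h, h1, h2, h3, h4⟩ ⟨d', g', h', h1', h2', h3', h4'⟩
    refine ⟨d + d', g * h' + h * g', h * h', (h1.mul h2').add (h2.mul h1'), h2.mul h2',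
      fun hm => (hq.mem_or_mem hm).elim h3 h3', ?_⟩
    rw [map_add, map_mul, map_mul, map_mul, ← h4, ← h4']
    ring
  algebraMap_mem' c := ⟨0, C c, 1, isWeightedHomogeneous_C w c, isWeightedHomogeneous_one k w,
    fun h => hq.ne_top ((Ideal.eq_top_iff_one _).2 h), by simp⟩

variable (k) in
/-- `L` consists of quotients of forms of the same degree. -/
def Gen (ξ : τ → L) : Prop :=
  ∀ u : L, ∃ (d : ℕ) (g h : MvPolynomial τ k), IsWeightedHomogeneous w g d ∧
    IsWeightedHomogeneous w h d ∧ aeval ξ h ≠ 0 ∧ u * aeval ξ h = aeval ξ g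

/-- The prime `q` lies on the variety with generic point `ξ`, in the chart `i`. -/
structure Ch (ξ : τ → L) (q : Ideal (MvPolynomial τ k)) (i : τ) : Prop where
  le : vanw k w ξ ≤ q
  wt : w i = 1
  nm : X i ∉ q

variable {w}

theorem Ch.ne {ξ : τ → L} {q : Ideal (MvPolynomial τ k)} {i : τ} (h : Ch w ξ q i) : ξ i ≠ 0 :=
  fun h0 => h.nm (h.le (by simp [vanw, RingHom.mem_ker, h0]))

/-- Dehomogenization in the chart `i`. -/
noncomputable def germ {ξ : τ → L} {q : Ideal (MvPolynomial τ k)} [hq : q.IsPrime] {i : τ}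
    (h : Ch w ξ q i) : MvPolynomial τ k →ₐ[k] locw w ξ q :=
  aeval fun j => ⟨ξ j / ξ i ^ w j, w j, X j, X i ^ w j, isWeightedHomogeneous_X k w j,
    by simpa [h.wt] using (isWeightedHomogeneous_X k w i).pow (w j),
    fun hm => h.nm (hq.mem_of_pow_mem _ hm), by simp [h.ne]⟩

end W

section Len

variable {R : Type} [CommRing R]

/-- The length of `R / J`. -/
noncomputable def lq (J : Ideal R) : ℕ∞ := Module.length R (R ⧸ J)

/-- The local ring of `V(J)` at `q`. -/
abbrev LQ (J q : Ideal R) [q.IsPrime] : Type :=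
  Localization.AtPrime q ⧸ J.map (algebraMap R (Localization.AtPrime q))

/-- The map to the local ring. -/
noncomputable def toL (J q : Ideal R) [q.IsPrime] : R →+* LQ J q :=
  (Ideal.Quotient.mk _).comp (algebraMap R (Localization.AtPrime q))

/-- The length of the local ring of `V(J)` at `q`. -/
noncomputable def len (J q : Ideal R) [q.IsPrime] : ℕ∞ :=
  Module.length (Localization.AtPrime q) (LQ J q)

end Len

section Proj

/-- Polynomials in `N + 1` variables. -/
abbrev PP (k : Type) [CommRing k] (N : ℕ) : Type := MvPolynomial (Fin (N + 1)) k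

variable {k : Type} [Field k] {N : ℕ}

variable (k) in
/-- The homogeneous ideal of a point. -/
noncomputable abbrev van {D : Type} [CommRing D] [Algebra k D] (ξ : Fin (N + 1) → D) :
    Ideal (PP k N) := vanw k 1 ξ

/-- Homogeneous ideals. -/
abbrev Hom (I : Ideal (PP k N)) : Prop := WHom 1 I

/-- Relevant ideals. -/
def Rel (I : Ideal (PP k N)) : Prop := ∃ i, X i ∉ I

/-- Points of projective space, normalized so that the first nonzero coordinate is one. -/
def NP (k : Type) [Field k] (N : ℕ) : Type :=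
  {y : Fin (N + 1) → k // ∃ i, y i = 1 ∧ ∀ j < i, y j = 0}

/-- The first nonzero coordinate. -/
noncomputable def NP.piv (y : NP k N) : Fin (N + 1) := y.2.choose

/-- `y` is a zero of `I`. -/
def On (I : Ideal (PP k N)) {Ω : Type} [CommRing Ω] [Algebra k Ω] (y : Fin (N + 1) → Ω) : Prop :=
  ∀ f ∈ I, aeval y f = 0

/-- The differential of `f` at `y`. -/
noncomputable def grad {Ω : Type} [CommRing Ω] [Algebra k Ω] (y : Fin (N + 1) → Ω) (f : PP k N)
    (δ : Fin (N + 1) → Ω) : Ω := ∑ j, aeval y (pderiv j f) * δ j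

/-- The tangent space of the affine cone. -/
noncomputable def Tan (I : Ideal (PP k N)) {Ω : Type} [Field Ω] [Algebra k Ω]
    (y : Fin (N + 1) → Ω) : Submodule Ω (Fin (N + 1) → Ω) where
  carrier := {δ | ∀ f ∈ I, grad y f δ = 0}
  add_mem' {a b} ha hb f hf := by
    have h1 := ha f hf
    have h2 := hb f hf
    simp only [grad, Pi.add_apply, mul_add, Finset.sum_add_distrib] at h1 h2 ⊢
    rw [h1, h2, add_zero]
  zero_mem' f _ := by simp [grad]
  smul_mem' c a ha f hf := by
    have h1 := ha f hf
    simp only [grad, Pi.smul_apply, smul_eq_mul, mul_left_comm _ c, ← Finset.mul_sum] at h1 ⊢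
    rw [h1, mul_zero]

/-- The hypersurface section `a = 0` passes through `y` and is singular there. -/
def Sing (I : Ideal (PP k N)) {Ω : Type} [Field Ω] [Algebra k Ω] (y : Fin (N + 1) → Ω)
    (a : PP k N) : Prop := aeval y a = 0 ∧ ∀ δ ∈ Tan I y, grad y a δ = 0

/-- The hypersurface section `a = 0` is smooth. -/
def Good (I : Ideal (PP k N)) (a : PP k N) : Prop := ∀ y : NP k N, On I y.1 → ¬ Sing I y.1 a

/-- A smooth projective variety of dimension `d`. -/
structure IsSm (d : ℕ) (I : Ideal (PP k N)) : Prop where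
  prime : I.IsPrime
  hom : Hom I
  dim : ringKrullDim (PP k N ⧸ I) = (d + 1 : ℕ)
  le : ∀ (Ω : Type) [Field Ω] [Algebra k Ω] (y : Fin (N + 1) → Ω), y ≠ 0 → On I y →
    Module.finrank Ω (Tan I y) ≤ d + 1

/-- A smooth projective surface. -/
structure IsSurf (I : Ideal (PP k N)) : Prop extends IsSm 2 I where
  ge : ∀ (Ω : Type) [Field Ω] [Algebra k Ω] (y : Fin (N + 1) → Ω), y ≠ 0 → On I y →
    3 ≤ Module.finrank Ω (Tan I y)

/-- The common zeros of `h` and `g` on `V(I)`. -/
def Zs (I : Ideal (PP k N)) (h g : PP k N) : Set (NP k N) :=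
  {y | On I y.1 ∧ aeval y.1 h = 0 ∧ aeval y.1 g = 0}

/-- `h` and `g` are forms without a common component on `V(I)`. -/
structure Cop (I : Ideal (PP k N)) (h g : PP k N) : Prop where
  hl : ∃ e, h.IsHomogeneous e
  hr : ∃ e, g.IsHomogeneous e
  nl : h ∉ I
  nr : g ∉ I
  fin : (Zs I h g).Finite

/-- The local intersection number. -/
noncomputable def inter (I : Ideal (PP k N)) (y : NP k N) (h g : PP k N) : ℕ∞ :=
  len (I ⊔ Ideal.span {h, g}) (van k y.1)

/-- The order of `g` at `y` on a curve. -/
noncomputable def ordI (p : Ideal (PP k N)) (y : NP k N) (g : PP k N) : ℕ∞ :=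
  len (p ⊔ Ideal.span {g}) (van k y.1)

/-- The intersection cycle, paired with `χ`. -/
noncomputable def wsum (I : Ideal (PP k N)) (χ : NP k N → ℚ) (h g : PP k N) : ℚ :=
  ∑ᶠ y, χ y * (inter I y h g).toNat

/-- The global intersection number. -/
noncomputable def deg (I : Ideal (PP k N)) (h g : PP k N) : ℕ := ∑ᶠ y, (inter I y h g).toNat

/-- The degree of the divisor of `g` on a curve. -/
noncomputable def degC (p : Ideal (PP k N)) (g : PP k N) : ℕ := ∑ᶠ y, (ordI p y g).toNat

/-- The properties of the symbol attached to a functional on the Gersten complex. -/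
structure IsSymbol (I : Ideal (PP k N)) (B : PP k N → PP k N → ℚ) : Prop where
  mul_left : ∀ h h' g, Cop I h g → Cop I h' g → B (h * h') g = B h g + B h' g
  mul_right : ∀ h g g', Cop I h g → Cop I h g' → B h (g * g') = B h g + B h g'
  congr : ∀ h g g' e, Cop I h g → Cop I h g' → g.IsHomogeneous e → g'.IsHomogeneous e →
    (∀ y : NP k N, On I y.1 → aeval y.1 h = 0 → aeval y.1 g = aeval y.1 g') → B h g = B h g'
  triple : ∀ a b c e, a.IsHomogeneous e → b.IsHomogeneous e → c.IsHomogeneous e →
    Cop I a b → Cop I b c → Cop I c a → B a b + B b c + B c a = B a c + B b a + B c b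

/-- Monomials of degree `m`. -/
def Mon (N m : ℕ) : Type := {s : Fin (N + 1) →₀ ℕ // s.degree = m}

instance (N m : ℕ) : Finite (Mon N m) :=
  ((Finsupp.finite_of_degree_le (σ := Fin (N + 1)) m).subset fun _ hs => le_of_eq hs).to_subtype

noncomputable instance (N m : ℕ) : Fintype (Mon N m) := Fintype.ofFinite _

/-- The form of degree `m` with given coefficients. -/
noncomputable def form {T : Type} [CommRing T] {m : ℕ} (c : Mon N m → T) : PP T N :=
  ∑ s, monomial s.1 (c s)

/-- The form of degree `m` with given coefficients in a subfield. -/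
noncomputable abbrev formF {F : Subfield k} {m : ℕ} (c : Mon N m → F) : PP k N :=
  form fun s => (c s : k)

/-- Every element lies in a finite field. -/
def LocFin (k : Type) [Field k] (p : ℕ) : Prop := ∀ x : k, ∃ s, 0 < s ∧ x ^ p ^ s = x

/-- `F` is the subfield with `r ^ 2` elements, where `r = p ^ s`. -/
structure IsFq (p s : ℕ) (F : Subfield k) : Prop where
  mem : ∀ x, x ∈ F ↔ x ^ (p ^ s) ^ 2 = x
  card : Nat.card F = (p ^ s) ^ 2

/-- Rational points. -/
def RatPt (F : Subfield k) (y : NP k N) : Prop := ∀ i, y.1 i ∈ F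

/-- Polynomials with coefficients in `F`. -/
def RatP (F : Subfield k) (f : PP k N) : Prop := ∀ s, coeff s f ∈ F

/-- Ideals generated by polynomials with coefficients in `F`. -/
def RatI (F : Subfield k) (I : Ideal (PP k N)) : Prop := I ≤ Ideal.span {f | f ∈ I ∧ RatP F f}

/-- The hypersurfaces `a = 0`, `b = 0` meet transversally in rational points. -/
def Split (I : Ideal (PP k N)) (F : Subfield k) (a b : PP k N) : Prop :=
  Cop I a b ∧ ∀ y ∈ Zs I a b, RatPt F y ∧ inter I y a b = 1

end Proj

end Pool.Agent.P.MP_12d50c_ag
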