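import Pool.Agent.P.MP_12d50c_ag.B1
import Pool.Agent.P.MP_6f117a_ag.Curve

/-!
Statements, part 1: local rings, Nullstellensatz, intersection numbers, Bertini, curves.
-/

open MvPolynomial IsLocalRing
open Pool.Agent.P.MP_6f117a_ag (Place FF Model Reg)
open scoped IntermediateField

namespace Pool.Agent.P.MP_12d50c_ag

/-- Generic points. -/
def S_EX : Prop := ∀ (k : Type) [Field k] (τ : Type) (w : τ → ℕ) (q : Ideal (MvPolynomial τ k))
  [q.IsPrime] (i : τ), WHom w q → w i = 1 → X i ∉ q →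
  ∃ (L : Type) (_ : Field L) (_ : Algebra k L) (ξ : τ → L),
    vanw k w ξ = q ∧ ξ i = 1 ∧ Gen k w ξ

/-- Dimension and transcendence degree. -/
def S_DM : Prop := ∀ (k : Type) [Field k] (τ : Type) [Finite τ] (w : τ → ℕ) (L : Type) [Field L]
  [Algebra k L] (ξ : τ → L) (i : τ), Gen k w ξ → w i = 1 → ξ i ≠ 0 →
  ∃ n : ℕ, Algebra.trdeg k L = n ∧
    ringKrullDim (MvPolynomial τ k ⧸ vanw k w ξ) = (n + 1 : ℕ)

/-- The local rings `locw`. -/
def S_LOC : Prop := ∀ (k : Type) [Field k] (τ : Type) [Finite τ] (w : τ → ℕ) (L : Type) [Field L]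
  [Algebra k L] (ξ : τ → L) (q : Ideal (MvPolynomial τ k)) [q.IsPrime] (i : τ) (h : Ch w ξ q i),
  ∃ _ : IsLocalRing (locw w ξ q), IsNoetherianRing (locw w ξ q) ∧
    (∀ f d, IsWeightedHomogeneous w f d → (IsUnit (germ h f) ↔ f ∉ q)) ∧
    (∀ u : locw w ξ q, ∃ d g g', IsWeightedHomogeneous w g d ∧ IsWeightedHomogeneous w g' d ∧
      g' ∉ q ∧ u * germ h g' = germ h g) ∧
    (Gen k w ξ → IsFractionRing (locw w ξ q) L)

/-- Comparison of homogeneous and inhomogeneous localization. -/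
def S_FL : Prop := ∀ (k : Type) [Field k] (τ : Type) [Finite τ] (w : τ → ℕ) (L : Type) [Field L]
  [Algebra k L] (ξ : τ → L) (q : Ideal (MvPolynomial τ k)) [q.IsPrime] (i : τ) (h : Ch w ξ q i),
  WHom w q → ringKrullDim (locw w ξ q) = ringKrullDim (LQ (vanw k w ξ) q) ∧
    ∀ J, WHom w J → lq (J.map (germ h)) = len (vanw k w ξ ⊔ J) q

/-- Regular local rings of dimension two. -/
def S_REG2 : Prop := ∀ (R : Type) [CommRing R] [IsDomain R] [IsLocalRing R] [IsNoetherianRing R],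
  ringKrullDim R = 2 → (∃ x y, maximalIdeal R = Ideal.span {x, y}) →
  (∀ p : Ideal R, p.IsPrime → p ≠ maximalIdeal R → p.IsPrincipal) ∧
  UniqueFactorizationMonoid R ∧
  (∀ a ∈ maximalIdeal R, a ∉ maximalIdeal R ^ 2 →
    ∃ _ : IsDomain (R ⧸ Ideal.span {a}), IsDiscreteValuationRing (R ⧸ Ideal.span {a})) ∧
  ∀ h g g' : R, lq (Ideal.span {h, g * g'}) ≠ ⊤ →
    lq (Ideal.span {h, g * g'}) = lq (Ideal.span {h, g}) + lq (Ideal.span {h, g'})

/-- Linear algebra. -/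
def S_LIN : Prop :=
  (∀ (Ω : Type) [Field Ω] (σ : Type) [Fintype σ] (S : Set (σ → Ω)) (T : Submodule Ω (σ → Ω)),
    (∀ δ, δ ∈ T ↔ ∀ s ∈ S, ∑ j, s j * δ j = 0) →
    (∀ v, v ∈ Submodule.span Ω S ↔ ∀ δ ∈ T, ∑ j, v j * δ j = 0) ∧
      Module.finrank Ω (Submodule.span Ω S) + Module.finrank Ω T = Fintype.card σ) ∧
  (∀ (Ω : Type) [Field Ω] (σ : Type) [Fintype σ] (r : ℕ) (v : Fin r → σ → Ω),
    ¬ LinearIndependent Ω v ↔ ∀ c : Fin r → σ, (Matrix.of fun i j => v i (c j)).det = 0) ∧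
  ∀ (K Ω : Type) [Field K] [Field Ω] [Algebra K Ω] (σ ι : Type) [Fintype σ] (M : ι → σ → K)
    (b : ι → K) (x : σ → Ω), (∀ i, ∑ j, algebraMap K Ω (M i j) * x j = algebraMap K Ω (b i)) →
    (∀ η : σ → Ω, (∀ i, ∑ j, algebraMap K Ω (M i j) * η j = 0) → η = 0) →
    ∀ j, x j ∈ (algebraMap K Ω).range

/-- Local rings at smooth points are regular; singular points of hypersurface sections. -/
def S_REG : Prop := ∀ (k : Type) [Field k] (N : ℕ) (I : Ideal (PP k N)) (y : NP k N),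
  Hom I → On I y.1 →
  (∀ a e, a.IsHomogeneous e →
    (Sing I y.1 a ↔ toL I (van k y.1) a ∈ mQ I (van k y.1) ^ 2)) ∧
  ∀ d, IsSm d I → ringKrullDim (LQ I (van k y.1)) = d ∧ ∃ c : Fin d → Fin (N + 1),
    mQ I (van k y.1) = Ideal.span (Set.range fun j =>
      toL I (van k y.1) (X (c j) - C (y.1 (c j)) * X y.piv))

/-- The dimension of a point; transfer of solutions. -/
def S_NS0 : Prop :=
  (∀ (k : Type) [Field k] (N : ℕ) (y : NP k N), ringKrullDim (PP k N ⧸ van k y.1) = 1) ∧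
  ∀ (k : Type) [Field k] [IsAlgClosed k] (τ : Type) [Finite τ] (S : Set (MvPolynomial τ k))
    (Ω : Type) [Field Ω] [Algebra k Ω] (x : τ → Ω), (∀ f ∈ S, aeval x f = 0) →
    ∃ x' : τ → k, ∀ f ∈ S, aeval x' f = 0

/-- The projective Nullstellensatz. -/
def S_NSP : Prop := ∀ (k : Type) [Field k] [IsAlgClosed k] (N : ℕ),
  (∀ (J : Ideal (PP k N)) (f : PP k N) (e : ℕ), Hom J → f.IsHomogeneous e → 0 < e →
    (∀ y : NP k N, On J y.1 → aeval y.1 f = 0) → f ∈ J.radical) ∧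
  ∀ q : Ideal (PP k N), q.IsPrime → Hom q → Rel q →
    (∀ f e, f.IsHomogeneous e → (∀ y : NP k N, On q y.1 → aeval y.1 f = 0) → f ∈ q) ∧
    (∃ y : NP k N, On q y.1) ∧
    ({y : NP k N | On q y.1}.Finite → ∃ y : NP k N, q = van k y.1) ∧
    (ringKrullDim (PP k N ⧸ q) ≤ 1 → ∃ y : NP k N, q = van k y.1) ∧
    (ringKrullDim (PP k N ⧸ q) ≤ 2 → ∀ g e, g.IsHomogeneous e → g ∉ q →
      {y : NP k N | On q y.1 ∧ aeval y.1 g = 0}.Finite)

/-- Forms avoiding finitely many points. -/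
def S_AVOID : Prop := ∀ (k : Type) [Field k] [Infinite k] (N : ℕ) (T : Set (NP k N)), T.Finite →
  (∀ e, ∃ b : PP k N, b.IsHomogeneous e ∧ ∀ y ∈ T, aeval y.1 b ≠ 0) ∧
  ∀ z : NP k N, z ∉ T → ∀ e, 0 < e →
    ∃ b : PP k N, b.IsHomogeneous e ∧ aeval z.1 b = 0 ∧ ∀ y ∈ T, aeval y.1 b ≠ 0

/-- Forms without common zeros generate everything in large degrees. -/
def S_FIN : Prop := ∀ (k : Type) [Field k] [IsAlgClosed k] (N : ℕ) (I : Ideal (PP k N)) (r m : ℕ)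
  (f : Fin r → PP k N), Hom I → 0 < m → (∀ i, (f i).IsHomogeneous m) →
  (∀ y : NP k N, On I y.1 → ∃ i, aeval y.1 (f i) ≠ 0) →
  ∃ N₁, ∀ d, N₁ ≤ d → ∀ g : PP k N, g.IsHomogeneous (d + m) →
    ∃ c : Fin r → PP k N, (∀ i, (c i).IsHomogeneous d) ∧ g - ∑ i, c i * f i ∈ I

/-- Two curves on a surface meet. -/
def S_NE : Prop := ∀ (k : Type) [Field k] [IsAlgClosed k] (N : ℕ) (I : Ideal (PP k N)),
  IsSm 2 I → (∀ (a : PP k N) (e : ℕ), a.IsHomogeneous e → 0 < e →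
    {y : NP k N | On I y.1 ∧ aeval y.1 a = 0}.Infinite) ∧
  ∀ (a b : PP k N) (e e' : ℕ), a.IsHomogeneous e → b.IsHomogeneous e' → 0 < e → 0 < e' →
    (Zs I a b).Finite → Cop I a b

/-- Local intersection numbers. -/
def S_INT : Prop := ∀ (k : Type) [Field k] [IsAlgClosed k] (N : ℕ) (I : Ideal (PP k N)),
  IsSm 2 I →
  (∀ (h g : PP k N) (e e' : ℕ) (y : NP k N), h.IsHomogeneous e → g.IsHomogeneous e' →
    (inter I y h g = 0 ↔ y ∉ Zs I h g)) ∧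
  (∀ h g y, Cop I h g → inter I y h g ≠ ⊤) ∧
  (∀ h g g', Cop I h g → Cop I h g' →
    Cop I h (g * g') ∧ ∀ y, inter I y h (g * g') = inter I y h g + inter I y h g') ∧
  ∀ (h g g' : PP k N) (e e' : ℕ), g.IsHomogeneous e → g'.IsHomogeneous e' → Cop I h (g * g') →
    Cop I h g ∧ Cop I h g'

/-- A criterion for having no common component. -/
def S_AV : Prop := ∀ (k : Type) [Field k] [IsAlgClosed k] (N : ℕ) (I : Ideal (PP k N))
  (h : PP k N) (e : ℕ) (Z : Set (NP k N)), IsSm 2 I → h.IsHomogeneous e → h ∉ I → Z.Finite →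
  ∃ T : Set (NP k N), T.Finite ∧ (∀ y ∈ T, On I y.1 ∧ y ∉ Z) ∧
    ∀ (g : PP k N) (e' : ℕ), g.IsHomogeneous e' → (∀ y ∈ T, aeval y.1 g ≠ 0) → Cop I h g

/-- A lemma on polynomials in two variables. -/
def S_CONNP : Prop := ∀ (k : Type) [Field k] (M c n : ℕ) (α α' : MvPolynomial (Fin 2) k), n ≤ M →
  α.totalDegree ≤ M + c → α'.totalDegree ≤ M + c →
  (X 1 ^ M * α - X 0 ^ M * α').totalDegree ≤ 2 * M + c - n →
  ∃ r : MvPolynomial (Fin 2) k, r.totalDegree ≤ c ∧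
    (α - X 0 ^ M * r).totalDegree ≤ M + c - n ∧ (α' - X 1 ^ M * r).totalDegree ≤ M + c - n

/-- The function field of a surface over a finite projection. -/
def S_CONNF : Prop := ∀ (k : Type) [Field k] (N : ℕ) (K : Type) [Field K] [Algebra k K]
  (ξ : Fin (N + 1) → K) (m N₁ : ℕ) (f : Fin 3 → PP k N), Gen k 1 ξ → ξ ≠ 0 →
  Algebra.trdeg k K = 2 → 0 < m → (∀ i, (f i).IsHomogeneous m) → aeval ξ (f 0) ≠ 0 →
  (∀ d, N₁ ≤ d → ∀ g : PP k N, g.IsHomogeneous (d + m) →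
    ∃ c : Fin 3 → PP k N, (∀ i, (c i).IsHomogeneous d) ∧ g - ∑ i, c i * f i ∈ van k ξ) →
  ∃ (s c J : ℕ) (β : Fin s → K) (D : MvPolynomial (Fin 2) k),
    aeval (fun i : Fin 2 => aeval ξ (f i.succ) / aeval ξ (f 0)) D ≠ 0 ∧
    (∀ i, ∃ g : PP k N, g.IsHomogeneous (J * m) ∧ β i * aeval ξ (f 0) ^ J = aeval ξ g) ∧
    (∀ ρ : Fin s → MvPolynomial (Fin 2) k,
      ∑ i, aeval (fun i : Fin 2 => aeval ξ (f i.succ) / aeval ξ (f 0)) (ρ i) * β i = 0 → ρ = 0) ∧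
    ∀ (j : ℕ) (g : PP k N), g.IsHomogeneous (j * m) → ∃ α : Fin s → MvPolynomial (Fin 2) k,
      (∀ i, (α i).totalDegree ≤ j + c) ∧
      aeval (fun i : Fin 2 => aeval ξ (f i.succ) / aeval ξ (f 0)) D * aeval ξ g =
        aeval ξ (f 0) ^ j *
          ∑ i, aeval (fun i : Fin 2 => aeval ξ (f i.succ) / aeval ξ (f 0)) (α i) * β i

/-- Hypersurface sections of a surface are connected. -/
def S_CONN : Prop := ∀ (k : Type) [Field k] [IsAlgClosed k] (N : ℕ) (I J₁ J₂ : Ideal (PP k N))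
  (a : PP k N) (m : ℕ) (y₁ y₂ : NP k N), IsSm 2 I → a.IsHomogeneous m → 0 < m → a ∉ I →
  Hom J₁ → Hom J₂ → (∀ y : NP k N, On I y.1 → aeval y.1 a = 0 → On J₁ y.1 ∨ On J₂ y.1) →
  (∀ y : NP k N, On I y.1 → aeval y.1 a = 0 → ¬ (On J₁ y.1 ∧ On J₂ y.1)) →
  On I y₁.1 → aeval y₁.1 a = 0 → On J₁ y₁.1 → On I y₂.1 → aeval y₂.1 a = 0 → On J₂ y₂.1 → False

/-- Smoothness passes to points with values in larger fields. -/
def S_GOODW : Prop := ∀ (k : Type) [Field k] [IsAlgClosed k] (N : ℕ) (I : Ideal (PP k N))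
  (a : PP k N) (e : ℕ), Hom I → a.IsHomogeneous e → Good I a →
  ∀ (Ω : Type) [Field Ω] [Algebra k Ω] (y : Fin (N + 1) → Ω), y ≠ 0 → On I y → ¬ Sing I y a

/-- `Q` is the ideal of the smooth curve cut out by `a`. -/
structure CurveOf {k : Type} [Field k] {N : ℕ} (I : Ideal (PP k N)) (a : PP k N)
    (Q : Ideal (PP k N)) : Prop where
  sm : IsSm 1 Q
  le : I ≤ Q
  mem : a ∈ Q
  rad : Q ≤ (I ⊔ Ideal.span {a}).radical
  inter_eq : ∀ g y, inter I y a g = ordI Q y g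
  cop : ∀ g e, g.IsHomogeneous e → (Cop I a g ↔ g ∉ Q)

/-- Smooth hypersurface sections are irreducible. -/
def S_GOODC : Prop := ∀ (k : Type) [Field k] [IsAlgClosed k] (N : ℕ) (I : Ideal (PP k N))
  (a : PP k N) (e : ℕ), IsSm 2 I → a.IsHomogeneous e → 0 < e → Good I a → ∃ Q, CurveOf I a Q

/-- Places of function fields in any characteristic. -/
def S_PLACE : Prop := ∀ (k E : Type) [Field k] [IsAlgClosed k] [Field E] [Algebra k E] [FF k E],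
  (∀ t : E, Transcendental k t → Model k t) ∧
  (∀ x : E, x ≠ 0 → {P : Place k E | P.v x ≠ 1}.Finite) ∧
  (∀ x : E, x ≠ 0 → ∀ Z : Finset (Place k E), (∀ P, P.v x ≠ 1 → P ∈ Z) →
    ∑ P ∈ Z, WithZero.log (P.v x) = 0) ∧
  (∀ x : E, (∀ P : Place k E, P.v x ≤ 1) → ∃ c, algebraMap k E c = x) ∧
  (∀ t : E, Transcendental k t → ∃ Z : Finset (Place k E), (∀ P, P ∈ Z ↔ 1 < P.v t) ∧
    ∑ P ∈ Z, WithZero.log (P.v t) = Module.finrank k⟮t⟯ E) ∧
  (∀ t x : E, Transcendental k t → (Reg k t x ↔ IsIntegral (Algebra.adjoin k {t}) x)) ∧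
  (∀ (P : Place k E) (x : E), P.v x ≤ 1 → ∃ c, P.v (x - algebraMap k E c) < 1) ∧
  ∀ (R : Subalgebra k E) (φ : R →ₐ[k] k) (t : E), t ∈ R → Transcendental k t →
    ∃ P : Place k E, ∀ r : R, P.v (r - algebraMap k E (φ r)) < 1

/-- The points of the smooth curve `Q` are the places of its function field. -/
structure Dict {k : Type} [Field k] {N : ℕ} (Q : Ideal (PP k N)) {E : Type} [Field E]
    [Algebra k E] (ξ : Fin (N + 1) → E) (pl : {y : NP k N // On Q y.1} ≃ Place k E) : Prop where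
  van_eq : van k ξ = Q
  gen : Gen k 1 ξ
  ne : ∀ y : {y : NP k N // On Q y.1}, ξ y.1.piv ≠ 0
  val : ∀ (y : {y : NP k N // On Q y.1}) (g : PP k N) (e : ℕ), g.IsHomogeneous e → g ∉ Q →
    ordI Q y.1 g ≠ ⊤ ∧
    (pl y).v (aeval ξ g / ξ y.1.piv ^ e) = WithZero.exp (-((ordI Q y.1 g).toNat : ℤ))

def S_DICT : Prop := ∀ (k : Type) [Field k] [IsAlgClosed k] (N : ℕ) (Q : Ideal (PP k N)),
  IsSm 1 Q → ∃ (E : Type) (_ : Field E) (_ : Algebra k E) (_ : FF k E) (ξ : Fin (N + 1) → E)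
    (pl : {y : NP k N // On Q y.1} ≃ Place k E), Dict Q ξ pl

/-- Divisors of forms on a smooth curve. -/
def S_CURVE : Prop := ∀ (k : Type) [Field k] [IsAlgClosed k] (N : ℕ) (Q : Ideal (PP k N)),
  IsSm 1 Q → {y : NP k N | On Q y.1}.Infinite ∧
  (∀ (g : PP k N) (e : ℕ) (y : NP k N), g.IsHomogeneous e →
    (ordI Q y g = 0 ↔ ¬ (On Q y.1 ∧ aeval y.1 g = 0))) ∧
  (∀ (g : PP k N) (y : NP k N), g ∈ Q → On Q y.1 → ordI Q y g = ⊤) ∧
  (∀ (g : PP k N) (e : ℕ), g.IsHomogeneous e → g ∉ Q → (∀ y, ordI Q y g ≠ ⊤) ∧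
    {y : NP k N | On Q y.1 ∧ aeval y.1 g = 0}.Finite ∧ e ≤ degC Q g) ∧
  (∀ (g g' : PP k N) (y : NP k N), g ∉ Q → g' ∉ Q →
    ordI Q y (g * g') = ordI Q y g + ordI Q y g') ∧
  ∀ (g g' : PP k N) (e : ℕ), g.IsHomogeneous e → g'.IsHomogeneous e → g ∉ Q → g' ∉ Q →
    degC Q g = degC Q g' ∧
    ((∀ y, ordI Q y g = ordI Q y g') → ∃ c : k, c ≠ 0 ∧ g - C c * g' ∈ Q)

/-- Uniform genericity. -/
def S_UG : Prop := ∀ (k : Type) [Field k] (P J U : Type) [Finite P] [Finite J] [Finite U]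
  (S : Set (MvPolynomial (P ⊕ J ⊕ U) k)), ∃ D : ℕ, ∀ τ : P → k,
  (∀ (Ω : Type) [Field Ω] [Algebra k Ω] (w : J → Ω) (u : U → Ω), AlgebraicIndependent k w →
    ¬ ∀ f ∈ S, aeval (Sum.elim (fun p => algebraMap k Ω (τ p)) (Sum.elim w u)) f = 0) →
  ∃ Φ : MvPolynomial J k, Φ ≠ 0 ∧ Φ.totalDegree ≤ D ∧ ∀ (w : J → k) (u : U → k),
    (∀ f ∈ S, aeval (Sum.elim τ (Sum.elim w u)) f = 0) → eval w Φ = 0

/-- Counting transcendence degrees. -/
def S_TR : Prop :=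
  (∀ (k Ω : Type) [Field k] [Field Ω] [Algebra k Ω] (K : IntermediateField k Ω) (ρ : ℕ)
    (J ι : Type) [Fintype J] [Fintype ι] (w : J → Ω) (M : ι → J → K), Algebra.trdeg k K ≤ ρ →
    AlgebraicIndependent k w → (∀ b : ι → K, ∃ c : J → K, ∀ i, ∑ j, M i j * c j = b i) →
    (∀ i, ∑ j, (M i j : Ω) * w j = 0) → Fintype.card ι ≤ ρ) ∧
  (∀ (k Ω : Type) [Field k] [Field Ω] [Algebra k Ω] (K K' : IntermediateField k Ω),
    Algebra.trdeg k (K ⊔ K' : IntermediateField k Ω) ≤ Algebra.trdeg k K + Algebra.trdeg k K') ∧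
  ∀ (k Ω : Type) [Field k] [Field Ω] [Algebra k Ω] (N d : ℕ) (I : Ideal (PP k N))
    (y : Fin (N + 1) → Ω) (i : Fin (N + 1)), Hom I → ringKrullDim (PP k N ⧸ I) ≤ (d + 1 : ℕ) →
    On I y → y i = 1 → Algebra.trdeg k (IntermediateField.adjoin k (Set.range y)) ≤ d

/-- Bertini's theorem. -/
def S_BERT : Prop := ∀ (k : Type) [Field k] [IsAlgClosed k] (N : ℕ) (I : Ideal (PP k N)) (n : ℕ)
  (W : Submodule k (PP k N)) (H : Set (PP k N)) (U : Set (Submodule k (PP k N))), IsSurf I →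
  W ≤ homogeneousSubmodule (Fin (N + 1)) k n → H.Finite → U.Finite →
  (∀ h ∈ H, ∃ e < n, h.IsHomogeneous e ∧ ∀ r : PP k N, r.IsHomogeneous (n - e) → h * r ∈ W) →
  (∀ V ∈ U, ¬ W ≤ V) →
  ∃ s ∈ W, (∀ V ∈ U, s ∉ V) ∧
    ∀ y : NP k N, On I y.1 → (∃ h ∈ H, aeval y.1 h ≠ 0) → ¬ Sing I y.1 s

/-- Existence of smooth hypersurface sections. -/
def S_EXG : Prop := ∀ (k : Type) [Field k] [IsAlgClosed k] (N : ℕ) (I : Ideal (PP k N))
  (T : Set (NP k N)), IsSurf I → T.Finite →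
  (∀ n, 0 < n → ∃ a : PP k N, a.IsHomogeneous n ∧ Good I a ∧ ∀ y ∈ T, aeval y.1 a ≠ 0) ∧
  ∀ (z : NP k N), On I z.1 → z ∉ T → ∀ n, 2 ≤ n →
    ∃ a : PP k N, a.IsHomogeneous n ∧ Good I a ∧ aeval z.1 a = 0 ∧ ∀ y ∈ T, aeval y.1 a ≠ 0

/-- The main theorem of elimination theory. -/
def S_ELIM : Prop := ∀ (k : Type) [Field k] [IsAlgClosed k] (N : ℕ) (J : Type) [Finite J]
  (S : Set (PP (MvPolynomial J k) N)), (∀ g ∈ S, ∃ d, g.IsHomogeneous d) →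
  ∃ T : Finset (MvPolynomial J k), ∀ w : J → k,
    (∃ y : NP k N, ∀ g ∈ S, eval₂ (eval w) y.1 g = 0) ↔ ∀ Φ ∈ T, eval w Φ = 0

/-- The singular hypersurface sections form a closed set. -/
def S_CLO : Prop := ∀ (k : Type) [Field k] [IsAlgClosed k] (N : ℕ) (I : Ideal (PP k N)) (n : ℕ),
  IsSurf I → ∃ T : Finset (MvPolynomial (Mon N n) k), ∀ w : Mon N n → k,
    Good I (form w) ↔ ∃ Φ ∈ T, eval w Φ ≠ 0

/-- The intersection number with a smooth curve depends only on the degrees. -/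
def S_DEG : Prop := ∀ (k : Type) [Field k] [IsAlgClosed k] (N : ℕ) (I : Ideal (PP k N))
  (n m : ℕ), IsSurf I → 0 < n → ∃ d, m ≤ d ∧ ∀ a b : PP k N, a.IsHomogeneous n → Good I a →
    b.IsHomogeneous m → Cop I a b → deg I a b = d

/-- Points at which both hypersurface sections are singular. -/
def BadPt {k : Type} [Field k] {N : ℕ} (I : Ideal (PP k N)) (h g : PP k N) : Set (NP k N) :=
  {y | On I y.1 ∧ Sing I y.1 h ∧ Sing I y.1 g}

/-- The measure for the induction. -/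
noncomputable def mu {k : Type} [Field k] {N : ℕ} (I : Ideal (PP k N)) (h g : PP k N) : ℕ :=
  ∑ᶠ y ∈ BadPt I h g, (inter I y h g).toNat

/-- The curvilinear case. -/
def S_FULT0 : Prop := ∀ (k : Type) [Field k] [IsAlgClosed k] (N : ℕ) (I : Ideal (PP k N))
  (h g : PP k N), IsSurf I → Cop I h g → BadPt I h g = ∅ →
  ∃ (r s t : PP k N) (c : k) (n n' : ℕ), 0 < n ∧ 0 < n' ∧ r.IsHomogeneous n ∧ Good I r ∧
    Cop I h r ∧ s.IsHomogeneous n' ∧ Good I s ∧ Cop I h s ∧ (r * g).IsHomogeneous n' ∧ c ≠ 0 ∧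
    s = C c * (r * g) + h * t

/-- One step of the Euclidean algorithm. -/
def S_FULT1 : Prop := ∀ (k : Type) [Field k] [IsAlgClosed k] (N : ℕ) (I : Ideal (PP k N))
  (h g b : PP k N) (z : NP k N) (m : ℕ), IsSurf I → Cop I h g → z ∈ Zs I h g →
  b.IsHomogeneous m → 0 < m → Good I b → aeval z.1 b = 0 →
  (∀ y ∈ Zs I h g, y ≠ z → aeval y.1 b ≠ 0) → Cop I h b →
  toL I (van k z.1) g ∈ (Ideal.span {b, h}).map (toL I (van k z.1)) →
  ∃ (s g₁ : PP k N) (n e : ℕ), 0 < n ∧ s.IsHomogeneous n ∧ Good I s ∧ Cop I h s ∧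
    (∀ y ∈ Zs I h g, aeval y.1 s ≠ 0) ∧ (g * s).IsHomogeneous e ∧ (b * g₁).IsHomogeneous e ∧
    Cop I h g₁ ∧ g * s - b * g₁ ∈ I ⊔ Ideal.span {h}

/-- The measure decreases. -/
def S_FULT2 : Prop := ∀ (k : Type) [Field k] [IsAlgClosed k] (N : ℕ) (I : Ideal (PP k N))
  (h g b s g₁ : PP k N) (z : NP k N) (n : ℕ), IsSm 2 I → Cop I h g → z ∈ BadPt I h g →
  aeval z.1 b = 0 → (∀ y ∈ Zs I h g, y ≠ z → aeval y.1 b ≠ 0) → Cop I h b →
  s.IsHomogeneous n → Good I s → Cop I h s → (∀ y ∈ Zs I h g, aeval y.1 s ≠ 0) → Cop I h g₁ →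
  g * s - b * g₁ ∈ I ⊔ Ideal.span {h} → mu I h g₁ < mu I h g

/-- A symmetric symbol that vanishes on smooth curves. -/
structure IsSym {k : Type} [Field k] {N : ℕ} (I : Ideal (PP k N)) (s : PP k N → PP k N → ℚ) :
    Prop where
  symm : ∀ h g, Cop I h g → s h g = s g h
  mul : ∀ h g g', Cop I h g → Cop I h g' → s h (g * g') = s h g + s h g'
  congr : ∀ h g g' e, Cop I h g → Cop I h g' → g.IsHomogeneous e → g'.IsHomogeneous e →
    g - g' ∈ I ⊔ Ideal.span {h} → s h g = s h g'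
  const : ∀ h (c : k), Cop I h (C c) → s h (C c) = 0
  good : ∀ h a n, 0 < n → a.IsHomogeneous n → Good I a → Cop I h a → s h a = 0

def S_FULT : Prop := ∀ (k : Type) [Field k] [IsAlgClosed k] (N : ℕ) (I : Ideal (PP k N))
  (s : PP k N → PP k N → ℚ), IsSurf I → IsSym I s → ∀ h g, Cop I h g → s h g = 0

end Pool.Agent.P.MP_12d50c_ag
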