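import Pool.Agent.P.MP_12d50c_ag.If1

/-!
Statements, part 2: monodromy, point counting over finite fields.
-/

open MvPolynomial WithZero Function
open Pool.Agent.P.MP_6f117a_ag (Place FF Model Reg)
open scoped IntermediateField Polynomial Nat

namespace Pool.Agent.P.MP_12d50c_ag

/-- The Frobenius map `x ↦ x ^ q`, `q = (p ^ s) ^ 2`. -/
noncomputable def frob (k : Type) [Field k] (p : ℕ) [Fact p.Prime] [CharP k p] (s : ℕ) :
    k →+* k := iterateFrobenius k p (s * 2)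

theorem frob_apply {k : Type} [Field k] {p : ℕ} [Fact p.Prime] [CharP k p] (s : ℕ) (x : k) :
    frob k p s x = x ^ (p ^ s) ^ 2 := by
  rw [frob, iterateFrobenius_def, pow_mul]

theorem IsFq.frob_eq {k : Type} [Field k] {p : ℕ} [Fact p.Prime] [CharP k p] {s : ℕ}
    {F : Subfield k} (h : IsFq p s F) {x : k} : frob k p s x = x ↔ x ∈ F := by
  rw [frob_apply, h.mem]

theorem IsFq.finite {k : Type} [Field k] {p : ℕ} [hp : Fact p.Prime] {s : ℕ}
    {F : Subfield k} (h : IsFq p s F) : Finite F :=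
  Nat.finite_of_card_ne_zero (by rw [h.card]; exact pow_ne_zero _ (pow_ne_zero _ hp.out.ne_zero))

theorem frob_bijective (k : Type) [Field k] [IsAlgClosed k] (p : ℕ) [Fact p.Prime] [CharP k p]
    (s : ℕ) : Bijective (frob k p s) := (iterateFrobeniusEquiv k p (s * 2)).bijective

/-- Finite subfields and rationality. -/
def S_FQ : Prop := ∀ (k : Type) [Field k] [IsAlgClosed k] (p : ℕ) [Fact p.Prime] [CharP k p],
  (LocFin k p → ∀ S : Set k, S.Finite → ∀ s₀, ∃ (s : ℕ) (F : Subfield k),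
    s₀ ≤ s ∧ IsFq p s F ∧ S ⊆ F) ∧
  (LocFin k p → ∀ x : k, x ≠ 0 → ∃ n, 0 < n ∧ x ^ n = 1) ∧
  (∀ (N : ℕ) (I : Ideal (PP k N)), ∃ S : Set k, S.Finite ∧ ∀ F : Subfield k, S ⊆ F → RatI F I) ∧
  ∀ (s : ℕ) (F : Subfield k) (N : ℕ) (I Q : Ideal (PP k N)) (a : PP k N), IsFq p s F →
    RatI F I → RatP F a → CurveOf I a Q → ∀ f ∈ Q, map (frob k p s) f ∈ Q

/-! ### Places in finite extensions -/

/-- Restriction and extension of places. -/
def S_PRES : Prop := ∀ (k L M : Type) [Field k] [IsAlgClosed k] [Field L] [Field M] [Algebra k L]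
  [Algebra k M] [Algebra L M] [IsScalarTower k L M] [FiniteDimensional L M] (t : L),
  Transcendental k t → FiniteDimensional k⟮t⟯ L → FF k L ∧ FF k M ∧
  (∀ P₁ P₂ : Place k L, (∀ u, P₁.v u < 1 ↔ P₂.v u < 1) → P₁ = P₂) ∧
  (∀ P : Place k M, ∃ P' : Place k L, ∀ u, P.v (algebraMap L M u) < 1 ↔ P'.v u < 1) ∧
  ∀ P' : Place k L, ∃ P : Place k M, ∀ u, P.v (algebraMap L M u) < 1 ↔ P'.v u < 1

/-- The Galois group acts transitively on the places over a place. -/
def S_PTR : Prop := ∀ (k L M : Type) [Field k] [IsAlgClosed k] [Field L] [Field M] [Algebra k L]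
  [Algebra k M] [Algebra L M] [IsScalarTower k L M] [FiniteDimensional L M] [IsGalois L M]
  [FF k M] (t : L) (P P' : Place k M), Transcendental k t →
  (∀ u : L, P.v (algebraMap L M u) < 1 ↔ P'.v (algebraMap L M u) < 1) →
  ∃ g : M ≃ₐ[L] M, ∀ y, P'.v y = P.v (g y)

/-- The discriminant at an unramified point. -/
def S_PI0 : Prop := ∀ (k E : Type) [Field k] [IsAlgClosed k] [Field E] [Algebra k E] [FF k E]
  (t : E) (K : IntermediateField k E) (t₀ : k) (e : ℕ) (P : Fin e → Place k E),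
  Transcendental k t → K = k⟮t⟯ → e = Module.finrank K E → Injective P →
  (∀ a, (P a).v (t - algebraMap k E t₀) < 1) →
  (∀ u : E, Reg k t u → (∀ a, (P a).v u < 1) → Reg k t (u / (t - algebraMap k E t₀))) ∧
  ∀ (u : Fin e → E) (c : Fin e → Fin e → k), (∀ i, Reg k t (u i)) →
    (∀ i a, (P a).v (u i - algebraMap k E (c i a)) < 1) →
    ∃ g : k[X], algebraMap K E (Algebra.discr K u) = Polynomial.aeval t g ∧
      g.eval t₀ = (Matrix.of c).det ^ 2

/-- The projective line is simply connected. -/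
def S_PI1 : Prop := ∀ (k E : Type) [Field k] [IsAlgClosed k] [Field E] [Algebra k E] [FF k E]
  (t : E) (e : ℕ), Transcendental k t → e = Module.finrank k⟮t⟯ E →
  (∀ t₀ : k, ∃ P : Fin e → Place k E, Injective P ∧ ∀ a, (P a).v (t - algebraMap k E t₀) < 1) →
  (∃ P : Fin e → Place k E, Injective P ∧ ∀ a, 1 < (P a).v t) → e = 1

/-- The inertia groups generate the Galois group. -/
def S_PI1G : Prop := ∀ (k K M : Type) [Field k] [IsAlgClosed k] [Field K] [Field M] [Algebra k K]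
  [Algebra k M] [Algebra K M] [IsScalarTower k K M] [FiniteDimensional K M] [IsGalois K M]
  (t : K) (H : Subgroup (M ≃ₐ[K] M)), Transcendental k t → k⟮t⟯ = ⊤ →
  (∀ (P : Place k M) (g : M ≃ₐ[K] M), (∀ y, P.v (g y) = P.v y) → g ∈ H) → H = ⊤

/-- Permutations preserving an almost injective map. -/
def S_SW : Prop := ∀ (n : ℕ) (α : Type) (ψ : Fin n → α) (Z : Finset α) (σ : Equiv.Perm (Fin n)),
  n ≤ Z.card + 1 → (∀ a ∈ Z, ∃ i, ψ i = a) → (∀ i, ψ (σ i) = ψ i) → σ = 1 ∨ σ.IsSwap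

/-- Simple branching gives the full symmetric group. -/
def S_MONO : Prop := ∀ (k K E M : Type) [Field k] [IsAlgClosed k] [Field K] [Field E] [Field M]
  [Algebra k K] [Algebra k E] [Algebra k M] [Algebra K E] [Algebra K M] [Algebra E M]
  [IsScalarTower k K E] [IsScalarTower k K M] [IsScalarTower k E M] [IsScalarTower K E M]
  [FiniteDimensional K M] [IsGalois K M] (t : K) (n : ℕ) (x : E) (xs : Fin n → M),
  Transcendental k t → k⟮t⟯ = ⊤ → K⟮x⟯ = ⊤ → Injective xs →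
  (minpoly K x).map (algebraMap K M) = ∏ i, (Polynomial.X - Polynomial.C (xs i)) →
  (∀ t' : K, (t' = t⁻¹ ∨ ∃ t₀, t' = t - algebraMap k K t₀) → ∃ Z : Finset (Place k E),
    n ≤ Z.card + 1 ∧ ∀ P ∈ Z, P.v (algebraMap K E t') < 1) →
  ∀ σ : Equiv.Perm (Fin n), ∃ g : M ≃ₐ[K] M, ∀ i, g (xs i) = xs (σ i)

section

variable {k : Type} [Field k] {n : ℕ}

/-- Specialization of the parameter. -/
noncomputable def sp {M : Type} [CommRing M] [Algebra k M] (f : k[X][X]) (t : M) : M[X] :=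
  f.map (Polynomial.aeval t : k[X] →ₐ[k] M).toRingHom

/-- `x` is a numbering of the roots of `f(t, X)`. -/
def YY {M : Type} [CommRing M] [Algebra k M] (f : k[X][X]) (t : M) (x : Fin n → M) : Prop :=
  sp f t = ∏ i, (Polynomial.X - Polynomial.C (x i))

/-- Two numberings of the roots differ by a permutation. -/
theorem YY.exists_perm {M : Type} [CommRing M] [IsDomain M] [Algebra k M] {f : k[X][X]} {t : M}
    {x x' : Fin n → M} (h : YY f t x) (h' : YY f t x') :
    ∃ σ : Equiv.Perm (Fin n), x' = x ∘ σ := by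
  classical
  have h1 : Finset.univ.val.map x = Finset.univ.val.map x' := by
    rw [← Polynomial.roots_multiset_prod_X_sub_C (Finset.univ.val.map x),
      ← Polynomial.roots_multiset_prod_X_sub_C (Finset.univ.val.map x'), Multiset.map_map,
      Multiset.map_map]
    exact congrArg _ (h.symm.trans h')
  have h2 : ∀ a, Nonempty ({i // x' i = a} ≃ {i // x i = a}) := fun a => by
    have h3 := congrArg (Multiset.count a) h1
    rw [Multiset.count_map, Multiset.count_map] at h3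
    refine Fintype.card_eq.1 ?_
    rw [Fintype.card_subtype, Fintype.card_subtype]
    simp only [eq_comm (b := a)]
    exact h3.symm
  exact ⟨Equiv.ofFiberEquiv fun a => (h2 a).some,
    funext fun i => (Equiv.ofFiberEquiv_map (fun a => (h2 a).some) i).symm⟩

theorem YY.perm {M : Type} [CommRing M] [Algebra k M] {f : k[X][X]} {t : M} {x : Fin n → M}
    (h : YY f t x) (σ : Equiv.Perm (Fin n)) : YY f t (x ∘ σ) :=
  h.trans (Equiv.prod_comp σ fun i => Polynomial.X - Polynomial.C (x i)).symm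

theorem map_sp {M M' : Type} [CommRing M] [Algebra k M] [CommRing M'] [Algebra k M']
    (ψ : M →ₐ[k] M') (f : k[X][X]) (t : M) : (sp f t).map ψ.toRingHom = sp f (ψ t) := by
  rw [sp, sp, Polynomial.map_map]
  congr 1
  exact RingHom.ext fun g => (Polynomial.aeval_algHom_apply ψ t g).symm

theorem YY.map {M M' : Type} [CommRing M] [Algebra k M] [CommRing M'] [Algebra k M']
    {f : k[X][X]} {t : M} {x : Fin n → M} (h : YY f t x) (ψ : M →ₐ[k] M') :
    YY f (ψ t) (ψ ∘ x) := by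
  rw [YY, ← map_sp, h, Polynomial.map_prod]
  simp

/-- Evaluation at `(t, x)`. -/
noncomputable abbrev evq {M : Type} [CommRing M] [Algebra k M] (t : M) (x : Fin n → M) :
    MvPolynomial (Option (Fin n)) k →ₐ[k] M := aeval fun o => o.elim t x

theorem map_evq {M M' : Type} [CommRing M] [Algebra k M] [CommRing M'] [Algebra k M']
    (ψ : M →ₐ[k] M') (t : M) (x : Fin n → M) (G : MvPolynomial (Option (Fin n)) k) :
    ψ (evq t x G) = evq (ψ t) (ψ ∘ x) G := by
  rw [map_aeval']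
  congr 2
  exact funext fun o => by cases o <;> rfl

theorem evq_rename {M : Type} [CommRing M] [Algebra k M] (t : M) (x : Fin n → M)
    (σ : Fin n → Fin n) (G : MvPolynomial (Option (Fin n)) k) :
    evq t x (rename (Option.map σ) G) = evq t (x ∘ σ) G := by
  rw [aeval_rename]
  congr 2
  exact funext fun o => by cases o <;> rfl

/-- A polynomial with full monodromy group. -/
structure Cov {M : Type} [Field M] [Algebra k M] (f : k[X][X]) (t : M) (x : Fin n → M) :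
    Prop where
  monic : f.Monic
  deg : f.natDegree = n
  wt : ∀ i, (f.coeff i).natDegree ≤ n - i
  tr : Transcendental k t
  yy : YY f t x
  inj : Injective x
  perm : ∀ (σ : Equiv.Perm (Fin n)) (G : MvPolynomial (Option (Fin n)) k), evq t x G = 0 →
    evq t (x ∘ σ) G = 0

/-- The order of vanishing at the point `(t₀, x₀)`. -/
structure IsOrd {M : Type} [Field M] [Algebra k M] (t : M) (x : Fin n → M) (t₀ : k)
    (x₀ : Fin n → k) (o : AddValuation (MvPolynomial (Option (Fin n)) k) ℕ∞) : Prop where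
  top : ∀ G, o G = ⊤ ↔ evq t x G = 0
  zero : ∀ G, o G = 0 ↔ evq t₀ x₀ G ≠ 0
  unif : o (X none - C t₀) = 1
  res : ∀ G G', o G = o G' → o G ≠ ⊤ → ∃ c : k, o G < o (G - C c * G')

/-- The parameters in `F` at which `f` splits into distinct linear factors over `F`. -/
def SplT (f : k[X][X]) (n : ℕ) (F : Subfield k) : Set k :=
  {t₀ | t₀ ∈ F ∧ ∃ x₀ : Fin n → k, Injective x₀ ∧ (∀ i, x₀ i ∈ F) ∧ YY f t₀ x₀}

variable (k) in
/-- The function `t` has `n` simple poles, separated by `x / t`. -/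
def Poles {E : Type} [Field E] [Algebra k E] (n : ℕ) (t x : E) : Prop :=
  ∃ (P : Fin n → Place k E) (c : Fin n → k), Injective c ∧
    (∀ P' : Place k E, 1 < P'.v t ↔ P' ∈ Set.range P) ∧
    ∀ i, (P i).v t = exp 1 ∧ (P i).v (x / t - algebraMap k E (c i)) < 1

variable (k) in
/-- A simply branched function. -/
structure SB {E : Type} [Field E] [Algebra k E] (n : ℕ) (t x : E) : Prop where
  pos : 0 < n
  poles : Poles k n t x
  reg : Reg k t x
  ram : ∀ (t₀ : k) (P : Place k E), exp (-2) ≤ P.v (t - algebraMap k E t₀)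
  one : ∀ (t₀ : k) (P P' : Place k E), P.v (t - algebraMap k E t₀) < exp (-1) →
    P'.v (t - algebraMap k E t₀) < exp (-1) → P = P'

/-- The fibre of `t` over `t₀` consists of `n` unramified places, on which `x` has values `x₀`. -/
def Fib {E : Type} [Field E] [Algebra k E] (t x : E) (t₀ : k) (x₀ : Fin n → k) : Prop :=
  ∃ P : Fin n → Place k E,
    (∀ P' : Place k E, P'.v (t - algebraMap k E t₀) < 1 ↔ P' ∈ Set.range P) ∧
    ∀ i, (P i).v (t - algebraMap k E t₀) = exp (-1) ∧ (P i).v (x - algebraMap k E (x₀ i)) < 1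

end

/-- The plane model. -/
def S_KA1 : Prop := ∀ (k E : Type) [Field k] [IsAlgClosed k] [Field E] [Algebra k E] [FF k E]
  (n : ℕ) (t x : E), 0 < n → Poles k n t x → Reg k t x →
  Transcendental k t ∧ Module.finrank k⟮t⟯ E = n ∧ (minpoly k⟮t⟯ x).Separable ∧
  ∃ f : k[X][X], f.Monic ∧ f.natDegree = n ∧ (∀ i, (f.coeff i).natDegree ≤ n - i) ∧
    sp f (IntermediateField.AdjoinSimple.gen k t) = minpoly k⟮t⟯ x

/-- Unramified fibres. -/
def S_KA3 : Prop := ∀ (k E : Type) [Field k] [IsAlgClosed k] [Field E] [Algebra k E] [FF k E]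
  (n : ℕ) (t x : E) (f : k[X][X]) (t₀ : k) (x₀ : Fin n → k), Transcendental k t →
  Module.finrank k⟮t⟯ E = n → f.Monic → f.natDegree = n →
  sp f (IntermediateField.AdjoinSimple.gen k t) = minpoly k⟮t⟯ x →
  Injective x₀ → YY f t₀ x₀ → Fib t x t₀ x₀

def S_KA : Prop := ∀ (k E : Type) [Field k] [IsAlgClosed k] [Field E] [Algebra k E] [FF k E]
  (n : ℕ) (t x : E), SB k n t x →
  ∃ (f : k[X][X]) (M : Type) (_ : Field M) (_ : Algebra k M) (T : M) (xs : Fin n → M),
    Cov f T xs ∧ (sp f t).eval x = 0 ∧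
    (∀ g : k[X][X], g.Monic → g.natDegree = n → (sp g t).eval x = 0 → g = f) ∧
    ∀ (t₀ : k) (x₀ : Fin n → k), Injective x₀ → YY f t₀ x₀ → Fib t x t₀ x₀

/-! ### The method of Stepanov and Bombieri -/

def S_CH1 : Prop := ∀ (k M : Type) [Field k] [IsAlgClosed k] [Field M] [Algebra k M] (n : ℕ)
  (f : k[X][X]) (t : M) (x : Fin n → M) (t₀ : k) (x₀ : Fin n → k), Cov f t x → YY f t₀ x₀ →
  ∀ G : MvPolynomial (Option (Fin n)) k, evq t x G = 0 → evq t₀ x₀ G = 0

def S_CH2 : Prop := ∀ (k M : Type) [Field k] [Field M] [Algebra k M] (n : ℕ)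
  (f : k[X][X]) (t : M) (x : Fin n → M) (G : MvPolynomial (Option (Fin n)) k), Cov f t x →
  (∀ σ : Equiv.Perm (Fin n), rename (Option.map σ) G = G) →
  ∃ g : k[X], g.natDegree ≤ G.totalDegree ∧ evq t x G = Polynomial.aeval t g

def S_CH0 : Prop := ∀ (k M : Type) [Field k] [IsAlgClosed k] [Field M] [Algebra k M] (n : ℕ)
  (f : k[X][X]) (t : M) (x : Fin n → M), Cov f t x →
  (∀ t₀ : k, ∃ x₀ : Fin n → k, YY f t₀ x₀) ∧
  {t₀ : k | ¬ ∃ x₀ : Fin n → k, Injective x₀ ∧ YY f t₀ x₀}.Finite ∧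
  {t₀ : k | ¬ ∃ x₀ : Fin n → k, Injective x₀ ∧ YY f t₀ x₀}.ncard ≤ n ^ 2

def S_CHL : Prop := ∀ (k M : Type) [Field k] [Field M] [Algebra k M] (n : ℕ)
  (f : k[X][X]) (t : M) (x : Fin n → M) (t₀ : k) (x₀ : Fin n → k), Cov f t x → YY f t₀ x₀ →
  Injective x₀ → (∀ G : MvPolynomial (Option (Fin n)) k, evq t x G = 0 → evq t₀ x₀ G = 0) →
  ∃ o, IsOrd t x t₀ x₀ o

def S_CH3 : Prop := ∀ (k M : Type) [Field k] [IsAlgClosed k] [Field M] [Algebra k M] (n : ℕ)
  (f : k[X][X]) (t : M) (x : Fin n → M) (G : MvPolynomial (Option (Fin n)) k), Cov f t x →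
  evq t x G ≠ 0 →
  (∀ t₀ x₀ o, IsOrd t x t₀ x₀ o → o G ≤ (n ! * G.totalDegree : ℕ)) ∧
  {P : k × (Fin n → k) | Injective P.2 ∧ YY f P.1 P.2 ∧ evq P.1 P.2 G = 0}.Finite ∧
  {P : k × (Fin n → k) | Injective P.2 ∧ YY f P.1 P.2 ∧ evq P.1 P.2 G = 0}.ncard ≤
    n ! * G.totalDegree

def S_CH4 : Prop := ∀ (k R : Type) [Field k] [CommRing R] [Algebra k R] (o : AddValuation R ℕ∞)
  (ι : Type) [Fintype ι] (u : ι → R), (∀ c : k, c ≠ 0 → o (algebraMap k R c) = 0) →
  (∀ G G', o G = o G' → o G ≠ ⊤ → ∃ c : k, o G < o (G - algebraMap k R c * G')) →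
  (∀ c : ι → k, o (∑ i, c i • u i) = ⊤ → c = 0) →
  ∃ u' : ι → R, (∀ i, u' i ∈ Submodule.span k (Set.range u)) ∧ (∀ i, o (u' i) ≠ ⊤) ∧
    Injective fun i => o (u' i)

def S_CH5 : Prop := ∀ (k M : Type) [Field k] [Field M] [Algebra k M] (n : ℕ)
  (f : k[X][X]) (t : M) (x : Fin n → M), Cov f t x →
  ∃ G : Fin n ! → MvPolynomial (Option (Fin n)) k, (∀ j, (G j).totalDegree ≤ n ^ 2) ∧
    ∀ c : Fin n ! → k[X], ∑ j, Polynomial.aeval t (c j) * evq t x (G j) = 0 → c = 0

def S_CH6 : Prop := ∀ n : ℕ, ∃ C : ℕ, ∀ (k M : Type) [Field k] [IsAlgClosed k] [Field M]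
  [Algebra k M] (p : ℕ) [Fact p.Prime] [CharP k p] (s : ℕ) (F : Subfield k) (f : k[X][X]) (t : M)
  (x : Fin n → M) (σ : Equiv.Perm (Fin n)), IsFq p s F → Cov f t x →
  (∀ i j, (f.coeff i).coeff j ∈ F) →
  {P : k × (Fin n → k) | P.1 ∈ F ∧ Injective P.2 ∧ YY f P.1 P.2 ∧
    ∀ i, frob k p s (P.2 i) = P.2 (σ i)}.ncard ≤ (p ^ s) ^ 2 + C * p ^ s

/-- The density theorem for totally split parameters. -/
def S_CH : Prop := ∀ n : ℕ, ∃ C : ℕ, ∀ (k M : Type) [Field k] [IsAlgClosed k] [Field M]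
  [Algebra k M] (p : ℕ) [Fact p.Prime] [CharP k p] (s : ℕ) (F : Subfield k) (f : k[X][X]) (t : M)
  (x : Fin n → M), IsFq p s F → Cov f t x → (∀ i j, (f.coeff i).coeff j ∈ F) →
  |(n ! * (SplT f n F).ncard : ℤ) - (p ^ s) ^ 2| ≤ C * p ^ s

end Pool.Agent.P.MP_12d50c_ag
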