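import Pool.Agent.P.MP_12d50c_ag.If2

/-!
Statements, part 3: general pencils, the key estimate, the spectral gap argument.
-/

open MvPolynomial WithZero Function
open Pool.Agent.P.MP_6f117a_ag (Place FF Model Reg)
open scoped IntermediateField Polynomial Nat

namespace Pool.Agent.P.MP_12d50c_ag

section

variable {k : Type} [Field k] {N : ℕ}

/-- A jet of length `l` on `V(A)`, in the chart `i`, with parameter the coordinate `j`. -/
structure IsJet (A : Ideal (PP k N)) {Ω : Type} [Field Ω] [Algebra k Ω] (l : ℕ)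
    (i j : Fin (N + 1)) (γ : Fin (N + 1) → Polynomial Ω) : Prop where
  one : γ i = 1
  lin : ∃ c, γ j = Polynomial.C c + Polynomial.X
  dvd : ∀ f ∈ A, Polynomial.X ^ l ∣ aeval γ f

/-- The base point of a jet. -/
def base {T : Type} [CommRing T] (γ : Fin (N + 1) → T[X]) : Fin (N + 1) → T :=
  fun c => (γ c).coeff 0

/-- The two vectors are not proportional. -/
def Dist {T : Type} [CommRing T] (y y' : Fin (N + 1) → T) : Prop :=
  ∃ i j, y i * y' j ≠ y j * y' i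

theorem Dist.symm {T : Type} [CommRing T] {y y' : Fin (N + 1) → T} (h : Dist y y') : Dist y' y := by
  obtain ⟨i, j, h⟩ := h
  exact ⟨j, i, by rwa [mul_comm (y' j), mul_comm (y' i)]⟩

theorem NP.dist {y y' : NP k N} (h : y ≠ y') : Dist y.1 y'.1 := by
  by_contra h1
  simp only [Dist, not_exists, not_not] at h1
  exact h (NP.eq_of_minors h1)

theorem ratP_formF {F : Subfield k} {m : ℕ} (c : Mon N m → F) : RatP F (formF c) := fun s => by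
  by_cases hs : s.degree = m
  · exact (coeff_form (fun s => (c s : k)) ⟨s, hs⟩).symm ▸ (c _).2
  · rw [(form_isHomogeneous _).coeff_eq_zero hs]
    exact zero_mem _

theorem RatP.exists_formF {F : Subfield k} {m : ℕ} {a : PP k N} (h : RatP F a)
    (ha : a.IsHomogeneous m) : ∃ c : Mon N m → F, formF c = a :=
  ⟨fun s => ⟨_, h s.1⟩, form_coeff ha⟩

theorem RatP.aeval_mem {F : Subfield k} {a : PP k N} (h : RatP F a) {y : NP k N}
    (hy : RatPt F y) : aeval y.1 a ∈ F := by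
  rw [a.as_sum, map_sum]
  refine sum_mem fun s _ => ?_
  rw [aeval_monomial]
  exact mul_mem (h s) (prod_mem fun i _ => pow_mem (hy i) _)

theorem RatP.map_frob {p : ℕ} [Fact p.Prime] [CharP k p] {s : ℕ} {F : Subfield k}
    {a : PP k N} (h : RatP F a) (hF : IsFq p s F) : map (frob k p s) a = a :=
  MvPolynomial.ext _ _ fun t => by rw [coeff_map, hF.frob_eq.2 (h t)]

theorem exists_ratP (a : PP k N) :
    ∃ S : Set k, S.Finite ∧ ∀ F : Subfield k, S ⊆ F → RatP F a := by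
  refine ⟨(fun s => coeff s a) '' a.support, a.support.finite_toSet.image _, fun F hF s => ?_⟩
  by_cases hs : s ∈ a.support
  · exact hF ⟨s, hs, rfl⟩
  · rw [notMem_support_iff.1 hs]
    exact zero_mem _

theorem finite_ratPt (F : Subfield k) [Finite F] : {y : NP k N | RatPt F y}.Finite :=
  (Set.Finite.pi' fun _ : Fin (N + 1) => (Set.toFinite (F : Set k))).preimage
    Subtype.val_injective.injOn

theorem formF_add_smul {F : Subfield k} {m : ℕ} (c c' : Mon N m → F) (t : F) :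
    formF (c + t • c') = formF c + C (t : k) * formF c' := by
  rw [formF, formF, formF, ← form_smul, ← form_add]
  rfl

/-- The projection to the forms vanishing at `z` and `z'`. -/
noncomputable def pr {T : Type} [CommRing T] {m : ℕ} (z z' : Fin (N + 1) → T)
    (lam lam' β : Mon N m → T) : Mon N m → T :=
  β - eval z (form β) • lam - eval z' (form β) • lam'

/-- A member of a pencil: a finite one, or the one at infinity. -/
def comb {T V : Type} [CommRing T] (δ : Bool) (t : T) (c₀ c₁ : V → T) : V → T :=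
  cond δ (c₀ + t • c₁) c₁

/-- A general pencil through `z` and `z'` on the curve `Q`. -/
structure Pencil (Q : Ideal (PP k N)) (z z' : NP k N) (b₀ b₁ : PP k N) : Prop where
  p1 : ∀ y, ordI Q y b₁ ≤ 1
  p2 : ∀ y : NP k N, On Q y.1 → aeval y.1 b₀ = 0 → aeval y.1 b₁ = 0 → y = z ∨ y = z'
  p3 : ∀ (t : k) y, ordI Q y (b₀ + C t * b₁) ≤ 2
  p4 : ∀ (t : k) y y', 2 ≤ ordI Q y (b₀ + C t * b₁) → 2 ≤ ordI Q y' (b₀ + C t * b₁) → y = y'

/-- The divisor of `b` on the curve `Q` consists of distinct rational points. -/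
def SplC (Q : Ideal (PP k N)) (F : Subfield k) (b : PP k N) : Prop :=
  b ∉ Q ∧ ∀ y : NP k N, On Q y.1 → aeval y.1 b = 0 → RatPt F y ∧ ordI Q y b = 1

end

/-- Jets on a smooth curve are determined by their base points. -/
def S_JU : Prop := ∀ (k : Type) [Field k] (N : ℕ) (A : Ideal (PP k N)) (Ω : Type) [Field Ω]
  [Algebra k Ω] (K : IntermediateField k Ω) (l : ℕ) (i j : Fin (N + 1))
  (γ : Fin (N + 1) → Polynomial Ω), Hom A → IsJet A l i j γ → 2 ≤ l →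
  Module.finrank Ω (Tan A (base γ)) ≤ 2 → (∀ c, base γ c ∈ K) →
  ∀ c r, r < l → (γ c).coeff r ∈ K

/-- Forms of large degree separate jets. -/
def S_SEP : Prop := ∀ (K : Type) [Field K] (N m : ℕ) (ι : Type) [Fintype ι] (l : ι → ℕ)
  (γ : ι → Fin (N + 1) → K[X]) (g : ι → K[X]), (∀ a, ∃ i, γ a i = 1) →
  (∀ a, 1 < l a → ∃ j c, γ a j = Polynomial.C c + Polynomial.X) →
  (∀ a b, a ≠ b → 0 < l a → 0 < l b → Dist (base (γ a)) (base (γ b))) → ∑ a, l a ≤ m + 1 →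
  ∃ c : Mon N m → K, ∀ a, Polynomial.X ^ l a ∣ aeval (γ a) (form c) - g a

/-- The same for forms through two given points. -/
def S_SUR : Prop := ∀ (K : Type) [Field K] (N m : ℕ) (z z' : Fin (N + 1) → K) (ι : Type)
  [Fintype ι] (l : ι → ℕ) (γ : ι → Fin (N + 1) → K[X]) (g : ι → K[X]),
  (∃ i, z i = 1) → (∃ i, z' i = 1) → Dist z z' → (∀ a, ∃ i, γ a i = 1) →
  (∀ a, 1 < l a → ∃ j c, γ a j = Polynomial.C c + Polynomial.X) → (∀ a, 0 < l a) →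
  (∀ a b, a ≠ b → Dist (base (γ a)) (base (γ b))) → ∑ a, l a + 2 ≤ m + 1 →
  (∀ a, (Dist (base (γ a)) z ∧ Dist (base (γ a)) z') ∨ (g a).coeff 0 = 0) →
  ∃ c : Mon N m → K, eval z (form c) = 0 ∧ eval z' (form c) = 0 ∧
    ∀ a, Polynomial.X ^ l a ∣ aeval (γ a) (form c) - g a

/-- Values and orders of quotients of forms. -/
def S_VAL : Prop := ∀ (k : Type) [Field k] [IsAlgClosed k] (N : ℕ) (Q : Ideal (PP k N)) (E : Type)
  [Field E] [Algebra k E] (ξ : Fin (N + 1) → E) (pl : {y : NP k N // On Q y.1} ≃ Place k E)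
  (y : {y : NP k N // On Q y.1}) (g h : PP k N) (e : ℕ), IsSm 1 Q → Dict Q ξ pl →
  g.IsHomogeneous e → h.IsHomogeneous e →
  (aeval y.1.1 h ≠ 0 →
    (pl y).v (aeval ξ g / aeval ξ h - algebraMap k E (aeval y.1.1 g / aeval y.1.1 h)) < 1) ∧
  (g ∉ Q → h ∉ Q → (pl y).v (aeval ξ g / aeval ξ h) =
    exp (((ordI Q y.1 h).toNat : ℤ) - (ordI Q y.1 g).toNat))

/-- A zero of high order gives a jet. -/
def S_JET : Prop := ∀ (k : Type) [Field k] [IsAlgClosed k] (N : ℕ) (Q : Ideal (PP k N))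
  (b : PP k N) (e l : ℕ) (y : NP k N), IsSm 1 Q → b.IsHomogeneous e → 2 ≤ l →
  (l : ℕ∞) ≤ ordI Q y b → ∃ (j : Fin (N + 1)) (γ : Fin (N + 1) → k[X]),
    IsJet (Q ⊔ Ideal.span {b}) l y.piv j γ ∧ base γ = y.1 ∧ ∀ c, (γ c).natDegree < l

/-- Dimension counts at the generic pencil. -/
def S_GE : Prop := ∀ (k : Type) [Field k] (N m : ℕ) (A : Ideal (PP k N))
  (z z' : Fin (N + 1) → k) (lam lam' : Mon N m → k) (Ω : Type) [Field Ω] [Algebra k Ω]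
  (w₀ w₁ c₀ c₁ : Mon N m → Ω), Hom A → ringKrullDim (PP k N ⧸ A) ≤ (1 + 1 : ℕ) →
  (∀ y : Fin (N + 1) → Ω, y ≠ 0 → On A y → Module.finrank Ω (Tan A y) ≤ 2) →
  (∃ i, z i = 1) → (∃ i, z' i = 1) → Dist z z' → AlgebraicIndependent k (Sum.elim w₀ w₁) →
  c₀ = pr (algebraMap k Ω ∘ z) (algebraMap k Ω ∘ z') (algebraMap k Ω ∘ lam)
    (algebraMap k Ω ∘ lam') w₀ →
  c₁ = pr (algebraMap k Ω ∘ z) (algebraMap k Ω ∘ z') (algebraMap k Ω ∘ lam)
    (algebraMap k Ω ∘ lam') w₁ →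
  (∀ (δ : Bool) (t : Ω) (ι : Type) [Fintype ι] (l : ι → ℕ) (i j : ι → Fin (N + 1))
    (γ : ι → Fin (N + 1) → Polynomial Ω), (∀ a, IsJet A (l a) (i a) (j a) (γ a)) → (∀ a, 2 ≤ l a) →
    (∀ a b, a ≠ b → Dist (base (γ a)) (base (γ b))) → ∑ a, l a + 2 ≤ m + 1 →
    (∀ a, Polynomial.X ^ l a ∣ aeval (γ a) (form (comb δ t c₀ c₁))) →
    ∑ a, (l a - 1) ≤ δ.toNat) ∧
  ∀ (y : Fin (N + 1) → Ω) (i : Fin (N + 1)), 2 ≤ m → y i = 1 → On A y →
    Dist y (algebraMap k Ω ∘ z) → Dist y (algebraMap k Ω ∘ z') →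
    eval y (form c₀) = 0 → eval y (form c₁) = 0 → False

/-- Uniform genericity, functorial form. -/
def S_UG2 : Prop := ∀ (k : Type) [Field k] (P J U ι : Type) [Finite P] [Finite J] [Finite U]
  (e : ∀ (T : Type) [CommRing T] [Algebra k T], (P → T) → (J → T) → (U → T) → ι → T),
  (∀ (T T' : Type) [CommRing T] [Algebra k T] [CommRing T'] [Algebra k T'] (ψ : T →ₐ[k] T')
    (τ : P → T) (w : J → T) (u : U → T) (i : ι),
    ψ (e T τ w u i) = e T' (ψ ∘ τ) (ψ ∘ w) (ψ ∘ u) i) →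
  ∃ D : ℕ, ∀ τ : P → k,
    (∀ (Ω : Type) [Field Ω] [Algebra k Ω] (w : J → Ω) (u : U → Ω), AlgebraicIndependent k w →
      ¬ ∀ i, e Ω (algebraMap k Ω ∘ τ) w u i = 0) →
    ∃ Φ : MvPolynomial J k, Φ ≠ 0 ∧ Φ.totalDegree ≤ D ∧ ∀ (w : J → k) (u : U → k),
      (∀ i, e k τ w u i = 0) → eval w Φ = 0

/-- Smooth curves on a surface: the input for the dimension counts. -/
def S_KC : Prop := ∀ (k : Type) [Field k] [IsAlgClosed k] (N : ℕ) (I : Ideal (PP k N))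
  (a : PP k N) (n : ℕ), IsSm 2 I → a.IsHomogeneous n → 0 < n → Good I a →
  Hom (I ⊔ Ideal.span {a}) ∧ ringKrullDim (PP k N ⧸ (I ⊔ Ideal.span {a})) ≤ (1 + 1 : ℕ) ∧
  ∀ (Ω : Type) [Field Ω] [Algebra k Ω] (y : Fin (N + 1) → Ω), y ≠ 0 →
    On (I ⊔ Ideal.span {a}) y → Module.finrank Ω (Tan (I ⊔ Ideal.span {a}) y) ≤ 2

/-- Pencils with a member having prescribed multiple zeros lie in a hypersurface. -/
def S_KJ : Prop := ∀ (k : Type) [Field k] [IsAlgClosed k] (N : ℕ) (I : Ideal (PP k N)) (n m : ℕ)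
  (δ : Bool) (ι : Type) [Fintype ι] (l : ι → ℕ), IsSm 2 I → 0 < n → (∀ a, 2 ≤ l a) →
  ∑ a, l a + 2 ≤ m + 1 → δ.toNat < ∑ a, (l a - 1) →
  ∃ D : ℕ, ∀ (a : PP k N) (Q : Ideal (PP k N)) (z z' : NP k N) (lam lam' : Mon N m → k),
    a.IsHomogeneous n → Good I a → CurveOf I a Q → z ≠ z' →
    ∃ Φ : MvPolynomial (Mon N m ⊕ Mon N m) k, Φ ≠ 0 ∧ Φ.totalDegree ≤ D ∧
      ∀ (β₀ β₁ : Mon N m → k) (t : k) (y : ι → NP k N), Injective y →
        (∀ i, (l i : ℕ∞) ≤ ordI Q (y i)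
          (form (comb δ t (pr z.1 z'.1 lam lam' β₀) (pr z.1 z'.1 lam lam' β₁)))) →
        eval (Sum.elim β₀ β₁) Φ = 0

/-- Pencils with a third base point lie in a hypersurface. -/
def S_KP : Prop := ∀ (k : Type) [Field k] [IsAlgClosed k] (N : ℕ) (I : Ideal (PP k N)) (n m : ℕ),
  IsSm 2 I → 0 < n → 2 ≤ m →
  ∃ D : ℕ, ∀ (a : PP k N) (z z' : NP k N) (lam lam' : Mon N m → k),
    a.IsHomogeneous n → Good I a → z ≠ z' →
    ∃ Φ : MvPolynomial (Mon N m ⊕ Mon N m) k, Φ ≠ 0 ∧ Φ.totalDegree ≤ D ∧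
      ∀ (β₀ β₁ : Mon N m → k) (y : NP k N), On I y.1 → aeval y.1 a = 0 → y ≠ z → y ≠ z' →
        aeval y.1 (form (pr z.1 z'.1 lam lam' β₀)) = 0 →
        aeval y.1 (form (pr z.1 z'.1 lam lam' β₁)) = 0 → eval (Sum.elim β₀ β₁) Φ = 0

/-- Most pencils are general, uniformly. -/
def S_KEY2 : Prop := ∀ (k : Type) [Field k] [IsAlgClosed k] (N : ℕ) (I : Ideal (PP k N))
  (n m : ℕ), IsSm 2 I → 0 < n → 5 ≤ m →
  ∃ D : ℕ, ∀ (a : PP k N) (Q : Ideal (PP k N)) (z z' : NP k N) (lam lam' : Mon N m → k),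
    a.IsHomogeneous n → Good I a → CurveOf I a Q → z ≠ z' →
    ∃ Φ : MvPolynomial (Mon N m ⊕ Mon N m) k, Φ ≠ 0 ∧ Φ.totalDegree ≤ D ∧
      ∀ β₀ β₁ : Mon N m → k, eval (Sum.elim β₀ β₁) Φ ≠ 0 →
        Pencil Q z z' (form (pr z.1 z'.1 lam lam' β₀)) (form (pr z.1 z'.1 lam lam' β₁))

/-- Counting zeros of polynomials. -/
def S_SZP : Prop := ∀ (k : Type) [Field k] (J : Type) [Finite J],
  (∀ (F : Subfield k) [Finite F] (π : (J → F) →+ (J → F)) (Φ : MvPolynomial J k)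
    (Bad : (J → F) → Prop), (∀ c, π (π c) = π c) → Φ ≠ 0 →
    (∀ c, Bad (π c) → eval (fun j => (c j : k)) Φ = 0) →
    {c | π c = c ∧ Bad c}.ncard * Nat.card F ≤ Φ.totalDegree * {c | π c = c}.ncard) ∧
  (∀ (π : (J → k) →ₗ[k] (J → k)) (Φ : MvPolynomial J k), ∃ Ψ : MvPolynomial J k,
    Ψ.totalDegree ≤ Φ.totalDegree ∧ ∀ w, eval w Ψ = eval (π w) Φ) ∧
  ∀ (w₀ w₁ : J → k) (Φ : MvPolynomial J k), eval w₀ Φ ≠ 0 →
    {t : k | eval (w₀ + t • w₁) Φ = 0}.Finite ∧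
    {t : k | eval (w₀ + t • w₁) Φ = 0}.ncard ≤ Φ.totalDegree

/-- Rational points impose independent conditions. -/
def S_CNT : Prop := ∀ (k : Type) [Field k] (N m : ℕ) (F : Subfield k) (ι : Type) [Fintype ι]
  (y : ι → NP k N), Injective y → (∀ a, RatPt F (y a)) → Fintype.card ι ≤ m + 1 →
  (∀ g : ι → F, ∃ c : Mon N m → F, ∀ a, aeval (y a).1 (formF c) = g a) ∧
  (Finite F → {c : Mon N m → F | ∀ a, aeval (y a).1 (formF c) = 0}.ncard *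
    Nat.card F ^ Fintype.card ι = Nat.card (Mon N m → F))

/-- A rational form separating finitely many points. -/
def S_ELL : Prop := ∀ (k : Type) [Field k] (N m : ℕ) (F : Subfield k) [Finite F] (z z' : NP k N)
  (Y : Set (NP k N)) (β : NP k N → k), 3 ≤ m → z ≠ z' → RatPt F z → RatPt F z' → Y.Finite →
  z ∉ Y → z' ∉ Y → (∀ y ∈ Y, β y ≠ 0) → Y.ncard ^ 2 < Nat.card F →
  ∃ l : PP k N, l.IsHomogeneous m ∧ RatP F l ∧ aeval z.1 l = 0 ∧ aeval z'.1 l = 0 ∧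
    ∀ y ∈ Y, ∀ y' ∈ Y, aeval y.1 l * β y' = aeval y'.1 l * β y → y = y'

/-- A general pencil is simply branched. -/
def S_KEY0 : Prop := ∀ (k : Type) [Field k] [IsAlgClosed k] (N : ℕ) (Q : Ideal (PP k N))
  (E : Type) [Field E] [Algebra k E] (ξ : Fin (N + 1) → E)
  (pl : {y : NP k N // On Q y.1} ≃ Place k E) (z z' : NP k N) (b₀ b₁ l : PP k N) (m n : ℕ),
  IsSm 1 Q → Dict Q ξ pl → z ≠ z' → On Q z.1 → On Q z'.1 → b₀.IsHomogeneous m →
  b₁.IsHomogeneous m → l.IsHomogeneous m → (∀ b ∈ [b₀, b₁, l], aeval z.1 b = 0 ∧ aeval z'.1 b = 0) →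
  Pencil Q z z' b₀ b₁ → degC Q b₁ = n + 2 → 0 < n →
  {y : NP k N | On Q y.1 ∧ aeval y.1 b₁ = 0 ∧ y ≠ z ∧ y ≠ z'}.ncard = n ∧
  ((∀ y ∈ {y : NP k N | On Q y.1 ∧ aeval y.1 b₁ = 0 ∧ y ≠ z ∧ y ≠ z'},
    ∀ y' ∈ {y : NP k N | On Q y.1 ∧ aeval y.1 b₁ = 0 ∧ y ≠ z ∧ y ≠ z'},
      aeval y.1 l * aeval y'.1 b₀ = aeval y'.1 l * aeval y.1 b₀ → y = y') →
    SB k n (-aeval ξ b₀ / aeval ξ b₁) (aeval ξ l / aeval ξ b₁))

/-- The plane model is defined over the finite field. -/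
def S_KEYR : Prop := ∀ (k : Type) [Field k] (N : ℕ) (E : Type) [Field E] [Algebra k E]
  (ξ : Fin (N + 1) → E) (ψ : k →+* k) (b₀ b₁ l : PP k N) (m : ℕ) (f : k[X][X]),
  (∀ g ∈ van k ξ, map ψ g ∈ van k ξ) → b₀.IsHomogeneous m → b₁.IsHomogeneous m →
  l.IsHomogeneous m → map ψ b₀ = b₀ → map ψ b₁ = b₁ → map ψ l = l → aeval ξ b₁ ≠ 0 →
  (sp f (-aeval ξ b₀ / aeval ξ b₁)).eval (aeval ξ l / aeval ξ b₁) = 0 →
  (sp (f.map (Polynomial.mapRingHom ψ)) (-aeval ξ b₀ / aeval ξ b₁)).eval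
    (aeval ξ l / aeval ξ b₁) = 0

/-- Split members of the pencil and split parameters. -/
def S_KEYS : Prop := ∀ (k : Type) [Field k] [IsAlgClosed k] (p : ℕ) [Fact p.Prime] [CharP k p]
  (s : ℕ) (F : Subfield k) (N : ℕ) (Q : Ideal (PP k N))
  (E : Type) [Field E] [Algebra k E] (ξ : Fin (N + 1) → E)
  (pl : {y : NP k N // On Q y.1} ≃ Place k E) (z z' : NP k N) (b₀ b₁ l : PP k N) (m n : ℕ)
  (t₀ : k) (x₀ : Fin n → k), IsFq p s F → IsSm 1 Q → Dict Q ξ pl →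
  (∀ f ∈ Q, map (frob k p s) f ∈ Q) → On Q z.1 → On Q z'.1 → RatPt F z → RatPt F z' →
  b₀.IsHomogeneous m → b₁.IsHomogeneous m → l.IsHomogeneous m →
  (∀ b ∈ [b₀, b₁, l], RatP F b ∧ aeval z.1 b = 0 ∧ aeval z'.1 b = 0) → Pencil Q z z' b₀ b₁ →
  t₀ ∈ F → ordI Q z (b₀ + C t₀ * b₁) ≤ 1 → ordI Q z' (b₀ + C t₀ * b₁) ≤ 1 → Injective x₀ →
  Fib (-aeval ξ b₀ / aeval ξ b₁) (aeval ξ l / aeval ξ b₁) t₀ x₀ →
  (SplC Q F (b₀ + C t₀ * b₁) ↔ ∀ i, x₀ i ∈ F)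

/-- The number of split members of a general pencil. -/
def S_KEY1 : Prop := ∀ n : ℕ, 0 < n → ∃ C' : ℕ, ∀ (k : Type) [Field k] [IsAlgClosed k] (p : ℕ)
  [Fact p.Prime] [CharP k p] (s : ℕ) (F : Subfield k) (N m : ℕ) (Q : Ideal (PP k N))
  (z z' : NP k N) (b₀ b₁ : PP k N), IsFq p s F → n ^ 2 < (p ^ s) ^ 2 → 3 ≤ m → IsSm 1 Q →
  (∀ f ∈ Q, map (frob k p s) f ∈ Q) → z ≠ z' → On Q z.1 → On Q z'.1 → RatPt F z → RatPt F z' →
  b₀.IsHomogeneous m → b₁.IsHomogeneous m →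
  (∀ b ∈ [b₀, b₁], RatP F b ∧ aeval z.1 b = 0 ∧ aeval z'.1 b = 0) → Pencil Q z z' b₀ b₁ →
  degC Q b₁ = n + 2 →
  |(n ! * {t : k | t ∈ F ∧ SplC Q F (b₀ + C t * b₁)}.ncard : ℤ) - (p ^ s) ^ 2| ≤ C' * p ^ s

/-- The key estimate. -/
def S_KEY : Prop := ∀ (k : Type) [Field k] [IsAlgClosed k] (p : ℕ) [Fact p.Prime] [CharP k p]
  (N : ℕ) (I : Ideal (PP k N)) (n m d : ℕ) (ε : ℝ), IsSm 2 I → 0 < n → 5 ≤ m → m ≤ d →
  (∀ a b : PP k N, a.IsHomogeneous n → Good I a → b.IsHomogeneous m → Cop I a b →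
    deg I a b = d) → 0 < ε →
  ∃ s₀, ∀ (s : ℕ) (F : Subfield k) (a : PP k N) (z z' : NP k N), s₀ ≤ s → IsFq p s F → RatI F I →
    a.IsHomogeneous n → Good I a → RatP F a → z ≠ z' → RatPt F z → RatPt F z' → On I z.1 →
    On I z'.1 → aeval z.1 a = 0 → aeval z'.1 a = 0 →
    |((d - 2)! * {c : Mon N m → F | Split I F a (formF c) ∧ aeval z.1 (formF c) = 0 ∧
        aeval z'.1 (formF c) = 0}.ncard : ℝ) -
      {c : Mon N m → F | aeval z.1 (formF c) = 0 ∧ aeval z'.1 (formF c) = 0}.ncard| ≤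
    ε * {c : Mon N m → F | aeval z.1 (formF c) = 0 ∧ aeval z'.1 (formF c) = 0}.ncard

/-- Approximate designs. -/
def S_QF0 : Prop := ∀ (α β : Type) (P : Finset α) (C : Finset β) (S : β → Finset α) (d : ℕ)
  (ν μ : ℝ) (v : α → ℝ), 3 ≤ d → 2 ≤ P.card → 0 < μ → (8 * d + 4) * μ ≤ ν →
  (∀ c ∈ C, S c ⊆ P ∧ (S c).card = d) →
  (∀ z ∈ P, ∀ z' ∈ P, z ≠ z' →
    |({c | c ∈ C ∧ z ∈ S c ∧ z' ∈ S c}.ncard : ℝ) - ν| ≤ ν / (4 * d)) →
  (∀ z ∈ P, ∀ z' ∈ P, ∀ z'' ∈ P, z ≠ z' → z ≠ z'' → z' ≠ z'' →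
    ({c | c ∈ C ∧ z ∈ S c ∧ z' ∈ S c ∧ z'' ∈ S c}.ncard : ℝ) ≤ μ) →
  ν ^ 2 / (8 * d * μ) * ∑ z ∈ P, v z ^ 2 ≤ ∑ c ∈ C, (∑ z ∈ S c, v z) ^ 2

/-- The spectral gap on one curve. -/
def S_QF : Prop := ∀ (k : Type) [Field k] [IsAlgClosed k] (p : ℕ) [Fact p.Prime] [CharP k p]
  (N : ℕ) (I : Ideal (PP k N)) (n m : ℕ), IsSurf I → 0 < n → 5 ≤ m →
  ∃ (d : ℕ) (c₀ : ℝ) (s₀ : ℕ), 2 ≤ d ∧ 0 < c₀ ∧ ∀ (s : ℕ) (F : Subfield k) (a : PP k N), s₀ ≤ s →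
    IsFq p s F → RatI F I → a.IsHomogeneous n → Good I a → RatP F a →
    (∀ b : PP k N, b.IsHomogeneous m → Split I F a b → (Zs I a b).ncard = d) ∧
    ∀ (C : Finset (Mon N m → F)) (P : Finset (NP k N)) (S : (Mon N m → F) → Finset (NP k N))
      (v : NP k N → ℝ), (∀ c, c ∈ C ↔ Split I F a (formF c)) →
      (∀ y, y ∈ P ↔ RatPt F y ∧ On I y.1 ∧ aeval y.1 a = 0) →
      (∀ c ∈ C, ∀ y, y ∈ S c ↔ y ∈ Zs I a (formF c)) → 2 ≤ P.card →
      c₀ * Nat.card (Mon N m → F) * ∑ y ∈ P, v y ^ 2 ≤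
        (p ^ s) ^ 2 * ∑ c ∈ C, (∑ y ∈ S c, v y) ^ 2

/-- Sums over affine lines. -/
def S_L20 : Prop := ∀ (F U : Type) [Field F] [Fintype F] [AddCommGroup U] [Module F U] [Fintype U]
  (u : U → ℝ), ∑ b, u b = 0 →
  ∑ b₀, ∑ b₁, (∑ t : F, u (b₀ + t • b₁)) ^ 2 = Fintype.card F * Fintype.card U * ∑ b, u b ^ 2

/-- The abstract spectral gap argument. -/
def S_L21 : Prop := ∀ (F V α : Type) [Field F] [Fintype F] [AddCommGroup V] [Module F V]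
  [Fintype V] (U : α → Submodule F V) (P : Finset α) (G : Finset V) (Sp : V → Finset V)
  (S : V → V → Finset α) (u : V → α → ℝ) (d D : ℕ) (c₀ : ℝ),
  (∀ y ∈ P, Nat.card (U y) * Fintype.card F = Fintype.card V) →
  (∀ b, ∀ y ∈ P, u b y ≠ 0 → b ∈ G ∧ b ∈ U y) → (∀ y ∈ P, ∑ b, u b y = 0) →
  (∀ b₀ ∈ G, ∀ b₁ ∈ Sp b₀, S b₀ b₁ ⊆ P ∧ (S b₀ b₁).card ≤ d ∧
    (∀ y ∈ S b₀ b₁, b₀ ∈ U y ∧ b₁ ∈ U y) ∧ {t : F | b₀ + t • b₁ ∉ G}.ncard ≤ D ∧
    ∀ t : F, b₀ + t • b₁ ∈ G → ∑ y ∈ S b₀ b₁, u (b₀ + t • b₁) y = ∑ y ∈ S b₀ b₁, u b₀ y) →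
  (∀ b₀ ∈ G, c₀ * Fintype.card V * ∑ y ∈ P, u b₀ y ^ 2 ≤
    Fintype.card F * ∑ b₁ ∈ Sp b₀, (∑ y ∈ S b₀ b₁, u b₀ y) ^ 2) →
  D ≤ Fintype.card F → (Fintype.card F * d : ℝ) < (Fintype.card F - D) ^ 2 * c₀ →
  ∀ b, ∀ y ∈ P, u b y = 0

/-- Smooth curves, additivity of intersection cycles. -/
def S_NB : Prop := ∀ (k : Type) [Field k] [IsAlgClosed k] (N : ℕ) (I : Ideal (PP k N)), IsSurf I →
  (∀ (H : Set (PP k N)) (n : ℕ), H.Finite → (∀ h ∈ H, h ∉ I ∧ ∃ e, h.IsHomogeneous e) → 0 < n →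
    ∃ a : PP k N, a.IsHomogeneous n ∧ Good I a ∧ ∀ h ∈ H, Cop I h a) ∧
  (∀ (a : PP k N) (n : ℕ), a.IsHomogeneous n → Good I a → a ∉ I) ∧
  (∀ χ h g g', Cop I h g → Cop I h g' →
    wsum I χ h (g * g') = wsum I χ h g + wsum I χ h g') ∧
  (∀ χ χ' h g, Cop I h g → wsum I (χ - χ') h g = wsum I χ h g - wsum I χ' h g) ∧
  (∀ χ χ' h g, Cop I h g → (∀ y ∈ Zs I h g, χ y = χ' y) → wsum I χ h g = wsum I χ' h g) ∧
  ∀ χ (F : Subfield k) h g (S : Finset (NP k N)), Split I F h g → (∀ y, y ∈ S ↔ y ∈ Zs I h g) →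
    wsum I χ h g = ∑ y ∈ S, χ y

/-- Compatible weights on the smooth curves of one degree come from a weight on the surface. -/
def S_L2A : Prop := ∀ (k : Type) [Field k] [IsAlgClosed k] (p : ℕ) [Fact p.Prime] [CharP k p]
  (N : ℕ) (I : Ideal (PP k N)) (m : ℕ) (χ : PP k N → NP k N → ℚ), LocFin k p → IsSurf I → 5 ≤ m →
  (∀ a b : PP k N, a.IsHomogeneous m → Good I a → b.IsHomogeneous m → Good I b → Cop I a b →
    wsum I (χ a) a b = wsum I (χ b) a b) →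
  ∀ (a b : PP k N) (z : NP k N), a.IsHomogeneous m → Good I a → b.IsHomogeneous m → Good I b →
    On I z.1 → aeval z.1 a = 0 → aeval z.1 b = 0 → χ a z = χ b z

/-- A weight on a smooth curve is determined by its sums over smooth sections. -/
def S_L2B : Prop := ∀ (k : Type) [Field k] [IsAlgClosed k] (p : ℕ) [Fact p.Prime] [CharP k p]
  (N : ℕ) (I : Ideal (PP k N)) (n m : ℕ) (a : PP k N) (D : NP k N → ℚ), LocFin k p → IsSurf I →
  0 < n → 5 ≤ m → a.IsHomogeneous n → Good I a →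
  (∀ b : PP k N, b.IsHomogeneous m → Good I b → Cop I a b → wsum I D a b = 0) →
  ∀ z : NP k N, On I z.1 → aeval z.1 a = 0 → D z = 0

/-- Extension of additive functionals; cocycles. -/
def S_EXT : Prop :=
  (∀ (α ι : Type) (dv : ι → α →₀ ℕ) (β : ι → ℚ),
    (∀ i j, ∃ l, dv l = dv i + dv j ∧ β l = β i + β j) → (∀ i j, dv i = dv j → β i = β j) →
    ∃ χ : α → ℚ, ∀ i, β i = (dv i).sum fun y n => χ y * n) ∧
  ∀ (α : Type) (R : α → α → Prop) (ω : α → α → ℚ), (∀ a b, R a b → R b a) →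
    (∀ a b c d, ∃ x, R a x ∧ R b x ∧ R c x ∧ R d x) → (∀ a b, ω a b = - ω b a) →
    (∀ a b c, R a b → R b c → R c a → ω a b + ω b c + ω c a = 0) →
    ∃ f : α → ℚ, ∀ a b, R a b → ω a b = f a - f b

/-- Additive functionals on a smooth curve factor through divisors. -/
def S_STEP1 : Prop := ∀ (k : Type) [Field k] [IsAlgClosed k] (p : ℕ) [Fact p.Prime] [CharP k p]
  (N : ℕ) (I : Ideal (PP k N)) (n : ℕ) (a : PP k N) (β : PP k N → ℚ), LocFin k p → IsSm 2 I →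
  0 < n → a.IsHomogeneous n → Good I a →
  (∀ g g', Cop I a g → Cop I a g' → β (g * g') = β g + β g') →
  (∀ g g' e, Cop I a g → Cop I a g' → g.IsHomogeneous e → g'.IsHomogeneous e →
    (∀ y : NP k N, On I y.1 → aeval y.1 a = 0 → aeval y.1 g = aeval y.1 g') → β g = β g') →
  ∃ χ : NP k N → ℚ, ∀ g, Cop I a g → β g = wsum I χ a g

/-- The global weight. -/
def S_CORE1 : Prop := ∀ (k : Type) [Field k] [IsAlgClosed k] (p : ℕ) [Fact p.Prime] [CharP k p]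
  (N : ℕ) (I : Ideal (PP k N)) (B : PP k N → PP k N → ℚ), LocFin k p → IsSurf I → IsSymbol I B →
  ∃ (χ : NP k N → ℚ) (γ : PP k N → ℚ), ∀ a g : PP k N, a.IsHomogeneous 5 → Good I a →
    Cop I a g → B a g = wsum I χ a g + γ a * g.totalDegree

/-- Symmetrization. -/
def S_CORE2 : Prop := ∀ (k : Type) [Field k] [IsAlgClosed k] (p : ℕ) [Fact p.Prime] [CharP k p]
  (N : ℕ) (I : Ideal (PP k N)) (B : PP k N → PP k N → ℚ) (γ₀ : PP k N → ℚ), LocFin k p →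
  IsSurf I → (∀ h h' g, Cop I h g → Cop I h' g → B (h * h') g = B h g + B h' g) →
  (∀ h g g', Cop I h g → Cop I h g' → B h (g * g') = B h g + B h g') →
  (∀ a b c e, a.IsHomogeneous e → b.IsHomogeneous e → c.IsHomogeneous e →
    Cop I a b → Cop I b c → Cop I c a → B a b + B b c + B c a = B a c + B b a + B c b) →
  (∀ a g : PP k N, a.IsHomogeneous 5 → Good I a → Cop I a g → B a g = γ₀ a * g.totalDegree) →
  ∃ γ : PP k N → ℚ,
    (∀ h g, Cop I h g → B h g - γ h * g.totalDegree = B g h - γ g * h.totalDegree) ∧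
    (∀ h a : PP k N, a.IsHomogeneous 5 → Good I a → Cop I h a → B h a = γ h * a.totalDegree) ∧
    ∀ h (c : k), Cop I h (C c) → B h (C c) = 0

/-- Every symbol comes from a weight on the points. -/
def S_CORE : Prop := ∀ (k : Type) [Field k] [IsAlgClosed k] (p : ℕ) [Fact p.Prime] [CharP k p]
  (N : ℕ) (I : Ideal (PP k N)) (B : PP k N → PP k N → ℚ), LocFin k p → IsSurf I → IsSymbol I B →
  ∃ χ : NP k N → ℚ, ∀ (h g g' : PP k N) (e : ℕ), g.IsHomogeneous e → g'.IsHomogeneous e →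
    Cop I h g → Cop I h g' → B h g - B h g' = wsum I χ h g - wsum I χ h g'

end Pool.Agent.P.MP_12d50c_ag
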