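import Pool.Agent.P.MP_12d50c_ag.If3

/-!
Statements, part 4: the cycle complex in coordinates.
-/

open MvPolynomial Function
open scoped IntermediateField Polynomial

namespace Pool.Agent.P.MP_12d50c_ag

/-- Coordinates on the product of projective space and a simplex. -/
abbrev Ix (N n : ℕ) : Type := Fin (N + 1) ⊕ Fin (n + 1)

/-- The weights of the coordinates. -/
def wt (N n : ℕ) : Ix N n → ℕ := Sum.elim (fun _ => 1) fun _ => 0

/-- The coordinate ring. -/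
abbrev RR (k : Type) [CommRing k] (N n : ℕ) : Type := MvPolynomial (Ix N n) k

section

variable {k : Type} [Field k] {N m n : ℕ}

/-- Restriction along a map of simplices. -/
noncomputable def smap (g : Fin (m + 1) → Fin (n + 1)) : RR k N n →ₐ[k] RR k N m :=
  aeval (Sum.elim (fun i => X (Sum.inl i)) fun j => ∑ i with g i = j, X (Sum.inr i))

/-- Forms on projective space as elements of the coordinate ring. -/
noncomputable abbrev inc (n : ℕ) : PP k N →ₐ[k] RR k N n := rename Sum.inl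

/-- The ideal of `V(p) × Δ^n`. -/
noncomputable def cyl (p : Ideal (PP k N)) (n : ℕ) : Ideal (RR k N n) :=
  p.map (inc n) ⊔ Ideal.span {∑ j, X (Sum.inr j) - 1}

/-- Restriction to a vertex. -/
noncomputable def vtx (v : Fin (n + 1)) : RR k N n →ₐ[k] PP k N :=
  aeval (Sum.elim X (Pi.single v 1))

/-- The primes that correspond to points of `V(I) × Δ^n`. -/
structure Adm (I : Ideal (PP k N)) (P : Ideal (RR k N n)) : Prop where
  prime : P.IsPrime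
  hom : WHom (wt N n) P
  le : cyl I n ≤ P
  rel : ∃ i, X (Sum.inl i) ∉ P

/-- Subvarieties of dimension `n` of `V(I) × Δ^n`. -/
def Cv (I : Ideal (PP k N)) (n : ℕ) : Set (PrimeSpectrum (RR k N n)) :=
  {P | Adm I P.asIdeal ∧ ringKrullDim (RR k N n ⧸ P.asIdeal) = (n + 1 : ℕ)}

/-- `W` meets all faces properly. -/
def Prp (I : Ideal (PP k N)) (W : Ideal (RR k N n)) : Prop :=
  ∀ (m : ℕ) (g : Fin (m + 1) ↪o Fin (n + 1)) (Q : Ideal (RR k N m)), Adm I Q →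
    W.map (smap g) ≤ Q → ringKrullDim (RR k N m ⧸ Q) ≤ (m + 1 : ℕ)

/-- The coefficient of `Q` in the boundary of `W`. -/
noncomputable def bdA (W : Ideal (RR k N (n + 1))) (Q : PrimeSpectrum (RR k N n)) : ℤ :=
  ∑ j : Fin (n + 2), (-1) ^ (j : ℕ) * ((len (W.map (smap j.succAbove)) Q.asIdeal).toNat : ℤ)

/-- `φ` vanishes on boundaries. -/
def Kills (I : Ideal (PP k N)) (φ : Ideal (RR k N 1) → ℚ) : Prop :=
  ∀ W ∈ Cv I 2, Prp I W.asIdeal → ∑ᶠ Q ∈ Cv I 1, φ Q.asIdeal * bdA W.asIdeal Q = 0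

/-- Every functional that vanishes on boundaries vanishes on cycles. -/
def TA (I : Ideal (PP k N)) : Prop := ∀ φ, Kills I φ → ∀ c : PrimeSpectrum (RR k N 1) →₀ ℚ,
  (∀ Q ∈ c.support, Q ∈ Cv I 1 ∧ Prp I Q.asIdeal) →
  (∀ z ∈ Cv I 0, (c.sum fun Q r => r * bdA Q.asIdeal z) = 0) →
  (c.sum fun Q r => r * φ Q.asIdeal) = 0

/-- Curves on `V(I)`. -/
def Cu (I : Ideal (PP k N)) : Set (PrimeSpectrum (PP k N)) :=
  {p | Hom p.asIdeal ∧ I ≤ p.asIdeal ∧ ringKrullDim (PP k N ⧸ p.asIdeal) = 2}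

/-- Evaluation at `(ξ, t)`. -/
noncomputable def th {E T : Type} [Field E] [CommRing T] [Algebra E T] [Algebra k T]
    (ξ : Fin (N + 1) → E) (t : Fin (n + 1) → T) : RR k N n →ₐ[k] T :=
  aeval (Sum.elim (algebraMap E T ∘ ξ) t)

/-- Evaluation at the generic point of a curve times `Δ^1`. -/
noncomputable abbrev th1 {E : Type} [Field E] [Algebra k E] (ξ : Fin (N + 1) → E) :
    RR k N 1 →ₐ[k] E[X] := th ξ ![1 - Polynomial.X, Polynomial.X]

variable (k) in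
/-- The curve in `V(p) × Δ^1` given by the polynomial `π`. -/
noncomputable def QP {E : Type} [Field E] [Algebra k E] (ξ : Fin (N + 1) → E) (π : E[X]) :
    Ideal (RR k N 1) :=
  vanw k (wt N 1) (Sum.elim (algebraMap E (AdjoinRoot π) ∘ ξ)
    ![1 - AdjoinRoot.root π, AdjoinRoot.root π])

variable (k) in
/-- `ξ` is the generic point of a curve. -/
structure CvD {E : Type} [Field E] [Algebra k E] (ξ : Fin (N + 1) → E) : Prop where
  gen : Gen k 1 ξ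
  one : ∃ i, ξ i = 1
  dim : ringKrullDim (PP k N ⧸ van k ξ) = 2

/-- The value of `φ` on the divisor of `p`. -/
noncomputable def cyc {E : Type} [Field E] [Algebra k E] (φ : Ideal (RR k N 1) → ℚ)
    (ξ : Fin (N + 1) → E) (p : E[X]) : ℚ :=
  ∑ᶠ π ∈ {π : E[X] | π.Monic ∧ Irreducible π}, φ (QP k ξ π) * multiplicity π p

/-- `G` is an equation of the curve `Q` in `V(p) × Δ^1`, up to vertical components. -/
structure Gen1 (p : Ideal (PP k N)) (Q : PrimeSpectrum (RR k N 1)) (G : RR k N 1) : Prop where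
  cv : Q ∈ Cv p 1
  under : Q.asIdeal.comap (inc 1) = p
  hom : ∃ d, IsWeightedHomogeneous (wt N 1) G d
  one : len (cyl p 1 ⊔ Ideal.span {G}) Q.asIdeal = 1
  uniq : ∀ Q' ∈ Cv p 1, Q'.asIdeal.comap (inc 1) = p → G ∈ Q'.asIdeal → Q' = Q

/-- The functional on the function field of the curve `p` induced by `φ`. -/
structure Beta (φ : Ideal (RR k N 1) → ℚ) (p : Ideal (PP k N)) (β : PP k N → ℚ) : Prop where
  mul : ∀ (g g' : PP k N) (e e' : ℕ), g.IsHomogeneous e → g'.IsHomogeneous e' → g ∉ p → g' ∉ p →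
    β (g * g') = β g + β g'
  congr : ∀ g g', g - g' ∈ p → β g = β g'
  const : ∀ c : k, c ≠ 0 → β (C c) = 0
  val : ∀ Q G, Gen1 p Q G → vtx 0 G ∉ p → vtx 1 G ∉ p → φ Q.asIdeal = β (vtx 0 G) - β (vtx 1 G)

/-- The symbol. -/
noncomputable def Bsym (I : Ideal (PP k N)) (β : Ideal (PP k N) → PP k N → ℚ) (h g : PP k N) : ℚ :=
  ∑ᶠ p ∈ Cu I, (len (I ⊔ Ideal.span {h}) p.asIdeal).toNat * β p.asIdeal g

/-- The equation of the graph of `t_1 = c / H`. -/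
noncomputable def grEq (H c : PP k N) : RR k N 1 := X (Sum.inr 1) * inc 1 H - inc 1 c

/-- Extension of the ground field. -/
noncomputable abbrev ext (F k τ : Type) [Field F] [Field k] [Algebra F k] :
    MvPolynomial τ F →+* MvPolynomial τ k := map (algebraMap F k)

end

/-- Points with the same ideal. -/
def S_EMB : Prop := ∀ (k : Type) [Field k] (τ : Type) (w : τ → ℕ) (L M : Type) [Field L] [Field M]
  [Algebra k L] [Algebra k M] (ξ : τ → L) (η : τ → M) (i : τ), Gen k w ξ → w i = 1 → ξ i = 1 →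
  η i = 1 → vanw k w ξ = vanw k w η → ∃ ψ : L →ₐ[k] M, ∀ j, ψ (ξ j) = η j

/-- Lengths and surjections. -/
def S_LS : Prop := ∀ (R S : Type) [CommRing R] [CommRing S] (f : R →+* S) (J : Ideal R)
  (Q : Ideal S) [Q.IsPrime], Surjective f → len (J.map f) Q = len (J ⊔ RingHom.ker f) (Q.comap f)

/-- The associativity formula. -/
def S_AS : Prop := ∀ (R : Type) [CommRing R] [IsNoetherianRing R] (J q : Ideal R) [q.IsPrime]
  (x : R) (S : Finset (PrimeSpectrum R)),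
  (∀ P : PrimeSpectrum R, J ≤ P.asIdeal → P.asIdeal < q → P ∈ S) →
  (∀ P ∈ S, J ≤ P.asIdeal ∧ x ∉ P.asIdeal) → (∀ P ∈ S, ∀ P' ∈ S, P ≤ P' → P = P') →
  (∀ a, x * a ∈ J → ∃ s, s ∉ q ∧ s * a ∈ J) →
  (len (J ⊔ Ideal.span {x}) q).toNat =
    ∑ P ∈ S, (len J P.asIdeal).toNat * (len (P.asIdeal ⊔ Ideal.span {x}) q).toNat

/-- The maps between coordinate rings. -/
def S_VP0 : Prop := ∀ (k : Type) [Field k] (N n : ℕ),
  (∀ (m : ℕ) (g : Fin (m + 1) → Fin (n + 1)),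
    (∀ p : Ideal (PP k N), (cyl p n).map (smap g) = cyl p m) ∧
    (∀ (f : RR k N n) d, IsWeightedHomogeneous (wt N n) f d →
      IsWeightedHomogeneous (wt N m) (smap g f) d) ∧
    (∀ J : Ideal (RR k N n), WHom (wt N n) J → WHom (wt N m) (J.map (smap g))) ∧
    (∀ (I : Ideal (PP k N)) (Q : Ideal (RR k N m)), Adm I Q → Adm I (Q.comap (smap g))) ∧
    (∀ (v : Fin (m + 1)) (f : RR k N n), vtx v (smap g f) = vtx (g v) f) ∧
    (Injective g → Surjective (smap g : RR k N n → RR k N m) ∧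
      RingHom.ker (smap g : RR k N n →ₐ[k] RR k N m) =
        Ideal.span ((fun j => X (Sum.inr j)) '' (Set.range g)ᶜ))) ∧
  (∀ (f : PP k N) d, f.IsHomogeneous d → IsWeightedHomogeneous (wt N n) (inc n f) d) ∧
  (∀ P : Ideal (RR k N n), WHom (wt N n) P → Hom (P.comap (inc n))) ∧
  (∀ p : Ideal (PP k N), Hom p → WHom (wt N n) (cyl p n)) ∧
  ∀ v : Fin (n + 1), (∀ f : PP k N, vtx v (inc n f) = f) ∧
    (∀ (f : RR k N n) d, IsWeightedHomogeneous (wt N n) f d → (vtx v f).IsHomogeneous d) ∧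
    ∀ p : Ideal (PP k N), (cyl p n).map (vtx v) = p ∧
      p.comap (vtx v) = cyl p n ⊔ Ideal.span ((fun j => X (Sum.inr j)) '' {v}ᶜ)

/-- Products with a simplex. -/
def S_VP : Prop := ∀ (k : Type) [Field k] (N n : ℕ),
  (∀ p : Ideal (PP k N), p.IsPrime → (cyl p n).IsPrime ∧
    ringKrullDim (RR k N n ⧸ cyl p n) = ringKrullDim (PP k N ⧸ p) + n) ∧
  ∀ (E T : Type) [Field E] [CommRing T] [Algebra k E] [Algebra E T] [Algebra k T]
    [IsScalarTower k E T] (ξ : Fin (N + 1) → E) (t : Fin (n + 1) → T), ∑ j, t j = 1 →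
    (AlgebraicIndependent E (fun j : Fin n => t j.succ) →
      vanw k (wt N n) (Sum.elim (algebraMap E T ∘ ξ) t) = cyl (van k ξ) n) ∧
    (Gen k 1 ξ → (∃ i, ξ i = 1) → ∀ g ∈ Algebra.adjoin E (Set.range t),
      ∃ (G : RR k N n) (d : ℕ) (u : E), u ≠ 0 ∧ IsWeightedHomogeneous (wt N n) G d ∧
        th ξ t G = algebraMap E T u * g)

/-- Generic points over a larger field. -/
def S_GENL : Prop := ∀ (k : Type) [Field k] (N n : ℕ) (E L : Type) [Field E] [Field L]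
  [Algebra k E] [Algebra E L] [Algebra k L] [IsScalarTower k E L] (ξ : Fin (N + 1) → E)
  (t : Fin (n + 1) → L), ∑ j, t j = 1 → Gen k 1 ξ → (∃ i, ξ i = 1) →
  (∀ u : L, ∃ a ∈ Algebra.adjoin E (Set.range t), ∃ b ∈ Algebra.adjoin E (Set.range t),
    b ≠ 0 ∧ u * b = a) → Gen k (wt N n) (Sum.elim (algebraMap E L ∘ ξ) t)

/-- The projection to the surface. -/
def S_CL : Prop := ∀ (k : Type) [Field k] (N : ℕ) (I : Ideal (PP k N)),
  (∀ (n : ℕ) (P : Ideal (RR k N n)), Adm I P → I ≤ P.comap (inc n) ∧ cyl (P.comap (inc n)) n ≤ P ∧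
    ringKrullDim (PP k N ⧸ P.comap (inc n)) ≤ ringKrullDim (RR k N n ⧸ P) ∧
    ringKrullDim (RR k N n ⧸ P) ≤ ringKrullDim (PP k N ⧸ P.comap (inc n)) + n) ∧
  (∀ (n : ℕ) (y : NP k N), On I y.1 → Hom I →
    ∃ V ∈ Cv I n, V.asIdeal = cyl (van k y.1) n ∧ Prp I V.asIdeal) ∧
  (IsAlgClosed k → ∀ Q ∈ Cv I 1, (∃ p ∈ Cu I, p.asIdeal = Q.asIdeal.comap (inc 1)) ∨
    ∃ y : NP k N, On I y.1 ∧ Q.asIdeal = cyl (van k y.1) 1)

/-- Boundaries have finite support. -/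
def S_FINB : Prop := ∀ (k : Type) [Field k] (N n : ℕ) (I : Ideal (PP k N)),
  ∀ W ∈ Cv I (n + 1), Prp I W.asIdeal →
    (∀ j : Fin (n + 2), {Q ∈ Cv I n | W.asIdeal.map (smap j.succAbove) ≤ Q.asIdeal}.Finite) ∧
    {Q ∈ Cv I n | bdA W.asIdeal Q ≠ 0}.Finite

/-- Vertical lines are boundaries. -/
def S_PT0 : Prop := ∀ (k : Type) [Field k] (N : ℕ) (I : Ideal (PP k N)) (φ : Ideal (RR k N 1) → ℚ)
  (y : NP k N), Hom I → Kills I φ → On I y.1 → φ (cyl (van k y.1) 1) = 0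

/-- Curves over a curve are irreducible polynomials over its function field. -/
def S_M1 : Prop := ∀ (k : Type) [Field k] (N : ℕ) (E : Type) [Field E] [Algebra k E]
  (ξ : Fin (N + 1) → E), CvD k ξ →
  (∀ (π : E[X]) (G : RR k N 1) (d : ℕ), IsWeightedHomogeneous (wt N 1) G d →
    (G ∈ QP k ξ π ↔ π ∣ th1 ξ G)) ∧
  (∀ π : E[X], Irreducible π → ∃ Q ∈ Cv (van k ξ) 1, Q.asIdeal = QP k ξ π ∧
    Q.asIdeal.comap (inc 1) = van k ξ) ∧
  (∀ Q ∈ Cv (van k ξ) 1, Q.asIdeal.comap (inc 1) = van k ξ →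
    ∃ π : E[X], π.Monic ∧ Irreducible π ∧ Q.asIdeal = QP k ξ π) ∧
  ∀ π π' : E[X], π.Monic → Irreducible π → π'.Monic → Irreducible π' →
    QP k ξ π = QP k ξ π' → π = π'

/-- Lengths are multiplicities of polynomials. -/
def S_M2 : Prop := ∀ (k : Type) [Field k] (N : ℕ) (E : Type) [Field E] [Algebra k E]
  (ξ : Fin (N + 1) → E) (π g : E[X]) (Q : PrimeSpectrum (RR k N 1)) (J : Ideal (RR k N 1)),
  CvD k ξ → Irreducible π → Q.asIdeal = QP k ξ π → WHom (wt N 1) J → cyl (van k ξ) 1 ≤ J →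
  J.map (th1 ξ) = Ideal.span {g} → len J Q.asIdeal = emultiplicity π g

/-- Equations of curves. -/
def S_G12 : Prop := ∀ (k : Type) [Field k] (N : ℕ) (I : Ideal (PP k N)), ∀ p ∈ Cu I,
  (∀ Q ∈ Cv I 1, Q.asIdeal.comap (inc 1) = p.asIdeal → ∃ G, Gen1 p.asIdeal Q G ∧
    (Prp I Q.asIdeal → vtx 0 G ∉ p.asIdeal ∧ vtx 1 G ∉ p.asIdeal)) ∧
  ∀ (H c : PP k N) (e : ℕ), H.IsHomogeneous e → c.IsHomogeneous e → H ∉ p.asIdeal →
    ∃ Q, Gen1 p.asIdeal Q (grEq H c)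

/-- A rational surface over a curve with prescribed faces. -/
def S_REL1 : Prop := ∀ (k : Type) [Field k] (N : ℕ) (E : Type) [Field E] [Algebra k E]
  (ξ : Fin (N + 1) → E) (p p' : E[X]), CvD k ξ → IsCoprime p p' → p ≠ p' →
  p.eval 0 = p'.eval 0 → p.eval 1 = p'.eval 1 → p.eval 0 ≠ 0 → p.eval 1 ≠ 0 →
  ∃ W ∈ Cv (van k ξ) 2, Prp (van k ξ) W.asIdeal ∧ ∀ j : Fin 3,
    (W.asIdeal.map (smap j.succAbove)).map (th1 ξ) =
      Ideal.span {![p', p, Polynomial.C (p.eval 0)] j}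

def S_REL : Prop := ∀ (k : Type) [Field k] [IsAlgClosed k] (N : ℕ) (I : Ideal (PP k N))
  (φ : Ideal (RR k N 1) → ℚ) (E : Type) [Field E] [Algebra k E] (ξ : Fin (N + 1) → E)
  (p p' : E[X]), Hom I → Kills I φ → CvD k ξ → I ≤ van k ξ → IsCoprime p p' →
  p.eval 0 = p'.eval 0 → p.eval 1 = p'.eval 1 → p.eval 0 ≠ 0 → p.eval 1 ≠ 0 →
  cyc φ ξ p = cyc φ ξ p'

/-- The functional on the function field of a curve. -/
def S_AC : Prop := ∀ (k : Type) [Field k] [IsAlgClosed k] (p : ℕ) [Fact p.Prime] [CharP k p]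
  (N : ℕ) (I : Ideal (PP k N)) (φ : Ideal (RR k N 1) → ℚ), LocFin k p → Hom I → Kills I φ →
  ∀ q ∈ Cu I, ∃ β, Beta φ q.asIdeal β

/-- Curves on a surface. -/
def S_FINC : Prop := ∀ (k : Type) [Field k] [IsAlgClosed k] (N : ℕ) (I : Ideal (PP k N)),
  (∀ p ∈ Cu I, Rel p.asIdeal ∧ {y : NP k N | On p.asIdeal y.1}.Infinite ∧
    (∀ h g, Cop I h g → h ∈ p.asIdeal → g ∉ p.asIdeal) ∧
    (∀ p' ∈ Cu I, p ≤ p' → p = p') ∧
    ∀ (g g' : PP k N) (y : NP k N), g ∉ p.asIdeal → g' ∉ p.asIdeal → ordI p.asIdeal y g ≠ ⊤ ∧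
      ordI p.asIdeal y (g * g') = ordI p.asIdeal y g + ordI p.asIdeal y g') ∧
  (IsSm 2 I → ∀ h : PP k N, h ∉ I → {p ∈ Cu I | h ∈ p.asIdeal}.Finite ∧
    (∀ (g : PP k N) (e e' : ℕ), h.IsHomogeneous e → g.IsHomogeneous e' → g ∉ I →
      (∀ p ∈ Cu I, h ∈ p.asIdeal → g ∉ p.asIdeal) → Cop I h g) ∧
    ∀ p ∈ Cu I, len (I ⊔ Ideal.span {h}) p.asIdeal ≠ ⊤ ∧ ∀ h' : PP k N, h' ∉ I →
      len (I ⊔ Ideal.span {h * h'}) p.asIdeal =
        len (I ⊔ Ideal.span {h}) p.asIdeal + len (I ⊔ Ideal.span {h'}) p.asIdeal)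

/-- The graph of a rational map to the simplex. -/
def S_GR1 : Prop := ∀ (k : Type) [Field k] [IsAlgClosed k] (N : ℕ) (I : Ideal (PP k N))
  (a : Fin 3 → PP k N) (e : ℕ), IsSm 2 I → (∀ j, (a j).IsHomogeneous e) →
  (∀ i j, i ≠ j → Cop I (a i) (a j)) → ∑ j, a j ∉ I →
  ∃ W ∈ Cv I 2, Prp I W.asIdeal ∧ (∀ j, X (Sum.inr j) * inc 2 (∑ j, a j) - inc 2 (a j) ∈ W.asIdeal) ∧
    ∀ (j : Fin 3) (p : PrimeSpectrum (PP k N)) (Q : PrimeSpectrum (RR k N 1)), Adm I Q.asIdeal →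
      Q.asIdeal.comap (inc 1) = p.asIdeal → a j ∈ p.asIdeal → ∑ j, a j ∉ p.asIdeal →
      grEq (∑ j, a j) (a (j.succAbove 1)) ∈ Q.asIdeal →
      len (W.asIdeal.map (smap j.succAbove)) Q.asIdeal = len (I ⊔ Ideal.span {a j}) p.asIdeal

/-- The relation given by a graph. -/
def S_GR : Prop := ∀ (k : Type) [Field k] [IsAlgClosed k] (N : ℕ) (I : Ideal (PP k N))
  (φ : Ideal (RR k N 1) → ℚ) (β : Ideal (PP k N) → PP k N → ℚ) (a : Fin 3 → PP k N) (e : ℕ),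
  IsSm 2 I → Kills I φ → (∀ p ∈ Cu I, Beta φ p.asIdeal (β p.asIdeal)) →
  (∀ j, (a j).IsHomogeneous e) → (∀ i j, i ≠ j → Cop I (a i) (a j)) → ∑ j, a j ∉ I →
  ∑ j : Fin 3, (-1) ^ (j : ℕ) *
    (Bsym I β (a j) (a (j.succAbove 1)) - Bsym I β (a j) (a (j.succAbove 0))) = 0

def S_SYMB : Prop := ∀ (k : Type) [Field k] [IsAlgClosed k] (N : ℕ) (I : Ideal (PP k N))
  (φ : Ideal (RR k N 1) → ℚ) (β : Ideal (PP k N) → PP k N → ℚ),
  IsSm 2 I → Kills I φ → (∀ p ∈ Cu I, Beta φ p.asIdeal (β p.asIdeal)) → IsSymbol I (Bsym I β)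

/-- Intersection numbers as sums over components. -/
def S_IV : Prop := ∀ (k : Type) [Field k] [IsAlgClosed k] (N : ℕ) (I : Ideal (PP k N))
  (h g : PP k N) (y : NP k N) (S : Finset (PrimeSpectrum (PP k N))), IsSm 2 I → Cop I h g →
  (∀ p, p ∈ S ↔ p ∈ Cu I ∧ h ∈ p.asIdeal) →
  (inter I y h g).toNat =
    ∑ p ∈ S, (len (I ⊔ Ideal.span {h}) p.asIdeal).toNat * (ordI p.asIdeal y g).toNat

/-- Homogeneous prime avoidance. -/
def S_PAV : Prop := ∀ (k : Type) [Field k] (N : ℕ) (S : Finset (PrimeSpectrum (PP k N)))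
  (p : PrimeSpectrum (PP k N)) (e : ℕ), (∀ q ∈ S, Hom q.asIdeal ∧ Rel q.asIdeal) → p ∈ S →
  (∀ q ∈ S, ∀ q' ∈ S, q ≤ q' → q = q') →
  ∃ (a b : PP k N) (d : ℕ), a.IsHomogeneous d ∧ b.IsHomogeneous (d + e) ∧ a ∉ p.asIdeal ∧
    b ∈ p.asIdeal ∧ ∀ q ∈ S, q ≠ p → a ∈ q.asIdeal ∧ b ∉ q.asIdeal

/-- The functional on a single curve. -/
def S_EXTR : Prop := ∀ (k : Type) [Field k] [IsAlgClosed k] (N : ℕ) (I : Ideal (PP k N))
  (φ : Ideal (RR k N 1) → ℚ) (β : Ideal (PP k N) → PP k N → ℚ) (χ : NP k N → ℚ),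
  IsSm 2 I → (∀ p ∈ Cu I, Beta φ p.asIdeal (β p.asIdeal)) →
  (∀ (h g g' : PP k N) (e : ℕ), g.IsHomogeneous e → g'.IsHomogeneous e → Cop I h g → Cop I h g' →
    Bsym I β h g - Bsym I β h g' = wsum I χ h g - wsum I χ h g') →
  ∀ p ∈ Cu I, ∀ (g g' : PP k N) (e : ℕ) (S : Finset (NP k N)), g.IsHomogeneous e →
    g'.IsHomogeneous e → g ∉ p.asIdeal → g' ∉ p.asIdeal →
    (∀ y : NP k N, On p.asIdeal y.1 → aeval y.1 g = 0 ∨ aeval y.1 g' = 0 → y ∈ S) →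
    β p.asIdeal g - β p.asIdeal g' =
      ∑ y ∈ S, χ y * ((ordI p.asIdeal y g).toNat - (ordI p.asIdeal y g').toNat)

/-- The boundary of a curve is the divisor of a function. -/
def S_M3 : Prop := ∀ (k : Type) [Field k] [IsAlgClosed k] (N : ℕ) (I : Ideal (PP k N))
  (Q : PrimeSpectrum (RR k N 1)) (G : RR k N 1) (y : NP k N) (z : PrimeSpectrum (RR k N 0)),
  ∀ p ∈ Cu I, Gen1 p.asIdeal Q G → vtx 0 G ∉ p.asIdeal → vtx 1 G ∉ p.asIdeal →
  z.asIdeal = cyl (van k y.1) 0 →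
  bdA Q.asIdeal z = (ordI p.asIdeal y (vtx 1 G)).toNat - (ordI p.asIdeal y (vtx 0 G)).toNat

/-- The theorem over the algebraic closure. -/
def S_TK : Prop := ∀ (k : Type) [Field k] [IsAlgClosed k] (p : ℕ) [Fact p.Prime] [CharP k p]
  (N : ℕ) (I : Ideal (PP k N)), LocFin k p → IsSurf I → TA I

/-! ### Descent -/

def S_RD1 : Prop := ∀ (F k : Type) [Field F] [Field k] [Algebra F k] [IsGalois F k] (τ : Type)
  [Finite τ],
  (∀ P : PrimeSpectrum (MvPolynomial τ F),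
    {P' | PrimeSpectrum.comap (ext F k τ) P' = P}.Finite ∧
    {P' | PrimeSpectrum.comap (ext F k τ) P' = P}.Nonempty ∧
    ∀ a, (∀ P', PrimeSpectrum.comap (ext F k τ) P' = P → a ∈ P'.asIdeal) →
      a ∈ P.asIdeal.map (ext F k τ)) ∧
  ∀ P' : PrimeSpectrum (MvPolynomial τ k),
    ringKrullDim (MvPolynomial τ k ⧸ P'.asIdeal) =
      ringKrullDim (MvPolynomial τ F ⧸ P'.asIdeal.comap (ext F k τ)) ∧
    (∀ w : τ → ℕ, WHom w P'.asIdeal ↔ WHom w (P'.asIdeal.comap (ext F k τ))) ∧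
    ∀ P'', PrimeSpectrum.comap (ext F k τ) P'' = PrimeSpectrum.comap (ext F k τ) P' →
      (P' ≤ P'' → P' = P'') ∧
      ∃ σ : k ≃ₐ[F] k, P''.asIdeal = P'.asIdeal.comap (map (σ : k →+* k))

/-- Lengths are preserved by separable algebraic extension of the ground field. -/
def S_FU : Prop := ∀ (F k : Type) [Field F] [Field k] [Algebra F k] [IsGalois F k] (τ : Type)
  [Finite τ] (J : Ideal (MvPolynomial τ F)) (P' : Ideal (MvPolynomial τ k)) [P'.IsPrime],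
  len (J.map (ext F k τ)) P' = len J (P'.comap (ext F k τ))

/-- Admissible primes and extension of the ground field. -/
def S_RD2 : Prop := ∀ (F k : Type) [Field F] [Field k] [Algebra F k] [IsGalois F k] (N n : ℕ)
  (I : Ideal (PP F N)) (P' : PrimeSpectrum (RR k N n)),
  (P' ∈ Cv (I.map (ext F k _)) n ↔ PrimeSpectrum.comap (ext F k _) P' ∈ Cv I n) ∧
  (Prp (I.map (ext F k _)) P'.asIdeal ↔ Prp I (P'.asIdeal.comap (ext F k _)))

/-- The boundary commutes with extension of the ground field. -/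
def S_BC : Prop := ∀ (F k : Type) [Field F] [Field k] [Algebra F k] [IsGalois F k] (N n : ℕ)
  (I : Ideal (PP F N)) (W : PrimeSpectrum (RR F N (n + 1))) (z : PrimeSpectrum (RR k N n))
  (S : Finset (PrimeSpectrum (RR k N (n + 1)))), W ∈ Cv I (n + 1) → Prp I W.asIdeal →
  PrimeSpectrum.comap (ext F k _) z ∈ Cv I n →
  (∀ W', W' ∈ S ↔ PrimeSpectrum.comap (ext F k _) W' = W) →
  ∑ W' ∈ S, bdA W'.asIdeal z = bdA W.asIdeal (PrimeSpectrum.comap (ext F k _) z)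

def S_RD : Prop := ∀ (F k : Type) [Field F] [Field k] [Algebra F k] [IsGalois F k] (N : ℕ)
  (I : Ideal (PP F N)), TA (I.map (ext F k _)) → TA I

end Pool.Agent.P.MP_12d50c_ag
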