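import Pool.Agent.P.MP_12d50c_ag.B2

/-!
Statements, part 5: from schemes to coordinates.
-/

open CategoryTheory AlgebraicGeometry IsLocalRing MvPolynomial Limits
open Pool.Agent.P.MP_638e8a_ag.Cyc (St Rf ev stm primeOf)
open Pool.Agent.P.MP_90138e_ag (projSpace IsProjective)
open scoped TensorProduct

namespace Pool.Agent.P.MP_12d50c_ag

section

variable {F : Type} [Field F] {Y : Scheme.{0}}

/-- The structure map of `Y × Δ^n`. -/
noncomputable def kap (κ : Y ⟶ Spec (.of F)) (n : ℕ) : XD Y n ⟶ Spec (.of F) := prod.fst ≫ κ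

theorem face_kap (κ : Y ⟶ Spec (.of F)) {m n : ℕ} (g : Fin (m + 1) → Fin (n + 1)) :
    face Y g ≫ kap κ n = kap κ m := by
  simp [face, kap, XD]

/-- Dehomogenization in the chart `i`, with values in the local ring. -/
noncomputable def CS.th {κ : Y ⟶ Spec (.of F)} {τ : Type} {w : τ → ℕ}
    {J : Ideal (MvPolynomial τ F)} (c : CS κ w J) (x : Y) {i : τ} (hi : IsUnit (c.s x i)) :
    MvPolynomial τ F →+* St x :=
  eval₂Hom (cstk κ x) fun j => c.s x j * ↑(hi.unit⁻¹ ^ w j)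

/-- The coordinates are compatible with the face maps. -/
def Compat {κ : Y ⟶ Spec (.of F)} {N : ℕ} {I : Ideal (PP F N)}
    (c : ∀ n, CS (kap κ n) (wt N n) (cyl I n)) : Prop :=
  ∀ (m n : ℕ) (g : Fin (m + 1) → Fin (n + 1)) (z : XD Y m), ∃ e : (St z)ˣ,
    (∀ i, stm (face Y g) z ((c n).s _ (Sum.inl i)) = e * (c m).s z (Sum.inl i)) ∧
    ∀ j, stm (face Y g) z ((c n).s _ (Sum.inr j)) = ∑ i with g i = j, (c m).s z (Sum.inr i)

/-- The dictionary between points of `Y × Δ^n` and admissible primes. -/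
structure Bridge (Y : Scheme.{0}) {N : ℕ} (I : Ideal (PP F N))
    (pt : ∀ n, XD Y n → PrimeSpectrum (RR F N n)) : Prop where
  adm : ∀ n y, Adm I (pt n y).asIdeal
  le : ∀ n y y', y ≤ y' ↔ (pt n y').asIdeal ≤ (pt n y).asIdeal
  surj : ∀ n q, Adm I q → ∃ y, (pt n y).asIdeal = q
  face : ∀ m n (g : Fin (m + 1) → Fin (n + 1)) z,
    (pt n (face Y g z)).asIdeal = (pt m z).asIdeal.comap (smap g)
  dim : ∀ n y, ((Order.coheight y : ℕ∞) : WithBot ℕ∞) +
    ringKrullDim (RR F N n ⧸ (pt n y).asIdeal) = (3 + n : ℕ)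
  mult : ∀ m n (g : Fin (m + 1) → Fin (n + 1)) w z,
    mult (Pool.Agent.P.MP_12d50c_ag.face Y g) w z =
      (len ((pt n w).asIdeal.map (smap g)) (pt m z).asIdeal).toNat

end

/-- Coordinates on projective space. -/
def S_CP : Prop := ∀ (F : Type) [Field F] (N : ℕ),
  Nonempty (CS (Y := (projSpace F N).left) (projSpace F N).hom (1 : Fin (N + 1) → ℕ) ⊥)

/-- Points and homogeneous primes. -/
def S_PTS1 : Prop := ∀ (F : Type) [Field F] (Y : Scheme.{0}) (κ : Y ⟶ Spec (.of F)) (τ : Type)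
  [Finite τ] (w : τ → ℕ) (J : Ideal (MvPolynomial τ F)) (c : CS κ w J),
  (∀ y, WHom w (c.pt y) ∧ J ≤ c.pt y ∧ (∃ i, w i = 1 ∧ X i ∉ c.pt y) ∧
    ∀ i, w i = 1 → (IsUnit (c.s y i) ↔ X i ∉ c.pt y)) ∧
  (∀ x y, x ≤ y ↔ c.pt y ≤ c.pt x) ∧
  ∀ q : Ideal (MvPolynomial τ F), q.IsPrime → WHom w q → J ≤ q → (∃ i, w i = 1 ∧ X i ∉ q) →
    ∃ y, c.pt y = q

/-- The local rings of subvarieties. -/
def S_PTS2 : Prop := ∀ (F : Type) [Field F] (Y : Scheme.{0}) (κ : Y ⟶ Spec (.of F)) (τ : Type)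
  [Finite τ] (w : τ → ℕ) (J : Ideal (MvPolynomial τ F)) (c : CS κ w J) (x y : Y) (h : x ≤ y),
  letI := algR κ y
  Set.range (ev h) = (locw w (c.co y) (c.pt x) : Set (Rf y))

/-- The local rings of an integral scheme. -/
def S_PTS3 : Prop := ∀ (F : Type) [Field F] (Y : Scheme.{0}) [IsIntegral Y]
  (κ : Y ⟶ Spec (.of F)) (τ : Type) [Finite τ] (w : τ → ℕ) (J : Ideal (MvPolynomial τ F))
  (c : CS κ w J) (x : Y) (i : τ) (hi : IsUnit (c.s x i)), w i = 1 →
  (∀ f d, IsWeightedHomogeneous w f d → (c.th x hi f = 0 ↔ f ∈ c.pt (genericPoint Y))) ∧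
  (∀ u, ∃ g h, IsUnit (c.th x hi h) ∧ u * c.th x hi h = c.th x hi g) ∧
  (∀ v, primeOf x v = (c.pt v).map (c.th x hi)) ∧
  (∀ J', WHom w J' → Module.length (St x) (St x ⧸ J'.map (c.th x hi)) =
    len (c.pt (genericPoint Y) ⊔ J') (c.pt x)) ∧
  ringKrullDim (St x) + ringKrullDim (MvPolynomial τ F ⧸ c.pt x) =
    ringKrullDim (MvPolynomial τ F ⧸ c.pt (genericPoint Y))

/-- Coordinates on a projective variety. -/
def S_CX : Prop := ∀ (F : Type) [Field F] (X : Over (Spec (.of F))) [IsIntegral X.left],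
  IsProjective X → ∃ (N : ℕ) (I : Ideal (PP F N)) (c : CS (Y := X.left) X.hom 1 I),
    c.pt (genericPoint X.left) = I

/-- Coordinates on the product with a simplex. -/
def S_CXD : Prop := ∀ (F : Type) [Field F] (Y : Scheme.{0}) (κ : Y ⟶ Spec (.of F)) (N : ℕ)
  (I : Ideal (PP F N)), CS κ 1 I → ∃ c : ∀ n, CS (kap κ n) (wt N n) (cyl I n), Compat c

def S_INTD : Prop := ∀ (Y : Scheme.{0}) [IsIntegral Y] (n : ℕ), IsIntegral (XD Y n)

def S_BRM : Prop := ∀ (F : Type) [Field F] (Y : Scheme.{0}) [IsIntegral Y]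
  (κ : Y ⟶ Spec (.of F)) (N : ℕ) (I : Ideal (PP F N))
  (c : ∀ n, CS (kap κ n) (wt N n) (cyl I n)), Compat c → I.IsPrime → Hom I → Rel I →
  ringKrullDim (PP F N ⧸ I) = 3 → Bridge Y I fun n y => ⟨(c n).pt y, inferInstance⟩

/-- Differentials of smooth schemes. -/
def S_SMO1 : Prop := ∀ (F : Type) [Field F] (Y : Scheme.{0}) (κ : Y ⟶ Spec (.of F)) (d : ℕ)
  [SmoothOfRelativeDimension d κ] (x : Y),
  letI := algS κ x
  Module.Free (St x) Ω[St x⁄F] ∧ Module.Finite (St x) Ω[St x⁄F] ∧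
    Module.finrank (St x) Ω[St x⁄F] = d

/-- Tangent spaces and differentials. -/
def S_SMO2 : Prop := ∀ (F : Type) [Field F] (N d : ℕ) (I : Ideal (PP F N)) (O K : Type)
  [CommRing O] [Algebra F O] [Field K] [Algebra F K] (θ : PP F N →ₐ[F] O) (ψ : O →ₐ[F] K)
  (i : Fin (N + 1)), Hom I → θ (X i) = 1 →
  (∀ (f : PP F N) (e : ℕ), f.IsHomogeneous e → (θ f = 0 ↔ f ∈ I)) →
  (∀ u, ∃ g h, IsUnit (θ h) ∧ u * θ h = θ g) → Module.Free O Ω[O⁄F] → Module.Finite O Ω[O⁄F] →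
  Module.finrank O Ω[O⁄F] = d → Module.finrank K (Tan I fun j => ψ (θ (X j))) = d + 1

/-- The function field of a geometrically integral scheme. -/
def S_GI1 : Prop := ∀ (F k : Type) [Field F] [Field k] [Algebra F k] (Y : Scheme.{0})
  [IsIntegral Y] (κ : Y ⟶ Spec (.of F)) [GeometricallyIntegral κ],
  letI := algR κ (genericPoint Y)
  IsDomain (k ⊗[F] Rf (genericPoint Y))

def S_GI2 : Prop := ∀ (F k K : Type) [Field F] [Field k] [Field K] [Algebra F k] [Algebra F K]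
  (N : ℕ) (ξ : Fin (N + 1) → K), IsDomain (k ⊗[F] K) → ((van F ξ).map (ext F k _)).IsPrime

/-- The surface in coordinates. -/
def S_SURF : Prop := ∀ (F k : Type) [Field F] [Field k] [Algebra F k] [IsGalois F k]
  (X : Over (Spec (.of F))) [SmoothOfRelativeDimension 2 X.hom] [GeometricallyIntegral X.hom]
  [IsIntegral X.left] (N : ℕ) (I : Ideal (PP F N)) (c : CS (Y := X.left) X.hom 1 I),
  IsProjective X → c.pt (genericPoint X.left) = I →
  I.IsPrime ∧ Rel I ∧ ringKrullDim (PP F N ⧸ I) = 3 ∧ IsSurf (I.map (ext F k _))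

/-- Duality. -/
def S_TOP : Prop := ∀ (F : Type) [Field F] (Y : Scheme.{0}) (N : ℕ) (I : Ideal (PP F N))
  (pt : ∀ n, XD Y n → PrimeSpectrum (RR F N n)), Bridge Y I pt → TA I →
  Module.rank ℚ (ℚ ⊗[ℤ] CH Y 2 1) = 0

end Pool.Agent.P.MP_12d50c_ag
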