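import Pool.Agent.P.MP_12d50c_ag.If2

/-!
Numberings of the roots exist, and they are injective outside at most `n ^ 2` values.
-/

open MvPolynomial Function
open scoped Polynomial

namespace Pool.Agent.P.MP_12d50c_ag

namespace CH0

theorem exists_num {k : Type} [Field k] [IsAlgClosed k] {n : ℕ} (p : k[X]) (hm : p.Monic)
    (hd : p.natDegree = n) : ∃ x : Fin n → k, p = ∏ i, (Polynomial.X - Polynomial.C (x i)) := by
  have hs : p.Splits := IsAlgClosed.splits p
  have hc : p.roots.toList.length = n := by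
    rw [Multiset.length_toList, ← hd, hs.natDegree_eq_card_roots]
  subst hc
  refine ⟨p.roots.toList.get, ?_⟩
  have h1 := hs.eq_prod_roots_of_monic hm
  rw [← Multiset.coe_toList p.roots, Multiset.map_coe, Multiset.prod_coe,
    ← List.ofFn_get p.roots.toList, List.map_ofFn, List.prod_ofFn] at h1
  exact h1

variable (k : Type) [Field k] (n : ℕ)

/-- The product of the differences of the roots. -/
noncomputable def disc : MvPolynomial (Option (Fin n)) k :=
  ∏ q ∈ (Finset.univ : Finset (Fin n)).offDiag, (X (some q.1) - X (some q.2))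

theorem disc_symm (σ : Equiv.Perm (Fin n)) : rename (Option.map σ) (disc k n) = disc k n := by
  rw [disc, map_prod]
  refine Finset.prod_equiv (σ.prodCongr σ) (fun q => ?_) (fun q _ => ?_)
  · simp [Finset.mem_offDiag]
  · simp

theorem disc_deg : (disc k n).totalDegree ≤ n ^ 2 := by
  refine (totalDegree_finsetProd _ _).trans ?_
  refine (Finset.sum_le_card_nsmul _ _ 1 fun q _ => ?_).trans ?_
  · refine (totalDegree_sub _ _).trans (max_le ?_ ?_) <;> rw [totalDegree_X]
  · rw [Finset.offDiag_card, smul_eq_mul, mul_one, Finset.card_univ, Fintype.card_fin, sq]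
    exact Nat.sub_le _ _

variable {k n}

theorem disc_ne {M : Type} [Field M] [Algebra k M] (t : M) (x : Fin n → M) :
    evq t x (disc k n) ≠ 0 ↔ Injective x := by
  rw [disc, map_prod, Finset.prod_ne_zero_iff]
  simp only [Finset.mem_offDiag, Finset.mem_univ, true_and, map_sub, aeval_X, Option.elim_some,
    sub_ne_zero]
  exact ⟨fun h i j hij => by_contra fun hn => h (i, j) hn hij, fun h q hq => h.ne hq⟩

theorem evq_aeval {M : Type} [CommRing M] [Algebra k M] (t : M) (x : Fin n → M) (g : k[X]) :
    evq t x (Polynomial.aeval (X none : MvPolynomial (Option (Fin n)) k) g) =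
      Polynomial.aeval t g := by
  rw [← Polynomial.aeval_algHom_apply, aeval_X, Option.elim_none]

end CH0

open CH0 in
theorem t_CH0 : S_CH1 → S_CH2 → S_CH0 := by
  classical
  intro h1 h2 k M _ _ _ _ n f t x hc
  have hex : ∀ t₀ : k, ∃ x₀ : Fin n → k, YY f t₀ x₀ := fun t₀ =>
    exists_num (sp f t₀) (hc.monic.map _) ((hc.monic.natDegree_map _).trans hc.deg)
  obtain ⟨g, hg, he⟩ := h2 k M n f t x (disc k n) hc (disc_symm k n)
  have hg0 : g ≠ 0 := fun h0 => (disc_ne t x).2 hc.inj (by rw [he, h0, map_zero])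
  have hsub : {t₀ : k | ¬ ∃ x₀ : Fin n → k, Injective x₀ ∧ YY f t₀ x₀} ⊆ g.roots.toFinset := by
    intro t₀ ht
    obtain ⟨x₀, hx⟩ := hex t₀
    have h3 := h1 k M n f t x t₀ x₀ hc hx (disc k n - Polynomial.aeval (X none) g)
      (by rw [map_sub, evq_aeval, he, sub_self])
    have h4 : evq t₀ x₀ (disc k n) = 0 := by_contra fun h => ht ⟨x₀, (disc_ne t₀ x₀).1 h, hx⟩
    rw [map_sub, evq_aeval, h4, zero_sub, neg_eq_zero, Polynomial.coe_aeval_eq_eval] at h3
    rw [Finset.mem_coe, Multiset.mem_toFinset, Polynomial.mem_roots hg0]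
    exact h3
  refine ⟨hex, (Finset.finite_toSet _).subset hsub, ?_⟩
  refine (Set.ncard_le_ncard hsub (Finset.finite_toSet _)).trans ?_
  rw [Set.ncard_coe_finset]
  exact (Multiset.toFinset_card_le _).trans ((Polynomial.card_roots' g).trans
    (hg.trans (disc_deg k n)))

end Pool.Agent.P.MP_12d50c_ag
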