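import Pool.Agent.P.MP_12d50c_ag.If3

/-!
The global weight attached to a symbol.
-/

open MvPolynomial

namespace Pool.Agent.P.MP_12d50c_ag

namespace CORE1

variable {k : Type} [Field k] {N : ℕ} {I : Ideal (PP k N)}

theorem ne_zero {g : PP k N} (h : g ∉ I) : g ≠ 0 := fun e => h (e ▸ I.zero_mem)

theorem exists_pot [IsAlgClosed k] (hEXT : S_EXT) (hNB : S_NB) (hI : IsSurf I)
    {B : PP k N → PP k N → ℚ} (hB : IsSymbol I B) :
    ∃ f : PP k N → ℚ, ∀ a b : PP k N, a.IsHomogeneous 5 → Good I a → b.IsHomogeneous 5 →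
      Good I b → Cop I a b → B a b - B b a = f a - f b := by
  classical
  obtain ⟨h1, h2, -⟩ := hNB k N I hI
  obtain ⟨f, hf⟩ := hEXT.2 {a : PP k N // a.IsHomogeneous 5 ∧ Good I a}
    (fun a b => Cop I a.1 b.1) (fun a b => B a.1 b.1 - B b.1 a.1) (fun _ _ h => h.symm)
    (fun a b c d => by
      obtain ⟨x, a1, a2, a3⟩ := h1 (Subtype.val '' {a, b, c, d}) 5 ((Set.toFinite _).image _)
        (by
          rintro _ ⟨y, -, rfl⟩
          exact ⟨h2 _ 5 y.2.1 y.2.2, 5, y.2.1⟩) (by norm_num)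
      exact ⟨⟨x, a1, a2⟩, a3 _ ⟨a, by simp, rfl⟩, a3 _ ⟨b, by simp, rfl⟩, a3 _ ⟨c, by simp, rfl⟩,
        a3 _ ⟨d, by simp, rfl⟩⟩)
    (fun a b => by ring)
    (fun a b c a1 a2 a3 => by
      linear_combination hB.triple a.1 b.1 c.1 5 a.2.1 b.2.1 c.2.1 a1 a2 a3)
  refine ⟨fun a => if h : a.IsHomogeneous 5 ∧ Good I a then f ⟨a, h⟩ else 0,
    fun a b a1 a2 a3 a4 a5 => ?_⟩
  simp only [dif_pos (And.intro a1 a2), dif_pos (And.intro a3 a4)]
  exact hf ⟨a, a1, a2⟩ ⟨b, a3, a4⟩ a5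

end CORE1

theorem t_CORE1 : S_EXT → S_NB → S_STEP1 → S_L2A → S_CORE1 := by
  classical
  intro hEXT hNB hST hL k _ _ p _ _ N I B hk hI hB
  obtain ⟨f, hf⟩ := CORE1.exists_pot hEXT hNB hI hB
  have h1 : ∀ a : PP k N, ∃ χ : NP k N → ℚ, a.IsHomogeneous 5 → Good I a →
      ∀ g, Cop I a g → B a g - f a / 5 * g.totalDegree = wsum I χ a g := by
    intro a
    by_cases h : a.IsHomogeneous 5 ∧ Good I a
    · obtain ⟨χ, hχ⟩ := hST k p N I 5 a (fun g => B a g - f a / 5 * g.totalDegree) hk hI.toIsSm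
        (by norm_num) h.1 h.2
        (fun g g' a1 a2 => by
          rw [hB.mul_right a g g' a1 a2,
            totalDegree_mul_of_isDomain (CORE1.ne_zero a1.nr) (CORE1.ne_zero a2.nr)]
          push_cast
          ring)
        (fun g g' e a1 a2 a3 a4 a5 => by
          rw [hB.congr a g g' e a1 a2 a3 a4 a5, a3.totalDegree (CORE1.ne_zero a1.nr),
            a4.totalDegree (CORE1.ne_zero a2.nr)])
      exact ⟨χ, fun _ _ => hχ⟩
    · exact ⟨0, fun a1 a2 => (h ⟨a1, a2⟩).elim⟩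
  choose χ hχ using h1
  have h2 := hL k p N I 5 χ hk hI le_rfl fun a b a1 a2 a3 a4 a5 => by
    have b1 := hχ a a1 a2 b a5
    have b2 := hχ b a3 a4 a a5.symm
    have b3 : wsum I (χ b) b a = wsum I (χ b) a b := by simp only [wsum, inter_comm I _ b a]
    rw [a3.totalDegree (CORE1.ne_zero a5.nr)] at b1
    rw [a1.totalDegree (CORE1.ne_zero a5.nl)] at b2
    push_cast at b1 b2
    linear_combination b2 - b1 + b3 + hf a b a1 a2 a3 a4 a5
  refine ⟨fun y => if h : ∃ a : PP k N, a.IsHomogeneous 5 ∧ Good I a ∧ aeval y.1 a = 0 then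
    χ h.choose y else 0, fun a => f a / 5, fun a g a1 a2 a3 => ?_⟩
  rw [← (hNB k N I hI).2.2.2.2.1 (χ a) _ a g a3 fun y hy => ?_, ← hχ a a1 a2 g a3]
  · ring
  · have h : ∃ a : PP k N, a.IsHomogeneous 5 ∧ Good I a ∧ aeval y.1 a = 0 := ⟨a, a1, a2, hy.2.1⟩
    rw [dif_pos h]
    exact h2 a _ y a1 a2 h.choose_spec.1 h.choose_spec.2.1 hy.1 hy.2.1 h.choose_spec.2.2

end Pool.Agent.P.MP_12d50c_ag
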