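import Pool.Agent.P.MP_12d50c_ag.If1

/-! Existence of smooth hypersurface sections. -/

open MvPolynomial

namespace Pool.Agent.P.MP_12d50c_ag

namespace EXG

variable {k : Type} [Field k] {N : ℕ}

/-- Polynomials vanishing at a point. -/
noncomputable def ev (y : NP k N) : Submodule k (PP k N) :=
  LinearMap.ker (aeval y.1 : PP k N →ₐ[k] k).toLinearMap

theorem mem_ev {y : NP k N} {f : PP k N} : f ∈ ev y ↔ aeval y.1 f = 0 := Iff.rfl

/-- Linear forms vanishing at a point. -/
noncomputable def lin (z : NP k N) (j : Fin (N + 1)) : PP k N := X j + C (-z.1 j) * X z.piv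

theorem lin_hom (z : NP k N) (j : Fin (N + 1)) : (lin z j).IsHomogeneous 1 :=
  (isHomogeneous_X k j).add (isHomogeneous_C_mul_X _ _)

theorem aeval_lin (z : NP k N) (j : Fin (N + 1)) (y : Fin (N + 1) → k) :
    aeval y (lin z j) = y j - z.1 j * y z.piv := by
  simp [lin, sub_eq_add_neg]

theorem aeval_lin_self (z : NP k N) (j : Fin (N + 1)) : aeval z.1 (lin z j) = 0 := by
  rw [aeval_lin, z.piv_eq, mul_one, sub_self]

theorem grad_lin (z : NP k N) (j : Fin (N + 1)) (y δ : Fin (N + 1) → k) :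
    grad y (lin z j) δ = δ j - z.1 j * δ z.piv := by
  rw [lin, grad_add, grad_mul, grad_C, grad_X, grad_X]
  simp [sub_eq_add_neg]

theorem exists_lin {y z : NP k N} (h : y ≠ z) : ∃ j, aeval y.1 (lin z j) ≠ 0 := by
  by_contra! h1
  refine h (NP.eq_of_minors fun i j => ?_)
  have h2 := h1 i
  have h3 := h1 j
  rw [aeval_lin, sub_eq_zero] at h2 h3
  rw [h2, h3]
  ring

theorem exists_tan {I : Ideal (PP k N)} (hI : IsSurf I) {z : NP k N} (hz : On I z.1) :
    ∃ δ ∈ Tan I z.1, ∃ j, δ j - z.1 j * δ z.piv ≠ 0 := by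
  by_contra! h
  have h1 : Tan I z.1 ≤ Submodule.span k {z.1} := fun δ hδ =>
    Submodule.mem_span_singleton.2 ⟨δ z.piv, funext fun j => by
      have := h δ hδ j
      rw [sub_eq_zero] at this
      rw [this, Pi.smul_apply, smul_eq_mul, mul_comm]⟩
  have h2 := Submodule.finrank_mono h1
  rw [finrank_span_singleton z.ne_zero] at h2
  have h3 := hI.ge k z.1 z.ne_zero hz
  omega

end EXG

open EXG in
theorem t_EXG : S_AVOID → S_BERT → S_EXG := by
  intro hA hB k _ _ N I T hI hT
  obtain ⟨hA1, hA2⟩ := hA k N T hT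
  constructor
  · intro n hn
    obtain ⟨s, h1, h2, h3⟩ := hB k N I n (homogeneousSubmodule (Fin (N + 1)) k n) {1} (ev '' T) hI
      le_rfl (Set.finite_singleton _) (hT.image _)
      (by
        rintro _ rfl
        exact ⟨0, hn, isHomogeneous_one _ _, fun r hr => by rwa [one_mul]⟩)
      (by
        rintro _ ⟨y, hy, rfl⟩ h
        obtain ⟨b, h1, h2⟩ := hA1 n
        exact h2 y hy (h h1))
    exact ⟨s, h1, fun y hy => h3 y hy ⟨1, rfl, by simp⟩, fun y hy => h2 _ ⟨y, hy, rfl⟩⟩
  · intro z hz hzT n hn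
    have hW : ∀ (j : Fin (N + 1)) (r : PP k N), r.IsHomogeneous (n - 1) →
        lin z j * r ∈ homogeneousSubmodule (Fin (N + 1)) k n ⊓ ev z := fun j r hr => by
      refine ⟨?_, mem_ev.2 (by rw [map_mul, aeval_lin_self, zero_mul])⟩
      have := (lin_hom z j).mul hr
      rwa [show 1 + (n - 1) = n by omega] at this
    obtain ⟨s, h1, h2, h3⟩ := hB k N I n (homogeneousSubmodule (Fin (N + 1)) k n ⊓ ev z)
      (Set.range (lin z)) (insert (singSub I z.1) (ev '' T)) hI inf_le_left (Set.finite_range _)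
      ((hT.image _).insert _)
      (by
        rintro _ ⟨j, rfl⟩
        exact ⟨1, hn, lin_hom z j, hW j⟩)
      (by
        rintro _ (rfl | ⟨y, hy, rfl⟩) h
        · obtain ⟨δ, hδ, j, hj⟩ := exists_tan hI hz
          have h1 := (h (hW j (X z.piv ^ (n - 1)) (isHomogeneous_X_pow _ _))).2 δ hδ
          rw [grad_mul, aeval_lin_self, grad_lin, map_pow, aeval_X, z.piv_eq, one_pow, zero_mul,
            zero_add, one_mul] at h1
          exact hj h1
        · obtain ⟨b, h1, h2, h3⟩ := hA2 z hzT n (by omega)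
          exact h3 y hy (h ⟨h1, h2⟩))
    refine ⟨s, h1.1, fun y hy => ?_, h1.2, fun y hy => h2 _ (Or.inr ⟨y, hy, rfl⟩)⟩
    rcases eq_or_ne y z with rfl | h
    · exact h2 _ (Or.inl rfl)
    · obtain ⟨j, hj⟩ := exists_lin h
      exact h3 y hy ⟨_, ⟨j, rfl⟩, hj⟩

end Pool.Agent.P.MP_12d50c_ag
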