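import Pool.Agent.P.MP_12d50c_ag.If4

/-!
Equations of curves over a curve.
-/

open MvPolynomial Function
open scoped Polynomial

namespace Pool.Agent.P.MP_12d50c_ag

namespace G12

variable {k : Type} [Field k] {N : ℕ} {E : Type} [Field E] [Algebra k E] {ξ : Fin (N + 1) → E}

theorem rel {p : Ideal (PP k N)} (h : ringKrullDim (PP k N ⧸ p) = 2) : Rel p := by
  by_contra h1
  simp only [Rel, not_exists, not_not] at h1
  have h2 : Function.Surjective (algebraMap k (PP k N ⧸ p)) := fun a => by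
    obtain ⟨f, rfl⟩ := Ideal.Quotient.mk_surjective a
    induction f using MvPolynomial.induction_on with
    | C c => exact ⟨c, rfl⟩
    | add f g hf hg =>
      obtain ⟨a, ha⟩ := hf
      obtain ⟨b, hb⟩ := hg
      exact ⟨a + b, by rw [map_add, map_add, ha, hb]⟩
    | mul_X f i _ =>
      exact ⟨0, by rw [map_zero, map_mul, Ideal.Quotient.eq_zero_iff_mem.2 (h1 i), mul_zero]⟩
  have h3 := ringKrullDim_le_of_surjective _ h2
  rw [h, ringKrullDim_eq_zero_of_field] at h3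
  exact absurd h3 (by decide)

theorem th1_inc (f : PP k N) : th1 ξ (inc 1 f) = Polynomial.C (aeval ξ f) := by
  rw [th1, th, aeval_rename]
  exact (map_aeval' (IsScalarTower.toAlgHom k E E[X]) ξ f).symm

theorem ev (v : Fin 2) (G : RR k N 1) :
    aeval ξ (vtx v G) = Polynomial.eval ((v : ℕ) : E) (th1 ξ G) := by
  have := map_aeval' ((Polynomial.aeval ((v : ℕ) : E)).restrictScalars k)
    (Sum.elim (algebraMap E E[X] ∘ ξ) ![1 - Polynomial.X, Polynomial.X]) G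
  rw [vtx, map_aeval', ← Polynomial.coe_aeval_eq_eval]
  refine Eq.trans ?_ this.symm
  congr 2
  funext i
  rcases i with i | i
  · simp
  · fin_cases v <;> fin_cases i <;> simp

theorem mem_adj (π : E[X]) : π ∈ Algebra.adjoin E
    (Set.range (![1 - Polynomial.X, Polynomial.X] : Fin (1 + 1) → E[X])) := by
  have h : ({Polynomial.X} : Set E[X]) ⊆
      Set.range (![1 - Polynomial.X, Polynomial.X] : Fin (1 + 1) → E[X]) :=
    Set.singleton_subset_iff.2 ⟨1, by simp⟩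
  exact Algebra.adjoin_mono h (by rw [Polynomial.adjoin_X]; trivial)

theorem map_cyl (G : RR k N 1) :
    (cyl (van k ξ) 1 ⊔ Ideal.span {G}).map (th1 ξ) = Ideal.span {th1 ξ G} := by
  have : (cyl (van k ξ) 1).map (th1 ξ) = ⊥ := by
    rw [Ideal.map_eq_bot_iff_le_ker, cyl, sup_le_iff, Ideal.map_le_iff_le_comap,
      Ideal.span_singleton_le_iff_mem]
    refine ⟨fun f hf => ?_, ?_⟩
    · rw [Ideal.mem_comap, RingHom.mem_ker, th1_inc, aeval_eq_zero_of_mem_vanw hf, map_zero]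
    · simp [RingHom.mem_ker, th]
  rw [Ideal.map_sup, this, bot_sup_eq, Ideal.map_span, Set.image_singleton]

theorem gen (VP0 : S_VP0) (M1 : S_M1) (M2 : S_M2) (h : CvD k ξ) {G : RR k N 1} {d : ℕ}
    (hG : IsWeightedHomogeneous (wt N 1) G d) {u : E} (hu : u ≠ 0) {π : E[X]} (hm : π.Monic)
    (hπ : Irreducible π) (e : th1 ξ G = Polynomial.C u * π) {Q : PrimeSpectrum (RR k N 1)}
    (hQ : Q ∈ Cv (van k ξ) 1) (h1 : Q.asIdeal = QP k ξ π)
    (h2 : Q.asIdeal.comap (inc 1) = van k ξ) : Gen1 (van k ξ) Q G := by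
  have hU : IsUnit (Polynomial.C u) := Polynomial.isUnit_C.2 hu.isUnit
  refine ⟨hQ, h2, ⟨d, hG⟩, ?_, fun Q' h3 h4 h5 => ?_⟩
  · rw [M2 k N E ξ π _ Q _ h hπ h1 (((VP0 k N 1).2.2.2.1 _ (wHom_vanw ξ)).sup
      (wHom_span (S := {G}) fun f hf => ⟨d, by rwa [Set.mem_singleton_iff.1 hf]⟩)) le_sup_left (map_cyl G), e,
      emultiplicity_eq_of_associated_right (associated_unit_mul_left π _ hU)]
    exact (FiniteMultiplicity.of_not_isUnit hπ.not_isUnit hπ.ne_zero).emultiplicity_self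
  · obtain ⟨π', m', i', e'⟩ := (M1 k N E ξ h).2.2.1 Q' h3 h4
    rw [e', (M1 k N E ξ h).1 π' G d hG, e, hU.dvd_mul_left] at h5
    refine PrimeSpectrum.ext ?_
    rw [e', h1, Polynomial.eq_of_monic_of_associated m' hm (i'.associated_of_dvd hπ h5)]

end G12

open G12 in
theorem t_G12 : S_EX → S_VP0 → S_VP → S_CL → S_M1 → S_M2 → S_G12 := by
  intro EX VP0 VP CL M1 M2 k _ N I p hp
  obtain ⟨i, hi⟩ := rel hp.2.2
  obtain ⟨E, _, _, ξ, e, h1, h2⟩ := EX k _ 1 p.asIdeal i hp.1 rfl hi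
  obtain ⟨p, pr⟩ := p
  obtain rfl : van k ξ = p := e
  have h : CvD k ξ := ⟨h2, ⟨i, h1⟩, hp.2.2⟩
  refine ⟨fun Q hQ hc => ?_, fun H c e hH hc hn => ?_⟩
  · have hQ' : Q ∈ Cv (van k ξ) 1 := ⟨⟨hQ.1.prime, hQ.1.hom, by
      have := ((CL k N I).1 1 _ hQ.1).2.1
      rwa [hc] at this, hQ.1.rel⟩, hQ.2⟩
    obtain ⟨π, hm, hπ, e⟩ := (M1 k N E ξ h).2.2.1 Q hQ' hc
    obtain ⟨G, d, u, hu, hG, e'⟩ := ((VP k N 1).2 E E[X] ξ ![1 - Polynomial.X, Polynomial.X]
      (by simp)).2 h2 ⟨i, h1⟩ π (mem_adj π)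
    refine ⟨G, gen VP0 M1 M2 h hG hu hm hπ e' hQ' e hc, fun hP => ?_⟩
    suffices a : ∀ v : Fin 2, vtx v G ∉ van k ξ from ⟨a 0, a 1⟩
    intro v hv
    have r := aeval_eq_zero_of_mem_vanw hv
    rw [ev, th1, e', Polynomial.eval_mul, Polynomial.algebraMap_eq, Polynomial.eval_C,
      mul_eq_zero, or_iff_right hu] at r
    have c0 : (van k ξ).comap (vtx 0) = cyl (van k ξ) 0 := by
      rw [(((VP0 k N 0).2.2.2.2 0).2.2 _).2, show ({0}ᶜ : Set (Fin (0 + 1))) = ∅ from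
        Set.compl_empty_iff.2 (Set.eq_univ_of_forall fun j => Subsingleton.elim (α := Fin 1) _ _)]
      simp
    let g : Fin (0 + 1) ↪o Fin (1 + 1) := OrderEmbedding.ofStrictMono (fun _ => v)
      fun a b hab => (hab.ne (Subsingleton.elim (α := Fin 1) _ _)).elim
    have d0 := (VP k N 0).1 _ pr
    have := hP 0 g (cyl (van k ξ) 0) ⟨d0.1, (VP0 k N 0).2.2.2.1 _ hp.1,
      sup_le_sup_right (Ideal.map_mono hp.2.1) _, i, fun a => hi (by
        rw [← c0, Ideal.mem_comap] at a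
        simpa [vtx] using a)⟩ (Ideal.map_le_iff_le_comap.2 (hQ.1.hom.le_of_hom fun f d' hf a => by
      rw [Ideal.mem_comap, ← c0, Ideal.mem_comap, ((VP0 k N 1).1 0 g).2.2.2.2.1,
        mem_van_of_hom (((VP0 k N 1).2.2.2.2 _).2.1 f d' hf), ev]
      rw [e, (M1 k N E ξ h).1 π f d' hf] at a
      exact Polynomial.eval_eq_zero_of_dvd_of_eval_eq_zero a r))
    rw [d0.2, show ringKrullDim (PP k N ⧸ van k ξ) = 2 from hp.2.2] at this
    exact absurd this (by decide)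
  · have hu : aeval ξ H ≠ 0 := fun a => hn ((mem_van_of_hom hH).2 a)
    have hπ := Polynomial.irreducible_X_sub_C (aeval ξ c / aeval ξ H)
    obtain ⟨Q, hQ, a1, a2⟩ := (M1 k N E ξ h).2.1 _ hπ
    have hG : IsWeightedHomogeneous (wt N 1) (grEq H c) e := by
      have a := (isWeightedHomogeneous_X k (wt N 1) (Sum.inr 1)).mul ((VP0 k N 1).2.1 H e hH)
      rw [show wt N 1 (Sum.inr 1) + e = e from Nat.zero_add e] at a
      exact a.sub ((VP0 k N 1).2.1 c e hc)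
    refine ⟨Q, gen VP0 M1 M2 h hG hu (Polynomial.monic_X_sub_C _) hπ ?_ hQ a1 a2⟩
    rw [grEq, map_sub, map_mul, th1_inc, th1_inc, mul_sub, ← map_mul, mul_div_cancel₀ _ hu,
      mul_comm]
    simp [th]

end Pool.Agent.P.MP_12d50c_ag
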