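import Pool.Agent.P.MP_12d50c_ag.If4

/-!
Intersection numbers as sums over components.
-/

open MvPolynomial IsLocalRing

namespace Pool.Agent.P.MP_12d50c_ag

namespace IV

theorem dim_succ {R : Type} [CommRing R] {Q P : Ideal R} [Q.IsPrime] (h : Q ≤ P) (hne : Q ≠ P) :
    ringKrullDim (R ⧸ P) + 1 ≤ ringKrullDim (R ⧸ Q) := by
  obtain ⟨r, h1, h2⟩ := SetLike.exists_of_lt (lt_of_le_of_ne h hne)
  exact ringKrullDim_succ_le_of_surjective (Ideal.Quotient.factor h)
    (Ideal.Quotient.factor_surjective h) (r := Ideal.Quotient.mk Q r)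
    (mem_nonZeroDivisors_of_ne_zero fun h0 => h2 (Ideal.Quotient.eq_zero_iff_mem.1 h0))
    (Ideal.Quotient.eq_zero_iff_mem.2 h1)

theorem range_two {α : Type} (f : Fin 2 → α) : Set.range f = {f 0, f 1} := by
  ext
  simp [Fin.exists_fin_two, eq_comm]

theorem eq_two {a : WithBot ℕ∞} (h1 : (1 : WithBot ℕ∞) + 1 ≤ a)
    (h2 : a + 1 ≤ ((2 + 1 : ℕ) : WithBot ℕ∞)) : a = 2 := by
  induction a using WithBot.recBotCoe with
  | bot => exact absurd h1 (by decide)
  | coe a =>
    induction a using ENat.recTopCoe with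
    | top => exact absurd h2 (by decide)
    | coe a =>
      have h3 : 1 + 1 ≤ a := by
        have : (((1 + 1 : ℕ) : ℕ∞) : WithBot ℕ∞) ≤ ((a : ℕ∞) : WithBot ℕ∞) := h1
        exact Nat.cast_le.1 (WithBot.coe_le_coe.1 this)
      have h4 : a + 1 ≤ 2 + 1 := by
        have : (((a + 1 : ℕ) : ℕ∞) : WithBot ℕ∞) ≤ (((2 + 1 : ℕ) : ℕ∞) : WithBot ℕ∞) := h2
        exact Nat.cast_le.1 (WithBot.coe_le_coe.1 this)
      obtain rfl : a = 2 := by omega
      rfl

variable {k : Type} [Field k] {N : ℕ} {I : Ideal (PP k N)} {h : PP k N}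

theorem dim_two (h0 : S_NS0) (hI : IsSm 2 I) (hh : h ∉ I) (y : NP k N) {P : Ideal (PP k N)}
    [P.IsPrime] (h1 : I ⊔ Ideal.span {h} ≤ P) (h2 : P < van k y.1) :
    ringKrullDim (PP k N ⧸ P) = 2 := by
  have := hI.prime
  have h3 := dim_succ h2.le h2.ne
  have h4 := dim_succ (le_sup_left.trans h1 : I ≤ P) fun e =>
    hh (e ▸ h1 (Ideal.mem_sup_right (Ideal.mem_span_singleton_self h)))
  rw [h0.1 k N y] at h3
  rw [hI.dim] at h4
  exact eq_two h3 h4

theorem mem_Cu (h0 : S_NS0) (hI : IsSm 2 I) (hh : h ∉ I) {e : ℕ} (he : h.IsHomogeneous e)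
    (y : NP k N) (P : PrimeSpectrum (PP k N)) (h1 : I ⊔ Ideal.span {h} ≤ P.asIdeal)
    (h2 : P.asIdeal < van k y.1) : P ∈ Cu I := by
  have h3 := dim_two h0 hI hh y h1 h2
  refine ⟨?_, le_sup_left.trans h1, h3⟩
  obtain ⟨Q, hQ, hQP⟩ := Ideal.exists_minimalPrimes_le h1
  have := hQ.1.1
  have h4 := dim_two h0 hI hh y hQ.1.2 (hQP.trans_lt h2)
  have h5 : Q = P.asIdeal := by
    by_contra hne
    have h6 := dim_succ hQP hne
    rw [h3, h4] at h6
    exact absurd h6 (by decide)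
  rw [← h5]
  exact (WHom.sup hI.hom (wHom_span (by rintro _ rfl; exact ⟨e, he⟩))).minimalPrimes hQ

theorem not_max {A : Type} [CommRing A] [IsLocalRing A] [IsNoetherianRing A]
    (hA : ringKrullDim A = 2) (w : A) : Ideal.span {w} ≠ maximalIdeal A := by
  intro e
  have h1 := ringKrullDim_le_spanFinrank_maximalIdeal A
  have h2 : (maximalIdeal A).spanFinrank ≤ 1 := by
    rw [← e]
    simpa using Submodule.spanFinrank_span_le_ncard_of_finite (R := A) (Set.finite_singleton w)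
  rw [hA] at h1
  have h3 : 2 ≤ (maximalIdeal A).spanFinrank := by exact_mod_cast h1
  omega

end IV

open IV in
theorem t_IV : S_NS0 → S_REG → S_REG2 → S_AS → S_FINC → S_IV := by
  intro h0 hR hR2 hAS hF k _ _ N I h g y S hI H hS
  have := hI.prime
  obtain ⟨e, he⟩ := H.hl
  by_cases hy : On I y.1
  swap
  · have hn : ¬ I ≤ van k y.1 := fun a => hy (hI.hom.on_iff.2 a)
    rw [inter, len_eq_zero_iff.2 fun a => hn (le_sup_left.trans a)]
    refine (Finset.sum_eq_zero fun p hp => ?_).symm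
    rw [ordI, (len_eq_zero_iff (q := van k y.1)).2 fun a =>
      hn (((hS p).1 hp).1.2.1.trans (le_sup_left.trans a))]
    simp
  have hle := hI.hom.on_iff.1 hy
  have e1 : I ⊔ Ideal.span {h, g} = I ⊔ Ideal.span {h} ⊔ Ideal.span {g} := by
    rw [Ideal.span_insert, sup_assoc]
  have hin : ∀ P : PrimeSpectrum (PP k N), I ⊔ Ideal.span {h} ≤ P.asIdeal →
      P.asIdeal < van k y.1 → P ∈ S := fun P h1 h2 =>
    (hS P).2 ⟨mem_Cu h0 hI H.nl he y P h1 h2,
      h1 (Ideal.mem_sup_right (Ideal.mem_span_singleton_self h))⟩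
  have hg : ∀ P ∈ S, g ∉ P.asIdeal := fun P hP =>
    ((hF k N I).1 P ((hS P).1 hP).1).2.2.1 h g H ((hS P).1 hP).2
  rw [inter, e1]
  refine hAS (PP k N) (I ⊔ Ideal.span {h}) (van k y.1) g S hin (fun P hP => ⟨sup_le
    ((hS P).1 hP).1.2.1 ((Ideal.span_singleton_le_iff_mem _).2 ((hS P).1 hP).2), hg P hP⟩)
    (fun P hP P' hP' => ((hF k N I).1 P ((hS P).1 hP).1).2.2.2.1 P' ((hS P').1 hP').1)
    fun a ha => ?_
  have := isDomain_LQ hle
  have := isLocalRing_LQ hle
  obtain ⟨d1, c, d2⟩ := (hR k N I y hI.hom hy).2 2 hI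
  rw [range_two] at d2
  have d1' : ringKrullDim (LQ I (van k y.1)) = 2 := by exact_mod_cast d1
  have := (hR2 _ d1' ⟨_, _, maximalIdeal_LQ.trans d2⟩).2.1
  have hne : toL I (van k y.1) h ≠ 0 := fun a => H.nl ((toL_eq_zero_iff hle).1 a)
  have h1 : toL I (van k y.1) h ∣ toL I (van k y.1) g * toL I (van k y.1) a := by
    rw [← map_mul, ← Ideal.mem_span_singleton, ← Set.image_singleton, ← Ideal.map_span,
      toL_mem_map]
    exact ⟨1, fun a => (inferInstance : (van k y.1).IsPrime).ne_top ((Ideal.eq_top_iff_one _).2 a),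
      by rwa [one_mul]⟩
  have h2 : toL I (van k y.1) h ∣ toL I (van k y.1) a := by
    refine UniqueFactorizationMonoid.dvd_of_dvd_mul_right_of_no_prime_factors hne
      (fun {w} w1 w2 hw => ?_) h1
    have hp : (Ideal.span {w}).IsPrime := (Ideal.span_singleton_prime hw.ne_zero).2 hw
    have hm : Ideal.span {w} ≤ maximalIdeal _ := le_maximalIdeal hp.ne_top
    let P : PrimeSpectrum (PP k N) := ⟨(Ideal.span {w}).comap (toL I (van k y.1)), inferInstance⟩
    refine hg P (hin P (sup_le (fun f hf => ?_) ((Ideal.span_singleton_le_iff_mem _).2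
      (Ideal.mem_span_singleton.2 w1))) (lt_of_le_of_ne (fun f hf => ?_) fun e => ?_))
      (Ideal.mem_span_singleton.2 w2)
    · change toL I (van k y.1) f ∈ Ideal.span {w}
      rw [toL_eq_zero hf]
      exact zero_mem _
    · rw [← toL_mem_mQ hle, ← maximalIdeal_LQ]
      exact hm hf
    · refine not_max d1' w (le_antisymm hm ?_)
      rw [maximalIdeal_LQ, mQ, Ideal.map_le_iff_le_comap]
      exact e.ge
  rwa [← Ideal.mem_span_singleton, ← Set.image_singleton, ← Ideal.map_span, toL_mem_map] at h2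

end Pool.Agent.P.MP_12d50c_ag
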