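import Pool.Agent.P.MP_12d50c_ag.If1

/-!
The projective Nullstellensatz.
-/

open MvPolynomial

namespace Pool.Agent.P.MP_12d50c_ag

namespace NSP

theorem dim_succ {R : Type} [CommRing R] {Q P : Ideal R} [Q.IsPrime] (h : Q ≤ P) (hne : Q ≠ P) :
    ringKrullDim (R ⧸ P) + 1 ≤ ringKrullDim (R ⧸ Q) := by
  obtain ⟨x, hx, hx'⟩ := SetLike.exists_of_lt (lt_of_le_of_ne h hne)
  refine ringKrullDim_succ_le_of_surjective (Ideal.Quotient.factor h)
    (Ideal.Quotient.factor_surjective h) (r := Ideal.Quotient.mk Q x)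
    (mem_nonZeroDivisors_of_ne_zero ?_) ?_
  · rwa [Ne, Ideal.Quotient.eq_zero_iff_mem]
  · rwa [Ideal.Quotient.factor_mk, Ideal.Quotient.eq_zero_iff_mem]

variable {k : Type} [Field k] [IsAlgClosed k] {N : ℕ}

theorem rad {J : Ideal (PP k N)} {f : PP k N} {e : ℕ} (hJ : Hom J) (hf : f.IsHomogeneous e)
    (he : 0 < e) (h : ∀ y : NP k N, On J y.1 → aeval y.1 f = 0) : f ∈ J.radical := by
  rw [← vanishingIdeal_zeroLocus_eq_radical (K := k), mem_vanishingIdeal_iff]
  intro x hx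
  by_cases h0 : x = 0
  · have h1 := aeval_smul hf (0 : k) x
    simpa [h0, he.ne', Pi.zero_def] using h1
  · obtain ⟨y, c, hc, rfl⟩ := NP.exists_smul h0
    rw [aeval_smul hf, h y ((on_scale hJ hc).1 hx), mul_zero]

theorem mem {q : Ideal (PP k N)} (hq : q.IsPrime) (hH : Hom q) (hR : Rel q) (f : PP k N) (e : ℕ)
    (hf : f.IsHomogeneous e) (h : ∀ y : NP k N, On q y.1 → aeval y.1 f = 0) : f ∈ q := by
  obtain ⟨i, hi⟩ := hR
  have h1 := rad hH (hf.mul (isHomogeneous_X k i)) (Nat.succ_pos e) fun y hy => by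
    rw [map_mul, h y hy, zero_mul]
  rw [hq.radical] at h1
  exact (hq.mem_or_mem h1).resolve_right hi

theorem ex {q : Ideal (PP k N)} (hq : q.IsPrime) (hH : Hom q) (hR : Rel q) :
    ∃ y : NP k N, On q y.1 := by
  by_contra hn
  exact hq.ne_top ((Ideal.eq_top_iff_one q).2
    (mem hq hH hR 1 0 (isHomogeneous_one _ _) fun y hy => (hn ⟨y, hy⟩).elim))

end NSP

open NSP in
theorem t_NSP : S_NS0 → S_NSP := by
  intro h0 k _ _ N
  refine ⟨fun J f e => rad, fun q hq hH hR => ⟨mem hq hH hR, ex hq hH hR, fun hS => ?_,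
    fun hd => ?_, fun hd g e hg hgq => ?_⟩⟩
  · have h1 : WHom 1 (hS.toFinset.inf fun y => van k y.1) := fun f hf d => by
      rw [Submodule.mem_finsetInf] at hf ⊢
      exact fun y hy => wHom_vanw _ f (hf y hy) d
    have h2 : (hS.toFinset.inf fun y => van k y.1) ≤ q := h1.le_of_hom fun f d hf hf' => by
      rw [Submodule.mem_finsetInf] at hf'
      exact mem hq hH hR f d hf fun y hy =>
        aeval_eq_zero_of_mem_vanw (hf' y (hS.mem_toFinset.2 hy))
    obtain ⟨y, hy, h3⟩ := hq.inf_le'.1 h2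
    exact ⟨y, le_antisymm (hH.on_iff.1 (hS.mem_toFinset.1 hy)) h3⟩
  · obtain ⟨y, hy⟩ := ex hq hH hR
    refine ⟨y, by_contra fun hne => ?_⟩
    have h1 := (dim_succ (hH.on_iff.1 hy) hne).trans hd
    rw [h0.1 k N y] at h1
    norm_num at h1
  · refine Set.Finite.of_finite_image (f := fun y => van k y.1)
      ((Ideal.finite_minimalPrimes_of_isNoetherianRing _ (q ⊔ Ideal.span {g})).subset ?_)
      fun y _ y' _ h => NP.eq_of_van_le (le_of_eq h)
    rintro _ ⟨y, ⟨hy, hy'⟩, rfl⟩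
    have h1 : q ⊔ Ideal.span {g} ≤ van k y.1 := sup_le (hH.on_iff.1 hy)
      ((Ideal.span_singleton_le_iff_mem _).2 ((mem_van_of_hom hg).2 hy'))
    obtain ⟨q', h2, h3⟩ := Ideal.exists_minimalPrimes_le h1
    have := h2.1.1
    have h4 : q' = van k y.1 := by
      by_contra hne
      have h5 := dim_succ h3 hne
      have h6 := (dim_succ (le_sup_left.trans h2.1.2) fun h => hgq
        (h ▸ h2.1.2 (Ideal.mem_sup_right (Ideal.mem_span_singleton_self g)))).trans hd
      rw [h0.1 k N y] at h5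
      have h7 := (add_le_add_left h5 1).trans h6
      norm_num at h7
    rw [h4] at h2
    exact h2

end Pool.Agent.P.MP_12d50c_ag
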