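import Pool.Agent.P.MP_12d50c_ag.If2

/-!
Restriction and extension of places in finite extensions.
-/

open WithZero Function
open Pool.Agent.P.MP_6f117a_ag (Place FF Model Reg)
open scoped IntermediateField

namespace Pool.Agent.P.MP_12d50c_ag

namespace PRES

variable {k L E : Type} [Field k] [Field L] [Field E] [Algebra k L] [Algebra k E]

theorem uniq (P₁ P₂ : Place k L) (h : ∀ u, P₁.v u < 1 ↔ P₂.v u < 1) : P₁ = P₂ := by
  have he : P₁.v.IsEquiv P₂.v := Valuation.isEquiv_iff_val_lt_one.2 fun {x} => h x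
  have key : ∀ x, x ≠ 0 → log (P₂.v x) = -log (P₂.v P₁.π) * log (P₁.v x) := fun x hx => by
    have := congrArg log (he.eq_one_iff_eq_one.1 (P₁.v_unit hx))
    rw [map_mul, map_zpow₀, log_mul (by simpa using hx) (zpow_ne_zero _ (by simpa using P₁.π_ne)),
      log_zpow, log_one, smul_eq_mul] at this
    linear_combination this
  have h1 : log (P₂.v P₁.π) ≤ 0 := by
    rw [log_le_iff_le_exp (by simpa using P₁.π_ne)]
    exact he.le_one_iff_le_one.1 P₁.v_π_le
  have h2 := key _ P₂.π_ne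
  rw [P₂.v_π, log_exp] at h2
  have h3 : -log (P₂.v P₁.π) = 1 :=
    Int.eq_one_of_mul_eq_one_right (b := -log (P₁.v P₂.π)) (by omega) (by linear_combination h2)
  refine MP_6f117a_ag.Place.ext' (Valuation.ext fun x => ?_)
  rcases eq_or_ne x 0 with rfl | hx
  · simp
  have := key x hx
  rw [h3, one_mul] at this
  rw [← exp_log (x := P₂.v x) (by simpa using hx), this, exp_log (by simpa using hx)]

theorem const_eq (v : Valuation L ℤᵐ⁰) (triv : ∀ c : k, v (algebraMap k L c) ≤ 1) {x : L}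
    {c c' : k} (h : v (x - algebraMap k L c) < 1) (h' : v (x - algebraMap k L c') < 1) :
    c = c' := by
  by_contra hc
  have hd : c' - c ≠ 0 := sub_ne_zero.2 (Ne.symm hc)
  have h1 := v.map_sub_lt h h'
  rw [sub_sub_sub_cancel_left, ← map_sub] at h1
  have h2 := triv (c' - c)⁻¹
  rw [map_inv₀, map_inv₀, inv_le_one₀
    (zero_lt_iff.2 ((map_ne_zero v).2 ((map_ne_zero (algebraMap k L)).2 hd)))] at h2
  exact absurd h1 (not_lt.2 h2)

/-- The residue homomorphism. -/
theorem exists_res (v : Valuation L ℤᵐ⁰) (triv : ∀ c : k, v (algebraMap k L c) ≤ 1)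
    (res : ∀ x, v x ≤ 1 → ∃ c, v (x - algebraMap k L c) < 1) :
    ∃ (R : Subalgebra k L) (φ : R →ₐ[k] k), (∀ x, x ∈ R ↔ v x ≤ 1) ∧
      ∀ r : R, v (r - algebraMap k L (φ r)) < 1 := by
  let R : Subalgebra k L :=
    { carrier := {x | v x ≤ 1}
      mul_mem' := fun {a b} ha hb => by
        simp only [Set.mem_ofPred_eq, map_mul] at *; exact mul_le_one' ha hb
      add_mem' := fun {a b} ha hb => v.map_add_le ha hb
      algebraMap_mem' := triv }
  choose f hf using fun r : R => res r r.2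
  refine ⟨R, ⟨⟨⟨⟨f, ?_⟩, fun a b => ?_⟩, ?_, fun a b => ?_⟩, fun c => ?_⟩, fun _ => Iff.rfl, hf⟩
  · exact const_eq v triv (hf 1) (by simp)
  · refine const_eq v triv (hf _) ?_
    have e : ((a * b : R) : L) - algebraMap k L (f a * f b) =
        a * (b - algebraMap k L (f b)) + algebraMap k L (f b) * (a - algebraMap k L (f a)) := by
      simp only [map_mul, MulMemClass.coe_mul]; ring
    rw [e]
    refine v.map_add_lt ?_ ?_ <;> rw [map_mul]
    · exact mul_lt_one_of_nonneg_of_lt_one_right a.2 zero_le (hf b)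
    · exact mul_lt_one_of_nonneg_of_lt_one_right (triv _) zero_le (hf a)
  · exact const_eq v triv (hf 0) (by simp)
  · refine const_eq v triv (hf _) ?_
    have e : ((a + b : R) : L) - algebraMap k L (f a + f b) =
        (a - algebraMap k L (f a)) + (b - algebraMap k L (f b)) := by
      simp only [map_add, AddMemClass.coe_add]; ring
    rw [e]
    exact v.map_add_lt (hf a) (hf b)
  · exact const_eq v triv (hf _) (by simp)

theorem exists_place (v : Valuation L ℤᵐ⁰) (triv : ∀ c : k, v (algebraMap k L c) ≤ 1)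
    (res : ∀ x, v x ≤ 1 → ∃ c, v (x - algebraMap k L c) < 1) (ψ : L →ₐ[k] E) {t : L}
    (ht : Transcendental k t)
    (H : ∀ (R : Subalgebra k E) (φ : R →ₐ[k] k) (t : E), t ∈ R → Transcendental k t →
      ∃ P : Place k E, ∀ r : R, P.v (r - algebraMap k E (φ r)) < 1) :
    ∃ P : Place k E, ∀ u, P.v (ψ u) < 1 ↔ v u < 1 := by
  obtain ⟨R, φ, hR, hφ⟩ := exists_res v triv res
  obtain ⟨s, hs, hs'⟩ : ∃ s ∈ R, Transcendental k s := by
    rcases le_total (v t) 1 with h | h
    · exact ⟨t, (hR t).2 h, ht⟩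
    · refine ⟨t⁻¹, (hR _).2 ?_, fun h' => ht (IsAlgebraic.inv_iff.1 h')⟩
      rw [map_inv₀]
      exact inv_le_one_of_one_le₀ h
  let e := R.equivMapOfInjective ψ ψ.injective
  obtain ⟨P, hP⟩ := H (R.map ψ) (φ.comp e.symm.toAlgHom) (ψ s) ⟨s, hs, rfl⟩
    fun h => hs' ((isAlgebraic_algHom_iff ψ ψ.injective).1 h)
  have hP' : ∀ r : R, P.v (ψ r - algebraMap k E (φ r)) < 1 := fun r => by
    have := hP (e r)
    simpa [e] using this
  have h1 : ∀ u, v u ≤ 1 → P.v (ψ u) ≤ 1 := fun u hu => by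
    have := P.v.map_add_le (hP' ⟨u, (hR u).2 hu⟩).le (P.triv (φ ⟨u, (hR u).2 hu⟩))
    rwa [sub_add_cancel] at this
  refine ⟨P, fun u => ⟨fun h => ?_, fun h => ?_⟩⟩
  · by_contra hc
    have hc' : 1 ≤ v u := not_lt.1 hc
    have h0 : u ≠ 0 := by rintro rfl; simp at hc'
    have := h1 u⁻¹ (by rw [map_inv₀]; exact inv_le_one_of_one_le₀ hc')
    rw [map_inv₀, map_inv₀, inv_le_one₀ (zero_lt_iff.2 (by simpa using h0))] at this
    exact absurd h (not_lt.2 this)
  · have h2 : φ ⟨u, (hR u).2 h.le⟩ = 0 := const_eq v triv (hφ _) (by simpa using h)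
    have := hP' ⟨u, (hR u).2 h.le⟩
    rwa [h2, map_zero, sub_zero] at this

end PRES

open PRES in
theorem t_PRES : S_PLACE → S_PRES := by
  intro hP k L M _ _ _ _ _ _ _ _ _ t ht hfin
  have e1 : Algebra.EssFiniteType k k⟮t⟯ := IntermediateField.essFiniteType_iff.2
    (IntermediateField.fg_adjoin_of_finite (Set.finite_singleton t))
  have e2 : Algebra.EssFiniteType k L := .comp k k⟮t⟯ L
  have e3 : Algebra.EssFiniteType k M := .comp k L M
  have a1 : Algebra.IsAlgebraic (Algebra.adjoin k {t}) L :=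
    IntermediateField.isAlgebraic_adjoin_iff_top.1 inferInstance
  have t1 : Algebra.trdeg k L ≤ 1 := by
    simpa using Algebra.IsAlgebraic.trdeg_le_cardinalMk k ({t} : Set L)
  have t2 : Algebra.trdeg k M ≤ 1 := by
    rw [← trdeg_add_eq k L (A := M), trdeg_eq_zero (R := L), add_zero]
    exact t1
  have f1 : FF k L := .of_fg (IntermediateField.fg_top_iff.2 e2) t1
  have f2 : FF k M := .of_fg (IntermediateField.fg_top_iff.2 e3) t2
  obtain ⟨-, -, -, -, -, -, l1, l2⟩ := hP k L
  obtain ⟨-, -, -, -, -, -, m1, m2⟩ := hP k M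
  refine ⟨f1, f2, uniq, fun P => ?_, fun P' => ?_⟩
  · obtain ⟨P', h⟩ := exists_place (P.v.comap (algebraMap L M))
      (fun c => by simpa [← IsScalarTower.algebraMap_apply] using P.triv c)
      (fun x hx => (m1 P _ hx).imp fun c hc => by
        simpa [← IsScalarTower.algebraMap_apply] using hc) (AlgHom.id k L) ht l2
    exact ⟨P', fun u => (h u).symm⟩
  · exact exists_place P'.v P'.triv (l1 P') (IsScalarTower.toAlgHom k L M) ht m2

end Pool.Agent.P.MP_12d50c_ag
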