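import Pool.Agent.P.MP_12d50c_ag.If5

/-!
Task SMO1: differentials of smooth schemes.
-/

open CategoryTheory AlgebraicGeometry IsLocalRing MvPolynomial Limits
open Pool.Agent.P.MP_638e8a_ag.Cyc (St Rf ev stm primeOf)

namespace Pool.Agent.P.MP_12d50c_ag

namespace SMO1

theorem loc {F A R : Type} [CommRing F] [CommRing A] [CommRing R] [Nontrivial R] [Algebra F A]
    [Algebra F R] [Algebra A R] [IsScalarTower F A R] (M : Submonoid A) [IsLocalization M R]
    (d : ℕ) [Algebra.IsStandardSmoothOfRelativeDimension d F A] :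
    Module.Free R Ω[R⁄F] ∧ Module.Finite R Ω[R⁄F] ∧ Module.finrank R Ω[R⁄F] = d := by
  have : Nontrivial A := (algebraMap A R).domain_nontrivial
  have := Algebra.IsStandardSmoothOfRelativeDimension.isStandardSmooth d (R := F) (S := A)
  refine ⟨Module.free_of_isLocalizedModule M (KaehlerDifferential.map F F A R),
    Module.Finite.of_isLocalizedModule M (KaehlerDifferential.map F F A R), ?_⟩
  rw [Module.finrank_of_isLocalizedModule_of_free R M (KaehlerDifferential.map F F A R),
    Module.finrank, Algebra.IsStandardSmoothOfRelativeDimension.rank_kaehlerDifferential d]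
  simp

end SMO1

theorem t_SMO1 : S_SMO1 := by
  intro F _ Y κ d _ x
  obtain ⟨U, hU, V, hV, hx, e, hf⟩ :=
    SmoothOfRelativeDimension.exists_isStandardSmoothOfRelativeDimension (n := d) (f := κ) x
  have hU' : U = ⊤ := by
    refine eq_top_iff.2 fun y _ => ?_
    have : y = κ x := Subsingleton.elim (α := PrimeSpectrum F) _ _
    rw [this]
    exact e hx
  subst hU'
  let : Algebra F Γ(Y, V) :=
    ((κ.appLE ⊤ V le_top).hom.comp (Scheme.ΓSpecIso (CommRingCat.of F)).inv.hom).toAlgebra
  let := algS κ x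
  have : Algebra.IsStandardSmoothOfRelativeDimension d F Γ(Y, V) :=
    RingHom.isStandardSmoothOfRelativeDimension_respectsIso.2 _
      (Scheme.ΓSpecIso (CommRingCat.of F)).symm.commRingCatIsoToRingEquiv hf
  let : Algebra Γ(Y, V) (St x) := Y.presheaf.algebra_section_stalk (⟨x, hx⟩ : V)
  have h1 : IsLocalization.AtPrime (St x) _ := hV.isLocalization_stalk ⟨x, hx⟩
  have : IsScalarTower F Γ(Y, V) (St x) := IsScalarTower.of_algebraMap_eq fun c =>
    (TopCat.Presheaf.germ_res_apply Y.presheaf (homOfLE le_top) x hx _).symm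
  exact SMO1.loc (hV.primeIdealOf ⟨x, hx⟩).asIdeal.primeCompl d

end Pool.Agent.P.MP_12d50c_ag
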