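import Pool.Agent.P.MP_12d50c_ag.If3

/-!
Additive functionals on a smooth curve factor through divisors.
-/

open MvPolynomial

namespace Pool.Agent.P.MP_12d50c_ag

namespace STEP1

variable {k : Type} [Field k] [IsAlgClosed k] {N : ℕ} {Q : Ideal (PP k N)}

theorem fin_supp (hC : S_CURVE) (hQ : IsSm 1 Q) {g : PP k N} {e : ℕ} (hg : g.IsHomogeneous e)
    (hn : g ∉ Q) : (Function.support fun y => (ordI Q y g).toNat).Finite := by
  obtain ⟨-, h2, -, h4, -⟩ := hC k N Q hQ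
  refine (h4 g e hg hn).2.1.subset fun y hy => ?_
  by_contra hc
  exact hy (by simp only [(h2 g e y hg).2 hc]; rfl)

theorem toNat_mul (hC : S_CURVE) (hQ : IsSm 1 Q) {g g' : PP k N} {e e' : ℕ}
    (hg : g.IsHomogeneous e) (hg' : g'.IsHomogeneous e') (hn : g ∉ Q) (hn' : g' ∉ Q) (y : NP k N) :
    (ordI Q y (g * g')).toNat = (ordI Q y g).toNat + (ordI Q y g').toNat := by
  obtain ⟨-, -, -, h4, h5, -⟩ := hC k N Q hQ
  rw [h5 g g' y hn hn', ENat.toNat_add ((h4 g e hg hn).1 y) ((h4 g' e' hg' hn').1 y)]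

theorem degC_mul (hC : S_CURVE) (hQ : IsSm 1 Q) {g g' : PP k N} {e e' : ℕ}
    (hg : g.IsHomogeneous e) (hg' : g'.IsHomogeneous e') (hn : g ∉ Q) (hn' : g' ∉ Q) :
    degC Q (g * g') = degC Q g + degC Q g' := by
  unfold degC
  rw [← finsum_add_distrib (fin_supp hC hQ hg hn) (fin_supp hC hQ hg' hn')]
  exact finsum_congr (toNat_mul hC hQ hg hg' hn hn')

theorem deg_le (hC : S_CURVE) (hQ : IsSm 1 Q) {g g' : PP k N} {e e' : ℕ}
    (hg : g.IsHomogeneous e) (hg' : g'.IsHomogeneous e') (hn : g ∉ Q) (hn' : g' ∉ Q)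
    (h : degC Q g = degC Q g') : e' ≤ e := by
  by_contra hc
  obtain ⟨i, hi⟩ := hQ.rel
  have hX : (X i ^ (e' - e) : PP k N).IsHomogeneous (e' - e) := by
    simpa using (isHomogeneous_X k i).pow (e' - e)
  have hXn : X i ^ (e' - e) ∉ Q := fun hm => hi (hQ.prime.mem_of_pow_mem _ hm)
  have h1 := degC_mul hC hQ hg hX hn hXn
  obtain ⟨-, -, -, h4, -, h6⟩ := hC k N Q hQ
  have h2 := (h4 _ _ hX hXn).2.2
  have h3 : (g * X i ^ (e' - e)).IsHomogeneous e' := by
    have := hg.mul hX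
    rwa [show e + (e' - e) = e' by omega] at this
  have h5 := (h6 _ _ e' h3 hg' (fun hm => (hQ.prime.mem_or_mem hm).elim hn hXn) hn').1
  omega

end STEP1

open STEP1 in
theorem t_STEP1 : S_FQ → S_INT → S_GOODC → S_CURVE → S_EXT → S_STEP1 := by
  intro hFQ hINT hG hC hE k _ _ p _ _ N I n a β hL hI hn ha hgood hmul hcong
  obtain ⟨Q, hQ⟩ := hG k N I a n hI ha hn hgood
  have hcop := (hINT k N I hI).2.2.1
  have hnot : ∀ g, Cop I a g → g ∉ Q := fun g hg =>
    let ⟨e, he⟩ := hg.hr; (hQ.cop g e he).1 hg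
  have hfin : ∀ g, Cop I a g → (Function.support fun y => (ordI Q y g).toNat).Finite :=
    fun g hg => let ⟨_, he⟩ := hg.hr; fin_supp hC hQ.sm he (hnot g hg)
  have hCc : ∀ c : k, c ≠ 0 → Cop I a (C c) := fun c hc =>
    (hQ.cop _ 0 (isHomogeneous_C _ c)).2 fun hm =>
      hQ.sm.prime.ne_top (Ideal.eq_top_of_isUnit_mem _ hm ((Ne.isUnit hc).map C))
  have hβ1 : β 1 = 0 := by
    have h1 : Cop I a 1 := by simpa using hCc 1 one_ne_zero
    have := hmul 1 1 h1 h1
    rw [mul_one] at this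
    linarith
  have hβC : ∀ c : k, c ≠ 0 → β (C c) = 0 := by
    intro c hc
    obtain ⟨m, hm, h1⟩ := (hFQ k p).2.1 hL c hc
    have h2 : ∀ j : ℕ, β (C (c ^ j)) = j * β (C c) := by
      intro j
      induction j with
      | zero => simpa using hβ1
      | succ j ih =>
        rw [pow_succ, C_mul, hmul _ _ (hCc _ (pow_ne_zero _ hc)) (hCc c hc), ih]
        push_cast; ring
    have h3 := h2 m
    rw [h1, C_1, hβ1] at h3
    exact (mul_eq_zero.1 h3.symm).resolve_left (Nat.cast_ne_zero.2 hm.ne')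
  let dv : {g // Cop I a g} → NP k N →₀ ℕ := fun g =>
    Finsupp.ofSupportFinite (fun y => (ordI Q y g.1).toNat) (hfin g.1 g.2)
  have hdv : ∀ g y, dv g y = (ordI Q y g.1).toNat := fun g y => rfl
  obtain ⟨χ, hχ⟩ := hE.1 (NP k N) {g // Cop I a g} dv (fun g => β g.1)
    (fun g g' => ⟨⟨g.1 * g'.1, (hcop a _ _ g.2 g'.2).1⟩, Finsupp.ext fun y => by
      obtain ⟨e, he⟩ := g.2.hr
      obtain ⟨e', he'⟩ := g'.2.hr
      rw [Finsupp.add_apply, hdv, hdv, hdv]
      exact toNat_mul hC hQ.sm he he' (hnot _ g.2) (hnot _ g'.2) y, hmul _ _ g.2 g'.2⟩)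
    (by
      rintro ⟨g, hg⟩ ⟨g', hg'⟩ h
      obtain ⟨e, he⟩ := hg.hr
      obtain ⟨e', he'⟩ := hg'.hr
      have h1 : ∀ y, (ordI Q y g).toNat = (ordI Q y g').toNat := fun y => by
        have := DFunLike.congr_fun h y
        rwa [hdv, hdv] at this
      have h2 : degC Q g = degC Q g' := finsum_congr h1
      obtain rfl : e = e' := le_antisymm
        (deg_le hC hQ.sm he' he (hnot _ hg') (hnot _ hg) h2.symm)
        (deg_le hC hQ.sm he he' (hnot _ hg) (hnot _ hg') h2)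
      obtain ⟨-, -, -, h4, -, h6⟩ := hC k N Q hQ.sm
      obtain ⟨c, hc, h7⟩ := (h6 g g' e he he' (hnot _ hg) (hnot _ hg')).2 fun y => by
        rw [← ENat.coe_toNat ((h4 g e he (hnot _ hg)).1 y),
          ← ENat.coe_toNat ((h4 g' e he' (hnot _ hg')).1 y), h1]
      have h8 := (hcop a _ _ (hCc c hc) hg').1
      have h9 := hcong g (C c * g') e hg h8 he (by simpa using (isHomogeneous_C _ c).mul he')
        fun y hy hy' => by
          obtain ⟨m, hm⟩ := hQ.rad h7
          have h10 : On (I ⊔ Ideal.span {a}) y.1 :=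
            (on_sup _).2 ⟨hy, (on_span _).2 fun f hf => by rw [hf]; exact hy'⟩
          have h11 := h10 _ hm
          rw [map_pow] at h11
          have h12 := eq_zero_of_pow_eq_zero h11
          rwa [map_sub, sub_eq_zero] at h12
      change β g = β g'
      rw [h9, hmul _ _ (hCc c hc) hg', hβC c hc, zero_add])
  refine ⟨χ, fun g hg => ?_⟩
  rw [hχ ⟨g, hg⟩, wsum, Finsupp.sum,
    finsum_eq_sum_of_support_subset (s := (dv ⟨g, hg⟩).support)]
  · exact Finset.sum_congr rfl fun y _ => by rw [hdv, hQ.inter_eq]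
  · intro y hy
    rw [Finset.mem_coe, Finsupp.mem_support_iff, hdv]
    intro h0
    apply hy
    simp only [hQ.inter_eq]
    rw [show (ordI Q y g).toNat = 0 from h0]
    simp

end Pool.Agent.P.MP_12d50c_ag
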