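import Pool.Agent.P.MP_12d50c_ag.If3

/-!
Forms through two given points separate jets.
-/

open MvPolynomial
open scoped Polynomial

namespace Pool.Agent.P.MP_12d50c_ag

namespace SUR

variable {K : Type} [Field K] {N : ℕ}

theorem coeff_zero (γ : Fin (N + 1) → K[X]) (f : PP K N) :
    (aeval γ f).coeff 0 = aeval (base γ) f := by
  rw [Polynomial.coeff_zero_eq_aeval_zero, map_aeval']
  congr 2
  funext i
  rw [base, Polynomial.coeff_zero_eq_aeval_zero]

theorem of_dvd {γ : Fin (N + 1) → K[X]} {f : PP K N} {g : K[X]} {l : ℕ} (hl : 0 < l)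
    (h : Polynomial.X ^ l ∣ aeval γ f - g) (hg : g.coeff 0 = 0) : aeval (base γ) f = 0 := by
  have h1 := Polynomial.X_dvd_iff.1 ((dvd_pow_self _ hl.ne').trans h)
  rwa [Polynomial.coeff_sub, hg, sub_zero, coeff_zero] at h1

theorem of_not_dist {y z : Fin (N + 1) → K} {f : PP K N} {m : ℕ} (hf : f.IsHomogeneous m)
    (hy : ∃ i, y i = 1) (hz : ∃ i, z i = 1) (h : ¬ Dist y z) (h0 : aeval y f = 0) :
    aeval z f = 0 := by
  obtain ⟨i, hi⟩ := hy
  obtain ⟨j, hj⟩ := hz
  simp only [Dist, not_exists, not_not] at h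
  have h1 : y = fun a => y j * z a := funext fun a => by rw [← h, hj, mul_one]
  have h2 : y j ≠ 0 := fun h2 => by
    have h3 := congrFun h1 i
    rw [hi, h2, zero_mul] at h3
    exact one_ne_zero h3
  rw [h1, aeval_smul hf] at h0
  exact (mul_eq_zero.1 h0).resolve_left (pow_ne_zero _ h2)

theorem base_C (z : Fin (N + 1) → K) : base (fun i => Polynomial.C (z i)) = z :=
  funext fun _ => Polynomial.coeff_C_zero

end SUR

open SUR in
theorem t_SUR : S_SEP → S_SUR := by
  intro hSEP K _ N m z z' ι _ l γ g hz hz' hzz h1 h2 h3 h4 h5 h6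
  classical
  let w : Bool → Fin (N + 1) → K := fun β => cond β z z'
  have hw : ∀ β, ∃ i, w β i = 1 := fun β => by
    cases β
    exacts [hz', hz]
  let e : Bool → ℕ := fun β => if ∀ a, Dist (base (γ a)) (w β) then 1 else 0
  have he : ∀ β, e β ≤ 1 := fun β => by
    simp only [e]
    split_ifs <;> omega
  have he' : ∀ β, 0 < e β → ∀ a, Dist (base (γ a)) (w β) := fun β h => by
    by_contra h7
    simp only [e, if_neg h7, lt_self_iff_false] at h
  have H := hSEP K N m (ι ⊕ Bool) (Sum.elim l e)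
    (Sum.elim γ fun β i => Polynomial.C (w β i)) (Sum.elim g 0) ?_ ?_ ?_ ?_
  · obtain ⟨c, hc⟩ := H
    have key : ∀ β, aeval (w β) (form c) = 0 := fun β => by
      by_cases h7 : ∀ a, Dist (base (γ a)) (w β)
      · have h8 := of_dvd (l := e β) (by simp only [e, if_pos h7, one_pos]) (hc (Sum.inr β)) rfl
        rwa [Sum.elim_inr, base_C] at h8
      · obtain ⟨a, ha⟩ := not_forall.1 h7
        obtain ⟨i, hi⟩ := h1 a
        refine of_not_dist (form_isHomogeneous c) ⟨i, ?_⟩ (hw β) ha
          (of_dvd (h3 a) (hc (Sum.inl a)) ((h6 a).resolve_left fun h8 => ha ?_))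
        · rw [base, hi, Polynomial.coeff_one_zero]
        · cases β
          exacts [h8.2, h8.1]
    exact ⟨c, key true, key false, fun a => hc (Sum.inl a)⟩
  · rintro (a | β)
    · exact h1 a
    · obtain ⟨i, hi⟩ := hw β
      exact ⟨i, by rw [Sum.elim_inr, hi, Polynomial.C_1]⟩
  · rintro (a | β) h
    · exact h2 a h
    · exact absurd (he β) (not_le.2 h)
  · rintro (a | β) (b | β') hne ha hb
    · exact h4 a b fun h => hne (congrArg _ h)
    · rw [Sum.elim_inr, base_C]
      exact he' β' hb a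
    · rw [Sum.elim_inr, base_C]
      exact (he' β ha b).symm
    · rw [Sum.elim_inr, Sum.elim_inr, base_C, base_C]
      cases β <;> cases β'
      exacts [absurd rfl hne, hzz.symm, hzz, absurd rfl hne]
  · have h7 := he true
    have h8 := he false
    simp only [Fintype.sum_sum_type, Sum.elim_inl, Sum.elim_inr, Fintype.sum_bool]
    omega

end Pool.Agent.P.MP_12d50c_ag
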