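import Pool.Agent.P.MP_12d50c_ag.If4

/-!
The maps between the coordinate rings.
-/

open MvPolynomial Function

namespace Pool.Agent.P.MP_12d50c_ag

namespace VP0

section

variable {k : Type} [Field k] {τ τ' : Type} {w : τ → ℕ} {w' : τ' → ℕ}
  {φ : MvPolynomial τ k →ₐ[k] MvPolynomial τ' k}

theorem hom (h : ∀ j, IsWeightedHomogeneous w' (φ (X j)) (w j)) (f : MvPolynomial τ k) (d : ℕ)
    (hf : IsWeightedHomogeneous w f d) : IsWeightedHomogeneous w' (φ f) d := by
  rw [f.as_sum, map_sum]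
  refine IsWeightedHomogeneous.sum _ _ _ fun e he => ?_
  rw [monomial_eq, map_mul, Finsupp.prod, map_prod, ← hf (mem_support_iff.1 he),
    Finsupp.weight_apply, Finsupp.sum, algHom_C]
  refine IsWeightedHomogeneous.C_mul (IsWeightedHomogeneous.prod _ _ _ fun j _ => ?_) _
  rw [map_pow]
  exact (h j).pow _

theorem comp (h : ∀ j, IsWeightedHomogeneous w' (φ (X j)) (w j)) (f : MvPolynomial τ k) (d : ℕ) :
    φ (weightedHomogeneousComponent w d f) = weightedHomogeneousComponent w' d (φ f) := by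
  classical
  obtain ⟨n, h1, h2⟩ := exists_sum_comp w f
  conv_rhs => rw [h1, map_sum, map_sum]
  rw [Finset.sum_congr rfl fun e _ => weightedHomogeneousComponent_of_mem
    (hom h _ e (weightedHomogeneousComponent_isWeightedHomogeneous _ _)), Finset.sum_ite_eq]
  split_ifs with a
  · rfl
  · rw [h2 d (not_lt.1 fun b => a (Finset.mem_range.2 b)), map_zero]

theorem comap (h : ∀ j, IsWeightedHomogeneous w' (φ (X j)) (w j)) (J : Ideal (MvPolynomial τ' k))
    (hJ : WHom w' J) : WHom w (J.comap φ) := fun f hf d => by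
  rw [Ideal.mem_comap, comp h]
  exact hJ _ hf d

theorem map [Finite τ] (h : ∀ j, IsWeightedHomogeneous w' (φ (X j)) (w j))
    (J : Ideal (MvPolynomial τ k)) (hJ : WHom w J) : WHom w' (J.map φ) := by
  obtain ⟨S, h1, rfl⟩ := hJ.exists_gen
  rw [Ideal.map_span]
  refine wHom_span ?_
  rintro _ ⟨f, hf, rfl⟩
  exact (h1 f hf).imp fun d => hom h f d

theorem sub_mem (ψ : MvPolynomial τ' k →ₐ[k] MvPolynomial τ k) {J : Ideal (MvPolynomial τ k)}
    (h : ∀ j, X j - ψ (φ (X j)) ∈ J) (f : MvPolynomial τ k) : f - ψ (φ f) ∈ J := by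
  have : Ideal.Quotient.mkₐ k J = (Ideal.Quotient.mkₐ k J).comp (ψ.comp φ) :=
    algHom_ext fun j => Ideal.Quotient.eq.2 (h j)
  exact Ideal.Quotient.eq.1 (DFunLike.congr_fun this f)

end

variable {k : Type} [Field k] {N m n : ℕ}

theorem smap_l (g : Fin (m + 1) → Fin (n + 1)) (i : Fin (N + 1)) :
    (smap g (X (Sum.inl i)) : RR k N m) = X (Sum.inl i) := by simp [smap]

theorem smap_r (g : Fin (m + 1) → Fin (n + 1)) (j : Fin (n + 1)) :
    (smap g (X (Sum.inr j)) : RR k N m) = ∑ i with g i = j, X (Sum.inr i) := by simp [smap]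

theorem vtx_l (v : Fin (n + 1)) (i : Fin (N + 1)) : (vtx v (X (Sum.inl i)) : PP k N) = X i := by
  simp [vtx]

theorem vtx_r (v j : Fin (n + 1)) :
    (vtx v (X (Sum.inr j)) : PP k N) = if j = v then 1 else 0 := by simp [vtx, Pi.single_apply]

theorem h_smap (g : Fin (m + 1) → Fin (n + 1)) (j : Ix N n) :
    IsWeightedHomogeneous (wt N m) (smap g (X j) : RR k N m) (wt N n j) := by
  rcases j with i | j
  · rw [smap_l]; exact isWeightedHomogeneous_X k _ _
  · rw [smap_r]
    exact IsWeightedHomogeneous.sum _ _ _ fun i _ => isWeightedHomogeneous_X k _ _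

theorem h_inc (j : Fin (N + 1)) :
    IsWeightedHomogeneous (wt N n) (inc n (X j) : RR k N n) ((1 : Fin (N + 1) → ℕ) j) := by
  rw [rename_X]; exact isWeightedHomogeneous_X k _ _

theorem h_vtx (v : Fin (n + 1)) (j : Ix N n) :
    IsWeightedHomogeneous 1 (vtx v (X j) : PP k N) (wt N n j) := by
  rcases j with i | j
  · rw [vtx_l]; exact isWeightedHomogeneous_X k _ _
  · rw [vtx_r]
    split_ifs
    · exact isWeightedHomogeneous_one k _
    · exact isWeightedHomogeneous_zero k _ _

theorem smap_inc (g : Fin (m + 1) → Fin (n + 1)) :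
    (smap g).comp (inc n) = (inc m : PP k N →ₐ[k] RR k N m) :=
  algHom_ext fun i => by simp [smap_l]

theorem vtx_inc (v : Fin (n + 1)) : (vtx v).comp (inc n) = AlgHom.id k (PP k N) :=
  algHom_ext fun i => by simp [vtx_l]

theorem map_map {A B C : Type} [CommRing A] [CommRing B] [CommRing C] [Algebra k A] [Algebra k B]
    [Algebra k C] (f : A →ₐ[k] B) (g : B →ₐ[k] C) (p : Ideal A) :
    (p.map f).map g = p.map (g.comp f) :=
  Ideal.map_map (f : A →+* B) (g : B →+* C)

theorem cyl_smap (g : Fin (m + 1) → Fin (n + 1)) (p : Ideal (PP k N)) :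
    (cyl p n).map (smap g) = cyl p m := by
  rw [cyl, Ideal.map_sup, map_map, smap_inc, Ideal.map_span, Set.image_singleton, map_sub, map_sum,
    map_one, cyl]
  simp only [smap_r, Finset.sum_fiberwise]

theorem cyl_vtx (v : Fin (n + 1)) (p : Ideal (PP k N)) : (cyl p n).map (vtx v) = p := by
  rw [cyl, Ideal.map_sup, map_map, vtx_inc, Ideal.map_span, Set.image_singleton, map_sub, map_sum,
    map_one]
  simp only [vtx_r, Finset.sum_ite_eq', Finset.mem_univ, if_true, sub_self,
    Ideal.span_singleton_zero, sup_bot_eq]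
  exact Ideal.map_id p

end VP0

open VP0 in
theorem t_VP0 : S_VP0 := by
  intro k _ N n
  refine ⟨fun m g => ⟨cyl_smap g, hom (h_smap g), map (h_smap g), fun I Q h => ⟨?_,
    comap (h_smap g) Q h.hom, ?_, h.rel.imp fun i hi => ?_⟩, fun v f => ?_, fun hg => ⟨?_, ?_⟩⟩,
    hom h_inc, comap h_inc, fun p hp => (map h_inc p hp).sup (wHom_span ?_), fun v =>
      ⟨DFunLike.congr_fun (vtx_inc v), hom (h_vtx v), fun p => ⟨cyl_vtx v p, le_antisymm ?_ ?_⟩⟩⟩
  · exact have := h.prime; Ideal.comap_isPrime _ _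
  · rw [← Ideal.map_le_iff_le_comap, cyl_smap]; exact h.le
  · rwa [Ideal.mem_comap, smap_l]
  · refine DFunLike.congr_fun (show (vtx v).comp (smap g) = vtx (g v) from algHom_ext ?_) f
    rintro (i | j)
    · simp [smap_l, vtx_l]
    · simp [smap_r, vtx_r, eq_comm]
  · refine fun f => ⟨rename (Sum.map id g) f, DFunLike.congr_fun (show (smap g).comp
      (rename (Sum.map id g)) = AlgHom.id k _ from algHom_ext ?_) f⟩
    rintro (i | j)
    · simp [smap_l]
    · simp [smap_r, hg.eq_iff, Finset.filter_eq']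
  · refine le_antisymm (fun f hf => ?_) (Ideal.span_le.2 ?_)
    · have := sub_mem (φ := smap g) (rename (Sum.map id g))
        (J := Ideal.span ((fun j => X (Sum.inr j)) '' (Set.range g)ᶜ)) ?_ f
      · rwa [RingHom.mem_ker.1 hf, map_zero, sub_zero] at this
      rintro (i | j)
      · simp [smap_l]
      · by_cases c : j ∈ Set.range g
        · obtain ⟨i, rfl⟩ := c
          simp [smap_r, hg.eq_iff, Finset.filter_eq']
        · rw [smap_r, Finset.filter_false_of_mem fun i _ e => c ⟨i, e⟩, Finset.sum_empty, map_zero,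
            sub_zero]
          exact Ideal.subset_span ⟨j, c, rfl⟩
    · rintro _ ⟨j, c, rfl⟩
      rw [SetLike.mem_coe, RingHom.mem_ker, smap_r,
        Finset.filter_false_of_mem fun i _ e => c ⟨i, e⟩, Finset.sum_empty]
  · rintro _ rfl
    refine ⟨0, (weightedHomogeneousSubmodule k (wt N n) 0).sub_mem
      (IsWeightedHomogeneous.sum _ _ _ fun i _ => isWeightedHomogeneous_X k _ _)
      (isWeightedHomogeneous_one k _)⟩
  · intro f hf
    have a1 : ∀ j, j ≠ v → (X (Sum.inr j) : RR k N n) ∈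
        cyl p n ⊔ Ideal.span ((fun j => X (Sum.inr j)) '' {v}ᶜ) := fun j c =>
      Ideal.mem_sup_right (Ideal.subset_span ⟨j, c, rfl⟩)
    have := sub_mem (φ := vtx v) (inc n)
      (J := cyl p n ⊔ Ideal.span ((fun j => X (Sum.inr j)) '' {v}ᶜ)) ?_ f
    · rw [← sub_add_cancel f (inc n (vtx v f))]
      exact add_mem this (Ideal.mem_sup_left (Ideal.mem_sup_left (Ideal.mem_map_of_mem _ hf)))
    rintro (i | j)
    · simp [vtx_l]
    · rw [vtx_r]
      split_ifs with c
      · have e : (X (Sum.inr j) : RR k N n) - inc n 1 = (∑ i, X (Sum.inr i) - 1) -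
            ∑ i ∈ Finset.univ.erase j, X (Sum.inr i) := by
          rw [← Finset.add_sum_erase _ _ (Finset.mem_univ j), map_one]; ring
        rw [e]
        exact _root_.sub_mem (Ideal.mem_sup_left (Ideal.mem_sup_right (Ideal.subset_span rfl)))
          (sum_mem fun i hi => a1 i (c ▸ Finset.ne_of_mem_erase hi))
      · rw [map_zero, sub_zero]; exact a1 j c
  · refine sup_le (Ideal.map_le_iff_le_comap.1 (cyl_vtx v p).le) (Ideal.span_le.2 ?_)
    rintro _ ⟨j, c, rfl⟩
    rw [SetLike.mem_coe, Ideal.mem_comap, vtx_r, if_neg (show j ≠ v from c)]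
    exact zero_mem p

end Pool.Agent.P.MP_12d50c_ag
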